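import Pool.Agent.Lib.MP_a33b01_co_G5.StB

set_option autoImplicit false

/-!
# MP_a33b01_co, project G5: the combination lemmas with one save
-/

namespace Pool.Agent.Lib.MP_a33b01_co_G5

open Classical
open Pool.Agent.Lib.MP_a33b01_co (Sph sk cn supp EvenG Removes Wg)

variable {V : Type} {F : Finset (Finset V)} {τ : Finset V} {H : SimpleGraph V}
  {S P A : Finset V} {n : ℕ}

/-- `DelSave (v, w)` with `w ∈ S'`, then the members of `D₁` without saves, then `S'`.
Proof.  `gdel` with `D = insert v D₁`, `k₀ = 1`.  `step`: `Rem.save` with `v`, `w`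
(`fv H P A w = 1` because `w ∈ A` has no neighbours in `P`, `st.AP`).  The other neighbours `u` of
`v` have value at least `1`: for `u ∈ D₁` this is `hleg`; a neighbour `u ∈ S'`, `u ≠ w`, is in
`newA` (`v ∉ l`), so it has no neighbour in `l` (`hAl`) and by `h1` it is not in `A` and has no
neighbour in `P`, so its value is `2`.  Then `rem_seq` for `D₁` (`hrem`, `rem_mono`) and `S'`:
for `u ∈ S'`, `u ≠ w`, the comparison of values is `gdel_val` (with `D = insert v D₁`;
`(l ∩ N(u)) ≤ 2` by `ld_list`, and it is `0` if `u ∈ newA`); `w` is in `newA`, has no neighbours in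
`l`, `P`, `D₁`, so both values are `1`. -/
theorem gsaveS (ih : IH F τ n) (st : St F τ H S P A) {S' D₁ : Finset V} {l : List V} {v w : V}
    (hv : v ∉ D₁) (hvl : v ∉ l) (hSD : insert v D₁ ∪ S' = S) (hd : Disjoint (insert v D₁) S')
    (hmu : mu S' l.toFinset < n)
    (hl : ∀ x ∈ l, x ∈ P ∨ x ∈ D₁) (hnd : l.Nodup) (h6 : l.length ≤ 6)
    (hch : l.IsChain (OutE F τ (rs H (S' ∪ l.toFinset))))
    (hout : ∀ x ∈ l, Out F τ (rs H (S' ∪ l.toFinset)) x)
    (hout' : ∀ x, x ∈ P ∨ x ∈ insert v D₁ → x ∉ l → Out F τ (rs H (S' ∪ l.toFinset)) x)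
    (ind : ∀ a ∈ newA H S' P (insert v D₁) l A, ∀ b ∈ newA H S' P (insert v D₁) l A,
      ¬ H.Adj a b)
    (hAl : ∀ a ∈ newA H S' P (insert v D₁) l A, ∀ x ∈ l, ¬ H.Adj a x)
    (hw : w ∈ S') (hvw : H.Adj v w) (hwA : w ∈ A) (hwN : ∀ x ∈ D₁, ¬ H.Adj w x)
    (hv2 : fv H P A v = 2)
    (h1 : ∀ u ∈ S', u ≠ w → (if u ∈ A then 1 else 0) +
      ((P ∪ insert v D₁).filter fun x => x ∉ l ∧ H.Adj u x).card ≤ 1)
    (hleg : ∀ u ∈ D₁, H.Adj v u → 1 ≤ fv H P A u)
    (hrem : Rem H D₁ (fun u => if H.Adj v u then fv H P A u - 1 else fv H P A u) 0)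
    (hk : 3 ≤ D₁.card) : Cl H S P A := by
  have hS'S : S' ⊆ S := by
    rw [← hSD]
    exact Finset.subset_union_right
  have hDS : insert v D₁ ⊆ S := by
    rw [← hSD]
    exact Finset.subset_union_left
  have hvS : v ∈ S := hDS (Finset.mem_insert_self v D₁)
  have hvP : v ∉ P := fun h => Finset.disjoint_left.mp st.dj hvS h
  have hvS' : v ∉ S' := fun h => Finset.disjoint_left.mp hd (Finset.mem_insert_self v D₁) h
  have hdP : Disjoint (insert v D₁) P := Finset.disjoint_of_subset_left hDS st.dj
  have hd₁ : Disjoint D₁ S' := Finset.disjoint_of_subset_left (Finset.subset_insert v D₁) hd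
  have hl' : ∀ x ∈ l, x ∈ P ∨ x ∈ insert v D₁ := fun x hx =>
    (hl x hx).imp id (Finset.mem_insert_of_mem)
  have hS'l : ∀ u ∈ S', u ∉ l := by
    intro u hu hul
    rcases hl' u hul with h | h
    · exact Finset.disjoint_left.mp st.dj (hS'S hu) h
    · exact Finset.disjoint_left.mp hd h hu
  have hchH : l.IsChain H.Adj := hch.imp fun x y h => h.1.1
  have hcard : S.card = D₁.card + 1 + S'.card := by
    rw [← hSD, Finset.card_union_of_disjoint hd, Finset.card_insert_of_notMem hv]
  -- a neighbour of `v` in `S'` different from `w` has value two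
  have hnb : ∀ u ∈ S', H.Adj v u → u ≠ w → fv H P A u = 2 := by
    intro u hu hvu hne
    have hnew : u ∈ newA H S' P (insert v D₁) l A := by
      unfold newA
      rw [Finset.mem_filter]
      exact ⟨hu, Or.inr ⟨v, Finset.mem_union_right _ (Finset.mem_insert_self v D₁), hvl,
        hvu.symm⟩⟩
    have hvm : v ∈ (P ∪ insert v D₁).filter fun x => x ∉ l ∧ H.Adj u x := by
      rw [Finset.mem_filter]
      exact ⟨Finset.mem_union_right _ (Finset.mem_insert_self v D₁), hvl, hvu.symm⟩
    have h2 := h1 u hu hne
    have h3 : 0 < ((P ∪ insert v D₁).filter fun x => x ∉ l ∧ H.Adj u x).card :=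
      Finset.card_pos.mpr ⟨v, hvm⟩
    have hPe : (P.filter fun p => H.Adj u p) = ∅ := by
      rw [Finset.filter_eq_empty_iff]
      intro x hx hux
      have hxl : x ∉ l := fun hxl => hAl u hnew x hxl hux
      have hxm : x ∈ (P ∪ insert v D₁).filter fun x => x ∉ l ∧ H.Adj u x := by
        rw [Finset.mem_filter]
        exact ⟨Finset.mem_union_left _ hx, hxl, hux⟩
      have h4 : ((P ∪ insert v D₁).filter fun x => x ∉ l ∧ H.Adj u x).card ≤ 1 :=
        (Nat.le_add_left _ _).trans h2
      have h5 := Finset.card_le_one.mp h4 x hxm v hvm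
      exact hvP (h5 ▸ hx)
    have huA : u ∉ A := by
      intro huA
      rw [if_pos huA] at h2
      omega
    unfold fv
    rw [if_neg huA, hPe]
    rfl
  have hfw : fv H P A w = 1 := by
    have hPe : (P.filter fun p => H.Adj w p) = ∅ := by
      rw [Finset.filter_eq_empty_iff]
      intro x hx
      exact st.AP w hwA x hx
    unfold fv
    rw [if_pos hwA, hPe]
    rfl
  refine gdel ih st hS'S hDS hd hmu hl' hnd h6 hch hout hout' ind hAl (k₀ := 1) ?_ (by omega)
  intro k hrk
  have key : Rem H (S.erase v)
      (fun u => if H.Adj v u ∧ u ≠ w then fv H P A u - 1 else fv H P A u) k := by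
    have he : S.erase v = D₁ ∪ S' := by
      rw [← hSD, Finset.insert_union, Finset.erase_insert]
      rw [Finset.mem_union]
      exact fun h => h.elim hv hvS'
    have hr1 : Rem H D₁
        (fun u => if H.Adj v u ∧ u ≠ w then fv H P A u - 1 else fv H P A u) 0 := by
      refine rem_mono (fun u _ => ?_) (fun _ _ _ _ h => h) hrem
      by_cases hvu : H.Adj v u
      · by_cases huw : u ≠ w
        · simp [hvu, huw]
        · simp [hvu, huw]
      · simp [hvu]
    have hr2 := rem_seq (f := fun u => if H.Adj v u ∧ u ≠ w then fv H P A u - 1 else fv H P A u)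
      hd₁ hr1 (fun u hu => ?_) hrk
    · rw [he]
      rwa [zero_add] at hr2
    · by_cases huw : u = w
      · subst huw
        have hDe : (D₁.filter fun x => H.Adj u x) = ∅ := by
          rw [Finset.filter_eq_empty_iff]
          intro x hx
          exact hwN x hx
        have hnew : u ∈ newA H S' P (insert v D₁) l A := by
          unfold newA
          rw [Finset.mem_filter]
          exact ⟨hu, Or.inl hwA⟩
        have hg1 : fv (rs H (S' ∪ l.toFinset)) l.toFinset (newA H S' P (insert v D₁) l A) u
            ≤ 1 := by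
          unfold fv
          rw [if_pos hnew]
          omega
        have e1 : (if H.Adj v u ∧ u ≠ u then fv H P A u - 1 else fv H P A u) = 1 := by
          rw [if_neg (fun h => h.2 rfl), hfw]
        rw [hDe, Finset.card_empty, add_zero]
        simp only [e1]
        exact hg1
      · have hgv := gdel_val (H := H) (A := A) (S' := S') hdP hl' hu (hS'l u hu) ?_
          (h1 u hu huw)
        · by_cases hvu : H.Adj v u
          · have hfe : ((insert v D₁).filter fun x => H.Adj u x) =
                insert v (D₁.filter fun x => H.Adj u x) := by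
              rw [Finset.filter_insert, if_pos hvu.symm]
            rw [hfe, Finset.card_insert_of_notMem
              (fun h => hv (Finset.mem_filter.mp h).1)] at hgv
            simp only [hvu, huw, ne_eq, not_false_eq_true, and_self, if_true]
            omega
          · have hfe : ((insert v D₁).filter fun x => H.Adj u x) =
                (D₁.filter fun x => H.Adj u x) := by
              rw [Finset.filter_insert, if_neg (fun h => hvu h.symm)]
            rw [hfe] at hgv
            simp only [hvu, false_and, if_false]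
            exact hgv
        · by_cases hnew : u ∈ newA H S' P (insert v D₁) l A
          · left
            have hle : (l.toFinset.filter fun p => H.Adj u p) = ∅ := by
              rw [Finset.filter_eq_empty_iff]
              intro x hx
              exact hAl u hnew x (List.mem_toFinset.mp hx)
            rw [hle]
            simp
          · right
            exact ⟨ld_list st.gd hnd hchH h6 (hS'l u hu), hnew⟩
  have hres := Rem.save S (fv H P A) v w k hvS (hS'S hw) hvw (by rw [hfw, hv2]; norm_num)
    (fun u hu hvu huw => ?_) key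
  · rwa [hfw] at hres
  · rw [← hSD, Finset.mem_union, Finset.mem_insert] at hu
    rcases hu with (hu | hu) | hu
    · exact absurd (hu ▸ hvu) (H.loopless.irrefl v)
    · exact hleg u hu hvu
    · rw [hnb u hu hvu huw]
      norm_num

end Pool.Agent.Lib.MP_a33b01_co_G5
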