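import Pool.Agent.Lib.MP_a33b01_co_G5.FcG
import Pool.Agent.Lib.MP_a33b01_co_G5.StC

set_option autoImplicit false

/-!
# MP_a33b01_co, project G5: deletion of an initial arc of the cycle: the combinatorial facts
-/

namespace Pool.Agent.Lib.MP_a33b01_co_G5

open Classical
open Pool.Agent.Lib.MP_a33b01_co (Sph sk cn supp EvenG Removes Wg)

variable {V : Type} {F K : Finset (Finset V)} {τ : Finset V} {H : SimpleGraph V}
  {S P A D S' Z : Finset V} {m q k n : ℕ} {c : ℤ → V} {e : ℤ} {l : List V} {a b : V}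

/-- The data of a deletion of `c 1, …, c e` and the vertices of `Z` (exceptional 2-chords at
`c 1`, and at `c k` if `e = k`); `l` is the new path, it contains `Z`. -/
structure AH (H : SimpleGraph V) (S P A : Finset V) (q k : ℕ) (c : ℤ → V) (e : ℤ)
    (D S' Z : Finset V) (l : List V) : Prop where
  e1 : 1 ≤ e
  ek : e ≤ k
  sub : S' ⊆ S
  hD : ∀ v, v ∈ D ↔ (∃ i : ℤ, 1 ≤ i ∧ i ≤ e ∧ c i = v) ∨ v ∈ Z
  dS : ∀ v ∈ D, v ∉ S'
  cf : ∀ i : ℤ, 2 ≤ i → i + 1 ≤ e → ∀ u x, ¬ Cf H c i u x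
  ends : e = k ∨ c (e + 1) ∉ S' ∨ (e + 1 < k ∧ c (e + 1) ∉ A ∧ c (e + 2) ∉ A)
  lP : ∀ x ∈ l, x ∈ P ∨ x ∈ Z
  Zl : ∀ z ∈ Z, z ∈ l
  Zt : ∀ z ∈ Z, inn c z ∧ q = 6 ∧ ((H.Adj z (c 1) ∧ H.Adj z (c (-2))) ∨
    (e = k ∧ H.Adj z (c k) ∧ H.Adj z (c (-3))))
  Zm : q = 6 → ∀ z, inn c z → ((H.Adj z (c 1) ∧ H.Adj z (c (-2))) ∨
    (e = k ∧ H.Adj z (c k) ∧ H.Adj z (c (-3)))) → z ∈ Z
  Pl : ∀ p ∈ P, p ∉ l → ∀ y, H.Adj p y → y ∈ P ∨ ∃ i : ℤ, 1 ≤ i ∧ i ≤ e ∧ y = c i

/-- The members of `newA`: a member `c t` of `A` with `t > e`, or a neighbour of some `c i`,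
`1 ≤ i ≤ e`, which is inside the cycle or is `c (e + 1)` (`FC.nbr`; `Pl` for the neighbours of
`P \ l`; the members of `Z` are in `l`). -/
theorem FC.arc_cls (h : FC F τ H S P A m c K q k n) (ha : AH H S P A q k c e D S' Z l)
    (h1 : a ∈ newA H S' P D l A) :
    a ∈ S' ∧ ((a ∈ A ∧ ∃ t : ℤ, e < t ∧ t < k ∧ c t = a) ∨
      ∃ i : ℤ, 1 ≤ i ∧ i ≤ e ∧ H.Adj a (c i) ∧
        (inn c a ∨ (i = e ∧ a = c (e + 1) ∧ e + 1 < k ∧ c (e + 1) ∉ A ∧ c (e + 2) ∉ A))) := by
  have hm := h.ctx.hm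
  have hc := h.ctx
  unfold newA at h1
  rw [Finset.mem_filter] at h1
  obtain ⟨haS', h2⟩ := h1
  have hD : ∀ i : ℤ, 1 ≤ i → i ≤ e → a ≠ c i := by
    intro i h3 h4 h5
    exact ha.dS a ((ha.hD a).2 (Or.inl ⟨i, h3, h4, h5.symm⟩)) haS'
  have haS : a ∈ S := ha.sub haS'
  have haP : a ∉ P := Finset.disjoint_left.1 hc.st.dj haS
  refine ⟨haS', ?_⟩
  rcases h2 with h2 | ⟨d, hd, hdl, had⟩
  · left
    obtain ⟨t, h3, h4, h5⟩ := hc.Aidx h2
    refine ⟨h2, t, ?_, by omega, h5⟩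
    by_contra hcon
    exact hD t (by omega) (by omega) h5.symm
  · right
    rcases Finset.mem_union.1 hd with hd | hd
    · rcases ha.Pl d hd hdl a had.symm with h3 | ⟨i, h3, h4, h5⟩
      · exact absurd h3 haP
      · exact absurd h5 (hD i h3 h4)
    · rcases (ha.hD d).1 hd with ⟨i, h3, h4, h5⟩ | h3
      · rw [← h5] at had
        refine ⟨i, h3, h4, had, ?_⟩
        rcases h.nbr had.symm with h6 | h6 | h6
        · exact Or.inl h6
        · right
          have hie : i = e := by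
            by_contra hcon
            exact hD (i + 1) (by omega) (by omega) h6
          subst hie
          rcases ha.ends with h7 | h7 | h7
          · exfalso
            apply haP
            have e1 : i + 1 = (1 - q) + m := by rw [h7, hm]; push_cast; ring
            rw [h6, e1, hc.bd.cy.per]
            exact (hc.cP (by omega) (by have := hc.q1; omega)).1
          · rw [← h6] at h7
            exact absurd haS' h7
          · exact ⟨rfl, h6, h7⟩
        · exfalso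
          rcases eq_or_lt_of_le h3 with h7 | h7
          · apply haP
            rw [h6, ← h7]
            have hq := hc.q1
            exact (hc.cP (by omega) (by omega)).1
          · exact hD (i - 1) (by omega) (by omega) h6
      · exact absurd (ha.Zl d h3) hdl

/-- All the members of `P ∪ D` outside of `l` are on the outer region (`FC.outc`). -/
theorem FC.arc_out (h : FC F τ H S P A m c K q k n) (ha : AH H S P A q k c e D S' Z l)
    {x : V} (hx : x ∈ P ∨ x ∈ D) (hl : x ∉ l) (W : Finset V) : Out F τ (rs H W) x := by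
  rcases hx with hx | hx
  · obtain ⟨i, -, -, h1⟩ := (h.ctx.hP x).1 hx
    rw [← h1]
    exact h.outc W i
  · rcases (ha.hD x).1 hx with ⟨i, -, -, h1⟩ | h1
    · rw [← h1]
      exact h.outc W i
    · exact absurd (ha.Zl x h1) hl

end Pool.Agent.Lib.MP_a33b01_co_G5
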