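import Pool.Agent.Lib.MP_a33b01_co_G5.FcG
import Pool.Agent.Lib.MP_a33b01_co_G5.StC
import Pool.Agent.Lib.MP_a33b01_co_G5.ArA1

set_option autoImplicit false

/-!
# MP_a33b01_co, project G5: deletion of an initial arc of the cycle: the combinatorial facts
-/

namespace Pool.Agent.Lib.MP_a33b01_co_G5

open Classical
open Pool.Agent.Lib.MP_a33b01_co (Sph sk cn supp EvenG Removes Wg)

variable {V : Type} {F K : Finset (Finset V)} {τ : Finset V} {H : SimpleGraph V}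
  {S P A D S' Z : Finset V} {m q k n : ℕ} {c : ℤ → V} {e : ℤ} {l : List V} {a b : V}

/-- two adjacent vertices inside with neighbours `c i`, `c j`, `i ≤ j` -/
private theorem ArA2_le (h : FC F τ H S P A m c K q k n) (ha : AH H S P A q k c e D S' Z l)
    (ia : inn c a) (ib : inn c b) (hab : H.Adj a b) {i j : ℤ} (hi : 1 ≤ i) (hij : i ≤ j)
    (hj : j ≤ e) (hai : H.Adj a (c i)) (hbj : H.Adj b (c j)) : False := by
  have hek := ha.ek
  rcases (by omega : j = i ∨ j = i + 1 ∨ j = i + 2 ∨ i + 3 ≤ j) with h1 | h1 | h1 | h1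
  · subst h1
    exact h.ctx.st.gd.tri a b (c j) hab hbj hai
  · subst h1
    rcases h.ctx.st.gd.quad a b (c (i + 1)) (c i) hab hbj (h.ctx.bd.cy.adj i).symm hai.symm
      with h2 | h2
    · exact ia _ h2.symm
    · exact ib _ h2.symm
  · subst h1
    refine ha.cf (i + 1) (by omega) (by omega) a b ⟨ia, ib, ?_, hab, ?_⟩
    · rw [add_sub_cancel_right]
      exact hai.symm
    · have e1 : i + 1 + 1 = i + 2 := by ring
      rw [e1]
      exact hbj
  · exact h.three a b ia ib hab i j hi h1 (by omega) hai.symm hbj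

private theorem ArA2_in (h : FC F τ H S P A m c K q k n) (ha : AH H S P A q k c e D S' Z l)
    (ia : inn c a) (ib : inn c b) (hab : H.Adj a b) {i j : ℤ} (hi : 1 ≤ i) (hie : i ≤ e)
    (hj : 1 ≤ j) (hje : j ≤ e) (hai : H.Adj a (c i)) (hbj : H.Adj b (c j)) : False := by
  rcases le_total i j with h1 | h1
  · exact ArA2_le h ha ia ib hab hi h1 hje hai hbj
  · exact ArA2_le h ha ib ia hab.symm hj h1 hie hbj hai

/-- a vertex inside with a neighbour `c i`, `1 ≤ i ≤ e`, and a vertex `c t`, `e < t ≤ k` -/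
private theorem ArA2_io (h : FC F τ H S P A m c K q k n) (ia : inn c a) {i t : ℤ}
    (hi : 1 ≤ i) (hie : i ≤ e) (ht : e < t) (htk : t ≤ k) (hai : H.Adj a (c i)) :
    ¬ H.Adj a (c t) :=
  h.two a ia i t hi (by omega) htk hai

private theorem ArA2_Ae (h : FC F τ H S P A m c K q k n) (he : 1 ≤ e) {t : ℤ} (ht : e < t)
    (htk : t < k) (htA : c t ∈ A) (h1 : c (e + 1) ∉ A) (h2 : c (e + 2) ∉ A) :
    ¬ H.Adj (c t) (c (e + 1)) := by
  intro hadj
  have h3 : t ≠ e + 1 := by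
    rintro rfl
    exact h1 htA
  rcases noch_idx h.ctx h.noch (i := e + 1) (j := t) (by omega) (by omega) (by omega) hadj.symm
    with h4 | h4
  · apply h2
    have e1 : e + 2 = t := by omega
    rw [e1]
    exact htA
  · omega

/-- `FC.arc_cls`.  Two members of `A`: `st.ind`.  `a = c t ∈ A` and `b` inside with the neighbour
`c i`: `two`.  `a = c t ∈ A` and `b = c (e + 1)`: `noch`, `c (e + 2) ∉ A`.  `a`, `b` inside with the
neighbours `c i`, `c j`, `i ≤ j`: `i = j` a triangle, `j = i + 1` a 4-cycle, `j = i + 2` a conflict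
(`cf`), `j ≥ i + 3`: `three`.  `a` inside and `b = c (e + 1)`: `two`. -/
theorem FC.arc_ind (h : FC F τ H S P A m c K q k n) (ha : AH H S P A q k c e D S' Z l)
    (h1 : a ∈ newA H S' P D l A) (h2 : b ∈ newA H S' P D l A) : ¬ H.Adj a b := by
  intro hab
  have he1 := ha.e1
  have hek := ha.ek
  obtain ⟨-, ⟨haA, t, ht, htk, rfl⟩ | ⟨i, hi, hie, hai, ia | ⟨rfl, rfl, hik, hiA, hiA'⟩⟩⟩ :=
    h.arc_cls ha h1
  · obtain ⟨-, ⟨hbA, s, hs, hsk, rfl⟩ | ⟨j, hj, hje, hbj, ib | ⟨rfl, rfl, hjk, hjA, hjA'⟩⟩⟩ :=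
      h.arc_cls ha h2
    · exact h.ctx.st.ind _ haA _ hbA hab
    · exact ArA2_io h ib hj hje ht htk.le hbj hab.symm
    · exact ArA2_Ae h he1 ht htk haA hjA hjA' hab
  · obtain ⟨-, ⟨hbA, s, hs, hsk, rfl⟩ | ⟨j, hj, hje, hbj, ib | ⟨rfl, rfl, hjk, hjA, hjA'⟩⟩⟩ :=
      h.arc_cls ha h2
    · exact ArA2_io h ia hi hie hs hsk.le hai hab
    · exact ArA2_in h ha ia ib hab hi hie hj hje hai hbj
    · exact ArA2_io h ia hi hie (by omega) hjk.le hai hab
  · obtain ⟨-, ⟨hbA, s, hs, hsk, rfl⟩ | ⟨j, hj, hje, hbj, ib | ⟨h3, rfl, hjk, hjA, hjA'⟩⟩⟩ :=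
      h.arc_cls ha h2
    · exact ArA2_Ae h he1 hs hsk hbA hiA hiA' hab.symm
    · exact ArA2_io h ib hj hje (by omega) hik.le hbj hab.symm
    · exact H.loopless.irrefl _ hab

/-- `x ∈ P`: for `a ∈ A` by `st.AP`; for `a` inside with the neighbour `c i` by `twoP`, `Zm` (a
member of `Z` is not in `S'`); for `a = c (e + 1)` by `noch` (`e + 1 < k`).
`x ∈ Z` with `x ~ c 1`: `a = c t ∈ A` or `a = c (e + 1)`: `two`; `a` inside with the neighbour
`c i`: `i = 1` a triangle, `i = 2` a 4-cycle, `i = 3` a conflict (`x ≠ a`), `i ≥ 4`: `three`.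
`x ∈ Z` with `x ~ c k`, `e = k`: in the same way. -/
theorem FC.arc_hAl (h : FC F τ H S P A m c K q k n) (ha : AH H S P A q k c e D S' Z l)
    (h1 : a ∈ newA H S' P D l A) {x : V} (hx : x ∈ l) : ¬ H.Adj a x := by
  intro hax
  have he1 := ha.e1
  have hek := ha.ek
  obtain ⟨haS, hcls⟩ := h.arc_cls ha h1
  rcases ha.lP x hx with hxP | hxZ
  · obtain ⟨j, hj1, hj0, rfl⟩ := (h.ctx.hP x).1 hxP
    rcases hcls with ⟨haA, t, ht, htk, rfl⟩ | ⟨i, hi, hie, hai, ia | ⟨rfl, rfl, hik, hiA, hiA'⟩⟩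
    · exact h.ctx.st.AP _ haA _ hxP hax
    · obtain ⟨hq, h2⟩ := h.twoP a ia i j hi (by omega) hj1 hj0 hai hax
      have haZ : a ∈ Z := by
        refine ha.Zm hq a ia ?_
        rcases h2 with ⟨rfl, rfl⟩ | ⟨rfl, rfl⟩
        · exact Or.inl ⟨hai, hax⟩
        · exact Or.inr ⟨by omega, hai, hax⟩
      exact ha.dS a ((ha.hD a).2 (Or.inr haZ)) haS
    · rcases noch_idx h.ctx h.noch (i := j) (j := i + 1) hj1 (by omega) (by omega) hax.symm
        with h4 | h4
      · omega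
      · omega
  · obtain ⟨ix, -, hZ⟩ := ha.Zt x hxZ
    rcases hZ with ⟨hx1, -⟩ | ⟨hek', hxk, -⟩
    · rcases hcls with ⟨haA, t, ht, htk, rfl⟩ |
        ⟨i, hi, hie, hai, ia | ⟨rfl, rfl, hik, hiA, hiA'⟩⟩
      · exact ArA2_io h ix le_rfl he1 ht htk.le hx1 hax.symm
      · exact ArA2_in h ha ia ix hax hi hie le_rfl he1 hai hx1
      · exact ArA2_io h ix le_rfl he1 (by omega) hik.le hx1 hax.symm
    · rcases hcls with ⟨haA, t, ht, htk, rfl⟩ |
        ⟨i, hi, hie, hai, ia | ⟨rfl, rfl, hik, hiA, hiA'⟩⟩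
      · omega
      · rw [← hek'] at hxk
        exact ArA2_in h ha ia ix hax hi hie he1 le_rfl hai hxk
      · omega

end Pool.Agent.Lib.MP_a33b01_co_G5
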