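import Pool.Agent.Lib.MP_a33b01_co_G5.FcG
import Pool.Agent.Lib.MP_a33b01_co_G5.StC
import Pool.Agent.Lib.MP_a33b01_co_G5.ArA1
import Pool.Agent.Lib.MP_a33b01_co_G5.ArA2

set_option autoImplicit false

/-!
# MP_a33b01_co, project G5: deletion of an initial arc of the cycle: the combinatorial facts
-/

namespace Pool.Agent.Lib.MP_a33b01_co_G5

open Classical
open Pool.Agent.Lib.MP_a33b01_co (Sph sk cn supp EvenG Removes Wg)

variable {V : Type} {F K : Finset (Finset V)} {τ : Finset V} {H : SimpleGraph V}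
  {S P A D S' Z : Finset V} {m q k n : ℕ} {c : ℤ → V} {e : ℤ} {l : List V} {a b : V}

/-- the members of the set are members of the arc -/
private theorem ArA3_mem (h : FC F τ H S P A m c K q k n) (ha : AH H S P A q k c e D S' Z l)
    {u : V} (hu : u ∈ S') {x : V} (hx : x ∈ (P ∪ D).filter fun x => x ∉ l ∧ H.Adj u x) :
    ∃ i : ℤ, 1 ≤ i ∧ i ≤ e ∧ c i = x ∧ H.Adj u (c i) := by
  rw [Finset.mem_filter, Finset.mem_union] at hx
  obtain ⟨hx, hxl, hux⟩ := hx
  rcases hx with hx | hx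
  · exfalso
    rcases ha.Pl x hx hxl u hux.symm with h1 | ⟨i, h1, h2, h3⟩
    · exact (Finset.disjoint_left.1 h.ctx.st.dj) (ha.sub hu) h1
    · exact ha.dS u ((ha.hD u).2 (Or.inl ⟨i, h1, h2, h3.symm⟩)) hu
  · rcases (ha.hD x).1 hx with ⟨i, h1, h2, h3⟩ | h1
    · exact ⟨i, h1, h2, h3, by rw [h3]; exact hux⟩
    · exact absurd (ha.Zl x h1) hxl

/-- a vertex of the cycle in `S'` with a neighbour on the arc -/
private theorem ArA3_on (h : FC F τ H S P A m c K q k n) (ha : AH H S P A q k c e D S' Z l)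
    {t i : ℤ} (hu : c t ∈ S') (h1 : -(q : ℤ) < t) (h2 : t ≤ k) (h3 : 1 ≤ i) (h4 : i ≤ e)
    (h5 : H.Adj (c t) (c i)) : t = i + 1 ∧ i = e := by
  have hek := ha.ek
  have hq := h.q2
  have ht1 : 1 ≤ t := by
    by_contra h6
    exact (h.ctx.cP (i := t) h1 (by omega)).2 (ha.sub hu)
  have hte : e < t := by
    by_contra h6
    exact ha.dS _ ((ha.hD _).2 (Or.inl ⟨t, ht1, by omega, rfl⟩)) hu
  rcases noch_idx h.ctx h.noch (i := i) (j := t) (by omega) (by omega) h2 h5.symm with h6 | h6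
  · exact ⟨h6, by omega⟩
  · omega

/-- `Pl`: no neighbours in `P \ l`.  `u` inside: not in `A`, at most one neighbour `c i` (`two`).
`u = c t`, `t > e`: a neighbour among `c 1, …, c e` only if `t = e + 1`, and then it is not in
`A` (`ends`), or (if `e = 1`, `t = k`, …) `noch`. -/
theorem FC.arc_h1 (h : FC F τ H S P A m c K q k n) (ha : AH H S P A q k c e D S' Z l)
    {u : V} (hu : u ∈ S') :
    (if u ∈ A then 1 else 0) + ((P ∪ D).filter fun x => x ∉ l ∧ H.Adj u x).card ≤ 1 := by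
  by_cases huA : u ∈ A
  · have h0 : ((P ∪ D).filter fun x => x ∉ l ∧ H.Adj u x) = ∅ := by
      rw [Finset.eq_empty_iff_forall_notMem]
      intro x hx
      obtain ⟨i, h1, h2, -, h3⟩ := ArA3_mem h ha hu hx
      obtain ⟨t, ht1, ht2, rfl⟩ := h.ctx.Aidx huA
      obtain ⟨h4, h5⟩ := ArA3_on h ha hu (by omega) (by omega) h1 h2 h3
      rw [h5] at h4
      rcases ha.ends with h6 | h6 | ⟨-, h6, -⟩
      · omega
      · rw [← h4] at h6
        exact h6 hu
      · rw [← h4] at h6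
        exact h6 huA
    rw [h0, if_pos huA, Finset.card_empty]
  · rw [if_neg huA, zero_add, Finset.card_le_one]
    intro x hx y hy
    obtain ⟨i, hi1, hi2, rfl, hi3⟩ := ArA3_mem h ha hu hx
    obtain ⟨j, hj1, hj2, rfl, hj3⟩ := ArA3_mem h ha hu hy
    have hek := ha.ek
    by_cases hin : inn c u
    · rcases lt_trichotomy i j with h1 | h1 | h1
      · exact absurd hj3 (h.two u hin i j hi1 h1 (by omega) hi3)
      · rw [h1]
      · exact absurd hi3 (h.two u hin j i hj1 h1 (by omega) hj3)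
    · have h1 : ∃ i, c i = u := by
        by_contra h2
        exact hin fun i hi => h2 ⟨i, hi⟩
      obtain ⟨t, ht1, ht2, rfl⟩ := h.ctx.cidx h1
      have h2 := ArA3_on h ha hu ht1 ht2 hi1 hi2 hi3
      have h3 := ArA3_on h ha hu ht1 ht2 hj1 hj2 hj3
      rw [h2.2, h3.2]

end Pool.Agent.Lib.MP_a33b01_co_G5
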