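import Pool.Agent.Lib.MP_a33b01_co_G5.ArA

set_option autoImplicit false

/-!
# MP_a33b01_co, project G5: deletion of an initial arc of the cycle: the possible new paths
-/

namespace Pool.Agent.Lib.MP_a33b01_co_G5

open Classical
open Pool.Agent.Lib.MP_a33b01_co (Sph sk cn supp EvenG Removes Wg)

variable {V : Type} {F K : Finset (Finset V)} {τ : Finset V} {H : SimpleGraph V}
  {S P A D S' : Finset V} {m q k n : ℕ} {c : ℤ → V} {e : ℤ} {z z' : V}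

/-- The properties of the new path `l`. -/
structure LH (F : Finset (Finset V)) (τ : Finset V) (H : SimpleGraph V) (W : Finset V)
    (l : List V) : Prop where
  nd : l.Nodup
  h6 : l.length ≤ 6
  ch : l.IsChain (OutE F τ (rs H W))
  out : ∀ x ∈ l, Out F τ (rs H W) x

/-- `l = P`, `Z = ∅` -/
theorem FC.ar0 (h : FC F τ H S P A m c K q k n) (h1 : 1 ≤ e) (h2 : e ≤ k) (hS : S' ⊆ S)
    (hD : ∀ v, v ∈ D ↔ (∃ i : ℤ, 1 ≤ i ∧ i ≤ e ∧ c i = v))
    (hdS : ∀ v ∈ D, v ∉ S') (hcf : ∀ i : ℤ, 2 ≤ i → i + 1 ≤ e → ∀ u x, ¬ Cf H c i u x)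
    (hends : e = k ∨ c (e + 1) ∉ S' ∨ (e + 1 < k ∧ c (e + 1) ∉ A ∧ c (e + 2) ∉ A))
    (hz : ∀ z, q = 6 → ¬ Zp H c z)
    (hz' : e = k → q = 6 → ∀ z, inn c z → H.Adj z (c k) → ¬ H.Adj z (c (-3))) :
    AH H S P A q k c e D S' ∅ (arc c (1 - q) q) ∧
      LH F τ H (S' ∪ (arc c (1 - q) q).toFinset) (arc c (1 - q) q) ∧
      (arc c (1 - q) q).length ≤ P.card := by
  obtain ⟨hl1, hl2, hl3, _⟩ := h.ctx.Plist
  have hlP : ∀ x, x ∈ arc c (1 - q) q ↔ x ∈ P := fun x => by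
    rw [← hl1, List.mem_toFinset]
  refine ⟨⟨h1, h2, hS, fun v => ?_, hdS, hcf, hends, fun x hx => Or.inl ((hlP x).1 hx),
    fun z hz => absurd hz (Finset.notMem_empty z), fun z hz => absurd hz (Finset.notMem_empty z),
    fun hq z hzi hz2 => ?_, fun p hp hpl => absurd ((hlP p).2 hp) hpl⟩,
    ⟨hl2, ?_, ?_, fun x hx => ?_⟩, ?_⟩
  · rw [hD v]
    constructor
    · exact Or.inl
    · rintro (h3 | h3)
      · exact h3
      · exact absurd h3 (Finset.notMem_empty v)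
  · rcases hz2 with ⟨h3, h4⟩ | ⟨h3, h4, h5⟩
    · exact absurd ⟨hzi, h3, h4⟩ (hz z hq)
    · exact absurd h5 (hz' h3 hq z hzi h4)
  · rw [hl3]
    exact h.ctx.q6
  · refine h.outArc fun i h3 h4 => Finset.mem_union_right _ ?_
    rw [List.mem_toFinset, mem_arc]
    exact ⟨i, h3, h4, rfl⟩
  · rw [mem_arc] at hx
    obtain ⟨i, _, _, rfl⟩ := hx
    exact h.outc _ i
  · rw [hl3, h.ctx.Pcard]

/-- `l = c (-5), c (-4), c (-3), c (-2), z`, `Z = {z}` (`FC.zp_N`, `FC.zp_out`, `FC.zp_uniq`) -/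
theorem FC.ar1 (h : FC F τ H S P A m c K q k n) (h1 : 1 ≤ e) (h2 : e ≤ k) (hS : S' ⊆ S)
    (hD : ∀ v, v ∈ D ↔ (∃ i : ℤ, 1 ≤ i ∧ i ≤ e ∧ c i = v) ∨ v ∈ ({z} : Finset V))
    (hdS : ∀ v ∈ D, v ∉ S') (hcf : ∀ i : ℤ, 2 ≤ i → i + 1 ≤ e → ∀ u x, ¬ Cf H c i u x)
    (hends : e = k ∨ c (e + 1) ∉ S' ∨ (e + 1 < k ∧ c (e + 1) ∉ A ∧ c (e + 2) ∉ A))
    (hq : q = 6) (hz : Zp H c z)
    (hz' : e = k → ∀ z, inn c z → H.Adj z (c k) → ¬ H.Adj z (c (-3))) :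
    AH H S P A q k c e D S' {z} (arc c (-5) 4 ++ [z]) ∧
      LH F τ H (S' ∪ (arc c (-5) 4 ++ [z]).toFinset) (arc c (-5) 4 ++ [z]) ∧
      (arc c (-5) 4 ++ [z]).length ≤ P.card := by
  have h9 := h.m9
  have hk3 := h.k3
  have hzi : ∀ i, c i ≠ z := hz.iz
  have hcP : ∀ i : ℤ, -6 < i → i ≤ 0 → c i ∈ P := fun i h3 h4 =>
    (h.ctx.cP (by omega) h4).1
  have hc1S : c 1 ∈ S ∧ c 1 ∉ P := h.ctx.cS le_rfl (by omega)
  have hml : ∀ x, x ∈ arc c (-5) 4 ++ [z] ↔ (∃ i : ℤ, -5 ≤ i ∧ i < -1 ∧ c i = x) ∨ x = z := by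
    intro x
    rw [List.mem_append, mem_arc, List.mem_singleton]
    have e1 : ((-5 : ℤ) + ((4 : ℕ) : ℤ)) = -1 := by norm_num
    rw [e1]
  have hlP : ∀ x, x ∈ arc c (-5) 4 ++ [z] → x ∈ P ∨ x = z := by
    intro x hx
    rcases (hml x).1 hx with ⟨i, h3, h4, rfl⟩ | h3
    · exact Or.inl (hcP i (by omega) (by omega))
    · exact Or.inr h3
  have hc1W : c 1 ∉ S' ∪ (arc c (-5) 4 ++ [z]).toFinset := by
    rw [Finset.mem_union, List.mem_toFinset]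
    rintro (h3 | h3)
    · exact hdS _ ((hD _).2 (Or.inl ⟨1, le_rfl, h1, rfl⟩)) h3
    · rcases hlP _ h3 with h4 | h4
      · exact hc1S.2 h4
      · exact hzi 1 h4
  have hWl : ∀ x, x ∈ arc c (-5) 4 ++ [z] → x ∈ S' ∪ (arc c (-5) 4 ++ [z]).toFinset :=
    fun x hx => Finset.mem_union_right _ (List.mem_toFinset.2 hx)
  have hlen : (arc c (-5) 4 ++ [z]).length = 5 := by
    rw [List.length_append, arc_length, List.length_singleton]
  refine ⟨⟨h1, h2, hS, hD, hdS, hcf, hends, fun x hx => ?_, fun x hx => ?_, fun x hx => ?_,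
    fun _ x hxi hx2 => ?_, fun p hp hpl y hy => ?_⟩, ⟨?_, ?_, ?_, fun x hx => ?_⟩, ?_⟩
  · rw [Finset.mem_singleton]
    exact hlP x hx
  · rw [Finset.mem_singleton] at hx
    exact (hml x).2 (Or.inr hx)
  · rw [Finset.mem_singleton] at hx
    subst hx
    exact ⟨hz.iz, hq, Or.inl ⟨hz.z1, hz.z2⟩⟩
  · rw [Finset.mem_singleton]
    rcases hx2 with ⟨h3, h4⟩ | ⟨h3, h4, h5⟩
    · exact h.zp_uniq ⟨hxi, h3, h4⟩ hz
    · exact absurd h5 (hz' h3 x hxi h4)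
  · obtain ⟨i, h3, h4, rfl⟩ := (h.ctx.hP p).1 hp
    have h5 : ¬ (i < -1) := fun h6 => hpl ((hml _).2 (Or.inl ⟨i, by omega, h6, rfl⟩))
    have h6 : i = -1 ∨ i = 0 := by omega
    rcases h6 with rfl | rfl
    · rcases (h.zp_N hz).1 hy with rfl | rfl
      · exact Or.inl (hcP _ (by norm_num) (by norm_num))
      · exact Or.inl (hcP _ (by norm_num) le_rfl)
    · rcases (h.zp_N hz).2 hy with rfl | rfl
      · exact Or.inl (hcP _ (by norm_num) (by norm_num))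
      · exact Or.inr ⟨1, le_rfl, h1, rfl⟩
  · rw [List.nodup_append]
    refine ⟨arc_nodup h.ctx.bd.cy _ (by omega), List.nodup_singleton z, fun a ha b hb => ?_⟩
    rw [List.mem_singleton] at hb
    rw [hb]
    obtain ⟨i, _, _, rfl⟩ := mem_arc.1 ha
    exact hzi i
  · rw [hlen]
    norm_num
  · have e1 : arc c (-5) 4 = arc c (-5) 3 ++ [c (-2)] := by
      have := arc_succ (c := c) (-5) 3
      have e2 : ((-5 : ℤ) + ((3 : ℕ) : ℤ)) = -2 := by norm_num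
      rw [e2] at this
      exact this
    have h3 : (arc c (-5) 4).IsChain
        (OutE F τ (rs H (S' ∪ (arc c (-5) 4 ++ [z]).toFinset))) := by
      refine h.outArc fun i h3 h4 => hWl _ ?_
      rw [List.mem_append, mem_arc]
      exact Or.inl ⟨i, h3, h4, rfl⟩
    have h4 : OutE F τ (rs H (S' ∪ (arc c (-5) 4 ++ [z]).toFinset)) (c (-2)) z := by
      refine h.zp_out hz hc1W (hWl _ ((hml _).2 (Or.inl ⟨-2, ?_, ?_, rfl⟩)))
        (hWl _ ((hml _).2 (Or.inr rfl)))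
      · norm_num
      · norm_num
    rw [e1] at h3
    have h5 := chain_append h3 h4 (List.isChain_singleton z)
    rw [← e1] at h5
    exact h5
  · rcases (hml x).1 hx with ⟨i, _, _, rfl⟩ | rfl
    · exact h.outc _ i
    · exact h.outn hc1W (h.outc _ 1) hz.z1.symm
  · rw [hlen, h.ctx.Pcard]
    omega

end Pool.Agent.Lib.MP_a33b01_co_G5
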