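import Pool.Agent.Lib.MP_a33b01_co_G5.ArA
import Pool.Agent.Lib.MP_a33b01_co_G5.ArB1

set_option autoImplicit false

/-!
# MP_a33b01_co, project G5: deletion of an initial arc of the cycle: the possible new paths
-/

namespace Pool.Agent.Lib.MP_a33b01_co_G5

open Classical
open Pool.Agent.Lib.MP_a33b01_co (Sph sk cn supp EvenG Removes Wg)

variable {V : Type} {F K : Finset (Finset V)} {τ : Finset V} {H : SimpleGraph V}
  {S P A D S' : Finset V} {m q k n : ℕ} {c : ℤ → V} {e : ℤ} {z z' : V}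

/-- `e = k`, `l = z', c (-3), c (-2), z`, `Z = {z, z'}` (`FC.zp_N`, `FC.zp_out`, `FC.zp_uniq`, also
for the mirror image `FC.mirror`; `z ≠ z'` by `twoPP`) -/
theorem FC.ar2 (h : FC F τ H S P A m c K q k n) (hS : S' ⊆ S)
    (hD : ∀ v, v ∈ D ↔ (∃ i : ℤ, 1 ≤ i ∧ i ≤ k ∧ c i = v) ∨ v ∈ ({z, z'} : Finset V))
    (hdS : ∀ v ∈ D, v ∉ S') (hcf : ∀ i : ℤ, 2 ≤ i → i + 1 ≤ k → ∀ u x, ¬ Cf H c i u x)
    (hq : q = 6) (hz : Zp H c z) (hz' : inn c z') (h1 : H.Adj z' (c k))
    (h2 : H.Adj z' (c (-3))) :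
    AH H S P A q k c k D S' {z, z'} ([z'] ++ arc c (-3) 2 ++ [z]) ∧
      LH F τ H (S' ∪ ([z'] ++ arc c (-3) 2 ++ [z]).toFinset) ([z'] ++ arc c (-3) 2 ++ [z]) ∧
      ([z'] ++ arc c (-3) 2 ++ [z]).length ≤ P.card := by
  have hk := h.k3
  have hm := h.mirror
  have e0 : (k : ℤ) + 1 - 1 = k := by ring
  have e3 : c ((k : ℤ) + 1 - -2) = c (-3) := by
    rw [h.mir_neg (-2)]
    congr 1
    omega
  have e4 : c ((k : ℤ) + 1 - -1) = c (-4) := by
    rw [h.mir_neg (-1)]
    congr 1
    omega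
  have e5 : c ((k : ℤ) + 1 - 0) = c (-5) := by
    rw [h.mir_neg 0]
    congr 1
    omega
  have hzm : ∀ w, inn c w → H.Adj w (c k) → H.Adj w (c (-3)) →
      Zp H (fun i => c ((k : ℤ) + 1 - i)) w := by
    intro w hw hw1 hw2
    refine ⟨fun i => hw _, ?_, ?_⟩
    · show H.Adj w (c ((k : ℤ) + 1 - 1))
      rw [e0]
      exact hw1
    · show H.Adj w (c ((k : ℤ) + 1 - -2))
      rw [e3]
      exact hw2
  have hzp' := hzm z' hz' h1 h2
  have hne : z' ≠ z := by
    rintro rfl
    exact h.twoPP z' hz' (-3) (-2) (by omega) (by omega) (by omega) h2 hz.z2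
  have e2 : arc c (-3) 2 = [c (-3), c (-2)] := by
    simp [arc, List.range_succ]
  have el : ([z'] ++ arc c (-3) 2 ++ [z]) = [z', c (-3), c (-2), z] := by
    rw [e2]
    rfl
  rw [el]
  have hN : ∀ w, (H.Adj (c (-1)) w → w = c (-2) ∨ w = c 0) ∧
      (H.Adj (c 0) w → w = c (-1) ∨ w = c 1) := fun w => h.zp_N hz
  have hN' : ∀ w, (H.Adj (c ((k : ℤ) + 1 - -1)) w →
      w = c ((k : ℤ) + 1 - -2) ∨ w = c ((k : ℤ) + 1 - 0)) ∧
      (H.Adj (c ((k : ℤ) + 1 - 0)) w → w = c ((k : ℤ) + 1 - -1) ∨ w = c ((k : ℤ) + 1 - 1)) :=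
    fun w => hm.zp_N hzp'
  have hP3 := (h.ctx.cP (i := -3) (by omega) (by omega)).1
  have hP2 := (h.ctx.cP (i := -2) (by omega) (by omega)).1
  have hmem : ∀ x, x ∈ [z', c (-3), c (-2), z] ↔
      x = z' ∨ x = c (-3) ∨ x = c (-2) ∨ x = z := by
    intro x
    simp
  refine ⟨⟨by omega, le_refl _, hS, hD, hdS, hcf, Or.inl rfl, ?_, ?_, ?_, ?_, ?_⟩, ?_, ?_⟩
  · intro x hx
    rcases (hmem x).1 hx with rfl | rfl | rfl | rfl
    · exact Or.inr (by simp)
    · exact Or.inl hP3
    · exact Or.inl hP2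
    · exact Or.inr (by simp)
  · intro w hw
    rw [Finset.mem_insert, Finset.mem_singleton] at hw
    rw [hmem]
    tauto
  · intro w hw
    rw [Finset.mem_insert, Finset.mem_singleton] at hw
    rcases hw with rfl | rfl
    · exact ⟨hz.iz, hq, Or.inl ⟨hz.z1, hz.z2⟩⟩
    · exact ⟨hz', hq, Or.inr ⟨rfl, h1, h2⟩⟩
  · intro _ w hw hw'
    rw [Finset.mem_insert, Finset.mem_singleton]
    rcases hw' with ⟨a1, a2⟩ | ⟨_, a1, a2⟩
    · exact Or.inl (h.zp_uniq ⟨hw, a1, a2⟩ hz)
    · exact Or.inr (hm.zp_uniq (hzm w hw a1 a2) hzp')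
  · intro p hp hpl y hy
    obtain ⟨j, hj1, hj2, rfl⟩ := (h.ctx.hP p).1 hp
    rw [hmem] at hpl
    have hj3 : j ≠ -3 := by
      rintro rfl
      tauto
    have hj4 : j ≠ -2 := by
      rintro rfl
      tauto
    have hj5 : j = -5 ∨ j = -4 ∨ j = -1 ∨ j = 0 := by omega
    rcases hj5 with rfl | rfl | rfl | rfl
    · have h5 := (hN' y).2
      rw [e5, e4, e0] at h5
      rcases h5 hy with h6 | h6
      · left
        rw [h6]
        exact (h.ctx.cP (by omega) (by omega)).1
      · right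
        exact ⟨k, by omega, le_refl _, h6⟩
    · have h5 := (hN' y).1
      rw [e5, e4, e3] at h5
      rcases h5 hy with h6 | h6
      · left
        rw [h6]
        exact hP3
      · left
        rw [h6]
        exact (h.ctx.cP (by omega) (by omega)).1
    · rcases (hN y).1 hy with h6 | h6
      · left
        rw [h6]
        exact hP2
      · left
        rw [h6]
        exact (h.ctx.cP (by omega) (by omega)).1
    · rcases (hN y).2 hy with h6 | h6
      · left
        rw [h6]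
        exact (h.ctx.cP (by omega) (by omega)).1
      · right
        exact ⟨1, by omega, by omega, h6⟩
  · set W : Finset V := S' ∪ [z', c (-3), c (-2), z].toFinset with hW
    have hWl : ∀ x, x ∈ [z', c (-3), c (-2), z] → x ∈ W := by
      intro x hx
      rw [hW, Finset.mem_union, List.mem_toFinset]
      exact Or.inr hx
    have hWn : ∀ i : ℤ, 1 ≤ i → i ≤ k → c i ∉ W := by
      intro i hi1 hi2 hi
      rw [hW, Finset.mem_union, List.mem_toFinset, hmem] at hi
      rcases hi with hi | hi | hi | hi | hi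
      · exact hdS (c i) ((hD _).2 (Or.inl ⟨i, hi1, hi2, rfl⟩)) hi
      · exact hz' i hi
      · have := h.ctx.inj (by omega) hi2 (by omega) (by omega) hi
        omega
      · have := h.ctx.inj (by omega) hi2 (by omega) (by omega) hi
        omega
      · exact hz.iz i hi
    have o1 : OutE F τ (rs H W) (c (-3)) z' := by
      have h3 := hm.zp_out hzp' (W := W) (by
        show c ((k : ℤ) + 1 - 1) ∉ W
        rw [e0]
        exact hWn k (by omega) (le_refl _)) (by
        show c ((k : ℤ) + 1 - -2) ∈ W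
        rw [e3]
        exact hWl _ (by simp)) (hWl _ (by simp))
      rw [e3] at h3
      exact h3
    have o2 : OutE F τ (rs H W) (c (-3)) (c (-2)) := by
      have h3 := h.outEc (W := W) (i := -3) (hWl _ (by simp)) (by
        norm_num
        exact hWl _ (by simp))
      norm_num at h3
      exact h3
    have o3 : OutE F τ (rs H W) (c (-2)) z :=
      h.zp_out hz (hWn 1 (by omega) (by omega)) (hWl _ (by simp)) (hWl _ (by simp))
    refine ⟨?_, by simp, ?_, ?_⟩
    · have n1 : c (-3) ≠ c (-2) := by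
        intro e
        have := h.ctx.inj (by omega) (by omega) (by omega) (by omega) e
        omega
      simp only [List.nodup_cons, List.mem_cons, List.not_mem_nil, or_false, not_or,
        not_false_eq_true, List.nodup_nil, and_true]
      exact ⟨⟨fun e => hz' _ e.symm, fun e => hz' _ e.symm, hne⟩, ⟨n1, hz.iz _⟩, hz.iz _⟩
    · simp only [List.isChain_cons_cons, List.isChain_singleton, and_true]
      obtain ⟨a1, t, a2, a3, a4⟩ := o1
      exact ⟨⟨a1.symm, t, a2, a4, a3⟩, o2, o3⟩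
    · intro x hx
      rcases (hmem x).1 hx with rfl | rfl | rfl | rfl
      · obtain ⟨a1, t, a2, a3, a4⟩ := o1
        exact ⟨t, a2, a4⟩
      · obtain ⟨a1, t, a2, a3, a4⟩ := o2
        exact ⟨t, a2, a3⟩
      · obtain ⟨a1, t, a2, a3, a4⟩ := o2
        exact ⟨t, a2, a4⟩
      · obtain ⟨a1, t, a2, a3, a4⟩ := o3
        exact ⟨t, a2, a4⟩
  · rw [h.ctx.Pcard, hq]
    simp

end Pool.Agent.Lib.MP_a33b01_co_G5
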