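import Pool.Agent.Lib.MP_a33b01_co_G5.TpC

set_option autoImplicit false

/-!
# MP_a33b01_co, project G5: lists and cycles
-/

namespace Pool.Agent.Lib.MP_a33b01_co_G5

open Classical

variable {V : Type} {H : SimpleGraph V} {m : ℕ} {c : ℤ → V}

theorem arc_length (a : ℤ) (n : ℕ) : (arc c a n).length = n := by
  simp [arc]

theorem mem_arc {a : ℤ} {n : ℕ} {v : V} :
    v ∈ arc c a n ↔ ∃ i : ℤ, a ≤ i ∧ i < a + n ∧ c i = v := by
  unfold arc
  rw [List.mem_map]
  constructor
  · rintro ⟨t, ht, h⟩
    rw [List.mem_range] at ht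
    exact ⟨a + t, by omega, by omega, h⟩
  · rintro ⟨i, h1, h2, h3⟩
    refine ⟨(i - a).toNat, ?_, ?_⟩
    · rw [List.mem_range]
      omega
    · rw [← h3]
      congr 1
      omega

theorem arc_nodup (hc : Cy H m c) (a : ℤ) {n : ℕ} (hn : n ≤ m) : (arc c a n).Nodup := by
  unfold arc
  refine List.Nodup.map_on ?_ List.nodup_range
  intro x hx y hy h
  rw [List.mem_range] at hx hy
  have h1 := hc.inj _ _ h
  have h2 : a + (x : ℤ) - (a + (y : ℤ)) = 0 := by
    apply Int.eq_zero_of_abs_lt_dvd h1
    rw [abs_lt]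
    constructor <;> omega
  omega

theorem TpE1_get (a : ℤ) (n i : ℕ) (hi : i < (arc c a n).length) :
    (arc c a n)[i] = c (a + i) := by
  simp [arc]

/-- consecutive members of an arc -/
theorem arc_chain {E : V → V → Prop} {a : ℤ} {n : ℕ}
    (h : ∀ i : ℤ, a ≤ i → i + 1 < a + n → E (c i) (c (i + 1))) : (arc c a n).IsChain E := by
  rw [List.isChain_iff_getElem]
  intro i hi
  rw [TpE1_get, TpE1_get]
  rw [arc_length] at hi
  have h1 := h (a + i) (by omega) (by omega)
  rw [add_assoc] at h1
  push_cast
  exact h1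

theorem arc_succ (a : ℤ) (n : ℕ) : arc c a (n + 1) = arc c a n ++ [c (a + n)] := by
  simp [arc, List.range_succ]

theorem arc_cons (a : ℤ) (n : ℕ) : arc c a (n + 1) = c a :: arc c (a + 1) n := by
  simp only [arc, List.range_succ_eq_map, List.map_cons, List.map_map, Nat.cast_zero, add_zero,
    List.cons.injEq, true_and]
  apply List.map_congr_left
  intro t _
  simp only [Function.comp_apply]
  congr 1
  push_cast
  ring

/-- A chain of two parts. -/
theorem chain_append {E : V → V → Prop} {l l' : List V} {x y : V}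
    (h : (l ++ [x]).IsChain E) (hxy : E x y) (h' : (y :: l').IsChain E) :
    ((l ++ [x]) ++ (y :: l')).IsChain E := by
  rw [List.isChain_append]
  refine ⟨h, h', ?_⟩
  intro a ha b hb
  simp only [List.getLast?_append, List.getLast?_singleton, Option.mem_def] at ha
  simp only [List.head?_cons, Option.mem_def, Option.some.injEq] at hb
  simp only [Option.some_or, Option.some.injEq] at ha
  rw [← ha, ← hb]
  exact hxy

theorem chain_reverse {E : V → V → Prop} (hE : ∀ x y, E x y → E y x) {l : List V}
    (h : l.IsChain E) : l.reverse.IsChain E := by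
  rw [List.isChain_reverse]
  exact h.imp hE

end Pool.Agent.Lib.MP_a33b01_co_G5
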