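import Pool.Agent.Lib.MP_a33b01_co_G5.TpC
import Pool.Agent.Lib.MP_a33b01_co_G5.TpE1

set_option autoImplicit false

/-!
# MP_a33b01_co, project G5: lists and cycles
-/

namespace Pool.Agent.Lib.MP_a33b01_co_G5

open Classical

variable {V : Type} {H : SimpleGraph V} {m : ℕ} {c : ℤ → V}

theorem TpE2_res (d : V) {l : List V} (hl : l ≠ []) (i : ℤ) :
    ∃ (r : ℕ) (hr : r < l.length), i % (l.length : ℤ) = r ∧ per d l i = l[r] := by
  have hpos : (0 : ℤ) < l.length := by
    have := List.length_pos_iff.2 hl
    omega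
  have h1 := Int.emod_nonneg i (ne_of_gt hpos)
  have h2 := Int.emod_lt_of_pos i hpos
  have hr : (i % (l.length : ℤ)).toNat < l.length := by omega
  refine ⟨(i % (l.length : ℤ)).toNat, hr, by omega, ?_⟩
  unfold per
  rw [List.getD_eq_getElem _ _ hr]

theorem TpE2_get (d : V) {l : List V} {i : ℤ} {r : ℕ} (hr : r < l.length)
    (h : i % (l.length : ℤ) = r) : per d l i = l[r] := by
  unfold per
  rw [h, Int.toNat_natCast, List.getD_eq_getElem _ _ hr]

theorem TpE2_ne {l : List V} (h : LCy H l) : l ≠ [] := by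
  rintro rfl
  have := h.three
  simp at this

/-- A list which is a cycle gives a periodic function. -/
theorem cy_per (d : V) {l : List V} (h : LCy H l) : Cy H l.length (per d l) := by
  have hne := TpE2_ne h
  have h3 := h.three
  refine ⟨h.three, fun i => ?_, fun i j hij => ?_, fun i => ?_⟩
  · unfold per
    rw [Int.add_emod_right]
  · obtain ⟨r, hr, hi, hi'⟩ := TpE2_res d hne i
    obtain ⟨s, hs, hj, hj'⟩ := TpE2_res d hne j
    rw [hi', hj', h.nd.getElem_inj_iff] at hij
    apply Int.dvd_of_emod_eq_zero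
    rw [← Int.emod_eq_emod_iff_emod_sub_eq_zero, hi, hj, hij]
  · obtain ⟨r, hr, hi, hi'⟩ := TpE2_res d hne i
    rw [hi']
    by_cases h4 : r + 1 < l.length
    · have h5 : (i + 1) % (l.length : ℤ) = ((r + 1 : ℕ) : ℤ) := by
        rw [Int.add_emod, hi, Int.emod_eq_of_lt (a := 1) (by omega) (by omega),
          Int.emod_eq_of_lt (by omega) (by omega)]
        push_cast
        ring
      rw [TpE2_get d h4 h5]
      exact List.isChain_iff_getElem.1 h.ch r h4
    · have h6 : r + 1 = l.length := by omega
      have h5 : (i + 1) % (l.length : ℤ) = ((0 : ℕ) : ℤ) := by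
        rw [Int.add_emod, hi, Int.emod_eq_of_lt (a := 1) (by omega) (by omega)]
        have h7 : (r : ℤ) + 1 = l.length := by omega
        rw [h7]
        simp
      have h8 : 0 < l.length := by omega
      rw [TpE2_get d h8 h5]
      refine h.cl _ ?_ _ ?_
      · rw [List.head?_eq_getElem?, List.getElem?_eq_getElem h8]
        rfl
      · rw [List.getLast?_eq_getElem?]
        have h9 : l.length - 1 = r := by omega
        rw [h9, List.getElem?_eq_getElem hr]
        rfl

theorem mem_per (d : V) {l : List V} (hl : l ≠ []) {v : V} :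
    (∃ i, per d l i = v) ↔ v ∈ l := by
  constructor
  · rintro ⟨i, rfl⟩
    obtain ⟨r, hr, _, h⟩ := TpE2_res d hl i
    rw [h]
    exact List.getElem_mem hr
  · intro h
    obtain ⟨r, hr, h1⟩ := List.getElem_of_mem h
    refine ⟨r, ?_⟩
    rw [← h1]
    exact TpE2_get d hr (Int.emod_eq_of_lt (by omega) (by omega))

theorem per_get (d : V) {l : List V} {i : ℕ} (hi : i < l.length) : per d l i = l[i] :=
  TpE2_get d hi (Int.emod_eq_of_lt (by omega) (by omega))

end Pool.Agent.Lib.MP_a33b01_co_G5
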