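import Pool.Agent.Lib.MP_a33b01_co_G5.TpC
import Pool.Agent.Lib.MP_a33b01_co_G5.TpE1
import Pool.Agent.Lib.MP_a33b01_co_G5.TpE2

set_option autoImplicit false

/-!
# MP_a33b01_co, project G5: lists and cycles
-/

namespace Pool.Agent.Lib.MP_a33b01_co_G5

open Classical

variable {V : Type} {H : SimpleGraph V} {m : ℕ} {c : ℤ → V}

private theorem TpE3_pair {l : List V} {x y : V} (h : [x, y] <:+: l) :
    ∃ (r : ℕ) (h1 : r + 1 < l.length), l[r] = x ∧ l[r + 1] = y := by
  obtain ⟨s, t, rfl⟩ := h
  refine ⟨s.length, by simp, ?_, ?_⟩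
  · simp
  · simp

private theorem TpE3_step (d : V) {l : List V} (h : LCy H l) (i : ℤ) :
    [per d l i, per d l (i + 1)] <:+: l ∨
      (l.head? = some (per d l (i + 1)) ∧ l.getLast? = some (per d l i)) := by
  have hne := TpE2_ne h
  have h3 := h.three
  obtain ⟨r, hr, hi, hi'⟩ := TpE2_res d hne i
  rw [hi']
  by_cases h4 : r + 1 < l.length
  · left
    have h5 : (i + 1) % (l.length : ℤ) = ((r + 1 : ℕ) : ℤ) := by
      rw [Int.add_emod, hi, Int.emod_eq_of_lt (a := 1) (by omega) (by omega),
        Int.emod_eq_of_lt (by omega) (by omega)]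
      push_cast
      ring
    rw [TpE2_get d h4 h5]
    exact List.isChain_iff_getElem.1 (List.isChain_isInfix l) r h4
  · right
    have h6 : r + 1 = l.length := by omega
    have h5 : (i + 1) % (l.length : ℤ) = ((0 : ℕ) : ℤ) := by
      rw [Int.add_emod, hi, Int.emod_eq_of_lt (a := 1) (by omega) (by omega)]
      have h7 : (r : ℤ) + 1 = l.length := by omega
      rw [h7]
      simp
    have h8 : 0 < l.length := by omega
    rw [TpE2_get d h8 h5]
    refine ⟨?_, ?_⟩
    · rw [List.head?_eq_getElem?, List.getElem?_eq_getElem h8]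
    · rw [List.getLast?_eq_getElem?]
      have h9 : l.length - 1 = r := by omega
      rw [h9, List.getElem?_eq_getElem hr]

private theorem TpE3_ce1 (d : V) {l : List V} {x y : V} (h : [x, y] <:+: l) :
    CE (per d l) x y := by
  obtain ⟨r, h1, rfl, rfl⟩ := TpE3_pair h
  refine ⟨r, Or.inl ⟨(per_get d (by omega)).symm, ?_⟩⟩
  have h2 : ((r : ℤ) + 1) = ((r + 1 : ℕ) : ℤ) := by push_cast; rfl
  rw [h2, per_get d h1]

private theorem TpE3_ce2 (d : V) {l : List V} (h : LCy H l) {x y : V} (hx : l.head? = some x)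
    (hy : l.getLast? = some y) : CE (per d l) y x := by
  have h3 := h.three
  have h8 : 0 < l.length := by omega
  refine ⟨((l.length - 1 : ℕ) : ℤ), Or.inl ⟨?_, ?_⟩⟩
  · rw [per_get d (by omega)]
    rw [List.getLast?_eq_getElem?, List.getElem?_eq_getElem (by omega)] at hy
    exact (Option.some.inj hy).symm
  · have h5 : (((l.length - 1 : ℕ) : ℤ) + 1) % (l.length : ℤ) = ((0 : ℕ) : ℤ) := by
      have h7 : ((l.length - 1 : ℕ) : ℤ) + 1 = l.length := by omega
      rw [h7]
      simp
    rw [TpE2_get d h8 h5]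
    rw [List.head?_eq_getElem?, List.getElem?_eq_getElem h8] at hx
    exact (Option.some.inj hx).symm

/-- The edges of the cycle of a list: consecutive members, or the last and the first. -/
theorem ce_per (d : V) {l : List V} (h : LCy H l) {x y : V} :
    CE (per d l) x y ↔ [x, y] <:+: l ∨ [y, x] <:+: l ∨
      (l.head? = some x ∧ l.getLast? = some y) ∨ (l.head? = some y ∧ l.getLast? = some x) := by
  constructor
  · rintro ⟨i, ⟨rfl, rfl⟩ | ⟨rfl, rfl⟩⟩
    · rcases TpE3_step d h i with h1 | h1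
      · exact Or.inl h1
      · exact Or.inr (Or.inr (Or.inr h1))
    · rcases TpE3_step d h i with h1 | h1
      · exact Or.inr (Or.inl h1)
      · exact Or.inr (Or.inr (Or.inl h1))
  · rintro (h1 | h1 | h1 | h1)
    · exact TpE3_ce1 d h1
    · exact ce_symm (TpE3_ce1 d h1)
    · exact ce_symm (TpE3_ce2 d h h1.1 h1.2)
    · exact TpE3_ce2 d h h1.1 h1.2

/-- Consecutive members of the list are edges of the cycle. -/
theorem ce_of_chain (d : V) {l : List V} (h : LCy H l) : l.IsChain (CE (per d l)) :=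
  (List.isChain_isInfix l).imp fun _ _ h1 => (ce_per d h).2 (Or.inl h1)

theorem ce_last (d : V) {l : List V} (h : LCy H l) {x y : V} (hx : l.head? = some x)
    (hy : l.getLast? = some y) : CE (per d l) y x := TpE3_ce2 d h hx hy

/-- A cyclic list of the form `x, v, y, …`: the neighbours of `v` on the cycle are `x` and `y`. -/
theorem ce_mid (d : V) {l l₁ l₂ : List V} (h : LCy H l) {x v y : V}
    (hl : l = l₁ ++ x :: v :: y :: l₂) (w : V) : CE (per d l) v w ↔ w = x ∨ w = y := by
  have hlen : l.length = l₁.length + (l₂.length + 3) := by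
    rw [hl]
    simp
  have h0 : l[l₁.length]'(by omega) = x := by simp [hl]
  have h1 : l[l₁.length + 1]'(by omega) = v := by simp [hl]
  have h2 : l[l₁.length + 2]'(by omega) = y := by simp [hl]
  rw [← per_get d] at h0 h1 h2
  have h3 := ce_iff (cy_per d h) ((l₁.length + 1 : ℕ) : ℤ) w
  have e1 : ((l₁.length + 1 : ℕ) : ℤ) + 1 = ((l₁.length + 2 : ℕ) : ℤ) := by push_cast; ring
  have e2 : ((l₁.length + 1 : ℕ) : ℤ) - 1 = ((l₁.length : ℕ) : ℤ) := by push_cast; ring
  rw [e1, e2, h0, h1, h2] at h3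
  rw [h3]
  exact or_comm

end Pool.Agent.Lib.MP_a33b01_co_G5
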