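import Pool.Agent.Lib.MP_a33b01_co_G5.TpD
import Pool.Agent.Lib.MP_a33b01_co_G5.TpE

set_option autoImplicit false

/-!
# MP_a33b01_co, project G5: cutting a disc along a path
-/

namespace Pool.Agent.Lib.MP_a33b01_co_G5

open Classical
open Pool.Agent.Lib.MP_a33b01_co (Sph sk cn supp EvenG Removes Wg)

variable {V : Type} {F K K' : Finset (Finset V)} {τ t : Finset V} {H : SimpleGraph V} {m : ℕ}
  {c : ℤ → V}

private theorem TpF1_lcy {l Q : List V} {a b : V} (h3 : 3 ≤ l.length + Q.length)
    (hl : l.IsChain H.Adj) (hla : l.head? = some a) (hlb : l.getLast? = some b)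
    (hn : l.Nodup) (hnQ : Q.Nodup) (hd : ∀ x ∈ l, ∀ y ∈ Q, x ≠ y)
    (hQ : (b :: Q ++ [a]).IsChain H.Adj) : LCy H (l ++ Q) := by
  obtain ⟨h1, -, h2⟩ := List.isChain_append.1 hQ
  refine ⟨by rw [List.length_append]; exact h3, List.nodup_append.2 ⟨hn, hnQ, hd⟩,
    List.isChain_append.2 ⟨hl, ?_, ?_⟩, ?_⟩
  · exact h1.tail
  · intro x hx y hy
    rw [hlb] at hx
    have hx' : b = x := by simpa using hx
    subst hx'
    cases Q with
    | nil => simp at hy
    | cons z Q =>
      have hy' : z = y := by simpa using hy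
      subst hy'
      exact (List.isChain_cons_cons.1 h1).1
  · intro x hx y hy
    have hx' : a = x := by
      rw [List.head?_append, hla] at hx
      simpa using hx
    subst hx'
    refine h2 y ?_ a (by simp)
    rw [List.getLast?_append, hlb] at hy
    rw [List.getLast?_cons]
    cases hQ' : Q.getLast? with
    | none => simpa [hQ'] using hy
    | some w => simpa [hQ'] using hy

/-- The two cycles of a theta graph.  The lengths: for `Q = []` the chord is not an edge of `c`
since `2 ≤ d ≤ m - 2`.  (`arc_nodup`, `arc_chain`, `chain_append`, `chain_reverse`, `cy_eq`.) -/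
theorem theta_lcy (hc : Cy H m c) {i : ℤ} {d : ℕ} (hd : 0 < d) (hdm : d < m) {Q : List V}
    (h0 : Q = [] → 2 ≤ d ∧ d + 2 ≤ m) (hch : (c i :: Q ++ [c (i + d)]).IsChain H.Adj)
    (hnd : Q.Nodup) (hQ : ∀ x ∈ Q, inn c x) :
    LCy H (arc c i (d + 1) ++ Q.reverse) ∧ LCy H (arc c (i + d) (m - d + 1) ++ Q) := by
  have h3 := hc.three
  have hlen : 0 < Q.length ∨ (2 ≤ d ∧ d + 2 ≤ m) := by
    rcases Nat.eq_zero_or_pos Q.length with h | h
    · exact Or.inr (h0 (List.length_eq_zero_iff.1 h))
    · exact Or.inl h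
  constructor
  · refine TpF1_lcy (a := c i) (b := c (i + d)) ?_ (arc_chain fun j _ _ => hc.adj j) ?_ ?_
      (arc_nodup hc i (by omega)) (List.nodup_reverse.2 hnd) ?_ ?_
    · rw [arc_length, List.length_reverse]
      omega
    · rw [arc_cons, List.head?_cons]
    · rw [arc_succ, List.getLast?_append]
      simp
    · intro x hx y hy hxy
      obtain ⟨j, _, _, rfl⟩ := mem_arc.1 hx
      exact hQ y (List.mem_reverse.1 hy) j hxy
    · have h4 := chain_reverse (fun _ _ hxy => SimpleGraph.Adj.symm hxy) hch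
      have e : (c i :: Q ++ [c (i + d)]).reverse = c (i + d) :: Q.reverse ++ [c i] := by simp
      rwa [e] at h4
  · have e : c (i + d + ((m - d : ℕ) : ℤ)) = c i := by
      rw [← hc.per i]
      congr 1
      omega
    refine TpF1_lcy (a := c (i + d)) (b := c i) ?_ (arc_chain fun j _ _ => hc.adj j) ?_ ?_
      (arc_nodup hc _ (by omega)) hnd ?_ hch
    · rw [arc_length]
      omega
    · rw [arc_cons, List.head?_cons]
    · rw [arc_succ, List.getLast?_append, e]
      simp
    · intro x hx y hy hxy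
      obtain ⟨j, _, _, rfl⟩ := mem_arc.1 hx
      exact hQ y hy j hxy

end Pool.Agent.Lib.MP_a33b01_co_G5
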