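import Pool.Agent.Lib.MP_a33b01_co_G5.TpD
import Pool.Agent.Lib.MP_a33b01_co_G5.TpE
import Pool.Agent.Lib.MP_a33b01_co_G5.TpF1

set_option autoImplicit false

/-!
# MP_a33b01_co, project G5: cutting a disc along a path
-/

namespace Pool.Agent.Lib.MP_a33b01_co_G5

open Classical
open Pool.Agent.Lib.MP_a33b01_co (Sph sk cn supp EvenG Removes Wg)

variable {V : Type} {F K K' : Finset (Finset V)} {τ t : Finset V} {H : SimpleGraph V} {m : ℕ}
  {c : ℤ → V}

private theorem TpF2_ov (z : V) (b : List V) (x y : V) (a : List V) :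
    [x, y] <:+: a ++ z :: b ↔ [x, y] <:+: a ++ [z] ∨ [x, y] <:+: z :: b := by
  induction a with
  | nil =>
    have h1 : ¬ [x, y] <:+: [z] := by
      intro h
      have := h.length_le
      simp at this
    simp only [List.nil_append]
    tauto
  | cons a0 a ih =>
    have h1 : [y] <+: a ++ z :: b ↔ [y] <+: a ++ [z] := by
      cases a with
      | nil => simp [List.cons_prefix_cons]
      | cons a1 a => simp [List.cons_prefix_cons]
    rw [List.cons_append, List.cons_append, List.infix_cons_iff, List.infix_cons_iff, ih,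
      List.cons_prefix_cons, List.cons_prefix_cons, h1, or_assoc]

private theorem TpF2_close (d : V) {l : List V} (h : LCy H l) {z x y : V}
    (hz : l.head? = some z) : CE (per d l) x y ↔
      [x, y] <:+: l ++ [z] ∨ [y, x] <:+: l ++ [z] := by
  have key : ∀ x y, [x, y] <:+: l ++ [z] ↔ [x, y] <:+: l ∨ (l.head? = some y ∧
      l.getLast? = some x) := by
    intro x y
    have hne : l ≠ [] := by
      rintro rfl
      simp at hz
    obtain ⟨l', w, rfl⟩ : ∃ l' w, l = l' ++ [w] :=
      ⟨l.dropLast, l.getLast hne, (List.dropLast_append_getLast hne).symm⟩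
    rw [List.append_assoc, List.singleton_append, TpF2_ov, hz]
    have h1 : [x, y] <:+: [w, z] ↔ x = w ∧ y = z := by
      rw [List.infix_cons_iff, List.cons_prefix_cons, List.cons_prefix_cons]
      have h2 : ¬ [x, y] <:+: [z] := by
        intro h
        have := h.length_le
        simp at this
      simp [h2]
    rw [h1]
    simp only [List.getLast?_append, List.getLast?_singleton, Option.some_or,
      Option.some.injEq]
    constructor
    · rintro (h3 | ⟨rfl, rfl⟩)
      · exact Or.inl h3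
      · exact Or.inr ⟨rfl, rfl⟩
    · rintro (h3 | ⟨rfl, rfl⟩)
      · exact Or.inl h3
      · exact Or.inr ⟨rfl, rfl⟩
  rw [ce_per d h, key x y, key y x]
  tauto

private theorem TpF2_arc {a : ℤ} {n : ℕ} {x y : V} :
    [x, y] <:+: arc c a (n + 1) ↔ ∃ j : ℤ, a ≤ j ∧ j < a + n ∧ x = c j ∧ y = c (j + 1) := by
  constructor
  · rintro ⟨s, t, h⟩
    have hlen : (s ++ [x, y] ++ t).length = n + 1 := by rw [h, arc_length]
    have hlt : s.length + 1 < n + 1 := by
      rw [← hlen]
      simp
    have h1 : (s ++ [x, y] ++ t)[s.length]'(by simp) = x := by simp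
    have h2 : (s ++ [x, y] ++ t)[s.length + 1]'(by simp) = y := by simp
    simp only [h] at h1 h2
    rw [TpE1_get] at h1 h2
    refine ⟨a + s.length, by omega, by omega, h1.symm, ?_⟩
    rw [← h2]
    push_cast
    congr 1
    ring
  · rintro ⟨j, h1, h2, rfl, rfl⟩
    have hl : (j - a).toNat + 1 < (arc c a (n + 1)).length := by
      rw [arc_length]
      omega
    have h3 := List.isChain_iff_getElem.1 (List.isChain_isInfix (arc c a (n + 1))) _ hl
    rw [TpE1_get, TpE1_get] at h3
    have e1 : a + ((j - a).toNat : ℤ) = j := by omega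
    have e2 : a + (((j - a).toNat + 1 : ℕ) : ℤ) = j + 1 := by
      push_cast
      omega
    rw [e1, e2] at h3
    exact h3

/-- The edges of `c` are the edges which are in exactly one of the two cycles of the theta graph
(`ce_per`; the edges of the path are in both, an edge of the first arc is only in the first one,
an edge of the second arc only in the second one). -/
theorem theta_ce (hc : Cy H m c) {i : ℤ} {d : ℕ} (hd : 0 < d) (hdm : d < m) {Q : List V}
    (h0 : Q = [] → 2 ≤ d ∧ d + 2 ≤ m) (hch : (c i :: Q ++ [c (i + d)]).IsChain H.Adj)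
    (hnd : Q.Nodup) (hQ : ∀ x ∈ Q, inn c x) (x y : V) :
    CE c x y ↔ ¬ (CE (per (c 0) (arc c i (d + 1) ++ Q.reverse)) x y ↔
      CE (per (c 0) (arc c (i + d) (m - d + 1) ++ Q)) x y) := by
  obtain ⟨l1, l2⟩ := theta_lcy hc hd hdm h0 hch hnd hQ
  have hz1 : (arc c i (d + 1) ++ Q.reverse).head? = some (c i) := by
    rw [arc_cons]
    rfl
  have hz2 : (arc c (i + d) (m - d + 1) ++ Q).head? = some (c (i + d)) := by
    rw [arc_cons]
    rfl
  rw [TpF2_close _ l1 hz1, TpF2_close _ l2 hz2]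
  have hcm : c (i + d + ((m - d : ℕ) : ℤ)) = c i := by
    rw [cy_eq hc]
    have : i + d + ((m - d : ℕ) : ℤ) - i = m := by omega
    rw [this]
  set L : List V := c i :: Q ++ [c (i + d)] with hL
  -- the first cycle
  have e1 : ∀ x y, [x, y] <:+: (arc c i (d + 1) ++ Q.reverse) ++ [c i] ↔
      (∃ j : ℤ, i ≤ j ∧ j < i + d ∧ x = c j ∧ y = c (j + 1)) ∨ [y, x] <:+: L := by
    intro x y
    rw [arc_succ, List.append_assoc, List.append_assoc, List.singleton_append, TpF2_ov,
      ← arc_succ, TpF2_arc]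
    have h1 : [x, y] <:+: c (i + d) :: (Q.reverse ++ [c i]) ↔ [y, x] <:+: L := by
      rw [← List.reverse_infix, hL]
      simp
    rw [h1]
  have e2 : ∀ x y, [x, y] <:+: (arc c (i + d) (m - d + 1) ++ Q) ++ [c (i + d)] ↔
      (∃ j : ℤ, i + d ≤ j ∧ j < i + m ∧ x = c j ∧ y = c (j + 1)) ∨ [x, y] <:+: L := by
    intro x y
    rw [arc_succ, List.append_assoc, List.append_assoc, List.singleton_append, TpF2_ov,
      ← arc_succ, TpF2_arc, hcm]
    have h2 : i + (d : ℤ) + ((m - d : ℕ) : ℤ) = i + m := by omega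
    rw [h2]
    rfl
  rw [e1, e1, e2, e2]
  -- the path and the cycle are disjoint
  have hdis : ∀ x y, [x, y] <:+: L → ¬ CE c x y := by
    intro x y hxy hce
    by_cases hQ0 : Q = []
    · obtain ⟨h4, h5⟩ := h0 hQ0
      have h6 : x = c i ∧ y = c (i + d) := by
        rw [hL, hQ0] at hxy
        have h7 : ([c i] ++ [c (i + (d : ℤ))] : List V) = [c i, c (i + d)] := rfl
        rw [h7, List.infix_cons_iff, List.cons_prefix_cons, List.cons_prefix_cons] at hxy
        rcases hxy with h8 | h8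
        · exact ⟨h8.1, h8.2.1⟩
        · have := h8.length_le
          simp at this
      rw [h6.1, h6.2, ce_iff hc, cy_eq hc, cy_eq hc] at hce
      have h9 : i + (d : ℤ) - (i + 1) = d - 1 := by ring
      have h10 : i + (d : ℤ) - (i - 1) = d + 1 := by ring
      rw [h9, h10] at hce
      rcases hce with h11 | h11
      · have := Int.le_of_dvd (by omega) h11
        omega
      · have := Int.le_of_dvd (by omega) h11
        omega
    · have h6 : x ∈ Q ∨ y ∈ Q := by
        obtain ⟨Q', q, rfl⟩ : ∃ Q' q, Q = Q' ++ [q] :=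
          ⟨Q.dropLast, Q.getLast hQ0, (List.dropLast_append_getLast hQ0).symm⟩
        have h7 : L = (c i :: Q') ++ q :: [c (i + d)] := by
          rw [hL]
          simp
        rw [h7, TpF2_ov] at hxy
        rcases hxy with h8 | h8
        · right
          obtain ⟨s, t, h9⟩ := h8
          cases s with
          | nil =>
            simp only [List.nil_append, List.cons_append, List.cons.injEq] at h9
            rw [← h9.2]
            simp
          | cons a s =>
            simp only [List.cons_append, List.cons.injEq] at h9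
            rw [← h9.2]
            simp
        · left
          rw [List.infix_cons_iff, List.cons_prefix_cons] at h8
          rcases h8 with h9 | h9
          · rw [h9.1]
            simp
          · have := h9.length_le
            simp at this
      obtain ⟨j, h7⟩ := hce
      rcases h6 with h6 | h6
      · rcases h7 with h7 | h7
        · exact hQ x h6 j h7.1.symm
        · exact hQ x h6 (j + 1) h7.2.symm
      · rcases h7 with h7 | h7
        · exact hQ y h6 (j + 1) h7.2.symm
        · exact hQ y h6 j h7.1.symm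
  have hm3 := hc.three
  -- the two arcs
  have hA : ∀ {x y : V}, (∃ j : ℤ, i ≤ j ∧ j < i + d ∧ x = c j ∧ y = c (j + 1)) → CE c x y :=
    fun ⟨j, _, _, h1, h2⟩ => ⟨j, Or.inl ⟨h1, h2⟩⟩
  have hB : ∀ {x y : V}, (∃ j : ℤ, i + d ≤ j ∧ j < i + m ∧ x = c j ∧ y = c (j + 1)) →
      CE c x y := fun ⟨j, _, _, h1, h2⟩ => ⟨j, Or.inl ⟨h1, h2⟩⟩
  have hcov : ∀ {x y : V}, (∃ j : ℤ, x = c j ∧ y = c (j + 1)) →
      (∃ j : ℤ, i ≤ j ∧ j < i + d ∧ x = c j ∧ y = c (j + 1)) ∨
      ∃ j : ℤ, i + d ≤ j ∧ j < i + m ∧ x = c j ∧ y = c (j + 1) := by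
    rintro x y ⟨j, rfl, rfl⟩
    obtain ⟨k, h1, h2, h3⟩ := cy_mod hc i j
    have h4 : c (j + 1) = c (k + 1) := by
      rw [cy_eq hc] at h3 ⊢
      have h5 : j + 1 - (k + 1) = -(k - j) := by ring
      rw [h5]
      exact (dvd_neg).2 h3
    by_cases h5 : k < i + d
    · exact Or.inl ⟨k, h1, h5, h3.symm, h4⟩
    · exact Or.inr ⟨k, by omega, h2, h3.symm, h4⟩
  have hd1 : ∀ {x y : V}, (∃ j : ℤ, i ≤ j ∧ j < i + d ∧ x = c j ∧ y = c (j + 1)) →
      ¬ ∃ j : ℤ, i + d ≤ j ∧ j < i + m ∧ x = c j ∧ y = c (j + 1) := by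
    rintro x y ⟨j, h1, h2, rfl, rfl⟩ ⟨k, h3, h4, h5, h6⟩
    rw [cy_eq hc] at h5
    have h7 : (m : ℤ) ∣ k - j := by
      have h8 : k - j = -(j - k) := by ring
      rw [h8]
      exact (dvd_neg).2 h5
    have := Int.le_of_dvd (by omega) h7
    omega
  have hd2 : ∀ {x y : V}, (∃ j : ℤ, i ≤ j ∧ j < i + d ∧ x = c j ∧ y = c (j + 1)) →
      ¬ ∃ j : ℤ, i + d ≤ j ∧ j < i + m ∧ y = c j ∧ x = c (j + 1) := by
    rintro x y ⟨j, h1, h2, rfl, rfl⟩ ⟨k, h3, h4, h5, h6⟩
    rw [cy_eq hc] at h5 h6
    have h7 : (m : ℤ) ∣ 2 := by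
      have h8 : (2 : ℤ) = (j + 1 - k) - (j - (k + 1)) := by ring
      rw [h8]
      exact Int.dvd_sub h5 h6
    have := Int.le_of_dvd (by omega) h7
    omega
  have hCE : CE c x y ↔ (((∃ j : ℤ, i ≤ j ∧ j < i + d ∧ x = c j ∧ y = c (j + 1)) ∨
      ∃ j : ℤ, i + d ≤ j ∧ j < i + m ∧ x = c j ∧ y = c (j + 1)) ∨
      ((∃ j : ℤ, i ≤ j ∧ j < i + d ∧ y = c j ∧ x = c (j + 1)) ∨
      ∃ j : ℤ, i + d ≤ j ∧ j < i + m ∧ y = c j ∧ x = c (j + 1))) := by
    constructor
    · rintro ⟨j, h1 | h1⟩
      · exact Or.inl (hcov ⟨j, h1⟩)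
      · exact Or.inr (hcov ⟨j, h1⟩)
    · rintro ((h1 | h1) | (h1 | h1))
      · exact hA h1
      · exact hB h1
      · exact ce_symm (hA h1)
      · exact ce_symm (hB h1)
  have p1 := hdis x y
  have p2 : [y, x] <:+: L → ¬ CE c x y := fun h h' => hdis y x h (ce_symm h')
  have q1 := @hd1 x y
  have q2 := @hd1 y x
  have q3 := @hd2 x y
  have q4 := @hd2 y x
  rw [hCE] at p1 p2 ⊢
  generalize (∃ j : ℤ, i ≤ j ∧ j < i + d ∧ x = c j ∧ y = c (j + 1)) = A1 at *
  generalize (∃ j : ℤ, i ≤ j ∧ j < i + d ∧ y = c j ∧ x = c (j + 1)) = A2 at *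
  generalize (∃ j : ℤ, i + d ≤ j ∧ j < i + m ∧ x = c j ∧ y = c (j + 1)) = B1 at *
  generalize (∃ j : ℤ, i + d ≤ j ∧ j < i + m ∧ y = c j ∧ x = c (j + 1)) = B2 at *
  generalize ([x, y] <:+: L) = P1 at *
  generalize ([y, x] <:+: L) = P2 at *
  clear hcov hA hB hd1 hd2 hdis e1 e2 hCE
  by_cases hp1 : P1
  · exact ⟨fun h => absurd h (p1 hp1), fun h => absurd
      ⟨fun _ => Or.inl (Or.inr hp1), fun _ => Or.inr (Or.inr hp1)⟩ h⟩
  by_cases hp2 : P2
  · exact ⟨fun h => absurd h (p2 hp2), fun h => absurd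
      ⟨fun _ => Or.inr (Or.inr hp2), fun _ => Or.inl (Or.inr hp2)⟩ h⟩
  simp only [hp1, hp2, or_false]
  by_cases hA : A1 ∨ A2
  · have hB : ¬ (B1 ∨ B2) := by
      rintro (hB | hB)
      · rcases hA with hA | hA
        · exact q1 hA hB
        · exact q4 hA hB
      · rcases hA with hA | hA
        · exact q3 hA hB
        · exact q2 hA hB
    refine ⟨fun _ h => hB (h.1 hA), fun _ => ?_⟩
    rcases hA with hA | hA
    · exact Or.inl (Or.inl hA)
    · exact Or.inr (Or.inl hA)
  · constructor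
    · rintro ((h | h) | (h | h)) h'
      · exact hA (Or.inl h)
      · exact hA (h'.2 (Or.inl h))
      · exact hA (Or.inr h)
      · exact hA (h'.2 (Or.inr h))
    · intro h
      by_contra hn
      push Not at hn
      exact h ⟨fun h1 => absurd h1 hA, fun h1 => by
        rcases h1 with h1 | h1
        · exact absurd h1 hn.1.2
        · exact absurd h1 hn.2.2⟩

end Pool.Agent.Lib.MP_a33b01_co_G5
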