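import Pool.Agent.Lib.MP_a33b01_co_G5.TpD
import Pool.Agent.Lib.MP_a33b01_co_G5.TpE
import Pool.Agent.Lib.MP_a33b01_co_G5.TpF1
import Pool.Agent.Lib.MP_a33b01_co_G5.TpF2

set_option autoImplicit false

/-!
# MP_a33b01_co, project G5: cutting a disc along a path
-/

namespace Pool.Agent.Lib.MP_a33b01_co_G5

open Classical
open Pool.Agent.Lib.MP_a33b01_co (Sph sk cn supp EvenG Removes Wg)

variable {V : Type} {F K K' : Finset (Finset V)} {τ t : Finset V} {H : SimpleGraph V} {m : ℕ}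
  {c : ℤ → V}

/-- If three cycles form a theta graph then the side (without `τ`) of the first one is the
symmetric difference of the other two sides (`cn_symmDiff` of `MP_a33b01_co.SphA`, `br_unique`). -/
theorem theta_symm (hF : Sph F) (hτ : τ ∈ F) {K₁ K₂ : Finset (Finset V)}
    {E E₁ E₂ : V → V → Prop} (hE : ∀ x y, E x y ↔ ¬ (E₁ x y ↔ E₂ x y)) (hK : K ⊆ F)
    (hK₁ : K₁ ⊆ F) (hK₂ : K₂ ⊆ F) (h : τ ∉ K) (h₁ : τ ∉ K₁) (h₂ : τ ∉ K₂) (hb : BR K E)
    (hb₁ : BR K₁ E₁) (hb₂ : BR K₂ E₂) : K = symmDiff K₁ K₂ := by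
  refine br_unique hF hτ hK (fun t ht => ?_) h (fun ht => ?_) hb (fun x y hxy => ?_)
  · rw [Finset.mem_symmDiff] at ht
    rcases ht with ht | ht
    · exact hK₁ ht.1
    · exact hK₂ ht.1
  · rw [Finset.mem_symmDiff] at ht
    rcases ht with ht | ht
    · exact h₁ ht.1
    · exact h₂ ht.1
  · rw [Pool.Agent.Lib.MP_a33b01_co.cn_symmDiff, hb₁ x y hxy, hb₂ x y hxy, hE]

/-- Cutting a disc: `K₁`, `K₂` are the sides without `τ` of the two cycles of the theta graph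
(`exists_side`).  Their symmetric difference is `K` (`theta_symm`), and they do not meet the outer
region `F \ K` (`rc_avoid`, `bd_rc`), so they are disjoint and their union is `K`.  `bd_sg`. -/
theorem exists_split (hF : Sph F) (hle : H ≤ sk F) (hτ : τ ∈ F) (hB : Bd F τ H m c K) {i : ℤ}
    {d : ℕ} (hd : 0 < d) (hdm : d < m) {Q : List V} (h0 : Q = [] → 2 ≤ d ∧ d + 2 ≤ m)
    (hch : (c i :: Q ++ [c (i + d)]).IsChain H.Adj) (hnd : Q.Nodup)
    (hQ : ∀ x ∈ Q, inn c x) : ∃ K₁ K₂, Split F τ H m c K i d Q K₁ K₂ := by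
  obtain ⟨l1, l2⟩ := theta_lcy hB.cy hd hdm h0 hch hnd hQ
  have c1 := cy_per (c 0) l1
  have c2 := cy_per (c 0) l2
  obtain ⟨K₁, hK1, ht1, hb1⟩ := exists_side hF hle hτ c1
  obtain ⟨K₂, hK2, ht2, hb2⟩ := exists_side hF hle hτ c2
  have hsym : K = symmDiff K₁ K₂ := theta_symm hF hτ
    (theta_ce hB.cy hd hdm h0 hch hnd hQ) hB.KF hK1 hK2 hB.tau ht1 ht2 hB.br hb1 hb2
  have s1 : K₁ ⊆ K := by
    intro t ht
    by_contra hn
    have h1 := (bd_rc hF hle hτ hB).2 ⟨hK1 ht, hn⟩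
    exact ht1 ((rc_avoid hF hK1 hb1 (fun x y h => ce_adj c1 h) hτ h1).2 ht)
  have s2 : K₂ ⊆ K := by
    intro t ht
    by_contra hn
    have h1 := (bd_rc hF hle hτ hB).2 ⟨hK2 ht, hn⟩
    exact ht2 ((rc_avoid hF hK2 hb2 (fun x y h => ce_adj c2 h) hτ h1).2 ht)
  have hdj : Disjoint K₁ K₂ := by
    rw [Finset.disjoint_left]
    intro t h1 h2
    have h3 := s1 h1
    rw [hsym, Finset.mem_symmDiff] at h3
    tauto
  have hun : K₁ ∪ K₂ = K := by
    apply Finset.Subset.antisymm (Finset.union_subset s1 s2)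
    intro t ht
    rw [hsym, Finset.mem_symmDiff] at ht
    rw [Finset.mem_union]
    tauto
  have b1 := bd_sg hF hle c1 hK1 ht1 hb1
  have b2 := bd_sg hF hle c2 hK2 ht2 hb2
  rw [List.length_append, List.length_reverse, arc_length] at b1
  rw [List.length_append, arc_length] at b2
  exact ⟨K₁, K₂, hun, hdj, l1, l2, b1, b2⟩

end Pool.Agent.Lib.MP_a33b01_co_G5
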