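import Pool.Agent.Lib.MP_a33b01_co_G5.Defs
import Pool.Agent.Lib.MP_a33b01_co.SphB

set_option autoImplicit false

/-!
# MP_a33b01_co, project G5: regions
-/

namespace Pool.Agent.Lib.MP_a33b01_co_G5

open Classical
open Pool.Agent.Lib.MP_a33b01_co (Sph sk cn supp EvenG Removes Wg)

variable {V : Type} {F : Finset (Finset V)} {τ t s r : Finset V} {H H' : SimpleGraph V}

theorem rc_mem (ht : t ∈ F) (h : Rc F H t s) : s ∈ F := by
  induction h with
  | base => exact ht
  | step s s' x y _ hs _ _ _ _ _ _ _ => exact hs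

theorem rc_trans (h : Rc F H t s) (h' : Rc F H s r) : Rc F H t r := by
  induction h' with
  | base => exact h
  | step s₁ s' x y _ hs hxy hx hy hx' hy' hn ih => exact Rc.step s₁ s' x y ih hs hxy hx hy hx' hy' hn

theorem rc_symm (ht : t ∈ F) (h : Rc F H t s) : Rc F H s t := by
  induction h with
  | base => exact Rc.base
  | step s₁ s' x y h₁ hs hxy hx hy hx' hy' hn ih =>
    exact rc_trans (Rc.step s' s₁ x y Rc.base (rc_mem ht h₁) hxy hx' hy' hx hy hn) ih

theorem rc_mono (hH : H' ≤ H) (h : Rc F H t s) : Rc F H' t s := by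
  induction h with
  | base => exact Rc.base
  | step s₁ s' x y _ hs hxy hx hy hx' hy' hn ih =>
    exact Rc.step s₁ s' x y ih hs hxy hx hy hx' hy' fun h => hn (hH h)

theorem out_mono (hH : H' ≤ H) {v : V} (h : Out F τ H v) : Out F τ H' v := by
  obtain ⟨t, ht, hv⟩ := h
  exact ⟨t, rc_mono hH ht, hv⟩

theorem outE_mono (hH : H' ≤ H) {x y : V} (hxy : H'.Adj x y) (h : OutE F τ H x y) :
    OutE F τ H' x y := by
  obtain ⟨_, t, ht, hx, hy⟩ := h
  exact ⟨hxy, t, rc_mono hH ht, hx, hy⟩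

theorem outE_symm {x y : V} (h : OutE F τ H x y) : OutE F τ H y x := by
  obtain ⟨h1, t, ht, hx, hy⟩ := h
  exact ⟨h1.symm, t, ht, hy, hx⟩

theorem outE_out {x y : V} (h : OutE F τ H x y) : Out F τ H x ∧ Out F τ H y := by
  obtain ⟨_, t, ht, hx, hy⟩ := h
  exact ⟨⟨t, ht, hx⟩, ⟨t, ht, hy⟩⟩

end Pool.Agent.Lib.MP_a33b01_co_G5
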