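import Pool.Agent.Lib.MP_a33b01_co_G5.TpC
import Pool.Agent.Lib.MP_a33b01_co_G5.TpA1

set_option autoImplicit false

/-!
# MP_a33b01_co, project G5: the disc bounded by the outer cycle
-/

namespace Pool.Agent.Lib.MP_a33b01_co_G5

open Classical
open Pool.Agent.Lib.MP_a33b01_co (Sph sk cn supp EvenG Removes Wg)

variable {V : Type} {F K : Finset (Finset V)} {τ t : Finset V} {H : SimpleGraph V} {m : ℕ}
  {c : ℤ → V}

/-- The outer region is the complement of the disc: the region does not meet `K` (`rc_avoid`), and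
if it were smaller than `F \ K`, then by `side_conn` (for `F \ K`, whose boundary is also the cycle)
some edge `x y` not on the cycle is in one face of the region and in one face of `F \ K` outside of
the region (`br_cross`); this edge is not in `H` (by `hin` and `br_cross`), so the region is not
closed. -/
theorem bd_rc (hF : Sph F) (hle : H ≤ sk F) (hτ : τ ∈ F) (hB : Bd F τ H m c K) :
    Rc F H τ t ↔ t ∈ F ∧ t ∉ K := by
  have havoid : ∀ s, Rc F H τ s → s ∉ K := fun s hs h =>
    hB.tau ((rc_avoid hF hB.KF hB.br (fun x y h => ce_adj hB.cy h) hτ hs).2 h)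
  constructor
  · intro h
    exact ⟨rc_mem hτ h, havoid t h⟩
  · rintro ⟨htF, htK⟩
    by_contra hn
    set J : Finset (Finset V) := (F \ K).filter fun s => Rc F H τ s with hJ
    have hJsub : J ⊆ F \ K := Finset.filter_subset _ _
    have hJne : J.Nonempty :=
      ⟨τ, Finset.mem_filter.2 ⟨Finset.mem_sdiff.2 ⟨hτ, hB.tau⟩, Rc.base⟩⟩
    have hJne' : J ≠ F \ K := by
      intro h
      have h1 : t ∈ J := by
        rw [h]
        exact Finset.mem_sdiff.2 ⟨htF, htK⟩
      exact hn (Finset.mem_filter.1 h1).2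
    have hbc := br_compl hF hB.KF hB.br
    obtain ⟨x, y, hxy, hodd, hce⟩ := side_conn hF hle hB.cy Finset.sdiff_subset hbc hJsub hJne
      hJne'
    have h2 := Pool.Agent.Lib.MP_a33b01_co.cn_sdiff hJsub x y
    have h3 : ¬ Odd (cn (F \ K) x y) := fun h => hce ((hbc x y hxy).1 h)
    rw [Nat.odd_iff] at hodd h3
    have h4 : cn J x y ≠ 0 := by omega
    have h5 : cn ((F \ K) \ J) x y ≠ 0 := by omega
    unfold cn at h4 h5
    obtain ⟨s, hs⟩ := Finset.card_pos.1 (Nat.pos_of_ne_zero h4)
    obtain ⟨s', hs'⟩ := Finset.card_pos.1 (Nat.pos_of_ne_zero h5)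
    rw [Finset.mem_filter] at hs hs'
    obtain ⟨hsJ, hxs, hys⟩ := hs
    obtain ⟨hsJ', hxs', hys'⟩ := hs'
    rw [Finset.mem_sdiff] at hsJ'
    have h6 := Finset.mem_sdiff.1 hsJ'.1
    have h7 := (Finset.mem_filter.1 hsJ)
    have h8 := Finset.mem_sdiff.1 h7.1
    have hnadj : ¬ H.Adj x y := by
      intro had
      obtain ⟨r, hr, hxr, hyr⟩ := hB.hin x y had
      exact h8.2 (br_cross hF hB.KF hB.br hxy hce hr hxr hyr h8.1 hxs hys)
    exact hsJ'.2 (Finset.mem_filter.2
      ⟨hsJ'.1, Rc.step s s' x y h7.2 h6.1 hxy hxs hys hxs' hys' hnadj⟩)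

end Pool.Agent.Lib.MP_a33b01_co_G5
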