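import Pool.Agent.Lib.MP_a33b01_co_G5.TpC
import Pool.Agent.Lib.MP_a33b01_co_G5.TpD1

set_option autoImplicit false

/-!
# MP_a33b01_co, project G5: the disc bounded by the outer cycle
-/

namespace Pool.Agent.Lib.MP_a33b01_co_G5

open Classical
open Pool.Agent.Lib.MP_a33b01_co (Sph sk cn supp EvenG Removes Wg)

variable {V : Type} {F K : Finset (Finset V)} {τ t : Finset V} {H : SimpleGraph V} {m : ℕ}
  {c : ℤ → V}

private theorem TpD2_noCE {v : V} (h : ∀ i, c i ≠ v) (y : V) : ¬ CE c v y := by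
  rintro ⟨i, h1 | h1⟩
  · exact h i h1.1.symm
  · exact h (i + 1) h1.2.symm

/-- `bd_rc`, `br_star`, `br_one` -/
theorem bd_out (hF : Sph F) (hle : H ≤ sk F) (hτ : τ ∈ F) (hB : Bd F τ H m c K) {v : V}
    (hv : ∃ y, H.Adj v y) : Out F τ H v ↔ ∃ i, c i = v := by
  constructor
  · rintro ⟨t, ht, hvt⟩
    rw [bd_rc hF hle hτ hB] at ht
    by_contra hcon
    push Not at hcon
    obtain ⟨y, hy⟩ := hv
    obtain ⟨t', ht', hvt', -⟩ := hB.hin v y hy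
    exact ht.2 (br_star hF hB.KF hB.br (TpD2_noCE hcon) ht' hvt' ht.1 hvt)
  · rintro ⟨i, rfl⟩
    obtain ⟨-, t, htF, htK, hx, -, -⟩ := br_one hF hB.KF hB.br (hB.cy.adj i).ne
      ⟨i, Or.inl ⟨rfl, rfl⟩⟩ (hle (hB.cy.adj i))
    exact ⟨t, (bd_rc hF hle hτ hB).2 ⟨htF, htK⟩, hx⟩

theorem bd_outE (hF : Sph F) (hle : H ≤ sk F) (hτ : τ ∈ F) (hB : Bd F τ H m c K) {x y : V} :
    OutE F τ H x y ↔ CE c x y := by
  constructor
  · rintro ⟨had, t, ht, hx, hy⟩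
    rw [bd_rc hF hle hτ hB] at ht
    by_contra hcon
    obtain ⟨t', ht', hx', hy'⟩ := hB.hin x y had
    exact ht.2 (br_cross hF hB.KF hB.br had.ne hcon ht' hx' hy' ht.1 hx hy)
  · intro h
    have had := ce_adj hB.cy h
    obtain ⟨-, t, htF, htK, hx, hy, -⟩ := br_one hF hB.KF hB.br had.ne h (hle had)
    exact ⟨had, t, (bd_rc hF hle hτ hB).2 ⟨htF, htK⟩, hx, hy⟩

/-- the subgraph in the inside of any cycle -/
theorem bd_sg (hF : Sph F) (hle : H ≤ sk F) (hc : Cy H m c) (hK : K ⊆ F) (hτ : τ ∉ K)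
    (hb : BR K (CE c)) : Bd F τ (sg H K) m c K := by
  refine ⟨⟨hc.three, hc.per, hc.inj, fun i => ⟨hc.adj i, ?_⟩⟩, hK, hτ, hb, fun x y h => h.2⟩
  obtain ⟨⟨t, ht, hx, hy, -⟩, -⟩ := br_one hF hK hb (hc.adj i).ne
    ⟨i, Or.inl ⟨rfl, rfl⟩⟩ (hle (hc.adj i))
  exact ⟨t, ht, hx, hy⟩

/-- The outer side of the cycle is a face of `H`. -/
theorem bd_face (hF : Sph F) (hle : H ≤ sk F) (hB : Bd F τ H m c K) :
    Face F H m c (F \ K) := by
  refine ⟨hB.cy, Finset.sdiff_subset, br_compl hF hB.KF hB.br, fun x y h => ?_⟩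
  obtain ⟨t, ht, hx, hy⟩ := hB.hin x y h
  exact ⟨t, hB.KF ht, fun h1 => (Finset.mem_sdiff.1 h1).2 ht, hx, hy⟩

end Pool.Agent.Lib.MP_a33b01_co_G5
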