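import Pool.Agent.Lib.MP_a33b01_co_G5.TpC
import Pool.Agent.Lib.MP_a33b01_co_G5.TpD1
import Pool.Agent.Lib.MP_a33b01_co_G5.TpD2

set_option autoImplicit false

/-!
# MP_a33b01_co, project G5: the disc bounded by the outer cycle
-/

namespace Pool.Agent.Lib.MP_a33b01_co_G5

open Classical
open Pool.Agent.Lib.MP_a33b01_co (Sph sk cn supp EvenG Removes Wg)

variable {V : Type} {F K : Finset (Finset V)} {τ t : Finset V} {H : SimpleGraph V} {m : ℕ}
  {c : ℤ → V}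

private theorem TpD3_ce_eq {c c' : ℤ → V} (h : ∀ x y, CE c' x y ↔ CE c x y)
    (hb : BR K (CE c)) : BR K (CE c') := fun x y hxy => (hb x y hxy).trans (h x y).symm

theorem bd_shift (hB : Bd F τ H m c K) (a : ℤ) : Bd F τ H m (fun i => c (a + i)) K :=
  ⟨cy_shift hB.cy a, hB.KF, hB.tau, TpD3_ce_eq (fun _ _ => ce_shift a) hB.br, hB.hin⟩

theorem bd_refl (hB : Bd F τ H m c K) (a : ℤ) : Bd F τ H m (fun i => c (a - i)) K :=
  ⟨cy_refl hB.cy a, hB.KF, hB.tau, TpD3_ce_eq (fun _ _ => ce_refl a) hB.br, hB.hin⟩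

private theorem TpD3_noCE {c : ℤ → V} {v : V} (h : ∀ i, c i ≠ v) (y : V) : ¬ CE c v y := by
  rintro ⟨i, h1 | h1⟩
  · exact h i h1.1.symm
  · exact h (i + 1) h1.2.symm

/-- A vertex strictly inside: all the faces at it are in `K`. -/
theorem bd_inn (hF : Sph F) (hB : Bd F τ H m c K) {v : V} (hv : inn c v)
    (hy : ∃ y, H.Adj v y) : On K v ∧ ∀ t ∈ F, v ∈ t → t ∈ K := by
  obtain ⟨y, hy⟩ := hy
  obtain ⟨t, ht, hvt, -⟩ := hB.hin v y hy
  exact ⟨⟨t, ht, hvt⟩, fun t' ht' hvt' =>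
    br_star hF hB.KF hB.br (TpD3_noCE hv) ht hvt ht' hvt'⟩

/-- A vertex strictly inside a cycle of `H` is not on the outer region (`rc_avoid`, `br_star`). -/
theorem out_not_in (hF : Sph F) (hτ : τ ∈ F) {l : ℕ} {z : ℤ → V} {K' : Finset (Finset V)}
    (hc : Cy H l z) (hK : K' ⊆ F) (hτ' : τ ∉ K') (hb : BR K' (CE z)) {v : V} (hv : inn z v)
    (ho : Out F τ H v) : ¬ On K' v := by
  rintro ⟨t', ht', hvt'⟩
  obtain ⟨t, ht, hvt⟩ := ho
  have h1 : t ∈ K' := br_star hF hK hb (TpD3_noCE hv) ht' hvt' (rc_mem hτ ht) hvt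
  exact hτ' ((rc_avoid hF hK hb (fun x y h => ce_adj hc h) hτ ht).2 h1)

end Pool.Agent.Lib.MP_a33b01_co_G5
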