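import Pool.Agent.Lib.MP_a33b01_co_G5.TpD
import Pool.Agent.Lib.MP_a33b01_co_G5.TpE

set_option autoImplicit false

/-!
# MP_a33b01_co, project G5: facts on the two parts of a disc
-/

namespace Pool.Agent.Lib.MP_a33b01_co_G5

open Classical
open Pool.Agent.Lib.MP_a33b01_co (Sph sk cn supp EvenG Removes Wg)

variable {V : Type} {F K K₁ K₂ : Finset (Finset V)} {τ t : Finset V} {H : SimpleGraph V} {m : ℕ}
  {c : ℤ → V} {i : ℤ} {d : ℕ} {Q : List V}

private theorem TpG1_noCE {z : ℤ → V} {v : V} (h : ∀ i, z i ≠ v) (y : V) : ¬ CE z v y := by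
  rintro ⟨i, h1 | h1⟩
  · exact h i h1.1.symm
  · exact h (i + 1) h1.2.symm

private theorem TpG1_ne {H : SimpleGraph V} {l : List V} (h : LCy H l) : l ≠ [] := by
  rintro rfl
  have h1 := h.three
  simp at h1

private theorem TpG1_ne₁ (hs : Split F τ H m c K i d Q K₁ K₂) :
    arc c i (d + 1) ++ Q.reverse ≠ [] := TpG1_ne hs.lc₁

private theorem TpG1_ne₂ (hs : Split F τ H m c K i d Q K₁ K₂) :
    arc c (i + d) (m - d + 1) ++ Q ≠ [] := TpG1_ne hs.lc₂

private theorem TpG1_mem₁ (hF : Sph F) (hs : Split F τ H m c K i d Q K₁ K₂) {v : V}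
    (h₁ : On K₁ v) (h₂ : On K₂ v) : v ∈ arc c i (d + 1) ++ Q.reverse := by
  by_contra hcon
  obtain ⟨t₁, a1, a2⟩ := h₁
  obtain ⟨t₂, b1, b2⟩ := h₂
  have h3 : ∀ j, per (c 0) (arc c i (d + 1) ++ Q.reverse) j ≠ v := by
    intro j hj
    exact hcon ((mem_per (c 0) (TpG1_ne₁ hs)).1 ⟨j, hj⟩)
  have h4 := br_star hF hs.bd₁.KF hs.bd₁.br (TpG1_noCE h3) a1 a2 (hs.bd₂.KF b1) b2
  exact Finset.disjoint_left.1 hs.dj h4 b1

private theorem TpG1_mem₂ (hF : Sph F) (hs : Split F τ H m c K i d Q K₁ K₂) {v : V}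
    (h₁ : On K₁ v) (h₂ : On K₂ v) : v ∈ arc c (i + d) (m - d + 1) ++ Q := by
  by_contra hcon
  obtain ⟨t₁, a1, a2⟩ := h₁
  obtain ⟨t₂, b1, b2⟩ := h₂
  have h3 : ∀ j, per (c 0) (arc c (i + d) (m - d + 1) ++ Q) j ≠ v := by
    intro j hj
    exact hcon ((mem_per (c 0) (TpG1_ne₂ hs)).1 ⟨j, hj⟩)
  have h4 := br_star hF hs.bd₂.KF hs.bd₂.br (TpG1_noCE h3) b1 b2 (hs.bd₁.KF a1) a2
  exact Finset.disjoint_left.1 hs.dj a1 h4

private theorem TpG1_on₁ (hs : Split F τ H m c K i d Q K₁ K₂) {v : V}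
    (hv : v ∈ arc c i (d + 1) ++ Q.reverse) : On K₁ v := by
  obtain ⟨j, rfl⟩ := (mem_per (c 0) (TpG1_ne₁ hs)).2 hv
  obtain ⟨-, t, ht, h1, -⟩ := hs.bd₁.cy.adj j
  exact ⟨t, ht, h1⟩

private theorem TpG1_on₂ (hs : Split F τ H m c K i d Q K₁ K₂) {v : V}
    (hv : v ∈ arc c (i + d) (m - d + 1) ++ Q) : On K₂ v := by
  obtain ⟨j, rfl⟩ := (mem_per (c 0) (TpG1_ne₂ hs)).2 hv
  obtain ⟨-, t, ht, h1, -⟩ := hs.bd₂.cy.adj j
  exact ⟨t, ht, h1⟩

/-- The vertices in both parts are on the path: if `v` is not on the first cycle then all the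
faces at `v` are in `K₁` or none (`br_star`), so `v` is on both cycles. -/
theorem sp_both (hF : Sph F) (hB : Bd F τ H m c K) (hd : 0 < d) (hdm : d < m)
    (hQ : ∀ x ∈ Q, inn c x) (hs : Split F τ H m c K i d Q K₁ K₂) {v : V} (h₁ : On K₁ v)
    (h₂ : On K₂ v) : v = c i ∨ v = c (i + d) ∨ v ∈ Q := by
  have h3 := TpG1_mem₁ hF hs h₁ h₂
  have h4 := TpG1_mem₂ hF hs h₁ h₂
  rw [List.mem_append, List.mem_reverse] at h3
  rw [List.mem_append] at h4
  by_cases hvQ : v ∈ Q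
  · exact Or.inr (Or.inr hvQ)
  · rcases h3 with h3 | h3
    · rcases h4 with h4 | h4
      · obtain ⟨j, a1, a2, rfl⟩ := mem_arc.1 h3
        obtain ⟨j', b1, b2, h5⟩ := mem_arc.1 h4
        have h6 := hB.cy.inj _ _ h5
        rcases eq_or_lt_of_le (show 0 ≤ j' - j by push_cast at a2; omega) with h7 | h7
        · right
          left
          have h8 : j = i + d := by
            push_cast at a2
            omega
          rw [h8]
        · left
          have h8 := Int.le_of_dvd h7 h6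
          have h9 : j = i := by
            push_cast at b2
            omega
          rw [h9]
      · exact absurd h4 hvQ
    · exact absurd h3 hvQ

/-- every vertex with an edge is in one of the two parts -/
theorem sp_cover (hB : Bd F τ H m c K) (hs : Split F τ H m c K i d Q K₁ K₂) {v : V}
    (hv : ∃ y, H.Adj v y) : On K₁ v ∨ On K₂ v := by
  obtain ⟨y, hy⟩ := hv
  obtain ⟨t, ht, h1, -⟩ := hB.hin v y hy
  rw [← hs.un, Finset.mem_union] at ht
  rcases ht with ht | ht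
  · exact Or.inl ⟨t, ht, h1⟩
  · exact Or.inr ⟨t, ht, h1⟩

theorem sp_edge (hB : Bd F τ H m c K) (hs : Split F τ H m c K i d Q K₁ K₂) {x y : V}
    (hxy : H.Adj x y) : (sg H K₁).Adj x y ∨ (sg H K₂).Adj x y := by
  obtain ⟨t, ht, h1, h2⟩ := hB.hin x y hxy
  rw [← hs.un, Finset.mem_union] at ht
  rcases ht with ht | ht
  · exact Or.inl ⟨hxy, t, ht, h1, h2⟩
  · exact Or.inr ⟨hxy, t, ht, h1, h2⟩

/-- the edges at a vertex which is only in the first part -/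
theorem sp_adj₁ (hB : Bd F τ H m c K) (hs : Split F τ H m c K i d Q K₁ K₂) {x y : V}
    (hxy : H.Adj x y) (hx : ¬ On K₂ x) : (sg H K₁).Adj x y ∧ On K₁ y := by
  rcases sp_edge hB hs hxy with h1 | h1
  · obtain ⟨-, t, ht, -, h3⟩ := id h1
    exact ⟨h1, t, ht, h3⟩
  · obtain ⟨-, t, ht, h2, -⟩ := h1
    exact absurd ⟨t, ht, h2⟩ hx

theorem sp_adj₂ (hB : Bd F τ H m c K) (hs : Split F τ H m c K i d Q K₁ K₂) {x y : V}
    (hxy : H.Adj x y) (hx : ¬ On K₁ x) : (sg H K₂).Adj x y ∧ On K₂ y := by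
  rcases sp_edge hB hs hxy with h1 | h1
  · obtain ⟨-, t, ht, h2, -⟩ := h1
    exact absurd ⟨t, ht, h2⟩ hx
  · obtain ⟨-, t, ht, -, h3⟩ := id h1
    exact ⟨h1, t, ht, h3⟩

/-- the first arc is in the first part -/
theorem sp_arc₁ (hF : Sph F) (hle : H ≤ sk F) (hs : Split F τ H m c K i d Q K₁ K₂) {j : ℤ}
    (hj : i ≤ j) (hj' : j ≤ i + d) : On K₁ (c j) := by
  apply TpG1_on₁ hs
  rw [List.mem_append]
  left
  exact mem_arc.2 ⟨j, hj, by push_cast; omega, rfl⟩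

theorem sp_arc₂ (hF : Sph F) (hle : H ≤ sk F) (hdm : d < m)
    (hs : Split F τ H m c K i d Q K₁ K₂) {j : ℤ} (hj : i + d ≤ j) (hj' : j ≤ i + m) :
    On K₂ (c j) := by
  apply TpG1_on₂ hs
  rw [List.mem_append]
  left
  exact mem_arc.2 ⟨j, hj, by push_cast [Nat.cast_sub hdm.le]; omega, rfl⟩

theorem sp_Q (hF : Sph F) (hle : H ≤ sk F) (hs : Split F τ H m c K i d Q K₁ K₂) {v : V}
    (hv : v ∈ Q) : On K₁ v ∧ On K₂ v := by
  constructor
  · apply TpG1_on₁ hs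
    rw [List.mem_append, List.mem_reverse]
    exact Or.inr hv
  · apply TpG1_on₂ hs
    rw [List.mem_append]
    exact Or.inr hv

/-- strictly inside the first arc: not in the second part (`sp_both`) -/
theorem sp_not₂ (hF : Sph F) (hle : H ≤ sk F) (hB : Bd F τ H m c K) (hd : 0 < d) (hdm : d < m)
    (hQ : ∀ x ∈ Q, inn c x) (hs : Split F τ H m c K i d Q K₁ K₂) {j : ℤ} (hj : i < j)
    (hj' : j < i + d) : ¬ On K₂ (c j) := by
  intro h2
  have h1 := sp_arc₁ hF hle hs hj.le hj'.le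
  rcases sp_both hF hB hd hdm hQ hs h1 h2 with h3 | h3 | h3
  · have h4 := Int.le_of_dvd (by omega) (hB.cy.inj _ _ h3)
    omega
  · have h4 := Int.le_of_dvd (by omega) (hB.cy.inj _ _ h3.symm)
    omega
  · exact hQ _ h3 j rfl

theorem sp_not₁ (hF : Sph F) (hle : H ≤ sk F) (hB : Bd F τ H m c K) (hd : 0 < d) (hdm : d < m)
    (hQ : ∀ x ∈ Q, inn c x) (hs : Split F τ H m c K i d Q K₁ K₂) {j : ℤ} (hj : i + d < j)
    (hj' : j < i + m) : ¬ On K₁ (c j) := by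
  intro h1
  have h2 := sp_arc₂ hF hle hdm hs hj.le hj'.le
  rcases sp_both hF hB hd hdm hQ hs h1 h2 with h3 | h3 | h3
  · have h4 := Int.le_of_dvd (by omega) (hB.cy.inj _ _ h3)
    omega
  · have h4 := Int.le_of_dvd (by omega) (hB.cy.inj _ _ h3)
    omega
  · exact hQ _ h3 j rfl

/-- a vertex of the first part which is not on the first cycle is strictly inside of it -/
theorem sp_inn₁ (hF : Sph F) (hs : Split F τ H m c K i d Q K₁ K₂) {v : V} (hv : On K₁ v)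
    (h1 : v ∉ arc c i (d + 1)) (h2 : v ∉ Q) :
    inn (per (c 0) (arc c i (d + 1) ++ Q.reverse)) v ∧ ¬ On K₂ v := by
  have h3 : v ∉ arc c i (d + 1) ++ Q.reverse := by
    rw [List.mem_append, List.mem_reverse]
    tauto
  refine ⟨fun j hj => h3 ((mem_per (c 0) (TpG1_ne₁ hs)).1 ⟨j, hj⟩), fun h4 => ?_⟩
  exact h3 (TpG1_mem₁ hF hs hv h4)

end Pool.Agent.Lib.MP_a33b01_co_G5
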