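import Pool.Agent.Lib.MP_a33b01_co_G5.TpA1
import Pool.Agent.Lib.MP_a33b01_co_G5.TpD
import Pool.Agent.Lib.MP_a33b01_co_G5.TpE
import Pool.Agent.Lib.MP_a33b01_co_G5.TpG1

set_option autoImplicit false

/-!
# MP_a33b01_co, project G5: facts on the two parts of a disc
-/

namespace Pool.Agent.Lib.MP_a33b01_co_G5

open Classical
open Pool.Agent.Lib.MP_a33b01_co (Sph sk cn supp EvenG Removes Wg)

variable {V : Type} {F K K₁ K₂ : Finset (Finset V)} {τ t : Finset V} {H : SimpleGraph V} {m : ℕ}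
  {c : ℤ → V} {i : ℤ} {d : ℕ} {Q : List V}

private theorem TpG2_sg_le (hle : H ≤ sk F) (K' : Finset (Finset V)) : sg H K' ≤ sk F :=
  fun _ _ h => hle h.1

private theorem TpG2_arc_get (a : ℤ) (n k : ℕ) (hk : k < (arc c a n).length) :
    (arc c a n)[k] = c (a + k) := by
  simp [arc]

/-- two consecutive members of an arc in a chain -/
private theorem TpG2_cons {E : V → V → Prop} {a : ℤ} {n : ℕ} {l : List V}
    (h : (arc c a n ++ l).IsChain E) {j : ℤ} (hj : a ≤ j) (hj' : j + 1 < a + n) :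
    E (c j) (c (j + 1)) := by
  obtain ⟨k, hk⟩ := Int.eq_ofNat_of_zero_le (sub_nonneg.2 hj)
  have hkn : k + 1 < n := by omega
  have hlen := arc_length (c := c) a n
  have h1 := (List.isChain_iff_getElem.1 h) k (by rw [List.length_append]; omega)
  rw [List.getElem_append_left (by omega), List.getElem_append_left (by omega),
    TpG2_arc_get, TpG2_arc_get] at h1
  have e1 : a + (k : ℤ) = j := by omega
  have e2 : a + ((k + 1 : ℕ) : ℤ) = j + 1 := by
    push_cast
    omega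
  rw [e1, e2] at h1
  exact h1

/-- closing the cycle of a list -/
private theorem TpG2_close {l : List V} (d : V) (h : LCy H l) {x : V} (hx : l.head? = some x) :
    (l ++ [x]).IsChain (CE (per d l)) := by
  rw [List.isChain_append]
  refine ⟨ce_of_chain d h, List.isChain_singleton x, ?_⟩
  intro y hy z hz
  have hz' : x = z := by simpa using hz
  subst hz'
  exact ce_last d h hx hy

/-- outer edges of the two parts (`bd_outE` for `hs.bd₁`, `hs.bd₂`, `ce_of_chain`) -/
theorem sp_outE₁ (hF : Sph F) (hle : H ≤ sk F) (hτ : τ ∈ F)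
    (hs : Split F τ H m c K i d Q K₁ K₂) {j : ℤ} (hj : i ≤ j) (hj' : j < i + d) :
    OutE F τ (sg H K₁) (c j) (c (j + 1)) := by
  rw [bd_outE hF (TpG2_sg_le hle K₁) hτ hs.bd₁]
  refine TpG2_cons (ce_of_chain (c 0) hs.lc₁) hj ?_
  push_cast
  omega

theorem sp_outE₂ (hF : Sph F) (hle : H ≤ sk F) (hτ : τ ∈ F) (hdm : d < m)
    (hs : Split F τ H m c K i d Q K₁ K₂) {j : ℤ} (hj : i + d ≤ j) (hj' : j < i + m) :
    OutE F τ (sg H K₂) (c j) (c (j + 1)) := by
  rw [bd_outE hF (TpG2_sg_le hle K₂) hτ hs.bd₂]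
  refine TpG2_cons (ce_of_chain (c 0) hs.lc₂) hj ?_
  push_cast [Nat.cast_sub hdm.le]
  omega

theorem sp_chain₁ (hF : Sph F) (hle : H ≤ sk F) (hτ : τ ∈ F)
    (hs : Split F τ H m c K i d Q K₁ K₂) :
    (c i :: Q ++ [c (i + d)]).IsChain (OutE F τ (sg H K₁)) := by
  have hh : (arc c i (d + 1) ++ Q.reverse).head? = some (c i) := by
    rw [arc_cons]
    simp
  have h1 := TpG2_close (c 0) hs.lc₁ hh
  have h2 : (c (i + d) :: (Q.reverse ++ [c i])).IsChain
      (CE (per (c 0) (arc c i (d + 1) ++ Q.reverse))) := by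
    refine h1.suffix ⟨arc c i d, ?_⟩
    rw [arc_succ]
    simp
  have h3 : (c (i + d) :: (Q.reverse ++ [c i])).IsChain (OutE F τ (sg H K₁)) :=
    h2.imp fun x y hxy => (bd_outE hF (TpG2_sg_le hle K₁) hτ hs.bd₁).2 hxy
  have h4 := chain_reverse (fun x y => outE_symm) h3
  have h5 : (c (i + d) :: (Q.reverse ++ [c i])).reverse = c i :: Q ++ [c (i + d)] := by
    simp
  rw [h5] at h4
  exact h4

theorem sp_chain₂ (hF : Sph F) (hle : H ≤ sk F) (hτ : τ ∈ F) (hB : Bd F τ H m c K)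
    (hdm : d < m) (hs : Split F τ H m c K i d Q K₁ K₂) :
    (c i :: Q ++ [c (i + d)]).IsChain (OutE F τ (sg H K₂)) := by
  have hh : (arc c (i + d) (m - d + 1) ++ Q).head? = some (c (i + d)) := by
    rw [arc_cons]
    simp
  have h1 := TpG2_close (c 0) hs.lc₂ hh
  have hci : c (i + d + ((m - d : ℕ) : ℤ)) = c i := by
    have e : i + d + ((m - d : ℕ) : ℤ) = i + m := by
      push_cast [Nat.cast_sub hdm.le]
      omega
    rw [e]
    exact hB.cy.per i
  have h2 : (c i :: Q ++ [c (i + d)]).IsChain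
      (CE (per (c 0) (arc c (i + d) (m - d + 1) ++ Q))) := by
    refine h1.suffix ⟨arc c (i + d) (m - d), ?_⟩
    rw [arc_succ, hci]
    simp
  exact h2.imp fun x y hxy => (bd_outE hF (TpG2_sg_le hle K₂) hτ hs.bd₂).2 hxy

end Pool.Agent.Lib.MP_a33b01_co_G5
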