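import Pool.Agent.Lib.MP_a33b01_co_G5.CxA
import Pool.Agent.Lib.MP_a33b01_co_G5.TpF
import Pool.Agent.Lib.MP_a33b01_co_G5.TpG

set_option autoImplicit false

/-!
# MP_a33b01_co, project G5: reduction along a path between two vertices of `S`
-/

namespace Pool.Agent.Lib.MP_a33b01_co_G5

open Classical
open Pool.Agent.Lib.MP_a33b01_co (Sph sk cn supp EvenG Removes Wg)

variable {V : Type} {F K : Finset (Finset V)} {τ : Finset V} {H : SimpleGraph V}
  {S P A : Finset V} {m q k n : ℕ} {c : ℤ → V}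

private theorem ChA_nb {E : V → V → Prop} {Q : List V} {a b : V}
    (h : (a :: Q ++ [b]).IsChain E) : ∀ x ∈ Q, ∃ y, E y x := by
  induction Q generalizing a with
  | nil => intro x hx; simp at hx
  | cons z Q ih =>
    intro x hx
    have h1 := List.isChain_cons_cons.1 h
    rcases List.mem_cons.1 hx with rfl | hx
    · exact ⟨a, h1.1⟩
    · exact ih h1.2 x hx

private theorem ChA_opt {A : Finset V} {a x : V} :
    x ∈ (if a ∈ A then [a] else []) ↔ x = a ∧ a ∈ A := by
  split_ifs with h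
  · simp [h]
  · simp [h]

private theorem ChA_chain {E : V → V → Prop} {A : Finset V} {Q : List V} {a b a' b' : V}
    (h : (a :: Q ++ [b]).IsChain E) (h1 : E a' a) (h2 : E b b') :
    ((if a' ∈ A then [a'] else []) ++ (a :: Q ++ [b]) ++
      (if b' ∈ A then [b'] else [])).IsChain E := by
  rw [List.isChain_append, List.isChain_append]
  refine ⟨⟨?_, h, ?_⟩, ?_, ?_⟩
  · split_ifs
    · exact List.isChain_singleton _
    · exact List.isChain_nil
  · intro x hx y hy
    have hy' : a = y := by simpa using hy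
    subst hy'
    split_ifs at hx
    · have hx' : a' = x := by simpa using hx
      subst hx'
      exact h1
    · simp at hx
  · split_ifs
    · exact List.isChain_singleton _
    · exact List.isChain_nil
  · intro x hx y hy
    have hx' : b = x := by
      rw [← List.append_assoc, List.getLast?_concat] at hx
      simpa using hx
    subst hx'
    split_ifs at hy
    · have hy' : b' = y := by simpa using hy
      subst hy'
      exact h2
    · simp at hy

/-- Reduction along a path `c i, Q, c j` with `1 ≤ i < j ≤ k`, `|Q| ≤ 2`: the second part is the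
part with the arc `c i, …, c j`.
`exists_split` with `i`, `d = j - i`; `kstep` with `R = {v ∈ S ∪ P : On K₁ v}`,
`L = {v ∈ S ∪ P : On K₂ v}` (`sp_both`, `sp_cover`, `sp_adj₁`, `sp_adj₂`; every vertex has an edge:
`Ctx.nbr`), `HR = sg H K₁`, and the list
`l = [c (i + 1)]? ++ (c i :: Q ++ [c j]) ++ [c (j - 1)]?`, where `c (i + 1)`, `c (j - 1)` are taken
if they are in `A`.  `P ⊆ L` (`sp_arc₂`: `P` is in the arc `c j, …, c (i + m)`), so `P ∩ L = P`
and `h4` is clear; `c (i + 1) ∉ L` and `c 0 = c m ∉ R` (`sp_not₂`, `sp_not₁`).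
`hch`: `sp_outE₁`, `sp_chain₁`, `outE_symm`.  The list has at most six members, they are different
(`Ctx.inj`, `i + 1 < j - 1`).
`hA`: let `a ∈ A`, `a ∈ R`, `a ∉ l`; then `a = c t` with `i < t < j` (`Ctx.Aidx`, `sp_not₁`);
`a` is not adjacent to `c i`, `c j` or a member of `Q` (`hAQ`), nor to members of `A` (`st.ind`).
`hX`: by `hAQ` the vertex `c (i + 1) ∈ A` has no other neighbour in `L ∩ R` than `c i`
(`i + 1 ≠ j - 1`), the same for `c (j - 1)`. -/
theorem kchord_SS (h : Ctx F τ H S P A m c K q k n) {i j : ℤ} (hi : 1 ≤ i) (hij : i + 3 ≤ j)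
    (hj : j ≤ k) {Q : List V} (hch : (c i :: Q ++ [c j]).IsChain H.Adj) (hnd : Q.Nodup)
    (hQ : ∀ x ∈ Q, inn c x) (hQ2 : Q.length ≤ 2)
    (hAQ : ∀ t : ℤ, i < t → t < j → c t ∈ A → ∀ x ∈ (c i :: Q ++ [c j]), H.Adj (c t) x →
      (t = i + 1 ∧ x = c i) ∨ (t = j - 1 ∧ x = c j)) :
    Cl H S P A := by
  have hF := h.st.gd.sph
  have hle := h.st.gd.le
  have hτ := h.st.tF
  have hB := h.bd
  have hq1 := h.q1
  have hm := h.hm
  obtain ⟨d, hd⟩ := Int.eq_ofNat_of_zero_le (show (0 : ℤ) ≤ j - i by omega)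
  have hjd : i + d = j := by omega
  have hd0 : 0 < d := by omega
  have hmZ : (m : ℤ) = q + k := by
    rw [hm]
    push_cast
    ring
  have hdm : d < m := by omega
  have hch' : (c i :: Q ++ [c (i + d)]).IsChain H.Adj := by
    rw [hjd]
    exact hch
  obtain ⟨K₁, K₂, hs⟩ := exists_split hF hle hτ hB hd0 hdm (fun _ => ⟨by omega, by omega⟩)
    hch' hnd hQ
  have hsupW : ∀ x y, H.Adj x y → x ∈ S ∪ P ∧ y ∈ S ∪ P := fun x y hxy =>
    ⟨h.st.sup x y hxy, h.st.sup y x hxy.symm⟩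
  -- indices
  have hcS : ∀ t : ℤ, i ≤ t → t ≤ j → c t ∈ S ∪ P := fun t h1 h2 =>
    Finset.mem_union_left _ (h.cS (by omega) (by omega)).1
  have hQW : ∀ x ∈ Q, x ∈ S ∪ P := by
    intro x hx
    obtain ⟨y, hy⟩ := ChA_nb hch x hx
    exact (hsupW y x hy).2
  have h0m : ∀ t : ℤ, c (t + m) = c t := fun t => hB.cy.per t
  -- the two parts
  obtain ⟨R, hR⟩ : ∃ R : Finset V, R = (S ∪ P).filter fun v => On K₁ v := ⟨_, rfl⟩
  obtain ⟨L, hL⟩ : ∃ L : Finset V, L = (S ∪ P).filter fun v => On K₂ v := ⟨_, rfl⟩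
  have mR : ∀ v, v ∈ R ↔ v ∈ S ∪ P ∧ On K₁ v := fun v => by rw [hR, Finset.mem_filter]
  have mL : ∀ v, v ∈ L ↔ v ∈ S ∪ P ∧ On K₂ v := fun v => by rw [hL, Finset.mem_filter]
  have hPL : ∀ v ∈ P, v ∈ L := by
    intro v hv
    rw [mL]
    refine ⟨Finset.mem_union_right _ hv, ?_⟩
    obtain ⟨t, h1, h2, rfl⟩ := (h.hP v).1 hv
    rw [← h0m]
    exact sp_arc₂ hF hle hdm hs (by omega) (by omega)
  have hiL : c i ∈ L := by
    rw [mL]
    refine ⟨hcS i le_rfl (by omega), ?_⟩
    rw [← h0m]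
    exact sp_arc₂ hF hle hdm hs (by omega) (by omega)
  have hjL : c j ∈ L := by
    rw [mL]
    exact ⟨hcS j (by omega) le_rfl, sp_arc₂ hF hle hdm hs (by omega) (by omega)⟩
  have hQL : ∀ x ∈ Q, x ∈ L := fun x hx => by
    rw [mL]
    exact ⟨hQW x hx, (sp_Q hF hle hs hx).2⟩
  have hQR : ∀ x ∈ Q, x ∈ R := fun x hx => by
    rw [mR]
    exact ⟨hQW x hx, (sp_Q hF hle hs hx).1⟩
  have harcR : ∀ t : ℤ, i ≤ t → t ≤ j → c t ∈ R := fun t h1 h2 => by
    rw [mR]
    exact ⟨hcS t h1 h2, sp_arc₁ hF hle hs h1 (by omega)⟩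
  have hLR : L ∪ R = S ∪ P := by
    ext v
    rw [Finset.mem_union, mL, mR]
    constructor
    · rintro (h1 | h1)
      · exact h1.1
      · exact h1.1
    · intro hv
      rcases sp_cover hB hs (h.nbr hv) with h1 | h1
      · exact Or.inr ⟨hv, h1⟩
      · exact Or.inl ⟨hv, h1⟩
  have hc₁ : ∀ x ∈ L, x ∉ R → ∀ y, H.Adj x y → y ∈ L := by
    intro x hx hxR y hxy
    have hn : ¬ On K₁ x := fun h1 => hxR ((mR x).2 ⟨((mL x).1 hx).1, h1⟩)
    exact (mL y).2 ⟨(hsupW x y hxy).2, (sp_adj₂ hB hs hxy hn).2⟩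
  have hc₂ : ∀ x ∈ R, x ∉ L → ∀ y, H.Adj x y → y ∈ R := by
    intro x hx hxL y hxy
    have hn : ¬ On K₂ x := fun h1 => hxL ((mL x).2 ⟨((mR x).1 hx).1, h1⟩)
    exact (mR y).2 ⟨(hsupW x y hxy).2, (sp_adj₁ hB hs hxy hn).2⟩
  have hLne : L ≠ S ∪ P := by
    intro he
    have h1 : c (i + 1) ∈ L := by
      rw [he]
      exact hcS _ (by omega) (by omega)
    exact sp_not₂ hF hle hB hd0 hdm hQ hs (j := i + 1) (by omega) (by omega) ((mL _).1 h1).2
  have hRne : R ≠ S ∪ P := by
    intro he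
    have h1 : c m ∈ R := by
      rw [he]
      have h2 : c (m : ℤ) = c 0 := by
        rw [← h0m 0, zero_add]
      rw [h2]
      exact Finset.mem_union_right _ (h.cP (by omega) le_rfl).1
    exact sp_not₁ hF hle hB hd0 hdm hQ hs (j := (m : ℤ)) (by omega) (by omega) ((mR _).1 h1).2
  have hcon : CN (OutE F τ H) (P ∩ L) := by
    rw [Finset.inter_eq_left.2 hPL]
    exact h.st.con
  -- the list
  obtain ⟨l, hl⟩ : ∃ l : List V, l = (if c (i + 1) ∈ A then [c (i + 1)] else []) ++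
      (c i :: Q ++ [c j]) ++ (if c (j - 1) ∈ A then [c (j - 1)] else []) := ⟨_, rfl⟩
  have ml : ∀ x, x ∈ l ↔ (x = c (i + 1) ∧ c (i + 1) ∈ A) ∨ x ∈ c i :: Q ++ [c j] ∨
      (x = c (j - 1) ∧ c (j - 1) ∈ A) := by
    intro x
    rw [hl, List.mem_append, List.mem_append, ChA_opt, ChA_opt]
    tauto
  have mm : ∀ x, x ∈ c i :: Q ++ [c j] ↔ x = c i ∨ x ∈ Q ∨ x = c j := by
    intro x
    simp [or_assoc]
  have hinj : ∀ s t : ℤ, i ≤ s → s < t → t ≤ j → c s ≠ c t := by
    intro s t h1 h2 h3 he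
    have := h.inj (by omega) (by omega) (by omega) (by omega) he
    omega
  have hQc : ∀ (t : ℤ), ∀ x ∈ Q, c t ≠ x := fun t x hx => hQ x hx t
  have hndm : (c i :: Q ++ [c j]).Nodup := by
    rw [List.nodup_append]
    refine ⟨List.nodup_cons.2 ⟨fun h1 => hQc i _ h1 rfl, hnd⟩, List.nodup_singleton _, ?_⟩
    intro x hx y hy
    have hy' : y = c j := by simpa using hy
    subst hy'
    rcases List.mem_cons.1 hx with rfl | hx
    · exact hinj i j le_rfl (by omega) le_rfl
    · exact fun he => hQc j x hx he.symm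
  have hLRm : ∀ x ∈ L, x ∈ R → x ∈ c i :: Q ++ [c j] := by
    intro x hx hx'
    rw [mm]
    rcases sp_both hF hB hd0 hdm hQ hs ((mR x).1 hx').2 ((mL x).1 hx).2 with h1 | h1 | h1
    · exact Or.inl h1
    · rw [hjd] at h1
      exact Or.inr (Or.inr h1)
    · exact Or.inr (Or.inl h1)
  have hmL : ∀ x ∈ c i :: Q ++ [c j], x ∈ L := by
    intro x hx
    rcases (mm x).1 hx with rfl | hx | rfl
    · exact hiL
    · exact hQL x hx
    · exact hjL
  have hmR : ∀ x ∈ c i :: Q ++ [c j], x ∈ R := by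
    intro x hx
    rcases (mm x).1 hx with rfl | hx | rfl
    · exact harcR i le_rfl (by omega)
    · exact hQR x hx
    · exact harcR j (by omega) le_rfl
  have hOi : OutE F τ (sg H K₁) (c i) (c (i + 1)) :=
    sp_outE₁ hF hle hτ hs le_rfl (by omega)
  have hOj : OutE F τ (sg H K₁) (c (j - 1)) (c j) := by
    have h1 := sp_outE₁ hF hle hτ hs (j := j - 1) (by omega) (by omega)
    have e : j - 1 + 1 = j := by ring
    rwa [e] at h1
  have hOm : (c i :: Q ++ [c j]).IsChain (OutE F τ (sg H K₁)) := by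
    have h1 := sp_chain₁ hF hle hτ hs
    rwa [hjd] at h1
  refine kstep (L := L) (R := R) (HR := sg H K₁) (l := l) h.ih h.st h.hn.le hLR hc₁ hc₂ hLne
    hRne hcon (fun s _ _ _ p hp _ => hPL p hp) (sg_le K₁) ?_ ?_ ?_ ?_ ?_ ?_ ?_ ?_ ?_ ?_ ?_ ?_
  · intro x y hxy
    obtain ⟨h1, t, ht, hx, -⟩ := hxy
    exact (mR x).2 ⟨(hsupW x y h1).1, t, ht, hx⟩
  · intro x hx hxL y hxy
    have hn : ¬ On K₂ x := fun h1 => hxL ((mL x).2 ⟨((mR x).1 hx).1, h1⟩)
    exact (sp_adj₁ hB hs hxy hn).1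
  · intro x hx
    rcases (ml x).1 hx with ⟨rfl, -⟩ | hx | ⟨rfl, -⟩
    · exact harcR _ (by omega) (by omega)
    · exact hmR x hx
    · exact harcR _ (by omega) (by omega)
  · rw [hl, List.nodup_append, List.nodup_append]
    refine ⟨⟨?_, hndm, ?_⟩, ?_, ?_⟩
    · split_ifs
      · exact List.nodup_singleton _
      · exact List.nodup_nil
    · intro x hx y hy
      obtain ⟨rfl, -⟩ := ChA_opt.1 hx
      rcases (mm y).1 hy with rfl | hy | rfl
      · exact (hinj i (i + 1) le_rfl (by omega) (by omega)).symm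
      · exact hQc _ y hy
      · exact hinj (i + 1) j (by omega) (by omega) le_rfl
    · split_ifs
      · exact List.nodup_singleton _
      · exact List.nodup_nil
    · intro x hx y hy
      obtain ⟨rfl, -⟩ := ChA_opt.1 hy
      rcases List.mem_append.1 hx with hx | hx
      · obtain ⟨rfl, -⟩ := ChA_opt.1 hx
        exact hinj (i + 1) (j - 1) (by omega) (by omega) (by omega)
      · rcases (mm x).1 hx with rfl | hx | rfl
        · exact hinj i (j - 1) le_rfl (by omega) (by omega)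
        · exact fun he => hQc _ x hx he.symm
        · exact (hinj (j - 1) j (by omega) (by omega) le_rfl).symm
  · rw [hl, List.length_append, List.length_append]
    have e1 : (if c (i + 1) ∈ A then [c (i + 1)] else []).length ≤ 1 := by
      split_ifs <;> simp
    have e2 : (if c (j - 1) ∈ A then [c (j - 1)] else []).length ≤ 1 := by
      split_ifs <;> simp
    have e3 : (c i :: Q ++ [c j]).length = Q.length + 2 := by simp
    omega
  · rw [hl]
    exact ChA_chain hOm (outE_symm hOi) (outE_symm hOj)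
  · intro x hx
    rcases (ml x).1 hx with ⟨rfl, -⟩ | hx | ⟨rfl, -⟩
    · exact (outE_out hOi).2
    · rcases (mm x).1 hx with rfl | hx | rfl
      · exact (outE_out hOi).1
      · obtain ⟨y, hy⟩ := ChA_nb hOm x hx
        exact (outE_out hy).2
      · exact (outE_out hOj).2
    · exact (outE_out hOj).1
  · intro x hx hx'
    exact (ml x).2 (Or.inr (Or.inl (hLRm x hx hx')))
  · intro x hx hx'
    exact (ml x).2 (Or.inr (Or.inl (hLRm x (hPL x hx) hx')))
  · intro x hx _ hxL
    rcases (ml x).1 hx with ⟨rfl, h1⟩ | hx | ⟨rfl, h1⟩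
    · exact h1
    · exact absurd (hmL x hx) hxL
    · exact h1
  · intro a ha haR hal x hx hax
    obtain ⟨t, h1, h2, rfl⟩ := h.Aidx ha
    have h3 := ((mR _).1 haR).2
    have hti : i ≤ t := by
      by_contra hlt
      refine sp_not₁ hF hle hB hd0 hdm hQ hs (j := t + m) (by omega) (by omega) ?_
      rw [h0m]
      exact h3
    have htj : t ≤ j := by
      by_contra hlt
      exact sp_not₁ hF hle hB hd0 hdm hQ hs (j := t) (by omega) (by omega) h3
    have hti' : i < t := by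
      rcases hti.lt_or_eq with h4 | h4
      · exact h4
      · exact absurd ((ml _).2 (Or.inr (Or.inl ((mm _).2 (Or.inl (by rw [h4])))))) hal
    have htj' : t < j := by
      rcases htj.lt_or_eq with h4 | h4
      · exact h4
      · exact absurd ((ml _).2 (Or.inr (Or.inl ((mm _).2 (Or.inr (Or.inr (by rw [h4]))))))) hal
    rcases (ml x).1 hx with ⟨rfl, h5⟩ | hx | ⟨rfl, h5⟩
    · exact h.st.ind _ ha _ h5 hax
    · rcases hAQ t hti' htj' ha x hx hax with ⟨h6, -⟩ | ⟨h6, -⟩
      · subst h6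
        exact hal ((ml _).2 (Or.inl ⟨rfl, ha⟩))
      · subst h6
        exact hal ((ml _).2 (Or.inr (Or.inr ⟨rfl, ha⟩)))
    · exact h.st.ind _ ha _ h5 hax
  · intro x hx _ hxL
    rcases (ml x).1 hx with ⟨rfl, h1⟩ | hx | ⟨rfl, h1⟩
    · refine (Finset.card_le_card (t := {c i}) ?_).trans (by simp)
      intro y hy
      rw [Finset.mem_filter, Finset.mem_inter] at hy
      rw [Finset.mem_singleton]
      rcases hAQ (i + 1) (by omega) (by omega) h1 y (hLRm y hy.1.1 hy.1.2) hy.2 with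
        ⟨-, h6⟩ | ⟨h6, -⟩
      · exact h6
      · omega
    · exact absurd (hmL x hx) hxL
    · refine (Finset.card_le_card (t := {c j}) ?_).trans (by simp)
      intro y hy
      rw [Finset.mem_filter, Finset.mem_inter] at hy
      rw [Finset.mem_singleton]
      rcases hAQ (j - 1) (by omega) (by omega) h1 y (hLRm y hy.1.1 hy.1.2) hy.2 with
        ⟨h6, -⟩ | ⟨-, h6⟩
      · omega
      · exact h6

end Pool.Agent.Lib.MP_a33b01_co_G5
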