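import Pool.Agent.Lib.MP_a33b01_co_G5.LcA
import Pool.Agent.Lib.MP_a33b01_co_G5.TpG
import Pool.Agent.Lib.MP_a33b01_co_G5.TpF

set_option autoImplicit false

/-!
# MP_a33b01_co, project G5: Lemma C
-/

namespace Pool.Agent.Lib.MP_a33b01_co_G5

open Classical
open Pool.Agent.Lib.MP_a33b01_co (Sph sk cn supp EvenG Removes Wg)

variable {V : Type} {F K : Finset (Finset V)} {τ : Finset V} {H : SimpleGraph V}
  {m n : ℕ} {c : ℤ → V}

/-- the comparison of the values for the vertices of one part -/
private theorem LcB1_val {H' : SimpleGraph V} {m' : ℕ} {z : ℤ → V} {x u : V}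
    (hc : Cy H m c) (hz : Cy H' m' z) (hx : inn c x)
    (hcs : ∀ p, (∃ i, c i = p) → H.Adj u p → H'.Adj u p ∧ ∃ j, z j = p)
    (hxz : H.Adj u x → H'.Adj u x ∧ ∃ j, z j = x)
    (h2 : ((cs m' z).filter fun p => H'.Adj u p).card ≤ 2) :
    cv H' m' z u + (if H.Adj x u then 1 else 0) ≤ cv H m c u := by
  have key : ((cs m c).filter fun p => H.Adj u p).card + (if H.Adj x u then 1 else 0) ≤
      ((cs m' z).filter fun p => H'.Adj u p).card := by
    have hsub : ((cs m c).filter fun p => H.Adj u p) ⊆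
        (cs m' z).filter fun p => H'.Adj u p := by
      intro p hp
      rw [Finset.mem_filter, mem_cs hc] at hp
      obtain ⟨h1, h3⟩ := hcs p hp.1 hp.2
      rw [Finset.mem_filter, mem_cs hz]
      exact ⟨h3, h1⟩
    split_ifs with h
    · obtain ⟨h1, h3⟩ := hxz h.symm
      have hxn : x ∉ (cs m c).filter fun p => H.Adj u p := by
        intro hm
        rw [Finset.mem_filter, mem_cs hc] at hm
        obtain ⟨j, hj⟩ := hm.1
        exact hx j hj
      rw [← Finset.card_insert_of_notMem hxn]
      apply Finset.card_le_card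
      intro p hp
      rw [Finset.mem_insert] at hp
      rcases hp with hp | hp
      · subst hp
        rw [Finset.mem_filter, mem_cs hz]
        exact ⟨h3, h1⟩
      · exact hsub hp
    · exact Finset.card_le_card hsub
  unfold cv
  omega

/-- Lemma C: the inside `I` of a cycle of length at most eight can be removed when all the
vertices of the cycle have been deleted.  Induction on `I.card` (for all `H, m, c, K`).
If no vertex of `I` has two neighbours on the cycle: `lc_absorb`.
(Chords do not matter there: `lc_absorb` uses the path `c 1, …, c (m - 1)` or `c 2, …, c 7`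
as a path only.)
Otherwise let `x ∈ I` be adjacent to `c i` and `c (i + d)`, `0 < d < m`; `cs_dist`:
`3 ≤ d`, `d + 3 ≤ m`, and these are the only neighbours of `x` on the cycle (`cs_two`).
`exists_split` with `Q = [x]`: the two cycles have lengths `d + 2` and `m - d + 2`, both between
`5` and `7`.  Let `I₁`, `I₂` be the sets of the vertices of `I \ {x}` which are on `K₁`, `K₂`
(disjoint by `sp_both`, their union is `I \ {x}` without the isolated vertices; put the isolated
vertices anywhere, they are free: `rem_free`).  Delete `x` first (its value is `0`; a neighbour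
`y ∈ I₁` of `x` has at most one neighbour on `c`, since it has at most two on the cycle of `K₁`
(`cs_two`) and `x` is one of them, so its value is at least `1`).  Then remove `I₁` and `I₂` by
the induction hypothesis for `sg H K₁` and `sg H K₂` (`hs.bd₁`, `hs.bd₂`): for `u ∈ I₁` all
neighbours are in `I₁` or on the cycle of `K₁` (`sp_adj₁`, `sp_inn₁`), so
`cv (sg H K₁) .. u + #(N(u) ∩ {x}) ≤ cv H m c u`.  `rem_seq`, `rem_mono`.
The measures: `7 |I₁| + 6 * 7 ≤ 7 |I| + 6 m - 1` because `|I₁| < |I|` and `m ≥ 6`. -/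
theorem lemC (hG : Gd F H) (hτ : τ ∈ F) (ih : IH F τ n) (hB : Bd F τ H m c K)
    (h8 : m ≤ 8) {I : Finset V} (hI : ∀ v ∈ I, inn c v) (hIF : I ⊆ supp F)
    (hsup : ∀ x y, H.Adj x y → x ∈ I ∨ ∃ i, c i = x)
    (hmu : 7 * I.card + 6 * m ≤ n) : ∃ k, Rem H I (cv H m c) k ∧ 4 * k ≤ I.card := by
  induction hN : I.card using Nat.strong_induction_on generalizing H m c K I with
  | _ N IH =>
  subst hN
  by_cases h2 : ∀ v ∈ I, ((cs m c).filter fun p => H.Adj v p).card ≤ 1
  · exact lc_absorb hG hτ ih hB h8 hI hIF hmu h2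
  push Not at h2
  obtain ⟨x, hxI, hx2⟩ := h2
  obtain ⟨p, hp, p', hp', hpp⟩ := Finset.one_lt_card.1 hx2
  rw [Finset.mem_filter, mem_cs hB.cy] at hp hp'
  obtain ⟨⟨i, hi⟩, hxp⟩ := hp
  obtain ⟨⟨b, hb⟩, hxp'⟩ := hp'
  obtain ⟨j, hj1, hj2, hj3⟩ := cy_mod hB.cy i b
  have hji : i < j := by
    rcases eq_or_lt_of_le hj1 with h | h
    · exfalso
      subst h
      exact hpp (by rw [← hi, hj3, hb])
    · exact h
  obtain ⟨d, hd⟩ : ∃ d : ℕ, j = i + d := ⟨(j - i).toNat, by omega⟩
  subst hd
  have hd0 : 0 < d := by omega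
  have hdm : d < m := by omega
  have hx : inn c x := hI x hxI
  have h1x : H.Adj x (c i) := by rw [hi]; exact hxp
  have h2x : H.Adj x (c (i + d)) := by rw [hj3, hb]; exact hxp'
  obtain ⟨hd3, hd3'⟩ := cs_dist hG hB.cy hx hd0 hdm h1x h2x
  have hQ : ∀ y ∈ [x], inn c y := by
    intro y hy
    rw [List.mem_singleton] at hy
    subst hy
    exact hx
  obtain ⟨K₁, K₂, hs⟩ := exists_split hG.sph hG.le hτ hB hd0 hdm (Q := [x])
    (by simp) (by simpa using ⟨h1x.symm, h2x⟩) (by simp) hQ
  have hb₁ := hs.bd₁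
  have hb₂ := hs.bd₂
  have hl₁ : (arc c i (d + 1) ++ [x].reverse) ≠ [] := by simp
  have hl₂ : (arc c (i + d) (m - d + 1) ++ [x]) ≠ [] := by simp
  have hG₁ : Gd F (sg H K₁) := gd_mono hG (sg_le K₁)
  have hG₂ : Gd F (sg H K₂) := gd_mono hG (sg_le K₂)
  -- the two parts
  have hnb : ∀ v ∈ I, v ≠ x → On K₁ v → ¬ On K₂ v := by
    intro v hv hvx h1 h2
    rcases sp_both hG.sph hB hd0 hdm hQ hs h1 h2 with h | h | h
    · exact hI v hv _ h.symm
    · exact hI v hv _ h.symm
    · exact hvx (by simpa using h)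
  have hin₁ : ∀ v ∈ I, v ≠ x → inn (per (c 0) (arc c i (d + 1) ++ [x].reverse)) v := by
    intro v hv hvx j' hj'
    have := (mem_per (c 0) hl₁).1 ⟨j', hj'⟩
    rw [List.mem_append, mem_arc] at this
    rcases this with ⟨t, -, -, ht⟩ | h
    · exact hI v hv t ht
    · exact hvx (by simpa using h)
  have hin₂ : ∀ v ∈ I, v ≠ x → inn (per (c 0) (arc c (i + d) (m - d + 1) ++ [x])) v := by
    intro v hv hvx j' hj'
    have := (mem_per (c 0) hl₂).1 ⟨j', hj'⟩
    rw [List.mem_append, mem_arc] at this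
    rcases this with ⟨t, -, -, ht⟩ | h
    · exact hI v hv t ht
    · exact hvx (by simpa using h)
  have hon₁ : ∀ v, (∃ j, c j = v) → On K₁ v →
      ∃ j, per (c 0) (arc c i (d + 1) ++ [x].reverse) j = v := by
    rintro v ⟨t, rfl⟩ ht
    obtain ⟨t', h1, h2, h3⟩ := cy_mod hB.cy i t
    rw [← h3] at ht ⊢
    rw [mem_per (c 0) hl₁, List.mem_append, mem_arc]
    left
    refine ⟨t', h1, ?_, rfl⟩
    by_contra hcon
    exact sp_not₁ hG.sph hG.le hB hd0 hdm hQ hs (j := t') (by push_cast at hcon; omega) h2 ht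
  have hon₂ : ∀ v, (∃ j, c j = v) → On K₂ v →
      ∃ j, per (c 0) (arc c (i + d) (m - d + 1) ++ [x]) j = v := by
    rintro v ⟨t, rfl⟩ ht
    obtain ⟨t', h1, h2, h3⟩ := cy_mod hB.cy i t
    rw [← h3] at ht ⊢
    rw [mem_per (c 0) hl₂, List.mem_append, mem_arc]
    left
    rcases eq_or_lt_of_le h1 with h | h
    · exact ⟨i + m, by omega, by push_cast [Nat.cast_sub hdm.le]; omega, by
        rw [hB.cy.per, h]⟩
    · refine ⟨t', ?_, by push_cast [Nat.cast_sub hdm.le]; omega, rfl⟩
      by_contra hcon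
      exact sp_not₂ hG.sph hG.le hB hd0 hdm hQ hs (j := t') h (by omega) ht
  have hx₁ : ∃ j, per (c 0) (arc c i (d + 1) ++ [x].reverse) j = x := by
    rw [mem_per (c 0) hl₁]; simp
  have hx₂ : ∃ j, per (c 0) (arc c (i + d) (m - d + 1) ++ [x]) j = x := by
    rw [mem_per (c 0) hl₂]; simp
  have hc1 : ((I.erase x).filter fun v => On K₁ v).card < I.card :=
    lt_of_le_of_lt (Finset.card_filter_le _ _) (Finset.card_erase_lt_of_mem hxI)
  have hc2 : ((I.erase x).filter fun v => ¬ On K₁ v).card < I.card :=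
    lt_of_le_of_lt (Finset.card_filter_le _ _) (Finset.card_erase_lt_of_mem hxI)
  have hcs : ((I.erase x).filter fun v => On K₁ v).card +
      ((I.erase x).filter fun v => ¬ On K₁ v).card = (I.erase x).card := by
    rw [Finset.card_filter_add_card_filter_not]
  have hce := Finset.card_erase_add_one hxI
  obtain ⟨k₁, hr₁, hk₁⟩ := IH _ hc1 hG₁ hb₁ (by simp; omega)
    (I := (I.erase x).filter fun v => On K₁ v)
    (by
      intro v hv
      rw [Finset.mem_filter, Finset.mem_erase] at hv
      exact hin₁ v hv.1.2 hv.1.1)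
    (fun v hv => hIF (Finset.mem_of_mem_erase (Finset.mem_filter.1 hv).1))
    (by
      intro a b' hab
      obtain ⟨t, ht, hat, -⟩ := hab.2
      have hon : On K₁ a := ⟨t, ht, hat⟩
      rcases hsup a b' hab.1 with h | h
      · by_cases hax : a = x
        · right; rw [hax]; exact hx₁
        · left
          rw [Finset.mem_filter, Finset.mem_erase]
          exact ⟨⟨hax, h⟩, hon⟩
      · right
        exact hon₁ a h hon)
    (by simp; omega) rfl
  obtain ⟨k₂, hr₂, hk₂⟩ := IH _ hc2 hG₂ hb₂ (by simp; omega)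
    (I := (I.erase x).filter fun v => ¬ On K₁ v)
    (by
      intro v hv
      rw [Finset.mem_filter, Finset.mem_erase] at hv
      exact hin₂ v hv.1.2 hv.1.1)
    (fun v hv => hIF (Finset.mem_of_mem_erase (Finset.mem_filter.1 hv).1))
    (by
      intro a b' hab
      obtain ⟨t, ht, hat, -⟩ := hab.2
      have hon : On K₂ a := ⟨t, ht, hat⟩
      rcases hsup a b' hab.1 with h | h
      · by_cases hax : a = x
        · right; rw [hax]; exact hx₂
        · left
          rw [Finset.mem_filter, Finset.mem_erase]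
          exact ⟨⟨hax, h⟩, fun h1 => hnb a h hax h1 hon⟩
      · right
        exact hon₂ a h hon)
    (by simp; omega) rfl
  -- the values
  have hv₁ : ∀ u ∈ (I.erase x).filter (fun v => On K₁ v),
      cv (sg H K₁) (d + 1 + [x].length) (per (c 0) (arc c i (d + 1) ++ [x].reverse)) u +
        (if H.Adj x u then 1 else 0) ≤ cv H m c u := by
    intro u hu
    rw [Finset.mem_filter, Finset.mem_erase] at hu
    have hn₂ := hnb u hu.1.2 hu.1.1 hu.2
    refine LcB1_val hB.cy hb₁.cy hx ?_ ?_
      (cs_two hG₁ hb₁.cy (by simp; omega) (hin₁ u hu.1.2 hu.1.1))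
    · intro p hp hup
      have := sp_adj₁ hB hs hup hn₂
      exact ⟨this.1, hon₁ p hp this.2⟩
    · intro hux
      exact ⟨(sp_adj₁ hB hs hux hn₂).1, hx₁⟩
  have hv₂ : ∀ u ∈ (I.erase x).filter (fun v => ¬ On K₁ v),
      cv (sg H K₂) (m - d + 1 + [x].length)
        (per (c 0) (arc c (i + d) (m - d + 1) ++ [x])) u +
        (if H.Adj x u then 1 else 0) ≤ cv H m c u := by
    intro u hu
    rw [Finset.mem_filter, Finset.mem_erase] at hu
    refine LcB1_val hB.cy hb₂.cy hx ?_ ?_
      (cs_two hG₂ hb₂.cy (by simp; omega) (hin₂ u hu.1.2 hu.1.1))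
    · intro p hp hup
      have := sp_adj₂ hB hs hup hu.2
      exact ⟨this.1, hon₂ p hp this.2⟩
    · intro hux
      exact ⟨(sp_adj₂ hB hs hux hu.2).1, hx₂⟩
  have hsplit : ∀ u ∈ I, u ≠ x → u ∈ (I.erase x).filter (fun v => On K₁ v) ∨
      u ∈ (I.erase x).filter (fun v => ¬ On K₁ v) := by
    intro u hu hux
    by_cases h : On K₁ u
    · left; rw [Finset.mem_filter, Finset.mem_erase]; exact ⟨⟨hux, hu⟩, h⟩
    · right; rw [Finset.mem_filter, Finset.mem_erase]; exact ⟨⟨hux, hu⟩, h⟩
  refine ⟨k₁ + k₂, Rem.del I _ x _ hxI ?_ ?_, by omega⟩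
  · intro u hu hxu
    rcases hsplit u hu hxu.ne' with h | h
    · have := hv₁ u h
      rw [if_pos hxu] at this
      omega
    · have := hv₂ u h
      rw [if_pos hxu] at this
      omega
  · have hun : (I.erase x).filter (fun v => On K₁ v) ∪
        (I.erase x).filter (fun v => ¬ On K₁ v) = I.erase x :=
      Finset.filter_union_filter_not_eq _ _
    rw [← hun]
    refine rem_seq (Finset.disjoint_filter_filter_not _ _ _) (G := H)
      (g := cv (sg H K₂) (m - d + 1 + [x].length)
        (per (c 0) (arc c (i + d) (m - d + 1) ++ [x]))) ?_ ?_ ?_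
    · refine rem_mono (G' := sg H K₁) ?_ ?_ hr₁
      · intro u hu
        have := hv₁ u hu
        show _ ≤ if H.Adj x u then cv H m c u - 1 else cv H m c u
        split_ifs with h
        · rw [if_pos h] at this; omega
        · rw [if_neg h] at this; omega
      · intro u hu v _ huv
        rw [Finset.mem_filter, Finset.mem_erase] at hu
        exact (sp_adj₁ hB hs huv (hnb u hu.1.2 hu.1.1 hu.2)).1
    · intro u hu
      have h0 : (((I.erase x).filter (fun v => On K₁ v)).filter fun v => H.Adj u v) = ∅ := by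
        rw [Finset.filter_eq_empty_iff]
        intro v hv huv
        rw [Finset.mem_filter, Finset.mem_erase] at hu hv
        exact hu.2 (sp_adj₁ hB hs huv.symm (hnb v hv.1.2 hv.1.1 hv.2)).2
      rw [h0, Finset.card_empty, add_zero]
      have := hv₂ u hu
      show _ ≤ if H.Adj x u then cv H m c u - 1 else cv H m c u
      split_ifs with h
      · rw [if_pos h] at this; omega
      · rw [if_neg h] at this; omega
    · refine rem_mono (G' := sg H K₂) (fun u _ => le_rfl) ?_ hr₂
      intro u hu v _ huv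
      rw [Finset.mem_filter, Finset.mem_erase] at hu
      exact (sp_adj₂ hB hs huv hu.2).1

end Pool.Agent.Lib.MP_a33b01_co_G5
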