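import Pool.Agent.Lib.MP_a33b01_co_G5.LcA
import Pool.Agent.Lib.MP_a33b01_co_G5.TpG
import Pool.Agent.Lib.MP_a33b01_co_G5.TpF
import Pool.Agent.Lib.MP_a33b01_co_G5.LcB1

set_option autoImplicit false

/-!
# MP_a33b01_co, project G5: Lemma C
-/

namespace Pool.Agent.Lib.MP_a33b01_co_G5

open Classical
open Pool.Agent.Lib.MP_a33b01_co (Sph sk cn supp EvenG Removes Wg)

variable {V : Type} {F K : Finset (Finset V)} {τ : Finset V} {H : SimpleGraph V}
  {m n : ℕ} {c : ℤ → V}

private theorem LcB2_noCE {c : ℤ → V} {v : V} (h : inn c v) (y : V) : ¬ CE c v y := by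
  rintro ⟨i, h1 | h1⟩
  · exact h i h1.1.symm
  · exact h (i + 1) h1.2.symm

/-- A cycle of length at most eight with vertices inside.  `I` = the vertices of `S` strictly
inside (not on `z`, on a face of `K'`); they are not in `P ∪ A` (`out_not_in`).  If `I = ∅` this
gives the contradiction `hv`.  First remove `S \ I`: `St.sub` with `S \ I` and `P` (`st.con`),
`mu_lt`, `ih`.  Then `lemC` for `sg H K'` (`bd_sg`) and `I`, with
`7 |I| + 6 l ≤ 7 |S| + 6 |P| ≤ n`: the vertices of `z` are in `S ∪ P` and not in `I`, so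
`7 |S| + 6 |P| = 7 |S ∪ P| - |P| ≥ 7 (|I| + l) - |P|`, which is enough if `|P| ≤ l`; otherwise
some `p ∈ P` is not on `z` (and not in `I`), and `7 |S| + 6 |P| ≥ 7 (|I| + l + 1) - 6`.
For `u ∈ I` all neighbours are in `I` or on `z` (`br_star`), so
`cv (sg H K') l z u + #(N(u) ∩ (S \ I)) ≤ fv H P A u`; `rem_seq`, `rem_mono`. -/
theorem cl_sepc (ih : IH F τ n) {S P A : Finset V} (st : St F τ H S P A) (hn : mu S P ≤ n)
    {l : ℕ} {z : ℤ → V} {K' : Finset (Finset V)} (hc : Cy H l z) (h8 : l ≤ 8) (hK : K' ⊆ F)
    (hτ' : τ ∉ K') (hb : BR K' (CE z)) {v : V} (hv : v ∈ S ∪ P) (hvz : inn z v)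
    (hvK : On K' v) : Cl H S P A := by
  have hF := st.gd.sph
  have hle := st.gd.le
  have hPin : ∀ p ∈ P, inn z p → ¬ On K' p := fun p hp hpz =>
    out_not_in hF st.tF hc hK hτ' hb hpz (st.outP p hp)
  have hAin : ∀ a ∈ A, inn z a → ¬ On K' a := fun a ha haz =>
    out_not_in hF st.tF hc hK hτ' hb haz (st.outA a ha)
  set I : Finset V := S.filter fun u => inn z u ∧ On K' u with hIdef
  have hI : ∀ u, u ∈ I ↔ u ∈ S ∧ inn z u ∧ On K' u := fun u => Finset.mem_filter
  have hISub : I ⊆ S := Finset.filter_subset _ _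
  have hIP : ∀ u ∈ I, u ∉ P := fun u hu hp =>
    hPin u hp ((hI u).1 hu).2.1 ((hI u).1 hu).2.2
  have hvI : v ∈ I := by
    rw [hI]
    rcases Finset.mem_union.1 hv with h | h
    · exact ⟨h, hvz, hvK⟩
    · exact absurd hvK (hPin v h hvz)
  -- the vertices of the disc
  have hdisc : ∀ x y, H.Adj x y → On K' x → x ∈ I ∨ ∃ i, z i = x := by
    intro x y hxy hx
    by_cases hxz : inn z x
    · left
      rw [hI]
      rcases Finset.mem_union.1 (st.sup x y hxy) with h | h
      · exact ⟨h, hxz, hx⟩
      · exact absurd hx (hPin x h hxz)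
    · right
      unfold inn at hxz
      push Not at hxz
      exact hxz
  -- the edges at the vertices of `I`
  have hstar : ∀ u ∈ I, ∀ y, H.Adj u y → (sg H K').Adj u y := by
    intro u hu y huy
    obtain ⟨-, huz, t, ht, hut⟩ := (hI u).1 hu
    obtain ⟨-, t', ht', hut', hyt'⟩ := hle huy
    exact ⟨huy, t', br_star hF hK hb (LcB2_noCE huz) ht hut ht' hut', hut', hyt'⟩
  have hnb : ∀ u ∈ I, ∀ y, H.Adj u y → y ∈ I ∨ ∃ i, z i = y := by
    intro u hu y huy
    obtain ⟨-, t', ht', hut', hyt'⟩ := hstar u hu y huy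
    exact hdisc y u huy.symm ⟨t', ht', hyt'⟩
  have hB := bd_sg hF hle hc hK hτ' hb
  have hG' : Gd F (sg H K') := gd_mono st.gd (sg_le K')
  -- the first part
  have hcard : (S \ I).card + I.card = S.card := Finset.card_sdiff_add_card_eq_card hISub
  have hIpos : 0 < I.card := Finset.card_pos.2 ⟨v, hvI⟩
  have st' := st.sub (S' := S \ I) (P' := P) Finset.sdiff_subset (Finset.Subset.refl P) st.con
  have hmu : mu (S \ I) P < n := by
    unfold mu at hn ⊢
    omega
  obtain ⟨k₁, hr₁, hk₁⟩ := ih _ _ _ _ hmu st'
  have hr₁' : Rem H (S \ I) (fv H P A) k₁ := by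
    refine rem_mono (G' := rs H ((S \ I) ∪ P)) ?_ ?_ hr₁
    · intro u hu
      have h1 : (P.filter fun p => (rs H ((S \ I) ∪ P)).Adj u p) =
          P.filter fun p => H.Adj u p := by
        refine Finset.filter_congr fun p hp => ?_
        constructor
        · intro h
          exact h.1
        · intro h
          exact ⟨h, Finset.mem_union_left _ hu, Finset.mem_union_right _ hp⟩
      have h2 : (if u ∈ A ∩ (S \ I) then 1 else 0) = (if u ∈ A then 1 else 0 : ℕ) := by
        by_cases h3 : u ∈ A
        · rw [if_pos h3, if_pos (Finset.mem_inter.2 ⟨h3, hu⟩)]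
        · rw [if_neg h3, if_neg fun h4 => h3 (Finset.mem_inter.1 h4).1]
      unfold fv
      rw [h1, h2]
    · intro u hu w hw huw
      exact ⟨huw, Finset.mem_union_left _ hu, Finset.mem_union_left _ hw⟩
  -- the second part
  have hcs : (cs l z).card = l := cs_card hc
  have hcsSP : ∀ x ∈ cs l z, x ∈ S ∪ P := by
    intro x hx
    obtain ⟨i, rfl⟩ := (mem_cs hc).1 hx
    exact st.sup _ _ (hc.adj i)
  have hdis : Disjoint (cs l z) I := by
    rw [Finset.disjoint_left]
    intro x hx hxI
    obtain ⟨i, hi⟩ := (mem_cs hc).1 hx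
    exact ((hI x).1 hxI).2.1 i hi
  have hSP : (S ∪ P).card = S.card + P.card := Finset.card_union_of_disjoint st.dj
  have hmuI : 7 * I.card + 6 * l ≤ n := by
    unfold mu at hn
    by_cases hPl : P.card ≤ l
    · have h1 : (cs l z ∪ I).card ≤ (S ∪ P).card := by
        refine Finset.card_le_card (Finset.union_subset hcsSP ?_)
        exact hISub.trans Finset.subset_union_left
      rw [Finset.card_union_of_disjoint hdis, hcs, hSP] at h1
      omega
    · have h6 := st.six
      have h2 : ∃ p ∈ P, p ∉ cs l z := by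
        by_contra hcon
        push Not at hcon
        have h3 : P.card ≤ (cs l z).card := Finset.card_le_card hcon
        omega
      obtain ⟨p, hp, hpz⟩ := h2
      have hpI : p ∉ I := fun h => hIP p h hp
      have h1 : (insert p (cs l z ∪ I)).card ≤ (S ∪ P).card := by
        refine Finset.card_le_card (Finset.insert_subset (Finset.mem_union_right _ hp)
          (Finset.union_subset hcsSP ?_))
        exact hISub.trans Finset.subset_union_left
      rw [Finset.card_insert_of_notMem (by
        rw [Finset.mem_union]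
        rintro (h | h)
        · exact hpz h
        · exact hpI h), Finset.card_union_of_disjoint hdis, hcs, hSP] at h1
      omega
  obtain ⟨k₂, hr₂, hk₂⟩ := lemC hG' st.tF ih hB h8 (I := I) (fun u hu => ((hI u).1 hu).2.1)
    (fun u hu => st.sF (Finset.mem_union_left _ (hISub hu)))
    (fun x y hxy => by
      obtain ⟨h, t, ht, hx, -⟩ := hxy
      exact hdisc x y h ⟨t, ht, hx⟩) hmuI
  -- together
  refine ⟨k₁ + k₂, ?_, by omega⟩
  have hun : S \ I ∪ I = S := Finset.sdiff_union_of_subset hISub
  have key : Rem H (S \ I ∪ I) (fv H P A) (k₁ + k₂) := by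
    refine rem_seq (g := cv (sg H K') l z) Finset.sdiff_disjoint hr₁' ?_ ?_
    · intro u hu
      have huI := (hI u).1 hu
      have huA : u ∉ A := fun h => hAin u h huI.2.1 huI.2.2
      have h2 := cs_two hG' hB.cy h8 huI.2.1
      have h3 : ((S \ I).filter fun y => H.Adj u y).card + (P.filter fun y => H.Adj u y).card ≤
          ((cs l z).filter fun y => (sg H K').Adj u y).card := by
        have hd : Disjoint ((S \ I).filter fun y => H.Adj u y)
            (P.filter fun y => H.Adj u y) := by
          refine Finset.disjoint_filter_filter ?_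
          exact st.dj.mono_left Finset.sdiff_subset
        rw [← Finset.card_union_of_disjoint hd]
        refine Finset.card_le_card ?_
        intro y hy
        rw [Finset.mem_union, Finset.mem_filter, Finset.mem_filter] at hy
        have huy : H.Adj u y := by
          rcases hy with h | h
          · exact h.2
          · exact h.2
        have hyI : y ∉ I := by
          rcases hy with h | h
          · exact (Finset.mem_sdiff.1 h.1).2
          · exact fun h4 => hIP y h4 h.1
        rw [Finset.mem_filter, mem_cs hc]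
        refine ⟨?_, hstar u hu y huy⟩
        rcases hnb u hu y huy with h | h
        · exact absurd h hyI
        · exact h
      unfold cv fv
      rw [if_neg huA]
      omega
    · refine rem_mono (G' := sg H K') (fun u _ => le_rfl) ?_ hr₂
      intro u hu w _ huw
      exact hstar u hu w huw
  rw [hun] at key
  exact key

end Pool.Agent.Lib.MP_a33b01_co_G5
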