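import Pool.Agent.Lib.MP_a33b01_co_G5.CxA
import Pool.Agent.Lib.MP_a33b01_co_G5.LcB

set_option autoImplicit false

/-!
# MP_a33b01_co, project G5: reduction along a path between two vertices of `P`
-/

namespace Pool.Agent.Lib.MP_a33b01_co_G5

open Classical
open Pool.Agent.Lib.MP_a33b01_co (Sph sk cn supp EvenG Removes Wg)

variable {V : Type} {F K : Finset (Finset V)} {τ : Finset V} {H : SimpleGraph V}
  {S P A : Finset V} {m q k n : ℕ} {c : ℤ → V}

private theorem ChC_val {H' : SimpleGraph V} {m' : ℕ} {z : ℤ → V} {u : V} {T : Finset V}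
    (hz : Cy H' m' z) (hd : Disjoint P T) (hA : u ∉ A)
    (hP : ∀ p ∈ P ∪ T, H.Adj u p → H'.Adj u p ∧ ∃ j, z j = p)
    (h2 : ((cs m' z).filter fun p => H'.Adj u p).card ≤ 2) :
    cv H' m' z u + (T.filter fun v => H.Adj u v).card ≤ fv H P A u := by
  have key : (P.filter fun p => H.Adj u p).card + (T.filter fun v => H.Adj u v).card ≤
      ((cs m' z).filter fun p => H'.Adj u p).card := by
    rw [← Finset.card_union_of_disjoint (Finset.disjoint_filter_filter hd),
      ← Finset.filter_union]
    apply Finset.card_le_card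
    intro p hp
    rw [Finset.mem_filter] at hp
    obtain ⟨h1, h3⟩ := hP p hp.1 hp.2
    rw [Finset.mem_filter, mem_cs hz]
    exact ⟨h3, h1⟩
  unfold cv fv
  rw [if_neg hA]
  omega

/-- Reduction along a path `c i, Q, c j` with `-q < i < j ≤ 0`, where `Q = []` (a chord) or
`Q = [x]`.  `exists_split` with `i`, `d = j - i`; `K₁` is the part with the arc `c i, …, c j` of
`P`, its cycle has length `d + 1 + |Q| ≤ 7` (`d ≤ 5`).
If `Q = [x]`, delete `x` first: its value is `0` (it has the two neighbours `c i`, `c j` in `P`),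
and its neighbours in `S` have value at least `1`: such a neighbour `y` is not in `A` by `hAQ`
(`Ctx.Aidx`), and it has at most one neighbour in `P`: if it has two, `c a` and `c b`, `a < b`, then
`b - a ≥ 3`, `j - i ≥ 3` (`Ctx.ldP`) and `a`, `b` have distance at least two from `i` and from `j`
(no cycles of length `3`, `4`), which is impossible in an interval with `q ≤ 6` members.
Then two independent parts.  Part `K₂`: the state `(sg H K₂, S₂, l.toFinset, A)` with
`S₂ = {v ∈ S : On K₂ v, v ∉ Q}` and `l = arc c (1 - q) (q + i) ++ Q ++ arc c j (1 - j)`, which has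
at most `q` members (`j - i ≥ 2` if `Q = []`, `≥ 3` if `Q = [x]`); outer edges: `sp_outE₂`
(`c (t + m) = c t`), `sp_chain₂`; `A ⊆ S₂` (`Ctx.Aidx`, `sp_arc₂`); no member of `A` is adjacent to
`Q` (`hAQ`).  It is smaller by `mu_lt` (`c (i + 1)` is missing, `sp_not₂`); `ih`.
Part `K₁`: the set `I` of the vertices of `S` on `K₁`, not on the cycle (`sp_inn₁`): `lemC` for
`hs.bd₁`; all the vertices of its cycle are in `P` or `Q`.  Measure: `S ∪ P` contains `I`, the
cycle, and `c (j + 1)` or `c (i - 1)`, which is not on this cycle (`hR`), so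
`7 |I| + 6 (d + 1 + |Q|) ≤ 7 |S ∪ P| - 6 ≤ mu S P`.
For `u ∈ I` all neighbours are in `I` or on the cycle, for `u ∈ S₂` all neighbours in
`S ∪ P` are in `S₂ ∪ l` or (only in the case `u` on the arcs: no) …; `S` is the disjoint union of
`Q`, `S₂` and `I`, and there are no edges between `S₂` and `I`; `rem_seq` twice. -/
theorem kchord_PP (h : Ctx F τ H S P A m c K q k n) {i j : ℤ} (hi : -(q : ℤ) < i)
    (hj : j ≤ 0) (hij : i + 2 ≤ j) (hR : j - i + 2 ≤ m) {Q : List V} (hQ1 : Q.length ≤ 1)
    (hch : (c i :: Q ++ [c j]).IsChain H.Adj) (hQ : ∀ x ∈ Q, inn c x)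
    (hAQ : ∀ x ∈ Q, ∀ t : ℤ, 1 ≤ t → t ≤ k → ¬ H.Adj x (c t)) : Cl H S P A := by
  have hG := h.st.gd
  have hF := hG.sph
  have hle := hG.le
  have hτ := h.st.tF
  have hB := h.bd
  have hq6 := h.q6
  have hm := h.hm
  obtain ⟨d, hd⟩ : ∃ d : ℕ, j = i + d := ⟨(j - i).toNat, by omega⟩
  subst hd
  have hd0 : 0 < d := by omega
  have hdm : d < m := by omega
  have hnd : Q.Nodup := by
    rcases Q with _ | ⟨x, Q⟩
    · simp
    · rw [List.length_cons] at hQ1
      have : Q = [] := List.length_eq_zero_iff.1 (by omega)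
      subst this
      simp
  obtain ⟨K₁, K₂, hs⟩ := exists_split hF hle hτ hB hd0 hdm (Q := Q)
    (fun _ => ⟨by omega, by omega⟩) hch hnd hQ
  have hb₁ := hs.bd₁
  have hl₁ : (arc c i (d + 1) ++ Q.reverse) ≠ [] := by
    intro hcon
    have := congrArg List.length hcon
    rw [List.length_append, arc_length] at this
    simp at this
  -- the members of `Q`
  have hQS : ∀ v ∈ Q, v ∈ S := by
    intro v hv
    have hvn : ∃ y, H.Adj v y := by
      rcases Q with _ | ⟨x, Q⟩
      · simp at hv
      · rw [List.length_cons] at hQ1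
        have : Q = [] := List.length_eq_zero_iff.1 (by omega)
        subst this
        rw [List.mem_singleton] at hv
        subst hv
        simp at hch
        exact ⟨_, hch.1.symm⟩
    obtain ⟨y, hy⟩ := hvn
    exact (h.innS (hQ v hv) (h.st.sup v y hy)).1
  have hQP : ∀ v ∈ Q, v ∉ P := fun v hv => Finset.disjoint_left.1 h.st.dj (hQS v hv)
  -- indices of the vertices of `P`
  have hPon₂ : ∀ t : ℤ, -(q : ℤ) < t → t ≤ 0 → On K₂ (c t) → t ≤ i ∨ i + d ≤ t := by
    intro t h1 h2 h3
    by_contra hcon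
    push Not at hcon
    exact sp_not₂ hF hle hB hd0 hdm hQ hs hcon.1 hcon.2 h3
  have hPon₁ : ∀ t : ℤ, -(q : ℤ) < t → t ≤ 0 → On K₁ (c t) → i ≤ t ∧ t ≤ i + d := by
    intro t h1 h2 h3
    constructor
    · by_contra hcon
      have h4 : c (t + m) = c t := hB.cy.per t
      rw [← h4] at h3
      exact sp_not₁ hF hle hB hd0 hdm hQ hs (j := t + m) (by omega) (by omega) h3
    · by_contra hcon
      exact sp_not₁ hF hle hB hd0 hdm hQ hs (j := t) (by omega) (by omega) h3
  have hcov : ∀ v ∈ S ∪ P, On K₁ v ∨ On K₂ v := fun v hv => sp_cover hB hs (h.nbr hv)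
  have hboth : ∀ v ∈ S, On K₁ v → On K₂ v → v ∈ Q := by
    intro v hv h1 h2
    rcases sp_both hF hB hd0 hdm hQ hs h1 h2 with h3 | h3 | h3
    · exact absurd hv (by rw [h3]; exact (h.cP hi (by omega)).2)
    · exact absurd hv (by rw [h3]; exact (h.cP (by omega) hj).2)
    · exact h3
  -- the list
  obtain ⟨a, ha⟩ : ∃ a : ℕ, i = 1 - q + a := ⟨(i + q - 1).toNat, by omega⟩
  obtain ⟨b, hb⟩ : ∃ b : ℕ, i + d + b = 0 := ⟨(-(i + d)).toNat, by omega⟩
  have hmemL : ∀ v, v ∈ (arc c (1 - q) a ++ [c i]) ++ (Q ++ (c (i + d) :: arc c (i + d + 1) b)) ↔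
      v ∈ Q ∨ ∃ t : ℤ, -(q : ℤ) < t ∧ t ≤ 0 ∧ (t ≤ i ∨ i + d ≤ t) ∧ c t = v := by
    intro v
    simp only [List.mem_append, List.mem_cons, List.not_mem_nil, or_false, mem_arc]
    constructor
    · rintro ((⟨t, h1, h2, h3⟩ | h1) | h1 | h1 | ⟨t, h1, h2, h3⟩)
      · exact Or.inr ⟨t, by omega, by omega, Or.inl (by omega), h3⟩
      · exact Or.inr ⟨i, hi, by omega, Or.inl le_rfl, h1.symm⟩
      · exact Or.inl h1
      · exact Or.inr ⟨i + d, by omega, hj, Or.inr le_rfl, h1.symm⟩
      · exact Or.inr ⟨t, by omega, by omega, Or.inr (by omega), h3⟩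
    · rintro (h1 | ⟨t, h1, h2, h3 | h3, h4⟩)
      · exact Or.inr (Or.inl h1)
      · rcases eq_or_lt_of_le h3 with h5 | h5
        · exact Or.inl (Or.inr (by rw [← h4, h5]))
        · exact Or.inl (Or.inl ⟨t, by omega, by omega, h4⟩)
      · rcases eq_or_lt_of_le h3 with h5 | h5
        · exact Or.inr (Or.inr (Or.inl (by rw [← h4, ← h5])))
        · exact Or.inr (Or.inr (Or.inr ⟨t, by omega, by omega, h4⟩))
  have hch₂ := sp_chain₂ hF hle hτ hB hdm hs
  have hE : ∀ t : ℤ, -(q : ℤ) < t → t < 0 → (t < i ∨ i + d ≤ t) →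
      OutE F τ (sg H K₂) (c t) (c (t + 1)) := by
    intro t h1 h2 h3
    rcases h3 with h3 | h3
    · have := sp_outE₂ hF hle hτ hdm hs (j := t + m) (by omega) (by omega)
      rw [show t + m + 1 = (t + 1) + m by ring, hB.cy.per, hB.cy.per] at this
      exact this
    · exact sp_outE₂ hF hle hτ hdm hs (j := t) h3 (by omega)
  have hA₁ : (arc c (1 - q) a ++ [c i]).IsChain (OutE F τ (sg H K₂)) := by
    have h1 := arc_succ (c := c) (1 - q) a
    rw [← ha] at h1
    rw [← h1]
    apply arc_chain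
    intro t h2 h3
    exact hE t (by omega) (by push_cast at h3; omega) (Or.inl (by push_cast at h3; omega))
  have hA₂ : (c (i + d) :: arc c (i + d + 1) b).IsChain (OutE F τ (sg H K₂)) := by
    rw [← arc_cons]
    apply arc_chain
    intro t h2 h3
    exact hE t (by omega) (by push_cast at h3; omega) (Or.inr h2)
  have hchL : ((arc c (1 - q) a ++ [c i]) ++
      (Q ++ (c (i + d) :: arc c (i + d + 1) b))).IsChain (OutE F τ (sg H K₂)) := by
    rcases Q with _ | ⟨x, Q⟩
    · simp at hch₂
      exact chain_append hA₁ hch₂ hA₂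
    · rw [List.length_cons] at hQ1
      have : Q = [] := List.length_eq_zero_iff.1 (by omega)
      subst this
      simp at hch₂
      refine chain_append hA₁ hch₂.1 ?_
      exact List.isChain_cons_cons.2 ⟨hch₂.2, hA₂⟩
  have hndL : ((arc c (1 - q) a ++ [c i]) ++
      (Q ++ (c (i + d) :: arc c (i + d + 1) b))).Nodup := by
    have h1 := arc_succ (c := c) (1 - q) a
    rw [← ha] at h1
    rw [← h1, ← arc_cons]
    refine List.nodup_append'.2 ⟨arc_nodup hB.cy _ (by omega), ?_, ?_⟩
    · refine List.nodup_append'.2 ⟨hnd, arc_nodup hB.cy _ (by omega), ?_⟩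
      intro v hv hv'
      rw [mem_arc] at hv'
      obtain ⟨t, -, -, ht⟩ := hv'
      exact hQ v hv t ht
    · intro v hv hv'
      rw [mem_arc] at hv
      obtain ⟨t, h1, h2, h3⟩ := hv
      rw [List.mem_append, mem_arc] at hv'
      rcases hv' with hv' | ⟨t', h4, h5, h6⟩
      · exact hQ v hv' t h3
      · have := h.inj (i := t) (j := t') (by omega) (by push_cast at h2; omega) (by omega)
          (by push_cast at h5; omega) (h3.trans h6.symm)
        push_cast at h2 h5
        omega
  have hlenL : ((arc c (1 - q) a ++ [c i]) ++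
      (Q ++ (c (i + d) :: arc c (i + d + 1) b))).length ≤ 6 := by
    simp only [List.length_append, List.length_cons, List.length_nil, arc_length]
    omega
  generalize hLdef : (arc c (1 - q) a ++ [c i]) ++
      (Q ++ (c (i + d) :: arc c (i + d + 1) b)) = l at hmemL hchL hndL hlenL
  clear hLdef hA₁ hA₂
  -- the second part
  have hG₂ : Gd F (sg H K₂) := gd_mono hG (sg_le K₂)
  have hG₁ : Gd F (sg H K₁) := gd_mono hG (sg_le K₁)
  have hlPQ : ∀ v ∈ l, v ∈ P ∨ v ∈ Q := by
    intro v hv
    rcases (hmemL v).1 hv with h1 | ⟨t, h1, h2, -, h4⟩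
    · exact Or.inr h1
    · exact Or.inl (by rw [← h4]; exact (h.cP h1 h2).1)
  have hPl : ∀ v ∈ P, On K₂ v → v ∈ l := by
    intro v hv hv2
    obtain ⟨t, h1, h2, h3⟩ := (h.hP v).1 hv
    rw [hmemL]
    right
    rw [← h3] at hv2
    exact ⟨t, h1, h2, hPon₂ t h1 h2 hv2, h3⟩
  have hAon : ∀ v ∈ A, On K₂ v ∧ v ∉ Q ∧ ∃ t : ℤ, 1 ≤ t ∧ t ≤ k ∧ c t = v := by
    intro v hv
    obtain ⟨t, h1, h2, h3⟩ := h.Aidx hv
    refine ⟨?_, ?_, t, by omega, by omega, h3⟩
    · rw [← h3]
      exact sp_arc₂ hF hle hdm hs (by omega) (by omega)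
    · intro hvQ
      exact hQ v hvQ t h3
  have hn₁ : ∀ v ∈ S, On K₂ v → v ∉ Q → ¬ On K₁ v :=
    fun v hv h2 h3 h1 => h3 (hboth v hv h1 h2)
  have st₂ : St F τ (sg H K₂) (S.filter fun v => On K₂ v ∧ v ∉ Q) l.toFinset A := by
    refine ⟨hG₂, hτ, ?_, ?_, ?_, ?_, ?_, ?_, ?_, ?_, ?_, ?_, ?_⟩
    · intro x y hxy
      obtain ⟨t, ht, hxt, -⟩ := hxy.2
      have hon : On K₂ x := ⟨t, ht, hxt⟩
      rcases Finset.mem_union.1 (h.st.sup x y hxy.1) with h1 | h1
      · by_cases hxQ : x ∈ Q
        · exact Finset.mem_union_right _ (List.mem_toFinset.2 ((hmemL x).2 (Or.inl hxQ)))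
        · exact Finset.mem_union_left _ (Finset.mem_filter.2 ⟨h1, hon, hxQ⟩)
      · exact Finset.mem_union_right _ (List.mem_toFinset.2 (hPl x h1 hon))
    · intro v hv
      apply h.st.sF
      rcases Finset.mem_union.1 hv with h1 | h1
      · exact Finset.mem_union_left _ (Finset.mem_filter.1 h1).1
      · rcases hlPQ v (List.mem_toFinset.1 h1) with h2 | h2
        · exact Finset.mem_union_right _ h2
        · exact Finset.mem_union_left _ (hQS v h2)
    · rw [Finset.disjoint_left]
      intro v hv hv'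
      rw [Finset.mem_filter] at hv
      rcases hlPQ v (List.mem_toFinset.1 hv') with h2 | h2
      · exact Finset.disjoint_left.1 h.st.dj hv.1 h2
      · exact hv.2.2 h2
    · exact (List.toFinset_card_le l).trans hlenL
    · intro p hp
      rcases hlPQ p (List.mem_toFinset.1 hp) with h2 | h2
      · exact out_mono (sg_le K₂) (h.st.outP p h2)
      · rcases Q with _ | ⟨x, Q⟩
        · simp at h2
        · rw [List.length_cons] at hQ1
          have : Q = [] := List.length_eq_zero_iff.1 (by omega)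
          subst this
          rw [List.mem_singleton] at h2
          subst h2
          simp at hch₂
          exact (outE_out hch₂.1).2
    · exact cn_list (fun x y => outE_symm) hchL
    · intro u hu
      refine ld_list hG₂ hndL (hchL.imp fun _ _ h => h.1) hlenL ?_
      intro hul
      rw [Finset.mem_filter] at hu
      rcases hlPQ u hul with h2 | h2
      · exact Finset.disjoint_left.1 h.st.dj hu.1 h2
      · exact hu.2.2 h2
    · intro v hv
      obtain ⟨h1, h2, -⟩ := hAon v hv
      exact Finset.mem_filter.2 ⟨h.st.AS hv, h1, h2⟩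
    · intro v hv
      exact out_mono (sg_le K₂) (h.st.outA v hv)
    · intro x hx y hy hxy
      exact h.st.ind x hx y hy hxy.1
    · intro x hx p hp hxp
      obtain ⟨-, -, t, ht1, ht2, ht3⟩ := hAon x hx
      rcases hlPQ p (List.mem_toFinset.1 hp) with h2 | h2
      · exact h.st.AP x hx p h2 hxp.1
      · refine hAQ p h2 t ht1 ht2 ?_
        rw [ht3]
        exact hxp.1.symm
  have m₂ : mu (S.filter fun v => On K₂ v ∧ v ∉ Q) l.toFinset < mu S P := by
    refine mu_lt h.st.dj st₂.dj ?_ ?_ h.st.six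
    · intro v hv
      rcases Finset.mem_union.1 hv with h1 | h1
      · exact Finset.mem_union_left _ (Finset.mem_filter.1 h1).1
      · rcases hlPQ v (List.mem_toFinset.1 h1) with h2 | h2
        · exact Finset.mem_union_right _ h2
        · exact Finset.mem_union_left _ (hQS v h2)
    · intro hcon
      have h1 : c (i + 1) ∈ P := (h.cP (by omega) (by omega)).1
      have h2 : c (i + 1) ∈ (S.filter fun v => On K₂ v ∧ v ∉ Q) ∪ l.toFinset := by
        rw [hcon]; exact Finset.mem_union_right _ h1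
      rcases Finset.mem_union.1 h2 with h3 | h3
      · exact Finset.disjoint_left.1 h.st.dj (Finset.mem_filter.1 h3).1 h1
      · rcases (hmemL _).1 (List.mem_toFinset.1 h3) with h4 | ⟨t, h4, h5, h6, h7⟩
        · exact hQ _ h4 _ rfl
        · have := h.inj (i := t) (j := i + 1) h4 (by omega) (by omega) (by omega) h7
          omega
  obtain ⟨k₂, hr₂, hk₂⟩ := h.ih _ _ _ _ (lt_of_lt_of_le m₂ h.hn.le) st₂
  -- the first part
  have hI1 : ∀ v ∈ S.filter (fun v => ¬ On K₂ v), On K₁ v := by
    intro v hv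
    rw [Finset.mem_filter] at hv
    rcases hcov v (Finset.mem_union_left _ hv.1) with h1 | h1
    · exact h1
    · exact absurd h1 hv.2
  have hinn : ∀ v ∈ S.filter (fun v => ¬ On K₂ v),
      inn (per (c 0) (arc c i (d + 1) ++ Q.reverse)) v := by
    intro v hv j' hj'
    rw [Finset.mem_filter] at hv
    have := (mem_per (c 0) hl₁).1 ⟨j', hj'⟩
    rw [List.mem_append, mem_arc, List.mem_reverse] at this
    rcases this with ⟨t, h1, h2, h3⟩ | h1
    · have := (h.cP (i := t) (by omega) (by push_cast at h2; omega)).2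
      rw [h3] at this
      exact this hv.1
    · exact hv.2 (sp_Q hF hle hs h1).2
  have hcard : (S.filter fun v => ¬ On K₂ v).card + Q.length ≤ S.card := by
    rw [← List.toFinset_card_of_nodup hnd, ← Finset.card_union_of_disjoint]
    · apply Finset.card_le_card
      intro v hv
      rcases Finset.mem_union.1 hv with h1 | h1
      · exact (Finset.mem_filter.1 h1).1
      · exact hQS v (List.mem_toFinset.1 h1)
    · rw [Finset.disjoint_left]
      intro v hv hv'
      exact (Finset.mem_filter.1 hv).2 (sp_Q hF hle hs (List.mem_toFinset.1 hv')).2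
  have hPc := h.Pcard
  have hn := h.hn
  unfold mu at hn
  obtain ⟨k₁, hr₁, hk₁⟩ := lemC hG₁ hτ h.ih hb₁ (by omega)
    (I := S.filter fun v => ¬ On K₂ v) hinn
    (fun v hv => h.st.sF (Finset.mem_union_left _ (Finset.mem_filter.1 hv).1))
    (by
      intro x y hxy
      obtain ⟨t, ht, hxt, -⟩ := hxy.2
      have hon : On K₁ x := ⟨t, ht, hxt⟩
      rcases Finset.mem_union.1 (h.st.sup x y hxy.1) with h1 | h1
      · by_cases hon2 : On K₂ x
        · right
          rw [mem_per (c 0) hl₁, List.mem_append, List.mem_reverse]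
          exact Or.inr (hboth x h1 hon hon2)
        · left
          exact Finset.mem_filter.2 ⟨h1, hon2⟩
      · right
        obtain ⟨t', h2, h3, h4⟩ := (h.hP x).1 h1
        rw [← h4] at hon
        have h5 := hPon₁ t' h2 h3 hon
        rw [mem_per (c 0) hl₁, List.mem_append, mem_arc]
        exact Or.inl ⟨t', h5.1, by push_cast; omega, h4⟩)
    (by omega)
  -- the removal
  have hQr : Rem H Q.toFinset (fv H P A) 0 := by
    refine rem_list Q hnd _ ?_
    intro l₁ l₂ x hl
    have : l₁ = [] := by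
      have := congrArg List.length hl
      rw [List.length_append, List.length_cons] at this
      exact List.length_eq_zero_iff.1 (by omega)
    subst this
    simp
  have hr₁' : Rem H (S.filter fun v => ¬ On K₂ v)
      (cv (sg H K₁) (d + 1 + Q.length) (per (c 0) (arc c i (d + 1) ++ Q.reverse))) k₁ := by
    refine rem_mono (G' := sg H K₁) (fun u _ => le_rfl) ?_ hr₁
    intro u hu v _ huv
    exact (sp_adj₁ hB hs huv (Finset.mem_filter.1 hu).2).1
  have hr₂' : Rem H (S.filter fun v => On K₂ v ∧ v ∉ Q) (fv (sg H K₂) l.toFinset A) k₂ := by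
    refine rem_mono (G' := sg H K₂) (fun u _ => le_rfl) ?_ hr₂
    intro u hu v _ huv
    rw [Finset.mem_filter] at hu
    exact (sp_adj₂ hB hs huv (hn₁ u hu.1 hu.2.1 hu.2.2)).1
  have hdPQ : Disjoint P Q.toFinset := by
    rw [Finset.disjoint_left]
    intro v hv hv'
    exact hQP v (List.mem_toFinset.1 hv') hv
  have hd1 : Disjoint Q.toFinset (S.filter fun v => ¬ On K₂ v) := by
    rw [Finset.disjoint_left]
    intro v hv hv'
    exact (Finset.mem_filter.1 hv').2 (sp_Q hF hle hs (List.mem_toFinset.1 hv)).2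
  have hr12 := rem_seq hd1 hQr (by
    intro u hu
    have hu' := Finset.mem_filter.1 hu
    refine ChC_val hb₁.cy hdPQ ?_ ?_ (cs_two hG₁ hb₁.cy (by omega) (hinn u hu))
    · intro huA
      exact hu'.2 (hAon u huA).1
    · intro p hp hup
      obtain ⟨h1, h2⟩ := sp_adj₁ hB hs hup hu'.2
      refine ⟨h1, ?_⟩
      rw [mem_per (c 0) hl₁, List.mem_append, mem_arc, List.mem_reverse]
      rcases Finset.mem_union.1 hp with h3 | h3
      · obtain ⟨t', h4, h5, h6⟩ := (h.hP p).1 h3
        rw [← h6] at h2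
        have h7 := hPon₁ t' h4 h5 h2
        exact Or.inl ⟨t', h7.1, by push_cast; omega, h6⟩
      · exact Or.inr (List.mem_toFinset.1 h3)) hr₁'
  have hd2 : Disjoint (Q.toFinset ∪ S.filter fun v => ¬ On K₂ v)
      (S.filter fun v => On K₂ v ∧ v ∉ Q) := by
    rw [Finset.disjoint_left]
    intro v hv hv'
    rw [Finset.mem_filter] at hv'
    rcases Finset.mem_union.1 hv with h1 | h1
    · exact hv'.2.2 (List.mem_toFinset.1 h1)
    · exact (Finset.mem_filter.1 h1).2 hv'.2.1
  have hr := rem_seq hd2 hr12 (by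
    intro u hu
    have hu' := Finset.mem_filter.1 hu
    have hn₁u := hn₁ u hu'.1 hu'.2.1 hu'.2.2
    have h0 : ((Q.toFinset ∪ S.filter fun v => ¬ On K₂ v).filter fun v => H.Adj u v) =
        Q.toFinset.filter fun v => H.Adj u v := by
      ext v
      simp only [Finset.mem_filter, Finset.mem_union]
      constructor
      · rintro ⟨h1 | h1, h2⟩
        · exact ⟨h1, h2⟩
        · exact absurd (sp_adj₂ hB hs h2 hn₁u).2 h1.2
      · rintro ⟨h1, h2⟩
        exact ⟨Or.inl h1, h2⟩
    rw [h0]
    refine fv_step hdPQ (fun h => h) ?_ (st₂.load hu)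
    intro x hx hux
    obtain ⟨h1, h2⟩ := sp_adj₂ hB hs hux hn₁u
    refine ⟨?_, h1⟩
    rw [List.mem_toFinset]
    rcases hx with hx | hx
    · exact hPl x hx h2
    · exact (hmemL x).2 (Or.inl (List.mem_toFinset.1 hx))) hr₂'
  have hSS : (Q.toFinset ∪ S.filter fun v => ¬ On K₂ v) ∪
      (S.filter fun v => On K₂ v ∧ v ∉ Q) = S := by
    ext v
    simp only [Finset.mem_filter, Finset.mem_union, List.mem_toFinset]
    constructor
    · rintro ((h1 | h1) | h1)
      · exact hQS v h1
      · exact h1.1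
      · exact h1.1
    · intro hv
      by_cases h1 : On K₂ v
      · by_cases h2 : v ∈ Q
        · exact Or.inl (Or.inl h2)
        · exact Or.inr ⟨hv, h1, h2⟩
      · exact Or.inl (Or.inr ⟨hv, h1⟩)
  rw [hSS] at hr
  refine ⟨_, hr, ?_⟩
  have hc : (S.filter fun v => ¬ On K₂ v).card +
      (S.filter fun v => On K₂ v ∧ v ∉ Q).card ≤ S.card := by
    rw [← Finset.card_union_of_disjoint]
    · apply Finset.card_le_card
      intro v hv
      rcases Finset.mem_union.1 hv with h1 | h1
      · exact (Finset.mem_filter.1 h1).1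
      · exact (Finset.mem_filter.1 h1).1
    · rw [Finset.disjoint_left]
      intro v hv hv'
      exact (Finset.mem_filter.1 hv).2 (Finset.mem_filter.1 hv').2.1
  omega

end Pool.Agent.Lib.MP_a33b01_co_G5
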