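import Pool.Agent.Lib.MP_a33b01_co_G5.ChA
import Pool.Agent.Lib.MP_a33b01_co_G5.ChB
import Pool.Agent.Lib.MP_a33b01_co_G5.ChC

set_option autoImplicit false

/-!
# MP_a33b01_co, project G5: chords
-/

namespace Pool.Agent.Lib.MP_a33b01_co_G5

open Classical
open Pool.Agent.Lib.MP_a33b01_co (Sph sk cn supp EvenG Removes Wg)

variable {V : Type} {F K : Finset (Finset V)} {τ : Finset V} {H : SimpleGraph V}
  {S P A : Finset V} {m q k n : ℕ} {c : ℤ → V}

/-- A chord has length at least four (`ch_dist`); take a chord with `j - i` as small as possible,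
then a member `c t` of `A` with `i < t < j` which is adjacent to `c i` or `c j` is `c (i + 1)` or
`c (j - 1)`: `kchord_SS` with `Q = []`. -/
theorem cl_chSS (h : Ctx F τ H S P A m c K q k n)
    (hx : ∃ i j : ℤ, 1 ≤ i ∧ i + 2 ≤ j ∧ j ≤ k ∧ H.Adj (c i) (c j)) : Cl H S P A := by
  have hx' : ∃ d : ℕ, ∃ i : ℤ, 1 ≤ i ∧ 2 ≤ d ∧ i + d ≤ k ∧ H.Adj (c i) (c (i + d)) := by
    obtain ⟨i, j, h1, h2, h3, h4⟩ := hx
    obtain ⟨d, hd⟩ := Int.eq_ofNat_of_zero_le (show (0 : ℤ) ≤ j - i by omega)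
    have e : i + d = j := by omega
    exact ⟨d, i, h1, by omega, by omega, by rw [e]; exact h4⟩
  have hmin : ∀ i j : ℤ, 1 ≤ i → i + 2 ≤ j → j ≤ k → H.Adj (c i) (c j) →
      (Nat.find hx' : ℤ) ≤ j - i := by
    intro i j h1 h2 h3 h4
    obtain ⟨d, hd⟩ := Int.eq_ofNat_of_zero_le (show (0 : ℤ) ≤ j - i by omega)
    have e : i + d = j := by omega
    have := Nat.find_min' hx' (m := d) ⟨i, h1, by omega, by omega, by rw [e]; exact h4⟩
    omega
  obtain ⟨i, h1, h2, h3, h4⟩ := Nat.find_spec hx'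
  have h5 : 4 ≤ Nat.find hx' := (ch_dist h.st.gd h.bd.cy h2 (by
    have := h.q1
    have := h.hm
    omega) h4).1
  refine kchord_SS h (Q := []) h1 (by omega) h3 ?_ List.nodup_nil (by simp) (by simp) ?_
  · simpa using h4
  · intro t ht1 ht2 _ x hx hax
    have hx2 : x = c i ∨ x = c (i + (Nat.find hx' : ℕ)) := by simpa using hx
    rcases hx2 with rfl | rfl
    · left
      refine ⟨?_, rfl⟩
      by_contra hne
      have := hmin i t h1 (by omega) (by omega) hax.symm
      omega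
    · right
      refine ⟨?_, rfl⟩
      by_contra hne
      have := hmin t (i + (Nat.find hx' : ℕ)) (by omega) (by omega) h3 hax
      omega

end Pool.Agent.Lib.MP_a33b01_co_G5
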