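import Pool.Agent.Lib.MP_a33b01_co_G5.ChA
import Pool.Agent.Lib.MP_a33b01_co_G5.ChB
import Pool.Agent.Lib.MP_a33b01_co_G5.ChC
import Pool.Agent.Lib.MP_a33b01_co_G5.ChD1

set_option autoImplicit false

/-!
# MP_a33b01_co, project G5: chords
-/

namespace Pool.Agent.Lib.MP_a33b01_co_G5

open Classical
open Pool.Agent.Lib.MP_a33b01_co (Sph sk cn supp EvenG Removes Wg)

variable {V : Type} {F K : Finset (Finset V)} {τ : Finset V} {H : SimpleGraph V}
  {S P A : Finset V} {m q k n : ℕ} {c : ℤ → V}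

private theorem ChD2_core (h : Ctx F τ H S P A m c K q k n)
    (hss : ∀ i j : ℤ, 1 ≤ i → i + 2 ≤ j → j ≤ k → ¬ H.Adj (c i) (c j)) {i j : ℤ}
    (h1 : 1 ≤ i) (h2 : i ≤ k) (h3 : -(q : ℤ) < j) (h4 : j ≤ 0) (h5 : H.Adj (c i) (c j))
    (h6 : 2 ≤ i - j) (h7 : i - j + 2 ≤ m) (h8 : (q : ℤ) + j ≤ 4)
    (h9 : ∀ t : ℤ, -(q : ℤ) < t → t < j → ¬ H.Adj (c i) (c t)) : Cl H S P A := by
  refine kchord_SP h h1 h2 h3 h4 (Q := []) ?_ List.nodup_nil ?_ h6 h7 ?_ ?_ ?_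
  · simpa using h5.symm
  · intro x hx
    simp at hx
  · have : (if c (i + 1) ∈ A then (1 : ℤ) else 0) ≤ 1 := by
      split_ifs <;> norm_num
    simp only [List.length_nil]
    push_cast
    omega
  · intro x hx t ht1 ht2
    simp only [List.nil_append, List.mem_singleton] at hx
    rw [hx]
    exact h9 t ht1 ht2
  · intro t ht1 ht2 ht3 x hx hadj
    simp only [List.nil_append, List.mem_singleton] at hx
    refine ⟨?_, hx⟩
    by_contra hne
    rw [hx] at hadj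
    exact hss i t h1 (by omega) (by omega) hadj.symm

private theorem ChD2_mirror (h : Ctx F τ H S P A m c K q k n)
    (hss : ∀ i j : ℤ, 1 ≤ i → i + 2 ≤ j → j ≤ k → ¬ H.Adj (c i) (c j)) {i j : ℤ}
    (h1 : 1 ≤ i) (h2 : i ≤ k) (h3 : -(q : ℤ) < j) (h4 : j ≤ 0) (h5 : H.Adj (c i) (c j))
    (h6 : 2 ≤ i - j) (h7 : i - j + 2 ≤ m) (h8 : 1 - j ≤ 4)
    (h9 : ∀ t : ℤ, j < t → t ≤ 0 → ¬ H.Adj (c i) (c t)) : Cl H S P A := by
  have hm' : (m : ℤ) = q + k := by rw [h.hm]; push_cast; ring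
  have hper : ∀ s t : ℤ, s = t + m → c s = c t := by
    intro s t hst
    rw [hst]
    exact h.bd.cy.per t
  have hi : ((k : ℤ) + 1 - ((k : ℤ) + 1 - i)) = i := by ring
  refine ChD2_core h.mirror ?_ (i := (k : ℤ) + 1 - i) (j := 1 - q - j) (by omega) (by omega)
    (by omega) (by omega) ?_ (by omega) (by omega) (by omega) ?_
  · intro s t hs hst ht hadj
    exact hss ((k : ℤ) + 1 - t) ((k : ℤ) + 1 - s) (by omega) (by omega) (by omega) hadj.symm
  · show H.Adj (c ((k : ℤ) + 1 - ((k : ℤ) + 1 - i))) (c ((k : ℤ) + 1 - (1 - q - j)))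
    rw [hi, hper ((k : ℤ) + 1 - (1 - q - j)) j (by omega)]
    exact h5
  · intro t ht1 ht2
    show ¬ H.Adj (c ((k : ℤ) + 1 - ((k : ℤ) + 1 - i))) (c ((k : ℤ) + 1 - t))
    rw [hi, hper ((k : ℤ) + 1 - t) (1 - q - t) (by omega)]
    exact h9 (1 - q - t) (by omega) (by omega)

/-- A chord `c i c j` with `1 ≤ i ≤ k`, `-q < j ≤ 0` (not one of the two edges of the cycle).
`kchord_SP` with `Q = []` for a suitable neighbour of `c i` in `P`, or for the mirror image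
(`Ctx.mirror`: `c' s = c (k + 1 - s)`, `c i = c' (k + 1 - i)`, `c j = c' (1 - q - j)`).
`hAQ`: by `hss` a member `c t` of `A` with `i < t` adjacent to `c i` is `c (i + 1)`.
If `j` is the only index in `-q < t ≤ 0` with `H.Adj (c i) (c t)`: if `q + j ≤ 4` use `kchord_SP`
for `(i, j)`; otherwise `j ≥ -1` and the mirror image has `q + j' = 1 - j ≤ 2`.
If there are two such indices `j₁ < j₂`, then `j₂ - j₁ ≥ 3` (`Ctx.ldP`), so `q + j₁ ≤ 3` and
`1 - j₂ ≤ 3`.  If not (`i = k` and `j₁ = 1 - q`), use `(i, j₁)`; otherwise `i = k`, `j₁ = 1 - q`, and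
then not (`i = 1` and `j₂ = 0`) (otherwise `j` would be a third neighbour), use the mirror image
of `(i, j₂)`.
The conditions `2 ≤ i - j`, `i - j + 2 ≤ m` say that the edge is a chord. -/
theorem cl_chSP (h : Ctx F τ H S P A m c K q k n)
    (hss : ∀ i j : ℤ, 1 ≤ i → i + 2 ≤ j → j ≤ k → ¬ H.Adj (c i) (c j))
    (hx : ∃ i j : ℤ, 1 ≤ i ∧ i ≤ k ∧ -(q : ℤ) < j ∧ j ≤ 0 ∧ H.Adj (c i) (c j) ∧
      2 ≤ i - j ∧ i - j + 2 ≤ m) : Cl H S P A := by
  obtain ⟨i, j, h1, h2, h3, h4, h5, h6, h7⟩ := hx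
  have hm' : (m : ℤ) = q + k := by rw [h.hm]; push_cast; ring
  have hq6 := h.q6
  have hiS := (h.cS h1 h2).1
  by_cases hone : ∀ t : ℤ, -(q : ℤ) < t → t ≤ 0 → H.Adj (c i) (c t) → t = j
  · by_cases hqj : (q : ℤ) + j ≤ 4
    · refine ChD2_core h hss h1 h2 h3 h4 h5 h6 h7 hqj ?_
      intro t ht1 ht2 hadj
      have := hone t ht1 (by omega) hadj
      omega
    · refine ChD2_mirror h hss h1 h2 h3 h4 h5 h6 h7 (by omega) ?_
      intro t ht1 ht2 hadj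
      have := hone t (by omega) ht2 hadj
      omega
  · push Not at hone
    obtain ⟨t, ht1, ht2, ht3, ht4⟩ := hone
    obtain ⟨j₁, j₂, hj1, hj2, hj3, hj4, hj5, hj6⟩ : ∃ j₁ j₂ : ℤ, -(q : ℤ) < j₁ ∧ j₁ < j₂ ∧
        j₂ ≤ 0 ∧ H.Adj (c i) (c j₁) ∧ H.Adj (c i) (c j₂) ∧ (j = j₁ ∨ j = j₂) := by
      rcases lt_or_gt_of_ne ht4 with hlt | hlt
      · exact ⟨t, j, ht1, hlt, h4, ht3, h5, Or.inr rfl⟩
      · exact ⟨j, t, h3, hlt, ht2, h5, ht3, Or.inl rfl⟩
    obtain ⟨hj7, hj8⟩ := h.ldP hiS hj1 hj2 hj3 hj4 hj5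
    by_cases hend : i - j₁ + 2 ≤ m
    · refine ChD2_core h hss h1 h2 hj1 (by omega) hj4 (by omega) hend (by omega) ?_
      intro s hs1 hs2 hadj
      rcases hj8 s hs1 (by omega) hadj with h0 | h0 <;> omega
    · refine ChD2_mirror h hss h1 h2 (by omega) hj3 hj5 ?_ (by omega) (by omega) ?_
      · rcases hj6 with h0 | h0
        · rw [h0] at h7
          exact absurd h7 hend
        · rw [← h0]
          exact h6
      · intro s hs1 hs2 hadj
        rcases hj8 s (by omega) hs2 hadj with h0 | h0 <;> omega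

end Pool.Agent.Lib.MP_a33b01_co_G5
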