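import Pool.Agent.Lib.MP_a33b01_co_G5.ChA
import Pool.Agent.Lib.MP_a33b01_co_G5.ChB
import Pool.Agent.Lib.MP_a33b01_co_G5.ChC
import Pool.Agent.Lib.MP_a33b01_co_G5.ChD1
import Pool.Agent.Lib.MP_a33b01_co_G5.ChD2

set_option autoImplicit false

/-!
# MP_a33b01_co, project G5: chords
-/

namespace Pool.Agent.Lib.MP_a33b01_co_G5

open Classical
open Pool.Agent.Lib.MP_a33b01_co (Sph sk cn supp EvenG Removes Wg)

variable {V : Type} {F K : Finset (Finset V)} {τ : Finset V} {H : SimpleGraph V}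
  {S P A : Finset V} {m q k n : ℕ} {c : ℤ → V}

/-- No chords: `cl_chSS`, `cl_chSP`, `kchord_PP` with `Q = []`; every pair of vertices of the cycle
can be written with indices in `-q < i ≤ k` (`Ctx.cidx`, `Ctx.inj`, `cy_eq`). -/
theorem noch_or (h : Ctx F τ H S P A m c K q k n) : Cl H S P A ∨ NoCh H m c := by
  by_cases hss : ∀ i j : ℤ, 1 ≤ i → i + 2 ≤ j → j ≤ k → ¬ H.Adj (c i) (c j)
  swap
  · push Not at hss
    obtain ⟨i, j, h1, h2, h3, h4⟩ := hss
    exact Or.inl (cl_chSS h ⟨i, j, h1, h2, h3, h4⟩)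
  by_cases hcl : Cl H S P A
  · exact Or.inl hcl
  right
  have hcy := h.bd.cy
  have hm : (m : ℤ) = q + k := by
    have := h.hm
    omega
  have key : ∀ i j : ℤ, -(q : ℤ) < i → i < j → j ≤ k → H.Adj (c i) (c j) → 2 ≤ j - i →
      j - i + 2 ≤ m → False := by
    intro i j h1 h2 h3 h4 h5 h6
    apply hcl
    by_cases hi : 1 ≤ i
    · exact cl_chSS h ⟨i, j, hi, by omega, h3, h4⟩
    · by_cases hj : 1 ≤ j
      · exact cl_chSP h hss ⟨j, i, hj, h3, h1, by omega, h4.symm, h5, h6⟩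
      · refine kchord_PP h h1 (j := j) (by omega) (by omega) h6 (Q := []) (by simp) ?_
          (by simp) (by simp)
        simpa using h4
  intro i j hij
  by_contra hcon
  push Not at hcon
  obtain ⟨hn1, hn2⟩ := hcon
  obtain ⟨i', h1, h2, h3⟩ := h.cidx ⟨i, rfl⟩
  obtain ⟨j', h4, h5, h6⟩ := h.cidx ⟨j, rfl⟩
  obtain ⟨a, ha⟩ := hcy.inj _ _ h3
  obtain ⟨b, hb⟩ := hcy.inj _ _ h6
  have hne : i' ≠ j' := by
    intro he
    rw [← h3, ← h6, he] at hij
    exact H.loopless.irrefl _ hij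
  have e1 : ¬ (m : ℤ) ∣ j' - i' - 1 := by
    rintro ⟨r, hr⟩
    exact hn1 ⟨r - b + a, by linear_combination hr - hb + ha⟩
  have e2 : ¬ (m : ℤ) ∣ i' - j' - 1 := by
    rintro ⟨r, hr⟩
    exact hn2 ⟨r - a + b, by linear_combination hr - ha + hb⟩
  rw [← h3, ← h6] at hij
  rcases lt_or_gt_of_ne hne with h7 | h7
  · refine key i' j' h1 h7 h5 hij ?_ ?_
    · by_contra h8
      exact e1 ⟨0, by omega⟩
    · by_contra h8
      exact e2 ⟨-1, by omega⟩
  · refine key j' i' h4 h7 h2 hij.symm ?_ ?_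
    · by_contra h8
      exact e2 ⟨0, by omega⟩
    · by_contra h8
      exact e1 ⟨-1, by omega⟩

end Pool.Agent.Lib.MP_a33b01_co_G5
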