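import Pool.Agent.Lib.MP_a33b01_co_G5.Defs

set_option autoImplicit false

/-!
# MP_a33b01_co, project G5: cycles and ears in graphs
-/

namespace Pool.Agent.Lib.MP_a33b01_co_G5

open Classical

variable {V : Type} {H : SimpleGraph V}

/-- a walk which never turns back, in a graph with all degrees at least two -/
private theorem TpI1_walk (W : Finset V) (hW : ∀ x y, H.Adj x y → x ∈ W) (hne : W.Nonempty)
    (hd : ∀ v ∈ W, ∃ a b, a ≠ b ∧ H.Adj v a ∧ H.Adj v b) :
    ∃ x : ℕ → V, (∀ n, x n ∈ W) ∧ (∀ n, H.Adj (x n) (x (n + 1))) ∧ ∀ n, x (n + 2) ≠ x n := by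
  obtain ⟨v₀, hv₀⟩ := hne
  have h1 : ∀ v u, ∃ w, v ∈ W → H.Adj v w ∧ w ≠ u := by
    intro v u
    by_cases hv : v ∈ W
    · obtain ⟨a, b, hab, ha, hb⟩ := hd v hv
      by_cases hau : a = u
      · exact ⟨b, fun _ => ⟨hb, fun h => hab (hau.trans h.symm)⟩⟩
      · exact ⟨a, fun _ => ⟨ha, hau⟩⟩
    · exact ⟨v, fun h => absurd h hv⟩
  choose nx hnx using h1
  let s : ℕ → V × V := fun n => Nat.rec (v₀, v₀) (fun _ p => (p.2, nx p.2 p.1)) n
  have hs : ∀ n, s (n + 1) = ((s n).2, nx (s n).2 (s n).1) := fun n => rfl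
  have hmem : ∀ n, (s n).2 ∈ W := by
    intro n
    induction n with
    | zero => exact hv₀
    | succ n ih =>
      rw [hs]
      exact hW _ _ (hnx _ (s n).1 ih).1.symm
  refine ⟨fun n => (s n).2, hmem, fun n => ?_, fun n => ?_⟩
  · change H.Adj (s n).2 (s (n + 1)).2
    rw [hs]
    exact (hnx _ _ (hmem n)).1
  · change (s (n + 1 + 1)).2 ≠ (s n).2
    rw [hs (n + 1)]
    have h2 := (hnx (s (n + 1)).2 (s (n + 1)).1 (hmem (n + 1))).2
    have h3 : (s (n + 1)).1 = (s n).2 := by rw [hs]
    rw [← h3]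
    exact h2

/-- A finite graph in which all vertices (of the nonempty set `W`) have degree at least two
contains a cycle (the last vertex of a longest path has two neighbours, both on the path). -/
theorem exists_cy (W : Finset V) (hW : ∀ x y, H.Adj x y → x ∈ W) (hne : W.Nonempty)
    (hd : ∀ v ∈ W, ∃ a b, a ≠ b ∧ H.Adj v a ∧ H.Adj v b) : ∃ m c, Cy H m c := by
  obtain ⟨x, hxW, hadj, hnb⟩ := TpI1_walk W hW hne hd
  have hex : ∃ m : ℕ, 0 < m ∧ ∃ i, x i = x (i + m) := by
    obtain ⟨i, j, hij, h⟩ := Finite.exists_ne_map_eq_of_infinite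
      (fun n : ℕ => (⟨x n, hxW n⟩ : {v // v ∈ W}))
    have h' : x i = x j := congrArg Subtype.val h
    rcases lt_or_gt_of_ne hij with hlt | hlt
    · refine ⟨j - i, by omega, i, ?_⟩
      rw [show i + (j - i) = j by omega]
      exact h'
    · refine ⟨i - j, by omega, j, ?_⟩
      rw [show j + (i - j) = i by omega]
      exact h'.symm
  obtain ⟨m, ⟨hm0, i, hi⟩, hmin⟩ : ∃ m : ℕ, (0 < m ∧ ∃ i, x i = x (i + m)) ∧
      ∀ m' < m, ¬ (0 < m' ∧ ∃ i, x i = x (i + m')) :=
    ⟨Nat.find hex, Nat.find_spec hex, fun m' h => Nat.find_min hex h⟩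
  have h3 : 3 ≤ m := by
    by_contra hlt
    have h12 : m = 1 ∨ m = 2 := by omega
    rcases h12 with rfl | rfl
    · exact (hadj i).ne hi
    · exact hnb i hi.symm
  have hmz : (0 : ℤ) < m := by omega
  have hmod : ∀ t : ℤ, 0 ≤ t % m ∧ t % m < m := fun t =>
    ⟨Int.emod_nonneg t hmz.ne', Int.emod_lt_of_pos t hmz⟩
  refine ⟨m, fun t : ℤ => x (i + (t % m).toNat), h3, fun t => ?_, fun s t h => ?_, fun t => ?_⟩
  · change x (i + ((t + m) % m).toNat) = x (i + (t % m).toNat)
    rw [Int.add_emod_right]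
  · change x (i + (s % m).toNat) = x (i + (t % m).toNat) at h
    obtain ⟨hs1, hs2⟩ := hmod s
    obtain ⟨ht1, ht2⟩ := hmod t
    have heq : (s % m).toNat = (t % m).toNat := by
      by_contra hne'
      rcases lt_or_gt_of_ne hne' with hlt | hlt
      · refine hmin ((t % m).toNat - (s % m).toNat) (by omega)
          ⟨by omega, i + (s % m).toNat, ?_⟩
        rw [show i + (s % m).toNat + ((t % m).toNat - (s % m).toNat) = i + (t % m).toNat by omega]
        exact h
      · refine hmin ((s % m).toNat - (t % m).toNat) (by omega)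
          ⟨by omega, i + (t % m).toNat, ?_⟩
        rw [show i + (t % m).toNat + ((s % m).toNat - (t % m).toNat) = i + (s % m).toNat by omega]
        exact h.symm
    have heq' : s % m = t % m := by omega
    exact Int.dvd_of_emod_eq_zero (Int.emod_eq_emod_iff_emod_sub_eq_zero.1 heq')
  · change H.Adj (x (i + (t % m).toNat)) (x (i + ((t + 1) % m).toNat))
    obtain ⟨ht1, ht2⟩ := hmod t
    have h4 : (t + 1) % m = (t % m + 1) % m := by
      rw [Int.emod_add_emod]
    by_cases hlt : t % m + 1 < m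
    · have h5 : (t + 1) % m = t % m + 1 := by
        rw [h4]
        exact Int.emod_eq_of_lt (by omega) hlt
      rw [h5, show (t % m + 1).toNat = (t % m).toNat + 1 by omega, ← add_assoc]
      exact hadj _
    · have h6 : t % m + 1 = m := by omega
      have h5 : (t + 1) % m = 0 := by
        rw [h4, h6, Int.emod_self]
      have h7 := hadj (i + (t % m).toNat)
      rw [show i + (t % m).toNat + 1 = i + m by omega, ← hi] at h7
      rw [h5]
      exact h7

/-- No separation of order at most one: all degrees are at least two (otherwise `{v} ∪ N(v)` and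
`W \ {v}` are a separation). -/
theorem ns_deg {W : Finset V} (hW : ∀ x y, H.Adj x y → x ∈ W) (h3 : 3 ≤ W.card)
    (hns : NS H W) : ∀ v ∈ W, ∃ a b, a ≠ b ∧ H.Adj v a ∧ H.Adj v b := by
  intro v hv
  by_contra hcon
  have hone : ∀ a b, H.Adj v a → H.Adj v b → a = b := by
    intro a b ha hb
    by_contra hab
    exact hcon ⟨a, b, hab, ha, hb⟩
  have hN : (W.filter fun u => H.Adj v u).card ≤ 1 := by
    rw [Finset.card_le_one]
    intro a ha b hb
    exact hone a b (Finset.mem_filter.1 ha).2 (Finset.mem_filter.1 hb).2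
  have h := hns (insert v (W.filter fun u => H.Adj v u)) (W.erase v) ?_ ?_ ?_ ?_
  · rcases h with h | h
    · have h4 := Finset.card_insert_le v (W.filter fun u => H.Adj v u)
      rw [h] at h4
      omega
    · have h4 : v ∈ W.erase v := h.symm ▸ hv
      exact Finset.notMem_erase v W h4
  · ext u
    rw [Finset.mem_union, Finset.mem_insert, Finset.mem_filter, Finset.mem_erase]
    constructor
    · rintro ((rfl | h) | h)
      · exact hv
      · exact h.1
      · exact h.2
    · intro hu
      by_cases huv : u = v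
      · exact Or.inl (Or.inl huv)
      · exact Or.inr ⟨huv, hu⟩
  · refine (Finset.card_le_card fun u hu => ?_).trans hN
    rw [Finset.mem_inter, Finset.mem_insert, Finset.mem_erase] at hu
    exact hu.1.resolve_left hu.2.1
  · intro x hx hx' y hxy
    rw [Finset.mem_insert, Finset.mem_filter] at hx
    have hxv : x = v := by
      rcases hx with h | h
      · exact h
      · by_contra hne
        exact hx' (Finset.mem_erase.2 ⟨hne, h.1⟩)
    subst hxv
    exact Finset.mem_insert_of_mem (Finset.mem_filter.2 ⟨hW _ _ hxy.symm, hxy⟩)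
  · intro x hx hx' y hxy
    rw [Finset.mem_erase] at hx
    refine Finset.mem_erase.2 ⟨?_, hW _ _ hxy.symm⟩
    rintro rfl
    exact hx' (Finset.mem_insert_of_mem (Finset.mem_filter.2 ⟨hx.2, hxy.symm⟩))

end Pool.Agent.Lib.MP_a33b01_co_G5
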