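import Pool.Agent.Lib.MP_a33b01_co_G5.Defs
import Pool.Agent.Lib.MP_a33b01_co_G5.TpI1

set_option autoImplicit false

/-!
# MP_a33b01_co, project G5: cycles and ears in graphs
-/

namespace Pool.Agent.Lib.MP_a33b01_co_G5

open Classical

variable {V : Type} {H : SimpleGraph V}

/-- Two vertices `a`, `b` with neighbours in a connected set `D` (with `a, b ∉ D`) are joined by a
path with all its inner vertices in `D`.  Connectedness of `D`: every nonempty subset of `D` which
is closed under `H`-neighbours in `D` is `D`. -/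
theorem exists_path (D : Finset V)
    (hD : ∀ X ⊆ D, X.Nonempty → (∀ x ∈ X, ∀ y ∈ D, H.Adj x y → y ∈ X) → X = D) {a b : V}
    {x y : V} (hx : x ∈ D) (hy : y ∈ D) (hax : H.Adj a x) (hyb : H.Adj y b) :
    ∃ Q : List V, Q ≠ [] ∧ Q.Nodup ∧ (∀ v ∈ Q, v ∈ D) ∧ (a :: Q ++ [b]).IsChain H.Adj := by
  have key := hD (D.filter fun v => ∃ Q : List V, (Q ++ [v]).Nodup ∧ (∀ w ∈ Q ++ [v], w ∈ D) ∧
    (a :: (Q ++ [v])).IsChain H.Adj) (Finset.filter_subset _ _)
    ⟨x, Finset.mem_filter.2 ⟨hx, [], by simp, by simpa using hx, by simpa using hax⟩⟩ (by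
      intro v hv w hw hvw
      obtain ⟨_, Q, hnd, hQ, hch⟩ := Finset.mem_filter.1 hv
      refine Finset.mem_filter.2 ⟨hw, ?_⟩
      by_cases hwQ : w ∈ Q ++ [v]
      · obtain ⟨l₁, l₂, hl⟩ := List.append_of_mem hwQ
        have e1 : Q ++ [v] = (l₁ ++ [w]) ++ l₂ := by rw [hl]; simp
        rw [e1] at hnd hQ hch
        refine ⟨l₁, (List.nodup_append.1 hnd).1, fun u hu => hQ u (List.mem_append_left _ hu), ?_⟩
        rw [← List.cons_append] at hch
        exact (List.isChain_append.1 hch).1
      · refine ⟨Q ++ [v], ?_, ?_, ?_⟩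
        · rw [List.nodup_append]
          refine ⟨hnd, List.nodup_singleton _, fun u hu t ht => ?_⟩
          rw [List.mem_singleton] at ht
          subst ht
          rintro rfl
          exact hwQ hu
        · intro u hu
          rcases List.mem_append.1 hu with h | h
          · exact hQ u h
          · rw [List.mem_singleton] at h
            rw [h]
            exact hw
        · rw [← List.cons_append, List.isChain_append]
          refine ⟨hch, List.isChain_singleton _, fun p hp r hr => ?_⟩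
          have e2 : (a :: (Q ++ [v])).getLast? = some v := by
            rw [← List.cons_append, List.getLast?_concat]
          rw [e2] at hp
          simp only [Option.mem_def, Option.some.injEq, List.head?_cons] at hp hr
          subst hp hr
          exact hvw)
  rw [← key] at hy
  obtain ⟨_, Q, hnd, hQ, hch⟩ := Finset.mem_filter.1 hy
  refine ⟨Q ++ [y], by simp, hnd, hQ, ?_⟩
  rw [List.isChain_append]
  refine ⟨hch, List.isChain_singleton _, fun p hp r hr => ?_⟩
  have e2 : (a :: (Q ++ [y])).getLast? = some y := by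
    rw [← List.cons_append, List.getLast?_concat]
  rw [e2] at hp
  simp only [Option.mem_def, Option.some.injEq, List.head?_cons] at hp hr
  subst hp hr
  exact hyb

/-- The component of `x` in `H` restricted to the complement of `U` (inside the finite set `W`). -/
theorem exists_comp (W U : Finset V) {x : V} (hxW : x ∈ W) (hxU : x ∉ U) :
    ∃ D ⊆ W \ U, x ∈ D ∧ (∀ v ∈ D, ∀ y ∈ W, H.Adj v y → y ∉ U → y ∈ D) ∧
      ∀ X ⊆ D, X.Nonempty → (∀ v ∈ X, ∀ y ∈ D, H.Adj v y → y ∈ X) → X = D := by
  set R : V → V → Prop := fun p r => H.Adj p r ∧ r ∈ W ∧ r ∉ U with hR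
  set D := (W \ U).filter fun v => Relation.ReflTransGen R x v with hDd
  have hcl : ∀ v ∈ D, ∀ y ∈ W, H.Adj v y → y ∉ U → y ∈ D := by
    intro v hv y hy hvy hyU
    exact Finset.mem_filter.2 ⟨Finset.mem_sdiff.2 ⟨hy, hyU⟩,
      (Finset.mem_filter.1 hv).2.tail ⟨hvy, hy, hyU⟩⟩
  have hxD : x ∈ D := Finset.mem_filter.2 ⟨Finset.mem_sdiff.2 ⟨hxW, hxU⟩,
    Relation.ReflTransGen.refl⟩
  refine ⟨D, Finset.filter_subset _ _, hxD, hcl, ?_⟩
  rintro X hX ⟨v₀, hv₀⟩ hXc
  have hx : x ∈ X := by
    have h1 : ∀ p, Relation.ReflTransGen R p v₀ → p ∈ D → p ∈ X := by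
      intro p hp
      induction hp using Relation.ReflTransGen.head_induction_on with
      | refl => exact fun _ => hv₀
      | head h' _ ih =>
        intro hpD
        exact hXc _ (ih (hcl _ hpD _ h'.2.1 h'.1 h'.2.2)) _ hpD h'.1.symm
    exact h1 x (Finset.mem_filter.1 (hX hv₀)).2 hxD
  refine Finset.Subset.antisymm hX fun w hw => ?_
  have h2 : ∀ p, Relation.ReflTransGen R x p → p ∈ X := by
    intro p hp
    induction hp with
    | refl => exact hx
    | tail _ h' ih => exact hXc _ ih _ (hcl _ (hX ih) _ h'.2.1 h'.1 h'.2.2) h'.1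
  exact h2 w (Finset.mem_filter.1 hw).2

end Pool.Agent.Lib.MP_a33b01_co_G5
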