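import Pool.Agent.Lib.MP_a33b01_co_G5.StB
import Pool.Agent.Lib.MP_a33b01_co_G5.TpD
import Pool.Agent.Lib.MP_a33b01_co_G5.TpE
import Pool.Agent.Lib.MP_a33b01_co_G5.TpI

set_option autoImplicit false

/-!
# MP_a33b01_co, project G5: the 2-connected situation
-/

namespace Pool.Agent.Lib.MP_a33b01_co_G5

open Classical
open Pool.Agent.Lib.MP_a33b01_co (Sph sk cn supp EvenG Removes Wg)

variable {V : Type} {F K : Finset (Finset V)} {τ : Finset V} {H : SimpleGraph V}
  {S P A : Finset V} {m q k n : ℕ} {c : ℤ → V}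

/-- A connected subset of a cycle is an arc: induction on the number of the vertices of an arc
`{c a, …, c (a + j - 1)} ⊆ P`: if it is not `P` then `CN` gives a vertex of `P` outside of it which
is adjacent (on the cycle) to a vertex of the arc, hence it is `c (a - 1)` or `c (a + j)`. -/
theorem cn_arc (hc : Cy H m c) {P : Finset V} (hP : P.Nonempty) (hPc : ∀ p ∈ P, ∃ i, c i = p)
    (hcn : CN (CE c) P) : ∃ a : ℤ, P.card ≤ m ∧
      ∀ v, v ∈ P ↔ ∃ i : ℤ, a - P.card < i ∧ i ≤ a ∧ c i = v := by
  have hm3 := hc.three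
  have hpos : 1 ≤ P.card := hP.card_pos
  have key : ∀ j : ℕ, 1 ≤ j → j ≤ P.card → j ≤ m ∧ ∃ a : ℤ, ∀ i : ℤ, a - j < i → i ≤ a →
      c i ∈ P := by
    intro j hj
    induction j, hj using Nat.le_induction with
    | base =>
      intro _
      obtain ⟨p, hp⟩ := hP
      obtain ⟨a, rfl⟩ := hPc p hp
      refine ⟨by omega, a, fun i h1 h2 => ?_⟩
      have h3 : i = a := by
        push_cast at h1
        omega
      rw [h3]
      exact hp
    | succ j hj ih =>
      intro hle
      obtain ⟨hjm, a, ha⟩ := ih (by omega)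
      set J : Finset V := (Finset.Ioc (a - j) a).image c with hJ
      have hJP : J ⊆ P := by
        intro v hv
        rw [hJ, Finset.mem_image] at hv
        obtain ⟨i, hi, rfl⟩ := hv
        rw [Finset.mem_Ioc] at hi
        exact ha i hi.1 hi.2
      have hJc : J.card ≤ j := by
        refine le_trans Finset.card_image_le ?_
        rw [Int.card_Ioc]
        omega
      have hJne : J ≠ P := by
        intro h
        rw [h] at hJc
        omega
      have hJn : J.Nonempty := ⟨c a, by
        rw [hJ, Finset.mem_image]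
        exact ⟨a, Finset.mem_Ioc.2 ⟨by omega, le_refl _⟩, rfl⟩⟩
      obtain ⟨x, hx, b, hb, hbJ, hxb⟩ := hcn J hJP hJn hJne
      rw [hJ, Finset.mem_image] at hx
      obtain ⟨i, hi, rfl⟩ := hx
      rw [Finset.mem_Ioc] at hi
      have hbn : ∀ t : ℤ, a - j < t → t ≤ a → b ≠ c t := by
        intro t h1 h2 h3
        apply hbJ
        rw [hJ, Finset.mem_image]
        exact ⟨t, Finset.mem_Ioc.2 ⟨h1, h2⟩, h3.symm⟩
      have hjm' : j + 1 ≤ m := by
        by_contra hcon
        have hjm2 : j = m := by omega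
        obtain ⟨t, ht⟩ := hPc b hb
        have h1 := Int.emod_nonneg (a - t) (b := (m : ℤ)) (by omega)
        have h2 := Int.emod_lt_of_pos (a - t) (b := (m : ℤ)) (by omega)
        refine hbn (a - (a - t) % (m : ℤ)) (by omega) (by omega) ?_
        rw [← ht, cy_eq hc]
        have h3 : t - (a - (a - t) % (m : ℤ)) = -((a - t) - (a - t) % (m : ℤ)) := by ring
        rw [h3, dvd_neg]
        exact Int.dvd_self_sub_emod
      refine ⟨hjm', ?_⟩
      rcases (ce_iff hc i b).1 hxb with h1 | h1
      · have h2 : i = a := by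
          by_contra hne
          exact hbn (i + 1) (by omega) (by omega) h1
        refine ⟨a + 1, fun t h3 h4 => ?_⟩
        rcases eq_or_lt_of_le h4 with h5 | h5
        · rw [h5, ← h2, ← h1]
          exact hb
        · push_cast at h3
          exact ha t (by omega) (by omega)
      · have h2 : i = a - j + 1 := by
          by_contra hne
          exact hbn (i - 1) (by omega) (by omega) h1
        refine ⟨a, fun t h3 h4 => ?_⟩
        push_cast at h3
        by_cases h5 : t = a - j
        · have h6 : t = i - 1 := by omega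
          rw [h6, ← h1]
          exact hb
        · exact ha t (by omega) h4
  obtain ⟨hm, a, ha⟩ := key P.card hpos (le_refl _)
  refine ⟨a, hm, ?_⟩
  set J : Finset V := (Finset.Ioc (a - P.card) a).image c with hJ
  have hJP : J ⊆ P := by
    intro v hv
    rw [hJ, Finset.mem_image] at hv
    obtain ⟨i, hi, rfl⟩ := hv
    rw [Finset.mem_Ioc] at hi
    exact ha i hi.1 hi.2
  have hJc : P.card ≤ J.card := by
    rw [hJ, Finset.card_image_of_injOn]
    · rw [Int.card_Ioc]
      omega
    · intro x hx y hy hxy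
      rw [Finset.mem_coe, Finset.mem_Ioc] at hx hy
      have h1 := hc.inj _ _ hxy
      have h2 : x - y = 0 := by
        apply Int.eq_zero_of_abs_lt_dvd h1
        rw [abs_lt]
        constructor <;> omega
      omega
  have hJe : J = P := Finset.eq_of_subset_of_card_le hJP hJc
  intro v
  constructor
  · intro hv
    rw [← hJe, hJ, Finset.mem_image] at hv
    obtain ⟨i, hi, hi'⟩ := hv
    rw [Finset.mem_Ioc] at hi
    exact ⟨i, hi.1, hi.2, hi'⟩
  · rintro ⟨i, h1, h2, rfl⟩
    exact ha i h1 h2

/-- `c` is the outer cycle; by `bd_out`, `bd_outE` and `cn_arc` the set `P` is an arc, shift the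
cycle (`bd_shift`).  (`P` and `A` are on the outer region; all vertices have edges by `ns_deg`.) -/
theorem exists_ctx (ih : IH F τ n) (st : St F τ H S P A) (hn : mu S P = n) (hP : P.Nonempty)
    (nf : ∀ v ∈ S, 3 ≤ ((S ∪ P).filter fun u => H.Adj v u).card + if v ∈ A then 1 else 0)
    (h3 : 3 ≤ (S ∪ P).card) (hns : NS H (S ∪ P)) (hB : Bd F τ H m c K) :
    ∃ c' q k, Ctx F τ H S P A m c' K q k n := by
  have hF := st.gd.sph
  have hle := st.gd.le
  have hdeg := ns_deg st.sup h3 hns
  have hPc : ∀ p ∈ P, ∃ i, c i = p := by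
    intro p hp
    obtain ⟨a, -, -, ha, -⟩ := hdeg p (Finset.mem_union_right _ hp)
    exact (bd_out hF hle st.tF hB ⟨a, ha⟩).1 (st.outP p hp)
  have hcn : CN (CE c) P :=
    cn_mono (fun x _ y _ h => (bd_outE hF hle st.tF hB).1 h) st.con
  obtain ⟨a, hm, ha⟩ := cn_arc hB.cy hP hPc hcn
  have hpos : 1 ≤ P.card := hP.card_pos
  refine ⟨fun i => c (a + i), P.card, m - P.card, ⟨st, ih, hn, bd_shift hB a, by omega, hpos,
    ?_, nf⟩⟩
  intro v
  rw [ha v]
  constructor
  · rintro ⟨i, h1, h2, h4⟩
    refine ⟨i - a, by omega, by omega, ?_⟩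
    show c (a + (i - a)) = v
    rw [add_sub_cancel]
    exact h4
  · rintro ⟨i, h1, h2, h4⟩
    exact ⟨a + i, by omega, by omega, h4⟩

end Pool.Agent.Lib.MP_a33b01_co_G5
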