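import Pool.Agent.Lib.MP_a33b01_co_G5.StB
import Pool.Agent.Lib.MP_a33b01_co_G5.TpD
import Pool.Agent.Lib.MP_a33b01_co_G5.TpE
import Pool.Agent.Lib.MP_a33b01_co_G5.TpI
import Pool.Agent.Lib.MP_a33b01_co_G5.CxA1

set_option autoImplicit false

/-!
# MP_a33b01_co, project G5: the 2-connected situation
-/

namespace Pool.Agent.Lib.MP_a33b01_co_G5

open Classical
open Pool.Agent.Lib.MP_a33b01_co (Sph sk cn supp EvenG Removes Wg)

variable {V : Type} {F K : Finset (Finset V)} {τ : Finset V} {H : SimpleGraph V}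
  {S P A : Finset V} {m q k n : ℕ} {c : ℤ → V}

private theorem CxA2_per (hc : Cy H m c) (i t : ℤ) : c (i + t * m) = c i := by
  induction t using Int.induction_on with
  | zero => simp
  | succ t ih =>
    have e1 : i + ((t : ℤ) + 1) * m = i + t * m + m := by ring
    rw [e1, hc.per, ih]
  | pred t ih =>
    have e1 : i + -(t : ℤ) * m = i + (-(t : ℤ) - 1) * m + m := by ring
    rw [e1, hc.per] at ih
    exact ih

private theorem CxA2_inj (h : Ctx F τ H S P A m c K q k n) {i j : ℤ} (h1 : -(q : ℤ) < i)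
    (h2 : i ≤ k) (h3 : -(q : ℤ) < j) (h4 : j ≤ k) (he : c i = c j) : i = j := by
  obtain ⟨t, ht⟩ := h.bd.cy.inj i j he
  have hm := h.hm
  have hm' : (m : ℤ) = q + k := by rw [hm]; push_cast; ring
  have hm0 : (0 : ℤ) < m := by
    have := h.bd.cy.three
    omega
  have t1 : t < 1 := by
    by_contra h0
    have : (m : ℤ) * 1 ≤ m * t := mul_le_mul_of_nonneg_left (by omega) hm0.le
    omega
  have t2 : -1 < t := by
    by_contra h0
    have : (m : ℤ) * t ≤ m * (-1) := mul_le_mul_of_nonneg_left (by omega) hm0.le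
    omega
  have t3 : t = 0 := by omega
  rw [t3, mul_zero] at ht
  omega

section

variable (h : Ctx F τ H S P A m c K q k n)
include h

theorem Ctx.Pcard : P.card = q := by
  have e1 : P = (Finset.Ioc (-(q : ℤ)) 0).image c := by
    ext v
    rw [h.hP, Finset.mem_image]
    constructor
    · rintro ⟨i, h1, h2, h3⟩
      exact ⟨i, Finset.mem_Ioc.2 ⟨h1, h2⟩, h3⟩
    · rintro ⟨i, h1, h3⟩
      obtain ⟨h1, h2⟩ := Finset.mem_Ioc.1 h1
      exact ⟨i, h1, h2, h3⟩
  rw [e1, Finset.card_image_of_injOn]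
  · simp
  · intro i hi j hj he
    rw [Finset.mem_coe, Finset.mem_Ioc] at hi hj
    exact CxA2_inj h hi.1 (by omega) hj.1 (by omega) he

theorem Ctx.q6 : q ≤ 6 := by
  have h1 := h.Pcard
  have h2 := h.st.six
  omega

/-- `c i ∈ P` for `-q < i ≤ 0`, also for `k < i ≤ m` -/
theorem Ctx.cP {i : ℤ} (h1 : -(q : ℤ) < i) (h2 : i ≤ 0) : c i ∈ P ∧ c i ∉ S := by
  have h3 : c i ∈ P := (h.hP _).2 ⟨i, h1, h2, rfl⟩
  exact ⟨h3, fun h4 => Finset.disjoint_left.1 h.st.dj h4 h3⟩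

theorem Ctx.cS {i : ℤ} (h1 : 1 ≤ i) (h2 : i ≤ k) : c i ∈ S ∧ c i ∉ P := by
  have h3 : c i ∉ P := by
    intro h4
    obtain ⟨j, h5, h6, h7⟩ := (h.hP _).1 h4
    have h8 := CxA2_inj h h5 (by omega) (by omega) h2 h7
    omega
  refine ⟨?_, h3⟩
  rcases Finset.mem_union.1 (h.st.sup _ _ (h.bd.cy.adj i)) with h5 | h5
  · exact h5
  · exact absurd h5 h3

/-- every vertex of the cycle is `c i` for some `-q < i ≤ k` -/
theorem Ctx.cidx {v : V} (hv : ∃ i, c i = v) : ∃ i : ℤ, -(q : ℤ) < i ∧ i ≤ k ∧ c i = v := by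
  obtain ⟨i, hi⟩ := hv
  have hm := h.hm
  have hm' : (m : ℤ) = q + k := by rw [hm]; push_cast; ring
  have hm0 : (0 : ℤ) < m := by
    have := h.bd.cy.three
    omega
  have e1 := Int.emod_add_mul_ediv (i + q - 1) m
  have e2 := Int.emod_nonneg (i + q - 1) hm0.ne'
  have e3 := Int.emod_lt_of_pos (i + q - 1) hm0
  refine ⟨(i + q - 1) % m + 1 - q, by omega, by omega, ?_⟩
  rw [← hi, ← CxA2_per h.bd.cy _ ((i + q - 1) / m)]
  congr 1
  have e4 : (i + q - 1) / m * (m : ℤ) = m * ((i + q - 1) / m) := mul_comm _ _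
  rw [e4]
  omega

theorem Ctx.inj {i j : ℤ} (h1 : -(q : ℤ) < i) (h2 : i ≤ k) (h3 : -(q : ℤ) < j) (h4 : j ≤ k)
    (he : c i = c j) : i = j := CxA2_inj h h1 h2 h3 h4 he

end

end Pool.Agent.Lib.MP_a33b01_co_G5
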