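import Pool.Agent.Lib.MP_a33b01_co_G5.StB
import Pool.Agent.Lib.MP_a33b01_co_G5.TpD
import Pool.Agent.Lib.MP_a33b01_co_G5.TpE
import Pool.Agent.Lib.MP_a33b01_co_G5.TpI
import Pool.Agent.Lib.MP_a33b01_co_G5.CxA1
import Pool.Agent.Lib.MP_a33b01_co_G5.CxA2

set_option autoImplicit false

/-!
# MP_a33b01_co, project G5: the 2-connected situation
-/

namespace Pool.Agent.Lib.MP_a33b01_co_G5

open Classical
open Pool.Agent.Lib.MP_a33b01_co (Sph sk cn supp EvenG Removes Wg)

variable {V : Type} {F K : Finset (Finset V)} {τ : Finset V} {H : SimpleGraph V}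
  {S P A : Finset V} {m q k n : ℕ} {c : ℤ → V}

section

variable (h : Ctx F τ H S P A m c K q k n)
include h

/-- every vertex has a neighbour -/
private theorem CxA3_nbr {v : V} (hv : v ∈ S ∪ P) : ∃ y, H.Adj v y := by
  by_cases hS : v ∈ S
  · have h1 := h.nf v hS
    have h2 : 0 < ((S ∪ P).filter fun u => H.Adj v u).card := by
      split_ifs at h1 <;> omega
    obtain ⟨y, hy⟩ := Finset.card_pos.1 h2
    exact ⟨y, (Finset.mem_filter.1 hy).2⟩
  · have hP : v ∈ P := by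
      rcases Finset.mem_union.1 hv with h1 | h1
      · exact absurd h1 hS
      · exact h1
    obtain ⟨i, -, -, rfl⟩ := (h.hP v).1 hP
    exact ⟨_, h.bd.cy.adj i⟩

private theorem CxA3_per (i : ℤ) : c (i + ((q : ℤ) + k)) = c i := by
  have h1 := h.bd.cy.per i
  have h2 := h.hm
  rw [← h1, h2]
  push_cast
  rfl

/-- the members of `A` are on the cycle, and they are not neighbours of `P` -/
theorem Ctx.Aidx {a : V} (ha : a ∈ A) : ∃ i : ℤ, 2 ≤ i ∧ i ≤ (k : ℤ) - 1 ∧ c i = a := by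
  have hS : a ∈ S := h.st.AS ha
  have hn := CxA3_nbr h (Finset.mem_union_left P hS)
  obtain ⟨i, h1, h2, rfl⟩ := h.cidx
    ((bd_out h.st.gd.sph h.st.gd.le h.st.tF h.bd hn).1 (h.st.outA a ha))
  have hq := h.q1
  have h3 : 1 ≤ i := by
    by_contra hcon
    exact (h.cP h1 (by omega)).2 hS
  have h4 : i ≠ 1 := by
    rintro rfl
    have h5 := h.bd.cy.adj 0
    rw [zero_add] at h5
    exact h.st.AP _ ha _ (h.cP (i := 0) (by omega) le_rfl).1 h5.symm
  have h5 : i ≠ k := by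
    intro he
    have h6 := h.bd.cy.adj i
    have h7 : c (i + 1) = c (1 - q) := by
      rw [← CxA3_per h (1 - q)]
      congr 1
      omega
    rw [h7] at h6
    exact h.st.AP _ ha _ (h.cP (i := 1 - q) (by omega) (by omega)).1 h6
  exact ⟨i, by omega, by omega, rfl⟩

theorem Ctx.innS {v : V} (hv : inn c v) (hvW : v ∈ S ∪ P) : v ∈ S ∧ v ∉ A := by
  constructor
  · rcases Finset.mem_union.1 hvW with h1 | h1
    · exact h1
    · obtain ⟨i, -, -, h2⟩ := (h.hP v).1 h1
      exact absurd h2 (hv i)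
  · intro h1
    obtain ⟨i, -, -, h2⟩ := h.Aidx h1
    exact hv i h2

/-- two members of `A` are not consecutive -/
theorem Ctx.Aind {i : ℤ} (hi : c i ∈ A) : c (i + 1) ∉ A ∧ c (i - 1) ∉ A := by
  constructor
  · intro h1
    exact h.st.ind _ hi _ h1 (h.bd.cy.adj i)
  · intro h1
    have h2 := h.bd.cy.adj (i - 1)
    rw [sub_add_cancel] at h2
    exact h.st.ind _ h1 _ hi h2

/-- every vertex has a neighbour -/
theorem Ctx.nbr {v : V} (hv : v ∈ S ∪ P) : ∃ y, H.Adj v y := CxA3_nbr h hv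

/-- the mirror image -/
theorem Ctx.mirror : Ctx F τ H S P A m (fun i => c ((k : ℤ) + 1 - i)) K q k n := by
  refine ⟨h.st, h.ih, h.hn, bd_refl h.bd _, h.hm, h.q1, ?_, h.nf⟩
  intro v
  rw [h.hP v]
  constructor
  · rintro ⟨i, h1, h2, rfl⟩
    refine ⟨1 - q - i, by omega, by omega, ?_⟩
    show c ((k : ℤ) + 1 - (1 - q - i)) = c i
    rw [← CxA3_per h i]
    congr 1
    omega
  · rintro ⟨i, h1, h2, rfl⟩
    refine ⟨1 - q - i, by omega, by omega, ?_⟩
    show c (1 - q - i) = c ((k : ℤ) + 1 - i)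
    rw [← CxA3_per h (1 - q - i)]
    congr 1
    omega

end

end Pool.Agent.Lib.MP_a33b01_co_G5
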