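import Pool.Agent.Lib.MP_a33b01_co_G5.StB
import Pool.Agent.Lib.MP_a33b01_co_G5.TpD
import Pool.Agent.Lib.MP_a33b01_co_G5.TpE
import Pool.Agent.Lib.MP_a33b01_co_G5.TpI
import Pool.Agent.Lib.MP_a33b01_co_G5.CxA1
import Pool.Agent.Lib.MP_a33b01_co_G5.CxA2
import Pool.Agent.Lib.MP_a33b01_co_G5.CxA3

set_option autoImplicit false

/-!
# MP_a33b01_co, project G5: the 2-connected situation
-/

namespace Pool.Agent.Lib.MP_a33b01_co_G5

open Classical
open Pool.Agent.Lib.MP_a33b01_co (Sph sk cn supp EvenG Removes Wg)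

variable {V : Type} {F K : Finset (Finset V)} {τ : Finset V} {H : SimpleGraph V}
  {S P A : Finset V} {m q k n : ℕ} {c : ℤ → V}

section

variable (h : Ctx F τ H S P A m c K q k n)
include h

/-- the members of `P`, as a list -/
theorem Ctx.Plist : (arc c (1 - q) q).toFinset = P ∧ (arc c (1 - q) q).Nodup ∧
    (arc c (1 - q) q).length = q ∧ (arc c (1 - q) q).IsChain (OutE F τ H) := by
  have hm := h.hm
  refine ⟨?_, arc_nodup h.bd.cy _ (by omega), arc_length _ _, ?_⟩
  · ext v
    rw [List.mem_toFinset, mem_arc, h.hP v]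
    constructor
    · rintro ⟨i, h1, h2, h3⟩
      exact ⟨i, by omega, by omega, h3⟩
    · rintro ⟨i, h1, h2, h3⟩
      exact ⟨i, by omega, by omega, h3⟩
  · exact arc_chain fun i _ _ => (bd_outE h.st.gd.sph h.st.gd.le h.st.tF h.bd).2
      ⟨i, Or.inl ⟨rfl, rfl⟩⟩

/-- `st.ld` with indices: at most two neighbours in `P`, at distance at least three -/
theorem Ctx.ldP {u : V} (hu : u ∈ S) {i j : ℤ} (h1 : -(q : ℤ) < i) (h2 : i < j) (h3 : j ≤ 0)
    (h4 : H.Adj u (c i)) (h5 : H.Adj u (c j)) :
    i + 3 ≤ j ∧ ∀ t : ℤ, -(q : ℤ) < t → t ≤ 0 → H.Adj u (c t) → t = i ∨ t = j := by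
  have hcy := h.bd.cy
  constructor
  · by_contra hcon
    have h6 : j = i + 1 ∨ j = i + 2 := by omega
    rcases h6 with rfl | rfl
    · exact h.st.gd.tri _ _ _ h4 (hcy.adj i) h5
    · have h7 := hcy.adj (i + 1)
      have e : i + 1 + 1 = i + 2 := by ring
      rw [e] at h7
      rcases h.st.gd.quad _ _ _ _ h4 (hcy.adj i) h7 h5.symm with h8 | h8
      · rw [h8] at hu
        exact (h.cP (i := i + 1) (by omega) (by omega)).2 hu
      · have h9 := (cy_ne hcy (i + 1)).1
        rw [add_sub_cancel_right, e] at h9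
        exact h9 h8
  · intro t ht1 ht2 ht
    by_contra hcon
    push Not at hcon
    have hk : (0 : ℤ) ≤ k := by omega
    have h6 := h.st.ld u hu
    have h7 : ({c t, c i, c j} : Finset V) ⊆ P.filter fun p => H.Adj u p := by
      intro v hv
      simp only [Finset.mem_insert, Finset.mem_singleton] at hv
      rw [Finset.mem_filter]
      rcases hv with rfl | rfl | rfl
      · exact ⟨(h.cP ht1 ht2).1, ht⟩
      · exact ⟨(h.cP h1 (by omega)).1, h4⟩
      · exact ⟨(h.cP (by omega) h3).1, h5⟩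
    have h8 := Finset.card_le_card h7
    have n1 : c t ≠ c i := fun e => hcon.1 (h.inj ht1 (by omega) h1 (by omega) e)
    have n2 : c t ≠ c j := fun e => hcon.2 (h.inj ht1 (by omega) (by omega) (by omega) e)
    have n3 : c i ≠ c j := fun e => by
      have := h.inj h1 (by omega) (by omega) (by omega) e
      omega
    rw [Finset.card_insert_of_notMem (by simp [n1, n2]), Finset.card_pair n3] at h8
    omega

end

end Pool.Agent.Lib.MP_a33b01_co_G5
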