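import Pool.Agent.Lib.MP_a33b01_co_G5.ChA
import Pool.Agent.Lib.MP_a33b01_co_G5.ChB
import Pool.Agent.Lib.MP_a33b01_co_G5.ChC

set_option autoImplicit false

/-!
# MP_a33b01_co, project G5: paths of length two
-/

namespace Pool.Agent.Lib.MP_a33b01_co_G5

open Classical
open Pool.Agent.Lib.MP_a33b01_co (Sph sk cn supp EvenG Removes Wg)

variable {V : Type} {F K : Finset (Finset V)} {τ : Finset V} {H : SimpleGraph V}
  {S P A : Finset V} {m q k n : ℕ} {c : ℤ → V}

/-- consequences of `NoCh` with indices -/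
theorem noch_idx (h : Ctx F τ H S P A m c K q k n) (hn : NoCh H m c) {i j : ℤ}
    (h1 : -(q : ℤ) < i) (h2 : i < j) (h3 : j ≤ k) (hij : H.Adj (c i) (c j)) :
    j = i + 1 ∨ (i = 1 - q ∧ j = k) := by
  have hm := h.hm
  rcases hn i j hij with h4 | h4
  · left
    rcases eq_or_lt_of_le (show 0 ≤ j - i - 1 by omega) with h5 | h5
    · omega
    · have h6 := Int.le_of_dvd h5 h4
      omega
  · right
    have h5 : (m : ℤ) ∣ j - i + 1 := by
      have e : j - i + 1 = -(i - j - 1) := by ring
      rw [e, dvd_neg]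
      exact h4
    have h6 := Int.le_of_dvd (by omega) h5
    omega

/-- `m ≥ 9`, `3 ≤ k`: if `m ≤ 8` then by `Short` (for `c` and `K`, `bd_inn`) no vertex is inside
the cycle, so all the vertices of `S` are on the cycle; `S` is not empty, so `k ≥ 1` and
`c 1 ∈ S \ A` has degree two by `NoCh`, against `nf`. -/
theorem m9_of (h : Ctx F τ H S P A m c K q k n) (hS : S.Nonempty) (hn : NoCh H m c)
    (hsh : Short F τ H) : 9 ≤ m := by
  by_contra hcon
  have hF := h.st.gd.sph
  have hc := h.bd.cy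
  have hon : ∀ v, (∃ y, H.Adj v y) → ∃ i, c i = v := by
    intro v hy
    by_contra h1
    push Not at h1
    exact hsh m c K hc (by omega) h.bd.KF h.bd.tau h.bd.br v hy h1 (bd_inn hF h.bd h1 hy).1
  obtain ⟨v, hv⟩ := hS
  obtain ⟨i, h1, h2, h3⟩ := h.cidx (hon v (h.nbr (Finset.mem_union_left _ hv)))
  have hi : 1 ≤ i := by
    by_contra h4
    rw [← h3] at hv
    exact (h.cP h1 (by omega)).2 hv
  have hc1 := (h.cS (i := 1) le_rfl (by omega)).1
  have hA : c 1 ∉ A := by
    intro hA
    obtain ⟨t, h4, h5, h6⟩ := h.Aidx hA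
    have := h.inj (i := t) (j := 1) (by omega) (by omega) (by omega) (by omega) h6
    omega
  have h4 := h.nf (c 1) hc1
  rw [if_neg hA] at h4
  have h5 : ((S ∪ P).filter fun u => H.Adj (c 1) u) ⊆ {c 2, c 0} := by
    intro y hy
    rw [Finset.mem_filter] at hy
    obtain ⟨j, rfl⟩ := hon y ⟨c 1, hy.2.symm⟩
    rw [Finset.mem_insert, Finset.mem_singleton]
    rcases hn 1 j hy.2 with h6 | h6
    · left
      rw [cy_eq hc]
      have e : j - 2 = j - 1 - 1 := by ring
      rw [e]
      exact h6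
    · right
      rw [cy_eq hc]
      have e : j - 0 = -(1 - j - 1) := by ring
      rw [e, dvd_neg]
      exact h6
  have h6 := Finset.card_le_card h5
  have h7 : ({c 2, c 0} : Finset V).card ≤ 2 := Finset.card_le_two
  omega

end Pool.Agent.Lib.MP_a33b01_co_G5
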