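import Pool.Agent.Lib.MP_a33b01_co_G5.StB
import Pool.Agent.Lib.MP_a33b01_co_G5.TpD
import Pool.Agent.Lib.MP_a33b01_co_G5.TpE

set_option autoImplicit false

/-!
# MP_a33b01_co, project G5: the inside of a short cycle whose vertices have been deleted
-/

namespace Pool.Agent.Lib.MP_a33b01_co_G5

open Classical
open Pool.Agent.Lib.MP_a33b01_co (Sph sk cn supp EvenG Removes Wg)

variable {V : Type} {F K : Finset (Finset V)} {τ : Finset V} {H : SimpleGraph V}
  {m n : ℕ} {c : ℤ → V}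

/-- the vertices of a cycle -/
noncomputable def cs (m : ℕ) (c : ℤ → V) : Finset V := (Finset.range m).image fun i : ℕ => c i

/-- the value of an inner vertex when the cycle has been deleted -/
noncomputable def cv (H : SimpleGraph V) (m : ℕ) (c : ℤ → V) (u : V) : ℕ :=
  2 - ((cs m c).filter fun p => H.Adj u p).card

theorem mem_cs (hc : Cy H m c) {v : V} : v ∈ cs m c ↔ ∃ i, c i = v := by
  unfold cs
  rw [Finset.mem_image]
  constructor
  · rintro ⟨i, _, h⟩
    exact ⟨i, h⟩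
  · rintro ⟨i, h⟩
    obtain ⟨j, h1, h2, h3⟩ := cy_mod hc 0 i
    refine ⟨j.toNat, ?_, ?_⟩
    · rw [Finset.mem_range]
      omega
    · rw [← h, ← h3]
      congr 1
      omega

theorem cs_card (hc : Cy H m c) : (cs m c).card = m := by
  unfold cs
  rw [Finset.card_image_of_injOn, Finset.card_range]
  intro i hi j hj h
  rw [Finset.mem_coe, Finset.mem_range] at hi hj
  have h1 := hc.inj _ _ h
  have h2 : (i : ℤ) - (j : ℤ) = 0 := by
    apply Int.eq_zero_of_abs_lt_dvd h1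
    rw [abs_lt]
    constructor <;> omega
  omega

private theorem LcA1_ne2 (hc : Cy H m c) (i : ℤ) : c i ≠ c (i + 2) := by
  intro h
  have h1 := hc.inj _ _ h
  have h2 : i - (i + 2) = -2 := by ring
  rw [h2, dvd_neg] at h1
  have := Int.le_of_dvd (by norm_num) h1
  have h3 := hc.three
  omega

private theorem LcA1_half (hG : Gd F H) (hc : Cy H m c) {u : V} (hu : inn c u) {i : ℤ} {d : ℕ}
    (hd : 0 < d) (h1 : H.Adj u (c i)) (h2 : H.Adj u (c (i + d))) : 3 ≤ d := by
  by_contra hcon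
  have h3 : d = 1 ∨ d = 2 := by omega
  rcases h3 with rfl | rfl
  · exact hG.tri _ _ _ h1 (hc.adj i) h2
  · have e1 : i + 1 + 1 = i + 2 := by ring
    have h4 := hc.adj (i + 1)
    rw [e1] at h4
    rcases hG.quad _ _ _ _ h1 (hc.adj i) h4 h2.symm with h5 | h5
    · exact hu (i + 1) h5.symm
    · exact LcA1_ne2 hc i h5

/-- Two neighbours of `u` on the cycle have distance at least three on the cycle (otherwise there
is a cycle of length at most four). -/
theorem cs_dist (hG : Gd F H) (hc : Cy H m c) {u : V} (hu : inn c u) {i : ℤ} {d : ℕ}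
    (hd : 0 < d) (hdm : d < m) (h1 : H.Adj u (c i)) (h2 : H.Adj u (c (i + d))) :
    3 ≤ d ∧ d + 3 ≤ m := by
  refine ⟨LcA1_half hG hc hu hd h1 h2, ?_⟩
  have h3 : i + (d : ℤ) + ((m - d : ℕ) : ℤ) = i + m := by omega
  have h4 : c (i + (d : ℤ) + ((m - d : ℕ) : ℤ)) = c i := by rw [h3, hc.per]
  have h5 := LcA1_half hG hc hu (i := i + d) (d := m - d) (by omega) h2 (by rw [h4]; exact h1)
  omega

private theorem LcA1_three (hG : Gd F H) (hc : Cy H m c) {u : V} (hu : inn c u) {i j k : ℤ}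
    (hij : i < j) (hjk : j < k) (hki : k < i + m) (h1 : H.Adj u (c i)) (h2 : H.Adj u (c j))
    (h3 : H.Adj u (c k)) : 9 ≤ m := by
  have e1 : i + ((j - i).toNat : ℤ) = j := by omega
  have e2 : j + ((k - j).toNat : ℤ) = k := by omega
  have e3 : i + ((k - i).toNat : ℤ) = k := by omega
  have g1 := cs_dist hG hc hu (i := i) (d := (j - i).toNat) (by omega) (by omega) h1
    (by rw [e1]; exact h2)
  have g2 := cs_dist hG hc hu (i := j) (d := (k - j).toNat) (by omega) (by omega) h2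
    (by rw [e2]; exact h3)
  have g3 := cs_dist hG hc hu (i := i) (d := (k - i).toNat) (by omega) (by omega) h1
    (by rw [e3]; exact h3)
  omega

/-- A vertex has at most two neighbours on a cycle of length at most eight. -/
theorem cs_two (hG : Gd F H) (hc : Cy H m c) (h8 : m ≤ 8) {u : V} (hu : inn c u) :
    ((cs m c).filter fun p => H.Adj u p).card ≤ 2 := by
  by_contra hcon
  rw [not_le, Finset.two_lt_card] at hcon
  obtain ⟨x, hx, y, hy, z, hz, hxy, hxz, hyz⟩ := hcon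
  rw [Finset.mem_filter, mem_cs hc] at hx hy hz
  obtain ⟨⟨i0, rfl⟩, hx⟩ := hx
  obtain ⟨⟨j0, rfl⟩, hy⟩ := hy
  obtain ⟨⟨k0, rfl⟩, hz⟩ := hz
  obtain ⟨i, hi1, hi2, hi3⟩ := cy_mod hc 0 i0
  obtain ⟨j, hj1, hj2, hj3⟩ := cy_mod hc 0 j0
  obtain ⟨k, hk1, hk2, hk3⟩ := cy_mod hc 0 k0
  rw [← hi3, ← hj3] at hxy
  rw [← hi3, ← hk3] at hxz
  rw [← hj3, ← hk3] at hyz
  rw [← hi3] at hx
  rw [← hj3] at hy
  rw [← hk3] at hz
  have n1 : i ≠ j := fun h => hxy (by rw [h])
  have n2 : i ≠ k := fun h => hxz (by rw [h])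
  have n3 : j ≠ k := fun h => hyz (by rw [h])
  have key : ∀ {i j k : ℤ}, 0 ≤ i → k < 0 + m → i < j → j < k → H.Adj u (c i) →
      H.Adj u (c j) → H.Adj u (c k) → False := by
    intro i j k h1 h2 h3 h4 h5 h6 h7
    have := LcA1_three hG hc hu h3 h4 (by omega) h5 h6 h7
    omega
  rcases lt_or_gt_of_ne n1 with h1 | h1 <;> rcases lt_or_gt_of_ne n2 with h2 | h2 <;>
    rcases lt_or_gt_of_ne n3 with h3 | h3
  · exact key hi1 hk2 h1 h3 hx hy hz
  · exact key hi1 hj2 h2 h3 hx hz hy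
  · omega
  · exact key hk1 hj2 h2 h1 hz hx hy
  · exact key hj1 hk2 h1 h2 hy hx hz
  · omega
  · exact key hj1 hi2 h3 h2 hy hz hx
  · exact key hk1 hi2 h3 h1 hz hy hx

private theorem LcA1_chh (hG : Gd F H) (hc : Cy H m c) {i : ℤ} {d : ℕ} (hd : 2 ≤ d)
    (h1 : H.Adj (c i) (c (i + d))) : 4 ≤ d := by
  by_contra hcon
  have h3 : d = 2 ∨ d = 3 := by omega
  have e1 : i + 1 + 1 = i + 2 := by ring
  have e2 : i + 2 + 1 = i + 3 := by ring
  have e3 : i + 1 + 2 = i + 3 := by ring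
  have h4 := hc.adj (i + 1)
  rw [e1] at h4
  rcases h3 with rfl | rfl
  · exact hG.tri _ _ _ (hc.adj i) h4 h1
  · have h5 := hc.adj (i + 2)
    rw [e2] at h5
    rcases hG.quad _ _ _ _ (hc.adj i) h4 h5 h1.symm with h6 | h6
    · exact LcA1_ne2 hc i h6
    · have h7 := LcA1_ne2 hc (i + 1)
      rw [e3] at h7
      exact h7 h6

/-- A chord of a cycle: both arcs have length at least four. -/
theorem ch_dist (hG : Gd F H) (hc : Cy H m c) {i : ℤ} {d : ℕ} (hd : 2 ≤ d) (hdm : d + 2 ≤ m)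
    (h1 : H.Adj (c i) (c (i + d))) : 4 ≤ d ∧ d + 4 ≤ m := by
  refine ⟨LcA1_chh hG hc hd h1, ?_⟩
  have h3 : i + (d : ℤ) + ((m - d : ℕ) : ℤ) = i + m := by omega
  have h4 : c (i + (d : ℤ) + ((m - d : ℕ) : ℤ)) = c i := by rw [h3, hc.per]
  have h5 := LcA1_chh hG hc (i := i + d) (d := m - d) (by omega) (by rw [h4]; exact h1.symm)
  omega

end Pool.Agent.Lib.MP_a33b01_co_G5
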