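import Pool.Agent.Lib.MP_a33b01_co_G5.ChA
import Pool.Agent.Lib.MP_a33b01_co_G5.ChB
import Pool.Agent.Lib.MP_a33b01_co_G5.ChC
import Pool.Agent.Lib.MP_a33b01_co_G5.LcA1
import Pool.Agent.Lib.MP_a33b01_co_G5.DcA1

set_option autoImplicit false

/-!
# MP_a33b01_co, project G5: paths of length two
-/

namespace Pool.Agent.Lib.MP_a33b01_co_G5

open Classical
open Pool.Agent.Lib.MP_a33b01_co (Sph sk cn supp EvenG Removes Wg)

variable {V : Type} {F K : Finset (Finset V)} {τ : Finset V} {H : SimpleGraph V}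
  {S P A : Finset V} {m q k n : ℕ} {c : ℤ → V}

/-- A vertex `z` inside with two neighbours `c i`, `c j` in `S`: take `j - i` as small as possible
(for all such `z`); `cs_dist`: `j - i ≥ 3`; `kchord_SS` with `Q = [z]` (a member `c t` of `A` with
`i < t < j` is not adjacent to `z`, and by `NoCh` it is adjacent to `c i` only if `t = i + 1`). -/
theorem cl_dSS (h : Ctx F τ H S P A m c K q k n) (hn : NoCh H m c)
    (hx : ∃ z, inn c z ∧ ∃ i j : ℤ, 1 ≤ i ∧ i < j ∧ j ≤ k ∧ H.Adj z (c i) ∧ H.Adj z (c j)) :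
    Cl H S P A := by
  have hm := h.hm
  have hq := h.q1
  have ex : ∃ d : ℕ, ∃ z, inn c z ∧ ∃ i : ℤ, 0 < d ∧ 1 ≤ i ∧ i + d ≤ k ∧ H.Adj z (c i) ∧
      H.Adj z (c (i + d)) := by
    obtain ⟨z, hz, i, j, h1, h2, h3, h4, h5⟩ := hx
    have h6 : i + ((j - i).toNat : ℤ) = j := by omega
    exact ⟨(j - i).toNat, z, hz, i, by omega, h1, by omega, h4, by rw [h6]; exact h5⟩
  obtain ⟨z, hz, i, hd, hi, hj, hzi, hzj⟩ := Nat.find_spec ex
  have hmin := fun d' => Nat.find_min (m := d') ex
  generalize Nat.find ex = d at hd hj hzj hmin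
  have h3 := cs_dist h.st.gd h.bd.cy hz hd (by omega) hzi hzj
  refine kchord_SS h (i := i) (j := i + d) hi (by omega) hj (Q := [z]) ?_ (by simp) ?_
    (by simp) ?_
  · simp [hzi.symm, hzj]
  · intro x hx
    rw [List.mem_singleton] at hx
    rw [hx]
    exact hz
  · intro t h1 h2 _ x hx hadj
    simp only [List.cons_append, List.nil_append, List.mem_cons, List.not_mem_nil, or_false] at hx
    rcases hx with hx | hx | hx
    · left
      rw [hx] at hadj
      rcases noch_idx h hn (by omega) h1 (by omega) hadj.symm with h4 | h4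
      · exact ⟨h4, hx⟩
      · omega
    · exfalso
      rw [hx] at hadj
      have h4 : i + ((t - i).toNat : ℤ) = t := by omega
      exact hmin (t - i).toNat (by omega)
        ⟨z, hz, i, by omega, hi, by omega, hzi, by rw [h4]; exact hadj.symm⟩
    · right
      rw [hx] at hadj
      rcases noch_idx h hn (by omega) h2 (by omega) hadj with h4 | h4
      · exact ⟨by omega, hx⟩
      · omega

/-- A vertex `z` inside with a neighbour `c i`, `1 ≤ i < k`, and `c j`, `-q < j ≤ 0`, where `j` is
the smallest index of a neighbour of `z` in `P`: `kchord_SP` with `Q = [z]`.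
`2 ≤ i - j`, `i - j + 2 ≤ m` by `cs_dist`.  `hPQ`: `c i` is adjacent to `P` only if `i = 1` (then
to `c 0`; `noch_idx`, `i < k`).  `hAQ`: `two` for `z`, `noch_idx` for `c i`. -/
theorem cl_dSP_left (h : Ctx F τ H S P A m c K q k n) (hn : NoCh H m c)
    (two : ∀ z, inn c z → ∀ i j : ℤ, 1 ≤ i → i < j → j ≤ k → H.Adj z (c i) → ¬ H.Adj z (c j))
    {z : V} (hz : inn c z) {i j : ℤ} (hi : 1 ≤ i) (hik : i < k) (hj : -(q : ℤ) < j)
    (hj0 : j ≤ 0) (hzi : H.Adj z (c i)) (hzj : H.Adj z (c j))
    (hmin : ∀ t : ℤ, -(q : ℤ) < t → t < j → ¬ H.Adj z (c t))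
    (hsz : (q : ℤ) + j + (if c (i + 1) ∈ A then 1 else 0) ≤ 4) : Cl H S P A := by
  have hm := h.hm
  have h6 : j + ((i - j).toNat : ℤ) = i := by omega
  have h3 := cs_dist h.st.gd h.bd.cy hz (i := j) (d := (i - j).toNat) (by omega) (by omega) hzj
    (by rw [h6]; exact hzi)
  refine kchord_SP h (i := i) (j := j) hi hik.le hj hj0 (Q := [z]) ?_ (by simp) ?_
    (by omega) (by omega) ?_ ?_ ?_
  · simp [hzj.symm, hzi]
  · intro x hx
    rw [List.mem_singleton] at hx
    rw [hx]
    exact hz
  · have h7 : (([z] : List V).length : ℤ) = 1 := by simp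
    rw [h7]
    linarith
  · intro x hx t h1 h2 hadj
    simp only [List.cons_append, List.nil_append, List.mem_cons, List.not_mem_nil, or_false] at hx
    rcases hx with hx | hx
    · rw [hx] at hadj
      exact hmin t h1 h2 hadj
    · rw [hx] at hadj
      rcases noch_idx h hn h1 (by omega) (by omega) hadj.symm with h4 | h4 <;> omega
  · intro t h1 h2 _ x hx hadj
    simp only [List.cons_append, List.nil_append, List.mem_cons, List.not_mem_nil, or_false] at hx
    rcases hx with hx | hx
    · rw [hx] at hadj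
      exact absurd hadj.symm (two z hz i t hi h1 h2.le hzi)
    · rw [hx] at hadj
      rcases noch_idx h hn (by omega) h1 (by omega) hadj.symm with h4 | h4
      · exact ⟨h4, hx⟩
      · omega

end Pool.Agent.Lib.MP_a33b01_co_G5
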