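import Pool.Agent.Lib.MP_a33b01_co_G5.ChA
import Pool.Agent.Lib.MP_a33b01_co_G5.ChB
import Pool.Agent.Lib.MP_a33b01_co_G5.ChC
import Pool.Agent.Lib.MP_a33b01_co_G5.DcA1
import Pool.Agent.Lib.MP_a33b01_co_G5.DcA2

set_option autoImplicit false

/-!
# MP_a33b01_co, project G5: paths of length two
-/

namespace Pool.Agent.Lib.MP_a33b01_co_G5

open Classical
open Pool.Agent.Lib.MP_a33b01_co (Sph sk cn supp EvenG Removes Wg)

variable {V : Type} {F K : Finset (Finset V)} {τ : Finset V} {H : SimpleGraph V}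
  {S P A : Finset V} {m q k n : ℕ} {c : ℤ → V}

private theorem DcA3_if (p : Prop) [Decidable p] : (if p then 1 else 0 : ℤ) ≤ 1 := by
  split_ifs <;> omega

private theorem DcA3_left (h : Ctx F τ H S P A m c K q k n) (hn : NoCh H m c)
    (two : ∀ z, inn c z → ∀ i j : ℤ, 1 ≤ i → i < j → j ≤ k → H.Adj z (c i) → ¬ H.Adj z (c j))
    {z : V} (hz : inn c z) {i j : ℤ} (hi : 1 ≤ i) (hik : i < k) (hj : -(q : ℤ) < j)
    (hj0 : j ≤ 0) (hzi : H.Adj z (c i)) (hzj : H.Adj z (c j))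
    (hmin : ∀ t : ℤ, -(q : ℤ) < t → t < j → ¬ H.Adj z (c t))
    (hsz : (q : ℤ) + j ≤ 3) : Cl H S P A := by
  refine cl_dSP_left h hn two hz hi hik hj hj0 hzi hzj hmin ?_
  have := DcA3_if (c (i + 1) ∈ A)
  omega

private theorem DcA3_right (h : Ctx F τ H S P A m c K q k n) (hn : NoCh H m c)
    (two : ∀ z, inn c z → ∀ i j : ℤ, 1 ≤ i → i < j → j ≤ k → H.Adj z (c i) → ¬ H.Adj z (c j))
    {z : V} (hz : inn c z) {i j : ℤ} (hi : 1 < i) (hik : i ≤ k) (hj : -(q : ℤ) < j)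
    (hj0 : j ≤ 0) (hzi : H.Adj z (c i)) (hzj : H.Adj z (c j))
    (hmax : ∀ t : ℤ, j < t → t ≤ 0 → ¬ H.Adj z (c t))
    (hsz : -2 ≤ j) : Cl H S P A := by
  have hm := h.hm
  have hper := h.bd.cy.per
  refine DcA3_left h.mirror ?_ ?_ (z := z) ?_ (i := k + 1 - i) (j := 1 - q - j) (by omega)
    (by omega) (by omega) (by omega) ?_ ?_ ?_ (by omega)
  · intro a b hab
    rcases hn _ _ hab with h1 | h1
    · right
      have e : a - b - 1 = (k : ℤ) + 1 - b - (k + 1 - a) - 1 := by ring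
      rw [e]
      exact h1
    · left
      have e : b - a - 1 = (k : ℤ) + 1 - a - (k + 1 - b) - 1 := by ring
      rw [e]
      exact h1
  · intro x hx a b h1 h2 h3 h4 h5
    refine two x (fun t ht => hx ((k : ℤ) + 1 - t) ?_) (k + 1 - b) (k + 1 - a) (by omega)
      (by omega) (by omega) h5 h4
    show c ((k : ℤ) + 1 - (k + 1 - t)) = x
    rw [← ht]
    congr 1
    ring
  · intro t
    exact hz _
  · show H.Adj z (c ((k : ℤ) + 1 - (k + 1 - i)))
    have e : (k : ℤ) + 1 - (k + 1 - i) = i := by ring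
    rw [e]
    exact hzi
  · show H.Adj z (c ((k : ℤ) + 1 - (1 - q - j)))
    have e : (k : ℤ) + 1 - (1 - q - j) = j + m := by rw [hm]; push_cast; ring
    rw [e, hper]
    exact hzj
  · intro t h1 h2
    show ¬ H.Adj z (c ((k : ℤ) + 1 - t))
    have e : (k : ℤ) + 1 - t = (1 - q - t) + m := by rw [hm]; push_cast; ring
    rw [e, hper]
    exact hmax _ (by omega) (by omega)

/-- All vertices `z` inside with neighbours `c i` (`1 ≤ i ≤ k`) and `c j` (`-q < j ≤ 0`), except for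
`q = 6` and (`i = 1`, `j = -2` or `i = k`, `j = -3`).
If `z` has two neighbours `c j₁`, `c j₂` in `P`, `j₁ < j₂`: then `j₂ - j₁ ≥ 3` (`Ctx.ldP`), so
`q + j₁ ≤ 3` and `1 - j₂ ≤ 3`; if `i < k` use `cl_dSP_left` for `(i, j₁)`, if `i = k` (so `i ≠ 1`)
the mirror image of `(i, j₂)`.
If `c j` is the only one: if `i < k` and `q + j ≤ 3` use `(i, j)`; if `i > 1` and `-2 ≤ j` use the
mirror image (`q + j' = 1 - j ≤ 3`).  Otherwise either `i = k` and `j ≤ -3`; `cs_dist` (distance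
from `c k` to `c j`) gives `q + j ≥ 3`, so `q = 6`, `j = -3`; or `i = 1` and `q + j ≥ 4`; `cs_dist`
gives `j ≤ -2`, so `q = 6`, `j = -2`. -/
theorem cl_dSP (h : Ctx F τ H S P A m c K q k n) (hn : NoCh H m c) (hk : 3 ≤ k)
    (two : ∀ z, inn c z → ∀ i j : ℤ, 1 ≤ i → i < j → j ≤ k → H.Adj z (c i) → ¬ H.Adj z (c j))
    (hx : ∃ z, inn c z ∧ ∃ i j : ℤ, 1 ≤ i ∧ i ≤ k ∧ -(q : ℤ) < j ∧ j ≤ 0 ∧ H.Adj z (c i) ∧
      H.Adj z (c j) ∧ ¬ (q = 6 ∧ ((i = 1 ∧ j = -2) ∨ (i = k ∧ j = -3)))) : Cl H S P A := by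
  obtain ⟨z, hz, i, j, hi, hik, hj, hj0, hzi, hzj, hne⟩ := hx
  have hm := h.hm
  have hq := h.q6
  have hq1 := h.q1
  have hzS : z ∈ S := (h.innS hz (h.st.sup _ _ hzi)).1
  have hc := h.bd.cy
  have hG := h.st.gd
  have pair : ∀ j₁ j₂ : ℤ, -(q : ℤ) < j₁ → j₁ < j₂ → j₂ ≤ 0 → H.Adj z (c j₁) →
      H.Adj z (c j₂) → Cl H S P A := by
    intro j₁ j₂ h1 h2 h3 h4 h5
    obtain ⟨h6, h7⟩ := h.ldP hzS h1 h2 h3 h4 h5
    rcases Int.lt_or_le i k with hik' | hik'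
    · refine DcA3_left h hn two hz hi hik' h1 (by omega) hzi h4 (fun t h8 h9 h10 => ?_) (by omega)
      rcases h7 t h8 (by omega) h10 with h11 | h11 <;> omega
    · refine DcA3_right h hn two hz (by omega) hik (j := j₂) (by omega) h3 hzi h5
        (fun t h8 h9 h10 => ?_) (by omega)
      rcases h7 t (by omega) h9 h10 with h11 | h11 <;> omega
  by_cases hsec : ∃ t : ℤ, -(q : ℤ) < t ∧ t ≤ 0 ∧ t ≠ j ∧ H.Adj z (c t)
  · obtain ⟨t, h1, h2, h3, h4⟩ := hsec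
    rcases Int.lt_or_gt_of_ne h3 with h5 | h5
    · exact pair t j h1 h5 hj0 h4 hzj
    · exact pair j t hj h5 h2 hzj h4
  · have honly : ∀ t : ℤ, -(q : ℤ) < t → t ≤ 0 → t ≠ j → ¬ H.Adj z (c t) :=
      fun t h1 h2 h3 h4 => hsec ⟨t, h1, h2, h3, h4⟩
    by_cases c1 : i < k ∧ (q : ℤ) + j ≤ 3
    · exact DcA3_left h hn two hz hi c1.1 hj hj0 hzi hzj
        (fun t h1 h2 => honly t h1 (by omega) (by omega)) c1.2
    by_cases c2 : 1 < i ∧ -2 ≤ j
    · exact DcA3_right h hn two hz c2.1 hik hj hj0 hzi hzj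
        (fun t h1 h2 => honly t (by omega) h2 (by omega)) c2.2
    exfalso
    apply hne
    rcases Int.lt_or_le i k with hik' | hik'
    · have h1 : (4 : ℤ) ≤ q + j := by
        by_contra hcon
        exact c1 ⟨hik', by omega⟩
      have h2 : i = 1 := by
        by_contra hcon
        have : j ≤ -3 := by
          by_contra hcon2
          exact c2 ⟨by omega, by omega⟩
        omega
      subst h2
      obtain ⟨d, hd⟩ : ∃ d : ℕ, (1 : ℤ) = j + d := ⟨(1 - j).toNat, by omega⟩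
      rw [hd] at hzi
      have h3 := (cs_dist hG hc hz (by omega) (by omega) hzj hzi).1
      exact ⟨by omega, Or.inl ⟨rfl, by omega⟩⟩
    · have h2 : i = k := by omega
      have h1 : j ≤ -3 := by
        by_contra hcon
        exact c2 ⟨by omega, by omega⟩
      obtain ⟨d, hd⟩ : ∃ d : ℕ, j + m = i + d := ⟨(j + m - i).toNat, by omega⟩
      rw [← hc.per, hd] at hzj
      have h3 := (cs_dist hG hc hz (by omega) (by omega) hzi hzj).1
      exact ⟨by omega, Or.inr ⟨h2, by omega⟩⟩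

/-- A vertex inside with two neighbours in `P`: `kchord_PP` with `Q = [x]`; `x` is not adjacent to
`c t`, `1 ≤ t ≤ k`: otherwise by `twoP` both `i` and `j` are `-2` (or both are `-3`). -/
theorem cl_dPP (h : Ctx F τ H S P A m c K q k n)
    (twoP : ∀ z, inn c z → ∀ i j : ℤ, 1 ≤ i → i ≤ k → -(q : ℤ) < j → j ≤ 0 → H.Adj z (c i) →
      H.Adj z (c j) → q = 6 ∧ ((i = 1 ∧ j = -2) ∨ (i = k ∧ j = -3))) (hk : 3 ≤ k)
    (hx : ∃ x, inn c x ∧ ∃ i j : ℤ, -(q : ℤ) < i ∧ i < j ∧ j ≤ 0 ∧ H.Adj x (c i) ∧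
      H.Adj x (c j)) : Cl H S P A := by
  obtain ⟨x, hx, i, j, hi, hij, hj0, hxi, hxj⟩ := hx
  have hm := h.hm
  have hxS : x ∈ S := (h.innS hx (h.st.sup _ _ hxi)).1
  obtain ⟨h3, -⟩ := h.ldP hxS hi hij hj0 hxi hxj
  refine kchord_PP h hi hj0 (by omega) (by omega) (Q := [x]) (by simp) ?_ ?_ ?_
  · simp [hxi.symm, hxj]
  · intro y hy
    rw [List.mem_singleton] at hy
    rw [hy]
    exact hx
  · intro y hy t h1 h2 h4
    rw [List.mem_singleton] at hy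
    rw [hy] at h4
    obtain ⟨-, h5⟩ := twoP x hx t i h1 h2 hi (by omega) h4 hxi
    obtain ⟨-, h6⟩ := twoP x hx t j h1 h2 (by omega) hj0 h4 hxj
    omega

end Pool.Agent.Lib.MP_a33b01_co_G5
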