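import Pool.Agent.Lib.MP_a33b01_co_G5.ChA
import Pool.Agent.Lib.MP_a33b01_co_G5.ChB
import Pool.Agent.Lib.MP_a33b01_co_G5.DcA

set_option autoImplicit false

/-!
# MP_a33b01_co, project G5: paths of length three
-/

namespace Pool.Agent.Lib.MP_a33b01_co_G5

open Classical
open Pool.Agent.Lib.MP_a33b01_co (Sph sk cn supp EvenG Removes Wg)

variable {V : Type} {F K : Finset (Finset V)} {τ : Finset V} {H : SimpleGraph V}
  {S P A : Finset V} {m q k n : ℕ} {c : ℤ → V}

/-- `kchord_SS` with `Q = [x, y]`: by `noch_idx` and `two` a member `c t` of `A` with `i < t < j`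
is not adjacent to `x`, `y`, and adjacent to `c i` (`c j`) only if `t = i + 1` (`t = j - 1`).
(`x ≠ y`, they are adjacent.) -/
theorem cl_tSS (h : Ctx F τ H S P A m c K q k n) (hn : NoCh H m c)
    (two : ∀ z, inn c z → ∀ i j : ℤ, 1 ≤ i → i < j → j ≤ k → H.Adj z (c i) → ¬ H.Adj z (c j))
    {x y : V} (hx : inn c x) (hy : inn c y) (hxy : H.Adj x y) {i j : ℤ} (hi : 1 ≤ i)
    (hij : i + 3 ≤ j) (hj : j ≤ k) (hix : H.Adj (c i) x) (hyj : H.Adj y (c j)) :
    Cl H S P A := by
  have hq1 := h.q1
  refine kchord_SS h hi hij hj (Q := [x, y]) ?_ ?_ ?_ (by simp) ?_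
  · simp only [List.cons_append, List.nil_append]
    rw [List.isChain_cons_cons, List.isChain_cons_cons, List.isChain_cons_cons]
    exact ⟨hix, hxy, hyj, List.isChain_singleton _⟩
  · rw [List.nodup_cons, List.mem_singleton]
    exact ⟨hxy.ne, List.nodup_singleton _⟩
  · intro z hz
    rcases List.mem_cons.1 hz with h1 | h1
    · rw [h1]
      exact hx
    · rw [List.mem_singleton.1 h1]
      exact hy
  · intro t hit htj _ z hz htz
    simp only [List.cons_append, List.nil_append, List.mem_cons, List.not_mem_nil,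
      or_false] at hz
    rcases hz with rfl | rfl | rfl | rfl
    · rcases noch_idx h hn (i := i) (j := t) (by omega) hit (by omega) htz.symm with h1 | h1
      · exact Or.inl ⟨h1, rfl⟩
      · omega
    · exact absurd htz.symm (two _ hx i t hi hit (by omega) hix.symm)
    · exact absurd hyj (two _ hy t j (by omega) htj hj htz.symm)
    · rcases noch_idx h hn (i := t) (j := j) (by omega) htj hj htz with h1 | h1
      · exact Or.inr ⟨by omega, rfl⟩
      · omega

/-- `kchord_SP` with the path `c j, x, y, c i`.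
`hL`: `i - j = 1` would give the cycle `c 0, x, y, c 1` of length four.  `hR`: `i < k`, `-q < j`.
`hsz`: `q + j ≤ 2`.  `hPQ`: `t < j ≤ 2 - q` gives `t = 1 - q`, `j = 2 - q`; `x` and `c (1 - q)` are
not adjacent (triangle), `y` and `c (1 - q)` are not adjacent (4-cycle), `c i` and `c (1 - q)` are
not adjacent (`noch_idx`, `i < k`).  `hAQ` (`i < t < k`): `x` is not adjacent to `c t` by `twoP`,
`y` is not by `two`, and `c i` only if `t = i + 1` (`noch_idx`). -/
theorem cl_tSP (h : Ctx F τ H S P A m c K q k n) (hn : NoCh H m c) (hq : 2 ≤ q)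
    (two : ∀ z, inn c z → ∀ i j : ℤ, 1 ≤ i → i < j → j ≤ k → H.Adj z (c i) → ¬ H.Adj z (c j))
    (twoP : ∀ z, inn c z → ∀ i j : ℤ, 1 ≤ i → i ≤ k → -(q : ℤ) < j → j ≤ 0 → H.Adj z (c i) →
      H.Adj z (c j) → q = 6 ∧ ((i = 1 ∧ j = -2) ∨ (i = k ∧ j = -3)))
    {x y : V} (hx : inn c x) (hy : inn c y) (hxy : H.Adj x y) {i j : ℤ} (hi : 1 ≤ i)
    (hik : i < k) (hj : -(q : ℤ) < j) (hj2 : j ≤ 2 - q) (hiy : H.Adj (c i) y)
    (hxj : H.Adj x (c j)) : Cl H S P A := by
  have hm := h.hm
  have hm' : (m : ℤ) = q + k := by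
    rw [hm]
    push_cast
    ring
  have hcy := h.bd.cy
  have hL : 2 ≤ i - j := by
    by_contra hcon
    have h1 : i = 1 := by omega
    have h2 : j = 0 := by omega
    subst h1 h2
    have h3 := hcy.adj 0
    rw [zero_add] at h3
    rcases h.st.gd.quad (c 0) x y (c 1) hxj.symm hxy hiy.symm h3.symm with h4 | h4
    · exact hy 0 h4
    · exact hx 1 h4.symm
  refine kchord_SP h hi (by omega) hj (by omega) (Q := [x, y]) ?_ ?_ ?_ hL (by omega) ?_ ?_ ?_
  · simp only [List.cons_append, List.nil_append]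
    rw [List.isChain_cons_cons, List.isChain_cons_cons, List.isChain_cons_cons]
    exact ⟨hxj.symm, hxy, hiy.symm, List.isChain_singleton _⟩
  · rw [List.nodup_cons, List.mem_singleton]
    exact ⟨hxy.ne, List.nodup_singleton _⟩
  · intro z hz
    rcases List.mem_cons.1 hz with h1 | h1
    · rw [h1]
      exact hx
    · rw [List.mem_singleton.1 h1]
      exact hy
  · simp only [List.length_cons, List.length_nil]
    split_ifs <;> push_cast <;> omega
  · intro z hz t ht htj hzt
    have h1 : j = t + 1 := by omega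
    have h2 := hcy.adj t
    rw [← h1] at h2
    simp only [List.cons_append, List.nil_append, List.mem_cons, List.not_mem_nil,
      or_false] at hz
    rcases hz with rfl | rfl | rfl
    · exact h.st.gd.tri _ _ _ hxj h2.symm hzt
    · rcases h.st.gd.quad _ _ _ _ hzt h2 hxj.symm hxy with h3 | h3
      · exact hy j h3.symm
      · exact hx t h3
    · rcases noch_idx h hn (i := t) (j := i) ht (by omega) (by omega) hzt.symm with h3 | h3
      · omega
      · omega
  · intro t hit htk _ z hz htz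
    simp only [List.cons_append, List.nil_append, List.mem_cons, List.not_mem_nil,
      or_false] at hz
    rcases hz with rfl | rfl | rfl
    · have h1 := twoP _ hx t j (by omega) (by omega) hj (by omega) htz.symm hxj
      omega
    · exact absurd htz.symm (two _ hy i t hi hit (by omega) hiy.symm)
    · rcases noch_idx h hn (i := i) (j := t) (by omega) hit (by omega) htz.symm with h1 | h1
      · exact ⟨h1, rfl⟩
      · omega

/-- The mirror image of `cl_tSP`: `Ctx.mirror`, `c i = c' (k + 1 - i)`, `c j = c' (1 - q - j)`. -/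
theorem cl_tSP' (h : Ctx F τ H S P A m c K q k n) (hn : NoCh H m c) (hq : 2 ≤ q)
    (two : ∀ z, inn c z → ∀ i j : ℤ, 1 ≤ i → i < j → j ≤ k → H.Adj z (c i) → ¬ H.Adj z (c j))
    (twoP : ∀ z, inn c z → ∀ i j : ℤ, 1 ≤ i → i ≤ k → -(q : ℤ) < j → j ≤ 0 → H.Adj z (c i) →
      H.Adj z (c j) → q = 6 ∧ ((i = 1 ∧ j = -2) ∨ (i = k ∧ j = -3)))
    {x y : V} (hx : inn c x) (hy : inn c y) (hxy : H.Adj x y) {i j : ℤ} (hi : 1 < i)
    (hik : i ≤ k) (hj : -1 ≤ j) (hj2 : j ≤ 0) (hiy : H.Adj (c i) y)
    (hxj : H.Adj x (c j)) : Cl H S P A := by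
  have hm := h.hm
  have hm' : (m : ℤ) = q + k := by
    rw [hm]
    push_cast
    ring
  have hcy := h.bd.cy
  have hrefl : ∀ t : ℤ, c ((k : ℤ) + 1 - (1 - q - t)) = c t := by
    intro t
    have e : (k : ℤ) + 1 - (1 - q - t) = t + m := by
      rw [hm']
      ring
    rw [e]
    exact hcy.per t
  have hrefl' : ∀ t : ℤ, c ((k : ℤ) + 1 - t) = c (1 - q - t) := by
    intro t
    have e : (k : ℤ) + 1 - t = 1 - q - t + m := by
      rw [hm']
      ring
    rw [e]
    exact hcy.per _
  have e1 : (k : ℤ) + 1 - ((k : ℤ) + 1 - i) = i := by ring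
  refine cl_tSP h.mirror (x := x) (y := y) (i := (k : ℤ) + 1 - i) (j := 1 - q - j) ?_ hq ?_ ?_
    (fun t => hx _) (fun t => hy _) hxy (by omega) (by omega) (by omega) (by omega) ?_ ?_
  · intro s t hst
    rcases hn _ _ hst with h1 | h1
    · right
      have e : (k : ℤ) + 1 - t - ((k : ℤ) + 1 - s) - 1 = s - t - 1 := by ring
      rwa [e] at h1
    · left
      have e : (k : ℤ) + 1 - s - ((k : ℤ) + 1 - t) - 1 = t - s - 1 := by ring
      rwa [e] at h1
  · intro z hz s t hs hst ht hzs hzt
    refine two z (fun r => ?_) ((k : ℤ) + 1 - t) ((k : ℤ) + 1 - s) (by omega) (by omega)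
      (by omega) hzt hzs
    have h1 := hz ((k : ℤ) + 1 - r)
    have e : (k : ℤ) + 1 - ((k : ℤ) + 1 - r) = r := by ring
    beta_reduce at h1
    rwa [e] at h1
  · intro z hz s t hs hsk ht ht0 hzs hzt
    have hz' : inn c z := by
      intro r
      have h1 := hz ((k : ℤ) + 1 - r)
      have e : (k : ℤ) + 1 - ((k : ℤ) + 1 - r) = r := by ring
      beta_reduce at h1
      rwa [e] at h1
    beta_reduce at hzt
    rw [hrefl'] at hzt
    have h1 := twoP z hz' ((k : ℤ) + 1 - s) (1 - q - t) (by omega) (by omega) (by omega)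
      (by omega) hzs hzt
    omega
  · rw [e1]
    exact hiy
  · rw [hrefl]
    exact hxj

end Pool.Agent.Lib.MP_a33b01_co_G5
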