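import Mathlib
import Pool.Agent.Lib.MP_a33b01_co.Defs

set_option autoImplicit false

/-!
# MP_a33b01_co, project G5 (planar graphs of girth at least five, `f = 2`): definitions

Text: /team-store/TEXT_MP_a33b01_co_G5.md.  `F` is the set of faces of a triangulation of the
sphere (`Sph F`, see `MP_a33b01_co.Defs`), `H ≤ sk F` is the real graph, `τ ∈ F` is a base face.
The outer region of `H` is the set of the faces of `F` which can be reached from `τ` crossing
edges that are not in `H`.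
-/

namespace Pool.Agent.Lib.MP_a33b01_co_G5

open Classical
open Pool.Agent.Lib.MP_a33b01_co (Sph sk cn supp EvenG Removes Wg)

variable {V : Type}

/-! ### The game with the cost of the saves -/

/-- `Rem G S f k`: `G[S]` can be removed legally from `f`, and the saves `DelSave (v, w)` cost
altogether at most `k`, where the cost is the value of `w`. -/
inductive Rem (G : SimpleGraph V) : Finset V → (V → ℕ) → ℕ → Prop
  | nil (f : V → ℕ) (k : ℕ) : Rem G ∅ f k
  | del (S : Finset V) (f : V → ℕ) (v : V) (k : ℕ) (hv : v ∈ S)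
      (hl : ∀ u ∈ S, G.Adj v u → 1 ≤ f u)
      (h : Rem G (S.erase v) (fun u => if G.Adj v u then f u - 1 else f u) k) : Rem G S f k
  | save (S : Finset V) (f : V → ℕ) (v w : V) (k : ℕ) (hv : v ∈ S) (hw : w ∈ S)
      (hvw : G.Adj v w) (hf : f w < f v) (hl : ∀ u ∈ S, G.Adj v u → u ≠ w → 1 ≤ f u)
      (h : Rem G (S.erase v) (fun u => if G.Adj v u ∧ u ≠ w then f u - 1 else f u) k) :
      Rem G S f (k + f w)

/-! ### Regions -/

/-- the faces which can be reached from `t` crossing edges that are not in `H` -/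
inductive Rc (F : Finset (Finset V)) (H : SimpleGraph V) (t : Finset V) : Finset V → Prop
  | base : Rc F H t t
  | step (s s' : Finset V) (x y : V) (h : Rc F H t s) (hs : s' ∈ F) (hxy : x ≠ y)
      (hx : x ∈ s) (hy : y ∈ s) (hx' : x ∈ s') (hy' : y ∈ s') (hn : ¬ H.Adj x y) :
      Rc F H t s'

/-- `v` touches the outer region of `H` -/
def Out (F : Finset (Finset V)) (τ : Finset V) (H : SimpleGraph V) (v : V) : Prop :=
  ∃ t, Rc F H τ t ∧ v ∈ t

/-- `x y` is an edge of `H` on the outer region -/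
def OutE (F : Finset (Finset V)) (τ : Finset V) (H : SimpleGraph V) (x y : V) : Prop :=
  H.Adj x y ∧ ∃ t, Rc F H τ t ∧ x ∈ t ∧ y ∈ t

/-- `v` is a vertex of a face of `K` -/
def On (K : Finset (Finset V)) (v : V) : Prop := ∃ t ∈ K, v ∈ t

/-- `P` is connected by the relation `E` -/
def CN (E : V → V → Prop) (P : Finset V) : Prop :=
  ∀ X ⊆ P, X.Nonempty → X ≠ P → ∃ a ∈ X, ∃ b ∈ P, b ∉ X ∧ E a b

/-- the restriction of `H` to `W` -/
def rs (H : SimpleGraph V) (W : Finset V) : SimpleGraph V where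
  Adj x y := H.Adj x y ∧ x ∈ W ∧ y ∈ W
  symm := ⟨fun _ _ h => ⟨h.1.symm, h.2.2, h.2.1⟩⟩
  loopless := ⟨fun v h => H.loopless.irrefl v h.1⟩

/-- the edges of `H` in the faces of `K` -/
def sg (H : SimpleGraph V) (K : Finset (Finset V)) : SimpleGraph V where
  Adj x y := H.Adj x y ∧ ∃ t ∈ K, x ∈ t ∧ y ∈ t
  symm := ⟨fun _ _ h => ⟨h.1.symm, h.2.imp fun _ ht => ⟨ht.1, ht.2.2, ht.2.1⟩⟩⟩
  loopless := ⟨fun v h => H.loopless.irrefl v h.1⟩

/-! ### Cycles and their sides -/

/-- the boundary of `K` is the relation `E` -/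
def BR (K : Finset (Finset V)) (E : V → V → Prop) : Prop :=
  ∀ x y, x ≠ y → (Odd (cn K x y) ↔ E x y)

/-- `c` is a cycle of length `m` of `H`, extended periodically -/
structure Cy (H : SimpleGraph V) (m : ℕ) (c : ℤ → V) : Prop where
  three : 3 ≤ m
  per : ∀ i, c (i + m) = c i
  inj : ∀ i j, c i = c j → (m : ℤ) ∣ i - j
  adj : ∀ i, H.Adj (c i) (c (i + 1))

/-- `x y` is an edge of the cycle `c` -/
def CE (c : ℤ → V) (x y : V) : Prop :=
  ∃ i, (x = c i ∧ y = c (i + 1)) ∨ (y = c i ∧ x = c (i + 1))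

/-- `v` is not on the cycle `c` -/
def inn (c : ℤ → V) (v : V) : Prop := ∀ i, c i ≠ v

/-- All edges of `H` are on or inside the cycle `c`, and `K` is the set of the faces of `F`
inside `c`. -/
structure Bd (F : Finset (Finset V)) (τ : Finset V) (H : SimpleGraph V) (m : ℕ) (c : ℤ → V)
    (K : Finset (Finset V)) : Prop where
  cy : Cy H m c
  KF : K ⊆ F
  tau : τ ∉ K
  br : BR K (CE c)
  hin : ∀ x y, H.Adj x y → ∃ t ∈ K, x ∈ t ∧ y ∈ t

/-- `K` is one side of the cycle `c`, and no edge of `H` is strictly inside `K`. -/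
structure Face (F : Finset (Finset V)) (H : SimpleGraph V) (m : ℕ) (c : ℤ → V)
    (K : Finset (Finset V)) : Prop where
  cy : Cy H m c
  KF : K ⊆ F
  br : BR K (CE c)
  ni : ∀ x y, H.Adj x y → ∃ t ∈ F, t ∉ K ∧ x ∈ t ∧ y ∈ t

/-- the list `c a, c (a + 1), …` with `n` members -/
def arc (c : ℤ → V) (a : ℤ) (n : ℕ) : List V := (List.range n).map fun t : ℕ => c (a + t)

/-- the members of `l`, repeated periodically (`d` is a default value) -/
def per (d : V) (l : List V) (i : ℤ) : V := l.getD (i % (l.length : ℤ)).toNat d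

/-- the list `l` is a cycle of `H` -/
structure LCy (H : SimpleGraph V) (l : List V) : Prop where
  three : 3 ≤ l.length
  nd : l.Nodup
  ch : l.IsChain H.Adj
  cl : ∀ x ∈ l.head?, ∀ y ∈ l.getLast?, H.Adj y x

/-- The path `c i, Q, c (i + d)` cuts the disc `K` into `K₁` (which contains the edges of `c`
from `c i` to `c (i + d)`) and `K₂`. -/
structure Split (F : Finset (Finset V)) (τ : Finset V) (H : SimpleGraph V) (m : ℕ) (c : ℤ → V)
    (K : Finset (Finset V)) (i : ℤ) (d : ℕ) (Q : List V) (K₁ K₂ : Finset (Finset V)) : Prop where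
  un : K₁ ∪ K₂ = K
  dj : Disjoint K₁ K₂
  lc₁ : LCy H (arc c i (d + 1) ++ Q.reverse)
  lc₂ : LCy H (arc c (i + d) (m - d + 1) ++ Q)
  bd₁ : Bd F τ (sg H K₁) (d + 1 + Q.length) (per (c 0) (arc c i (d + 1) ++ Q.reverse)) K₁
  bd₂ : Bd F τ (sg H K₂) (m - d + 1 + Q.length)
    (per (c 0) (arc c (i + d) (m - d + 1) ++ Q)) K₂

/-! ### The states of the induction -/

/-- the general assumptions on the graph -/
structure Gd (F : Finset (Finset V)) (H : SimpleGraph V) : Prop where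
  sph : Sph F
  le : H ≤ sk F
  tri : ∀ x y z, H.Adj x y → H.Adj y z → ¬ H.Adj x z
  quad : ∀ x y z w, H.Adj x y → H.Adj y z → H.Adj z w → H.Adj w x → x = z ∨ y = w

/-- the function of a state: `P` has been deleted, and `A` has lost one more -/
noncomputable def fv (H : SimpleGraph V) (P A : Finset V) (u : V) : ℕ :=
  2 - ((if u ∈ A then 1 else 0) + (P.filter fun p => H.Adj u p).card)

/-- A state: `P` is the deleted path on the outer region, `S` the set of the remaining vertices,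
`A` the set of the low vertices. -/
structure St (F : Finset (Finset V)) (τ : Finset V) (H : SimpleGraph V) (S P A : Finset V) :
    Prop where
  gd : Gd F H
  tF : τ ∈ F
  sup : ∀ x y, H.Adj x y → x ∈ S ∪ P
  sF : S ∪ P ⊆ supp F
  dj : Disjoint S P
  six : P.card ≤ 6
  outP : ∀ p ∈ P, Out F τ H p
  con : CN (OutE F τ H) P
  ld : ∀ u ∈ S, (P.filter fun p => H.Adj u p).card ≤ 2
  AS : A ⊆ S
  outA : ∀ a ∈ A, Out F τ H a
  ind : ∀ a ∈ A, ∀ b ∈ A, ¬ H.Adj a b
  AP : ∀ a ∈ A, ∀ p ∈ P, ¬ H.Adj a p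

/-- the measure of the induction -/
def mu (S P : Finset V) : ℕ := 7 * S.card + 6 * P.card

/-- the conclusion for a state: `S` can be removed legally and the cost is at most `|S| / 4` -/
def Cl (H : SimpleGraph V) (S P A : Finset V) : Prop :=
  ∃ k, Rem H S (fv H P A) k ∧ 4 * k ≤ S.card

/-- the induction hypothesis -/
def IH (F : Finset (Finset V)) (τ : Finset V) (n : ℕ) : Prop :=
  ∀ (H : SimpleGraph V) (S P A : Finset V), mu S P < n → St F τ H S P A → Cl H S P A

/-- there is no separation of order at most one -/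
def NS (H : SimpleGraph V) (W : Finset V) : Prop :=
  ∀ L R : Finset V, L ∪ R = W → (L ∩ R).card ≤ 1 →
    (∀ x ∈ L, x ∉ R → ∀ y, H.Adj x y → y ∈ L) →
    (∀ x ∈ R, x ∉ L → ∀ y, H.Adj x y → y ∈ R) → L = W ∨ R = W

/-- The 2-connected situation: the outer cycle is `c`, the path `P` is `c (1 - q), …, c 0`, the
other vertices on the outer cycle are `c 1, …, c k`. -/
structure Ctx (F : Finset (Finset V)) (τ : Finset V) (H : SimpleGraph V) (S P A : Finset V)
    (m : ℕ) (c : ℤ → V) (K : Finset (Finset V)) (q k n : ℕ) : Prop where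
  st : St F τ H S P A
  ih : IH F τ n
  hn : mu S P = n
  bd : Bd F τ H m c K
  hm : m = q + k
  q1 : 1 ≤ q
  hP : ∀ v, v ∈ P ↔ ∃ i : ℤ, -(q : ℤ) < i ∧ i ≤ 0 ∧ c i = v
  nf : ∀ v ∈ S, 3 ≤ ((S ∪ P).filter fun u => H.Adj v u).card + if v ∈ A then 1 else 0

/-- there are no chords -/
def NoCh (H : SimpleGraph V) (m : ℕ) (c : ℤ → V) : Prop :=
  ∀ i j : ℤ, H.Adj (c i) (c j) → (m : ℤ) ∣ j - i - 1 ∨ (m : ℤ) ∣ i - j - 1

/-- short cycles have no vertices inside -/
def Short (F : Finset (Finset V)) (τ : Finset V) (H : SimpleGraph V) : Prop :=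
  ∀ (l : ℕ) (z : ℤ → V) (K' : Finset (Finset V)), Cy H l z → l ≤ 8 → K' ⊆ F → τ ∉ K' →
    BR K' (CE z) → ∀ v, (∃ y, H.Adj v y) → inn z v → ¬ On K' v

/-- the final situation: none of the reductions applies -/
structure FC (F : Finset (Finset V)) (τ : Finset V) (H : SimpleGraph V) (S P A : Finset V)
    (m : ℕ) (c : ℤ → V) (K : Finset (Finset V)) (q k n : ℕ) : Prop where
  ctx : Ctx F τ H S P A m c K q k n
  q2 : 2 ≤ q
  m9 : 9 ≤ m
  noch : NoCh H m c
  short : Short F τ H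
  two : ∀ z, inn c z → ∀ i j : ℤ, 1 ≤ i → i < j → j ≤ k → H.Adj z (c i) → ¬ H.Adj z (c j)
  twoP : ∀ z, inn c z → ∀ i j : ℤ, 1 ≤ i → i ≤ k → -(q : ℤ) < j → j ≤ 0 → H.Adj z (c i) →
    H.Adj z (c j) → q = 6 ∧ ((i = 1 ∧ j = -2) ∨ (i = k ∧ j = -3))
  twoPP : ∀ z, inn c z → ∀ i j : ℤ, -(q : ℤ) < i → i < j → j ≤ 0 → H.Adj z (c i) →
    ¬ H.Adj z (c j)
  a2 : c 2 ∈ A
  ak : c (k - 1) ∈ A
  three : ∀ x y, inn c x → inn c y → H.Adj x y → ∀ i j : ℤ, 1 ≤ i → i + 3 ≤ j → j ≤ k →
    H.Adj (c i) x → ¬ H.Adj y (c j)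
  threeL : ∀ x y, inn c x → inn c y → H.Adj x y → ∀ i j : ℤ, 1 ≤ i → i < k → -(q : ℤ) < j →
    j ≤ 2 - q → H.Adj (c i) y → ¬ H.Adj x (c j)
  threeR : ∀ x y, inn c x → inn c y → H.Adj x y → ∀ i j : ℤ, 1 < i → i ≤ k → -1 ≤ j →
    j ≤ 0 → H.Adj (c i) y → ¬ H.Adj x (c j)

/-- the cycle formed by the arc `c i, …, c (i + d)` and the path `c i, Q, c (i + d)` -/
def pl (c : ℤ → V) (i : ℤ) (d : ℕ) (Q : List V) : List V := arc c i (d + 1) ++ Q.reverse

/-- a path `c i, Q, c (i + d)` through the inside of the cycle `c` -/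
structure PC (H : SimpleGraph V) (m : ℕ) (c : ℤ → V) (i : ℤ) (d : ℕ) (Q : List V) : Prop where
  hd : 0 < d
  hdm : d < m
  ne : Q ≠ []
  ch : (c i :: Q ++ [c (i + d)]).IsChain H.Adj
  nd : Q.Nodup
  inn : ∀ x ∈ Q, inn c x

/-- a conflict with the centre `c s`: the cycle `c (s - 1), c s, c (s + 1), x, u` -/
structure Cf (H : SimpleGraph V) (c : ℤ → V) (s : ℤ) (u x : V) : Prop where
  iu : inn c u
  ix : inn c x
  cu : H.Adj (c (s - 1)) u
  ux : H.Adj u x
  xc : H.Adj x (c (s + 1))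

/-- the new set of low vertices -/
noncomputable def newA (H : SimpleGraph V) (S' P D : Finset V) (l : List V) (A : Finset V) :
    Finset V :=
  S'.filter fun u => u ∈ A ∨ ∃ d ∈ P ∪ D, d ∉ l ∧ H.Adj u d

end Pool.Agent.Lib.MP_a33b01_co_G5
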