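import Pool.Agent.Lib.MP_a33b01_co_G5.GmA
import Pool.Agent.Lib.MP_a33b01_co.GameFin
import Pool.Agent.Lib.MP_9d6bd1_lc.GEuler

set_option autoImplicit false

/-!
# MP_a33b01_co, project G5: the bound for the number of edges, and the product
-/

namespace Pool.Agent.Lib.MP_a33b01_co_G5

open Classical
open Pool.Agent.Lib.MP_a33b01_co (Sph sk cn supp EvenG Removes Wg)

variable {V : Type}

/-- An even set of edges of a graph without triangles and 4-cycles has at least five members
(model: `girth3`, `girth4` of `MP_9d6bd1_lc.GEulerA`): a path `a, b, c, d` (`three_path`), next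
edges `d e`, `e g` (`step`); the five edges are different because otherwise there is a closed walk
of length three or four. -/
theorem girth5 [Finite V] (G : SimpleGraph V)
    (htri : ∀ x y z, G.Adj x y → G.Adj y z → ¬ G.Adj x z)
    (hquad : ∀ x y z w, G.Adj x y → G.Adj y z → G.Adj z w → G.Adj w x → x = z ∨ y = w)
    (Z : Set (Sym2 V)) (hZ : Z ⊆ G.edgeSet) (he : Pool.Agent.MP9d6bd1.EvenSet Z)
    (hne : Z.Nonempty) : 5 ≤ Z.ncard := by
  obtain ⟨a, b, c, d, h0, h1, h2, hca, hdb, hab, hbc, hcd⟩ :=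
    Pool.Agent.MP9d6bd1.GEulerAux.three_path G Z hZ he hne
  obtain ⟨e, hec, h3⟩ := Pool.Agent.MP9d6bd1.GEulerAux.step Z he c d h2
  obtain ⟨g, hgd, h4⟩ := Pool.Agent.MP9d6bd1.GEulerAux.step Z he d e h3
  have k0 : G.Adj a b := hZ h0
  have k1 : G.Adj b c := hZ h1
  have k2 : G.Adj c d := hZ h2
  have k3 : G.Adj d e := hZ h3
  have k4 : G.Adj e g := hZ h4
  have hde : d ≠ e := k3.ne
  have hda : d ≠ a := by
    rintro rfl
    exact htri d b c k0 k1 k2.symm
  have heb : e ≠ b := by
    rintro rfl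
    exact htri e c d k1 k2 k3.symm
  have hea : e ≠ a := by
    rintro rfl
    rcases hquad e b c d k0 k1 k2 k3 with h | h
    · exact hca h.symm
    · exact hdb h.symm
  have hs : ({s(a, b), s(b, c), s(c, d), s(d, e), s(e, g)} : Finset (Sym2 V)).card = 5 := by
    have hnd : [s(a, b), s(b, c), s(c, d), s(d, e), s(e, g)].Nodup := by
      simp only [List.nodup_cons, List.mem_cons, List.not_mem_nil, or_false, not_or,
        not_false_iff, List.nodup_nil, and_true, Sym2.eq_iff]
      refine ⟨⟨⟨fun h => hab h.1, fun h => hca h.symm⟩,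
        ⟨fun h => hca h.1.symm, fun h => hda h.1.symm⟩,
        ⟨fun h => hda h.1.symm, fun h => hea h.1.symm⟩,
        ⟨fun h => hea h.1.symm, fun h => heb h.2.symm⟩⟩,
        ⟨⟨fun h => hbc h.1, fun h => hdb h.symm⟩,
        ⟨fun h => hdb h.1.symm, fun h => heb h.1.symm⟩,
        ⟨fun h => heb h.1.symm, fun h => hec h.2.symm⟩⟩,
        ⟨⟨fun h => hcd h.1, fun h => hec h.symm⟩,
        ⟨fun h => hec h.1.symm, fun h => hde h.2⟩⟩,
        ⟨fun h => hde h.1, fun h => hgd h.symm⟩⟩
    have h5 := List.toFinset_card_of_nodup hnd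
    simpa using h5
  rw [← hs, ← Set.ncard_coe_finset]
  apply Set.ncard_le_ncard _ (Set.toFinite _)
  intro e' hE
  simp only [Finset.coe_insert, Finset.coe_singleton, Set.mem_insert_iff,
    Set.mem_singleton_iff] at hE
  rcases hE with rfl | rfl | rfl | rfl | rfl <;> assumption

/-- Euler's bound (model: `edges_of_dual`, with `wagner`, `edges_le`, `faces_le` for `g = 5`). -/
theorem edges5 [Finite V] (G : SimpleGraph V) (hG : Pool.Agent.MP9d6bd1.Planar G)
    (htri : ∀ x y z, G.Adj x y → G.Adj y z → ¬ G.Adj x z)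
    (hquad : ∀ x y z w, G.Adj x y → G.Adj y z → G.Adj z w → G.Adj w x → x = z ∨ y = w) :
    3 * G.edgeSet.ncard ≤ 5 * Nat.card V := by
  obtain ⟨ι, l, r, hι, hne, hD⟩ := Pool.Agent.MP9d6bd1.wagner G hG
  have h1 := Pool.Agent.MP9d6bd1.GEulerAux.edges_le G l r hD
  have hsup : G.support.ncard ≤ Nat.card V := by
    rw [← Set.ncard_univ]
    exact Set.ncard_le_ncard (Set.subset_univ _) (Set.toFinite _)
  have h2 : G.edgeSet.ncard = 0 ∨ 2 ≤ G.support.ncard := by
    rcases Set.eq_empty_or_nonempty G.edgeSet with h | ⟨e, he⟩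
    · left
      rw [h, Set.ncard_empty]
    · right
      induction e using Sym2.ind with
      | _ a b =>
        have hab : G.Adj a b := he
        rw [← Set.ncard_pair hab.ne]
        refine Set.ncard_le_ncard ?_ (Set.toFinite _)
        intro x hx
        rcases hx with rfl | hx
        · exact G.mem_support.2 ⟨b, hab⟩
        · rw [Set.mem_singleton_iff] at hx
          subst hx
          exact G.mem_support.2 ⟨a, hab.symm⟩
  have h3 : 0 < Nat.card ι := Nat.card_pos
  by_cases h4 : 2 ≤ Nat.card ι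
  · have h5 := Pool.Agent.MP9d6bd1.GEulerAux.faces_le G l r hD 5 h4
      (fun Z a b c => girth5 G htri hquad Z a b c)
    omega
  · omega

end Pool.Agent.Lib.MP_a33b01_co_G5
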