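import Pool.Agent.Lib.MP_a33b01_co_G5.GmA
import Pool.Agent.Lib.MP_a33b01_co.GameFin
import Pool.Agent.Lib.MP_9d6bd1_lc.GEuler
import Pool.Agent.Lib.MP_a33b01_co_G5.EuA1

set_option autoImplicit false

/-!
# MP_a33b01_co, project G5: the bound for the number of edges, and the product
-/

namespace Pool.Agent.Lib.MP_a33b01_co_G5

open Classical
open Pool.Agent.Lib.MP_a33b01_co (Sph sk cn supp EvenG Removes Wg)

variable {V : Type}

/-- the number of ordered pairs of adjacent vertices -/
theorem pairs5 [Fintype V] (G : SimpleGraph V) :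
    (((Finset.univ : Finset V) ×ˢ (Finset.univ : Finset V)).filter
      fun p => G.Adj p.1 p.2).card = 2 * G.edgeSet.ncard := by
  have h1 : G.edgeSet.ncard = G.edgeFinset.card := by
    rw [← SimpleGraph.coe_edgeFinset, Set.ncard_coe_finset]
  rw [h1, ← SimpleGraph.sum_degrees_eq_twice_card_edges, Finset.card_filter, Finset.sum_product]
  refine Finset.sum_congr rfl fun v _ => ?_
  rw [← SimpleGraph.card_neighborFinset_eq_degree, SimpleGraph.neighborFinset_eq_filter,
    Finset.card_filter]

private theorem EuA2_range {G : SimpleGraph V} {S : Finset V} {f : V → ℕ} {L : List ℕ}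
    (h : Removes G S f L) (hf : ∀ u ∈ S, f u ≤ 2) : ∀ a ∈ L, 1 ≤ a ∧ a ≤ 3 := by
  induction h with
  | nil f =>
    intro a ha
    exact absurd ha List.not_mem_nil
  | del S f v L hv hl h ih =>
    intro a ha
    rcases List.mem_cons.1 ha with rfl | ha
    · have := hf v hv
      omega
    · refine ih (fun u hu => ?_) a ha
      have := hf u (Finset.mem_of_mem_erase hu)
      beta_reduce
      split_ifs <;> omega
  | save S f v w L hv hw hvw hfw hl h ih =>
    intro a ha
    rcases List.mem_cons.1 ha with rfl | ha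
    · have := hf v hv
      omega
    · refine ih (fun u hu => ?_) a ha
      have := hf u (Finset.mem_of_mem_erase hu)
      beta_reduce
      split_ifs <;> omega

private theorem EuA2_list (L : List ℕ) (h : ∀ a ∈ L, 1 ≤ a ∧ a ≤ 3) :
    3 ^ (L.map fun a => a - 1).sum ≤ L.prod ^ 2 := by
  induction L with
  | nil => simp
  | cons a L ih =>
    obtain ⟨h1, h5⟩ := h a List.mem_cons_self
    have ih' := ih fun b hb => h b (List.mem_cons_of_mem _ hb)
    rw [List.map_cons, List.sum_cons, List.prod_cons, pow_add, mul_pow]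
    refine Nat.mul_le_mul ?_ ih'
    interval_cases a <;> norm_num

private theorem EuA2_prod {L' L : List ℕ} (h : List.Forall₂ (fun a b => a ≤ b) L' L) :
    L'.prod ≤ L.prod := by
  induction h with
  | nil => exact le_rfl
  | cons hab _ ih =>
    rw [List.prod_cons, List.prod_cons]
    exact Nat.mul_le_mul hab ih

/-- The product of the availabilities (model: `removes_prod` of `MP_a33b01_co.GameFin`): the
availabilities from `f' ≤ 2` are `1`, `2`, `3`, and `3 ^ (a - 1) ≤ a ^ 2`. -/
theorem prod3 {G : SimpleGraph V} {S : Finset V} {f f' : V → ℕ} {X : ℕ}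
    (h : Wg G S f' X) (h2 : ∀ u ∈ S, f' u ≤ 2) (hf : ∀ u ∈ S, f' u ≤ f u) :
    ∃ L, Removes G S f L ∧ 3 ^ X ≤ L.prod ^ 2 := by
  obtain ⟨L', hL', hX⟩ := h
  obtain ⟨L, hL, hLL, _⟩ := Pool.Agent.Lib.MP_a33b01_co.removes_mono hf (fun _ _ _ _ h => h) hL'
  refine ⟨L, hL, ?_⟩
  have h1 := EuA2_list L' (EuA2_range hL' h2)
  have h3 : 3 ^ X ≤ 3 ^ (L'.map fun a => a - 1).sum := Nat.pow_le_pow_right (by norm_num) hX
  have h4 : L'.prod ^ 2 ≤ L.prod ^ 2 := Nat.pow_le_pow_left (EuA2_prod hLL) 2
  exact h3.trans (h1.trans h4)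

/-- `rem_free`, induction on `S` -/
theorem rem_all_free {G : SimpleGraph V} {f : V → ℕ} (S : Finset V)
    (h : ∀ v ∈ S, (S.filter fun u => G.Adj v u).card ≤ f v) : Rem G S f 0 := by
  induction S using Finset.induction_on with
  | empty => exact Rem.nil f 0
  | insert a S ha ih =>
    refine rem_free (Finset.mem_insert_self a S) (h a (Finset.mem_insert_self a S)) ?_
    rw [Finset.erase_insert ha]
    refine ih fun v hv => le_trans (Finset.card_le_card ?_) (h v (Finset.mem_insert_of_mem hv))
    exact Finset.filter_subset_filter _ (Finset.subset_insert a S)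

end Pool.Agent.Lib.MP_a33b01_co_G5
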