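import Pool.Agent.Lib.MP_a33b01_co_G5.FxC

set_option autoImplicit false

/-!
# MP_a33b01_co, project G5: the conflict at c 2, k = 3
-/

namespace Pool.Agent.Lib.MP_a33b01_co_G5

open Classical
open Pool.Agent.Lib.MP_a33b01_co (Sph sk cn supp EvenG Removes Wg)

variable {V : Type} {F K : Finset (Finset V)} {τ : Finset V} {H : SimpleGraph V}
  {S P A : Finset V} {m q k n : ℕ} {c : ℤ → V} {u x : V}

private theorem F3_q6 (h : FC F τ H S P A m c K q k n) (hk : k = 3) : q = 6 := by
  have h1 := h.ctx.q6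
  have h2 := h.ctx.hm
  have h3 := h.m9
  omega

private theorem F3_in (hk : k = 3) {a : V} (ha : XM H A c k u x a) : inn c a := by
  rcases ha.2.2 with ⟨t, h1, h2, -, -⟩ | h1
  · omega
  · exact h1.1

/-- the facts for a contact `y` of `u` -/
private theorem F3_y (h : FC F τ H S P A m c K q k n) (hf : Cf H c 2 u x) (hk : k = 3) {y : V}
    (hy : Ct H c u y 1) : y ≠ u ∧ y ≠ x ∧ ¬ H.Adj y (c 1) ∧ ¬ H.Adj y (c 3) := by
  have hq := F3_q6 h hk
  have hxc : H.Adj x (c 3) := by
    have := hf.xc
    norm_num at this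
    exact this
  have hyc : H.Adj y (c (-1)) := by
    have := hy.yc
    norm_num at this
    exact this
  refine ⟨hy.uy.ne', ?_, ?_, ?_⟩
  · rintro rfl
    exact h.zp3' hk hf hf.ix hxc (j := -1) (by omega) (by norm_num) hyc
  · intro h1
    exact h.ctx.st.gd.tri (c 1) u y hy.cu hy.uy h1.symm
  · intro h1
    exact h.zp3' hk hf hy.iy h1 (j := -1) (by omega) (by norm_num) hyc

private theorem F3_y' (h : FC F τ H S P A m c K q k n) (hf : Cf H c 2 u x) (hk : k = 3) {y : V}
    (iy : inn c y) (hxy : H.Adj x y) (hyc : H.Adj y (c (-4))) :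
    y ≠ u ∧ y ≠ x ∧ ¬ H.Adj y (c 1) ∧ ¬ H.Adj y (c 3) := by
  have hq := F3_q6 h hk
  have hxc : H.Adj x (c 3) := by
    have := hf.xc
    norm_num at this
    exact this
  have h1c : ¬ H.Adj y (c 1) := by
    intro h1
    have h2 := (h.zp_q iy h1 (j := -4) (by omega) (by norm_num) hyc).2
    omega
  have hcu : H.Adj (c 1) u := by
    have := hf.cu
    norm_num at this
    exact this
  refine ⟨?_, hxy.ne', h1c, ?_⟩
  · rintro rfl
    exact h1c hcu.symm
  · intro h1
    exact h.ctx.st.gd.tri x y (c 3) hxy h1 hxc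

/-- the members of `P` -/
private theorem F3_P (h : FC F τ H S P A m c K q k n) (hk : k = 3) {v : V} :
    v ∈ P ↔ ∃ i : ℤ, -5 ≤ i ∧ i ≤ 0 ∧ c i = v := by
  have hq := F3_q6 h hk
  rw [h.ctx.hP v]
  constructor
  · rintro ⟨i, h1, h2, h3⟩
    exact ⟨i, by omega, h2, h3⟩
  · rintro ⟨i, h1, h2, h3⟩
    exact ⟨i, by omega, h2, h3⟩

/-- the mirror image of a contact -/
private theorem F3_mir (h : FC F τ H S P A m c K q k n) (hf : Cf H c 2 u x) (hk : k = 3) :
    FC F τ H S P A m (fun i => c (4 - i)) K q k n ∧ Cf H (fun i => c (4 - i)) 2 x u ∧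
      ∀ j : ℤ, c (4 - j) = c (-5 - j) := by
  have hq := F3_q6 h hk
  refine ⟨?_, ?_, ?_⟩
  · have h1 := h.mirror
    have e : ((k : ℤ) + 1) = 4 := by
      rw [hk]
      norm_num
    rw [e] at h1
    exact h1
  · have h1 := hf.mirror 4
    norm_num at h1
    exact h1
  · intro j
    have h1 := h.mir_neg j
    have e : ((k : ℤ) + 1 - j) = 4 - j := by
      rw [hk]
      push_cast
      ring
    have e' : (1 - (q : ℤ) - j) = -5 - j := by
      rw [hq]
      push_cast
      ring
    rwa [e, e'] at h1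

private theorem F3_mct (h : FC F τ H S P A m c K q k n) (hf : Cf H c 2 u x) (hk : k = 3) {y : V}
    (iy : inn c y) (hxy : H.Adj x y) (hyc : H.Adj y (c (-4))) :
    Ct H (fun i => c (4 - i)) x y 1 := by
  obtain ⟨-, hf', hm⟩ := F3_mir h hf hk
  refine ⟨hf'.iu, fun i => iy _, ?_, hxy, ?_⟩
  · have := hf'.cu
    norm_num at this
    norm_num
    exact this
  · change H.Adj y (c (4 - -((1 : ℕ) : ℤ)))
    rw [hm]
    have e : (-5 - -((1 : ℕ) : ℤ) : ℤ) = -4 := by norm_num
    rw [e]
    exact hyc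

/-- no contacts -/
private theorem F3_a (h : FC F τ H S P A m c K q k n) (hf : Cf H c 2 u x) (hk : k = 3)
    (n1 : ∀ y, ¬ Ct H c u y 1) (n2 : ∀ y, inn c y → H.Adj x y → ¬ H.Adj y (c (-4))) :
    Cl H S P A := by
  have hq := F3_q6 h hk
  have hl : ∀ v, v ∈ arc c (-5) 6 ↔ v ∈ P := by
    intro v
    rw [mem_arc, F3_P h hk]
    constructor
    · rintro ⟨i, h1, h2, h3⟩
      exact ⟨i, h1, by push_cast at h2; omega, h3⟩
    · rintro ⟨i, h1, h2, h3⟩
      exact ⟨i, h1, by push_cast; omega, h3⟩
  refine h.f3_gen hf hk (zs := []) (l := arc c (-5) 6) List.nodup_nil ?_ ?_ ?_ ?_ ?_ ?_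
  · intro z hz
    exact absurd hz List.not_mem_nil
  · intro v hv
    exact Or.inl ((hl v).1 hv)
  · intro z hz
    exact absurd hz List.not_mem_nil
  · intro W _ _ hW
    refine ⟨arc_nodup h.ctx.bd.cy _ (by have := h.m9; omega), by rw [arc_length], ?_, ?_⟩
    · refine h.outArc fun i h3 h4 => hW _ ?_
      rw [mem_arc]
      exact ⟨i, h3, h4, rfl⟩
    · intro v hv
      obtain ⟨i, -, -, rfl⟩ := mem_arc.1 hv
      exact h.outc _ i
  · intro p hp hpl
    exact absurd ((hl p).2 hp) hpl
  · intro a ha haS _ v hv hav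
    obtain ⟨j, h1, h2, rfl⟩ := mem_arc.1 hv
    push_cast at h2
    have ia := F3_in hk ha
    have hcu : H.Adj (c 1) u := by
      have := hf.cu
      norm_num at this
      exact this
    rcases h.xm_P3 hf hk ha (j := j) (by omega) (by omega) hav with ⟨h3, h4⟩ | ⟨h3, h4⟩
    · refine n1 a ⟨hf.iu, ia, hcu, h3.symm, ?_⟩
      rw [h4] at hav
      norm_num
      exact hav
    · rw [h4] at hav
      exact n2 a ia h3.symm hav

/-- a contact of `u` only -/
private theorem F3_b (h : FC F τ H S P A m c K q k n) (hf : Cf H c 2 u x) (hk : k = 3) {y : V}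
    (hy : Ct H c u y 1) (n2 : ∀ y, inn c y → H.Adj x y → ¬ H.Adj y (c (-4))) :
    Cl H S P A := by
  have hq := F3_q6 h hk
  obtain ⟨hyu, hyx, hy1, hy3⟩ := F3_y h hf hk hy
  have hl : ∀ v, v ∈ arc c (-5) 5 ++ [y] ↔ (∃ i : ℤ, -5 ≤ i ∧ i < 0 ∧ c i = v) ∨ v = y := by
    intro v
    rw [List.mem_append, mem_arc, List.mem_singleton]
    have e1 : ((-5 : ℤ) + ((5 : ℕ) : ℤ)) = 0 := by norm_num
    rw [e1]
  refine h.f3_gen hf hk (zs := [y]) (l := arc c (-5) 5 ++ [y]) (List.nodup_singleton y)
    ?_ ?_ ?_ ?_ ?_ ?_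
  · intro z hz
    rw [List.mem_singleton] at hz
    subst hz
    refine ⟨hy.iy, hyu, hyx, hy1, hy3, Or.inl hy.uy.symm, ?_⟩
    intro z' hz'
    rw [List.mem_singleton] at hz'
    rw [hz']
    exact H.loopless.irrefl z
  · intro v hv
    rcases (hl v).1 hv with ⟨i, h1, h2, h3⟩ | h1
    · exact Or.inl ((F3_P h hk).2 ⟨i, h1, by omega, h3⟩)
    · exact Or.inr (List.mem_singleton.2 h1)
  · intro v hv
    rw [List.mem_singleton] at hv
    exact (hl v).2 (Or.inr hv)
  · intro W hW1 _ hW
    have hout : OutE F τ (rs H W) (c (-1)) y := by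
      have h1 := h.ct_out hy (by omega) hW1 (hW _ ((hl _).2 (Or.inl ⟨-1, by norm_num, by norm_num,
        by norm_num⟩))) (hW _ ((hl _).2 (Or.inr rfl)))
      norm_num at h1
      exact h1
    refine ⟨?_, ?_, ?_, ?_⟩
    · rw [List.nodup_append]
      refine ⟨arc_nodup h.ctx.bd.cy _ (by have := h.m9; omega), List.nodup_singleton y,
        fun a ha b hb => ?_⟩
      rw [List.mem_singleton] at hb
      rw [hb]
      obtain ⟨i, _, _, rfl⟩ := mem_arc.1 ha
      exact hy.iy i
    · rw [List.length_append, arc_length, List.length_singleton]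
    · have e1 : arc c (-5) 5 = arc c (-5) 4 ++ [c (-1)] := by
        have := arc_succ (c := c) (-5) 4
        have e2 : ((-5 : ℤ) + ((4 : ℕ) : ℤ)) = -1 := by norm_num
        rw [e2] at this
        exact this
      have h3 : (arc c (-5) 5).IsChain (OutE F τ (rs H W)) := by
        refine h.outArc fun i h3 h4 => hW _ ?_
        rw [List.mem_append, mem_arc]
        exact Or.inl ⟨i, h3, h4, rfl⟩
      rw [e1] at h3
      have h5 := chain_append h3 hout (List.isChain_singleton y)
      rw [← e1] at h5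
      exact h5
    · intro v hv
      rcases (hl v).1 hv with ⟨i, _, _, rfl⟩ | rfl
      · exact h.outc _ i
      · exact (outE_out hout).2
  · intro p hp hpl w hw
    obtain ⟨i, h1, h2, rfl⟩ := (F3_P h hk).1 hp
    have h3 : i = 0 := by
      by_contra h4
      exact hpl ((hl _).2 (Or.inl ⟨i, h1, by omega, rfl⟩))
    rw [h3] at hw
    have h4 := h.ct_N hy (by omega) (t := 0) (by norm_num) le_rfl hw
    norm_num at h4
    rcases h4 with h4 | h4
    · exact Or.inl ((F3_P h hk).2 ⟨-1, by norm_num, by norm_num, h4.symm⟩)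
    · exact Or.inr (Or.inl h4)
  · intro a ha haS hazs v hv hav
    have ia := F3_in hk ha
    rcases (hl v).1 hv with ⟨j, h1, h2, rfl⟩ | rfl
    · rcases h.xm_P3 hf hk ha (j := j) (by omega) (by omega) hav with ⟨h3, h4⟩ | ⟨h3, h4⟩
      · have hct : Ct H c u a 1 := by
          refine ⟨hf.iu, ia, hy.cu, h3.symm, ?_⟩
          rw [h4] at hav
          norm_num
          exact hav
        have h5 := (h.ct_uniq hct (by omega) hy (by omega)).2.1
        exact hazs (List.mem_singleton.2 h5)
      · rw [h4] at hav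
        exact n2 a ia h3.symm hav
    · exact h.xm_y hf hy.iy hy.uy hyx ha hav

/-- both contacts -/
private theorem F3_c (h : FC F τ H S P A m c K q k n) (hf : Cf H c 2 u x) (hk : k = 3)
    {y y' : V} (hy : Ct H c u y 1) (iy' : inn c y') (hxy' : H.Adj x y')
    (hyc' : H.Adj y' (c (-4))) : Cl H S P A := by
  have hq := F3_q6 h hk
  obtain ⟨hyu, hyx, hy1, hy3⟩ := F3_y h hf hk hy
  obtain ⟨hyu', hyx', hy1', hy3'⟩ := F3_y' h hf hk iy' hxy' hyc'
  obtain ⟨h', hf', hmir⟩ := F3_mir h hf hk
  have hct' := F3_mct h hf hk iy' hxy' hyc'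
  have hyc : H.Adj y (c (-1)) := by
    have := hy.yc
    norm_num at this
    exact this
  have hyy : y ≠ y' := by
    rintro rfl
    exact h.twoPP y hy.iy (-4) (-1) (by omega) (by norm_num) (by norm_num) hyc' hyc
  have nyy : ¬ H.Adj y y' := by
    intro h1
    rcases h.ctx.st.gd.quad y u x y' hy.uy.symm hf.ux hxy' h1.symm with h2 | h2
    · exact hyx h2
    · exact hyu' h2.symm
  have hl : ∀ v, v ∈ [y'] ++ arc c (-4) 4 ++ [y] ↔
      (∃ i : ℤ, -4 ≤ i ∧ i < 0 ∧ c i = v) ∨ v = y ∨ v = y' := by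
    intro v
    rw [List.mem_append, List.mem_append, mem_arc, List.mem_singleton, List.mem_singleton]
    have e1 : ((-4 : ℤ) + ((4 : ℕ) : ℤ)) = 0 := by norm_num
    rw [e1]
    constructor
    · rintro ((h1 | h1) | h1)
      · exact Or.inr (Or.inr h1)
      · exact Or.inl h1
      · exact Or.inr (Or.inl h1)
    · rintro (h1 | h1 | h1)
      · exact Or.inl (Or.inr h1)
      · exact Or.inr h1
      · exact Or.inl (Or.inl h1)
  refine h.f3_gen hf hk (zs := [y, y']) (l := [y'] ++ arc c (-4) 4 ++ [y]) ?_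
    ?_ ?_ ?_ ?_ ?_ ?_
  · simp only [List.nodup_cons, List.mem_singleton, List.not_mem_nil, not_false_eq_true,
      List.nodup_nil, and_true]
    exact hyy
  · intro z hz
    simp only [List.mem_cons, List.not_mem_nil, or_false] at hz
    rcases hz with rfl | rfl
    · refine ⟨hy.iy, hyu, hyx, hy1, hy3, Or.inl hy.uy.symm, ?_⟩
      intro z' hz'
      simp only [List.mem_cons, List.not_mem_nil, or_false] at hz'
      rcases hz' with rfl | rfl
      · exact H.loopless.irrefl _
      · exact nyy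
    · refine ⟨iy', hyu', hyx', hy1', hy3', Or.inr hxy'.symm, ?_⟩
      intro z' hz'
      simp only [List.mem_cons, List.not_mem_nil, or_false] at hz'
      rcases hz' with rfl | rfl
      · exact fun h1 => nyy h1.symm
      · exact H.loopless.irrefl _
  · intro v hv
    rcases (hl v).1 hv with ⟨i, h1, h2, h3⟩ | h1 | h1
    · exact Or.inl ((F3_P h hk).2 ⟨i, by omega, by omega, h3⟩)
    · exact Or.inr (by simp [h1])
    · exact Or.inr (by simp [h1])
  · intro v hv
    simp only [List.mem_cons, List.not_mem_nil, or_false] at hv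
    exact (hl v).2 (Or.inr hv)
  · intro W hW1 hW3 hW
    have hcW : ∀ i : ℤ, -4 ≤ i → i < 0 → c i ∈ W := fun i h1 h2 =>
      hW _ ((hl _).2 (Or.inl ⟨i, h1, h2, rfl⟩))
    have hout : OutE F τ (rs H W) (c (-1)) y := by
      have h1 := h.ct_out hy (by omega) hW1 (by
        have h2 := hcW (-1) (by norm_num) (by norm_num)
        norm_num
        exact h2) (hW _ ((hl _).2 (Or.inr (Or.inl rfl))))
      norm_num at h1
      exact h1
    have hout' : OutE F τ (rs H W) y' (c (-4)) := by
      have e5 : c (4 - -((1 : ℕ) : ℤ)) = c (-4) := by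
        rw [hmir]
        norm_num
      have h1 := h'.ct_out hct' (by omega) (W := W) (by
        change c (4 - 1) ∉ W
        norm_num
        exact hW3) (by
        change c (4 - -((1 : ℕ) : ℤ)) ∈ W
        rw [e5]
        exact hcW (-4) (by norm_num) (by norm_num)) (hW _ ((hl _).2 (Or.inr (Or.inr rfl))))
      change OutE F τ (rs H W) (c (4 - -((1 : ℕ) : ℤ))) y' at h1
      rw [e5] at h1
      exact outE_symm h1
    refine ⟨?_, ?_, ?_, ?_⟩
    · rw [List.nodup_append]
      refine ⟨?_, List.nodup_singleton y, fun a ha b hb => ?_⟩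
      · rw [List.nodup_append]
        refine ⟨List.nodup_singleton y', arc_nodup h.ctx.bd.cy _ (by have := h.m9; omega),
          fun a ha b hb => ?_⟩
        rw [List.mem_singleton] at ha
        rw [ha]
        obtain ⟨i, _, _, rfl⟩ := mem_arc.1 hb
        exact (iy' i).symm
      · rw [List.mem_singleton] at hb
        rw [hb]
        rw [List.mem_append, List.mem_singleton] at ha
        rcases ha with rfl | ha
        · exact hyy.symm
        · obtain ⟨i, _, _, rfl⟩ := mem_arc.1 ha
          exact hy.iy i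
    · rw [List.length_append, List.length_append, arc_length, List.length_singleton,
        List.length_singleton]
    · have e1 : arc c (-4) 4 = arc c (-4) 3 ++ [c (-1)] := by
        have := arc_succ (c := c) (-4) 3
        have e2 : ((-4 : ℤ) + ((3 : ℕ) : ℤ)) = -1 := by norm_num
        rw [e2] at this
        exact this
      have h3 : (arc c (-4) 4).IsChain (OutE F τ (rs H W)) := by
        refine h.outArc fun i h3 h4 => hcW i h3 ?_
        have e2 : ((-4 : ℤ) + ((4 : ℕ) : ℤ)) = 0 := by norm_num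
        rw [e2] at h4
        exact h4
      have e3 : arc c (-4) 4 = c (-4) :: arc c (-3) 3 := by
        have := arc_cons (c := c) (-4) 3
        norm_num at this
        exact this
      have h4 : ([y'] ++ arc c (-4) 4).IsChain (OutE F τ (rs H W)) := by
        rw [e3, List.singleton_append, List.isChain_cons_cons, ← e3]
        exact ⟨hout', h3⟩
      have e4 : [y'] ++ arc c (-4) 4 = ([y'] ++ arc c (-4) 3) ++ [c (-1)] := by
        rw [e1, List.append_assoc]
      rw [e4] at h4
      have h5 := chain_append h4 hout (List.isChain_singleton y)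
      rw [← e4] at h5
      exact h5
    · intro v hv
      rcases (hl v).1 hv with ⟨i, _, _, rfl⟩ | rfl | rfl
      · exact h.outc _ i
      · exact (outE_out hout).2
      · exact (outE_out hout').1
  · intro p hp hpl w hw
    obtain ⟨i, h1, h2, rfl⟩ := (F3_P h hk).1 hp
    have h3 : i = 0 ∨ i = -5 := by
      by_contra h4
      exact hpl ((hl _).2 (Or.inl ⟨i, by omega, by omega, rfl⟩))
    rcases h3 with h3 | h3
    · rw [h3] at hw
      have h4 := h.ct_N hy (by omega) (t := 0) (by norm_num) le_rfl hw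
      norm_num at h4
      rcases h4 with h4 | h4
      · exact Or.inl ((F3_P h hk).2 ⟨-1, by norm_num, by norm_num, h4.symm⟩)
      · exact Or.inr (Or.inl h4)
    · have e5 : c (4 - 0) = c (-5) := by
        rw [hmir]
        norm_num
      rw [h3, ← e5] at hw
      have h4 := h'.ct_N hct' (by omega) (t := 0) (by norm_num) le_rfl hw
      have e6 : c (4 - (0 - 1)) = c (-4) := by
        rw [hmir]
        norm_num
      have e7 : c (4 - (0 + 1)) = c 3 := by norm_num
      change w = c (4 - (0 - 1)) ∨ w = c (4 - (0 + 1)) at h4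
      rw [e6, e7] at h4
      rcases h4 with h4 | h4
      · exact Or.inl ((F3_P h hk).2 ⟨-4, by norm_num, by norm_num, h4.symm⟩)
      · exact Or.inr (Or.inr h4)
  · intro a ha haS hazs v hv hav
    have ia := F3_in hk ha
    rcases (hl v).1 hv with ⟨j, h1, h2, rfl⟩ | rfl | rfl
    · rcases h.xm_P3 hf hk ha (j := j) (by omega) (by omega) hav with ⟨h3, h4⟩ | ⟨h3, h4⟩
      · have hct : Ct H c u a 1 := by
          refine ⟨hf.iu, ia, hy.cu, h3.symm, ?_⟩
          rw [h4] at hav
          norm_num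
          exact hav
        have h5 := (h.ct_uniq hct (by omega) hy (by omega)).2.1
        exact hazs (by simp [h5])
      · rw [h4] at hav
        have hct := F3_mct h hf hk ia h3.symm hav
        have h5 := (h'.ct_uniq hct (by omega) hct' (by omega)).2.1
        exact hazs (by simp [h5])
    · exact h.xm_y hf hy.iy hy.uy hyx ha hav
    · exact h.xm_y' hf hk iy' hxy' hyu' ha hav

/-- `k = 3` (so `q = 6`, `m = 9`).  Let `y` be a vertex inside with `u ~ y ~ c (-1)` (if there is
one; it is unique, no 4-cycles), and `y'` one with `x ~ y' ~ c (-4)`.  `FC.f3_gen`: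
no `y`, no `y'`: `zs = []`, `l = arc c (-5) 6`;
only `y`: `zs = [y]`, `l = arc c (-5) 5 ++ [y]`;
only `y'`: the mirror image (`FC.mirror`, `Cf.mirror`);
both: `zs = [y, y']`, `l = [y'] ++ arc c (-4) 4 ++ [y]`.
(`y ≠ x`, `y' ≠ u` by `FC.zp3'`, `FC.zp3`; `y ≠ y'` by `twoPP`; `y`, `y'` are not adjacent
(4-cycle `y, u, x, y'`); `FC.ct_N`, `FC.ct_out` with `s = 1`, also for the mirror image.)
`hAl`: for `v = y`, `y'` by `FC.xm_y`, `FC.xm_y'`; for `v ∈ P` by `FC.xm_P3` and the uniqueness of
`y`, `y'` (no 4-cycles; or there is none). -/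
theorem cl_F3 (h : FC F τ H S P A m c K q k n) (hf : Cf H c 2 u x) (hk : k = 3) :
    Cl H S P A := by
  by_cases h1 : ∃ y, Ct H c u y 1
  · obtain ⟨y, hy⟩ := h1
    by_cases h2 : ∃ y', inn c y' ∧ H.Adj x y' ∧ H.Adj y' (c (-4))
    · obtain ⟨y', h3, h4, h5⟩ := h2
      exact F3_c h hf hk hy h3 h4 h5
    · exact F3_b h hf hk hy fun y' h3 h4 h5 => h2 ⟨y', h3, h4, h5⟩
  · by_cases h2 : ∃ y', inn c y' ∧ H.Adj x y' ∧ H.Adj y' (c (-4))
    · obtain ⟨y', h3, h4, h5⟩ := h2
      obtain ⟨h', hf', hmir⟩ := F3_mir h hf hk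
      refine F3_b h' hf' hk (F3_mct h hf hk h3 h4 h5) fun z iz huz hz => ?_
      have iz' : inn c z := by
        intro i hi
        refine iz (4 - i) ?_
        change c (4 - (4 - i)) = z
        rw [sub_sub_cancel]
        exact hi
      have hcu : H.Adj (c 1) u := by
        have := hf.cu
        norm_num at this
        exact this
      refine h1 ⟨z, hf.iu, iz', hcu, huz, ?_⟩
      change H.Adj z (c (4 - -4)) at hz
      rw [hmir] at hz
      norm_num at hz
      norm_num
      exact hz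
    · exact F3_a h hf hk (fun y hy => h1 ⟨y, hy⟩) fun y' h3 h4 h5 => h2 ⟨y', h3, h4, h5⟩

end Pool.Agent.Lib.MP_a33b01_co_G5
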