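import Pool.Agent.Lib.MP_a33b01_co_G5.ArB

set_option autoImplicit false

/-!
# MP_a33b01_co, project G5: the final reduction without conflicts, first case
-/

namespace Pool.Agent.Lib.MP_a33b01_co_G5

open Classical
open Pool.Agent.Lib.MP_a33b01_co (Sph sk cn supp EvenG Removes Wg)

variable {V : Type} {F K : Finset (Finset V)} {τ : Finset V} {H : SimpleGraph V}
  {S P A : Finset V} {m q k n : ℕ} {c : ℤ → V}

/-- a decomposition of an arc -/
theorem FN_arc_split {a : ℤ} {N : ℕ} {l₁ l₂ : List V} {x : V} (h : arc c a N = l₁ ++ x :: l₂) :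
    l₁.length < N ∧ x = c (a + l₁.length) ∧
      ∀ y ∈ l₁, ∃ j : ℤ, a ≤ j ∧ j < a + l₁.length ∧ c j = y := by
  have hlen : l₁.length + (l₂.length + 1) = N := by
    have h1 := congrArg List.length h
    rw [arc_length, List.length_append, List.length_cons] at h1
    exact h1.symm
  have h2 : ∀ (i : ℕ) (hi : i < (l₁ ++ x :: l₂).length), (l₁ ++ x :: l₂)[i] = c (a + i) := by
    intro i hi
    have hi' : i < (arc c a N).length := by
      rw [h]
      exact hi
    have h3 := TpE1_get (c := c) a N i hi'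
    rw [← h3]
    simp only [h]
  refine ⟨by omega, ?_, ?_⟩
  · have h4 := h2 l₁.length (by simp)
    rw [← h4]
    simp
  · intro y hy
    obtain ⟨i, hi, he⟩ := List.getElem_of_mem hy
    refine ⟨a + i, by omega, by omega, ?_⟩
    rw [← he, ← h2 i (by simp; omega), List.getElem_append_left hi]

/-- the removal of the arc `c 1, …, c e`, one after the other: the condition of `rem_list` -/
theorem FN_arc_cond (h : FC F τ H S P A m c K q k n) {e : ℤ} (he : e ≤ k) {l₁ l₂ : List V}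
    {x : V} (hl : arc c 1 e.toNat = l₁ ++ x :: l₂) :
    (l₁.toFinset.filter fun y => H.Adj x y).card ≤ fv H P A x := by
  obtain ⟨h1, h2, h3⟩ := FN_arc_split hl
  have hq := h.q2
  have hk := h.k3
  rcases Nat.eq_zero_or_pos l₁.length with h0 | h0
  · rw [List.length_eq_zero_iff.1 h0]
    simp
  · have h4 : 1 ≤ fv H P A x := by
      rw [h2]
      by_cases hA : c (1 + (l₁.length : ℤ)) ∈ A
      · rw [h.valA hA]
      · by_cases hkk : 1 + (l₁.length : ℤ) = k
        · rw [hkk, h.val1.2]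
        · rw [h.val2 (by omega) (by omega) hA]
          norm_num
    refine le_trans ?_ h4
    rw [Finset.card_le_one]
    have h5 : ∀ y ∈ l₁.toFinset.filter (fun y => H.Adj x y), y = c (l₁.length : ℤ) := by
      intro y hy
      rw [Finset.mem_filter, List.mem_toFinset] at hy
      obtain ⟨j, hj1, hj2, hj3⟩ := h3 y hy.1
      have h6 : H.Adj (c j) (c (1 + (l₁.length : ℤ))) := by
        rw [← h2, hj3]
        exact hy.2.symm
      rcases noch_idx h.ctx h.noch (by omega) hj2 (by omega) h6 with h7 | h7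
      · rw [← hj3]
        congr 1
        omega
      · omega
    intro y hy y' hy'
    rw [h5 y hy, h5 y' hy']

/-- the removal of the arc `c 1, …, c e` -/
theorem FN_rem_arc (h : FC F τ H S P A m c K q k n) {e : ℤ} (he : e ≤ k) :
    Rem H (arc c 1 e.toNat).toFinset (fv H P A) 0 := by
  have hm := h.ctx.hm
  exact rem_list _ (arc_nodup h.ctx.bd.cy 1 (by omega)) _ fun l₁ l₂ x hl => FN_arc_cond h he hl

/-- the removal of the arc `c 1, …, c e` and of the exceptional vertex `z` -/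
theorem FN_rem_arc_z (h : FC F τ H S P A m c K q k n) {e : ℤ} (he : e ≤ k) {z : V}
    (hq : q = 6) (hz : Zp H c z) : Rem H (arc c 1 e.toNat ++ [z]).toFinset (fv H P A) 0 := by
  have hm := h.ctx.hm
  have hnd : (arc c 1 e.toNat ++ [z]).Nodup := by
    rw [List.nodup_append]
    refine ⟨arc_nodup h.ctx.bd.cy 1 (by omega), List.nodup_singleton z, ?_⟩
    intro a ha b hb hab
    rw [List.mem_singleton] at hb
    obtain ⟨i, _, _, hi⟩ := mem_arc.1 ha
    exact hz.iz i (by rw [hi, hab, hb])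
  refine rem_list _ hnd _ fun l₁ l₂ x hl => ?_
  rcases List.eq_nil_or_concat' l₂ with h0 | ⟨l₃, w, h0⟩
  · rw [h0] at hl
    have h1 := List.append_inj' hl (by simp)
    obtain ⟨h2, h3⟩ := h1
    have h4 : z = x := by simpa using h3
    rw [← h4, h.zp_val hq hz, Finset.card_le_one]
    have h5 : ∀ y ∈ l₁.toFinset.filter (fun y => H.Adj z y), y = c 1 := by
      intro y hy
      rw [Finset.mem_filter, List.mem_toFinset, ← h2] at hy
      obtain ⟨i, hi1, hi2, hi3⟩ := mem_arc.1 hy.1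
      by_contra hne
      have hi4 : i ≠ 1 := by
        rintro rfl
        exact hne hi3.symm
      refine h.two z hz.iz 1 i le_rfl (by omega) (by omega) hz.z1 ?_
      rw [hi3]
      exact hy.2
    intro y hy y' hy'
    rw [h5 y hy, h5 y' hy']
  · rw [h0] at hl
    have h1 : arc c 1 e.toNat ++ [z] = (l₁ ++ x :: l₃) ++ [w] := by
      rw [hl]
      simp
    have h2 := List.append_inj' h1 (by simp)
    exact FN_arc_cond h he h2.1

/-- The last step, in all the cases without a save. -/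
theorem FN_last (h : FC F τ H S P A m c K q k n) {e : ℤ} {D Z : Finset V} {l : List V}
    (ha : AH H S P A q k c e D (S \ D) Z l) (hl : LH F τ H ((S \ D) ∪ l.toFinset) l)
    (hlen : l.length ≤ P.card) (hDS : D ⊆ S) (hrem : Rem H D (fv H P A) 0) : Cl H S P A := by
  have h1 : c 1 ∈ D := (ha.hD _).2 (Or.inl ⟨1, le_rfl, ha.e1, rfl⟩)
  refine gdel' (S' := S \ D) (D := D) (l := l) (k₀ := 0) h.ctx.ih h.ctx.st
    (Finset.union_sdiff_of_subset hDS) Finset.disjoint_sdiff ?_ ?_ hl.nd hl.h6 hl.ch hl.out ?_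
    (fun a h2 b h3 => h.arc_ind ha h2 h3) (fun a h2 x hx => h.arc_hAl ha h2 hx)
    (fun u hu => h.arc_h1 ha hu) hrem (by omega)
  · rw [← h.ctx.hn]
    unfold mu
    have h2 : (S \ D).card < S.card :=
      Finset.card_lt_card (Finset.sdiff_ssubset hDS ⟨_, h1⟩)
    have h3 := l.toFinset_card_le
    omega
  · intro x hx
    rcases ha.lP x hx with h2 | h2
    · exact Or.inl h2
    · exact Or.inr ((ha.hD x).2 (Or.inr h2))
  · intro x hx hxl
    exact h.arc_out ha hx hxl _

/-- A conflict with the centre `c i`, `1 < i ≤ 2 r`, has `i = 2 s`: for odd `i` the vertex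
`c (i - 1)` is in `A`, so `c i` is not, against `FC.cf_A`. -/
theorem FC.even_cf (h : FC F τ H S P A m c K q k n) {r : ℤ}
    (hr : ∀ s : ℤ, 1 ≤ s → s ≤ r → c (2 * s) ∈ A) {i : ℤ} (h1 : 2 ≤ i) (h2 : i ≤ 2 * r + 1)
    (h3 : i ≤ k) {u x : V} (hf : Cf H c i u x) : ∃ s : ℤ, i = 2 * s ∧ 1 ≤ s ∧ s ≤ r := by
  have hA := h.cf_A hf (by omega) h3
  rcases Int.even_or_odd' i with ⟨s, hs | hs⟩
  · exact ⟨s, hs, by omega, by omega⟩
  · exfalso
    have h4 := hr s (by omega) (by omega)
    have h5 := (h.ctx.Aind h4).1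
    rw [hs] at hA
    exact h5 hA

/-- `D = {c 1, …, c (2 r)}` (and `z`, if there is `z` with `Zp H c z` and `q = 6`),
`S' = S \ D`, the path of `FC.ar0` or `FC.ar1`.  Conflicts with centre `i ≤ 2 r - 1`:
`FC.even_cf` and `hno`.  `ends`: `c (2 r) ∈ A`, so `c (2 r + 1) ∉ A`.
`gdel'` (`FC.arc_ind`, `FC.arc_hAl`, `FC.arc_h1`, `FC.arc_out`) with `k₀ = 0`; the removal of `D`:
`rem_list` for the list `arc c 1 (2 r)` (`++ [z]`); the earlier neighbour of `c i` is `c (i - 1)`
(`noch_idx`), values `FC.valA`, `FC.val2`, `FC.val1` (`c 1` is the first); `z` has value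
`1` and its only neighbour before is `c 1` (`two`).  `hmu`: `|l| ≤ |P|`, `|S'| < |S|`. -/
theorem cl_FN (h : FC F τ H S P A m c K q k n) {r : ℤ} (hr1 : 1 ≤ r)
    (hr : ∀ s : ℤ, 1 ≤ s → s ≤ r → c (2 * s) ∈ A) (hrk : 2 * r + 2 ≤ k)
    (hr2 : c (2 * r + 2) ∉ A)
    (hno : ∀ s : ℤ, 1 ≤ s → s < r → ∀ u x, ¬ Cf H c (2 * s) u x) : Cl H S P A := by
  have hk := h.k3
  have hcf : ∀ i : ℤ, 2 ≤ i → i + 1 ≤ 2 * r → ∀ u x, ¬ Cf H c i u x := by
    intro i h1 h2 u x hf
    obtain ⟨s, hs, hs1, hs2⟩ := h.even_cf hr h1 (by omega) (by omega) hf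
    rw [hs] at hf
    exact hno s hs1 (by omega) u x hf
  have hmem : ∀ v, v ∈ (arc c 1 (2 * r).toNat).toFinset ↔
      ∃ i : ℤ, 1 ≤ i ∧ i ≤ 2 * r ∧ c i = v := by
    intro v
    rw [List.mem_toFinset, mem_arc]
    constructor
    · rintro ⟨i, h1, h2, h3⟩
      exact ⟨i, h1, by omega, h3⟩
    · rintro ⟨i, h1, h2, h3⟩
      exact ⟨i, h1, by omega, h3⟩
  have hsub : (arc c 1 (2 * r).toNat).toFinset ⊆ S := by
    intro v hv
    obtain ⟨i, h1, h2, h3⟩ := (hmem v).1 hv
    rw [← h3]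
    exact (h.ctx.cS h1 (by omega)).1
  have hA1 : c (2 * r + 1) ∉ A := (h.ctx.Aind (hr r hr1 le_rfl)).1
  have hends : ∀ S' : Finset V, 2 * r = k ∨ c (2 * r + 1) ∉ S' ∨
      (2 * r + 1 < k ∧ c (2 * r + 1) ∉ A ∧ c (2 * r + 2) ∉ A) := fun S' =>
    Or.inr (Or.inr ⟨by omega, hA1, hr2⟩)
  by_cases hz : ∃ z, q = 6 ∧ Zp H c z
  · obtain ⟨z, hq, hz⟩ := hz
    have hzS : z ∈ S := (h.deg hz.iz ⟨_, hz.z1⟩).1
    have e1 : (arc c 1 (2 * r).toNat ++ [z]).toFinset =
        (arc c 1 (2 * r).toNat).toFinset ∪ {z} := by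
      rw [List.toFinset_append]
      simp
    have hrem := FN_rem_arc_z h (e := 2 * r) (by omega) hq hz
    rw [e1] at hrem
    obtain ⟨ha, hl, hlen⟩ := h.ar1 (e := 2 * r)
      (D := (arc c 1 (2 * r).toNat).toFinset ∪ {z})
      (S' := S \ ((arc c 1 (2 * r).toNat).toFinset ∪ {z})) (by omega) (by omega)
      Finset.sdiff_subset (by
        intro v
        rw [Finset.mem_union, hmem]) (by
        intro v hv hv'
        exact (Finset.mem_sdiff.1 hv').2 hv) hcf (hends _) hq hz (by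
        intro h1
        omega)
    refine FN_last h ha hl hlen ?_ hrem
    refine Finset.union_subset hsub ?_
    rw [Finset.singleton_subset_iff]
    exact hzS
  · obtain ⟨ha, hl, hlen⟩ := h.ar0 (e := 2 * r) (D := (arc c 1 (2 * r).toNat).toFinset)
      (S' := S \ (arc c 1 (2 * r).toNat).toFinset) (by omega) (by omega)
      Finset.sdiff_subset hmem (by
        intro v hv hv'
        exact (Finset.mem_sdiff.1 hv').2 hv) hcf (hends _) (by
        intro z hq hz'
        exact hz ⟨z, hq, hz'⟩) (by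
        intro h1
        omega)
    exact FN_last h ha hl hlen hsub (FN_rem_arc h (by omega))

end Pool.Agent.Lib.MP_a33b01_co_G5
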