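import Pool.Agent.Lib.MP_a33b01_co_G5.ArB
import Pool.Agent.Lib.MP_a33b01_co_G5.FN

set_option autoImplicit false

/-!
# MP_a33b01_co, project G5: the final reduction with a conflict whose centre is not c 2
-/

namespace Pool.Agent.Lib.MP_a33b01_co_G5

open Classical
open Pool.Agent.Lib.MP_a33b01_co (Sph sk cn supp EvenG Removes Wg)

variable {V : Type} {F K : Finset (Finset V)} {τ : Finset V} {H : SimpleGraph V}
  {S P A : Finset V} {m q k n : ℕ} {c : ℤ → V} {u x : V}

private theorem FS_rem {G : SimpleGraph V} (g : ℕ → V) (N : ℕ)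
    (hinj : ∀ i < N, ∀ j < N, g i = g j → i = j) (f : V → ℕ)
    (h : ∀ j < N, (((Finset.range j).image g).filter fun y => G.Adj (g j) y).card ≤ f (g j)) :
    Rem G ((Finset.range N).image g) f 0 := by
  have e : ∀ j : ℕ, ((List.range j).map g).toFinset = (Finset.range j).image g := by
    intro j
    ext y
    simp
  have key := rem_list (G := G) ((List.range N).map g) (List.Nodup.map_on (fun i hi j hj hij =>
    hinj i (List.mem_range.1 hi) j (List.mem_range.1 hj) hij) List.nodup_range) f ?_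
  · rwa [e] at key
  · intro l₁ l₂ x hl
    have hlen := congrArg List.length hl
    simp only [List.length_map, List.length_range, List.length_append, List.length_cons] at hlen
    have hj : l₁.length < N := by omega
    have e1 : l₁ = (List.range l₁.length).map g := by
      have h1 := congrArg (List.take l₁.length) hl
      rw [List.take_left, ← List.map_take, List.take_range, min_eq_left hj.le] at h1
      exact h1.symm
    have e2 : x = g l₁.length := by
      have h1 := congrArg (fun L => L[l₁.length]?) hl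
      simp only [List.getElem?_map, List.getElem?_range hj, Option.map_some,
        List.getElem?_append_right le_rfl, Nat.sub_self, List.getElem?_cons_zero,
        Option.some.injEq] at h1
      exact h1.symm
    rw [e2, e1, e, List.length_map, List.length_range]
    exact h _ hj

private theorem FS_ne (h : FC F τ H S P A m c K q k n) {i j : ℤ} (h1 : 1 ≤ i) (h2 : i ≤ k)
    (h3 : 1 ≤ j) (h4 : j ≤ k) (he : c i = c j) : i = j :=
  h.ctx.inj (by omega) h2 (by omega) h4 he

private theorem FS_val (h : FC F τ H S P A m c K q k n) {i : ℤ} (h1 : 1 ≤ i) (h2 : i < k) :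
    1 ≤ fv H P A (c i) := by
  by_cases hA : c i ∈ A
  · rw [h.valA hA]
  · rcases h1.lt_or_eq with h3 | h3
    · rw [h.val2 h3 h2 hA]
      norm_num
    · rw [← h3, h.val1.1]

/-- the removal of the arc -/
private theorem FS_arc (h : FC F τ H S P A m c K q k n) {t : ℤ} {N : ℕ} (hN : (N : ℤ) = 2 * t - 2)
    (htk : 2 * t + 1 ≤ k) :
    Rem H ((Finset.range N).image fun j : ℕ => c (2 * t - 2 - j))
      (fun y => if H.Adj (c (2 * t - 1)) y then fv H P A y - 1 else fv H P A y) 0 := by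
  have hq : 1 ≤ q := h.ctx.q1
  refine FS_rem (fun j : ℕ => c (2 * t - 2 - j)) N (fun i hi j hj hij => ?_) _ (fun j hj => ?_)
  · have h1 := FS_ne h (i := 2 * t - 2 - i) (j := 2 * t - 2 - j) (by omega) (by omega)
      (by omega) (by omega) hij
    omega
  · rcases Nat.eq_zero_or_pos j with hj0 | hj0
    · subst hj0
      rw [Finset.range_zero, Finset.image_empty, Finset.filter_empty, Finset.card_empty]
      exact Nat.zero_le _
    · have hval : 1 ≤ fv H P A (c (2 * t - 2 - j)) := FS_val h (by omega) (by omega)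
      have hna : ¬ H.Adj (c (2 * t - 1)) (c (2 * t - 2 - j)) := by
        intro hadj
        rcases noch_idx h.ctx h.noch (i := 2 * t - 2 - j) (j := 2 * t - 1) (by omega) (by omega)
          (by omega) hadj.symm with h1 | h1
        · omega
        · omega
      rw [if_neg hna]
      refine le_trans ?_ hval
      rw [Finset.card_le_one]
      have key : ∀ y ∈ ((Finset.range j).image fun j : ℕ => c (2 * t - 2 - j)).filter
          (fun y => H.Adj (c (2 * t - 2 - j)) y), y = c (2 * t - 2 - j + 1) := by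
        intro y hy
        rw [Finset.mem_filter, Finset.mem_image] at hy
        obtain ⟨⟨j', hj', rfl⟩, hadj⟩ := hy
        rw [Finset.mem_range] at hj'
        rcases noch_idx h.ctx h.noch (i := 2 * t - 2 - j) (j := 2 * t - 2 - j') (by omega)
          (by omega) (by omega) hadj with h1 | h1
        · rw [h1]
        · omega
      intro a ha b hb
      rw [key a ha, key b hb]

private theorem FS_core (h : FC F τ H S P A m c K q k n) {t : ℤ} (ht : 2 ≤ t)
    (htk : 2 * t + 1 ≤ k) (hr : ∀ s : ℤ, 1 ≤ s → s ≤ t → c (2 * s) ∈ A)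
    (hf : Cf H c (2 * t) u x) {Z D₁ S' : Finset V} {l : List V}
    (hD₁ : ∀ y, y ∈ D₁ ↔ (∃ i : ℤ, 1 ≤ i ∧ i ≤ 2 * t - 2 ∧ c i = y) ∨ y ∈ Z)
    (hS' : S' = S \ insert (c (2 * t)) (insert (c (2 * t - 1)) D₁))
    (hZ : ∀ z ∈ Z, inn c z ∧ z ∈ S ∧ 1 ≤ fv H P A z)
    (ha : AH H S P A q k c (2 * t - 1) (insert (c (2 * t - 1)) D₁) S' Z l)
    (hL : LH F τ H (S' ∪ l.toFinset) l) (hlen : l.length ≤ P.card)
    (hrem : Rem H D₁
      (fun y => if H.Adj (c (2 * t - 1)) y then fv H P A y - 1 else fv H P A y) 0) :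
    Cl H S P A := by
  have hq : 1 ≤ q := h.ctx.q1
  have hwA : c (2 * t) ∈ A := hr t (by omega) le_rfl
  have hvS : c (2 * t - 1) ∈ S := (h.ctx.cS (by omega) (by omega)).1
  have hvP : c (2 * t - 1) ∉ P := (h.ctx.cS (by omega) (by omega)).2
  have hwS : c (2 * t) ∈ S := (h.ctx.cS (by omega) (by omega)).1
  have hvZ : c (2 * t - 1) ∉ Z := fun h1 => (hZ _ h1).1 _ rfl
  have hwZ : c (2 * t) ∉ Z := fun h1 => (hZ _ h1).1 _ rfl
  have hvD : c (2 * t - 1) ∉ D₁ := by
    rw [hD₁]
    rintro (⟨i, h1, h2, h3⟩ | h1)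
    · have := FS_ne h h1 (by omega) (by omega) (by omega) h3
      omega
    · exact hvZ h1
  have hwD : c (2 * t) ∉ insert (c (2 * t - 1)) D₁ := by
    rw [Finset.mem_insert, hD₁]
    rintro (h1 | ⟨i, h1, h2, h3⟩ | h1)
    · have := FS_ne h (by omega) (by omega) (by omega) (by omega) h1
      omega
    · have := FS_ne h h1 (by omega) (by omega) (by omega) h3
      omega
    · exact hwZ h1
  have hDS : D₁ ⊆ S := by
    intro y hy
    rcases (hD₁ y).1 hy with ⟨i, h1, h2, rfl⟩ | h1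
    · exact (h.ctx.cS h1 (by omega)).1
    · exact (hZ y h1).2.1
  have hvl : c (2 * t - 1) ∉ l := by
    intro h1
    rcases ha.lP _ h1 with h2 | h2
    · exact hvP h2
    · exact hvZ h2
  have hwS' : c (2 * t) ∉ S' := by
    rw [hS', Finset.mem_sdiff]
    exact fun h1 => h1.2 (Finset.mem_insert_self _ _)
  have hvS' : c (2 * t - 1) ∉ S' := by
    rw [hS', Finset.mem_sdiff]
    exact fun h1 => h1.2 (Finset.mem_insert_of_mem (Finset.mem_insert_self _ _))
  have hS'S : S' ⊆ S := by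
    rw [hS']
    exact Finset.sdiff_subset
  have hZD : ∀ z ∈ Z, z ∈ D₁ := fun z hz => (hD₁ z).2 (Or.inr hz)
  have hSD : insert (c (2 * t)) (insert (c (2 * t - 1)) D₁ ∪ S') = S := by
    rw [hS', ← Finset.insert_union]
    refine Finset.union_sdiff_of_subset ?_
    intro y hy
    rw [Finset.mem_insert, Finset.mem_insert] at hy
    rcases hy with rfl | rfl | hy
    · exact hwS
    · exact hvS
    · exact hDS hy
  have hd : Disjoint (insert (c (2 * t - 1)) D₁) S' := by
    rw [Finset.disjoint_left]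
    intro y hy hy'
    rw [hS', Finset.mem_sdiff] at hy'
    exact hy'.2 (Finset.mem_insert_of_mem hy)
  have hmu : mu S' l.toFinset < n := by
    have h1 : S'.card < S.card := Finset.card_lt_card
      ⟨hS'S, fun h2 => hwS' (h2 hwS)⟩
    have h2 : l.toFinset.card ≤ P.card := (List.toFinset_card_le l).trans hlen
    have h3 := h.ctx.hn
    unfold mu at h3 ⊢
    omega
  have hvw : H.Adj (c (2 * t - 1)) (c (2 * t)) := by
    have h1 := h.ctx.bd.cy.adj (2 * t - 1)
    have e : 2 * t - 1 + 1 = 2 * t := by ring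
    rwa [e] at h1
  have hwN : ∀ y ∈ D₁, ¬ H.Adj (c (2 * t)) y := by
    intro y hy hadj
    have hy' := (hD₁ y).1 hy
    rcases h.cf_N hf hadj with h1 | h1
    · exact hvD (h1 ▸ hy)
    · rw [h1] at hy'
      rcases hy' with ⟨i, h2, h3, h4⟩ | h2
      · have := FS_ne h h2 (by omega) (by omega) (by omega) h4
        omega
      · exact (hZ _ h2).1 _ rfl
  have hw1 : (S'.filter fun y => H.Adj (c (2 * t)) y).card ≤ 1 := by
    rw [Finset.card_le_one]
    have key : ∀ y ∈ S'.filter (fun y => H.Adj (c (2 * t)) y), y = c (2 * t + 1) := by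
      intro y hy
      rw [Finset.mem_filter] at hy
      rcases h.cf_N hf hy.2 with h1 | h1
      · exact absurd hy.1 (h1 ▸ hvS')
      · exact h1
    intro a ha' b hb
    rw [key a ha', key b hb]
  have hv2 : fv H P A (c (2 * t - 1)) = 2 := by
    refine h.val2 (by omega) (by omega) ?_
    exact (h.ctx.Aind hwA).2
  have hleg : ∀ y ∈ D₁, H.Adj (c (2 * t - 1)) y → 1 ≤ fv H P A y := by
    intro y hy _
    rcases (hD₁ y).1 hy with ⟨i, h1, h2, rfl⟩ | h1
    · exact FS_val h h1 (by omega)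
    · exact (hZ y h1).2.2
  have hk : 2 ≤ D₁.card := by
    have h1 : c 1 ∈ D₁ := (hD₁ _).2 (Or.inl ⟨1, le_rfl, by omega, rfl⟩)
    have h2 : c 2 ∈ D₁ := (hD₁ _).2 (Or.inl ⟨2, by norm_num, by omega, rfl⟩)
    refine Finset.one_lt_card.2 ⟨c 1, h1, c 2, h2, fun h3 => ?_⟩
    have := FS_ne h (by norm_num) (by omega) (by norm_num) (by omega) h3
    omega
  refine gsaveE h.ctx.ih h.ctx.st hvD hvl ?_ hSD hd hmu (fun y hy => ?_) hL.nd hL.h6 hL.ch
    hL.out (fun y hy hyl => h.arc_out ha hy hyl _) (fun a ha1 b hb => h.arc_ind ha ha1 hb)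
    (fun a ha1 y hy => h.arc_hAl ha ha1 hy) hvw hwA hwN hw1 hv2
    (fun y hy => h.arc_h1 ha hy) hleg hrem hk
  · rw [Finset.mem_union]
    rintro (h1 | h1)
    · exact hwD h1
    · exact hwS' h1
  · exact (ha.lP y hy).imp id (hZD y)

/-- The first conflict has the centre `c (2 t)`, `t ≥ 2`.  `DelSave (c (2 t - 1), c (2 t))`, then
delete `c (2 t - 2), …, c 1` (and `z` with `Zp H c z`, if it exists and `q = 6`), and
`c (2 t)` at the end: `gsaveE` with `v = c (2 t - 1)`, `w = c (2 t)`,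
`D₁ = {c 1, …, c (2 t - 2)}` (`∪ {z}`), `S' = S \ ({w} ∪ D)`, `D = insert v D₁`; `FC.ar0`,
`FC.ar1` with `e = 2 t - 1 < k` (`c (e + 1) ∉ S'`); conflicts with centre `i ≤ 2 t - 2`:
`FC.even_cf` and `hno`.  `hw1`, `hwN`: `FC.cf_N`.  `hv2`: `FC.val2`.  `hrem`: `rem_list` for the
list `c (2 t - 2), …, c 1` (`++ [z]`); `c (2 t - 2) ∈ A` has value `0` after the save and no
earlier neighbour; the others have one earlier neighbour and value at least one (`c (2 t - 1)`
is adjacent to none of them: `noch_idx`, `two`). -/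
theorem cl_FS (h : FC F τ H S P A m c K q k n) {t : ℤ} (ht : 2 ≤ t) (htk : 2 * t + 1 ≤ k)
    (hr : ∀ s : ℤ, 1 ≤ s → s ≤ t → c (2 * s) ∈ A) (hf : Cf H c (2 * t) u x)
    (hno : ∀ s : ℤ, 1 ≤ s → s < t → ∀ u x, ¬ Cf H c (2 * s) u x) : Cl H S P A := by
  have hq : 1 ≤ q := h.ctx.q1
  obtain ⟨N, hN⟩ : ∃ N : ℕ, (N : ℤ) = 2 * t - 2 := ⟨(2 * t - 2).toNat, by omega⟩
  have hD0 : ∀ y, y ∈ ((Finset.range N).image fun j : ℕ => c (2 * t - 2 - j)) ↔
      ∃ i : ℤ, 1 ≤ i ∧ i ≤ 2 * t - 2 ∧ c i = y := by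
    intro y
    rw [Finset.mem_image]
    constructor
    · rintro ⟨j, hj, rfl⟩
      rw [Finset.mem_range] at hj
      exact ⟨2 * t - 2 - j, by omega, by omega, rfl⟩
    · rintro ⟨i, h1, h2, rfl⟩
      refine ⟨(2 * t - 2 - i).toNat, ?_, ?_⟩
      · rw [Finset.mem_range]
        omega
      · have e : 2 * t - 2 - ((2 * t - 2 - i).toNat : ℤ) = i := by omega
        rw [e]
  have hcf : ∀ i : ℤ, 2 ≤ i → i + 1 ≤ 2 * t - 1 → ∀ u x, ¬ Cf H c i u x := by
    intro i h1 h2 u x hc
    obtain ⟨s, rfl, hs1, hs2⟩ := h.even_cf hr h1 (by omega) (by omega) hc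
    exact hno s hs1 (by omega) u x hc
  have hins : ∀ (D₁ Z : Finset V), (∀ y, y ∈ D₁ ↔
      (∃ i : ℤ, 1 ≤ i ∧ i ≤ 2 * t - 2 ∧ c i = y) ∨ y ∈ Z) →
      ∀ y, y ∈ insert (c (2 * t - 1)) D₁ ↔
        (∃ i : ℤ, 1 ≤ i ∧ i ≤ 2 * t - 1 ∧ c i = y) ∨ y ∈ Z := by
    intro D₁ Z hD y
    rw [Finset.mem_insert, hD]
    constructor
    · rintro (rfl | ⟨i, h1, h2, h3⟩ | h1)
      · exact Or.inl ⟨2 * t - 1, by omega, le_rfl, rfl⟩
      · exact Or.inl ⟨i, h1, by omega, h3⟩
      · exact Or.inr h1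
    · rintro (⟨i, h1, h2, rfl⟩ | h1)
      · rcases h2.lt_or_eq with h3 | h3
        · exact Or.inr (Or.inl ⟨i, h1, by omega, rfl⟩)
        · exact Or.inl (by rw [h3])
      · exact Or.inr (Or.inr h1)
  have hdS : ∀ D₁ : Finset V, ∀ y ∈ insert (c (2 * t - 1)) D₁,
      y ∉ S \ insert (c (2 * t)) (insert (c (2 * t - 1)) D₁) := by
    intro D₁ y hy hy'
    exact (Finset.mem_sdiff.1 hy').2 (Finset.mem_insert_of_mem hy)
  have hwS' : ∀ D₁ : Finset V,
      c (2 * t - 1 + 1) ∉ S \ insert (c (2 * t)) (insert (c (2 * t - 1)) D₁) := by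
    intro D₁ hy
    have e : 2 * t - 1 + 1 = 2 * t := by ring
    rw [e] at hy
    exact (Finset.mem_sdiff.1 hy).2 (Finset.mem_insert_self _ _)
  have harc := FS_arc h hN htk
  by_cases hz : ∃ z, q = 6 ∧ Zp H c z
  · obtain ⟨z, hq6, hz⟩ := hz
    obtain ⟨hzS, hzA, hzP, -⟩ := h.deg hz.iz ⟨_, hz.z1⟩
    have hD₁ : ∀ y, y ∈ insert z ((Finset.range N).image fun j : ℕ => c (2 * t - 2 - j)) ↔
        (∃ i : ℤ, 1 ≤ i ∧ i ≤ 2 * t - 2 ∧ c i = y) ∨ y ∈ ({z} : Finset V) := by
      intro y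
      rw [Finset.mem_insert, hD0, Finset.mem_singleton, or_comm]
    have hZ : ∀ z' ∈ ({z} : Finset V), inn c z' ∧ z' ∈ S ∧ 1 ≤ fv H P A z' := by
      intro z' hz'
      rw [Finset.mem_singleton] at hz'
      rw [hz']
      exact ⟨hz.iz, hzS, by rw [h.zp_val hq6 hz]⟩
    obtain ⟨ha, hL, hlen⟩ := h.ar1 (e := 2 * t - 1) (z := z)
      (D := insert (c (2 * t - 1)) (insert z ((Finset.range N).image
        fun j : ℕ => c (2 * t - 2 - j))))
      (S' := S \ insert (c (2 * t)) (insert (c (2 * t - 1)) (insert z ((Finset.range N).image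
        fun j : ℕ => c (2 * t - 2 - j))))) (by omega) (by omega) Finset.sdiff_subset
      (hins _ _ hD₁) (hdS _) hcf (Or.inr (Or.inl (hwS' _))) hq6 hz (fun h1 => by omega)
    refine FS_core h ht htk hr hf hD₁ rfl hZ ha hL hlen ?_
    have hz0 : z ∉ (Finset.range N).image fun j : ℕ => c (2 * t - 2 - j) := by
      rw [hD0]
      rintro ⟨i, _, _, h3⟩
      exact hz.iz i h3
    refine rem_free (v := z) (Finset.mem_insert_self _ _) ?_ ?_
    · have hna : ¬ H.Adj (c (2 * t - 1)) z := fun h1 =>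
        h.two z hz.iz 1 (2 * t - 1) le_rfl (by omega) (by omega) hz.z1 h1.symm
      rw [if_neg hna, h.zp_val hq6 hz, Finset.card_le_one]
      have key : ∀ y ∈ (insert z ((Finset.range N).image fun j : ℕ =>
          c (2 * t - 2 - j))).filter (fun y => H.Adj z y), y = c 1 := by
        intro y hy
        rw [Finset.mem_filter, Finset.mem_insert, hD0] at hy
        obtain ⟨rfl | ⟨i, h1, h2, rfl⟩, hadj⟩ := hy
        · exact absurd hadj (H.loopless.irrefl _)
        · rcases h1.lt_or_eq with h3 | h3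
          · exact absurd hadj (h.two z hz.iz 1 i le_rfl h3 (by omega) hz.z1)
          · rw [← h3]
      intro a ha' b hb
      rw [key a ha', key b hb]
    · rw [Finset.erase_insert hz0]
      exact harc
  · have hD₁ : ∀ y, y ∈ ((Finset.range N).image fun j : ℕ => c (2 * t - 2 - j)) ↔
        (∃ i : ℤ, 1 ≤ i ∧ i ≤ 2 * t - 2 ∧ c i = y) ∨ y ∈ (∅ : Finset V) := by
      intro y
      rw [hD0]
      simp
    have hD₁' : ∀ y, y ∈ insert (c (2 * t - 1)) ((Finset.range N).image
        fun j : ℕ => c (2 * t - 2 - j)) ↔ (∃ i : ℤ, 1 ≤ i ∧ i ≤ 2 * t - 1 ∧ c i = y) := by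
      intro y
      rw [hins _ _ hD₁]
      simp
    obtain ⟨ha, hL, hlen⟩ := h.ar0 (e := 2 * t - 1)
      (D := insert (c (2 * t - 1)) ((Finset.range N).image fun j : ℕ => c (2 * t - 2 - j)))
      (S' := S \ insert (c (2 * t)) (insert (c (2 * t - 1)) ((Finset.range N).image
        fun j : ℕ => c (2 * t - 2 - j)))) (by omega) (by omega) Finset.sdiff_subset
      hD₁' (hdS _) hcf (Or.inr (Or.inl (hwS' _))) (fun z h1 h2 => hz ⟨z, h1, h2⟩)
      (fun h1 => by omega)
    exact FS_core h ht htk hr hf hD₁ rfl (fun z hz => by simp at hz) ha hL hlen harc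

end Pool.Agent.Lib.MP_a33b01_co_G5
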