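import Pool.Agent.Lib.MP_a33b01_co_G5.DcA

set_option autoImplicit false

/-!
# MP_a33b01_co, project G5: the mirror image of the final situation
-/

namespace Pool.Agent.Lib.MP_a33b01_co_G5

open Classical
open Pool.Agent.Lib.MP_a33b01_co (Sph sk cn supp EvenG Removes Wg)

variable {V : Type} {F K : Finset (Finset V)} {τ : Finset V} {H : SimpleGraph V}
  {S P A : Finset V} {m q k n : ℕ} {c : ℤ → V}

private theorem FmA_neg (h : FC F τ H S P A m c K q k n) (j : ℤ) :
    c ((k : ℤ) + 1 - j) = c (1 - q - j) := by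
  have h1 := h.ctx.bd.cy.per (1 - q - j)
  have hm : (m : ℤ) = q + k := by exact_mod_cast h.ctx.hm
  rw [← h1]
  congr 1
  rw [hm]
  ring

private theorem FmA_inn {z : V} (hz : inn (fun i => c ((k : ℤ) + 1 - i)) z) : inn c z := by
  intro i
  have h1 := hz ((k : ℤ) + 1 - i)
  have h2 : (k : ℤ) + 1 - (k + 1 - i) = i := by ring
  simp only [h2] at h1
  exact h1

/-- The mirror image: `c' s = c (k + 1 - s)`.  For `-q < j ≤ 0` the vertex `c' j` is
`c (1 - q - j)` (`m = q + k`, `Cy.per`).  `Ctx.mirror`; `two`, `twoP`, `twoPP`, `three` are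
symmetric (in `three` the roles of `x`, `y` are exchanged), `threeL` and `threeR` are exchanged,
`a2` and `ak` are exchanged. -/
theorem FC.mirror (h : FC F τ H S P A m c K q k n) :
    FC F τ H S P A m (fun i => c ((k : ℤ) + 1 - i)) K q k n := by
  refine ⟨h.ctx.mirror, h.q2, h.m9, ?_, h.short, ?_, ?_, ?_, ?_, ?_, ?_, ?_, ?_⟩
  · intro i j hij
    rcases h.noch _ _ hij with h1 | h1
    · right
      have h2 : i - j - 1 = (k : ℤ) + 1 - j - (k + 1 - i) - 1 := by ring
      rw [h2]
      exact h1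
    · left
      have h2 : j - i - 1 = (k : ℤ) + 1 - i - (k + 1 - j) - 1 := by ring
      rw [h2]
      exact h1
  · intro z hz i j hi hij hj h1 h2
    exact h.two z (FmA_inn hz) (k + 1 - j) (k + 1 - i) (by omega) (by omega) (by omega) h2 h1
  · intro z hz i j hi hik hj hj0 h1 h2
    simp only [FmA_neg h j] at h2
    have h3 := h.twoP z (FmA_inn hz) (k + 1 - i) (1 - q - j) (by omega) (by omega) (by omega)
      (by omega) h1 h2
    omega
  · intro z hz i j hi hij hj0 h1 h2
    simp only [FmA_neg h j] at h2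
    simp only [FmA_neg h i] at h1
    exact h.twoPP z (FmA_inn hz) (1 - q - j) (1 - q - i) (by omega) (by omega) (by omega) h2 h1
  · have h1 : (k : ℤ) + 1 - 2 = k - 1 := by ring
    simp only [h1]
    exact h.ak
  · have h1 : (k : ℤ) + 1 - (k - 1) = 2 := by ring
    simp only [h1]
    exact h.a2
  · intro x y hx hy hxy i j hi hij hj h1 h2
    exact h.three y x (FmA_inn hy) (FmA_inn hx) hxy.symm (k + 1 - j) (k + 1 - i) (by omega)
      (by omega) (by omega) h2.symm h1.symm
  · intro x y hx hy hxy i j hi hik hj hj2 h1 h2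
    simp only [FmA_neg h j] at h2
    exact h.threeR x y (FmA_inn hx) (FmA_inn hy) hxy (k + 1 - i) (1 - q - j) (by omega)
      (by omega) (by omega) (by omega) h1 h2
  · intro x y hx hy hxy i j hi hik hj hj2 h1 h2
    simp only [FmA_neg h j] at h2
    exact h.threeL x y (FmA_inn hx) (FmA_inn hy) hxy (k + 1 - i) (1 - q - j) (by omega)
      (by omega) (by omega) (by omega) h1 h2

/-- `c' j = c (1 - q - j)` -/
theorem FC.mir_neg (h : FC F τ H S P A m c K q k n) (j : ℤ) :
    c ((k : ℤ) + 1 - j) = c (1 - q - j) := FmA_neg h j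

end Pool.Agent.Lib.MP_a33b01_co_G5
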