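import Pool.Agent.Lib.MP_a33b01_co_G5.ArB
import Pool.Agent.Lib.MP_a33b01_co_G5.FN
import Pool.Agent.Lib.MP_a33b01_co_G5.FmA

set_option autoImplicit false

/-!
# MP_a33b01_co, project G5: the final reduction without conflicts, second case
-/

namespace Pool.Agent.Lib.MP_a33b01_co_G5

open Classical
open Pool.Agent.Lib.MP_a33b01_co (Sph sk cn supp EvenG Removes Wg)

variable {V : Type} {F K : Finset (Finset V)} {τ : Finset V} {H : SimpleGraph V}
  {S P A : Finset V} {m q k n : ℕ} {c : ℤ → V}

/-- decompositions of an arc -/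
private theorem FW_arc_dec {a : ℤ} {N : ℕ} {l₁ l₂ : List V} {x : V}
    (h : arc c a N = l₁ ++ x :: l₂) :
    x = c (a + l₁.length) ∧ l₁.length < N ∧
      ∀ y ∈ l₁, ∃ i : ℤ, a ≤ i ∧ i < a + l₁.length ∧ c i = y := by
  have hlen : l₁.length + (l₂.length + 1) = N := by
    have h1 := congrArg List.length h
    rw [arc_length, List.length_append, List.length_cons] at h1
    exact h1.symm
  have hget : ∀ (i : ℕ) (hi : i < (arc c a N).length), (arc c a N)[i] = c (a + i) := by
    intro i hi
    unfold arc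
    simp
  refine ⟨?_, by omega, ?_⟩
  · have h1 : l₁.length < (arc c a N).length := by
      rw [arc_length]
      omega
    have h2 := hget l₁.length h1
    rw [← h2]
    simp [h]
  · intro y hy
    obtain ⟨i, hi, rfl⟩ := List.mem_iff_getElem.1 hy
    have h1 : i < (arc c a N).length := by
      rw [arc_length]
      omega
    refine ⟨a + i, by omega, by omega, ?_⟩
    have h2 := hget i h1
    rw [← h2]
    simp [h, List.getElem_append_left hi]

/-- The members of the list `arc c 1 k ++ zl` can be removed in this order. -/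
private theorem FW_rem (h : FC F τ H S P A m c K q k n) {r : ℤ} (hrk : 2 * r + 1 = k)
    (hr : ∀ s : ℤ, 1 ≤ s → s ≤ r → c (2 * s) ∈ A) {zl : List V} (hnd : zl.Nodup)
    (hin : ∀ z ∈ zl, inn c z)
    (hz : ∀ (l₁ l₂ : List V) (z : V), zl = l₁ ++ z :: l₂ →
      ((arc c 1 k ++ l₁).toFinset.filter fun y => H.Adj z y).card ≤ fv H P A z) :
    (arc c 1 k ++ zl).Nodup ∧ Rem H (arc c 1 k ++ zl).toFinset (fv H P A) 0 := by
  have hcy := h.ctx.bd.cy
  have hm := h.ctx.hm
  have hk3 := h.k3
  have hq2 := h.q2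
  have hnd2 : (arc c 1 k ++ zl).Nodup := by
    rw [List.nodup_append]
    refine ⟨arc_nodup hcy 1 (by omega), hnd, ?_⟩
    intro y hy z hz' hyz
    obtain ⟨i, _, _, hi⟩ := mem_arc.1 hy
    exact hin z hz' i (hi.trans hyz)
  refine ⟨hnd2, ?_⟩
  have hval : ∀ j : ℤ, 1 ≤ j → j ≤ k → 1 ≤ fv H P A (c j) := by
    intro j h1 h2
    by_cases hj : c j ∈ A
    · rw [h.valA hj]
    · rcases eq_or_lt_of_le h1 with h3 | h3
      · rw [← h3, h.val1.1]
      · rcases eq_or_lt_of_le h2 with h4 | h4
        · rw [h4, h.val1.2]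
        · rw [h.val2 h3 h4 hj]
          norm_num
  refine rem_list _ hnd2 _ ?_
  intro l₁ l₂ x hx
  rcases List.append_eq_append_iff.1 hx with ⟨a', h1, h2⟩ | ⟨c', h1, h2⟩
  · rw [h1]
    exact hz a' l₂ x h2
  · rcases c' with _ | ⟨y, c''⟩
    · rw [List.append_nil] at h1
      rw [List.nil_append] at h2
      rw [← h1]
      have h3 := hz [] l₂ x h2.symm
      rwa [List.append_nil] at h3
    · rw [List.cons_append, List.cons_eq_cons] at h2
      obtain ⟨rfl, _⟩ := h2
      obtain ⟨hx1, hx2, hx3⟩ := FW_arc_dec h1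
      have h4 := hval (1 + l₁.length) (by omega) (by omega)
      rw [← hx1] at h4
      refine le_trans ?_ h4
      rw [Finset.card_le_one]
      have key : ∀ y ∈ l₁.toFinset.filter (fun y => H.Adj x y), y = c (l₁.length : ℤ) := by
        intro y hy
        rw [Finset.mem_filter, List.mem_toFinset] at hy
        obtain ⟨i, hi1, hi2, hi3⟩ := hx3 y hy.1
        have h5 : H.Adj (c i) (c (1 + l₁.length)) := by
          rw [hi3, ← hx1]
          exact hy.2.symm
        rcases noch_idx h.ctx h.noch (by omega) hi2 (by omega) h5 with h6 | h6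
        · rw [← hi3]
          congr 1
          omega
        · omega
      intro y hy z hz'
      rw [key y hy, key z hz']

/-- The reduction with a given new path. -/
private theorem FW_core (h : FC F τ H S P A m c K q k n) {zl l : List V} {Z : Finset V}
    (hzS : ∀ z ∈ zl, z ∈ S) (hZ : ∀ z ∈ Z, z ∈ zl)
    (hrem : Rem H (arc c 1 k ++ zl).toFinset (fv H P A) 0)
    (ha : AH H S P A q k c k (arc c 1 k ++ zl).toFinset (S \ (arc c 1 k ++ zl).toFinset) Z l)
    (hL : LH F τ H ((S \ (arc c 1 k ++ zl).toFinset) ∪ l.toFinset) l)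
    (hlen : l.length ≤ P.card) : Cl H S P A := by
  have hk3 := h.k3
  have hDS : (arc c 1 k ++ zl).toFinset ⊆ S := by
    intro y hy
    rw [List.mem_toFinset, List.mem_append] at hy
    rcases hy with hy | hy
    · obtain ⟨i, h1, h2, rfl⟩ := mem_arc.1 hy
      exact (h.ctx.cS h1 (by omega)).1
    · exact hzS y hy
  have h1D : c 1 ∈ (arc c 1 k ++ zl).toFinset := by
    rw [List.mem_toFinset, List.mem_append]
    exact Or.inl (mem_arc.2 ⟨1, le_rfl, by omega, rfl⟩)
  refine gdel' h.ctx.ih h.ctx.st (S' := S \ (arc c 1 k ++ zl).toFinset)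
    (D := (arc c 1 k ++ zl).toFinset) (l := l) (k₀ := 0)
    (Finset.union_sdiff_of_subset hDS) Finset.disjoint_sdiff ?_ ?_ hL.nd hL.h6 hL.ch hL.out
    (fun x hx hxl => h.arc_out ha hx hxl _) (fun a h1 b h2 => h.arc_ind ha h1 h2)
    (fun a h1 x hx => h.arc_hAl ha h1 hx) (fun u hu => h.arc_h1 ha hu) hrem (by omega)
  · rw [← h.ctx.hn]
    unfold mu
    have h2 : (S \ (arc c 1 k ++ zl).toFinset).card < S.card := by
      apply Finset.card_lt_card
      rw [Finset.ssubset_iff_of_subset Finset.sdiff_subset]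
      exact ⟨c 1, hDS h1D, fun h3 => (Finset.mem_sdiff.1 h3).2 h1D⟩
    have h3 : l.toFinset.card ≤ P.card := (List.toFinset_card_le l).trans hlen
    omega
  · intro x hx
    rcases ha.lP x hx with h2 | h2
    · exact Or.inl h2
    · right
      rw [List.mem_toFinset, List.mem_append]
      exact Or.inr (hZ x h2)

/-- the description of the deleted set -/
private theorem FW_mem {zl : List V} {v : V} : v ∈ (arc c 1 k ++ zl).toFinset ↔
    (∃ i : ℤ, 1 ≤ i ∧ i ≤ k ∧ c i = v) ∨ v ∈ zl := by
  rw [List.mem_toFinset, List.mem_append, mem_arc]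
  constructor
  · rintro (⟨i, h1, h2, h3⟩ | h1)
    · exact Or.inl ⟨i, h1, by omega, h3⟩
    · exact Or.inr h1
  · rintro (⟨i, h1, h2, h3⟩ | h1)
    · exact Or.inl ⟨i, h1, by omega, h3⟩
    · exact Or.inr h1

/-- An exceptional vertex has only one neighbour on the arc. -/
private theorem FW_one_nb (h : FC F τ H S P A m c K q k n) {z : V} (hz : inn c z) {j : ℤ}
    (hj1 : 1 ≤ j) (hjk : j ≤ k) (hzj : H.Adj z (c j)) {l₁ : List V}
    (hl : ∀ y ∈ l₁, ¬ H.Adj z y) :
    ((arc c 1 k ++ l₁).toFinset.filter fun y => H.Adj z y).card ≤ fv H P A z := by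
  refine le_trans ?_ (h.valI hz ⟨_, hzj⟩)
  rw [Finset.card_le_one]
  have key : ∀ y ∈ (arc c 1 k ++ l₁).toFinset.filter (fun y => H.Adj z y), y = c j := by
    intro y hy
    rw [Finset.mem_filter, List.mem_toFinset, List.mem_append] at hy
    obtain ⟨hy1 | hy1, hy2⟩ := hy
    · obtain ⟨i, h1, h2, rfl⟩ := mem_arc.1 hy1
      rcases lt_trichotomy i j with h3 | h3 | h3
      · exact absurd hzj (h.two z hz i j h1 h3 hjk hy2)
      · rw [h3]
      · exact absurd hy2 (h.two z hz j i hj1 h3 (by omega) hzj)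
    · exact absurd hy2 (hl y hy1)
  intro y hy w hw
  rw [key y hy, key w hw]

/-- the case of the exceptional vertex at `c 1` only -/
private theorem FW_z (h : FC F τ H S P A m c K q k n) {r : ℤ} (hrk : 2 * r + 1 = k)
    (hr : ∀ s : ℤ, 1 ≤ s → s ≤ r → c (2 * s) ∈ A)
    (hcf : ∀ i : ℤ, 2 ≤ i → i + 1 ≤ k → ∀ u x, ¬ Cf H c i u x) (hq : q = 6) {z : V}
    (hz : Zp H c z)
    (hz' : ∀ z, inn c z → H.Adj z (c k) → ¬ H.Adj z (c (-3))) : Cl H S P A := by
  have hk3 := h.k3
  obtain ⟨_, hrem⟩ := FW_rem h hrk hr (zl := [z]) (List.nodup_singleton z)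
    (fun y hy => by
      rw [List.mem_singleton.1 hy]
      exact hz.iz)
    (fun l₁ l₂ y hy => by
      rcases l₁ with _ | ⟨w, l₁⟩
      · rw [List.nil_append, List.cons_eq_cons] at hy
        obtain ⟨rfl, _⟩ := hy
        exact FW_one_nb h hz.iz le_rfl (by omega) hz.z1 (fun w hw => by simp at hw)
      · have h1 := congrArg List.length hy
        simp at h1)
  have ha := h.ar1 (e := k) (S' := S \ (arc c 1 k ++ [z]).toFinset)
    (D := (arc c 1 k ++ [z]).toFinset) (by omega) le_rfl Finset.sdiff_subset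
    (fun v => by
      rw [FW_mem, List.mem_singleton, Finset.mem_singleton])
    (fun v hv hv' => (Finset.mem_sdiff.1 hv').2 hv) hcf (Or.inl rfl) hq hz
    (fun _ => hz')
  exact FW_core h (fun y hy => by
    rw [List.mem_singleton.1 hy]
    exact (h.deg hz.iz ⟨_, hz.z1⟩).1) (fun y hy => by
    rw [Finset.mem_singleton.1 hy]
    exact List.mem_singleton.2 rfl) hrem ha.1 ha.2.1 ha.2.2

/-- `k = 2 r + 1`, all the `c (2 s)` are in `A`, no conflicts: everything of the cycle is deleted.
`D = {c 1, …, c k}` and the exceptional 2-chords `z` (`Zp H c z`), `z'` (`z' ~ c k`, `c (-3)`), if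
they exist (they need `q = 6`, `twoP`); `S' = S \ D`.  No exception: `FC.ar0`; only `z`:
`FC.ar1` with `e = k`; `z` and `z'`: `FC.ar2`; only `z'`: the mirror image (`FC.mirror`,
`Cf.mirror`: the hypotheses are symmetric).  `gdel'` with `k₀ = 0` as in `cl_FN`; the removal:
`rem_list` for `arc c 1 k ++ …`; `c k` has value `1` and one earlier neighbour; `z'` has
value `1` and one earlier neighbour `c k`; `z`, `z'` are not adjacent (`three`, or for `k = 3`
the conflict with centre `c 2`). -/
theorem cl_FW (h : FC F τ H S P A m c K q k n) {r : ℤ} (hrk : 2 * r + 1 = k)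
    (hr : ∀ s : ℤ, 1 ≤ s → s ≤ r → c (2 * s) ∈ A)
    (hno : ∀ s : ℤ, 1 ≤ s → s ≤ r → ∀ u x, ¬ Cf H c (2 * s) u x) : Cl H S P A := by
  have hk3 := h.k3
  have hcf : ∀ i : ℤ, 2 ≤ i → i + 1 ≤ k → ∀ u x, ¬ Cf H c i u x := by
    intro i h1 h2 u x hf
    obtain ⟨s, rfl, hs1, hs2⟩ := h.even_cf hr h1 (by omega) (by omega) hf
    exact hno s hs1 hs2 u x hf
  by_cases hz : q = 6 ∧ ∃ z, Zp H c z
  · obtain ⟨hq, z, hz⟩ := hz
    by_cases hz' : ∃ z', inn c z' ∧ H.Adj z' (c k) ∧ H.Adj z' (c (-3))
    · obtain ⟨z', hi', h1', h2'⟩ := hz'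
      have hne : z ≠ z' := by
        intro he
        subst he
        exact h.twoPP z hi' (-3) (-2) (by omega) (by norm_num) (by norm_num) h2' hz.z2
      have hna : ¬ H.Adj z' z := by
        intro he
        by_cases hk : 4 ≤ k
        · exact h.three z z' hz.iz hi' he.symm 1 k le_rfl (by omega) le_rfl hz.z1.symm h1'
        · have hk' : (k : ℤ) = 3 := by omega
          refine hcf 2 le_rfl (by omega) z z' ⟨hz.iz, hi', ?_, he.symm, ?_⟩
          · exact hz.z1.symm
          · rw [hk'] at h1'
            exact h1'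
      obtain ⟨_, hrem⟩ := FW_rem h hrk hr (zl := [z, z']) (by simp [hne])
        (fun y hy => by
          rw [List.mem_cons, List.mem_singleton] at hy
          rcases hy with rfl | rfl
          · exact hz.iz
          · exact hi')
        (fun l₁ l₂ y hy => by
          rcases l₁ with _ | ⟨w, l₁⟩
          · rw [List.nil_append, List.cons_eq_cons] at hy
            obtain ⟨rfl, _⟩ := hy
            exact FW_one_nb h hz.iz le_rfl (by omega) hz.z1 (fun w hw => by simp at hw)
          · rw [List.cons_append, List.cons_eq_cons] at hy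
            obtain ⟨rfl, hy⟩ := hy
            rcases l₁ with _ | ⟨w', l₁⟩
            · rw [List.nil_append, List.cons_eq_cons] at hy
              obtain ⟨rfl, _⟩ := hy
              refine FW_one_nb h hi' (j := k) (by omega) le_rfl h1' (fun w hw => ?_)
              rw [List.mem_singleton.1 hw]
              exact hna
            · have h1 := congrArg List.length hy
              simp at h1)
      have ha := h.ar2 (S' := S \ (arc c 1 k ++ [z, z']).toFinset)
        (D := (arc c 1 k ++ [z, z']).toFinset) Finset.sdiff_subset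
        (fun v => by
          rw [FW_mem]
          simp)
        (fun v hv hv' => (Finset.mem_sdiff.1 hv').2 hv) hcf hq hz hi' h1' h2'
      exact FW_core h (fun y hy => by
        rw [List.mem_cons, List.mem_singleton] at hy
        rcases hy with rfl | rfl
        · exact (h.deg hz.iz ⟨_, hz.z1⟩).1
        · exact (h.deg hi' ⟨_, h1'⟩).1) (fun y hy => by
        simpa using hy) hrem ha.1 ha.2.1 ha.2.2
    · exact FW_z h hrk hr hcf hq hz (fun z h1 h2 h3 => hz' ⟨z, h1, h2, h3⟩)
  · by_cases hz' : q = 6 ∧ ∃ z', inn c z' ∧ H.Adj z' (c k) ∧ H.Adj z' (c (-3))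
    · -- the mirror image
      obtain ⟨hq, z', hi', h1', h2'⟩ := hz'
      have hm1 : c ((k : ℤ) + 1 - -2) = c (-3) := by
        rw [h.mir_neg]
        congr 1
        omega
      have hm2 : c ((k : ℤ) + 1 - -3) = c (-2) := by
        rw [h.mir_neg]
        congr 1
        omega
      have hm3 : c ((k : ℤ) + 1 - 1) = c k := by
        congr 1
        omega
      have hm4 : c ((k : ℤ) + 1 - k) = c 1 := by
        congr 1
        omega
      refine FW_z (c := fun i => c ((k : ℤ) + 1 - i)) (z := z') h.mirror hrk ?_ ?_ hq ?_ ?_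
      · intro s h1 h2
        have h3 := hr (r + 1 - s) (by omega) (by omega)
        have h4 : (k : ℤ) + 1 - 2 * s = 2 * (r + 1 - s) := by omega
        show c ((k : ℤ) + 1 - 2 * s) ∈ A
        rw [h4]
        exact h3
      · intro i h1 h2 u x hf
        have h3 := hf.mirror ((k : ℤ) + 1)
        have h4 : (fun i : ℤ => c ((k : ℤ) + 1 - ((k : ℤ) + 1 - i))) = c := by
          funext i
          congr 1
          omega
        beta_reduce at h3
        rw [h4] at h3
        exact hcf _ (by omega) (by omega) x u h3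
      · refine ⟨fun i => hi' _, ?_, ?_⟩
        · show H.Adj z' (c ((k : ℤ) + 1 - 1))
          rw [hm3]
          exact h1'
        · show H.Adj z' (c ((k : ℤ) + 1 - -2))
          rw [hm1]
          exact h2'
      · intro z h1 h2 h3
        have h2'' : H.Adj z (c ((k : ℤ) + 1 - k)) := h2
        have h3'' : H.Adj z (c ((k : ℤ) + 1 - -3)) := h3
        rw [hm4] at h2''
        rw [hm2] at h3''
        refine hz ⟨hq, z, ⟨fun i => ?_, h2'', h3''⟩⟩
        have h4 := h1 ((k : ℤ) + 1 - i)
        beta_reduce at h4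
        have h5 : (k : ℤ) + 1 - ((k : ℤ) + 1 - i) = i := by omega
        rwa [h5] at h4
    · obtain ⟨_, hrem⟩ := FW_rem h hrk hr (zl := []) List.nodup_nil
        (fun y hy => by simp at hy) (fun l₁ l₂ y hy => by simp at hy)
      have ha := h.ar0 (e := k) (S' := S \ (arc c 1 k ++ []).toFinset)
        (D := (arc c 1 k ++ []).toFinset) (by omega) le_rfl Finset.sdiff_subset
        (fun v => by
          rw [FW_mem]
          simp)
        (fun v hv hv' => (Finset.mem_sdiff.1 hv').2 hv) hcf (Or.inl rfl)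
        (fun z hq h1 => hz ⟨hq, z, h1⟩)
        (fun _ hq z h1 h2 h3 => hz' ⟨hq, z, h1, h2, h3⟩)
      exact FW_core h (fun y hy => by simp at hy) (fun y hy => by simp at hy) hrem
        ha.1 ha.2.1 ha.2.2

end Pool.Agent.Lib.MP_a33b01_co_G5
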