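import Pool.Agent.Lib.MP_a33b01_co_G5.FxB
import Pool.Agent.Lib.MP_a33b01_co_G5.StC

set_option autoImplicit false

/-!
# MP_a33b01_co, project G5: the conflict at c 2 with an exceptional 2-chord at u
-/

namespace Pool.Agent.Lib.MP_a33b01_co_G5

open Classical
open Pool.Agent.Lib.MP_a33b01_co (Sph sk cn supp EvenG Removes Wg)

variable {V : Type} {F K : Finset (Finset V)} {τ : Finset V} {H : SimpleGraph V}
  {S P A : Finset V} {m q k n : ℕ} {c : ℤ → V} {u x : V}

/-- `u ~ c (-2)`, `q = 6`, `k ≥ 5`: `gsaveS` with `v = c 3`, `w = c 4`, `D₁ = {c 2, c 1, u, x}`,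
`S' = S \ (insert v D₁)`, `l = c (-5), c (-4), c (-3), c (-2), u, x`.
Outer edges: `FC.outArc`, `FC.zp_out`, and `FC.outEp` for the path of `FC.cf_pc` (`c 1 ∉ W`).
`P \ l = {c (-1), c 0}` has no neighbours in `S'` (`FC.zp_N`).  `newA`: members `c t` of `A`,
`t ≥ 4`, and vertices inside with a neighbour `c 1` or `c 3` (these are `XM`, so `ind` is
`FC.xm_ind`).  `hAl`: `c t ∈ A` is not adjacent to `P` (`st.AP`), `u`, `x` (`two`); a vertex
`a ~ c 1` is not adjacent to `u` (triangle), `x` (4-cycle), `P` (`FC.zp_q`, `FC.zp_uniq`, `a ≠ u`);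
a vertex `a ~ c 3` is not adjacent to `x` (triangle), `u` (4-cycle), `P` (`twoP`, `1 < 3 < k`).
`h1`, `hrem`, `hleg`, `hv2`, `hwN`: as in `FC.fx_gen` with `zs = []` (`FC.x_h1` for the list
`l` without `u`, `x`, or directly; `FC.x_rem`). -/
theorem cl_FXu (h : FC F τ H S P A m c K q k n) (hf : Cf H c 2 u x) (h4 : c 4 ∈ A)
    (hq : q = 6) (hz : Zp H c u) : Cl H S P A := by
  subst hq
  have hctx := h.ctx
  have st := hctx.st
  have hcy := hctx.bd.cy
  have hm9 := h.m9
  have hmk := hctx.hm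
  have hk3 := h.k3
  have iu := hf.iu
  have ix := hf.ix
  have hcu : H.Adj (c 1) u := hz.z1.symm
  have hxc : H.Adj x (c 3) := by
    have := hf.xc
    norm_num at this
    exact this
  have hux := hf.ux
  -- `5 ≤ k`
  have hk5 : 5 ≤ k := by
    obtain ⟨i, hi2, hik, he⟩ := hctx.Aidx h4
    obtain ⟨r, hr⟩ := hcy.inj i 4 he
    have hr0 : r = 0 := by
      rcases lt_trichotomy r 0 with h0 | h0 | h0
      · nlinarith
      · exact h0
      · nlinarith
    rw [hr0, mul_zero] at hr
    omega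
  have hne : ∀ i j : ℤ, -6 < i → i ≤ 4 → -6 < j → j ≤ 4 → i ≠ j → c i ≠ c j := by
    intro i j h1 h2 h3 h5 hij he
    exact hij (hctx.inj (by push_cast; omega) (by omega) (by push_cast; omega) (by omega) he)
  have hin : ∀ v i, inn c v → v ≠ c i := fun v i hv he => hv i he.symm
  have hni : ∀ v i, inn c v → c i ≠ v := fun v i hv he => hv i he
  obtain ⟨uS, uA, uP, -⟩ := h.deg iu ⟨x, hux⟩
  obtain ⟨xS, xA, xP, -⟩ := h.deg ix ⟨u, hux.symm⟩
  have hcS : ∀ i : ℤ, 1 ≤ i → i ≤ 4 → c i ∈ S := fun i h1 h2 => (hctx.cS h1 (by omega)).1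
  have hcP : ∀ i : ℤ, -6 < i → i ≤ 0 → c i ∈ P := fun i h1 h2 =>
    (hctx.cP (by push_cast; omega) h2).1
  -- the list, the set of the deleted vertices
  obtain ⟨l, hldef⟩ : ∃ l, l = [c (-5), c (-4), c (-3), c (-2), u, x] := ⟨_, rfl⟩
  obtain ⟨D₁, hD₁⟩ : ∃ D₁ : Finset V, D₁ = [c 2, c 1, u, x].toFinset := ⟨_, rfl⟩
  obtain ⟨S', hS'def⟩ : ∃ S' : Finset V, S' = S \ insert (c 3) D₁ := ⟨_, rfl⟩
  have hml : ∀ y, y ∈ l ↔ (y = c (-5) ∨ y = c (-4) ∨ y = c (-3) ∨ y = c (-2) ∨ y = u ∨
      y = x) := by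
    intro y
    rw [hldef]
    simp only [List.mem_cons, List.not_mem_nil, or_false]
  have hmD₁ : ∀ y, y ∈ D₁ ↔ (y = c 2 ∨ y = c 1 ∨ y = u ∨ y = x) := by
    intro y
    rw [hD₁, List.mem_toFinset]
    simp only [List.mem_cons, List.not_mem_nil, or_false]
  have hmD : ∀ y, y ∈ insert (c 3) D₁ ↔ (y = c 3 ∨ y = c 2 ∨ y = c 1 ∨ y = u ∨ y = x) := by
    intro y
    rw [Finset.mem_insert, hmD₁]
  have hmS' : ∀ y, y ∈ S' ↔ (y ∈ S ∧ ¬ (y = c 3 ∨ y = c 2 ∨ y = c 1 ∨ y = u ∨ y = x)) := by
    intro y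
    rw [hS'def, Finset.mem_sdiff, hmD]
  have hDS : insert (c 3) D₁ ⊆ S := by
    intro y hy
    rcases (hmD y).1 hy with rfl | rfl | rfl | rfl | rfl
    · exact hcS 3 (by norm_num) (by norm_num)
    · exact hcS 2 (by norm_num) (by norm_num)
    · exact hcS 1 (by norm_num) (by norm_num)
    · exact uS
    · exact xS
  have hS'S : S' ⊆ S := fun y hy => ((hmS' y).1 hy).1
  have hnl : ∀ i : ℤ, -2 < i → i ≤ 4 → c i ∉ l := by
    intro i h1 h2 hi
    rcases (hml _).1 hi with h5 | h5 | h5 | h5 | h5 | h5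
    · exact hne i (-5) (by omega) h2 (by norm_num) (by norm_num) (by omega) h5
    · exact hne i (-4) (by omega) h2 (by norm_num) (by norm_num) (by omega) h5
    · exact hne i (-3) (by omega) h2 (by norm_num) (by norm_num) (by omega) h5
    · exact hne i (-2) (by omega) h2 (by norm_num) (by norm_num) (by omega) h5
    · exact hni u i iu h5
    · exact hni x i ix h5
  have hlS' : ∀ i : ℤ, -6 < i → i ≤ -2 → c i ∈ l := by
    intro i h1 h2
    have : i = -5 ∨ i = -4 ∨ i = -3 ∨ i = -2 := by omega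
    rw [hml]
    rcases this with rfl | rfl | rfl | rfl <;> simp
  have hPl : ∀ p ∈ P, p ∉ l → p = c (-1) ∨ p = c 0 := by
    intro p hp hpl
    obtain ⟨i, h1, h2, rfl⟩ := (hctx.hP p).1 hp
    have h3 : -6 < i := by push_cast at h1; omega
    by_cases h5 : i ≤ -2
    · exact absurd (hlS' i h3 h5) hpl
    · have : i = -1 ∨ i = 0 := by omega
      rcases this with rfl | rfl
      · exact Or.inl rfl
      · exact Or.inr rfl
  have hPN : ∀ p ∈ P, p ∉ l → ∀ y, H.Adj p y → y ∈ P ∨ y = c 1 := by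
    intro p hp hpl y hy
    obtain ⟨hN1, hN0⟩ := h.zp_N hz (w := y)
    rcases hPl p hp hpl with rfl | rfl
    · rcases hN1 hy with rfl | rfl
      · exact Or.inl (hcP (-2) (by norm_num) (by norm_num))
      · exact Or.inl (hcP 0 (by norm_num) le_rfl)
    · rcases hN0 hy with rfl | rfl
      · exact Or.inl (hcP (-1) (by norm_num) (by norm_num))
      · exact Or.inr rfl
  have hPN3 : ∀ p ∈ P, p ∉ l → ∀ y, H.Adj p y → y ∈ P ∨ y = c 1 ∨ y = c 3 := fun p hp hpl y hy =>
    (hPN p hp hpl y hy).imp id Or.inl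
  have hS5 : c 1 ∉ S' ∧ c 2 ∉ S' ∧ c 3 ∉ S' ∧ u ∉ S' ∧ x ∉ S' := by
    refine ⟨?_, ?_, ?_, ?_, ?_⟩ <;> rw [hmS'] <;> simp
  have hDl : ∀ v ∈ insert (c 3) D₁, v ∉ l → v = c 1 ∨ v = c 2 ∨ v = c 3 ∨ v = u ∨ v = x := by
    intro v hv _
    rcases (hmD v).1 hv with h5 | h5 | h5 | h5 | h5
    · exact Or.inr (Or.inr (Or.inl h5))
    · exact Or.inr (Or.inl h5)
    · exact Or.inl h5
    · exact Or.inr (Or.inr (Or.inr (Or.inl h5)))
    · exact Or.inr (Or.inr (Or.inr (Or.inr h5)))
  have hcls : ∀ a ∈ newA H S' P (insert (c 3) D₁) l A, a ∈ S' ∧ XM H A c k u x a := fun a ha =>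
    h.x_cls hf (Or.inr h4) hS'S hS5 hDl hPN3 ha
  have hnd : l.Nodup := by
    rw [hldef]
    simp only [List.nodup_cons, List.mem_cons, List.not_mem_nil, or_false, not_or,
      not_false_iff, List.nodup_nil, and_true]
    refine ⟨⟨?_, ?_, ?_, hni u _ iu, hni x _ ix⟩, ⟨?_, ?_, hni u _ iu, hni x _ ix⟩,
      ⟨?_, hni u _ iu, hni x _ ix⟩, ⟨hni u _ iu, hni x _ ix⟩, hux.ne⟩ <;>
    exact hne _ _ (by norm_num) (by norm_num) (by norm_num) (by norm_num) (by norm_num)
  have hndD : [c 2, c 1, u, x].Nodup := by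
    simp only [List.nodup_cons, List.mem_cons, List.not_mem_nil, or_false, not_or,
      not_false_iff, List.nodup_nil, and_true]
    exact ⟨⟨hne _ _ (by norm_num) (by norm_num) (by norm_num) (by norm_num) (by norm_num),
      hni u _ iu, hni x _ ix⟩, ⟨hni u _ iu, hni x _ ix⟩, hux.ne⟩
  have hD4 : D₁.card = 4 := by
    rw [hD₁, List.toFinset_card_of_nodup hndD]
    rfl
  have hv : c 3 ∉ D₁ := by
    intro h5
    rcases (hmD₁ _).1 h5 with h6 | h6 | h6 | h6
    · exact hne 3 2 (by norm_num) (by norm_num) (by norm_num) (by norm_num) (by norm_num) h6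
    · exact hne 3 1 (by norm_num) (by norm_num) (by norm_num) (by norm_num) (by norm_num) h6
    · exact hni u 3 iu h6
    · exact hni x 3 ix h6
  -- the outer edges
  obtain ⟨W, hW⟩ : ∃ W : Finset V, W = S' ∪ l.toFinset := ⟨_, rfl⟩
  have hlW : ∀ y ∈ l, y ∈ W := by
    intro y hy
    rw [hW]
    exact Finset.mem_union_right _ (List.mem_toFinset.2 hy)
  have h1W : c 1 ∉ W := by
    rw [hW, Finset.mem_union, List.mem_toFinset, not_or]
    exact ⟨hS5.1, hnl 1 (by norm_num) (by norm_num)⟩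
  have uW : u ∈ W := hlW u ((hml u).2 (by simp))
  have xW : x ∈ W := hlW x ((hml x).2 (by simp))
  have hcW : ∀ i : ℤ, -6 < i → i ≤ -2 → c i ∈ W := fun i h1 h2 => hlW _ (hlS' i h1 h2)
  have eC : ∀ i j : ℤ, j = i + 1 → -6 < i → i < -2 → OutE F τ (rs H W) (c i) (c j) := by
    intro i j hj h1 h2
    subst hj
    exact h.outEc (hcW i h1 (by omega)) (hcW (i + 1) (by omega) (by omega))
  have e2u : OutE F τ (rs H W) (c (-2)) u := h.zp_out hz h1W (hcW (-2) (by norm_num) le_rfl) uW
  have eux : OutE F τ (rs H W) u x := by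
    refine h.outEp (h.cf_pc hf) (by simp) (t := 1) (by norm_num) (by norm_num) h1W ?_ uW xW
    refine ⟨[c (2 - 1)], [c (2 - 1 + ((2 : ℕ) : ℤ))], ?_⟩
    simp
  have hmem : ∀ y, (∃ i : ℤ, y = c i) ∨ y = u ∨ y = x → Out F τ (rs H W) y := by
    rintro y (⟨i, rfl⟩ | rfl | rfl)
    · exact h.outc W i
    · obtain ⟨-, t, ht, -, h2⟩ := e2u
      exact ⟨t, ht, h2⟩
    · obtain ⟨-, t, ht, -, h2⟩ := eux
      exact ⟨t, ht, h2⟩
  refine gsaveS hctx.ih st (S' := S') (D₁ := D₁) (l := l) (v := c 3) (w := c 4) hv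
    (hnl 3 (by norm_num) (by norm_num)) ?_ ?_ ?_ ?_ hnd ?_ ?_ ?_ ?_ ?_ ?_ ?_ ?_ h4 ?_ ?_ ?_ ?_ ?_
    (by omega)
  · -- hSD
    rw [hS'def]
    exact Finset.union_sdiff_of_subset hDS
  · rw [hS'def]
    exact Finset.disjoint_sdiff
  · -- measure
    have h1 : S'.card + 5 = S.card := by
      have h5 : (insert (c 3) D₁).card = 5 := by
        rw [Finset.card_insert_of_notMem hv, hD4]
      rw [hS'def, Finset.card_sdiff_of_subset hDS, h5]
      have := Finset.card_le_card hDS
      omega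
    have h2 := hctx.hn
    have h3 := hctx.Pcard
    have h5 : l.toFinset.card = 6 := by
      rw [List.toFinset_card_of_nodup hnd, hldef]
      rfl
    unfold mu at h2 ⊢
    omega
  · intro y hy
    rcases (hml y).1 hy with rfl | rfl | rfl | rfl | rfl | rfl
    · exact Or.inl (hcP _ (by norm_num) (by norm_num))
    · exact Or.inl (hcP _ (by norm_num) (by norm_num))
    · exact Or.inl (hcP _ (by norm_num) (by norm_num))
    · exact Or.inl (hcP _ (by norm_num) (by norm_num))
    · exact Or.inr ((hmD₁ _).2 (by simp))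
    · exact Or.inr ((hmD₁ _).2 (by simp))
  · rw [hldef]
    simp
  · rw [← hW, hldef]
    simp only [List.isChain_cons_cons, List.isChain_singleton, and_true]
    exact ⟨eC _ _ (by norm_num) (by norm_num) (by norm_num),
      eC _ _ (by norm_num) (by norm_num) (by norm_num),
      eC _ _ (by norm_num) (by norm_num) (by norm_num), e2u, eux⟩
  · rw [← hW]
    intro y hy
    apply hmem
    rcases (hml y).1 hy with h5 | h5 | h5 | h5 | h5 | h5
    · exact Or.inl ⟨_, h5⟩
    · exact Or.inl ⟨_, h5⟩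
    · exact Or.inl ⟨_, h5⟩
    · exact Or.inl ⟨_, h5⟩
    · exact Or.inr (Or.inl h5)
    · exact Or.inr (Or.inr h5)
  · rw [← hW]
    intro y hy _
    apply hmem
    rcases hy with hy | hy
    · obtain ⟨i, -, -, h5⟩ := (hctx.hP y).1 hy
      exact Or.inl ⟨i, h5.symm⟩
    · rcases (hmD y).1 hy with h5 | h5 | h5 | h5 | h5
      · exact Or.inl ⟨_, h5⟩
      · exact Or.inl ⟨_, h5⟩
      · exact Or.inl ⟨_, h5⟩
      · exact Or.inr (Or.inl h5)
      · exact Or.inr (Or.inr h5)
  · intro a ha b hb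
    exact h.xm_ind hf (Or.inr h4) (hcls a ha).2 (hcls b hb).2
  · -- hAl
    intro a ha y hy hay
    obtain ⟨haS', hau, hax, hX⟩ := hcls a ha
    have hyP : y ∈ P ∨ y = u ∨ y = x := by
      rcases (hml y).1 hy with rfl | rfl | rfl | rfl | h5 | h5
      · exact Or.inl (hcP _ (by norm_num) (by norm_num))
      · exact Or.inl (hcP _ (by norm_num) (by norm_num))
      · exact Or.inl (hcP _ (by norm_num) (by norm_num))
      · exact Or.inl (hcP _ (by norm_num) (by norm_num))
      · exact Or.inr (Or.inl h5)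
      · exact Or.inr (Or.inr h5)
    rcases hX with ⟨t, ht4, htk, rfl, haA⟩ | ⟨hia, -⟩
    · rcases hyP with h5 | rfl | rfl
      · exact st.AP _ haA y h5 hay
      · exact h.two y iu 1 t (by norm_num) (by omega) (by omega) hcu.symm hay.symm
      · exact h.two y ix 3 t (by norm_num) (by omega) (by omega) hxc hay.symm
    · have haA : a ∉ A := (h.deg hia ⟨y, hay⟩).2.1
      have hnb : H.Adj a (c 1) ∨ H.Adj a (c 3) := by
        unfold newA at ha
        rw [Finset.mem_filter] at ha
        rcases ha.2 with h5 | ⟨d, hd, hdl, had⟩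
        · exact absurd h5 haA
        · rcases Finset.mem_union.1 hd with h5 | h5
          · rcases hPN d h5 hdl a had.symm with h6 | h6
            · exact absurd h6 (Finset.disjoint_left.1 st.dj (hS'S haS'))
            · exact absurd h6 (hin a 1 hia)
          · rcases (hmD d).1 h5 with rfl | rfl | rfl | rfl | rfl
            · exact Or.inr had
            · rcases h.cf_N hf had.symm with h6 | h6
              · exact absurd h6 (hin a _ hia)
              · exact absurd h6 (hin a _ hia)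
            · exact Or.inl had
            · exact absurd ((hml _).2 (by simp)) hdl
            · exact absurd ((hml _).2 (by simp)) hdl
      rcases hnb with ha1 | ha3
      · rcases hyP with h5 | rfl | rfl
        · obtain ⟨j, hj, hj0, rfl⟩ := (hctx.hP y).1 h5
          obtain ⟨-, hj2⟩ := h.zp_q hia ha1 hj hj0 hay
          subst hj2
          exact hau (h.zp_uniq ⟨hia, ha1, hay⟩ hz)
        · exact st.gd.tri a (c 1) y ha1 hcu hay
        · rcases st.gd.quad a (c 1) u y ha1 hcu hux hay.symm with h6 | h6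
          · exact hau h6
          · exact hin y 1 ix h6.symm
      · rcases hyP with h5 | rfl | rfl
        · obtain ⟨j, hj, hj0, rfl⟩ := (hctx.hP y).1 h5
          obtain ⟨-, h6 | h6⟩ := h.twoP a hia 3 j (by norm_num) (by omega) hj hj0 ha3 hay
          · omega
          · omega
        · rcases st.gd.quad a (c 3) x y ha3 hxc.symm hux.symm hay.symm with h6 | h6
          · exact hax h6
          · exact hin y 3 iu h6.symm
        · exact st.gd.tri a (c 3) y ha3 hxc.symm hay
  · -- hw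
    rw [hmS']
    refine ⟨hcS 4 (by norm_num) le_rfl, ?_⟩
    rintro (h5 | h5 | h5 | h5 | h5)
    · exact hne _ _ (by norm_num) (by norm_num) (by norm_num) (by norm_num) (by norm_num) h5
    · exact hne _ _ (by norm_num) (by norm_num) (by norm_num) (by norm_num) (by norm_num) h5
    · exact hne _ _ (by norm_num) (by norm_num) (by norm_num) (by norm_num) (by norm_num) h5
    · exact hni _ _ iu h5
    · exact hni _ _ ix h5
  · have := hcy.adj 3
    norm_num at this
    exact this
  · -- hwN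
    intro y hy hay
    rcases (hmD₁ y).1 hy with rfl | rfl | rfl | rfl
    · rcases noch_idx hctx h.noch (i := 2) (j := 4) (by norm_num) (by norm_num) (by omega)
        hay.symm with h5 | h5
      · omega
      · have := h5.1
        norm_num at this
    · rcases noch_idx hctx h.noch (i := 1) (j := 4) (by norm_num) (by norm_num) (by omega)
        hay.symm with h5 | h5
      · omega
      · have := h5.1
        norm_num at this
    · exact h.two y iu 1 4 (by norm_num) (by norm_num) (by omega) hcu.symm hay.symm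
    · exact h.two y ix 3 4 (by norm_num) (by norm_num) (by omega) hxc hay.symm
  · refine h.val2 (by norm_num) (by omega) ?_
    have := (hctx.Aind h4).2
    norm_num at this
    exact this
  · intro y hy hy4
    exact h.x_h1 hf hS'S hS5 hDl hPN3 hy hy4
  · intro y hy _
    rcases (hmD₁ y).1 hy with rfl | rfl | rfl | rfl
    · exact (h.valA h.a2).ge
    · exact h.val1.1.ge
    · exact h.valI iu ⟨x, hux⟩
    · exact h.valI ix ⟨u, hux.symm⟩
  · have h5 := h.x_rem hf (by omega) (zs := []) (Or.inl rfl)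
    rw [List.append_nil, ← hD₁] at h5
    exact h5

end Pool.Agent.Lib.MP_a33b01_co_G5
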