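import Pool.Agent.Lib.MP_a33b01_co_G5.FxC
import Pool.Agent.Lib.MP_a33b01_co_G5.FxU

set_option autoImplicit false

/-!
# MP_a33b01_co, project G5: the conflict at c 2, k at least five
-/

namespace Pool.Agent.Lib.MP_a33b01_co_G5

open Classical
open Pool.Agent.Lib.MP_a33b01_co (Sph sk cn supp EvenG Removes Wg)

variable {V : Type} {F K : Finset (Finset V)} {τ : Finset V} {H : SimpleGraph V}
  {S P A : Finset V} {m q k n : ℕ} {c : ℤ → V} {u x : V}

private theorem FX_k (h : FC F τ H S P A m c K q k n) (h4 : c 4 ∈ A) : 3 < k := by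
  by_contra hk
  have h3 := h.k3
  have hk3 : k = 3 := by omega
  have hm := h.ctx.hm
  have hq := h.q2
  have h1 := h.ctx.bd.cy.per (1 - (q : ℤ))
  have e : 1 - (q : ℤ) + (m : ℤ) = 4 := by
    rw [hm, hk3]
    push_cast
    ring
  rw [e] at h1
  have h2 := (h.ctx.cP (i := 1 - (q : ℤ)) (by omega) (by omega)).2
  rw [← h1] at h2
  exact h2 (h.ctx.st.AS h4)

private theorem FX_LH (h : FC F τ H S P A m c K q k n) {W : Finset V} {d : ℕ} {j : ℤ} {y : V}
    (hd : 1 ≤ d) (hdq : d ≤ 5) (hdm : d ≤ m) (hj : j = 1 - (q : ℤ) + d - 1) (hy : inn c y)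
    (hW : ∀ v ∈ arc c (1 - (q : ℤ)) d ++ [y], v ∈ W)
    (ho : OutE F τ (rs H W) (c j) y) :
    LH F τ H W (arc c (1 - (q : ℤ)) d ++ [y]) := by
  obtain ⟨e, rfl⟩ : ∃ e, d = e + 1 := ⟨d - 1, by omega⟩
  have hjj : j = 1 - (q : ℤ) + (e : ℤ) := by
    rw [hj]
    push_cast
    ring
  refine ⟨?_, ?_, ?_, ?_⟩
  · refine List.Nodup.append (arc_nodup h.ctx.bd.cy _ hdm) (List.nodup_singleton y) ?_
    intro v hv hv'
    rw [List.mem_singleton] at hv'
    subst hv'
    obtain ⟨i, -, -, hi⟩ := mem_arc.1 hv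
    exact hy i hi
  · rw [List.length_append, arc_length, List.length_singleton]
    omega
  · rw [arc_succ]
    refine chain_append ?_ (y := y) (l' := []) ?_ (List.isChain_singleton _)
    · rw [← arc_succ]
      refine h.outArc ?_
      intro i h1 h2
      exact hW _ (List.mem_append_left _ (mem_arc.2 ⟨i, h1, h2, rfl⟩))
    · rw [← hjj]
      exact ho
  · intro v hv
    rw [List.mem_append] at hv
    rcases hv with hv | hv
    · obtain ⟨i, -, -, rfl⟩ := mem_arc.1 hv
      exact h.outc W i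
    · rw [List.mem_singleton] at hv
      subst hv
      obtain ⟨-, t, ht, -, hyt⟩ := ho
      exact ⟨t, ht, hyt⟩

private theorem FX_idx (h : FC F τ H S P A m c K q k n) {p : V} (hp : p ∈ P) :
    ∃ i : ℤ, -(q : ℤ) < i ∧ i ≤ 0 ∧ c i = p := (h.ctx.hP p).1 hp

private theorem FX_ct (h : FC F τ H S P A m c K q k n) (hf : Cf H c 2 u x) (h4 : c 4 ∈ A)
    {y : V} {s : ℕ} (hs : s < q) (hc : Ct H c u y s) : Cl H S P A := by
  have hk := FX_k h h4
  have hxc : H.Adj x (c 3) := by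
    have := hf.xc
    norm_num at this
    exact this
  have hm := h.ctx.hm
  have hq6 := h.ctx.q6
  obtain ⟨hs1, hs3⟩ := h.ct_s hc hs
  have hyx : y ≠ x := by
    rintro rfl
    obtain ⟨-, h1 | h1⟩ := h.twoP y hf.ix 3 (-(s : ℤ)) (by norm_num) (by omega) (by omega)
      (by omega) hxc hc.yc
    · omega
    · omega
  have hy3 : ¬ H.Adj y (c 3) := by
    intro hadj
    rcases h.ctx.st.gd.quad y u x (c 3) hc.uy.symm hf.ux hxc hadj.symm with h1 | h1
    · exact hyx h1
    · exact hf.iu 3 h1.symm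
  refine h.fx_gen hf h4 (l := arc c (1 - (q : ℤ)) (q - s) ++ [y]) (zs := [y])
    (Or.inr ⟨y, rfl, hc.iy, hc.uy.ne', hyx, hy3, Or.inr ⟨hc.uy.symm, ?_, ?_⟩⟩) ?_ ?_ ?_ ?_ ?_
  · intro hadj
    exact h.ctx.st.gd.tri _ _ _ hc.cu hc.uy hadj.symm
  · intro hadj
    exact h.ctx.st.gd.tri _ _ _ hc.uy hadj hf.ux
  · intro v hv
    rw [List.mem_append] at hv
    rcases hv with hv | hv
    · obtain ⟨i, h1, h2, rfl⟩ := mem_arc.1 hv
      exact Or.inl (h.ctx.cP (by omega) (by omega)).1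
    · exact Or.inr hv
  · intro v hv
    exact List.mem_append_right _ hv
  · intro W hW1 hW
    refine FX_LH h (j := -(s : ℤ)) (by omega) (by omega) (by omega) (by omega) hc.iy hW ?_
    refine h.ct_out hc hs hW1 ?_ ?_
    · exact hW _ (List.mem_append_left _ (mem_arc.2 ⟨-(s : ℤ), by omega, by omega, rfl⟩))
    · exact hW _ (List.mem_append_right _ (List.mem_singleton_self y))
  · intro p hp hpl w hw
    obtain ⟨i, h1, h2, rfl⟩ := FX_idx h hp
    have h3 : -(s : ℤ) < i := by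
      by_contra h3
      exact hpl (List.mem_append_left _ (mem_arc.2 ⟨i, by omega, by omega, rfl⟩))
    rcases h.ct_N hc hs h3 h2 hw with h5 | h5
    · left
      rw [h5]
      exact (h.ctx.cP (by omega) (by omega)).1
    · by_cases h6 : i = 0
      · right
        left
        rw [h5, h6, zero_add]
      · left
        rw [h5]
        exact (h.ctx.cP (by omega) (by omega)).1
  · intro a ha haS hay v hv hav
    rw [List.mem_append] at hv
    rcases hv with hv | hv
    · obtain ⟨i, h1, h2, rfl⟩ := mem_arc.1 hv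
      rcases h.xm_P hf hk ha (j := i) (by omega) (by omega) hav with
        ⟨-, h5⟩ | ⟨s', hs', -, h5⟩ | ⟨-, h5⟩
      · exact h.ct_zp hc hs h5
      · exact hay (List.mem_singleton.2 (h.ct_uniq h5 hs' hc hs).2.1)
      · exact h.ct_zp hc hs h5
    · rw [List.mem_singleton] at hv
      subst hv
      exact h.xm_y hf hc.iy hc.uy hyx ha hav

private theorem FX_zp (h : FC F τ H S P A m c K q k n) (hf : Cf H c 2 u x) (h4 : c 4 ∈ A)
    {z : V} (hq : q = 6) (hz : Zp H c z) (hzu : z ≠ u) : Cl H S P A := by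
  have hk := FX_k h h4
  have hxc : H.Adj x (c 3) := by
    have := hf.xc
    norm_num at this
    exact this
  have hcu : H.Adj (c 1) u := by
    have := hf.cu
    norm_num at this
    exact this
  have hm := h.ctx.hm
  have hz3 : ¬ H.Adj z (c 3) := h.two z hz.iz 1 3 (by norm_num) (by norm_num) (by omega) hz.z1
  have hzx : z ≠ x := by
    rintro rfl
    exact hz3 hxc
  have hq5 : (-5 : ℤ) = 1 - (q : ℤ) := by
    rw [hq]
    norm_num
  refine h.fx_gen hf h4 (l := arc c (-5) 4 ++ [z]) (zs := [z])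
    (Or.inr ⟨z, rfl, hz.iz, hzu, hzx, hz3, Or.inl ⟨hz.z1, ?_, ?_⟩⟩) ?_ ?_ ?_ ?_ ?_
  · intro hadj
    exact h.ctx.st.gd.tri _ _ _ hz.z1 hcu hadj
  · intro hadj
    rcases h.ctx.st.gd.quad z x u (c 1) hadj hf.ux.symm hcu.symm hz.z1.symm with h1 | h1
    · exact hzu h1
    · exact hf.ix 1 h1.symm
  · intro v hv
    rw [List.mem_append] at hv
    rcases hv with hv | hv
    · obtain ⟨i, h1, h2, rfl⟩ := mem_arc.1 hv
      exact Or.inl (h.ctx.cP (by omega) (by omega)).1
    · exact Or.inr hv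
  · intro v hv
    exact List.mem_append_right _ hv
  · intro W hW1 hW
    rw [hq5] at hW ⊢
    refine FX_LH h (j := -2) (by omega) (by omega) (by omega) (by omega) hz.iz hW ?_
    refine h.zp_out hz hW1 ?_ ?_
    · exact hW _ (List.mem_append_left _ (mem_arc.2 ⟨-2, by omega, by omega, rfl⟩))
    · exact hW _ (List.mem_append_right _ (List.mem_singleton_self z))
  · intro p hp hpl w hw
    obtain ⟨i, h1, h2, rfl⟩ := FX_idx h hp
    have h3 : -2 < i := by
      by_contra h3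
      exact hpl (List.mem_append_left _ (mem_arc.2 ⟨i, by omega, by omega, rfl⟩))
    have h6 : i = -1 ∨ i = 0 := by omega
    rcases h6 with h6 | h6
    · subst h6
      rcases (h.zp_N hz).1 hw with h5 | h5
      · left
        rw [h5]
        exact (h.ctx.cP (by omega) (by omega)).1
      · left
        rw [h5]
        exact (h.ctx.cP (by omega) (by omega)).1
    · subst h6
      rcases (h.zp_N hz).2 hw with h5 | h5
      · left
        rw [h5]
        exact (h.ctx.cP (by omega) (by omega)).1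
      · right
        left
        exact h5
  · intro a ha haS haz v hv hav
    rw [List.mem_append] at hv
    rcases hv with hv | hv
    · obtain ⟨i, h1, h2, rfl⟩ := mem_arc.1 hv
      rcases h.xm_P hf hk ha (j := i) (by omega) (by omega) hav with
        ⟨-, h5⟩ | ⟨s', hs', -, h5⟩ | ⟨-, h5⟩
      · exact haz (List.mem_singleton.2 (h.zp_uniq h5 hz))
      · exact h.ct_zp h5 hs' hz
      · exact hzu (h.zp_uniq hz h5)
    · rw [List.mem_singleton] at hv
      subst hv
      exact h.xm_z hf hz hzu ha hav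

/-- The conflict with the centre `c 2`, `c 4 ∈ A` (so `k ≥ 5`).
Case 1: `q = 6` and there is `z` with `Zp H c z`.  If `z = u`: `cl_FXu`.  Otherwise `FC.fx_gen` with
`zs = [z]`, `l = arc c (-5) 4 ++ [z]` (`FC.zp_N`, `FC.zp_out`; `z` is not adjacent to `c 3` (`two`), `u`
(triangle), `x` (4-cycle)); `hAl`: for `v = z` by `FC.xm_z`, for `v ∈ P` by `FC.xm_P`: `Zp a` gives
`a = z` (`FC.zp_uniq`), a contact is impossible by `FC.ct_zp`, `Zp u` gives `u = z`.
Case 2: no such `z` (or `q ≠ 6`), and there are `y`, `s < q` with `Ct H c u y s`: `FC.fx_gen` with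
`zs = [y]`, `l = arc c (1 - q) (q - s) ++ [y]` (`FC.ct_s`, `FC.ct_N`, `FC.ct_out`; `y ≠ x` by `twoP`
(`x ~ c 3`, `3 < k`); `y` is not adjacent to `c 3` (4-cycle), `c 1`, `x` (triangles)); `hAl`: for
`v = y` by `FC.xm_y`, for `v ∈ P` by `FC.xm_P` and `FC.ct_uniq`.
Case 3: neither: `zs = []`, `l = arc c (1 - q) q`; `hAl`: `FC.xm_P`. -/
theorem cl_FX (h : FC F τ H S P A m c K q k n) (hf : Cf H c 2 u x) (h4 : c 4 ∈ A) :
    Cl H S P A := by
  have hk := FX_k h h4
  have hm := h.ctx.hm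
  have hq6 := h.ctx.q6
  by_cases h1 : ∃ y : V, ∃ s : ℕ, s < q ∧ Ct H c u y s
  · obtain ⟨y, s, hs, hc⟩ := h1
    exact FX_ct h hf h4 hs hc
  by_cases h2 : q = 6 ∧ ∃ z, Zp H c z
  · obtain ⟨hq, z, hz⟩ := h2
    by_cases hzu : z = u
    · subst hzu
      exact cl_FXu h hf h4 hq hz
    · exact FX_zp h hf h4 hq hz hzu
  refine h.fx_gen hf h4 (l := arc c (1 - (q : ℤ)) q) (zs := []) (Or.inl rfl) ?_ ?_ ?_ ?_ ?_
  · intro v hv
    obtain ⟨i, h3, h5, rfl⟩ := mem_arc.1 hv
    exact Or.inl (h.ctx.cP (by omega) (by omega)).1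
  · intro v hv
    simp at hv
  · intro W hW1 hW
    refine ⟨arc_nodup h.ctx.bd.cy _ (by omega), ?_, ?_, ?_⟩
    · rw [arc_length]
      exact hq6
    · refine h.outArc ?_
      intro i h3 h5
      exact hW _ (mem_arc.2 ⟨i, h3, h5, rfl⟩)
    · intro v hv
      obtain ⟨i, -, -, rfl⟩ := mem_arc.1 hv
      exact h.outc W i
  · intro p hp hpl
    obtain ⟨i, h3, h5, rfl⟩ := FX_idx h hp
    exact absurd (mem_arc.2 ⟨i, by omega, by omega, rfl⟩) hpl
  · intro a ha haS haz v hv hav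
    obtain ⟨i, h3, h5, rfl⟩ := mem_arc.1 hv
    rcases h.xm_P hf hk ha (j := i) (by omega) (by omega) hav with
      ⟨hq, h6⟩ | ⟨s', hs', -, h6⟩ | ⟨hq, h6⟩
    · exact h2 ⟨hq, a, h6⟩
    · exact h1 ⟨a, s', hs', h6⟩
    · exact h2 ⟨hq, u, h6⟩

end Pool.Agent.Lib.MP_a33b01_co_G5
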