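import Pool.Agent.Lib.MP_a33b01_co_G5.FmA
import Pool.Agent.Lib.MP_a33b01_co_G5.DcA

set_option autoImplicit false

/-!
# MP_a33b01_co, project G5: first consequences in the final situation
-/

namespace Pool.Agent.Lib.MP_a33b01_co_G5

open Classical
open Pool.Agent.Lib.MP_a33b01_co (Sph sk cn supp EvenG Removes Wg)

variable {V : Type} {F K : Finset (Finset V)} {τ : Finset V} {H : SimpleGraph V}
  {S P A : Finset V} {m q k n : ℕ} {c : ℤ → V}

private theorem FcA1_per (hc : Cy H m c) (i t : ℤ) : c (i + t * m) = c i := by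
  induction t using Int.induction_on with
  | zero => simp
  | succ t ih =>
    have e1 : i + ((t : ℤ) + 1) * m = i + t * m + m := by ring
    rw [e1, hc.per, ih]
  | pred t ih =>
    have e1 : i + -(t : ℤ) * m = i + (-(t : ℤ) - 1) * m + m := by ring
    rw [e1, hc.per] at ih
    exact ih

private theorem FcA1_three {T : Finset V} (hT : 3 ≤ T.card) (a b : V) :
    ∃ y ∈ T, y ≠ a ∧ y ≠ b := by
  by_contra h0
  push Not at h0
  have h1 : T ⊆ {a, b} := by
    intro y hy
    rw [Finset.mem_insert, Finset.mem_singleton]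
    by_cases hya : y = a
    · exact Or.inl hya
    · exact Or.inr (h0 y hy hya)
  have h2 := Finset.card_le_card h1
  have h3 : ({a, b} : Finset V).card ≤ 2 := Finset.card_le_two
  omega

section

variable (h : FC F τ H S P A m c K q k n)
include h

/-- `m ≥ 9`, `q ≤ 6` -/
theorem FC.k3 : 3 ≤ k := by
  have h1 := h.m9
  have h2 := h.ctx.hm
  have h3 := h.ctx.q6
  omega

/-- the neighbours of the vertices of the cycle (`noch`) -/
theorem FC.nbr {v : V} {i : ℤ} (hv : H.Adj (c i) v) :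
    inn c v ∨ v = c (i + 1) ∨ v = c (i - 1) := by
  by_cases h0 : ∃ j, c j = v
  · right
    obtain ⟨j, rfl⟩ := h0
    rcases h.noch i j hv with ⟨t, ht⟩ | ⟨t, ht⟩
    · left
      have e1 : j = (i + 1) + t * m := by linarith [mul_comm (m : ℤ) t]
      rw [e1, FcA1_per h.ctx.bd.cy]
    · right
      have e1 : i - 1 = j + t * m := by linarith [mul_comm (m : ℤ) t]
      rw [e1, FcA1_per h.ctx.bd.cy]
  · left
    intro j hj
    exact h0 ⟨j, hj⟩

/-- the vertices inside (with a neighbour) are in `S`, not in `A`, they have degree at least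
three, i.e. besides two given vertices there is another neighbour (`Ctx.innS`, `nf`) -/
theorem FC.deg {v : V} (hv : inn c v) (hy : ∃ y, H.Adj v y) :
    v ∈ S ∧ v ∉ A ∧ v ∉ P ∧ ∀ a b : V, ∃ y, H.Adj v y ∧ y ≠ a ∧ y ≠ b := by
  obtain ⟨y, hy⟩ := hy
  have hvW := h.ctx.st.sup v y hy
  obtain ⟨hS, hA⟩ := h.ctx.innS hv hvW
  refine ⟨hS, hA, fun hP => Finset.disjoint_left.1 h.ctx.st.dj hS hP, fun a b => ?_⟩
  have hn := h.ctx.nf v hS
  rw [if_neg hA, Nat.add_zero] at hn
  obtain ⟨y, hy, h1, h2⟩ := FcA1_three hn a b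
  exact ⟨y, (Finset.mem_filter.1 hy).2, h1, h2⟩

/-- the same for `c i`, `1 ≤ i ≤ k`, outside of `A` -/
theorem FC.deg' {i : ℤ} (h1 : 1 ≤ i) (h2 : i ≤ k) (hi : c i ∉ A) (a b : V) :
    ∃ y, H.Adj (c i) y ∧ y ≠ a ∧ y ≠ b := by
  have hn := h.ctx.nf (c i) (h.ctx.cS h1 h2).1
  rw [if_neg hi, Nat.add_zero] at hn
  obtain ⟨y, hy, h1, h2⟩ := FcA1_three hn a b
  exact ⟨y, (Finset.mem_filter.1 hy).2, h1, h2⟩

end

end Pool.Agent.Lib.MP_a33b01_co_G5
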