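import Pool.Agent.Lib.MP_a33b01_co_G5.FmA
import Pool.Agent.Lib.MP_a33b01_co_G5.DcA
import Pool.Agent.Lib.MP_a33b01_co_G5.FcA1

set_option autoImplicit false

/-!
# MP_a33b01_co, project G5: first consequences in the final situation
-/

namespace Pool.Agent.Lib.MP_a33b01_co_G5

open Classical
open Pool.Agent.Lib.MP_a33b01_co (Sph sk cn supp EvenG Removes Wg)

variable {V : Type} {F K : Finset (Finset V)} {τ : Finset V} {H : SimpleGraph V}
  {S P A : Finset V} {m q k n : ℕ} {c : ℤ → V}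

private theorem FcA2_zero {u : V} (h0 : ∀ p ∈ P, ¬ H.Adj u p) :
    (P.filter fun p => H.Adj u p).card = 0 := by
  rw [Finset.card_eq_zero, Finset.filter_eq_empty_iff]
  exact fun p hp => h0 p hp

private theorem FcA2_one {u a : V} (ha : a ∈ P) (hu : H.Adj u a)
    (h0 : ∀ p ∈ P, H.Adj u p → p = a) :
    (P.filter fun p => H.Adj u p).card = 1 := by
  rw [Finset.card_eq_one]
  refine ⟨a, ?_⟩
  ext p
  rw [Finset.mem_filter, Finset.mem_singleton]
  constructor
  · rintro ⟨h1, h2⟩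
    exact h0 p h1 h2
  · rintro rfl
    exact ⟨ha, hu⟩

section

variable (h : FC F τ H S P A m c K q k n)
include h

/-- `c i ∈ A` has no neighbours in `P` -/
theorem FC.valA {i : ℤ} (hi : c i ∈ A) : fv H P A (c i) = 1 := by
  unfold fv
  rw [if_pos hi, FcA2_zero (h.ctx.st.AP _ hi)]

/-- `1 < i < k`: no neighbours in `P` (`noch`) -/
theorem FC.val2 {i : ℤ} (h1 : 1 < i) (h2 : i < k) (hi : c i ∉ A) : fv H P A (c i) = 2 := by
  unfold fv
  rw [if_neg hi, FcA2_zero]
  intro p hp hip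
  obtain ⟨j, h3, h4, rfl⟩ := (h.ctx.hP p).1 hp
  rcases noch_idx h.ctx h.noch h3 (by omega) h2.le hip.symm with h5 | ⟨-, h5⟩
  · omega
  · omega

/-- `c 1` has exactly one neighbour in `P` (`c 0`), `c k` also (`c (k + 1) = c (1 - q)`) -/
theorem FC.val1 : fv H P A (c 1) = 1 ∧ fv H P A (c k) = 1 := by
  have hk := h.k3
  have hq := h.q2
  have hA1 : c 1 ∉ A := by
    intro h1
    obtain ⟨i, h2, h3, h4⟩ := h.ctx.Aidx h1
    have := h.ctx.inj (by omega) (by omega) (by omega) (by omega) h4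
    omega
  have hAk : c k ∉ A := by
    intro h1
    obtain ⟨i, h2, h3, h4⟩ := h.ctx.Aidx h1
    have := h.ctx.inj (by omega) (by omega) (by omega) (by omega) h4
    omega
  constructor
  · unfold fv
    rw [if_neg hA1, FcA2_one (a := c 0) (h.ctx.cP (by omega) le_rfl).1]
    · have := (h.ctx.bd.cy.adj 0).symm
      simpa using this
    · intro p hp hip
      obtain ⟨j, h3, h4, rfl⟩ := (h.ctx.hP p).1 hp
      rcases noch_idx h.ctx h.noch h3 (by omega) (by omega) hip.symm with h5 | ⟨-, h5⟩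
      · congr 1
        omega
      · omega
  · unfold fv
    rw [if_neg hAk, FcA2_one (a := c (1 - q)) (h.ctx.cP (by omega) (by omega)).1]
    · have h1 := h.ctx.bd.cy.adj k
      have h2 := h.ctx.bd.cy.per (1 - q)
      have h3 : (1 : ℤ) - q + m = k + 1 := by
        have := h.ctx.hm
        omega
      rw [h3] at h2
      rw [h2] at h1
      exact h1
    · intro p hp hip
      obtain ⟨j, h3, h4, rfl⟩ := (h.ctx.hP p).1 hp
      rcases noch_idx h.ctx h.noch h3 (by omega) le_rfl hip.symm with h5 | ⟨h5, -⟩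
      · omega
      · rw [h5]

/-- `twoPP` -/
theorem FC.valI {v : V} (hv : inn c v) (hy : ∃ y, H.Adj v y) : 1 ≤ fv H P A v := by
  obtain ⟨hS, hA, hP, -⟩ := h.deg hv hy
  unfold fv
  rw [if_neg hA]
  have h1 : (P.filter fun p => H.Adj v p).card ≤ 1 := by
    rw [Finset.card_le_one]
    intro x hx y hy
    obtain ⟨hx, hx'⟩ := Finset.mem_filter.1 hx
    obtain ⟨hy, hy'⟩ := Finset.mem_filter.1 hy
    obtain ⟨i, h1, h2, rfl⟩ := (h.ctx.hP x).1 hx
    obtain ⟨j, h3, h4, rfl⟩ := (h.ctx.hP y).1 hy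
    rcases lt_trichotomy i j with h5 | h5 | h5
    · exact absurd hy' (h.twoPP v hv i j h1 h5 h4 hx')
    · rw [h5]
    · exact absurd hx' (h.twoPP v hv j i h3 h5 h2 hy')
  omega

theorem FC.valI2 {v : V} (hv : inn c v) (hy : ∃ y, H.Adj v y)
    (hP : ∀ j : ℤ, -(q : ℤ) < j → j ≤ 0 → ¬ H.Adj v (c j)) : fv H P A v = 2 := by
  obtain ⟨hS, hA, -, -⟩ := h.deg hv hy
  unfold fv
  rw [if_neg hA, FcA2_zero]
  intro p hp hvp
  obtain ⟨j, h3, h4, rfl⟩ := (h.ctx.hP p).1 hp
  exact hP j h3 h4 hvp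

end

end Pool.Agent.Lib.MP_a33b01_co_G5
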