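import Pool.Agent.Lib.MP_a33b01_co_G5.FmA
import Pool.Agent.Lib.MP_a33b01_co_G5.DcA
import Pool.Agent.Lib.MP_a33b01_co_G5.FcA1
import Pool.Agent.Lib.MP_a33b01_co_G5.FcA2

set_option autoImplicit false

/-!
# MP_a33b01_co, project G5: first consequences in the final situation
-/

namespace Pool.Agent.Lib.MP_a33b01_co_G5

open Classical
open Pool.Agent.Lib.MP_a33b01_co (Sph sk cn supp EvenG Removes Wg)

variable {V : Type} {F K : Finset (Finset V)} {τ : Finset V} {H : SimpleGraph V}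
  {S P A : Finset V} {m q k n : ℕ} {c : ℤ → V}

private theorem FcA3_le (H : SimpleGraph V) (W : Finset V) : rs H W ≤ H := by
  intro x y hxy
  exact hxy.1

section

variable (h : FC F τ H S P A m c K q k n)
include h

/-- `bd_out`, `out_mono` -/
theorem FC.outc (W : Finset V) (i : ℤ) : Out F τ (rs H W) (c i) := by
  have h1 := h.ctx.st
  exact out_mono (FcA3_le H W)
    ((bd_out h1.gd.sph h1.gd.le h1.tF h.ctx.bd ⟨_, h.ctx.bd.cy.adj i⟩).2 ⟨i, rfl⟩)

/-- `out_nbr` -/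
theorem FC.outn {W : Finset V} {v u : V} (hv : v ∉ W) (ho : Out F τ (rs H W) v)
    (hu : H.Adj v u) : Out F τ (rs H W) u :=
  out_nbr h.ctx.st.gd.sph h.ctx.st.tF (fun _ hy => hv hy.2.1) ho (h.ctx.st.gd.le hu)

/-- `bd_outE`, `outE_mono` -/
theorem FC.outEc {W : Finset V} {i : ℤ} (h1 : c i ∈ W) (h2 : c (i + 1) ∈ W) :
    OutE F τ (rs H W) (c i) (c (i + 1)) := by
  have h3 := h.ctx.st
  exact outE_mono (FcA3_le H W) ⟨h.ctx.bd.cy.adj i, h1, h2⟩
    ((bd_outE h3.gd.sph h3.gd.le h3.tF h.ctx.bd).2 ⟨i, Or.inl ⟨rfl, rfl⟩⟩)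

/-- an arc of the cycle contained in `W` is a path of outer edges (`arc_chain`) -/
theorem FC.outArc {W : Finset V} {a : ℤ} {e : ℕ} (hW : ∀ i : ℤ, a ≤ i → i < a + e → c i ∈ W) :
    (arc c a e).IsChain (OutE F τ (rs H W)) :=
  arc_chain fun i h1 h2 => h.outEc (hW i h1 (by omega)) (hW (i + 1) (by omega) h2)

end

end Pool.Agent.Lib.MP_a33b01_co_G5
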