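import Pool.Agent.Lib.MP_a33b01_co_G5.TpF

set_option autoImplicit false

/-!
# MP_a33b01_co, project G5: the cycle formed by an arc and a path
-/

namespace Pool.Agent.Lib.MP_a33b01_co_G5

open Classical
open Pool.Agent.Lib.MP_a33b01_co (Sph sk cn supp EvenG Removes Wg)

variable {V : Type} {H : SimpleGraph V} {m : ℕ} {c : ℤ → V} {i : ℤ} {d : ℕ} {Q : List V}

theorem pl_length : (pl c i d Q).length = d + 1 + Q.length := by
  unfold pl
  rw [List.length_append, arc_length, List.length_reverse]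

/-- `theta_lcy` -/
theorem PC.lcy (hc : Cy H m c) (hp : PC H m c i d Q) : LCy H (pl c i d Q) := by
  unfold pl
  exact (theta_lcy hc hp.hd hp.hdm (fun h => absurd h hp.ne) hp.ch hp.nd hp.inn).1

theorem PC.mem (hp : PC H m c i d Q) {v : V} :
    (∃ j, per (c 0) (pl c i d Q) j = v) ↔ (∃ t : ℤ, i ≤ t ∧ t ≤ i + d ∧ c t = v) ∨ v ∈ Q := by
  have hne : pl c i d Q ≠ [] := by
    intro h
    have h1 := pl_length (c := c) (i := i) (d := d) (Q := Q)
    rw [h] at h1
    simp only [List.length_nil] at h1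
    omega
  rw [mem_per (c 0) hne]
  unfold pl
  rw [List.mem_append, mem_arc, List.mem_reverse]
  constructor
  · rintro (⟨t, h1, h2, h3⟩ | h1)
    · exact Or.inl ⟨t, h1, by push_cast at h2; omega, h3⟩
    · exact Or.inr h1
  · rintro (⟨t, h1, h2, h3⟩ | h1)
    · exact Or.inl ⟨t, h1, by push_cast; omega, h3⟩
    · exact Or.inr h1

/-- the arc is divided at `t` -/
private theorem FcB1_arc_append (a : ℤ) (n r : ℕ) :
    arc c a (n + r) = arc c a n ++ arc c (a + n) r := by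
  induction r with
  | zero =>
    have h1 : arc c (a + n) 0 = [] := by
      unfold arc
      simp
    rw [h1, List.append_nil, Nat.add_zero]
  | succ r ih =>
    rw [← Nat.add_assoc, arc_succ, ih, arc_succ, List.append_assoc]
    congr 4
    push_cast
    ring

/-- the edges of the arc (`ce_mid`, or the chain `ce_of_chain`) -/
theorem PC.ce_arc (hc : Cy H m c) (hp : PC H m c i d Q) {t : ℤ} (h1 : i ≤ t) (h2 : t < i + d) :
    CE (per (c 0) (pl c i d Q)) (c t) (c (t + 1)) := by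
  rw [ce_per (c 0) (hp.lcy hc)]
  refine Or.inl ?_
  obtain ⟨e, rfl⟩ : ∃ e : ℕ, t = i + e := ⟨(t - i).toNat, by omega⟩
  obtain ⟨r, hr⟩ : ∃ r : ℕ, d + 1 = e + ((r + 1) + 1) := ⟨d - 1 - e, by omega⟩
  have h3 : arc c i (d + 1) =
      arc c i e ++ ([c (i + e), c (i + e + 1)] ++ arc c (i + e + 1 + 1) r) := by
    rw [hr, FcB1_arc_append, arc_cons, arc_cons]
    rfl
  unfold pl
  rw [h3]
  exact ⟨arc c i e, arc c (i + e + 1 + 1) r ++ Q.reverse, by simp⟩

/-- the neighbours of the inner vertices of the arc (`ce_mid`) -/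
theorem PC.ce_in (hc : Cy H m c) (hp : PC H m c i d Q) {t : ℤ} (h1 : i < t) (h2 : t < i + d)
    (w : V) : CE (per (c 0) (pl c i d Q)) (c t) w ↔ w = c (t - 1) ∨ w = c (t + 1) := by
  obtain ⟨e, rfl⟩ : ∃ e : ℕ, t = i + e + 1 := ⟨(t - i - 1).toNat, by omega⟩
  obtain ⟨r, hr⟩ : ∃ r : ℕ, d + 1 = e + (((r + 1) + 1) + 1) := ⟨d - 2 - e, by omega⟩
  have h3 : arc c i (d + 1) = arc c i e ++ (c (i + e) :: c (i + e + 1) :: c (i + e + 1 + 1) ::
      arc c (i + e + 1 + 1 + 1) r) := by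
    rw [hr, FcB1_arc_append, arc_cons, arc_cons, arc_cons]
  rw [show i + (e : ℤ) + 1 - 1 = i + e by ring]
  refine ce_mid (l₁ := arc c i e) (l₂ := arc c (i + e + 1 + 1 + 1) r ++ Q.reverse) (c 0)
    (hp.lcy hc) ?_ w
  unfold pl
  rw [h3]
  simp

end Pool.Agent.Lib.MP_a33b01_co_G5
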