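import Pool.Agent.Lib.MP_a33b01_co_G5.TpF
import Pool.Agent.Lib.MP_a33b01_co_G5.FcB1

set_option autoImplicit false

/-!
# MP_a33b01_co, project G5: the cycle formed by an arc and a path
-/

namespace Pool.Agent.Lib.MP_a33b01_co_G5

open Classical
open Pool.Agent.Lib.MP_a33b01_co (Sph sk cn supp EvenG Removes Wg)

variable {V : Type} {H : SimpleGraph V} {m : ℕ} {c : ℤ → V} {i : ℤ} {d : ℕ} {Q : List V}

private theorem FcB2_wrap (d₀ : V) {l : List V} (h : LCy H l) (k : ℕ) (hk : k + 1 = l.length) :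
    per d₀ l (-1) = l[k] ∧ per d₀ l ((k : ℤ) + 1) = l[0]'(by have := h.three; omega) := by
  have h3 := h.three
  have h4 := (cy_per d₀ h).per
  constructor
  · rw [← h4 (-1), ← per_get d₀ (by omega)]
    congr 1
    omega
  · have e1 : ((k : ℤ) + 1) = 0 + (l.length : ℤ) := by omega
    rw [e1, h4 0]
    have := per_get d₀ (l := l) (i := 0) (by omega)
    exact this

/-- the neighbours of the first member -/
private theorem FcB2_first (d₀ : V) {l l₁ l₂ : List V} {x y v : V} (h : LCy H l)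
    (hl : l = x :: y :: l₁) (hl2 : l = l₂ ++ [v]) (w : V) :
    CE (per d₀ l) x w ↔ w = y ∨ w = v := by
  have h3 := h.three
  have hlen : l.length = l₂.length + 1 := by rw [hl2]; simp
  have e0 : per d₀ l ((0 : ℕ) : ℤ) = x := by
    rw [per_get d₀ (by omega)]
    simp [hl]
  have e1 : per d₀ l ((1 : ℕ) : ℤ) = y := by
    rw [per_get d₀ (by omega)]
    simp [hl]
  have e2 : per d₀ l (-1) = v := by
    rw [(FcB2_wrap d₀ h l₂.length hlen.symm).1]
    simp [hl2]
  have h5 := ce_iff (cy_per d₀ h) ((0 : ℕ) : ℤ) w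
  rw [e0] at h5
  rw [h5]
  have e3 : ((0 : ℕ) : ℤ) + 1 = ((1 : ℕ) : ℤ) := by simp
  have e4 : ((0 : ℕ) : ℤ) - 1 = -1 := by simp
  rw [e3, e4, e1, e2]

/-- the neighbours of the last member -/
private theorem FcB2_last (d₀ : V) {l l₁ l₂ : List V} {x b v : V} (h : LCy H l)
    (hl : l = x :: l₁) (hl2 : l = l₂ ++ [b, v]) (w : V) :
    CE (per d₀ l) v w ↔ w = x ∨ w = b := by
  have h3 := h.three
  have hlen : l.length = l₂.length + 2 := by rw [hl2]; simp
  have e0 : per d₀ l ((l₂.length + 1 : ℕ) : ℤ) = v := by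
    rw [per_get d₀ (by omega)]
    simp [hl2]
  have e1 : per d₀ l ((l₂.length : ℕ) : ℤ) = b := by
    rw [per_get d₀ (by omega)]
    simp [hl2]
  have e2 : per d₀ l (((l₂.length + 1 : ℕ) : ℤ) + 1) = x := by
    rw [(FcB2_wrap d₀ h (l₂.length + 1) (by omega)).2]
    simp [hl]
  have h5 := ce_iff (cy_per d₀ h) ((l₂.length + 1 : ℕ) : ℤ) w
  rw [e0, e2] at h5
  rw [h5]
  have e4 : ((l₂.length + 1 : ℕ) : ℤ) - 1 = ((l₂.length : ℕ) : ℤ) := by push_cast; ring
  rw [e4, e1]

/-- the first vertex of the arc: the next vertex of the arc and the last one of the list -/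
theorem PC.ce_l (hc : Cy H m c) (hp : PC H m c i d Q) (w : V) :
    CE (per (c 0) (pl c i d Q)) (c i) w ↔ w = c (i + 1) ∨ Q.head? = some w := by
  have hd := hp.hd
  obtain ⟨n, rfl⟩ : ∃ n, d = n + 1 := ⟨d - 1, by omega⟩
  obtain ⟨q, Q', rfl⟩ := List.exists_cons_of_ne_nil hp.ne
  have h1 : pl c i (n + 1) (q :: Q') =
      c i :: c (i + 1) :: (arc c (i + 1 + 1) n ++ (q :: Q').reverse) := by
    unfold pl
    rw [arc_cons, arc_cons]
    rfl
  have h2 : pl c i (n + 1) (q :: Q') = (arc c i (n + 1 + 1) ++ Q'.reverse) ++ [q] := by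
    unfold pl
    rw [List.reverse_cons, List.append_assoc]
  rw [FcB2_first (c 0) (hp.lcy hc) h1 h2 w, List.head?_cons, Option.some.injEq,
    @eq_comm V q w]

/-- the last vertex of the arc (`ce_mid`) -/
theorem PC.ce_r (hc : Cy H m c) (hp : PC H m c i d Q) (w : V) :
    CE (per (c 0) (pl c i d Q)) (c (i + d)) w ↔
      w = c (i + d - 1) ∨ Q.getLast? = some w := by
  have hd := hp.hd
  obtain ⟨n, rfl⟩ : ∃ n, d = n + 1 := ⟨d - 1, by omega⟩
  obtain ⟨Q', q, rfl⟩ : ∃ Q' q, Q = Q' ++ [q] :=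
    ⟨Q.dropLast, Q.getLast hp.ne, (List.dropLast_append_getLast hp.ne).symm⟩
  have h1 : pl c i (n + 1) (Q' ++ [q]) =
      arc c i n ++ c (i + n) :: c (i + ((n + 1 : ℕ) : ℤ)) :: q :: Q'.reverse := by
    unfold pl
    rw [arc_succ, arc_succ, List.reverse_append]
    simp
  rw [ce_mid (c 0) (hp.lcy hc) h1 w]
  have e1 : i + ((n + 1 : ℕ) : ℤ) - 1 = i + n := by push_cast; ring
  rw [e1, List.getLast?_append, List.getLast?_singleton, Option.some_or, Option.some.injEq,
    @eq_comm V q w]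

/-- the vertices of `Q` (`ce_mid`; for the first vertex of `Q`, which is the last one of the
list, `ce_per`) -/
theorem PC.ce_Q (hc : Cy H m c) (hp : PC H m c i d Q) {l₁ l₂ : List V} {a v b : V}
    (hl : c i :: Q ++ [c (i + d)] = l₁ ++ a :: v :: b :: l₂) (w : V) :
    CE (per (c 0) (pl c i d Q)) v w ↔ w = a ∨ w = b := by
  have hd := hp.hd
  have h0 : pl c i d Q = arc c i d ++ (c (i + d) :: Q.reverse) := by
    unfold pl
    rw [arc_succ, List.append_assoc]
    rfl
  have hr := congrArg List.reverse hl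
  simp only [List.reverse_append, List.reverse_cons, List.reverse_nil, List.nil_append,
    List.append_assoc, List.cons_append] at hr
  rcases l₁ with _ | ⟨x, l₁⟩
  · -- the first vertex of `Q`
    have ha : c i = a := by
      rw [List.cons_append, List.nil_append] at hl
      exact (List.cons.inj hl).1
    have h1 : c (i + d) :: Q.reverse = l₂.reverse ++ [b, v] := by
      have h2 : (c (i + d) :: Q.reverse) ++ [c i] = (l₂.reverse ++ [b, v]) ++ [a] := by
        rw [List.cons_append]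
        rw [hr]
        simp
      exact (List.append_inj_left' h2 rfl)
    obtain ⟨n, rfl⟩ : ∃ n, d = n + 1 := ⟨d - 1, by omega⟩
    have h3 : pl c i (n + 1) Q = c i :: (arc c (i + 1) (n + 1) ++ Q.reverse) := by
      unfold pl
      rw [arc_cons]
      rfl
    have h4 : pl c i (n + 1) Q = (arc c i (n + 1) ++ l₂.reverse) ++ [b, v] := by
      rw [h0, h1, List.append_assoc]
    rw [FcB2_last (c 0) (hp.lcy hc) h3 h4 w, ha]
  · have h1 : c (i + d) :: Q.reverse = l₂.reverse ++ b :: v :: a :: l₁.reverse := by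
      have h2 : (c (i + d) :: Q.reverse) ++ [c i] =
          (l₂.reverse ++ b :: v :: a :: l₁.reverse) ++ [x] := by
        rw [List.cons_append]
        rw [hr]
        simp
      exact (List.append_inj_left' h2 rfl)
    have h4 : pl c i d Q = (arc c i d ++ l₂.reverse) ++ b :: v :: a :: l₁.reverse := by
      rw [h0, h1, List.append_assoc]
    rw [ce_mid (c 0) (hp.lcy hc) h4 w]
    exact or_comm

end Pool.Agent.Lib.MP_a33b01_co_G5
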