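import Pool.Agent.Lib.MP_a33b01_co_G5.FcB1
import Pool.Agent.Lib.MP_a33b01_co_G5.FcB2

/-! MP_a33b01_co, project G5: collects the parts of the module FcB. -/
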