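import Pool.Agent.Lib.MP_a33b01_co_G5.Defs
import Pool.Agent.Lib.MP_a33b01_co.SphB
import Pool.Agent.Lib.MP_a33b01_co_G5.TpA1

set_option autoImplicit false

/-!
# MP_a33b01_co, project G5: regions
-/

namespace Pool.Agent.Lib.MP_a33b01_co_G5

open Classical
open Pool.Agent.Lib.MP_a33b01_co (Sph sk cn supp EvenG Removes Wg)

variable {V : Type} {F : Finset (Finset V)} {τ t s r : Finset V} {H H' : SimpleGraph V}

/-- If `v` is isolated in `H`, all the faces at `v` are in the same region: the link of `v` is
connected (`link_conn` of `MP_a33b01_co.SphB`), and the edges at `v` are not in `H`. -/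
theorem rc_star (hF : Sph F) {v : V} (hv : ∀ y, ¬ H.Adj v y) (h : Rc F H t s) (hs : s ∈ F)
    (hvs : v ∈ s) (hr : r ∈ F) (hvr : v ∈ r) : Rc F H t r := by
  have hex : ∀ q ∈ F, v ∈ q → ∃ w ∈ q, w ≠ v := by
    intro q hq hvq
    have hc := hF.card q hq
    have h1 : 1 < q.card := by omega
    obtain ⟨w, hw, hwv⟩ := Finset.exists_mem_ne h1 v
    exact ⟨w, hw, hwv⟩
  obtain ⟨w, hws, hwv⟩ := hex s hs hvs
  have hlink := Pool.Agent.Lib.MP_a33b01_co.link_conn hF v
    (W := {x | ∀ q ∈ F, v ∈ q → x ∈ q → Rc F H t q}) (w := w)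
    (fun q hq hvq hwq => Rc.step s q v w h hq hwv.symm hvs hws hvq hwq (hv w))
    ⟨hwv.symm, s, hs, hvs, hws⟩ (by
      intro x hx y hxy q hq hvq hyq
      have hreach : Rc F H t {v, x, y} := hx _ hxy (by simp) (by simp)
      have hvy : v ≠ y := by
        rintro rfl
        have hc := hF.card _ hxy
        have : ({v, x, v} : Finset V).card ≤ 2 := by
          have e : ({v, x, v} : Finset V) = {v, x} := by
            ext z
            simp only [Finset.mem_insert, Finset.mem_singleton]
            tauto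
          rw [e]
          exact Finset.card_le_two
        omega
      exact Rc.step {v, x, y} q v y hreach hq hvy (by simp) (by simp) hvq hyq (hv y))
  obtain ⟨u, hur, huv⟩ := hex r hr hvr
  exact hlink u ⟨huv.symm, r, hr, hvr, hur⟩ r hr hvr hur

/-- The neighbours of a deleted vertex on the outer region are on the outer region: `rc_star`,
and the edge `v u` lies in a face. -/
theorem out_nbr (hF : Sph F) (hτ : τ ∈ F) {v u : V} (hv : ∀ y, ¬ H.Adj v y)
    (h : Out F τ H v) (hu : (sk F).Adj v u) : Out F τ H u := by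
  obtain ⟨t, ht, hvt⟩ := h
  obtain ⟨_, r, hr, hvr, hur⟩ := hu
  exact ⟨r, rc_star hF hv ht (rc_mem hτ ht) hvt hr hvr, hur⟩

/-- A nonempty set which contains all the vertices with edges has a member on the outer region:
otherwise all vertices on the outer region are isolated in `H`, by `out_nbr` their neighbours are
on the outer region, and by `conn_graph` (`MP_a33b01_co.SphB`) all vertices are. -/
theorem exists_out (hF : Sph F) (hτ : τ ∈ F) {S : Finset V} (hS : S ⊆ supp F)
    (hne : S.Nonempty) (hH : ∀ x y, H.Adj x y → x ∈ S) : ∃ v ∈ S, Out F τ H v := by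
  by_contra hcon
  push Not at hcon
  have hτc := hF.card τ hτ
  have hne' : τ.Nonempty := by
    rw [← Finset.card_pos]
    omega
  obtain ⟨c, hc⟩ := hne'
  have hall := Pool.Agent.Lib.MP_a33b01_co.conn_graph hF (C := {v | Out F τ H v}) (c := c)
    ⟨τ, Rc.base, hc⟩ (Finset.mem_biUnion.2 ⟨τ, hτ, hc⟩) (by
      intro x hx y hxy
      have hxS : x ∉ S := fun h => hcon x h hx
      exact out_nbr hF hτ (fun z hz => hxS (hH x z hz)) hx hxy)
  obtain ⟨v, hv⟩ := hne
  exact hcon v hv (hall v (hS hv))

end Pool.Agent.Lib.MP_a33b01_co_G5
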