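import Pool.Agent.Lib.MP_a33b01_co_G5.TpC
import Pool.Agent.Lib.MP_a33b01_co_G5.TpA

set_option autoImplicit false

/-!
# MP_a33b01_co, project G5: faces of `H`
-/

namespace Pool.Agent.Lib.MP_a33b01_co_G5

open Classical
open Pool.Agent.Lib.MP_a33b01_co (Sph sk cn supp EvenG Removes Wg)

variable {V : Type} {F K K' : Finset (Finset V)} {τ t s : Finset V} {H : SimpleGraph V}
  {l l' : ℕ} {z z' : ℤ → V}

/-- A face is one region: the region of `t ∈ K` is in `K` (`rc_avoid`); if it is smaller then by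
`side_conn` some edge `x y` which is not on the cycle is in one face of the region and in one face
of `K` outside of the region; it is not in `H` by `Face.ni` (`br_cross`), a contradiction. -/
theorem face_rc (hF : Sph F) (hle : H ≤ sk F) (h : Face F H l z K) (ht : t ∈ K) :
    Rc F H t s ↔ s ∈ K := by
  constructor
  · intro hr
    exact (rc_avoid hF h.KF h.br (fun x y hxy => ce_adj h.cy hxy) (h.KF ht) hr).1 ht
  · intro hs
    by_contra hn
    set J : Finset (Finset V) := K.filter fun r => Rc F H t r with hJ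
    have hJsub : J ⊆ K := Finset.filter_subset _ _
    have hJne : J.Nonempty := ⟨t, Finset.mem_filter.2 ⟨ht, Rc.base⟩⟩
    have hJne' : J ≠ K := by
      intro h0
      have h1 : s ∈ J := by
        rw [h0]
        exact hs
      exact hn (Finset.mem_filter.1 h1).2
    obtain ⟨x, y, hxy, hodd, hce⟩ := side_conn hF hle h.cy h.KF h.br hJsub hJne hJne'
    have h2 := Pool.Agent.Lib.MP_a33b01_co.cn_sdiff hJsub x y
    have h3 : ¬ Odd (cn K x y) := fun h0 => hce ((h.br x y hxy).1 h0)
    rw [Nat.odd_iff] at hodd h3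
    have h4 : cn J x y ≠ 0 := by omega
    have h5 : cn (K \ J) x y ≠ 0 := by omega
    unfold cn at h4 h5
    obtain ⟨r, hr⟩ := Finset.card_pos.1 (Nat.pos_of_ne_zero h4)
    obtain ⟨r', hr'⟩ := Finset.card_pos.1 (Nat.pos_of_ne_zero h5)
    rw [Finset.mem_filter] at hr hr'
    obtain ⟨hrJ, hxr, hyr⟩ := hr
    obtain ⟨hrJ', hxr', hyr'⟩ := hr'
    rw [Finset.mem_sdiff] at hrJ'
    have h7 := Finset.mem_filter.1 hrJ
    have hnadj : ¬ H.Adj x y := by
      intro had
      obtain ⟨q, hq, hqK, hxq, hyq⟩ := h.ni x y had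
      exact hqK (br_cross hF h.KF h.br hxy hce h7.1 hxr hyr hq hxq hyq)
    exact hrJ'.2 (Finset.mem_filter.2 ⟨hrJ'.1, Rc.step r r' x y h7.2 (h.KF hrJ'.1) hxy hxr hyr
      hxr' hyr' hnadj⟩)

/-- Two faces are equal or disjoint (`face_rc`, `rc_symm`, `rc_trans`). -/
theorem face_eq (hF : Sph F) (hle : H ≤ sk F) (h : Face F H l z K) (h' : Face F H l' z' K')
    (ht : t ∈ K) (ht' : t ∈ K') : K = K' := by
  ext r
  rw [← face_rc hF hle h ht, ← face_rc hF hle h' ht']

theorem face_ce (hF : Sph F) (hle : H ≤ sk F) (h : Face F H l z K) (h' : Face F H l' z' K')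
    (hK : K = K') {x y : V} : CE z x y ↔ CE z' x y := by
  by_cases hxy : x = y
  · subst hxy
    exact ⟨fun h0 => absurd rfl (ce_adj h.cy h0).ne, fun h0 => absurd rfl (ce_adj h'.cy h0).ne⟩
  · subst hK
    exact Iff.trans (h.br x y hxy).symm (h'.br x y hxy)

/-- An edge is in at most two faces: if `x y` is an edge of the cycles of three faces, two of the
faces are equal (`br_one`, `face_eq`). -/
theorem three_faces (hF : Sph F) (hle : H ≤ sk F) {K'' : Finset (Finset V)} {l'' : ℕ}
    {z'' : ℤ → V} (h : Face F H l z K) (h' : Face F H l' z' K') (h'' : Face F H l'' z'' K'')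
    {x y : V} (hx : CE z x y) (hy : CE z' x y) (hz : CE z'' x y) :
    K = K' ∨ K = K'' ∨ K' = K'' := by
  have hadj := ce_adj h.cy hx
  have hne := hadj.ne
  obtain ⟨⟨t, ht, hxt, hyt, _⟩, _⟩ := br_one hF h.KF h.br hne hx (hle hadj)
  obtain ⟨⟨t', ht', hxt', hyt', _⟩, _⟩ := br_one hF h'.KF h'.br hne hy (hle hadj)
  obtain ⟨⟨t'', ht'', hxt'', hyt'', _⟩, _⟩ := br_one hF h''.KF h''.br hne hz (hle hadj)
  by_contra hcon
  push Not at hcon
  obtain ⟨n1, n2, n3⟩ := hcon
  have m1 : t ≠ t' := by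
    rintro rfl
    exact n1 (face_eq hF hle h h' ht ht')
  have m2 : t ≠ t'' := by
    rintro rfl
    exact n2 (face_eq hF hle h h'' ht ht'')
  have m3 : t' ≠ t'' := by
    rintro rfl
    exact n3 (face_eq hF hle h' h'' ht' ht'')
  have h2 : cn F x y = 2 := hF.two x y (hle hadj)
  have h3 : ({t, t', t''} : Finset (Finset V)).card = 3 := Finset.card_eq_three.2
    ⟨t, t', t'', m1, m2, m3, rfl⟩
  have h4 : ({t, t', t''} : Finset (Finset V)) ⊆ F.filter fun t => x ∈ t ∧ y ∈ t := by
    intro r hr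
    simp only [Finset.mem_insert, Finset.mem_singleton] at hr
    rcases hr with rfl | rfl | rfl
    · exact Finset.mem_filter.2 ⟨h.KF ht, hxt, hyt⟩
    · exact Finset.mem_filter.2 ⟨h'.KF ht', hxt', hyt'⟩
    · exact Finset.mem_filter.2 ⟨h''.KF ht'', hxt'', hyt''⟩
  have h5 := Finset.card_le_card h4
  unfold cn at h2
  omega

end Pool.Agent.Lib.MP_a33b01_co_G5
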