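import Pool.Agent.Lib.MP_a33b01_co_G5.TpC
import Pool.Agent.Lib.MP_a33b01_co_G5.TpA
import Pool.Agent.Lib.MP_a33b01_co_G5.TpH1

set_option autoImplicit false

/-!
# MP_a33b01_co, project G5: faces of `H`
-/

namespace Pool.Agent.Lib.MP_a33b01_co_G5

open Classical
open Pool.Agent.Lib.MP_a33b01_co (Sph sk cn supp EvenG Removes Wg)

variable {V : Type} {F K K' : Finset (Finset V)} {τ t s : Finset V} {H : SimpleGraph V}
  {l l' : ℕ} {z z' : ℤ → V}

/-- Two different faces with the same two edges at `v`: there are no other edges at `v`.  By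
`face_eq` the faces are disjoint; every edge `v y` of `F` is in an even number of faces of
`K ∪ K'`, and `v` is on `K`, so all the faces at `v` are in `K ∪ K'` (`br_star` for `K ∪ K'` and
the symmetric difference of the two boundaries).  An edge `v w` of `H` which is not on the cycle
`z` is in two faces of `K` or in two faces of `K'`, against `Face.ni`. -/
theorem two_faces (hF : Sph F) (hle : H ≤ sk F) (h : Face F H l z K) (h' : Face F H l' z' K')
    (hne : K ≠ K') {v a : V} (ha : CE z v a) (hz : ∀ y, CE z v y ↔ CE z' v y) {w : V}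
    (hw : H.Adj v w) : CE z v w := by
  by_contra hcon
  have hcon' : ¬ CE z' v w := fun h1 => hcon ((hz w).2 h1)
  have hdis : Disjoint K K' := by
    rw [Finset.disjoint_left]
    intro t ht ht'
    exact hne (face_eq hF hle h h' ht ht')
  have hU : K ∪ K' ⊆ F := Finset.union_subset h.KF h'.KF
  have hcn : ∀ y, cn (K ∪ K') v y = cn K v y + cn K' v y := by
    intro y
    unfold cn
    rw [Finset.filter_union, Finset.card_union_of_disjoint]
    exact Finset.disjoint_filter_filter hdis
  have hev : ∀ y, v ≠ y → ¬ Odd (cn (K ∪ K') v y) := by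
    intro y hy
    rw [hcn y]
    have h1 := h.br v y hy
    have h2 := h'.br v y hy
    rw [← hz y, ← h1] at h2
    rw [Nat.odd_add']
    intro h3
    by_cases h4 : Odd (cn K' v y)
    · have h5 := h3.1 h4
      have h6 := h2.1 h4
      exact (Nat.not_even_iff_odd.2 h6) h5
    · have h5 : ¬ Even (cn K v y) := fun h6 => h4 (h3.2 h6)
      exact h4 (h2.2 (Nat.not_even_iff_odd.1 h5))
  have hbr : BR (K ∪ K') (fun x y => x ≠ y ∧ Odd (cn (K ∪ K') x y)) :=
    fun x y hxy => ⟨fun h1 => ⟨hxy, h1⟩, fun h1 => h1.2⟩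
  have had := ce_adj h.cy ha
  obtain ⟨⟨t, ht, hvt, -⟩, -⟩ := br_one hF h.KF h.br had.ne ha (hle had)
  have hall : ∀ s ∈ F, v ∈ s → s ∈ K ∪ K' := by
    intro s hs hvs
    exact br_star hF hU hbr (fun y h1 => hev y h1.1 h1.2) (Finset.mem_union_left _ ht) hvt hs
      hvs
  obtain ⟨t₁, h1, h2, h3, h4⟩ := h.ni v w hw
  obtain ⟨t₂, h5, h6, h7, h8⟩ := h'.ni v w hw
  have h9 : t₁ ∈ K' := by
    rcases Finset.mem_union.1 (hall t₁ h1 h3) with h9 | h9
    · exact absurd h9 h2
    · exact h9
  exact h6 (br_cross hF h'.KF h'.br hw.ne hcon' h9 h3 h4 h5 h7 h8)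

end Pool.Agent.Lib.MP_a33b01_co_G5
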