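import Pool.Agent.Lib.MP_a33b01_co_G5.TpC
import Pool.Agent.Lib.MP_a33b01_co_G5.TpA
import Pool.Agent.Lib.MP_a33b01_co_G5.TpH1
import Pool.Agent.Lib.MP_a33b01_co_G5.TpH2

set_option autoImplicit false

/-!
# MP_a33b01_co, project G5: faces of `H`
-/

namespace Pool.Agent.Lib.MP_a33b01_co_G5

open Classical
open Pool.Agent.Lib.MP_a33b01_co (Sph sk cn supp EvenG Removes Wg)

variable {V : Type} {F K K' : Finset (Finset V)} {τ t s : Finset V} {H : SimpleGraph V}
  {l l' : ℕ} {z z' : ℤ → V}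

/-- If a vertex of the cycle of a face has been deleted and is on the outer region then the face
belongs to the outer region: `rc_star` for the deleted vertex, `br_one` (the face has a triangle
at this vertex), `face_rc`, `rc_mono`; the other edges of the cycle are in a triangle of `K`. -/
theorem face_out (hF : Sph F) (hle : H ≤ sk F) (hτ : τ ∈ F) (h : Face F H l z K) {W : Finset V}
    {i : ℤ} (hi : z i ∉ W) (ho : Out F τ (rs H W) (z i)) {x y : V} (hxy : CE z x y)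
    (hx : x ∈ W) (hy : y ∈ W) : OutE F τ (rs H W) x y := by
  have had := ce_adj h.cy hxy
  obtain ⟨t, ht, hit⟩ := ho
  have hv : ∀ y, ¬ (rs H W).Adj (z i) y := fun y h1 => hi h1.2.1
  obtain ⟨⟨t₁, h1, h2, -, -⟩, -⟩ := br_one hF h.KF h.br (h.cy.adj i).ne
    ⟨i, Or.inl ⟨rfl, rfl⟩⟩ (hle (h.cy.adj i))
  have h3 : Rc F (rs H W) τ t₁ := rc_star hF hv ht (rc_mem hτ ht) hit (h.KF h1) h2
  obtain ⟨⟨t₂, h4, h5, h6, -⟩, -⟩ := br_one hF h.KF h.br had.ne hxy (hle had)
  have h7 : Rc F H t₁ t₂ := (face_rc hF hle h h1).2 h4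
  have h8 : Rc F (rs H W) t₁ t₂ := rc_mono (fun _ _ h9 => h9.1) h7
  exact ⟨⟨had, hx, hy⟩, t₂, rc_trans h3 h8, h5, h6⟩

end Pool.Agent.Lib.MP_a33b01_co_G5
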