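import Pool.Agent.Lib.MP_a33b01_co_G5.TpC
import Pool.Agent.Lib.MP_a33b01_co_G5.TpA
import Pool.Agent.Lib.MP_a33b01_co_G5.TpH1
import Pool.Agent.Lib.MP_a33b01_co_G5.TpH2
import Pool.Agent.Lib.MP_a33b01_co_G5.TpH3

set_option autoImplicit false

/-!
# MP_a33b01_co, project G5: faces of `H`
-/

namespace Pool.Agent.Lib.MP_a33b01_co_G5

open Classical
open Pool.Agent.Lib.MP_a33b01_co (Sph sk cn supp EvenG Removes Wg)

variable {V : Type} {F K K' : Finset (Finset V)} {τ t s : Finset V} {H : SimpleGraph V}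
  {l l' : ℕ} {z z' : ℤ → V}

/-- A chord of a cycle of length at most `7` would give a cycle of length at most `4`. -/
theorem nochord7 (htri : ∀ x y z, H.Adj x y → H.Adj y z → ¬ H.Adj x z)
    (hquad : ∀ x y z w, H.Adj x y → H.Adj y z → H.Adj z w → H.Adj w x → x = z ∨ y = w)
    (hc : Cy H l z) (hl : l ≤ 7) {i j : ℤ} (hij : H.Adj (z i) (z j)) : CE z (z i) (z j) := by
  have h2 : ∀ a : ℤ, ¬ H.Adj (z a) (z (a + 2)) := by
    intro a h1
    have h3 := hc.adj (a + 1)
    have e : a + 1 + 1 = a + 2 := by ring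
    rw [e] at h3
    exact htri _ _ _ (hc.adj a) h3 h1
  have h3 : ∀ a : ℤ, ¬ H.Adj (z a) (z (a + 3)) := by
    intro a h1
    have h4 := hc.adj (a + 1)
    have h5 := hc.adj (a + 2)
    have e : a + 1 + 1 = a + 2 := by ring
    have e' : a + 2 + 1 = a + 3 := by ring
    rw [e] at h4
    rw [e'] at h5
    rcases hquad _ _ _ _ (hc.adj a) h4 h5 h1.symm with h6 | h6
    · have h7 := (cy_ne hc (a + 1)).1
      rw [add_sub_cancel_right, e] at h7
      exact h7 h6
    · have h7 := (cy_ne hc (a + 2)).1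
      have e2 : a + 2 - 1 = a + 1 := by ring
      rw [e2, e'] at h7
      exact h7 h6
  obtain ⟨j', h4, h5, h6⟩ := cy_mod hc i j
  rw [← h6] at hij ⊢
  obtain ⟨d, hd⟩ := Int.eq_ofNat_of_zero_le (sub_nonneg.2 h4)
  have hd' : j' = i + d := by
    have : j' - i = (d : ℤ) := hd
    omega
  have hdl : d < l := by omega
  rw [hd'] at hij ⊢
  by_cases h7 : d ≤ 3
  · interval_cases d
    · simp at hij
    · exact (ce_iff hc i _).2 (Or.inl rfl)
    · exact absurd hij (h2 i)
    · exact absurd hij (h3 i)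
  · have h8 : z i = z (i + d + ((l - d : ℕ) : ℤ)) := by
      have e : i + d + ((l - d : ℕ) : ℤ) = i + l := by omega
      rw [e, hc.per]
    have h9 : l - d ≤ 3 := by omega
    have h10 : 1 ≤ l - d := by omega
    obtain ⟨e, he⟩ : ∃ e, e = l - d := ⟨_, rfl⟩
    rw [← he] at h8 h9 h10
    rw [h8] at hij
    interval_cases e
    · rw [h8]
      refine (ce_iff hc _ _).2 (Or.inr ?_)
      congr 1
      push_cast
      ring
    · exact absurd hij.symm (h2 _)
    · exact absurd hij.symm (h3 _)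

/-- A cycle of length at most `7` without vertices inside is a face: if both faces of `F` at an
edge `x y` of `H` are in `K` then `x` and `y` are on the cycle (otherwise they are strictly inside),
`nochord7` and `br_one`. -/
theorem face_of_short (hF : Sph F) (hle : H ≤ sk F)
    (htri : ∀ x y z, H.Adj x y → H.Adj y z → ¬ H.Adj x z)
    (hquad : ∀ x y z w, H.Adj x y → H.Adj y z → H.Adj z w → H.Adj w x → x = z ∨ y = w)
    (hc : Cy H l z) (hl : l ≤ 7) (hK : K ⊆ F) (hb : BR K (CE z))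
    (hin : ∀ v, (∃ y, H.Adj v y) → inn z v → ¬ On K v) : Face F H l z K := by
  refine ⟨hc, hK, hb, ?_⟩
  intro x y hxy
  by_contra hcon
  push Not at hcon
  obtain ⟨hne, t, ht, hx, hy⟩ := hle hxy
  have htK : t ∈ K := by
    by_contra h1
    exact hcon t ht h1 hx hy
  have hx' : ∃ i, z i = x := by
    by_contra h1
    push Not at h1
    exact hin x ⟨y, hxy⟩ h1 ⟨t, htK, hx⟩
  have hy' : ∃ i, z i = y := by
    by_contra h1
    push Not at h1
    exact hin y ⟨x, hxy.symm⟩ h1 ⟨t, htK, hy⟩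
  obtain ⟨i, rfl⟩ := hx'
  obtain ⟨j, rfl⟩ := hy'
  obtain ⟨-, t', h1, h2, h3, h4, -⟩ := br_one hF hK hb hxy.ne (nochord7 htri hquad hc hl hxy)
    (hle hxy)
  exact hcon t' h1 h2 h3 h4

end Pool.Agent.Lib.MP_a33b01_co_G5
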