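import Pool.Agent.Lib.MP_a33b01_co_G5.FcA
import Pool.Agent.Lib.MP_a33b01_co_G5.FcB
import Pool.Agent.Lib.MP_a33b01_co_G5.TpH

set_option autoImplicit false

/-!
# MP_a33b01_co, project G5: faces from short paths
-/

namespace Pool.Agent.Lib.MP_a33b01_co_G5

open Classical
open Pool.Agent.Lib.MP_a33b01_co (Sph sk cn supp EvenG Removes Wg)

variable {V : Type} {F K K' : Finset (Finset V)} {τ : Finset V} {H : SimpleGraph V}
  {S P A : Finset V} {m q k n l : ℕ} {c z : ℤ → V} {i : ℤ} {d : ℕ} {Q : List V}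

/-- A chord of a cycle of length eight which does not join opposite vertices would give a cycle
of length at most four. -/
theorem nochord8 (htri : ∀ x y z, H.Adj x y → H.Adj y z → ¬ H.Adj x z)
    (hquad : ∀ x y z w, H.Adj x y → H.Adj y z → H.Adj z w → H.Adj w x → x = z ∨ y = w)
    (hc : Cy H 8 z) (hop : ∀ i : ℤ, ¬ H.Adj (z i) (z (i + 4))) {i j : ℤ}
    (hij : H.Adj (z i) (z j)) : CE z (z i) (z j) := by
  have hz : ∀ r : ℤ, (8 : ℤ) ∣ j - (i + r) → z j = z (i + r) := fun r hr =>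
    (cy_eq hc).2 (by exact_mod_cast hr)
  have hne : ∀ a b : ℤ, z a = z b → (8 : ℤ) ∣ a - b := fun a b hab => by
    exact_mod_cast hc.inj a b hab
  have had : ∀ a b : ℤ, b = a + 1 → H.Adj (z a) (z b) := by
    rintro a b rfl
    exact hc.adj a
  have hq4 : ∀ a b c d : ℤ, b = a + 1 → c = a + 2 → d = a + 3 → ¬ H.Adj (z d) (z a) := by
    rintro a b c d rfl rfl rfl hda
    rcases hquad _ _ _ _ (had a (a + 1) rfl) (had (a + 1) (a + 2) (by ring))
      (had (a + 2) (a + 3) (by ring)) hda with h1 | h1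
    · have := hne _ _ h1
      omega
    · have := hne _ _ h1
      omega
  have hr : (8 : ℤ) ∣ j - (i + 0) ∨ (8 : ℤ) ∣ j - (i + 1) ∨ (8 : ℤ) ∣ j - (i + 2) ∨
      (8 : ℤ) ∣ j - (i + 3) ∨ (8 : ℤ) ∣ j - (i + 4) ∨ (8 : ℤ) ∣ j - (i + -3) ∨
      (8 : ℤ) ∣ j - (i + -2) ∨ (8 : ℤ) ∣ j - (i + -1) := by omega
  rcases hr with hr | hr | hr | hr | hr | hr | hr | hr
  · rw [hz _ hr, add_zero] at hij
    exact absurd hij (H.loopless.irrefl _)
  · rw [hz _ hr]
    exact ⟨i, Or.inl ⟨rfl, rfl⟩⟩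
  · rw [hz _ hr] at hij
    exact absurd hij (htri _ _ _ (had i (i + 1) rfl) (had (i + 1) (i + 2) (by ring)))
  · rw [hz _ hr] at hij
    exact absurd hij.symm (hq4 i (i + 1) (i + 2) (i + 3) rfl rfl rfl)
  · rw [hz _ hr] at hij
    exact absurd hij (hop i)
  · rw [hz _ hr] at hij
    exact absurd hij (hq4 (i + -3) (i + -2) (i + -1) i (by ring) (by ring) (by ring))
  · rw [hz _ hr] at hij
    exact absurd hij.symm (htri _ _ _ (had (i + -2) (i + -1) (by ring))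
      (had (i + -1) i (by ring)))
  · rw [hz _ hr]
    refine ⟨i + -1, Or.inr ⟨rfl, ?_⟩⟩
    congr 1
    ring

/-- Like `face_of_short`, for a cycle without chords. -/
theorem face_of_nochord (hF : Sph F) (hle : H ≤ sk F) (hc : Cy H l z)
    (hch : ∀ i j : ℤ, H.Adj (z i) (z j) → CE z (z i) (z j)) (hK : K' ⊆ F) (hb : BR K' (CE z))
    (hin : ∀ v, (∃ y, H.Adj v y) → inn z v → ¬ On K' v) : Face F H l z K' := by
  refine ⟨hc, hK, hb, ?_⟩
  intro x y hxy
  obtain ⟨-, t, ht, hx, hy⟩ := hle hxy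
  by_cases hxz : ∃ i, z i = x
  · by_cases hyz : ∃ j, z j = y
    · obtain ⟨i, rfl⟩ := hxz
      obtain ⟨j, rfl⟩ := hyz
      obtain ⟨-, t', ht', htn, hx', hy', -⟩ :=
        br_one hF hK hb hxy.ne (hch i j hxy) (hle hxy)
      exact ⟨t', ht', htn, hx', hy'⟩
    · push Not at hyz
      exact ⟨t, ht, fun hn => hin y ⟨x, hxy.symm⟩ hyz ⟨t, hn, hy⟩, hx, hy⟩
  · push Not at hxz
    exact ⟨t, ht, fun hn => hin x ⟨y, hxy⟩ hxz ⟨t, hn, hx⟩, hx, hy⟩

/-- A cycle of length at most seven is a face: `exists_side`, `h.short`, `face_of_short`. -/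
theorem FC.face7 (h : FC F τ H S P A m c K q k n) (hz : Cy H l z) (hl : l ≤ 7) :
    ∃ K', Face F H l z K' ∧ τ ∉ K' := by
  have g := h.ctx.st.gd
  obtain ⟨K', hK, hτ, hb⟩ := exists_side g.sph g.le h.ctx.st.tF hz
  exact ⟨K', face_of_short g.sph g.le g.tri g.quad hz hl hK hb
    (h.short l z K' hz (by omega) hK hτ hb), hτ⟩

/-- a cycle of length eight without opposite chords: `exists_side`, `h.short`,
`face_of_nochord`, `nochord8` -/
theorem FC.face8 (h : FC F τ H S P A m c K q k n) (hz : Cy H 8 z)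
    (hop : ∀ i : ℤ, ¬ H.Adj (z i) (z (i + 4))) : ∃ K', Face F H 8 z K' ∧ τ ∉ K' := by
  have g := h.ctx.st.gd
  obtain ⟨K', hK, hτ, hb⟩ := exists_side g.sph g.le h.ctx.st.tF hz
  exact ⟨K', face_of_nochord g.sph g.le hz
    (fun i j hij => nochord8 g.tri g.quad hz hop hij) hK hb
    (h.short 8 z K' hz le_rfl hK hτ hb), hτ⟩

end Pool.Agent.Lib.MP_a33b01_co_G5
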