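import Pool.Agent.Lib.MP_a33b01_co_G5.FcA
import Pool.Agent.Lib.MP_a33b01_co_G5.FcB
import Pool.Agent.Lib.MP_a33b01_co_G5.TpH
import Pool.Agent.Lib.MP_a33b01_co_G5.FcC1

set_option autoImplicit false

/-!
# MP_a33b01_co, project G5: faces from short paths
-/

namespace Pool.Agent.Lib.MP_a33b01_co_G5

open Classical
open Pool.Agent.Lib.MP_a33b01_co (Sph sk cn supp EvenG Removes Wg)

variable {V : Type} {F K K' : Finset (Finset V)} {τ : Finset V} {H : SimpleGraph V}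
  {S P A : Finset V} {m q k n l : ℕ} {c z : ℤ → V} {i : ℤ} {d : ℕ} {Q : List V}

/-- `PC.lcy`, `cy_per`, `FC.face7` -/
theorem FC.pface (h : FC F τ H S P A m c K q k n) (hp : PC H m c i d Q)
    (hl : d + 1 + Q.length ≤ 7) :
    ∃ K', Face F H (d + 1 + Q.length) (per (c 0) (pl c i d Q)) K' ∧ τ ∉ K' := by
  have h1 := cy_per (c 0) (PC.lcy h.ctx.bd.cy hp)
  rw [pl_length] at h1
  exact h.face7 h1 hl

/-- The cycle `c i, c (i + 1), c (i + 2), c (i + 3), c (i + 4), e, b, a`: the opposite pairs are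
the four pairs in the hypotheses (in both orders). -/
theorem FC.pface8 (h : FC F τ H S P A m c K q k n) {a b e : V}
    (hp : PC H m c i 4 [a, b, e]) (h0 : ¬ H.Adj (c i) (c (i + 4)))
    (h1 : ¬ H.Adj (c (i + 1)) e) (h2 : ¬ H.Adj (c (i + 2)) b) (h3 : ¬ H.Adj (c (i + 3)) a) :
    ∃ K', Face F H 8 (per (c 0) (pl c i 4 [a, b, e])) K' ∧ τ ∉ K' := by
  have hc8 := cy_per (c 0) (PC.lcy h.ctx.bd.cy hp)
  rw [pl_length] at hc8
  have hl : pl c i 4 [a, b, e] = [c i, c (i + 1), c (i + 2), c (i + 3), c (i + 4), e, b, a] := by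
    simp [pl, arc, List.range_succ]
  refine h.face8 hc8 fun r => ?_
  have hper : ∀ r : ℤ, per (c 0) (pl c i 4 [a, b, e]) r =
      [c i, c (i + 1), c (i + 2), c (i + 3), c (i + 4), e, b, a].getD (r % 8).toNat (c 0) := by
    intro r
    rw [hl]
    rfl
  rw [hper, hper]
  have hr : r % 8 = 0 ∨ r % 8 = 1 ∨ r % 8 = 2 ∨ r % 8 = 3 ∨ r % 8 = 4 ∨ r % 8 = 5 ∨ r % 8 = 6 ∨
      r % 8 = 7 := by omega
  rcases hr with hr | hr | hr | hr | hr | hr | hr | hr
  · have e2 : (r + 4) % 8 = 4 := by omega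
    rw [hr, e2]
    exact h0
  · have e2 : (r + 4) % 8 = 5 := by omega
    rw [hr, e2]
    exact h1
  · have e2 : (r + 4) % 8 = 6 := by omega
    rw [hr, e2]
    exact h2
  · have e2 : (r + 4) % 8 = 7 := by omega
    rw [hr, e2]
    exact h3
  · have e2 : (r + 4) % 8 = 0 := by omega
    rw [hr, e2]
    exact fun hh => h0 hh.symm
  · have e2 : (r + 4) % 8 = 1 := by omega
    rw [hr, e2]
    exact fun hh => h1 hh.symm
  · have e2 : (r + 4) % 8 = 2 := by omega
    rw [hr, e2]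
    exact fun hh => h2 hh.symm
  · have e2 : (r + 4) % 8 = 3 := by omega
    rw [hr, e2]
    exact fun hh => h3 hh.symm

end Pool.Agent.Lib.MP_a33b01_co_G5
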