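import Pool.Agent.Lib.MP_a33b01_co_G5.FcC

set_option autoImplicit false

/-!
# MP_a33b01_co, project G5: consequences of short paths
-/

namespace Pool.Agent.Lib.MP_a33b01_co_G5

open Classical
open Pool.Agent.Lib.MP_a33b01_co (Sph sk cn supp EvenG Removes Wg)

variable {V : Type} {F K K' : Finset (Finset V)} {τ : Finset V} {H : SimpleGraph V}
  {S P A : Finset V} {m q k n l : ℕ} {c z : ℤ → V} {i : ℤ} {d : ℕ} {Q : List V}

/-- Two faces with the same two edges at a vertex `v`, one of which has an edge that the other one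
does not have: `v` has no other edges (`two_faces`, `face_ce`). -/
theorem FC.two_at (h : FC F τ H S P A m c K q k n) {l' : ℕ} {z' : ℤ → V}
    {K'' : Finset (Finset V)} (h₁ : Face F H l z K') (h₂ : Face F H l' z' K'') {v a b : V}
    (ha : ∀ y, CE z v y ↔ y = a ∨ y = b) (hb : ∀ y, CE z' v y ↔ y = a ∨ y = b) {x y : V}
    (hx : CE z x y) (hy : ¬ CE z' x y) {w : V} (hw : H.Adj v w) : w = a ∨ w = b := by
  have hne : K' ≠ K'' := fun hK =>
    hy ((face_ce h.ctx.st.gd.sph h.ctx.st.gd.le h₁ h₂ hK).1 hx)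
  exact (ha w).1 (two_faces h.ctx.st.gd.sph h.ctx.st.gd.le h₁ h₂ hne ((ha a).2 (Or.inl rfl))
    (fun y => (ha y).trans (hb y).symm) hw)

/-- The inner vertices of the arc have no other neighbours: `FC.pface` and `bd_face` (the outer
face `F \ K` contains `τ`), `two_faces`, `PC.ce_in`, `ce_iff`. -/
theorem FC.triv (h : FC F τ H S P A m c K q k n) (hp : PC H m c i d Q)
    (hl : d + 1 + Q.length ≤ 7) {t : ℤ} (h1 : i < t) (h2 : t < i + d) {w : V}
    (hw : H.Adj (c t) w) : w = c (t - 1) ∨ w = c (t + 1) := by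
  obtain ⟨K', hK, hτ⟩ := h.pface hp hl
  have hB := h.ctx.bd
  have hf := bd_face h.ctx.st.gd.sph h.ctx.st.gd.le hB
  have hne : K' ≠ F \ K := by
    rintro rfl
    exact hτ (Finset.mem_sdiff.2 ⟨h.ctx.st.tF, hB.tau⟩)
  have h3 := fun y => PC.ce_in hB.cy hp h1 h2 y
  have h4 := fun y => ce_iff hB.cy t y
  refine (h3 w).1 (two_faces h.ctx.st.gd.sph h.ctx.st.gd.le hK hf hne
    ((h3 _).2 (Or.inl rfl)) (fun y => ?_) hw)
  rw [h3, h4, or_comm]

/-- If a vertex `c t`, `i < t < i + d`, is not in `W` and is on the outer region, then the edges of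
the path which have both ends in `W` are on the outer region: `FC.pface`, `face_out`
(`PC.ce_Q`, `PC.ce_l`, `PC.ce_r` for the edges of the path).  Also for `t = i` or `t = i + d`. -/
theorem FC.outEp (h : FC F τ H S P A m c K q k n) (hp : PC H m c i d Q)
    (hl : d + 1 + Q.length ≤ 7) {t : ℤ} (h1 : i ≤ t) (h2 : t ≤ i + d) {W : Finset V}
    (ht : c t ∉ W) {x y : V} (hxy : [x, y] <:+: (c i :: Q ++ [c (i + d)])) (hx : x ∈ W)
    (hy : y ∈ W) : OutE F τ (rs H W) x y := by
  obtain ⟨K', hK, -⟩ := h.pface hp hl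
  obtain ⟨j, hj⟩ := (PC.mem hp).2 (Or.inl ⟨t, h1, h2, rfl⟩)
  refine face_out h.ctx.st.gd.sph h.ctx.st.gd.le h.ctx.st.tF hK (i := j)
    (by rw [hj]; exact ht) (by rw [hj]; exact h.outc W t) ?_ hx hy
  obtain ⟨s, s', hs⟩ := hxy
  rcases List.eq_nil_or_concat s with rfl | ⟨r, a, rfl⟩
  · simp only [List.nil_append, List.cons_append] at hs
    obtain ⟨hx1, hs⟩ := List.cons.inj hs
    rw [hx1]
    refine (PC.ce_l h.ctx.bd.cy hp y).2 (Or.inr ?_)
    have hne := hp.ne
    cases Q with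
    | nil => exact absurd rfl hne
    | cons b Q' =>
      simp only [List.cons_append] at hs
      rw [(List.cons.inj hs).1]
      rfl
  · refine (PC.ce_Q h.ctx.bd.cy hp (l₁ := r) (a := a) (v := x) (b := y) (l₂ := s') ?_ y).2
      (Or.inr rfl)
    rw [← hs]
    simp

end Pool.Agent.Lib.MP_a33b01_co_G5
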