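import Pool.Agent.Lib.MP_a33b01_co_G5.FcC
import Pool.Agent.Lib.MP_a33b01_co_G5.FcD1

set_option autoImplicit false

/-!
# MP_a33b01_co, project G5: consequences of short paths
-/

namespace Pool.Agent.Lib.MP_a33b01_co_G5

open Classical
open Pool.Agent.Lib.MP_a33b01_co (Sph sk cn supp EvenG Removes Wg)

variable {V : Type} {F K K' : Finset (Finset V)} {τ : Finset V} {H : SimpleGraph V}
  {S P A : Finset V} {m q k n l : ℕ} {c z : ℤ → V} {i : ℤ} {d : ℕ} {Q : List V}

private theorem FcD2_ne (hc : Cy H m c) {a b : ℤ} (h1 : a < b) (h2 : b < a + m) :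
    c a ≠ c b := by
  intro he
  obtain ⟨e, he⟩ := hc.inj a b he
  have h3 : (m : ℤ) * e < 0 := by omega
  have h4 : -(m : ℤ) < m * e := by omega
  have hm : (0 : ℤ) < m := by
    have := hc.three
    omega
  have h5 : e < 0 := by
    by_contra hn
    have := mul_nonneg hm.le (not_lt.1 hn)
    omega
  have h6 : (m : ℤ) * e ≤ m * (-1) := mul_le_mul_of_nonneg_left (by omega) hm.le
  omega

/-- the left end cannot be inside of the other arc -/
private theorem FcD2_l (hc : Cy H m c) {i' : ℤ} {d' : ℕ} {Q' : List V}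
    (hp : PC H m c i d Q) (hp' : PC H m c i' d' Q')
    (hE : ∀ x y, CE (per (c 0) (pl c i d Q)) x y ↔ CE (per (c 0) (pl c i' d' Q')) x y) {t : ℤ}
    (h1 : i ≤ t) (h4 : t < i' + d') : ¬ i' < i := by
  intro hlt
  have h5 := PC.ce_arc hc hp' (t := i - 1) (by omega) (by omega)
  have e : i - 1 + 1 = i := by ring
  rw [e, ← hE] at h5
  have h3 := hc.three
  rcases (PC.ce_l hc hp _).1 (ce_symm h5) with h6 | h6
  · exact FcD2_ne hc (by omega) (by omega) h6
  · exact hp.inn _ (List.mem_of_mem_head? h6) (i - 1) rfl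

private theorem FcD2_r (hc : Cy H m c) {i' : ℤ} {d' : ℕ} {Q' : List V}
    (hp : PC H m c i d Q) (hp' : PC H m c i' d' Q')
    (hE : ∀ x y, CE (per (c 0) (pl c i d Q)) x y ↔ CE (per (c 0) (pl c i' d' Q')) x y) {t : ℤ}
    (h2 : t < i + d) (h3 : i' ≤ t) : ¬ i + d < i' + d' := by
  intro hlt
  have h5 := PC.ce_arc hc hp' (t := i + d) (by omega) (by omega)
  rw [← hE] at h5
  have h3 := hc.three
  rcases (PC.ce_r hc hp _).1 h5 with h6 | h6
  · exact FcD2_ne hc (by omega) (by omega) h6.symm
  · exact hp.inn _ (List.mem_of_getLast? h6) (i + d + 1) rfl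

private theorem FcD2_nd (hc : Cy H m c) (hp : PC H m c i d Q) :
    (c i :: Q ++ [c (i + d)]).Nodup := by
  have hd := hp.hd
  have hdm := hp.hdm
  rw [List.nodup_append]
  refine ⟨List.nodup_cons.2 ⟨fun h1 => hp.inn _ h1 i rfl, hp.nd⟩, List.nodup_singleton _, ?_⟩
  intro x hx y hy
  have hy' : y = c (i + d) := by simpa using hy
  subst hy'
  rcases List.mem_cons.1 hx with rfl | hx
  · exact FcD2_ne hc (by omega) (by omega)
  · exact fun he => hp.inn x hx _ he.symm

private theorem FcD2_last {L l₁ r : List V} {a v b e : V} (hnd : L.Nodup)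
    (hL : L = l₁ ++ a :: v :: b :: r) (he : L.getLast? = some e) : v ≠ e := by
  intro hve
  have h1 : L = (l₁ ++ [a, v]) ++ (b :: r) := by
    rw [hL]
    simp
  have h2 : e ∈ b :: r := by
    rw [h1, List.getLast?_append] at he
    cases hr : (b :: r).getLast? with
    | none => simp at hr
    | some w =>
      rw [hr] at he
      have hwe : w = e := by simpa using he
      rw [← hwe]
      exact List.mem_of_getLast? hr
  rw [h1] at hnd
  have h3 := (List.nodup_append.1 hnd).2.2 v (by simp) e h2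
  exact h3 hve

/-- the two lists agree from a common edge on -/
private theorem FcD2_eq (hc : Cy H m c) {Q' : List V}
    (hp : PC H m c i d Q) (hp' : PC H m c i d Q')
    (hE : ∀ x y, CE (per (c 0) (pl c i d Q)) x y ↔ CE (per (c 0) (pl c i d Q')) x y)
    (r : List V) : ∀ (r' l₁ : List V) (a v : V), c i :: Q ++ [c (i + d)] = l₁ ++ a :: v :: r →
      c i :: Q' ++ [c (i + d)] = l₁ ++ a :: v :: r' → r = r' := by
  have hnd := FcD2_nd hc hp
  have hnd' := FcD2_nd hc hp'
  have hla : (c i :: Q ++ [c (i + d)]).getLast? = some (c (i + d)) := by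
    rw [List.getLast?_concat]
  have hla' : (c i :: Q' ++ [c (i + d)]).getLast? = some (c (i + d)) := by
    rw [List.getLast?_concat]
  have hend : ∀ (L l₁ : List V) (a v : V), L = l₁ ++ [a, v] → L.getLast? = some (c (i + d)) →
      v = c (i + d) := by
    intro L l₁ a v hL hl
    have h1 : L = (l₁ ++ [a]) ++ [v] := by
      rw [hL]
      simp
    rw [h1, List.getLast?_concat] at hl
    exact Option.some.inj hl
  induction r with
  | nil =>
    intro r' l₁ a v h1 h2
    cases r' with
    | nil => rfl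
    | cons b r' => exact absurd (hend _ _ _ _ h1 hla) (FcD2_last hnd' h2 hla')
  | cons b r ih =>
    intro r' l₁ a v h1 h2
    cases r' with
    | nil => exact absurd (hend _ _ _ _ h2 hla') (FcD2_last hnd h1 hla)
    | cons b' r' =>
      have h3 := (PC.ce_Q hc hp h1 b).2 (Or.inr rfl)
      rw [hE] at h3
      have hab : a ≠ b := by
        have h4 : c i :: Q ++ [c (i + d)] = (l₁ ++ [a]) ++ (v :: b :: r) := by
          rw [h1]
          simp
        rw [h4] at hnd
        exact (List.nodup_append.1 hnd).2.2 a (by simp) b (by simp)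
      rcases (PC.ce_Q hc hp' h2 b).1 h3 with h4 | h4
      · exact absurd h4.symm hab
      · subst h4
        have h5 := ih r' (l₁ ++ [a]) v b (by rw [h1]; simp) (by rw [h2]; simp)
        rw [h5]

/-- An edge `c t c (t + 1)` is in at most one face inside of the cycle: `three_faces` for the two
faces of `FC.pface` and the outer face, so these two faces are equal, hence (`face_ce`) the two
cycles have the same edges.  If `i' < i` then `c (i - 1) c i` is an edge of the second cycle
(`PC.ce_arc`) but not of the first one (`PC.ce_l`; `c (i - 1) ≠ c (i + 1)` and it is not inside);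
in the same way `i < i'`, `i + d < i' + d'`, `i' + d' < i + d` are impossible (`PC.ce_r`), so
`i = i'`, `d = d'`.  By `PC.ce_l` the first vertices of `Q` and `Q'` are equal, and then the next
ones by `PC.ce_Q` (induction along the paths). -/
theorem FC.uniq (h : FC F τ H S P A m c K q k n) {i' : ℤ} {d' : ℕ} {Q' : List V}
    (hp : PC H m c i d Q) (hp' : PC H m c i' d' Q') (hl : d + 1 + Q.length ≤ 7)
    (hl' : d' + 1 + Q'.length ≤ 7) {t : ℤ} (h1 : i ≤ t) (h2 : t < i + d) (h3 : i' ≤ t)
    (h4 : t < i' + d') : i = i' ∧ d = d' ∧ Q = Q' := by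
  obtain ⟨K₁, hK₁, hτ₁⟩ := h.pface hp hl
  obtain ⟨K₂, hK₂, hτ₂⟩ := h.pface hp' hl'
  have hF := h.ctx.st.gd.sph
  have hle := h.ctx.st.gd.le
  have hB := h.ctx.bd
  have hc := hB.cy
  have hf := bd_face hF hle hB
  have hτ : τ ∈ F \ K := Finset.mem_sdiff.2 ⟨h.ctx.st.tF, hB.tau⟩
  have hKK : K₁ = K₂ := by
    rcases three_faces hF hle hK₁ hK₂ hf (PC.ce_arc hc hp h1 h2) (PC.ce_arc hc hp' h3 h4)
      ⟨t, Or.inl ⟨rfl, rfl⟩⟩ with h5 | h5 | h5
    · exact h5
    · exact absurd (h5 ▸ hτ) hτ₁
    · exact absurd (h5 ▸ hτ) hτ₂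
  have hE : ∀ x y, CE (per (c 0) (pl c i d Q)) x y ↔ CE (per (c 0) (pl c i' d' Q')) x y :=
    fun x y => face_ce hF hle hK₁ hK₂ hKK
  have hE' : ∀ x y, CE (per (c 0) (pl c i' d' Q')) x y ↔ CE (per (c 0) (pl c i d Q)) x y :=
    fun x y => (hE x y).symm
  have e1 := FcD2_l hc hp hp' hE h1 h4
  have e2 := FcD2_l hc hp' hp hE' h3 h2
  have e3 := FcD2_r hc hp hp' hE h2 h3
  have e4 := FcD2_r hc hp' hp hE' h4 h1
  have hi : i = i' := by omega
  subst hi
  have hd : d = d' := by omega
  subst hd
  refine ⟨rfl, rfl, ?_⟩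
  cases hQ : Q with
  | nil => exact absurd hQ hp.ne
  | cons v r =>
    cases hQ' : Q' with
    | nil => exact absurd hQ' hp'.ne
    | cons v' r' =>
      have h5 : CE (per (c 0) (pl c i d Q)) (c i) v :=
        (PC.ce_l hc hp v).2 (Or.inr (by rw [hQ]; rfl))
      rw [hE] at h5
      have h6 : v' = v := by
        rcases (PC.ce_l hc hp' v).1 h5 with h6 | h6
        · exact absurd h6.symm (hp.inn v (by rw [hQ]; simp) (i + 1))
        · rw [hQ'] at h6
          simpa using h6
      subst h6
      have h7 := FcD2_eq hc hp hp' hE (r ++ [c (i + d)]) (r' ++ [c (i + d)]) [] (c i) v'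
        (by rw [hQ]; rfl) (by rw [hQ']; rfl)
      rw [List.append_cancel_right h7]

end Pool.Agent.Lib.MP_a33b01_co_G5
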