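import Pool.Agent.Lib.MP_a33b01_co_G5.FcD

set_option autoImplicit false

/-!
# MP_a33b01_co, project G5: conflicts
-/

namespace Pool.Agent.Lib.MP_a33b01_co_G5

open Classical
open Pool.Agent.Lib.MP_a33b01_co (Sph sk cn supp EvenG Removes Wg)

variable {V : Type} {F K K' : Finset (Finset V)} {τ : Finset V} {H : SimpleGraph V}
  {S P A : Finset V} {m q k n l : ℕ} {c z : ℤ → V} {s : ℤ} {u x u' x' : V}

/-- the mirror image of a conflict -/
theorem Cf.mirror (hf : Cf H c s u x) (a : ℤ) : Cf H (fun i => c (a - i)) (a - s) x u := by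
  refine ⟨fun i => hf.ix (a - i), fun i => hf.iu (a - i), ?_, hf.ux.symm, ?_⟩
  · have e : a - (a - s - 1) = s + 1 := by ring
    show H.Adj (c (a - (a - s - 1))) x
    rw [e]
    exact hf.xc.symm
  · have e : a - (a - s + 1) = s - 1 := by ring
    show H.Adj u (c (a - (a - s + 1)))
    rw [e]
    exact hf.cu.symm

theorem FC.cf_pc (h : FC F τ H S P A m c K q k n) (hf : Cf H c s u x) :
    PC H m c (s - 1) 2 [u, x] := by
  have h9 := h.m9
  refine ⟨by omega, by omega, by simp, ?_, ?_, ?_⟩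
  · have e : s - 1 + ((2 : ℕ) : ℤ) = s + 1 := by push_cast; ring
    rw [e]
    simp only [List.cons_append, List.nil_append, List.isChain_cons_cons, List.isChain_singleton,
      and_true]
    exact ⟨hf.cu, hf.ux, hf.xc⟩
  · simp [hf.ux.ne]
  · intro y hy
    rcases List.mem_cons.1 hy with rfl | hy
    · exact hf.iu
    · rw [List.mem_singleton.1 hy]
      exact hf.ix

/-- `FC.triv` -/
theorem FC.cf_N (h : FC F τ H S P A m c K q k n) (hf : Cf H c s u x) {w : V}
    (hw : H.Adj (c s) w) : w = c (s - 1) ∨ w = c (s + 1) :=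
  h.triv (h.cf_pc hf) (by simp) (by omega) (by push_cast; omega) hw

/-- `FC.cf_N`, `FC.deg'` -/
theorem FC.cf_A (h : FC F τ H S P A m c K q k n) (hf : Cf H c s u x) (h1 : 1 ≤ s) (h2 : s ≤ k) :
    c s ∈ A := by
  by_contra hA
  obtain ⟨y, hy, ha, hb⟩ := h.deg' h1 h2 hA (c (s - 1)) (c (s + 1))
  rcases h.cf_N hf hy with h3 | h3
  · exact ha h3
  · exact hb h3

/-- `FC.uniq` -/
theorem FC.cf_uniq (h : FC F τ H S P A m c K q k n) (hf : Cf H c s u x)
    (hf' : Cf H c s u' x') : u = u' ∧ x = x' := by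
  have h1 := (h.uniq (h.cf_pc hf) (h.cf_pc hf') (by simp) (by simp) (t := s - 1) le_rfl
    (by push_cast; omega) le_rfl (by push_cast; omega)).2.2
  simpa using h1

end Pool.Agent.Lib.MP_a33b01_co_G5
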