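import Pool.Agent.Lib.MP_a33b01_co_G5.FcD
import Pool.Agent.Lib.MP_a33b01_co_G5.FcE1

set_option autoImplicit false

/-!
# MP_a33b01_co, project G5: conflicts
-/

namespace Pool.Agent.Lib.MP_a33b01_co_G5

open Classical
open Pool.Agent.Lib.MP_a33b01_co (Sph sk cn supp EvenG Removes Wg)

variable {V : Type} {F K K' : Finset (Finset V)} {τ : Finset V} {H : SimpleGraph V}
  {S P A : Finset V} {m q k n l : ℕ} {c z : ℤ → V} {s : ℤ} {u x u' x' : V}

/-- Another face with the edges `c (s - 1) u` and `u x`: by `FC.two_at` (with the face of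
`FC.cf_pc`, `PC.ce_Q`, `PC.ce_arc`) the vertex `u` would have degree two, against `FC.deg`. -/
theorem FC.cf_u (h : FC F τ H S P A m c K q k n) (hf : Cf H c s u x) (hz : Face F H l z K')
    (h1 : ∀ y, CE z u y ↔ y = c (s - 1) ∨ y = x) (h2 : ¬ CE z (c (s - 1)) (c s)) : False := by
  obtain ⟨K₁, hK₁, _⟩ := h.pface (h.cf_pc hf) (by simp)
  have e0 : s - 1 + ((2 : ℕ) : ℤ) = s + 1 := by push_cast; ring
  have ha : ∀ y, CE (per (c 0) (pl c (s - 1) 2 [u, x])) u y ↔ y = c (s - 1) ∨ y = x :=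
    fun y => PC.ce_Q h.ctx.bd.cy (h.cf_pc hf) (l₁ := []) (l₂ := [c (s + 1)])
      (by rw [e0]; rfl) y
  have hx : CE (per (c 0) (pl c (s - 1) 2 [u, x])) (c (s - 1)) (c s) := by
    have h3 := PC.ce_arc h.ctx.bd.cy (h.cf_pc hf) (t := s - 1) le_rfl (by push_cast; omega)
    rwa [sub_add_cancel] at h3
  obtain ⟨y, hy, ha', hb'⟩ := (h.deg hf.iu ⟨x, hf.ux⟩).2.2.2 (c (s - 1)) x
  rcases h.two_at hK₁ hz ha h1 hx h2 hy with h3 | h3
  · exact ha' h3
  · exact hb' h3

/-- the same for `x` -/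
theorem FC.cf_x (h : FC F τ H S P A m c K q k n) (hf : Cf H c s u x) (hz : Face F H l z K')
    (h1 : ∀ y, CE z x y ↔ y = u ∨ y = c (s + 1)) (h2 : ¬ CE z (c (s + 1)) (c s)) : False := by
  obtain ⟨K₁, hK₁, _⟩ := h.pface (h.cf_pc hf) (by simp)
  have e0 : s - 1 + ((2 : ℕ) : ℤ) = s + 1 := by push_cast; ring
  have ha : ∀ y, CE (per (c 0) (pl c (s - 1) 2 [u, x])) x y ↔ y = u ∨ y = c (s + 1) :=
    fun y => PC.ce_Q h.ctx.bd.cy (h.cf_pc hf) (l₁ := [c (s - 1)]) (l₂ := [])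
      (by rw [e0]; rfl) y
  have hx : CE (per (c 0) (pl c (s - 1) 2 [u, x])) (c (s + 1)) (c s) := by
    have h3 := PC.ce_arc h.ctx.bd.cy (h.cf_pc hf) (t := s) (by omega) (by push_cast; omega)
    exact ce_symm h3
  obtain ⟨y, hy, ha', hb'⟩ := (h.deg hf.ix ⟨u, hf.ux.symm⟩).2.2.2 u (c (s + 1))
  rcases h.two_at hK₁ hz ha h1 hx h2 hy with h3 | h3
  · exact ha' h3
  · exact hb' h3

/-- There is no second 5-cycle `u, x, c (s + 1), z, w` through `u, x, c (s + 1)`: the five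
vertices are different (no cycles of length `3` and `4`; `w = c (s - 1)` would give
`z = c s`), it is a face by `FC.face7`; `FC.cf_x` (`ce_mid` for the lists
`[u, x, c (s + 1), z, w]` and, for the edges at `c (s + 1)`, the same list). -/
theorem FC.f3 (h : FC F τ H S P A m c K q k n) (hf : Cf H c s u x) {z w : V}
    (h1 : H.Adj (c (s + 1)) z) (h2 : H.Adj z w) (h3 : H.Adj w u) (h4 : z ≠ c s) (h5 : z ≠ x) :
    False := by
  have htri := h.ctx.st.gd.tri
  have n1 : u ≠ c (s + 1) := fun e => hf.iu (s + 1) e.symm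
  have n2 : u ≠ z := by
    rintro rfl
    exact htri _ _ _ hf.ux hf.xc h1.symm
  have n3 : x ≠ w := by
    rintro rfl
    exact htri _ _ _ h1 h2 hf.xc.symm
  have n4 : c (s + 1) ≠ w := by
    intro e
    rw [← e] at h3
    exact htri _ _ _ hf.ux hf.xc h3.symm
  have hl : LCy H [u, x, c (s + 1), z, w] := by
    refine ⟨by simp, ?_, ?_, ?_⟩
    · simp only [List.nodup_cons, List.mem_cons, List.not_mem_nil, or_false, not_or,
        not_false_eq_true, List.nodup_nil, and_true]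
      exact ⟨⟨hf.ux.ne, n1, n2, h3.ne'⟩, ⟨hf.xc.ne, h5.symm, n3⟩, ⟨h1.ne, n4⟩, h2.ne⟩
    · simp only [List.isChain_cons_cons, List.isChain_singleton, and_true]
      exact ⟨hf.ux, hf.xc, h1, h2⟩
    · intro a ha b hb
      have ha' : u = a := by simpa using ha
      have hb' : w = b := by simpa using hb
      rw [← ha', ← hb']
      exact h3
  obtain ⟨K', hK', _⟩ := h.face7 (cy_per (c 0) hl) (by simp)
  refine h.cf_x hf hK' (fun y => ce_mid (c 0) hl (l₁ := []) (l₂ := [z, w]) rfl y) ?_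
  rw [ce_mid (c 0) hl (l₁ := [u]) (l₂ := [w]) rfl]
  rintro (e | e)
  · exact hf.ix s e
  · exact h4 e.symm

/-- The mirror image of `FC.f3` (the 5-cycle `x, u, c (s - 1), z, w`; `FC.cf_u`). -/
theorem FC.f3' (h : FC F τ H S P A m c K q k n) (hf : Cf H c s u x) {z w : V}
    (h1 : H.Adj (c (s - 1)) z) (h2 : H.Adj z w) (h3 : H.Adj w x) (h4 : z ≠ c s) (h5 : z ≠ u) :
    False := by
  have htri := h.ctx.st.gd.tri
  have n1 : x ≠ c (s - 1) := fun e => hf.ix (s - 1) e.symm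
  have n2 : x ≠ z := by
    rintro rfl
    exact htri _ _ _ hf.ux h1.symm hf.cu.symm
  have n3 : u ≠ w := by
    rintro rfl
    exact htri _ _ _ h1 h2 hf.cu
  have n4 : c (s - 1) ≠ w := by
    intro e
    rw [← e] at h3
    exact htri _ _ _ hf.cu hf.ux h3
  have hl : LCy H [x, u, c (s - 1), z, w] := by
    refine ⟨by simp, ?_, ?_, ?_⟩
    · simp only [List.nodup_cons, List.mem_cons, List.not_mem_nil, or_false, not_or,
        not_false_eq_true, List.nodup_nil, and_true]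
      exact ⟨⟨hf.ux.ne', n1, n2, h3.ne'⟩, ⟨hf.cu.ne', h5.symm, n3⟩, ⟨h1.ne, n4⟩, h2.ne⟩
    · simp only [List.isChain_cons_cons, List.isChain_singleton, and_true]
      exact ⟨hf.ux.symm, hf.cu.symm, h1, h2⟩
    · intro a ha b hb
      have ha' : x = a := by simpa using ha
      have hb' : w = b := by simpa using hb
      rw [← ha', ← hb']
      exact h3
  obtain ⟨K', hK', _⟩ := h.face7 (cy_per (c 0) hl) (by simp)
  refine h.cf_u hf hK' (fun y => ?_) ?_
  · rw [ce_mid (c 0) hl (l₁ := []) (l₂ := [z, w]) rfl y, or_comm]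
  · rw [ce_mid (c 0) hl (l₁ := [x]) (l₂ := [w]) rfl]
    rintro (e | e)
    · exact hf.iu s e
    · exact h4 e.symm

end Pool.Agent.Lib.MP_a33b01_co_G5
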