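import Pool.Agent.Lib.MP_a33b01_co_G5.FcD

set_option autoImplicit false

/-!
# MP_a33b01_co, project G5: the contacts near the end of the path
-/

namespace Pool.Agent.Lib.MP_a33b01_co_G5

open Classical
open Pool.Agent.Lib.MP_a33b01_co (Sph sk cn supp EvenG Removes Wg)

variable {V : Type} {F K K' : Finset (Finset V)} {τ : Finset V} {H : SimpleGraph V}
  {S P A : Finset V} {m q k n : ℕ} {c : ℤ → V} {u y z z' : V} {s : ℕ}

/-- the exceptional 2-chord at `c 1` (only for `q = 6`) -/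
structure Zp (H : SimpleGraph V) (c : ℤ → V) (z : V) : Prop where
  iz : inn c z
  z1 : H.Adj z (c 1)
  z2 : H.Adj z (c (-2))

/-- `twoP` (`i = 1 < k`) -/
theorem FC.zp_q (h : FC F τ H S P A m c K q k n) (hz : inn c z) (h1 : H.Adj z (c 1)) {j : ℤ}
    (hj : -(q : ℤ) < j) (hj0 : j ≤ 0) (h2 : H.Adj z (c j)) : q = 6 ∧ j = -2 := by
  have hk := h.k3
  rcases h.twoP z hz 1 j le_rfl (by omega) hj hj0 h1 h2 with ⟨h3, h4 | h4⟩
  · exact ⟨h3, h4.2⟩
  · have := h4.1
    omega

theorem FC.zp_pc (h : FC F τ H S P A m c K q k n) (hz : Zp H c z) : PC H m c (-2) 3 [z] := by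
  have h9 := h.m9
  have e1 : (-2 : ℤ) + ((3 : ℕ) : ℤ) = 1 := by norm_num
  refine ⟨by omega, by omega, by simp, ?_, by simp, ?_⟩
  · rw [e1]
    simp only [List.cons_append, List.nil_append, List.isChain_cons_cons, List.isChain_singleton,
      and_true]
    exact ⟨hz.z2.symm, hz.z1⟩
  · intro x hx
    rw [List.mem_singleton] at hx
    rw [hx]
    exact hz.iz

/-- `FC.triv` -/
theorem FC.zp_N (h : FC F τ H S P A m c K q k n) (hz : Zp H c z) {w : V} :
    (H.Adj (c (-1)) w → w = c (-2) ∨ w = c 0) ∧ (H.Adj (c 0) w → w = c (-1) ∨ w = c 1) := by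
  constructor
  · intro hw
    have h1 := h.triv (h.zp_pc hz) (by simp) (t := -1) (by omega) (by norm_num) hw
    norm_num at h1
    exact h1
  · intro hw
    have h1 := h.triv (h.zp_pc hz) (by simp) (t := 0) (by omega) (by norm_num) hw
    norm_num at h1
    exact h1

/-- no 4-cycle -/
theorem FC.zp_uniq (h : FC F τ H S P A m c K q k n) (hz : Zp H c z) (hz' : Zp H c z') :
    z = z' := by
  rcases h.ctx.st.gd.quad _ _ _ _ hz.z1 hz'.z1.symm hz'.z2 hz.z2.symm with h1 | h1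
  · exact h1
  · have h2 := h.ctx.bd.cy.inj _ _ h1
    have h3 := Int.le_of_dvd (by norm_num) h2
    have h9 := h.m9
    omega

/-- `FC.valI`, `z` has the neighbour `c (-2)` in `P` -/
theorem FC.zp_val (h : FC F τ H S P A m c K q k n) (hq : q = 6) (hz : Zp H c z) :
    fv H P A z = 1 := by
  have h1 := h.valI hz.iz ⟨_, hz.z1⟩
  have h2 : 0 < (P.filter fun p => H.Adj z p).card :=
    Finset.card_pos.2 ⟨c (-2), Finset.mem_filter.2
      ⟨(h.ctx.cP (i := -2) (by omega) (by omega)).1, hz.z2⟩⟩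
  unfold fv at h1 ⊢
  omega

/-- `FC.outEp` -/
theorem FC.zp_out (h : FC F τ H S P A m c K q k n) (hz : Zp H c z) {W : Finset V}
    (h1 : c 1 ∉ W) (h2 : c (-2) ∈ W) (h3 : z ∈ W) : OutE F τ (rs H W) (c (-2)) z := by
  refine h.outEp (h.zp_pc hz) (by simp) (t := 1) (by omega) (by norm_num) h1 ?_ h2 h3
  exact ⟨[], [c (-2 + ((3 : ℕ) : ℤ))], by simp⟩

end Pool.Agent.Lib.MP_a33b01_co_G5
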