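import Pool.Agent.Lib.MP_a33b01_co_G5.FcD
import Pool.Agent.Lib.MP_a33b01_co_G5.FcF1

set_option autoImplicit false

/-!
# MP_a33b01_co, project G5: the contacts near the end of the path
-/

namespace Pool.Agent.Lib.MP_a33b01_co_G5

open Classical
open Pool.Agent.Lib.MP_a33b01_co (Sph sk cn supp EvenG Removes Wg)

variable {V : Type} {F K K' : Finset (Finset V)} {τ : Finset V} {H : SimpleGraph V}
  {S P A : Finset V} {m q k n : ℕ} {c : ℤ → V} {u y z z' : V} {s : ℕ}

/-- a path `c 1, u, y, c (-s)` -/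
structure Ct (H : SimpleGraph V) (c : ℤ → V) (u y : V) (s : ℕ) : Prop where
  iu : inn c u
  iy : inn c y
  cu : H.Adj (c 1) u
  uy : H.Adj u y
  yc : H.Adj y (c (-s))

/-- `s = 0` would give a 4-cycle, and `s ≥ q - 2` is excluded by `threeL` (with `i = 1 < k`). -/
theorem FC.ct_s (h : FC F τ H S P A m c K q k n) (hc : Ct H c u y s) (hs : s < q) :
    1 ≤ s ∧ s + 3 ≤ q := by
  have hk := h.k3
  constructor
  · by_contra h0
    have h1 : s = 0 := by omega
    subst h1
    have h2 : H.Adj (c 0) (c 1) := by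
      have := h.ctx.bd.cy.adj 0
      simpa using this
    have h3 : H.Adj y (c 0) := by
      have := hc.yc
      simpa using this
    rcases h.ctx.st.gd.quad (c 1) u y (c 0) hc.cu hc.uy h3 h2 with h4 | h4
    · exact hc.iy 1 h4
    · exact hc.iu 0 h4.symm
  · by_contra h0
    exact h.threeL y u hc.iy hc.iu hc.uy.symm 1 (-(s : ℤ)) le_rfl (by omega) (by omega)
      (by omega) hc.cu hc.yc

/-- the cycle has length `s + 4` -/
theorem FC.ct_pc (h : FC F τ H S P A m c K q k n) (hc : Ct H c u y s) (hs : s < q) :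
    PC H m c (-s) (s + 1) [y, u] := by
  have hk := h.k3
  have hm := h.ctx.hm
  have e1 : -(s : ℤ) + ((s + 1 : ℕ) : ℤ) = 1 := by
    push_cast
    ring
  refine ⟨by omega, by omega, by simp, ?_, ?_, ?_⟩
  · rw [e1]
    simp only [List.cons_append, List.nil_append, List.isChain_cons_cons, List.isChain_singleton,
      and_true]
    exact ⟨hc.yc.symm, hc.uy.symm, hc.cu.symm⟩
  · simp only [List.nodup_cons, List.mem_singleton, List.not_mem_nil, not_false_eq_true,
      List.nodup_nil, and_true]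
    exact hc.uy.symm.ne
  · intro x hx
    simp only [List.mem_cons, List.not_mem_nil, or_false] at hx
    rcases hx with rfl | rfl
    · exact hc.iy
    · exact hc.iu

private theorem FcF2_len (h : FC F τ H S P A m c K q k n) (hc : Ct H c u y s) (hs : s < q) :
    s + 1 + 1 + [y, u].length ≤ 7 := by
  have h1 := (h.ct_s hc hs).2
  have h2 := h.ctx.q6
  simp only [List.length_cons, List.length_nil]
  omega

/-- `FC.triv` (`s + 4 ≤ 7` by `FC.ct_s`, `Ctx.q6`) -/
theorem FC.ct_N (h : FC F τ H S P A m c K q k n) (hc : Ct H c u y s) (hs : s < q) {t : ℤ}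
    (h1 : -(s : ℤ) < t) (h2 : t ≤ 0) {w : V} (hw : H.Adj (c t) w) :
    w = c (t - 1) ∨ w = c (t + 1) :=
  h.triv (h.ct_pc hc hs) (FcF2_len h hc hs) h1 (by push_cast; omega) hw

/-- `FC.outEp` -/
theorem FC.ct_out (h : FC F τ H S P A m c K q k n) (hc : Ct H c u y s) (hs : s < q)
    {W : Finset V} (h1 : c 1 ∉ W) (h2 : c (-s) ∈ W) (h3 : y ∈ W) :
    OutE F τ (rs H W) (c (-s)) y := by
  refine h.outEp (h.ct_pc hc hs) (FcF2_len h hc hs) (t := 1) (by omega) (by push_cast; omega) h1
    ?_ h2 h3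
  exact ⟨[], [u] ++ [c (-(s : ℤ) + ((s + 1 : ℕ) : ℤ))], by simp⟩

/-- `FC.uniq` (the common edge `c 0 c 1`) -/
theorem FC.ct_uniq (h : FC F τ H S P A m c K q k n) {u' y' : V} {s' : ℕ}
    (hc : Ct H c u y s) (hs : s < q) (hc' : Ct H c u' y' s') (hs' : s' < q) :
    s = s' ∧ y = y' ∧ u = u' := by
  obtain ⟨h1, _, h3⟩ := h.uniq (h.ct_pc hc hs) (h.ct_pc hc' hs') (FcF2_len h hc hs)
    (FcF2_len h hc' hs') (t := 0) (by omega) (by push_cast; omega) (by omega)
    (by push_cast; omega)
  simp only [List.cons.injEq, and_true] at h3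
  exact ⟨by omega, h3.1, h3.2⟩

/-- `FC.uniq` (the common edge `c 0 c 1`): the two paths have different lengths. -/
theorem FC.ct_zp (h : FC F τ H S P A m c K q k n) (hc : Ct H c u y s) (hs : s < q)
    (hz : Zp H c z) : False := by
  obtain ⟨_, _, h3⟩ := h.uniq (h.ct_pc hc hs) (h.zp_pc hz) (FcF2_len h hc hs)
    (by simp) (t := 0) (by omega) (by push_cast; omega) (by omega) (by norm_num)
  have h4 := congrArg List.length h3
  simp at h4

end Pool.Agent.Lib.MP_a33b01_co_G5
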