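import Pool.Agent.Lib.MP_a33b01_co_G5.FcE
import Pool.Agent.Lib.MP_a33b01_co_G5.FcF

set_option autoImplicit false

/-!
# MP_a33b01_co, project G5: contacts of a conflict
-/

namespace Pool.Agent.Lib.MP_a33b01_co_G5

open Classical
open Pool.Agent.Lib.MP_a33b01_co (Sph sk cn supp EvenG Removes Wg)

variable {V : Type} {F K K' : Finset (Finset V)} {τ : Finset V} {H : SimpleGraph V}
  {S P A : Finset V} {m q k n : ℕ} {c : ℤ → V} {u x a y z : V} {s : ℕ}

private theorem FcG1_fin (h : FC F τ H S P A m c K q k n) (hf : Cf H c 2 u x) {j : ℤ} {d l : ℕ}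
    (hd : j + d = 1) (hp : PC H m c j d [a, x, u])
    (hK : Face F H l (per (c 0) (pl c j d [a, x, u])) K') : False := by
  have hc := h.ctx.bd.cy
  have hk3 := h.k3
  have hq1 := h.ctx.q1
  refine h.cf_u hf hK (fun y => ?_) ?_
  · rw [PC.ce_Q hc hp (l₁ := [c j, a]) (a := x) (v := u) (b := c (j + d)) (l₂ := []) rfl y, hd,
      or_comm]
    norm_num
  · rw [show (2 : ℤ) - 1 = j + d by rw [hd]; norm_num, PC.ce_r hc hp]
    rintro (e | e)
    · rw [hd] at e
      have := h.ctx.inj (i := 2) (j := 1 - 1) (by omega) (by omega) (by omega) (by omega) e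
      omega
    · simp only [List.getLast?_cons_cons, List.getLast?_singleton, Option.some.injEq] at e
      exact hf.iu 2 e.symm

/-- A neighbour `a` of `x` with a neighbour `c j` in `P` (`k > 3`).  If `a = u` use `FC.zp_q`.
`j ≤ 2 - q` is excluded by `threeL` (with `i = 3 < k`), so `j ≥ 3 - q ≥ -3`.
If `j ≥ -2`: `PC H m c j (1 - j) [a, x, u]` (length `5 - j ≤ 7`), `FC.pface` and `FC.cf_u`
(`PC.ce_Q`, `PC.ce_r`).
If `j = -3` (so `q = 6`): `FC.pface8` with `i = -3` and `[a, x, u]`: `c (-3)`, `c 1` are not
adjacent (`noch`), `c (-2)`, `u` are not adjacent (otherwise `Zp H c u`), `c (-1)`, `x` are not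
(`twoP` with `x`, `c 3`, `3 < k`), `c 0`, `a` are not (`twoPP`); `FC.cf_u`. -/
theorem FC.noxP (h : FC F τ H S P A m c K q k n) (hk : 3 < k) (hf : Cf H c 2 u x)
    (ha : inn c a) (hax : H.Adj a x) {j : ℤ} (hj : -(q : ℤ) < j) (hj0 : j ≤ 0)
    (haj : H.Adj a (c j)) : q = 6 ∧ Zp H c u := by
  have hcu : H.Adj (c 1) u := by
    have := hf.cu
    norm_num at this
    exact this
  have hxc : H.Adj x (c 3) := by
    have := hf.xc
    norm_num at this
    exact this
  have hq6 := h.ctx.q6
  have h9 := h.m9
  by_cases hau : a = u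
  · subst hau
    obtain ⟨h1, h2⟩ := h.zp_q hf.iu hcu.symm hj hj0 haj
    exact ⟨h1, hf.iu, hcu.symm, by rw [← h2]; exact haj⟩
  have hj3 : ¬ j ≤ 2 - q := fun h1 =>
    h.threeL a x ha hf.ix hax 3 j (by norm_num) (by exact_mod_cast hk) hj h1 hxc.symm haj
  obtain ⟨d, hd⟩ : ∃ d : ℕ, j + d = 1 := ⟨(1 - j).toNat, by omega⟩
  have hp : PC H m c j d [a, x, u] := by
    refine ⟨by omega, by omega, by simp, ?_, ?_, ?_⟩
    · rw [hd]
      simp only [List.cons_append, List.nil_append, List.isChain_cons_cons,
        List.isChain_singleton, and_true]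
      exact ⟨haj.symm, hax, hf.ux.symm, hcu.symm⟩
    · simp only [List.nodup_cons, List.mem_cons, List.not_mem_nil, or_false, not_or,
        not_false_eq_true, List.nodup_nil, and_true]
      exact ⟨⟨hax.ne, hau⟩, hf.ux.ne'⟩
    · intro v hv
      simp only [List.mem_cons, List.not_mem_nil, or_false] at hv
      rcases hv with rfl | rfl | rfl
      · exact ha
      · exact hf.ix
      · exact hf.iu
  by_contra hcon
  by_cases hj2 : -2 ≤ j
  · obtain ⟨K', hK, -⟩ := h.pface hp (by simp; omega)
    exact FcG1_fin h hf hd hp hK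
  · have hj' : j = -3 := by omega
    have hq : q = 6 := by omega
    subst hj'
    have hd4 : d = 4 := by omega
    subst hd4
    obtain ⟨K', hK, -⟩ := h.pface8 hp
      (by
        intro h1
        rcases h.noch _ _ h1 with h2 | h2
        · have := Int.le_of_dvd (by norm_num) h2
          omega
        · have h3 : (m : ℤ) ∣ 5 := by
            have := (dvd_neg.2 h2)
            norm_num at this
            exact this
          have := Int.le_of_dvd (by norm_num) h3
          omega)
      (by
        intro h1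
        apply hcon
        refine ⟨hq, hf.iu, hcu.symm, ?_⟩
        norm_num at h1
        exact h1.symm)
      (by
        intro h1
        norm_num at h1
        have := h.twoP x hf.ix 3 (-1) (by norm_num) (by omega) (by omega) (by norm_num) hxc
          h1.symm
        omega)
      (by
        intro h1
        norm_num at h1
        exact h.twoPP a ha (-3) 0 (by omega) (by norm_num) le_rfl haj h1.symm)
    exact FcG1_fin h hf hd hp hK

end Pool.Agent.Lib.MP_a33b01_co_G5
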