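import Pool.Agent.Lib.MP_a33b01_co_G5.FcE
import Pool.Agent.Lib.MP_a33b01_co_G5.FcF
import Pool.Agent.Lib.MP_a33b01_co_G5.FcG1

set_option autoImplicit false

/-!
# MP_a33b01_co, project G5: contacts of a conflict
-/

namespace Pool.Agent.Lib.MP_a33b01_co_G5

open Classical
open Pool.Agent.Lib.MP_a33b01_co (Sph sk cn supp EvenG Removes Wg)

variable {V : Type} {F K K' : Finset (Finset V)} {τ : Finset V} {H : SimpleGraph V}
  {S P A : Finset V} {m q k n : ℕ} {c : ℤ → V} {u x a y z : V} {s : ℕ}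

/-- The two parts of a short path: a vertex inside, not on the path, is in one of them. -/
theorem FcG2_split (h : FC F τ H S P A m c K q k n) {i : ℤ} {d : ℕ} {Q : List V}
    (hp : PC H m c i d Q) (h1 : d + 1 + Q.length ≤ 8) (h2 : m - d + 1 + Q.length ≤ 8) {w : V}
    (hw : inn c w) (hwQ : w ∉ Q) (hwy : ∃ y, H.Adj w y) : False := by
  have hG := h.ctx.st.gd
  have hB := h.ctx.bd
  obtain ⟨K₁, K₂, hs⟩ := exists_split hG.sph hG.le h.ctx.st.tF hB hp.hd hp.hdm (Q := Q)
    (fun e => absurd e hp.ne) hp.ch hp.nd hp.inn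
  have hl₁ : (arc c i (d + 1) ++ Q.reverse) ≠ [] := by
    intro hcon
    have := congrArg List.length hcon
    rw [List.length_append, arc_length] at this
    simp at this
  have hl₂ : (arc c (i + d) (m - d + 1) ++ Q) ≠ [] := by
    intro hcon
    have := congrArg List.length hcon
    rw [List.length_append, arc_length] at this
    simp at this
  have hc₁ := cy_per (c 0) hs.lc₁
  have hc₂ := cy_per (c 0) hs.lc₂
  rcases sp_cover hB hs hwy with h3 | h3
  · refine h.short _ _ K₁ hc₁ ?_ hs.bd₁.KF hs.bd₁.tau hs.bd₁.br w hwy ?_ h3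
    · rw [List.length_append, arc_length, List.length_reverse]
      exact h1
    · intro j' hj'
      have := (mem_per (c 0) hl₁).1 ⟨j', hj'⟩
      rw [List.mem_append, mem_arc, List.mem_reverse] at this
      rcases this with ⟨t, -, -, ht⟩ | h4
      · exact hw t ht
      · exact hwQ h4
  · refine h.short _ _ K₂ hc₂ ?_ hs.bd₂.KF hs.bd₂.tau hs.bd₂.br w hwy ?_ h3
    · rw [List.length_append, arc_length]
      exact h2
    · intro j' hj'
      have := (mem_per (c 0) hl₂).1 ⟨j', hj'⟩
      rw [List.mem_append, mem_arc] at this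
      rcases this with ⟨t, -, -, ht⟩ | h4
      · exact hw t ht
      · exact hwQ h4

/-- `k = 3`, `q = 6` (`m = 9`): the exceptional 2-chord does not exist.  `exists_split` for the
path `c (-2), z, c 1` (`i = -2`, `d = 3`): the cycles have lengths `5` and `8`.  One of `u`, `x` is
different from `z`; it is on one of the two parts (`sp_cover`) and not on its cycle, against
`h.short`. -/
theorem FC.zp3 (h : FC F τ H S P A m c K q k n) (hk : k = 3) (hf : Cf H c 2 u x)
    (hz : Zp H c z) : False := by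
  have h9 := h.m9
  have hq6 := h.ctx.q6
  have hm := h.ctx.hm
  have hp := h.zp_pc hz
  by_cases hzu : z = u
  · refine FcG2_split h hp (by simp) (by simp; omega) hf.ix ?_ ⟨u, hf.ux.symm⟩
    rw [List.mem_singleton, hzu]
    exact hf.ux.ne'
  · refine FcG2_split h hp (by simp) (by simp; omega) hf.iu ?_ ⟨x, hf.ux⟩
    rw [List.mem_singleton]
    exact fun e => hzu e.symm

/-- the mirror image of `FC.zp3` (`FC.mirror`, `Cf.mirror`) -/
theorem FC.zp3' (h : FC F τ H S P A m c K q k n) (hk : k = 3) (hf : Cf H c 2 u x)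
    (hz : inn c z) (h1 : H.Adj z (c 3)) {j : ℤ} (hj : -(q : ℤ) < j) (hj0 : j ≤ 0)
    (h2 : H.Adj z (c j)) : False := by
  have h9 := h.m9
  have hq6 := h.ctx.q6
  have hm := h.ctx.hm
  have hj3 : j = -3 := by
    have := h.twoP z hz 3 j (by norm_num) (by omega) hj hj0 h1 h2
    omega
  subst hj3
  have hk4 : (k : ℤ) + 1 - 2 = 2 := by rw [hk]; norm_num
  have hf' := hf.mirror ((k : ℤ) + 1)
  rw [hk4] at hf'
  refine h.mirror.zp3 hk hf' (z := z) ⟨?_, ?_, ?_⟩
  · intro i hi
    exact hz _ hi
  · show H.Adj z (c ((k : ℤ) + 1 - 1))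
    rw [hk]
    norm_num
    exact h1
  · show H.Adj z (c ((k : ℤ) + 1 - (-2)))
    rw [h.mir_neg]
    have : (1 : ℤ) - q - (-2) = -3 := by omega
    rw [this]
    exact h2

end Pool.Agent.Lib.MP_a33b01_co_G5
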