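import Pool.Agent.Lib.MP_a33b01_co_G5.FcE
import Pool.Agent.Lib.MP_a33b01_co_G5.FcF
import Pool.Agent.Lib.MP_a33b01_co_G5.FcG1
import Pool.Agent.Lib.MP_a33b01_co_G5.FcG2

set_option autoImplicit false

/-!
# MP_a33b01_co, project G5: contacts of a conflict
-/

namespace Pool.Agent.Lib.MP_a33b01_co_G5

open Classical
open Pool.Agent.Lib.MP_a33b01_co (Sph sk cn supp EvenG Removes Wg)

variable {V : Type} {F K K' : Finset (Finset V)} {τ : Finset V} {H : SimpleGraph V}
  {S P A : Finset V} {m q k n : ℕ} {c : ℤ → V} {u x a y z : V} {s : ℕ}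

/-- `k = 3`, `q = 6`, `m = 9`: a contact of `u` is at `c (-1)`.  By `FC.ct_s`: `1 ≤ s ≤ 3`.  `y ≠ x`
by `FC.zp3'`.
`s = 3`: `exists_split` for the path `c (-3), y, u, c 1`: the cycles have lengths `7` and `8`, and
`x` is in one of the parts, against `h.short`.
`s = 2`: `FC.pface8` with `i = 3` and `[x, u, y]` (`c 7 = c (-2)`): `c 3`, `c 7` are not adjacent
(`noch`), `c 4 = c (-5)` and `y` are not (`twoPP`), `c 5 = c (-4)` and `u` are not (`FC.zp_q`),
`c 6 = c (-3)` and `x` are not (`FC.zp3'`); `FC.cf_x` (`PC.ce_Q`, `PC.ce_l`). -/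
theorem FC.ct3 (h : FC F τ H S P A m c K q k n) (hk : k = 3) (hf : Cf H c 2 u x)
    (hc : Ct H c u y s) (hs : s < q) : s = 1 := by
  have h9 := h.m9
  have hq6 := h.ctx.q6
  have hm := h.ctx.hm
  have hB := h.ctx.bd
  have hxc : H.Adj x (c 3) := by
    have := hf.xc
    norm_num at this
    exact this
  obtain ⟨h1, h2⟩ := h.ct_s hc hs
  have hq : q = 6 := by omega
  have hm9 : m = 9 := by omega
  have hyx : y ≠ x := by
    rintro rfl
    exact h.zp3' hk hf hf.ix hxc (by omega) (by omega) hc.yc
  have hux : u ≠ x := hf.ux.ne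
  have hp := h.ct_pc hc hs
  have h3 : s ≤ 3 := by omega
  rcases (by omega : s = 1 ∨ s = 2 ∨ s = 3) with h4 | h4 | h4
  · exact h4
  · exfalso
    subst h4
    have hyc : H.Adj y (c (-2)) := by
      have := hc.yc
      norm_num at this
      exact this
    have e7 : c (3 + ((4 : ℕ) : ℤ)) = c (-2) := by
      have := hB.cy.per (-2)
      rw [hm9] at this
      norm_num at this ⊢
      exact this
    have e4 : c (3 + 1) = c (-5) := by
      have := hB.cy.per (-5)
      rw [hm9] at this
      norm_num at this ⊢
      exact this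
    have e5 : c (3 + 2) = c (-4) := by
      have := hB.cy.per (-4)
      rw [hm9] at this
      norm_num at this ⊢
      exact this
    have e6 : c (3 + 3) = c (-3) := by
      have := hB.cy.per (-3)
      rw [hm9] at this
      norm_num at this ⊢
      exact this
    have hp' : PC H m c 3 4 [x, u, y] := by
      refine ⟨by norm_num, by omega, by simp, ?_, ?_, ?_⟩
      · rw [e7]
        simp only [List.cons_append, List.nil_append, List.isChain_cons_cons,
          List.isChain_singleton, and_true]
        exact ⟨hxc.symm, hf.ux.symm, hc.uy, hyc⟩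
      · simp only [List.nodup_cons, List.mem_cons, List.not_mem_nil, or_false, not_or,
          not_false_eq_true, List.nodup_nil, and_true]
        exact ⟨⟨hux.symm, hyx.symm⟩, hc.uy.ne⟩
      · intro v hv
        simp only [List.mem_cons, List.not_mem_nil, or_false] at hv
        rcases hv with rfl | rfl | rfl
        · exact hf.ix
        · exact hf.iu
        · exact hc.iy
    obtain ⟨K', hK, -⟩ := h.pface8 hp'
      (by
        intro h5
        rcases h.noch _ _ h5 with h6 | h6
        · have := Int.le_of_dvd (by norm_num) h6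
          omega
        · have h7 : (m : ℤ) ∣ 5 := by
            have := (dvd_neg.2 h6)
            norm_num at this
            exact this
          have := Int.le_of_dvd (by norm_num) h7
          omega)
      (by
        intro h5
        rw [e4] at h5
        exact h.twoPP y hc.iy (-5) (-2) (by omega) (by norm_num) (by norm_num) h5.symm hyc)
      (by
        intro h5
        rw [e5] at h5
        have := (h.zp_q hc.iu hc.cu.symm (j := -4) (by omega) (by norm_num) h5.symm).2
        omega)
      (by
        intro h5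
        rw [e6] at h5
        exact h.zp3' hk hf hf.ix hxc (j := -3) (by omega) (by norm_num) h5.symm)
    refine h.cf_x hf hK (fun w => ?_) ?_
    · rw [PC.ce_Q hB.cy hp' (l₁ := []) (a := c 3) (v := x) (b := u)
        (l₂ := [y, c (3 + ((4 : ℕ) : ℤ))]) rfl w, or_comm]
      norm_num
    · rw [show (2 : ℤ) + 1 = 3 by norm_num, PC.ce_l hB.cy hp']
      rintro (e | e)
      · rw [cy_eq hB.cy] at e
        have h5 : (m : ℤ) ∣ 2 := by
          have := (dvd_neg.2 e)
          norm_num at this
          exact this
        have := Int.le_of_dvd (by norm_num) h5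
        omega
      · simp only [List.head?_cons, Option.some.injEq] at e
        exact hf.ix 2 e.symm
  · exfalso
    subst h4
    refine FcG2_split h hp (by simp) (by simp; omega) hf.ix ?_ ⟨u, hf.ux.symm⟩
    simp only [List.mem_cons, List.not_mem_nil, or_false, not_or]
    exact ⟨hyx.symm, hux.symm⟩

/-- the mirror image of `FC.ct3` -/
theorem FC.ct3' (h : FC F τ H S P A m c K q k n) (hk : k = 3) (hf : Cf H c 2 u x)
    (hy : inn c y) (hxy : H.Adj x y) {j : ℤ} (hj : -(q : ℤ) < j) (hj0 : j ≤ 0)
    (hyj : H.Adj y (c j)) : j = -4 := by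
  have h9 := h.m9
  have hq6 := h.ctx.q6
  have hm := h.ctx.hm
  have hq : q = 6 := by omega
  have hxc : H.Adj x (c 3) := by
    have := hf.xc
    norm_num at this
    exact this
  have hk4 : (k : ℤ) + 1 - 2 = 2 := by rw [hk]; norm_num
  have hf' := hf.mirror ((k : ℤ) + 1)
  rw [hk4] at hf'
  obtain ⟨s, hs⟩ : ∃ s : ℕ, j = s - 5 := ⟨(j + 5).toNat, by omega⟩
  have h1 := h.mirror.ct3 hk hf' (y := y) (s := s) ⟨?_, ?_, ?_, hxy, ?_⟩ (by omega)
  · omega
  · intro i hi
    exact hf.ix _ hi
  · intro i hi
    exact hy _ hi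
  · show H.Adj (c ((k : ℤ) + 1 - 1)) x
    rw [hk]
    norm_num
    exact hxc.symm
  · show H.Adj y (c ((k : ℤ) + 1 - (-(s : ℤ))))
    rw [h.mir_neg]
    have : (1 : ℤ) - q - (-(s : ℤ)) = j := by omega
    rw [this]
    exact hyj

end Pool.Agent.Lib.MP_a33b01_co_G5
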