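import Pool.Agent.Lib.MP_a33b01_co_G5.MainA
import Pool.Agent.Lib.MP_a33b01_co_G5.EuA
import Pool.Agent.Lib.MP_a33b01_co.MaxE

set_option autoImplicit false

/-!
# MP_a33b01_co, project G5: planar graphs of girth at least five
-/

namespace Pool.Agent.Lib.MP_a33b01_co_G5

open Classical
open Pool.Agent.Lib.MP_a33b01_co (Sph sk cn supp EvenG Removes Wg)

/-- the removal of all vertices, with few costly saves -/
theorem rem_planar {V : Type} [Fintype V] (G : SimpleGraph V)
    (hG : Pool.Agent.MP9d6bd1.Planar G)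
    (htri : ∀ x y z, G.Adj x y → G.Adj y z → ¬ G.Adj x z)
    (hquad : ∀ x y z w, G.Adj x y → G.Adj y z → G.Adj z w → G.Adj w x → x = z ∨ y = w) :
    ∃ k, Rem G Finset.univ (fun _ => 2) k ∧ 4 * k ≤ Fintype.card V := by
  by_cases h4 : 4 ≤ Fintype.card V
  · obtain ⟨F, hF, hle, hsupp⟩ := Pool.Agent.Lib.MP_a33b01_co.exists_sph G hG
      (by rw [Nat.card_eq_fintype_card]; exact h4)
    have hne : Nonempty V := Fintype.card_pos_iff.1 (by omega)
    obtain ⟨v0⟩ := hne
    obtain ⟨τ, hτ, -⟩ := Finset.mem_biUnion.1 (hsupp v0)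
    have st : St F τ G Finset.univ ∅ ∅ := by
      refine ⟨⟨hF, hle, htri, hquad⟩, hτ, fun x y _ => by simp, fun v _ => hsupp v, by simp,
        by simp, by simp, ?_, by simp, by simp, by simp, by simp, by simp⟩
      intro X hX hX1 hX2
      exact absurd (Finset.subset_empty.1 hX) hX1.ne_empty
    obtain ⟨k, hk, hk4⟩ := main_IH F τ _ G Finset.univ ∅ ∅ (Nat.lt_succ_self _) st
    refine ⟨k, ?_, by rwa [Finset.card_univ] at hk4⟩
    exact rem_mono (f' := fv G ∅ ∅) (fun u _ => by simp [fv]) (fun _ _ _ _ h => h) hk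
  · refine ⟨0, rem_all_free _ ?_, by omega⟩
    intro v _
    have h1 : ((Finset.univ : Finset V).filter fun u => G.Adj v u).card + 1 ≤
        Fintype.card V := by
      rw [← Finset.card_univ, ← Finset.card_insert_of_notMem (a := v) (by simp)]
      exact Finset.card_le_card (Finset.subset_univ _)
    omega

theorem planar5 {V : Type} [Fintype V] (G : SimpleGraph V)
    (hG : Pool.Agent.MP9d6bd1.Planar G)
    (htri : ∀ x y z, G.Adj x y → G.Adj y z → ¬ G.Adj x z)
    (hquad : ∀ x y z w, G.Adj x y → G.Adj y z → G.Adj z w → G.Adj w x → x = z ∨ y = w)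
    (f : V → ℕ) (hf : ∀ v, 2 ≤ f v) :
    ∃ L, Removes G Finset.univ f L ∧ 3 ^ Fintype.card V ≤ L.prod ^ 24 := by
  obtain ⟨k, hk, hk4⟩ := rem_planar G hG htri hquad
  obtain ⟨X, hX, hX2⟩ := rem_wg hk
  rw [pairs5] at hX2
  have hE := edges5 G hG htri hquad
  rw [Nat.card_eq_fintype_card] at hE
  rw [Finset.sum_const, Finset.card_univ, smul_eq_mul] at hX2
  obtain ⟨L, hL, hp⟩ := prod3 (f := f) hX (fun u _ => le_rfl) (fun u _ => hf u)
  refine ⟨L, hL, ?_⟩
  have h1 : Fintype.card V ≤ X * 12 := by omega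
  calc 3 ^ Fintype.card V ≤ 3 ^ (X * 12) := Nat.pow_le_pow_right (by norm_num) h1
    _ = (3 ^ X) ^ 12 := pow_mul 3 X 12
    _ ≤ (L.prod ^ 2) ^ 12 := Nat.pow_le_pow_left hp 12
    _ = L.prod ^ 24 := by rw [← pow_mul]

end Pool.Agent.Lib.MP_a33b01_co_G5
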