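import Pool.Agent.Lib.MP_a33b01_co_G5.FcG

set_option autoImplicit false

/-!
# MP_a33b01_co, project G5: the conflict at c 2: the new low vertices are independent
-/

namespace Pool.Agent.Lib.MP_a33b01_co_G5

open Classical
open Pool.Agent.Lib.MP_a33b01_co (Sph sk cn supp EvenG Removes Wg)

variable {V : Type} {F K : Finset (Finset V)} {τ : Finset V} {H : SimpleGraph V}
  {S P A : Finset V} {m q k n : ℕ} {c : ℤ → V} {u x a b y z : V}

/-- the vertices which become low when `c 1, c 2, c 3, u, x` are deleted (or which are low) -/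
def XM (H : SimpleGraph V) (A : Finset V) (c : ℤ → V) (k : ℕ) (u x a : V) : Prop :=
  a ≠ u ∧ a ≠ x ∧ ((∃ t : ℤ, 4 ≤ t ∧ t < k ∧ c t = a ∧ a ∈ A) ∨
    (inn c a ∧ (H.Adj a (c 1) ∨ H.Adj a (c 3) ∨ H.Adj a u ∨ H.Adj a x)))

/-- Two members of `A`: `st.ind`.  `a = c t ∈ A` and `b` inside: `b ~ c 1` or `b ~ c 3`: `two`;
`b ~ u`: `three` (`c 1, u, b, c t`); `b ~ x`: `t = 4` a 4-cycle, `t = 5` is impossible
(`c 4 ∈ A`), `t ≥ 6`: `three` (`c 3, x, b, c t`).  Both inside: the same neighbour: a
triangle; (`c 1`, `c 3`): `FC.cf_uniq` (`a = u`); (`c 1`, `u`), (`c 3`, `x`), (`u`, `x`): a 4-cycle;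
(`c 1`, `x`): `FC.f3'`; (`c 3`, `u`): `FC.f3`. -/
theorem FC.xm_ind (h : FC F τ H S P A m c K q k n) (hf : Cf H c 2 u x)
    (hk : k = 3 ∨ c 4 ∈ A) (ha : XM H A c k u x a) (hb : XM H A c k u x b) :
    ¬ H.Adj a b := by
  have g := h.ctx.st.gd
  have hcu : H.Adj (c 1) u := by
    have := hf.cu
    have e : (2 : ℤ) - 1 = 1 := by norm_num
    rwa [e] at this
  have hxc : H.Adj x (c 3) := by
    have := hf.xc
    have e : (2 : ℤ) + 1 = 3 := by norm_num
    rwa [e] at this
  have key1 : ∀ (t : ℤ) (b : V), 4 ≤ t → t < k → c t ∈ A → inn c b →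
      (H.Adj b (c 1) ∨ H.Adj b (c 3) ∨ H.Adj b u ∨ H.Adj b x) → ¬ H.Adj b (c t) := by
    intro t b h4 htk htA hbi hb hbt
    have hkA : c 4 ∈ A := by
      rcases hk with h5 | h5
      · omega
      · exact h5
    rcases hb with h5 | h5 | h5 | h5
    · exact h.two b hbi 1 t le_rfl (by omega) htk.le h5 hbt
    · exact h.two b hbi 3 t (by norm_num) (by omega) htk.le h5 hbt
    · exact h.three u b hf.iu hbi h5.symm 1 t le_rfl (by omega) htk.le hcu hbt
    · have h6 : t = 4 ∨ t = 5 ∨ 6 ≤ t := by omega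
      rcases h6 with rfl | rfl | h6
      · have h7 : H.Adj (c 4) (c 3) := by
          have := h.ctx.bd.cy.adj 3
          have e : (3 : ℤ) + 1 = 4 := by norm_num
          rw [e] at this
          exact this.symm
        rcases g.quad (c 3) x b (c 4) hxc.symm h5.symm hbt h7 with h8 | h8
        · exact hbi 3 h8
        · exact hf.ix 4 h8.symm
      · have h7 : H.Adj (c 4) (c 5) := by
          have := h.ctx.bd.cy.adj 4
          have e : (4 : ℤ) + 1 = 5 := by norm_num
          rwa [e] at this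
        exact h.ctx.st.ind _ hkA _ htA h7
      · exact h.three x b hf.ix hbi h5.symm 3 t (by norm_num) (by omega) htk.le hxc.symm hbt
  have key13 : ∀ a b : V, inn c a → inn c b → a ≠ u → H.Adj a b → H.Adj a (c 1) →
      H.Adj b (c 3) → False := by
    intro a b hai hbi hau hab h1 h2
    have hf' : Cf H c 2 a b := by
      refine ⟨hai, hbi, ?_, hab, ?_⟩
      · have e : (2 : ℤ) - 1 = 1 := by norm_num
        rw [e]
        exact h1.symm
      · have e : (2 : ℤ) + 1 = 3 := by norm_num
        rw [e]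
        exact h2
    exact hau (h.cf_uniq hf hf').1.symm
  have key1u : ∀ a b : V, inn c b → a ≠ u → H.Adj a b → H.Adj a (c 1) →
      H.Adj b u → False := by
    intro a b hbi hau hab h1 h2
    rcases g.quad a (c 1) u b h1 hcu h2.symm hab.symm with h3 | h3
    · exact hau h3
    · exact hbi 1 h3
  have key3x : ∀ a b : V, inn c b → a ≠ x → H.Adj a b → H.Adj a (c 3) →
      H.Adj b x → False := by
    intro a b hbi hax hab h1 h2
    rcases g.quad a (c 3) x b h1 hxc.symm h2.symm hab.symm with h3 | h3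
    · exact hax h3
    · exact hbi 3 h3
  have keyux : ∀ a b : V, a ≠ x → b ≠ u → H.Adj a b → H.Adj a u → H.Adj b x → False := by
    intro a b hax hbu hab h1 h2
    rcases g.quad a u x b h1 hf.ux h2.symm hab.symm with h3 | h3
    · exact hax h3
    · exact hbu h3.symm
  have key1x : ∀ a b : V, inn c a → a ≠ u → H.Adj a b → H.Adj a (c 1) →
      H.Adj b x → False := by
    intro a b hai hau hab h1 h2
    refine h.f3' hf (z := a) (w := b) ?_ hab h2 (fun h3 => hai 2 h3.symm) hau
    have e : (2 : ℤ) - 1 = 1 := by norm_num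
    rw [e]
    exact h1.symm
  have key3u : ∀ a b : V, inn c a → a ≠ x → H.Adj a b → H.Adj a (c 3) →
      H.Adj b u → False := by
    intro a b hai hax hab h1 h2
    refine h.f3 hf (z := a) (w := b) ?_ hab h2 (fun h3 => hai 2 h3.symm) hax
    have e : (2 : ℤ) + 1 = 3 := by norm_num
    rw [e]
    exact h1.symm
  intro hab
  obtain ⟨hau, hax, ha⟩ := ha
  obtain ⟨hbu, hbx, hb⟩ := hb
  rcases ha with ⟨t, ht1, ht2, rfl, htA⟩ | ⟨hai, ha⟩
  · rcases hb with ⟨t', _, _, rfl, htA'⟩ | ⟨hbi, hb⟩
    · exact h.ctx.st.ind _ htA _ htA' hab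
    · exact key1 t b ht1 ht2 htA hbi hb hab.symm
  · rcases hb with ⟨t', ht1, ht2, rfl, htA'⟩ | ⟨hbi, hb⟩
    · exact key1 t' a ht1 ht2 htA' hai ha hab
    · rcases ha with ha | ha | ha | ha
      · rcases hb with hb | hb | hb | hb
        · exact g.tri a b (c 1) hab hb ha
        · exact key13 a b hai hbi hau hab ha hb
        · exact key1u a b hbi hau hab ha hb
        · exact key1x a b hai hau hab ha hb
      · rcases hb with hb | hb | hb | hb
        · exact key13 b a hbi hai hbu hab.symm hb ha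
        · exact g.tri a b (c 3) hab hb ha
        · exact key3u a b hai hax hab ha hb
        · exact key3x a b hbi hax hab ha hb
      · rcases hb with hb | hb | hb | hb
        · exact key1u b a hai hbu hab.symm hb ha
        · exact key3u b a hbi hbx hab.symm hb ha
        · exact g.tri a b u hab hb ha
        · exact keyux a b hax hbu hab ha hb
      · rcases hb with hb | hb | hb | hb
        · exact key1x b a hbi hbu hab.symm hb ha
        · exact key3x b a hai hbx hab.symm hb ha
        · exact keyux b a hbx hau hab.symm hb ha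
        · exact g.tri a b x hab hb ha

end Pool.Agent.Lib.MP_a33b01_co_G5
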