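import Pool.Agent.Lib.MP_a33b01_co_G5.FcG
import Pool.Agent.Lib.MP_a33b01_co_G5.FxA1

set_option autoImplicit false

/-!
# MP_a33b01_co, project G5: the conflict at c 2: the new low vertices are independent
-/

namespace Pool.Agent.Lib.MP_a33b01_co_G5

open Classical
open Pool.Agent.Lib.MP_a33b01_co (Sph sk cn supp EvenG Removes Wg)

variable {V : Type} {F K : Finset (Finset V)} {τ : Finset V} {H : SimpleGraph V}
  {S P A : Finset V} {m q k n : ℕ} {c : ℤ → V} {u x a b y z : V}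

private theorem FxA2_e1 {w : V} (h : H.Adj (c 1) w) : H.Adj (c (2 - 1)) w := by
  have e : (2 : ℤ) - 1 = 1 := by norm_num
  rwa [e]

private theorem FxA2_e3 {w : V} (h : H.Adj (c 3) w) : H.Adj (c (2 + 1)) w := by
  have e : (2 : ℤ) + 1 = 3 := by norm_num
  rwa [e]

private theorem FxA2_cu (hf : Cf H c 2 u x) : H.Adj (c 1) u := by
  have := hf.cu
  have e : (2 : ℤ) - 1 = 1 := by norm_num
  rwa [e] at this

private theorem FxA2_xc (hf : Cf H c 2 u x) : H.Adj x (c 3) := by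
  have := hf.xc
  have e : (2 : ℤ) + 1 = 3 := by norm_num
  rwa [e] at this

/-- `y` is a neighbour of `u`.  `a = c t`: `three` (`c 1, u, y, c t`); `a ~ c 1`, `a ~ x`: a 4-cycle;
`a ~ c 3`: `FC.f3`; `a ~ u`: a triangle. -/
theorem FC.xm_y (h : FC F τ H S P A m c K q k n) (hf : Cf H c 2 u x)
    (hy : inn c y) (huy : H.Adj u y) (hyx : y ≠ x) (ha : XM H A c k u x a) :
    ¬ H.Adj a y := by
  have g := h.ctx.st.gd
  have hcu : H.Adj (c 1) u := FxA2_cu hf
  have hxc : H.Adj x (c 3) := FxA2_xc hf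
  intro hay
  obtain ⟨hau, hax, ⟨t, ht1, ht2, rfl, htA⟩ | ⟨hai, ha⟩⟩ := ha
  · exact h.three u y hf.iu hy huy 1 t le_rfl (by omega) ht2.le hcu hay.symm
  rcases ha with ha | ha | ha | ha
  · rcases g.quad a (c 1) u y ha hcu huy hay.symm with h3 | h3
    · exact hau h3
    · exact hy 1 h3
  · exact h.f3 hf (z := a) (w := y) (FxA2_e3 ha.symm) hay huy.symm (fun h3 => hai 2 h3.symm) hax
  · exact g.tri a u y ha huy hay
  · rcases g.quad a x u y ha hf.ux.symm huy hay.symm with h3 | h3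
    · exact hau h3
    · exact hyx h3.symm

/-- the mirror image, for `k = 3`: `a ~ c 3`, `a ~ u`: a 4-cycle; `a ~ c 1`: `FC.f3'`;
`a ~ x`: a triangle -/
theorem FC.xm_y' (h : FC F τ H S P A m c K q k n) (hf : Cf H c 2 u x) (hk : k = 3)
    (hy : inn c y) (hxy : H.Adj x y) (hyu : y ≠ u) (ha : XM H A c k u x a) :
    ¬ H.Adj a y := by
  have g := h.ctx.st.gd
  have hcu : H.Adj (c 1) u := FxA2_cu hf
  have hxc : H.Adj x (c 3) := FxA2_xc hf
  intro hay
  obtain ⟨hau, hax, ⟨t, ht1, ht2, rfl, htA⟩ | ⟨hai, ha⟩⟩ := ha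
  · omega
  rcases ha with ha | ha | ha | ha
  · exact h.f3' hf (z := a) (w := y) (FxA2_e1 ha.symm) hay hxy.symm (fun h3 => hai 2 h3.symm) hau
  · rcases g.quad a (c 3) x y ha hxc.symm hxy hay.symm with h3 | h3
    · exact hax h3
    · exact hy 3 h3
  · rcases g.quad a u x y ha hf.ux hxy hay.symm with h3 | h3
    · exact hax h3
    · exact hyu h3.symm
  · exact g.tri a x y ha hxy hay

/-- `a = c t`: `two`; `a ~ c 1`: a triangle; `a ~ c 3`: `FC.cf_uniq` (`z = u`); `a ~ u`: a 4-cycle;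
`a ~ x`: `FC.f3'`. -/
theorem FC.xm_z (h : FC F τ H S P A m c K q k n) (hf : Cf H c 2 u x)
    (hz : Zp H c z) (hzu : z ≠ u) (ha : XM H A c k u x a) : ¬ H.Adj a z := by
  have g := h.ctx.st.gd
  have hcu : H.Adj (c 1) u := FxA2_cu hf
  intro haz
  obtain ⟨hau, hax, ⟨t, ht1, ht2, rfl, htA⟩ | ⟨hai, ha⟩⟩ := ha
  · exact h.two z hz.iz 1 t le_rfl (by omega) ht2.le hz.z1 haz.symm
  rcases ha with ha | ha | ha | ha
  · exact g.tri a z (c 1) haz hz.z1 ha
  · have hf' : Cf H c 2 z a :=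
      ⟨hz.iz, hai, FxA2_e1 hz.z1.symm, haz.symm, (FxA2_e3 ha.symm).symm⟩
    exact hzu (h.cf_uniq hf hf').1.symm
  · rcases g.quad a u (c 1) z ha hcu.symm hz.z1.symm haz.symm with h3 | h3
    · exact hai 1 h3.symm
    · exact hzu h3.symm
  · exact h.f3' hf (z := z) (w := a) (FxA2_e1 hz.z1.symm) haz.symm ha
      (fun h3 => hz.iz 2 h3.symm) hzu

end Pool.Agent.Lib.MP_a33b01_co_G5
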