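import Pool.Agent.Lib.MP_a33b01_co_G5.FcG
import Pool.Agent.Lib.MP_a33b01_co_G5.FxA1
import Pool.Agent.Lib.MP_a33b01_co_G5.FxA2

set_option autoImplicit false

/-!
# MP_a33b01_co, project G5: the conflict at c 2: the new low vertices are independent
-/

namespace Pool.Agent.Lib.MP_a33b01_co_G5

open Classical
open Pool.Agent.Lib.MP_a33b01_co (Sph sk cn supp EvenG Removes Wg)

variable {V : Type} {F K : Finset (Finset V)} {τ : Finset V} {H : SimpleGraph V}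
  {S P A : Finset V} {m q k n : ℕ} {c : ℤ → V} {u x a b y z : V}

private theorem FxA3_ct (hf : Cf H c 2 u x) (hai : inn c a) (ha : H.Adj a u) {j : ℤ}
    (hj0 : j ≤ 0) (haj : H.Adj a (c j)) : Ct H c u a (-j).toNat := by
  refine ⟨hf.iu, hai, ?_, ha.symm, ?_⟩
  · have := hf.cu
    have e : (2 : ℤ) - 1 = 1 := by norm_num
    rwa [e] at this
  · have e : -(((-j).toNat : ℕ) : ℤ) = j := by omega
    rw [e]
    exact haj

/-- `a ∈ A`: `st.AP`; `a ~ c 1`: `FC.zp_q`; `a ~ c 3`: `twoP` (`1 < 3 < k`); `a ~ u`: a contact;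
`a ~ x`: `FC.noxP`. -/
theorem FC.xm_P (h : FC F τ H S P A m c K q k n) (hf : Cf H c 2 u x) (hk : 3 < k)
    (ha : XM H A c k u x a) {j : ℤ} (hj : -(q : ℤ) < j) (hj0 : j ≤ 0) (haj : H.Adj a (c j)) :
    (q = 6 ∧ Zp H c a) ∨ (∃ s : ℕ, s < q ∧ j = -(s : ℤ) ∧ Ct H c u a s) ∨
      (q = 6 ∧ Zp H c u) := by
  obtain ⟨hau, hax, ⟨t, ht1, ht2, rfl, htA⟩ | ⟨hai, ha⟩⟩ := ha
  · exact absurd haj (h.ctx.st.AP _ htA _ (h.ctx.cP hj hj0).1)
  rcases ha with ha | ha | ha | ha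
  · obtain ⟨hq, rfl⟩ := h.zp_q hai ha hj hj0 haj
    exact Or.inl ⟨hq, hai, ha, haj⟩
  · rcases (h.twoP a hai 3 j (by norm_num) (by omega) hj hj0 ha haj).2 with ⟨h3, _⟩ | ⟨h3, _⟩
    · norm_num at h3
    · omega
  · exact Or.inr (Or.inl ⟨(-j).toNat, by omega, by omega, FxA3_ct hf hai ha hj0 haj⟩)
  · exact Or.inr (Or.inr (h.noxP hk hf hai ha hj hj0 haj))

/-- `k = 3`: `FC.zp3`, `FC.zp3'`, `FC.ct3`, `FC.ct3'` -/
theorem FC.xm_P3 (h : FC F τ H S P A m c K q k n) (hf : Cf H c 2 u x) (hk : k = 3)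
    (ha : XM H A c k u x a) {j : ℤ} (hj : -(q : ℤ) < j) (hj0 : j ≤ 0) (haj : H.Adj a (c j)) :
    (H.Adj a u ∧ j = -1) ∨ (H.Adj a x ∧ j = -4) := by
  obtain ⟨hau, hax, ⟨t, ht1, ht2, rfl, htA⟩ | ⟨hai, ha⟩⟩ := ha
  · omega
  rcases ha with ha | ha | ha | ha
  · obtain ⟨hq, rfl⟩ := h.zp_q hai ha hj hj0 haj
    exact (h.zp3 hk hf ⟨hai, ha, haj⟩).elim
  · exact (h.zp3' hk hf hai ha hj hj0 haj).elim
  · left
    have h1 := h.ct3 hk hf (FxA3_ct hf hai ha hj0 haj) (by omega)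
    exact ⟨ha, by omega⟩
  · right
    exact ⟨ha, h.ct3' hk hf hai ha.symm hj hj0 haj⟩

end Pool.Agent.Lib.MP_a33b01_co_G5
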