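import Pool.Agent.Lib.MP_a33b01_co_G5.TpA

set_option autoImplicit false

/-!
# MP_a33b01_co, project G5: basic lemmas on states
-/

namespace Pool.Agent.Lib.MP_a33b01_co_G5

open Classical
open Pool.Agent.Lib.MP_a33b01_co (Sph sk cn supp EvenG Removes Wg)

variable {V : Type} {F : Finset (Finset V)} {τ : Finset V} {H H' : SimpleGraph V}
  {S P A : Finset V}

theorem gd_mono (h : Gd F H) (hH : H' ≤ H) : Gd F H' :=
  ⟨h.sph, le_trans hH h.le, fun x y z h1 h2 h3 => h.tri x y z (hH h1) (hH h2) (hH h3),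
    fun x y z w h1 h2 h3 h4 => h.quad x y z w (hH h1) (hH h2) (hH h3) (hH h4)⟩

theorem rs_le (W : Finset V) : rs H W ≤ H := fun _ _ h => h.1

theorem sg_le (K : Finset (Finset V)) : sg H K ≤ H := fun _ _ h => h.1

private theorem StA1_pair (h : Gd F H) {l : List V} (hl : l.Nodup) (hc : l.IsChain H.Adj)
    {u : V} (hu : u ∉ l) {a b : ℕ} (ha : a < l.length) (hb : b < l.length) (hab : a < b)
    (h1 : H.Adj u l[a]) (h2 : H.Adj u l[b]) : a + 3 ≤ b := by
  by_contra hcon
  have h3 := List.isChain_iff_getElem.1 hc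
  have h4 : b = a + 1 ∨ b = a + 2 := by omega
  rcases h4 with rfl | rfl
  · exact h.tri _ _ _ h1 (h3 a hb) h2
  · rcases h.quad _ _ _ _ h1 (h3 a (by omega)) (h3 (a + 1) hb) h2.symm with h5 | h5
    · exact hu (h5 ▸ List.getElem_mem _)
    · have h6 := hl.getElem_inj_iff.1 h5
      omega

/-- A vertex outside of a path with at most six vertices has at most two neighbours on it:
neighbours at distance at most two on the path would give a cycle of length at most four. -/
theorem ld_list (h : Gd F H) {l : List V} (hl : l.Nodup) (hc : l.IsChain H.Adj)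
    (h6 : l.length ≤ 6) {u : V} (hu : u ∉ l) :
    (l.toFinset.filter fun p => H.Adj u p).card ≤ 2 := by
  by_contra hcon
  have h1 : 2 < (l.toFinset.filter fun p => H.Adj u p).card := by omega
  obtain ⟨x, y, z, hx, hy, hz, hxy, hxz, hyz⟩ := Finset.two_lt_card_iff.1 h1
  rw [Finset.mem_filter, List.mem_toFinset] at hx hy hz
  obtain ⟨⟨i, hi, rfl⟩, hx⟩ := And.imp_left List.getElem_of_mem hx
  obtain ⟨⟨j, hj, rfl⟩, hy⟩ := And.imp_left List.getElem_of_mem hy
  obtain ⟨⟨k, hk, rfl⟩, hz⟩ := And.imp_left List.getElem_of_mem hz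
  have key : ∀ a b (ha : a < l.length) (hb : b < l.length), l[a] ≠ l[b] → H.Adj u l[a] →
      H.Adj u l[b] → a + 3 ≤ b ∨ b + 3 ≤ a := by
    intro a b ha hb hne h2 h3
    rcases lt_trichotomy a b with h4 | h4 | h4
    · exact Or.inl (StA1_pair h hl hc hu ha hb h4 h2 h3)
    · subst h4
      exact absurd rfl hne
    · exact Or.inr (StA1_pair h hl hc hu hb ha h4 h3 h2)
  have h2 := key i j hi hj hxy hx hy
  have h3 := key i k hi hk hxz hx hz
  have h4 := key j k hj hk hyz hy hz
  omega

/-- A path is connected. -/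
theorem cn_list {E : V → V → Prop} (hE : ∀ x y, E x y → E y x) {l : List V}
    (hc : l.IsChain E) : CN E l.toFinset := by
  intro X hX hne hne'
  by_contra hcon
  push Not at hcon
  have h0 := List.isChain_iff_getElem.1 hc
  have hcl : ∀ a ∈ X, ∀ b ∈ l, E a b → b ∈ X := by
    intro a ha b hb hab
    by_contra h1
    exact hcon a ha b (List.mem_toFinset.2 hb) h1 hab
  have key : ∀ t (ht : t < l.length) (h00 : 0 < l.length), l[t] ∈ X ↔ l[0] ∈ X := by
    intro t
    induction t with
    | zero =>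
      intro _ _
      exact Iff.rfl
    | succ t ih =>
      intro ht h00
      rw [← ih (by omega) h00]
      exact ⟨fun h1 => hcl _ h1 _ (List.getElem_mem _) (hE _ _ (h0 t ht)),
        fun h1 => hcl _ h1 _ (List.getElem_mem _) (h0 t ht)⟩
  obtain ⟨x, hx⟩ := hne
  obtain ⟨i, hi, rfl⟩ := List.getElem_of_mem (List.mem_toFinset.1 (hX hx))
  apply hne'
  apply Finset.Subset.antisymm hX
  intro y hy
  obtain ⟨j, hj, rfl⟩ := List.getElem_of_mem (List.mem_toFinset.1 hy)
  have h00 : 0 < l.length := by omega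
  exact (key j hj h00).2 ((key i hi h00).1 hx)

theorem cn_mono {E E' : V → V → Prop} {P : Finset V} (hE : ∀ x ∈ P, ∀ y ∈ P, E x y → E' x y)
    (h : CN E P) : CN E' P := by
  intro X hX hne hne'
  obtain ⟨a, ha, b, hb, hbX, hab⟩ := h X hX hne hne'
  exact ⟨a, ha, b, hb, hbX, hE a (hX ha) b hb hab⟩

/-- The load is at most two (`h.ld`, `h.AP`). -/
theorem St.load (h : St F τ H S P A) {u : V} (hu : u ∈ S) :
    (if u ∈ A then 1 else 0) + (P.filter fun p => H.Adj u p).card ≤ 2 := by
  by_cases hA : u ∈ A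
  · rw [if_pos hA]
    have h1 : (P.filter fun p => H.Adj u p) = ∅ := by
      rw [Finset.filter_eq_empty_iff]
      intro p hp
      exact h.AP u hA p hp
    rw [h1]
    simp
  · rw [if_neg hA, zero_add]
    exact h.ld u hu

end Pool.Agent.Lib.MP_a33b01_co_G5
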