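import Pool.Agent.Lib.MP_a33b01_co_G5.TpA
import Pool.Agent.Lib.MP_a33b01_co_G5.StA1

set_option autoImplicit false

/-!
# MP_a33b01_co, project G5: basic lemmas on states
-/

namespace Pool.Agent.Lib.MP_a33b01_co_G5

open Classical
open Pool.Agent.Lib.MP_a33b01_co (Sph sk cn supp EvenG Removes Wg)

variable {V : Type} {F : Finset (Finset V)} {τ : Finset V} {H H' : SimpleGraph V}
  {S P A : Finset V}

/-- Restriction of a state. -/
theorem St.sub (h : St F τ H S P A) {S' P' : Finset V} (hS : S' ⊆ S) (hP : P' ⊆ P)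
    (hc : CN (OutE F τ H) P') : St F τ (rs H (S' ∪ P')) S' P' (A ∩ S') := by
  refine ⟨gd_mono h.gd (rs_le _), h.tF, fun x y hxy => hxy.2.1,
    (Finset.union_subset_union hS hP).trans h.sF,
    Finset.disjoint_of_subset_left hS (Finset.disjoint_of_subset_right hP h.dj),
    (Finset.card_le_card hP).trans h.six, fun p hp => out_mono (rs_le _) (h.outP p (hP hp)),
    ?_, ?_, Finset.inter_subset_right,
    fun a ha => out_mono (rs_le _) (h.outA a (Finset.mem_inter.1 ha).1), ?_, ?_⟩
  · exact cn_mono (fun x hx y hy hxy => outE_mono (rs_le _)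
      ⟨hxy.1, Finset.mem_union_right _ hx, Finset.mem_union_right _ hy⟩ hxy) hc
  · intro u hu
    refine le_trans (Finset.card_le_card ?_) (h.ld u (hS hu))
    intro p hp
    rw [Finset.mem_filter] at hp ⊢
    exact ⟨hP hp.1, hp.2.1⟩
  · intro a ha b hb hab
    exact h.ind a (Finset.mem_inter.1 ha).1 b (Finset.mem_inter.1 hb).1 hab.1
  · intro a ha p hp hap
    exact h.AP a (Finset.mem_inter.1 ha).1 p (hP hp) hap.1

/-- The comparison of the functions of two states: the new load is at least the old load plus the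
number of the neighbours which have been removed in between. -/
theorem fv_step {P' A' S₁ : Finset V} {u : V} (hd : Disjoint P S₁) (hA : u ∈ A → u ∈ A')
    (hN : ∀ x, x ∈ P ∨ x ∈ S₁ → H.Adj u x → x ∈ P' ∧ H'.Adj u x)
    (h2 : (if u ∈ A' then 1 else 0) + (P'.filter fun p => H'.Adj u p).card ≤ 2) :
    fv H' P' A' u + (S₁.filter fun x => H.Adj u x).card ≤ fv H P A u := by
  have h3 : (P.filter fun x => H.Adj u x).card + (S₁.filter fun x => H.Adj u x).card ≤
      (P'.filter fun p => H'.Adj u p).card := by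
    rw [← Finset.card_union_of_disjoint (Finset.disjoint_filter_filter hd)]
    apply Finset.card_le_card
    intro x hx
    rw [Finset.mem_union, Finset.mem_filter, Finset.mem_filter] at hx
    rw [Finset.mem_filter]
    rcases hx with hx | hx
    · exact hN x (Or.inl hx.1) hx.2
    · exact hN x (Or.inr hx.1) hx.2
  have h4 : (if u ∈ A then 1 else 0) ≤ (if u ∈ A' then 1 else 0) := by
    by_cases h5 : u ∈ A
    · rw [if_pos h5, if_pos (hA h5)]
    · rw [if_neg h5]
      exact Nat.zero_le _
  unfold fv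
  omega

/-- Comparison of the measures: `W' = S' ∪ P'` is a proper subset of `W = S ∪ P`. -/
theorem mu_lt {S' P' : Finset V} (hd : Disjoint S P) (hd' : Disjoint S' P')
    (hsub : S' ∪ P' ⊆ S ∪ P) (hne : S' ∪ P' ≠ S ∪ P) (h6 : P.card ≤ 6) :
    mu S' P' < mu S P := by
  have h1 : (S' ∪ P').card < (S ∪ P).card :=
    Finset.card_lt_card (Finset.ssubset_iff_subset_ne.2 ⟨hsub, hne⟩)
  rw [Finset.card_union_of_disjoint hd, Finset.card_union_of_disjoint hd'] at h1
  unfold mu
  omega

end Pool.Agent.Lib.MP_a33b01_co_G5
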