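import Pool.Agent.Lib.MP_a33b01_co_G5.FxA
import Pool.Agent.Lib.MP_a33b01_co_G5.StA

set_option autoImplicit false

/-!
# MP_a33b01_co, project G5: the conflict at c 2: the new low vertices
-/

namespace Pool.Agent.Lib.MP_a33b01_co_G5

open Classical
open Pool.Agent.Lib.MP_a33b01_co (Sph sk cn supp EvenG Removes Wg)

variable {V : Type} {F K : Finset (Finset V)} {τ : Finset V} {H : SimpleGraph V}
  {S P A D S' : Finset V} {m q k n : ℕ} {c : ℤ → V} {u x a w : V} {l : List V}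

private theorem FxB1_cyc (h : FC F τ H S P A m c K q k n) (hf : Cf H c 2 u x)
    (hS : S' ⊆ S) (hS' : c 1 ∉ S' ∧ c 2 ∉ S' ∧ c 3 ∉ S' ∧ u ∉ S' ∧ x ∉ S') (hw : w ∈ S')
    (hc : ¬ inn c w) : ∃ t : ℤ, 4 ≤ t ∧ t ≤ k ∧ c t = w := by
  unfold inn at hc
  push Not at hc
  obtain ⟨t, h1, h2, h3⟩ := h.ctx.cidx hc
  refine ⟨t, ?_, h2, h3⟩
  have h4 : 1 ≤ t := by
    by_contra h5
    have h6 := (h.ctx.cP h1 (by omega)).2
    rw [h3] at h6
    exact h6 (hS hw)
  have h5 : t ≠ 1 := by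
    rintro rfl
    rw [h3] at hS'
    exact hS'.1 hw
  have h6 : t ≠ 2 := by
    rintro rfl
    rw [h3] at hS'
    exact hS'.2.1 hw
  have h7 : t ≠ 3 := by
    rintro rfl
    rw [h3] at hS'
    exact hS'.2.2.1 hw
  omega

private theorem FxB1_u (hf : Cf H c 2 u x) : H.Adj (c 1) u := by
  have := hf.cu
  rwa [show (2 : ℤ) - 1 = 1 by norm_num] at this

private theorem FxB1_x (hf : Cf H c 2 u x) : H.Adj x (c 3) := by
  have := hf.xc
  rwa [show (2 : ℤ) + 1 = 3 by norm_num] at this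

private theorem FxB1_u' (h : FC F τ H S P A m c K q k n) (hf : Cf H c 2 u x)
    (hS : S' ⊆ S) (hS' : c 1 ∉ S' ∧ c 2 ∉ S' ∧ c 3 ∉ S' ∧ u ∉ S' ∧ x ∉ S') (hw : w ∈ S')
    (hwu : H.Adj w u) : inn c w := by
  by_contra hc
  obtain ⟨t, h1, h2, h3⟩ := FxB1_cyc h hf hS hS' hw hc
  rw [← h3] at hwu
  exact h.two u hf.iu 1 t le_rfl (by omega) h2 (FxB1_u hf).symm hwu.symm

private theorem FxB1_x' (h : FC F τ H S P A m c K q k n) (hf : Cf H c 2 u x)
    (hS : S' ⊆ S) (hS' : c 1 ∉ S' ∧ c 2 ∉ S' ∧ c 3 ∉ S' ∧ u ∉ S' ∧ x ∉ S') (hw : w ∈ S')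
    (hwx : H.Adj w x) : inn c w := by
  by_contra hc
  obtain ⟨t, h1, h2, h3⟩ := FxB1_cyc h hf hS hS' hw hc
  rw [← h3] at hwx
  exact h.two x hf.ix 3 t (by norm_num) (by omega) h2 (FxB1_x hf) hwx.symm

private theorem FxB1_mem (h : FC F τ H S P A m c K q k n) (hf : Cf H c 2 u x)
    (hS : S' ⊆ S) (hS' : c 1 ∉ S' ∧ c 2 ∉ S' ∧ c 3 ∉ S' ∧ u ∉ S' ∧ x ∉ S')
    (hD : ∀ v ∈ D, v ∉ l → v = c 1 ∨ v = c 2 ∨ v = c 3 ∨ v = u ∨ v = x)
    (hPl : ∀ p ∈ P, p ∉ l → ∀ y, H.Adj p y → y ∈ P ∨ y = c 1 ∨ y = c 3)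
    (hw : w ∈ S') {v : V} (hv : v ∈ P ∪ D) (hvl : v ∉ l) (hwv : H.Adj w v) :
    v = c 1 ∨ v = c 3 ∨ v = u ∨ v = x := by
  rcases Finset.mem_union.1 hv with h1 | h1
  · exfalso
    rcases hPl v h1 hvl w hwv.symm with h2 | h2 | h2
    · exact Finset.disjoint_left.1 h.ctx.st.dj (hS hw) h2
    · rw [← h2] at hS'
      exact hS'.1 hw
    · rw [← h2] at hS'
      exact hS'.2.2.1 hw
  · rcases hD v h1 hvl with h2 | h2 | h2 | h2 | h2
    · exact Or.inl h2
    · exfalso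
      rw [h2] at hwv
      rcases h.cf_N hf hwv.symm with h3 | h3
      · rw [show (2 : ℤ) - 1 = 1 by norm_num] at h3
        rw [← h3] at hS'
        exact hS'.1 hw
      · rw [show (2 : ℤ) + 1 = 3 by norm_num] at h3
        rw [← h3] at hS'
        exact hS'.2.2.1 hw
    · exact Or.inr (Or.inl h2)
    · exact Or.inr (Or.inr (Or.inl h2))
    · exact Or.inr (Or.inr (Or.inr h2))

/-- The members of `newA` are `XM`: a member of `A` is `c t` with `t ≥ 4`; the neighbours in `S'`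
of `c 1` are inside, those of `c 3` are inside or `c 4`, `c 2` has none (`FC.cf_N`), those of `u`,
`x` are inside (`two`), `P \ l` has none (`hPl`). -/
theorem FC.x_cls (h : FC F τ H S P A m c K q k n) (hf : Cf H c 2 u x)
    (hk : k = 3 ∨ c 4 ∈ A) (hS : S' ⊆ S)
    (hS' : c 1 ∉ S' ∧ c 2 ∉ S' ∧ c 3 ∉ S' ∧ u ∉ S' ∧ x ∉ S')
    (hD : ∀ v ∈ D, v ∉ l → v = c 1 ∨ v = c 2 ∨ v = c 3 ∨ v = u ∨ v = x)
    (hPl : ∀ p ∈ P, p ∉ l → ∀ y, H.Adj p y → y ∈ P ∨ y = c 1 ∨ y = c 3)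
    (ha : a ∈ newA H S' P D l A) : a ∈ S' ∧ XM H A c k u x a := by
  unfold newA at ha
  rw [Finset.mem_filter] at ha
  obtain ⟨haS, ha⟩ := ha
  have hau : a ≠ u := by
    rintro rfl
    exact hS'.2.2.2.1 haS
  have hax : a ≠ x := by
    rintro rfl
    exact hS'.2.2.2.2 haS
  refine ⟨haS, hau, hax, ?_⟩
  by_cases haA : a ∈ A
  · left
    obtain ⟨i, h1, h2, h3⟩ := h.ctx.Aidx haA
    have h4 : ¬ inn c a := fun h5 => h5 i h3
    obtain ⟨t, h5, h6, h7⟩ := FxB1_cyc h hf hS hS' haS h4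
    have h8 := h.ctx.inj (i := i) (j := t) (by omega) (by omega) (by omega) h6 (h3.trans h7.symm)
    exact ⟨t, h5, by omega, h7, haA⟩
  · right
    rcases ha with ha | ⟨d, hd, hdl, had⟩
    · exact absurd ha haA
    rcases FxB1_mem h hf hS hS' hD hPl haS hd hdl had with h1 | h1 | h1 | h1
    · rw [h1] at had
      refine ⟨?_, Or.inl had⟩
      by_contra hc
      obtain ⟨t, h5, h6, h7⟩ := FxB1_cyc h hf hS hS' haS hc
      rw [← h7] at had
      rcases noch_idx h.ctx h.noch (by omega) (by omega) h6 had.symm with h8 | h8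
      · omega
      · have := h.ctx.q1
        omega
    · rw [h1] at had
      refine ⟨?_, Or.inr (Or.inl had)⟩
      by_contra hc
      obtain ⟨t, h5, h6, h7⟩ := FxB1_cyc h hf hS hS' haS hc
      rcases hk with hk | hk
      · omega
      rw [← h7] at had
      rcases noch_idx h.ctx h.noch (by omega) (by omega) h6 had.symm with h8 | h8
      · rw [show (3 : ℤ) + 1 = 4 by norm_num] at h8
        rw [h8] at h7
        rw [h7] at hk
        exact haA hk
      · have := h.ctx.q1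
        omega
    · rw [h1] at had
      exact ⟨FxB1_u' h hf hS hS' haS had, Or.inr (Or.inr (Or.inl had))⟩
    · rw [h1] at had
      exact ⟨FxB1_x' h hf hS hS' haS had, Or.inr (Or.inr (Or.inr had))⟩

/-- A vertex `w ∈ S'`, `w ≠ c 4`, has at most one neighbour among `c 1, c 2, c 3, u, x` (no
triangles, no 4-cycles, `two`, `FC.cf_N`), and if it is in `A` then it has none (`w = c t`, `t ≥ 5`:
`noch_idx`, `two`). -/
theorem FC.x_h1 (h : FC F τ H S P A m c K q k n) (hf : Cf H c 2 u x)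
    (hS : S' ⊆ S) (hS' : c 1 ∉ S' ∧ c 2 ∉ S' ∧ c 3 ∉ S' ∧ u ∉ S' ∧ x ∉ S')
    (hD : ∀ v ∈ D, v ∉ l → v = c 1 ∨ v = c 2 ∨ v = c 3 ∨ v = u ∨ v = x)
    (hPl : ∀ p ∈ P, p ∉ l → ∀ y, H.Adj p y → y ∈ P ∨ y = c 1 ∨ y = c 3)
    (hw : w ∈ S') (hw4 : w ≠ c 4) :
    (if w ∈ A then 1 else 0) + ((P ∪ D).filter fun v => v ∉ l ∧ H.Adj w v).card ≤ 1 := by
  have g := h.ctx.st.gd
  have hcu := FxB1_u hf
  have hxc := FxB1_x hf
  have hwu : w ≠ u := by
    rintro rfl
    exact hS'.2.2.2.1 hw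
  have hwx : w ≠ x := by
    rintro rfl
    exact hS'.2.2.2.2 hw
  by_cases hc : inn c w
  · have hwA : w ∉ A := (h.ctx.innS hc (Finset.mem_union_left _ (hS hw))).2
    rw [if_neg hwA, zero_add, Finset.card_le_one]
    have k13 : H.Adj w (c 1) → H.Adj w (c 3) → False := fun h1 h2 =>
      h.two w hc 1 3 le_rfl (by norm_num) (by have := h.k3; omega) h1 h2
    have k1u : H.Adj w (c 1) → H.Adj w u → False := fun h1 h2 => g.tri w (c 1) u h1 hcu h2
    have k1x : H.Adj w (c 1) → H.Adj w x → False := fun h1 h2 => by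
      rcases g.quad w (c 1) u x h1 hcu hf.ux h2.symm with h3 | h3
      · exact hwu h3
      · exact hf.ix 1 h3
    have k3u : H.Adj w (c 3) → H.Adj w u → False := fun h1 h2 => by
      rcases g.quad w (c 3) x u h1 hxc.symm hf.ux.symm h2.symm with h3 | h3
      · exact hwx h3
      · exact hf.iu 3 h3
    have k3x : H.Adj w (c 3) → H.Adj w x → False := fun h1 h2 =>
      g.tri w (c 3) x h1 hxc.symm h2
    have kux : H.Adj w u → H.Adj w x → False := fun h1 h2 => g.tri w u x h1 hf.ux h2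
    intro v hv v' hv'
    rw [Finset.mem_filter] at hv hv'
    obtain ⟨hv1, hv2, hv3⟩ := hv
    obtain ⟨hv1', hv2', hv3'⟩ := hv'
    rcases FxB1_mem h hf hS hS' hD hPl hw hv1 hv2 hv3 with e | e | e | e <;>
    rcases FxB1_mem h hf hS hS' hD hPl hw hv1' hv2' hv3' with e' | e' | e' | e' <;>
    rw [e] at hv3 ⊢ <;> rw [e'] at hv3' ⊢
    · exact (k13 hv3 hv3').elim
    · exact (k1u hv3 hv3').elim
    · exact (k1x hv3 hv3').elim
    · exact (k13 hv3' hv3).elim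
    · exact (k3u hv3 hv3').elim
    · exact (k3x hv3 hv3').elim
    · exact (k1u hv3' hv3).elim
    · exact (k3u hv3' hv3).elim
    · exact (kux hv3 hv3').elim
    · exact (k1x hv3' hv3).elim
    · exact (k3x hv3' hv3).elim
    · exact (kux hv3' hv3).elim
  · obtain ⟨t, h5, h6, h7⟩ := FxB1_cyc h hf hS hS' hw hc
    have h8 : t ≠ 4 := by
      rintro rfl
      exact hw4 h7.symm
    have h9 : ((P ∪ D).filter fun v => v ∉ l ∧ H.Adj w v) = ∅ := by
      rw [Finset.filter_eq_empty_iff]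
      rintro v hv ⟨hvl, hwv⟩
      have hq1 := h.ctx.q1
      rcases FxB1_mem h hf hS hS' hD hPl hw hv hvl hwv with e | e | e | e <;> rw [e] at hwv
      · rw [← h7] at hwv
        rcases noch_idx h.ctx h.noch (by omega) (by omega) h6 hwv.symm with h8 | h8 <;> omega
      · rw [← h7] at hwv
        rcases noch_idx h.ctx h.noch (by omega) (by omega) h6 hwv.symm with h8 | h8 <;> omega
      · exact hc (FxB1_u' h hf hS hS' hw hwv)
      · exact hc (FxB1_x' h hf hS hS' hw hwv)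
    rw [h9, Finset.card_empty]
    split_ifs <;> omega

end Pool.Agent.Lib.MP_a33b01_co_G5
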