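import Pool.Agent.Lib.MP_a33b01_co_G5.FxA
import Pool.Agent.Lib.MP_a33b01_co_G5.StA
import Pool.Agent.Lib.MP_a33b01_co_G5.FxB1

set_option autoImplicit false

/-!
# MP_a33b01_co, project G5: the conflict at c 2: the new low vertices
-/

namespace Pool.Agent.Lib.MP_a33b01_co_G5

open Classical
open Pool.Agent.Lib.MP_a33b01_co (Sph sk cn supp EvenG Removes Wg)

variable {V : Type} {F K : Finset (Finset V)} {τ : Finset V} {H : SimpleGraph V}
  {S P A D S' : Finset V} {m q k n : ℕ} {c : ℤ → V} {u x a w : V} {l : List V}

/-- the members of `l` can be deleted in the given order after `pre` -/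
private def FxB2_Good (H : SimpleGraph V) (f : V → ℕ) (pre l : List V) : Prop :=
  ∀ (l₁ l₂ : List V) (y : V), l = l₁ ++ y :: l₂ →
    ((pre ++ l₁).toFinset.filter fun v => H.Adj y v).card ≤ f y

private theorem FxB2_nil (f : V → ℕ) (pre : List V) : FxB2_Good H f pre [] := by
  intro l₁ l₂ y h
  simp at h

private theorem FxB2_cons {f : V → ℕ} {pre l : List V} {y : V}
    (h1 : (pre.toFinset.filter fun v => H.Adj y v).card ≤ f y)
    (h2 : FxB2_Good H f (pre ++ [y]) l) : FxB2_Good H f pre (y :: l) := by
  intro l₁ l₂ z hz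
  rcases l₁ with _ | ⟨b, l₁⟩
  · rw [List.nil_append, List.cons.injEq] at hz
    rw [List.append_nil, ← hz.1]
    exact h1
  · rw [List.cons_append, List.cons.injEq] at hz
    have h3 := h2 l₁ l₂ z hz.2
    rw [← hz.1]
    rwa [List.append_assoc, List.singleton_append] at h3

private theorem FxB2_card {pre : List V} {y b : V} (h : ∀ v ∈ pre, H.Adj y v → v = b) :
    (pre.toFinset.filter fun v => H.Adj y v).card ≤ 1 := by
  have h1 : (pre.toFinset.filter fun v => H.Adj y v) ⊆ {b} := by
    intro v hv
    rw [Finset.mem_filter, List.mem_toFinset] at hv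
    rw [Finset.mem_singleton]
    exact h v hv.1 hv.2
  exact (Finset.card_le_card h1).trans (Finset.card_singleton b).le

private theorem FxB2_card2 {pre : List V} {y b b' : V}
    (h : ∀ v ∈ pre, H.Adj y v → v = b ∨ v = b') :
    (pre.toFinset.filter fun v => H.Adj y v).card ≤ 2 := by
  have h1 : (pre.toFinset.filter fun v => H.Adj y v) ⊆ {b, b'} := by
    intro v hv
    rw [Finset.mem_filter, List.mem_toFinset] at hv
    rw [Finset.mem_insert, Finset.mem_singleton]
    exact h v hv.1 hv.2
  exact (Finset.card_le_card h1).trans Finset.card_le_two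

private theorem FxB2_rem {f : V → ℕ} {l : List V} (hl : l.Nodup) (h : FxB2_Good H f [] l) :
    Rem H l.toFinset f 0 := by
  refine rem_list l hl f ?_
  intro l₁ l₂ y hy
  have h1 := h l₁ l₂ y hy
  rwa [List.nil_append] at h1

/-- the facts which are used twice -/
private theorem FxB2_facts (h : FC F τ H S P A m c K q k n) (hf : Cf H c 2 u x) :
    H.Adj (c 1) u ∧ H.Adj x (c 3) ∧ c 1 ≠ c 2 ∧ c 1 ≠ c 3 ∧ c 2 ≠ c 3 ∧ u ≠ x ∧
    ¬ H.Adj (c 1) (c 3) ∧ ¬ H.Adj u (c 3) ∧ ¬ H.Adj x (c 1) ∧
    (∀ v, inn c v → ¬ H.Adj (c 2) v) ∧ (∀ v i, inn c v → v ≠ c i) := by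
  have hcu : H.Adj (c 1) u := by
    have := hf.cu
    norm_num at this
    exact this
  have hxc : H.Adj x (c 3) := by
    have := hf.xc
    norm_num at this
    exact this
  have hk3 := h.k3
  have hq := h.q2
  have hne : ∀ i j : ℤ, 1 ≤ i → i ≤ 3 → 1 ≤ j → j ≤ 3 → i ≠ j → c i ≠ c j := by
    intro i j hi hi' hj hj' hij he
    exact hij (h.ctx.inj (by omega) (by omega) (by omega) (by omega) he)
  refine ⟨hcu, hxc, hne 1 2 (by norm_num) (by norm_num) (by norm_num) (by norm_num) (by norm_num),
    hne 1 3 (by norm_num) (by norm_num) (by norm_num) (by norm_num) (by norm_num),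
    hne 2 3 (by norm_num) (by norm_num) (by norm_num) (by norm_num) (by norm_num), hf.ux.ne,
    ?_, ?_, ?_, ?_, ?_⟩
  · intro hadj
    have hm := h.m9
    rcases h.noch 1 3 hadj with h1 | h1
    · have := Int.le_of_dvd (by norm_num) h1
      omega
    · have h2 : (m : ℤ) ∣ 3 := by
        have := (dvd_neg (α := ℤ)).2 h1
        norm_num at this
        exact this
      have := Int.le_of_dvd (by norm_num) h2
      omega
  · exact h.two u hf.iu 1 3 (by norm_num) (by norm_num) (by omega) hcu.symm
  · intro hadj
    exact h.two x hf.ix 1 3 (by norm_num) (by norm_num) (by omega) hadj hxc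
  · intro v hv hadj
    rcases h.cf_N hf hadj with h1 | h1
    · exact hv (2 - 1) h1.symm
    · exact hv (2 + 1) h1.symm
  · intro v i hv he
    exact hv i he.symm

/-- The values and the order of deletion: after `DelSave (c 3, c 4)` the list
`c 2, c 1, u, x` (and possibly a further vertex `z` with exactly one neighbour in it, not adjacent
to `c 3`) can be deleted without saves (`rem_list`; `FC.valA`, `FC.val1`, `FC.valI`,
`FC.valI2` for `x`, which has no neighbours in `P` by `twoP`). -/
theorem FC.x_rem (h : FC F τ H S P A m c K q k n) (hf : Cf H c 2 u x) (hk : 3 < k)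
    {zs : List V} (hzs : zs = [] ∨ ∃ z, zs = [z] ∧ inn c z ∧ z ≠ u ∧ z ≠ x ∧ ¬ H.Adj z (c 3) ∧
      ((H.Adj z (c 1) ∧ ¬ H.Adj z u ∧ ¬ H.Adj z x) ∨
        (H.Adj z u ∧ ¬ H.Adj z (c 1) ∧ ¬ H.Adj z x))) :
    Rem H ([c 2, c 1, u, x] ++ zs).toFinset
      (fun v => if H.Adj (c 3) v then fv H P A v - 1 else fv H P A v) 0 := by
  obtain ⟨hcu, hxc, h12, h13, h23, hux, n13, nu3, nx1, n2, hin⟩ := FxB2_facts h hf
  have iu := hf.iu
  have ix := hf.ix
  have fx : fv H P A x = 2 := by
    refine h.valI2 ix ⟨u, hf.ux.symm⟩ ?_
    intro j hj hj0 hadj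
    obtain ⟨-, h1 | h1⟩ := h.twoP x ix 3 j (by norm_num) (by omega) hj hj0 hxc hadj
    · omega
    · omega
  have hu1 : 1 ≤ fv H P A u := h.valI iu ⟨x, hf.ux⟩
  refine FxB2_rem ?_ ?_
  · have hnd : [c 2, c 1, u, x].Nodup := by
      simp only [List.nodup_cons, List.mem_cons, List.not_mem_nil, or_false, not_or,
        not_false_iff, List.nodup_nil, and_true]
      exact ⟨⟨h12.symm, (hin u 2 iu).symm, (hin x 2 ix).symm⟩,
        ⟨(hin u 1 iu).symm, (hin x 1 ix).symm⟩, hux⟩
    rcases hzs with rfl | ⟨z, rfl, iz, hzu, hzx, -, -⟩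
    · rw [List.append_nil]
      exact hnd
    · refine List.Nodup.append hnd (List.nodup_singleton z) ?_
      intro v hv hv'
      rw [List.mem_singleton] at hv'
      subst hv'
      simp only [List.mem_cons, List.not_mem_nil, or_false] at hv
      rcases hv with h1 | h1 | h1 | h1
      · exact hin v 2 iz h1
      · exact hin v 1 iz h1
      · exact hzu h1
      · exact hzx h1
  · change FxB2_Good H _ [] (c 2 :: c 1 :: u :: x :: zs)
    refine FxB2_cons (by simp) (FxB2_cons ?_ (FxB2_cons ?_ (FxB2_cons ?_ ?_)))
    · -- c 1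
      rw [if_neg (fun hh => n13 hh.symm), h.val1.1]
      refine FxB2_card (b := c 2) ?_
      intro v hv _
      simpa using hv
    · -- u
      rw [if_neg (fun hh => nu3 hh.symm)]
      refine le_trans (FxB2_card (b := c 1) ?_) hu1
      intro v hv hadj
      simp only [List.nil_append, List.cons_append, List.mem_cons, List.not_mem_nil,
        or_false] at hv
      rcases hv with rfl | rfl
      · exact absurd hadj.symm (n2 u iu)
      · rfl
    · -- x
      rw [if_pos hxc.symm, fx]
      refine FxB2_card (b := u) ?_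
      intro v hv hadj
      simp only [List.nil_append, List.cons_append, List.mem_cons, List.not_mem_nil,
        or_false] at hv
      rcases hv with rfl | rfl | rfl
      · exact absurd hadj.symm (n2 x ix)
      · exact absurd hadj nx1
      · rfl
    · rcases hzs with rfl | ⟨z, rfl, iz, hzu, hzx, nz3, hz⟩
      · exact FxB2_nil _ _
      · refine FxB2_cons ?_ (FxB2_nil _ _)
        have hz1 : 1 ≤ fv H P A z := by
          rcases hz with hz | hz
          · exact h.valI iz ⟨_, hz.1⟩
          · exact h.valI iz ⟨_, hz.1⟩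
        rw [if_neg (fun hh => nz3 hh.symm)]
        rcases hz with ⟨hz1', hzu', hzx'⟩ | ⟨hz1', hzu', hzx'⟩
        · refine le_trans (FxB2_card (b := c 1) ?_) hz1
          intro v hv hadj
          simp only [List.nil_append, List.cons_append, List.mem_cons, List.not_mem_nil,
            or_false] at hv
          rcases hv with rfl | rfl | rfl | rfl
          · exact absurd hadj.symm (n2 z iz)
          · rfl
          · exact absurd hadj hzu'
          · exact absurd hadj hzx'
        · refine le_trans (FxB2_card (b := u) ?_) hz1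
          intro v hv hadj
          simp only [List.nil_append, List.cons_append, List.mem_cons, List.not_mem_nil,
            or_false] at hv
          rcases hv with rfl | rfl | rfl | rfl
          · exact absurd hadj.symm (n2 z iz)
          · exact absurd hadj hzu'
          · rfl
          · exact absurd hadj hzx'

/-- `k = 3`: the list `c 1, c 2, c 3, u, x` and further vertices, each of them with exactly one
neighbour in this list and no neighbour in `zs`, can be deleted without saves (`u`, `x` have no
neighbours in `P` by `FC.zp_q`, `FC.zp3`, `FC.zp3'`). -/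
theorem FC.x_rem3 (h : FC F τ H S P A m c K q k n) (hf : Cf H c 2 u x) (hk : k = 3)
    {zs : List V} (hnd : zs.Nodup) (hzs : ∀ z ∈ zs, inn c z ∧ z ≠ u ∧ z ≠ x ∧
      ¬ H.Adj z (c 1) ∧ ¬ H.Adj z (c 3) ∧ (H.Adj z u ∨ H.Adj z x) ∧ ∀ z' ∈ zs, ¬ H.Adj z z') :
    Rem H ([c 1, c 2, c 3, u, x] ++ zs).toFinset (fv H P A) 0 := by
  obtain ⟨hcu, hxc, h12, h13, h23, hux, n13, nu3, nx1, n2, hin⟩ := FxB2_facts h hf
  have iu := hf.iu
  have ix := hf.ix
  have fx : fv H P A x = 2 :=
    h.valI2 ix ⟨u, hf.ux.symm⟩ fun j hj hj0 hadj => h.zp3' hk hf ix hxc hj hj0 hadj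
  have hu1 : 1 ≤ fv H P A u := h.valI iu ⟨x, hf.ux⟩
  have f3 : fv H P A (c 3) = 1 := by
    have h1 := h.val1.2
    rw [hk] at h1
    exact h1
  refine FxB2_rem ?_ ?_
  · have hnd' : [c 1, c 2, c 3, u, x].Nodup := by
      simp only [List.nodup_cons, List.mem_cons, List.not_mem_nil, or_false, not_or,
        not_false_iff, List.nodup_nil, and_true]
      exact ⟨⟨h12, h13, (hin u 1 iu).symm, (hin x 1 ix).symm⟩,
        ⟨h23, (hin u 2 iu).symm, (hin x 2 ix).symm⟩,
        ⟨(hin u 3 iu).symm, (hin x 3 ix).symm⟩, hux⟩
    refine List.Nodup.append hnd' hnd ?_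
    intro v hv hv'
    obtain ⟨iz, hzu, hzx, -, -, -, -⟩ := hzs v hv'
    simp only [List.mem_cons, List.not_mem_nil, or_false] at hv
    rcases hv with h1 | h1 | h1 | h1 | h1
    · exact hin v 1 iz h1
    · exact hin v 2 iz h1
    · exact hin v 3 iz h1
    · exact hzu h1
    · exact hzx h1
  · change FxB2_Good H _ [] (c 1 :: c 2 :: c 3 :: u :: x :: zs)
    refine FxB2_cons (by simp) (FxB2_cons ?_ (FxB2_cons ?_ (FxB2_cons ?_ (FxB2_cons ?_ ?_))))
    · -- c 2
      rw [h.valA h.a2]
      refine FxB2_card (b := c 1) ?_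
      intro v hv _
      simpa using hv
    · -- c 3
      rw [f3]
      refine FxB2_card (b := c 2) ?_
      intro v hv hadj
      simp only [List.nil_append, List.cons_append, List.mem_cons, List.not_mem_nil,
        or_false] at hv
      rcases hv with rfl | rfl
      · exact absurd hadj.symm n13
      · rfl
    · -- u
      refine le_trans (FxB2_card (b := c 1) ?_) hu1
      intro v hv hadj
      simp only [List.nil_append, List.cons_append, List.mem_cons, List.not_mem_nil,
        or_false] at hv
      rcases hv with rfl | rfl | rfl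
      · rfl
      · exact absurd hadj.symm (n2 u iu)
      · exact absurd hadj nu3
    · -- x
      rw [fx]
      refine FxB2_card2 (b := u) (b' := c 3) ?_
      intro v hv hadj
      simp only [List.nil_append, List.cons_append, List.mem_cons, List.not_mem_nil,
        or_false] at hv
      rcases hv with rfl | rfl | rfl | rfl
      · exact absurd hadj nx1
      · exact absurd hadj.symm (n2 x ix)
      · exact Or.inr rfl
      · exact Or.inl rfl
    · intro l₁ l₂ z hl
      have hzm : z ∈ zs := by
        rw [hl]
        simp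
      obtain ⟨iz, hzu, hzx, nz1, nz3, hz, hzz⟩ := hzs z hzm
      have hz1 : 1 ≤ fv H P A z := by
        rcases hz with hz | hz
        · exact h.valI iz ⟨_, hz⟩
        · exact h.valI iz ⟨_, hz⟩
      have hpre : ∀ v ∈ (([] ++ [c 1] ++ [c 2] ++ [c 3] ++ [u] ++ [x]) ++ l₁ : List V),
          H.Adj z v → v = u ∨ v = x := by
        intro v hv hadj
        rw [List.mem_append] at hv
        rcases hv with hv | hv
        · simp only [List.nil_append, List.cons_append, List.mem_cons, List.not_mem_nil,
            or_false] at hv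
          rcases hv with rfl | rfl | rfl | rfl | rfl
          · exact absurd hadj nz1
          · exact absurd hadj.symm (n2 z iz)
          · exact absurd hadj nz3
          · exact Or.inl rfl
          · exact Or.inr rfl
        · refine absurd hadj (hzz v ?_)
          rw [hl]
          exact List.mem_append_left _ hv
      have htri := h.ctx.st.gd.tri
      refine le_trans ?_ hz1
      rcases hz with hz | hz
      · refine FxB2_card (b := u) ?_
        intro v hv hadj
        rcases hpre v hv hadj with h1 | h1
        · exact h1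
        · rw [h1] at hadj
          exact absurd hadj (htri z u x hz hf.ux)
      · refine FxB2_card (b := x) ?_
        intro v hv hadj
        rcases hpre v hv hadj with h1 | h1
        · rw [h1] at hadj
          exact absurd hz (htri z u x hadj hf.ux)
        · exact h1

end Pool.Agent.Lib.MP_a33b01_co_G5
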