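import Pool.Agent.Lib.MP_a33b01_co_G5.FxB
import Pool.Agent.Lib.MP_a33b01_co_G5.StC
import Pool.Agent.Lib.MP_a33b01_co_G5.ArB

set_option autoImplicit false

/-!
# MP_a33b01_co, project G5: the conflict at c 2: general form of the reduction
-/

namespace Pool.Agent.Lib.MP_a33b01_co_G5

open Classical
open Pool.Agent.Lib.MP_a33b01_co (Sph sk cn supp EvenG Removes Wg)

variable {V : Type} {F K : Finset (Finset V)} {τ : Finset V} {H : SimpleGraph V}
  {S P A : Finset V} {m q k n : ℕ} {c : ℤ → V} {u x : V} {l zs : List V}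

/-- `gsaveS` with `v = c 3`, `w = c 4`, `D₁ = {c 2, c 1, u, x} ∪ zs`,
`S' = S \ (insert v D₁)`.  `hmu`: `|S'| ≤ |S| - 5`, `|l| ≤ 6`, `P ≠ ∅`.  Outer vertices: `FC.outc`,
`FC.outn` (`u` and `x` are neighbours of `c 1`, `c 3`).  `ind`: `FC.x_cls`, `FC.xm_ind`; `hAl`:
`FC.x_cls`, `hAl`; `h1`: `FC.x_h1`; `hrem`: `FC.x_rem`; `hleg`: the neighbours of `c 3` in `D₁` are
`c 2` and `x`; `hv2`: `FC.val2`.  `c 4` is adjacent to no member of `D₁`: `noch_idx` for `c 1`,
`c 2`; `u`, `x`, `z` are adjacent to `c 1` or `c 3` (`two`), or `z ~ u` (`three`: `c 1, u, z, c 4`). -/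
theorem FC.fx_gen (h : FC F τ H S P A m c K q k n) (hf : Cf H c 2 u x) (h4 : c 4 ∈ A)
    (hzs : zs = [] ∨ ∃ z, zs = [z] ∧ inn c z ∧ z ≠ u ∧ z ≠ x ∧ ¬ H.Adj z (c 3) ∧
      ((H.Adj z (c 1) ∧ ¬ H.Adj z u ∧ ¬ H.Adj z x) ∨
        (H.Adj z u ∧ ¬ H.Adj z (c 1) ∧ ¬ H.Adj z x)))
    (hl : ∀ v ∈ l, v ∈ P ∨ v ∈ zs) (hzl : ∀ v ∈ zs, v ∈ l)
    (hLH : ∀ W : Finset V, c 1 ∉ W → (∀ v ∈ l, v ∈ W) → LH F τ H W l)
    (hPl : ∀ p ∈ P, p ∉ l → ∀ y, H.Adj p y → y ∈ P ∨ y = c 1 ∨ y = c 3)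
    (hAl : ∀ a, XM H A c k u x a → a ∈ S → a ∉ zs → ∀ v ∈ l, ¬ H.Adj a v) : Cl H S P A := by
  have st := h.ctx.st
  have hk3 := h.k3
  have hq2 := h.q2
  have hm := h.ctx.hm
  have iu := hf.iu
  have ix := hf.ix
  have hcu : H.Adj (c 1) u := by
    have := hf.cu
    norm_num at this
    exact this
  have hxc : H.Adj x (c 3) := by
    have := hf.xc
    norm_num at this
    exact this
  -- `k ≥ 5`
  have hk4 : 4 ≤ k := by
    by_contra hk
    have hk' : k = 3 := by omega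
    have h1 : c 4 = c (1 - q) := by
      have h2 := h.ctx.bd.cy.per (1 - q)
      rw [← h2]
      congr 1
      rw [hm, hk']
      push_cast
      ring
    have h2 := (h.ctx.cP (i := 1 - q) (by omega) (by omega)).2
    rw [← h1] at h2
    exact h2 (st.AS h4)
  have hk5 : 5 ≤ k := by
    obtain ⟨i, hi, hik, hic⟩ := h.ctx.Aidx h4
    have := h.ctx.inj (i := i) (j := 4) (by omega) (by omega) (by omega) (by omega) hic
    omega
  have hne : ∀ i j : ℤ, 1 ≤ i → i ≤ 4 → 1 ≤ j → j ≤ 4 → i ≠ j → c i ≠ c j := by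
    intro i j hi hi' hj hj' hij he
    exact hij (h.ctx.inj (by omega) (by omega) (by omega) (by omega) he)
  have hin : ∀ v i, inn c v → v ≠ c i := fun v i hv he => hv i he.symm
  have hzi : ∀ z ∈ zs, inn c z ∧ z ≠ u ∧ z ≠ x ∧ ¬ H.Adj z (c 3) ∧
      (H.Adj z (c 1) ∨ H.Adj z u) := by
    intro z hz
    rcases hzs with rfl | ⟨z', rfl, iz, hzu, hzx, hz3, hz'⟩
    · exact absurd hz (List.not_mem_nil)
    · rw [List.mem_singleton] at hz
      subst hz
      exact ⟨iz, hzu, hzx, hz3, hz'.imp (fun t => t.1) (fun t => t.1)⟩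
  have hzS : ∀ z ∈ zs, z ∈ S ∧ z ∉ P := by
    intro z hz
    obtain ⟨iz, -, -, -, hz'⟩ := hzi z hz
    have hy : ∃ y, H.Adj z y := by
      rcases hz' with hz' | hz'
      · exact ⟨_, hz'⟩
      · exact ⟨_, hz'⟩
    have hd := h.deg iz hy
    exact ⟨hd.1, hd.2.2.1⟩
  have huS := (h.deg iu ⟨x, hf.ux⟩)
  have hxS := (h.deg ix ⟨u, hf.ux.symm⟩)
  have hmem : ∀ v, v ∈ ([c 2, c 1, u, x] ++ zs).toFinset ↔
      v = c 2 ∨ v = c 1 ∨ v = u ∨ v = x ∨ v ∈ zs := by
    intro v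
    simp only [List.mem_toFinset, List.mem_append, List.mem_cons, List.not_mem_nil, or_false,
      or_assoc]
  have hmem3 : ∀ v, v ∈ insert (c 3) ([c 2, c 1, u, x] ++ zs).toFinset ↔
      v = c 3 ∨ v = c 2 ∨ v = c 1 ∨ v = u ∨ v = x ∨ v ∈ zs := by
    intro v
    rw [Finset.mem_insert, hmem]
  have hcS : ∀ i : ℤ, 1 ≤ i → i ≤ 4 → c i ∈ S ∧ c i ∉ P := fun i h1 h2 =>
    h.ctx.cS h1 (by omega)
  have hDS : insert (c 3) ([c 2, c 1, u, x] ++ zs).toFinset ⊆ S := by
    intro v hv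
    rw [hmem3] at hv
    rcases hv with rfl | rfl | rfl | rfl | rfl | hv
    · exact (hcS 3 (by norm_num) (by norm_num)).1
    · exact (hcS 2 (by norm_num) (by norm_num)).1
    · exact (hcS 1 (by norm_num) (by norm_num)).1
    · exact huS.1
    · exact hxS.1
    · exact (hzS v hv).1
  have hv3 : c 3 ∉ ([c 2, c 1, u, x] ++ zs).toFinset := by
    rw [hmem]
    rintro (h1 | h1 | h1 | h1 | h1)
    · exact hne 3 2 (by norm_num) (by norm_num) (by norm_num) (by norm_num) (by norm_num) h1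
    · exact hne 3 1 (by norm_num) (by norm_num) (by norm_num) (by norm_num) (by norm_num) h1
    · exact hin u 3 iu h1.symm
    · exact hin x 3 ix h1.symm
    · exact hin _ 3 (hzi _ h1).1 rfl
  have hcl : ∀ i : ℤ, 1 ≤ i → i ≤ 4 → c i ∉ l := by
    intro i h1 h2 hil
    rcases hl _ hil with h3 | h3
    · exact (hcS i h1 h2).2 h3
    · exact hin _ i (hzi _ h3).1 rfl
  set D₁ : Finset V := ([c 2, c 1, u, x] ++ zs).toFinset with hD₁
  set S' : Finset V := S \ insert (c 3) D₁ with hS'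
  have hS'S : S' ⊆ S := Finset.sdiff_subset
  have hnS' : ∀ v, v ∈ insert (c 3) D₁ → v ∉ S' := fun v hv hv' =>
    (Finset.mem_sdiff.1 hv').2 hv
  have hS'5 : c 1 ∉ S' ∧ c 2 ∉ S' ∧ c 3 ∉ S' ∧ u ∉ S' ∧ x ∉ S' := by
    refine ⟨hnS' _ ?_, hnS' _ ?_, hnS' _ ?_, hnS' _ ?_, hnS' _ ?_⟩ <;> rw [hmem3]
    · exact Or.inr (Or.inr (Or.inl rfl))
    · exact Or.inr (Or.inl rfl)
    · exact Or.inl rfl
    · exact Or.inr (Or.inr (Or.inr (Or.inl rfl)))
    · exact Or.inr (Or.inr (Or.inr (Or.inr (Or.inl rfl))))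
  have hDl : ∀ v ∈ insert (c 3) D₁, v ∉ l → v = c 1 ∨ v = c 2 ∨ v = c 3 ∨ v = u ∨ v = x := by
    intro v hv hvl
    rw [hmem3] at hv
    rcases hv with h1 | h1 | h1 | h1 | h1 | h1
    · exact Or.inr (Or.inr (Or.inl h1))
    · exact Or.inr (Or.inl h1)
    · exact Or.inl h1
    · exact Or.inr (Or.inr (Or.inr (Or.inl h1)))
    · exact Or.inr (Or.inr (Or.inr (Or.inr h1)))
    · exact absurd (hzl v h1) hvl
  have hl' : ∀ y ∈ l, y ∈ P ∨ y ∈ D₁ := by
    intro y hy
    rcases hl y hy with h1 | h1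
    · exact Or.inl h1
    · refine Or.inr ?_
      rw [hmem]
      exact Or.inr (Or.inr (Or.inr (Or.inr h1)))
  have hc1W : c 1 ∉ S' ∪ l.toFinset := by
    rw [Finset.mem_union, List.mem_toFinset]
    rintro (h1 | h1)
    · exact hS'5.1 h1
    · exact hcl 1 (by norm_num) (by norm_num) h1
  have hc3W : c 3 ∉ S' ∪ l.toFinset := by
    rw [Finset.mem_union, List.mem_toFinset]
    rintro (h1 | h1)
    · exact hS'5.2.2.1 h1
    · exact hcl 3 (by norm_num) (by norm_num) h1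
  have LHl := hLH (S' ∪ l.toFinset) hc1W
    (fun v hv => Finset.mem_union_right _ (List.mem_toFinset.2 hv))
  have hnodup : [c 2, c 1, u, x].Nodup := by
    simp only [List.nodup_cons, List.mem_cons, List.not_mem_nil, or_false, not_or,
      not_false_iff, List.nodup_nil, and_true]
    exact ⟨⟨hne 2 1 (by norm_num) (by norm_num) (by norm_num) (by norm_num) (by norm_num),
      (hin u 2 iu).symm, (hin x 2 ix).symm⟩, ⟨(hin u 1 iu).symm, (hin x 1 ix).symm⟩, hf.ux.ne⟩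
  have hcard4 : 4 ≤ D₁.card := by
    have h1 : ([c 2, c 1, u, x] : List V).toFinset ⊆ D₁ := by
      rw [hD₁]
      intro v hv
      rw [List.mem_toFinset] at hv ⊢
      exact List.mem_append_left _ hv
    have h2 := Finset.card_le_card h1
    rw [List.toFinset_card_of_nodup hnodup] at h2
    simpa using h2
  have hcard5 : 5 ≤ (insert (c 3) D₁).card := by
    rw [Finset.card_insert_of_notMem hv3]
    omega
  have hmu : mu S' l.toFinset < n := by
    rw [← h.ctx.hn]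
    have h1 : S'.card + (insert (c 3) D₁).card = S.card := Finset.card_sdiff_add_card_eq_card hDS
    have h2 : l.toFinset.card ≤ 6 := (List.toFinset_card_le l).trans LHl.h6
    have h3 : P.card = q := h.ctx.Pcard
    unfold mu
    omega
  have hcls : ∀ a ∈ newA H S' P (insert (c 3) D₁) l A, a ∈ S' ∧ XM H A c k u x a := fun a ha =>
    h.x_cls hf (Or.inr h4) hS'S hS'5 hDl hPl ha
  refine gsaveS h.ctx.ih st (S' := S') (D₁ := D₁) (l := l) (v := c 3) (w := c 4) hv3
    (hcl 3 (by norm_num) (by norm_num)) (Finset.union_sdiff_of_subset hDS)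
    Finset.disjoint_sdiff hmu hl' LHl.nd LHl.h6 LHl.ch LHl.out ?_ ?_ ?_ ?_
    (h.ctx.bd.cy.adj 3) h4 ?_ ?_ ?_ ?_ (h.x_rem hf (by omega) hzs) (by omega)
  · -- hout'
    intro y hy hyl
    rcases hy with hy | hy
    · obtain ⟨i, -, -, rfl⟩ := (h.ctx.hP y).1 hy
      exact h.outc _ i
    · rcases hDl y hy hyl with rfl | rfl | rfl | rfl | rfl
      · exact h.outc _ _
      · exact h.outc _ _
      · exact h.outc _ _
      · exact h.outn hc1W (h.outc _ _) hcu
      · exact h.outn hc3W (h.outc _ _) hxc.symm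
  · -- ind
    intro a ha b hb
    exact h.xm_ind hf (Or.inr h4) (hcls a ha).2 (hcls b hb).2
  · -- hAl
    intro a ha y hy
    obtain ⟨haS', hXM⟩ := hcls a ha
    refine hAl a hXM (hS'S haS') ?_ y hy
    intro haz
    refine hnS' a ?_ haS'
    rw [hmem3]
    exact Or.inr (Or.inr (Or.inr (Or.inr (Or.inr haz))))
  · -- hw
    rw [hS', Finset.mem_sdiff, hmem3]
    refine ⟨st.AS h4, ?_⟩
    rintro (h1 | h1 | h1 | h1 | h1 | h1)
    · exact hne 4 3 (by norm_num) (by norm_num) (by norm_num) (by norm_num) (by norm_num) h1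
    · exact hne 4 2 (by norm_num) (by norm_num) (by norm_num) (by norm_num) (by norm_num) h1
    · exact hne 4 1 (by norm_num) (by norm_num) (by norm_num) (by norm_num) (by norm_num) h1
    · exact hin u 4 iu h1.symm
    · exact hin x 4 ix h1.symm
    · exact hin _ 4 (hzi _ h1).1 rfl
  · -- hwN
    intro y hy hadj
    rw [hmem] at hy
    have hidx : ∀ i : ℤ, 1 ≤ i → i ≤ 2 → ¬ H.Adj (c 4) (c i) := by
      intro i h1 h2 hadj
      rcases h.nbr hadj with h3 | h3 | h3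
      · exact h3 i rfl
      · have := h.ctx.inj (i := i) (j := 4 + 1) (by omega) (by omega) (by omega) (by omega) h3
        omega
      · have := h.ctx.inj (i := i) (j := 4 - 1) (by omega) (by omega) (by omega) (by omega) h3
        omega
    rcases hy with rfl | rfl | rfl | rfl | hy
    · exact hidx 2 (by norm_num) (by norm_num) hadj
    · exact hidx 1 (by norm_num) (by norm_num) hadj
    · exact h.two y iu 1 4 (by norm_num) (by norm_num) (by omega) hcu.symm hadj.symm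
    · exact h.two y ix 3 4 (by norm_num) (by norm_num) (by omega) hxc hadj.symm
    · obtain ⟨iz, -, -, -, hz⟩ := hzi y hy
      rcases hz with hz | hz
      · exact h.two y iz 1 4 (by norm_num) (by norm_num) (by omega) hz hadj.symm
      · exact h.three u y iu iz hz.symm 1 4 (by norm_num) (by norm_num) (by omega) hcu hadj.symm
  · -- hv2
    refine h.val2 (by norm_num) (by omega) ?_
    have := (h.ctx.Aind (i := 4) h4).2
    norm_num at this
    exact this
  · -- h1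
    intro w hw hw4
    exact h.x_h1 hf hS'S hS'5 hDl hPl hw hw4
  · -- hleg
    intro y hy hadj
    rw [hmem] at hy
    rcases hy with rfl | rfl | rfl | rfl | hy
    · rw [h.valA h.a2]
    · rw [h.val1.1]
    · exact h.valI iu ⟨x, hf.ux⟩
    · exact h.valI ix ⟨u, hf.ux.symm⟩
    · exact absurd hadj.symm (hzi y hy).2.2.2.1

end Pool.Agent.Lib.MP_a33b01_co_G5
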