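import Pool.Agent.Lib.MP_a33b01_co_G5.Defs

set_option autoImplicit false

/-!
# MP_a33b01_co, project G5: basic lemmas on the game
-/

namespace Pool.Agent.Lib.MP_a33b01_co_G5

open Classical
open Pool.Agent.Lib.MP_a33b01_co (Sph sk cn supp EvenG Removes Wg)

variable {V : Type}

/-- Induction on `Rem`; in the case `save` write `k' = (k' - f w) + f w`. -/
theorem rem_le {G : SimpleGraph V} {S : Finset V} {f : V → ℕ} {k k' : ℕ} (h : Rem G S f k)
    (hk : k ≤ k') : Rem G S f k' := by
  induction h generalizing k' with
  | nil f k => exact Rem.nil f k'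
  | del S f v k hv hl _ ih => exact Rem.del S f v k' hv hl (ih hk)
  | save S f v w k hv hw hvw hf hl _ ih =>
    have h1 := Rem.save S f v w (k' - f w) hv hw hvw hf hl (ih (by omega))
    have h2 : k' - f w + f w = k' := by omega
    rwa [h2] at h1

/-- Monotonicity (model: `removes_mono` of `MP_a33b01_co.Game`).  Induction on the removal from
`f'`.  `Del v` stays `Del v`.  `DelSave (v, w)` stays `DelSave (v, w)` if `G.Adj v w` and
`f w = f' w`; otherwise use `Del v` (if `G.Adj v w` then `f w ≥ f' w + 1`, so that it is legal and
`f w - 1 ≥ f' w`; if not, `w` is not changed) and `rem_le`. -/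
theorem rem_mono {G G' : SimpleGraph V} {S : Finset V} {f f' : V → ℕ} {k : ℕ}
    (hf : ∀ u ∈ S, f' u ≤ f u) (hG : ∀ u ∈ S, ∀ v ∈ S, G.Adj u v → G'.Adj u v)
    (h : Rem G' S f' k) : Rem G S f k := by
  induction h generalizing f with
  | nil f' k => exact Rem.nil f k
  | del S f' v k hv hl _ ih =>
    refine Rem.del S f v k hv (fun u hu hvu => (hl u hu (hG v hv u hu hvu)).trans (hf u hu)) ?_
    refine ih (fun u hu => ?_) (fun u hu v hv h =>
      hG u (Finset.mem_of_mem_erase hu) v (Finset.mem_of_mem_erase hv) h)
    have hu' := Finset.mem_of_mem_erase hu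
    have h1 := hf u hu'
    beta_reduce
    by_cases hvu : G.Adj v u
    · rw [if_pos hvu, if_pos (hG v hv u hu' hvu)]
      omega
    · rw [if_neg hvu]
      split_ifs <;> omega
  | save S f' v w k hv hw hvw hf' hl _ ih =>
    by_cases hc : G.Adj v w ∧ f w = f' w
    · have h1 := Rem.save S f v w k hv hw hc.1
        (by rw [hc.2]; exact lt_of_lt_of_le hf' (hf v hv))
        (fun u hu hvu huw => (hl u hu (hG v hv u hu hvu) huw).trans (hf u hu))
        (ih (fun u hu => ?_) (fun u hu v hv h =>
          hG u (Finset.mem_of_mem_erase hu) v (Finset.mem_of_mem_erase hv) h))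
      · rwa [hc.2] at h1
      · have hu' := Finset.mem_of_mem_erase hu
        have h1 := hf u hu'
        beta_reduce
        by_cases hvu : G.Adj v u ∧ u ≠ w
        · rw [if_pos hvu, if_pos ⟨hG v hv u hu' hvu.1, hvu.2⟩]
          omega
        · rw [if_neg hvu]
          split_ifs <;> omega
    · have hw' : G.Adj v w → f' w + 1 ≤ f w := by
        intro h
        have h1 := hf w hw
        have h2 : f w ≠ f' w := fun h' => hc ⟨h, h'⟩
        omega
      refine rem_le (Rem.del S f v k hv (fun u hu hvu => ?_) ?_) (Nat.le_add_right _ _)
      · by_cases huw : u = w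
        · subst huw
          have := hw' hvu
          omega
        · exact (hl u hu (hG v hv u hu hvu) huw).trans (hf u hu)
      · refine ih (fun u hu => ?_) (fun u hu v hv h =>
          hG u (Finset.mem_of_mem_erase hu) v (Finset.mem_of_mem_erase hv) h)
        have hu' := Finset.mem_of_mem_erase hu
        have h1 := hf u hu'
        beta_reduce
        by_cases huw : u = w
        · subst huw
          rw [if_neg (fun h => h.2 rfl)]
          by_cases hvu : G.Adj v u
          · rw [if_pos hvu]
            have := hw' hvu
            omega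
          · rw [if_neg hvu]
            omega
        · by_cases hvu : G.Adj v u
          · rw [if_pos hvu, if_pos ⟨hG v hv u hu' hvu, huw⟩]
            omega
          · rw [if_neg hvu]
            split_ifs <;> omega

private theorem GmA1_free {G : SimpleGraph V} {T : Finset V} {f : V → ℕ} {k : ℕ}
    (h : Rem G T f k) : ∀ v : V, v ∉ T → (T.filter fun u => G.Adj v u).card ≤ f v →
      Rem G (insert v T) f k := by
  induction h with
  | nil f k =>
    intro v _ _
    refine Rem.del _ f v k (Finset.mem_insert_self _ _) (fun u hu hvu => ?_) ?_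
    · simp only [Finset.mem_insert, Finset.notMem_empty, or_false] at hu
      exact absurd (hu ▸ hvu) (G.loopless.irrefl v)
    · rw [Finset.erase_insert (Finset.notMem_empty v)]
      exact Rem.nil _ k
  | del T f x k hx hl _ ih =>
    intro v hv hd
    have hvx : v ≠ x := fun h => hv (h ▸ hx)
    have hpos : G.Adj x v → 1 ≤ f v := by
      intro h
      refine le_trans (Finset.card_pos.mpr ⟨x, Finset.mem_filter.2 ⟨hx, h.symm⟩⟩) hd
    refine Rem.del _ f x k (Finset.mem_insert_of_mem hx) (fun u hu hxu => ?_) ?_
    · rcases Finset.mem_insert.1 hu with h | h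
      · rw [h] at hxu ⊢
        exact hpos hxu
      · exact hl u h hxu
    · rw [Finset.erase_insert_of_ne hvx]
      refine ih v (fun h => hv (Finset.mem_of_mem_erase h)) ?_
      beta_reduce
      by_cases hxv : G.Adj x v
      · rw [if_pos hxv]
        have h1 : ((T.erase x).filter fun u => G.Adj v u) = (T.filter fun u => G.Adj v u).erase x := by
          rw [Finset.filter_erase]
        rw [h1, Finset.card_erase_of_mem (Finset.mem_filter.2 ⟨hx, hxv.symm⟩)]
        exact Nat.sub_le_sub_right hd 1
      · rw [if_neg hxv]
        refine le_trans (Finset.card_le_card ?_) hd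
        exact Finset.filter_subset_filter _ (Finset.erase_subset _ _)
  | save T f x w k hx hw hxw hf hl _ ih =>
    intro v hv hd
    have hvx : v ≠ x := fun h => hv (h ▸ hx)
    have hvw : v ≠ w := fun h => hv (h ▸ hw)
    have hpos : G.Adj x v → 1 ≤ f v := by
      intro h
      refine le_trans (Finset.card_pos.mpr ⟨x, Finset.mem_filter.2 ⟨hx, h.symm⟩⟩) hd
    refine Rem.save _ f x w k (Finset.mem_insert_of_mem hx) (Finset.mem_insert_of_mem hw) hxw hf
      (fun u hu hxu huw => ?_) ?_
    · rcases Finset.mem_insert.1 hu with h | h
      · rw [h] at hxu ⊢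
        exact hpos hxu
      · exact hl u h hxu huw
    · rw [Finset.erase_insert_of_ne hvx]
      refine ih v (fun h => hv (Finset.mem_of_mem_erase h)) ?_
      beta_reduce
      by_cases hxv : G.Adj x v
      · rw [if_pos ⟨hxv, hvw⟩]
        have h1 : ((T.erase x).filter fun u => G.Adj v u) = (T.filter fun u => G.Adj v u).erase x := by
          rw [Finset.filter_erase]
        rw [h1, Finset.card_erase_of_mem (Finset.mem_filter.2 ⟨hx, hxv.symm⟩)]
        exact Nat.sub_le_sub_right hd 1
      · rw [if_neg (fun h => hxv h.1)]
        refine le_trans (Finset.card_le_card ?_) hd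
        exact Finset.filter_subset_filter _ (Finset.erase_subset _ _)

/-- A vertex whose value is at least its degree can be removed last (model: `game_free`,
`wg_free` of `MP_a33b01_co.Game`).  Induction on the removal of `S.erase v` (generalize: a set
`T` with `v ∉ T`, remove `insert v T`): do the same steps; the value of `v` stays at least the
number of the remaining neighbours. -/
theorem rem_free {G : SimpleGraph V} {S : Finset V} {f : V → ℕ} {v : V} {k : ℕ} (hv : v ∈ S)
    (hd : (S.filter fun u => G.Adj v u).card ≤ f v) (h : Rem G (S.erase v) f k) :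
    Rem G S f k := by
  have h1 := GmA1_free h v (Finset.notMem_erase v S)
    (le_trans (Finset.card_le_card (Finset.filter_subset_filter _ (Finset.erase_subset _ _))) hd)
  rwa [Finset.insert_erase hv] at h1

end Pool.Agent.Lib.MP_a33b01_co_G5
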