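import Pool.Agent.Lib.MP_a33b01_co_G5.Defs
import Pool.Agent.Lib.MP_a33b01_co_G5.GmA1

set_option autoImplicit false

/-!
# MP_a33b01_co, project G5: basic lemmas on the game
-/

namespace Pool.Agent.Lib.MP_a33b01_co_G5

open Classical
open Pool.Agent.Lib.MP_a33b01_co (Sph sk cn supp EvenG Removes Wg)

variable {V : Type}

/-- the number of remaining neighbours after the removal of `u` -/
private theorem GmA2_card {G : SimpleGraph V} {T : Finset V} {u x : V} (hu : u ∈ T) :
    ((T.erase u).filter fun y => G.Adj x y).card + (if G.Adj u x then 1 else 0) ≤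
      (T.filter fun y => G.Adj x y).card := by
  by_cases h : G.Adj u x
  · rw [if_pos h]
    have h1 : (T.erase u).filter (fun y => G.Adj x y) =
        (T.filter fun y => G.Adj x y).erase u := by
      ext y
      simp only [Finset.mem_filter, Finset.mem_erase]
      tauto
    rw [h1, Finset.card_erase_add_one]
    exact Finset.mem_filter.2 ⟨hu, h.symm⟩
  · rw [if_neg h, add_zero]
    exact Finset.card_le_card (Finset.filter_subset_filter _ (Finset.erase_subset _ _))

private theorem GmA2_pos {G : SimpleGraph V} {T : Finset V} {u x : V} (hu : u ∈ T)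
    (h : G.Adj u x) : 1 ≤ (T.filter fun y => G.Adj x y).card := by
  rw [Nat.one_le_iff_ne_zero, Finset.card_ne_zero]
  exact ⟨u, Finset.mem_filter.2 ⟨hu, h.symm⟩⟩

/-- First remove `S₁`, then `S₂` (model: `game_comp`, `wg_comp` of `MP_a33b01_co.Game`). -/
theorem rem_seq {G : SimpleGraph V} {S₁ S₂ : Finset V} {f g : V → ℕ} {k₁ k₂ : ℕ}
    (hd : Disjoint S₁ S₂) (h₁ : Rem G S₁ f k₁)
    (hg : ∀ u ∈ S₂, g u + (S₁.filter fun v => G.Adj u v).card ≤ f u) (h₂ : Rem G S₂ g k₂) :
    Rem G (S₁ ∪ S₂) f (k₁ + k₂) := by
  induction h₁ with
  | nil f k =>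
    rw [Finset.empty_union]
    refine rem_le (rem_mono (G' := G) (f' := g) (fun u hu => ?_) (fun _ _ _ _ h => h) h₂)
      (Nat.le_add_left _ _)
    have := hg u hu
    omega
  | del T f v k hv hl h ih =>
    have hv2 : v ∉ S₂ := Finset.disjoint_left.1 hd hv
    have hg' : ∀ u ∈ S₂, g u + ((T.erase v).filter fun y => G.Adj u y).card ≤
        (if G.Adj v u then f u - 1 else f u) := by
      intro u hu
      have hc := GmA2_card (G := G) (x := u) hv
      have h1 := hg u hu
      by_cases h2 : G.Adj v u
      · rw [if_pos h2] at hc ⊢
        omega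
      · rw [if_neg h2] at hc ⊢
        omega
    have h1 := ih (Finset.disjoint_of_subset_left (Finset.erase_subset _ _) hd) hg'
    have he : (T ∪ S₂).erase v = T.erase v ∪ S₂ := by
      rw [Finset.erase_union_distrib, Finset.erase_eq_of_notMem hv2]
    rw [← he] at h1
    refine Rem.del (T ∪ S₂) f v (k + k₂) (Finset.mem_union_left _ hv) (fun x hx hvx => ?_) h1
    rw [Finset.mem_union] at hx
    rcases hx with hx | hx
    · exact hl x hx hvx
    · have h3 := GmA2_pos hv hvx
      have h4 := hg x hx
      omega
  | save T f v w k hv hw hvw hfw hl h ih =>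
    have hv2 : v ∉ S₂ := Finset.disjoint_left.1 hd hv
    have hw2 : w ∉ S₂ := Finset.disjoint_left.1 hd hw
    have hg' : ∀ u ∈ S₂, g u + ((T.erase v).filter fun y => G.Adj u y).card ≤
        (if G.Adj v u ∧ u ≠ w then f u - 1 else f u) := by
      intro u hu
      have huw : u ≠ w := by
        rintro rfl
        exact hw2 hu
      have hc := GmA2_card (G := G) (x := u) hv
      have h1 := hg u hu
      by_cases h2 : G.Adj v u
      · rw [if_pos h2] at hc
        rw [if_pos ⟨h2, huw⟩]
        omega
      · rw [if_neg h2] at hc
        rw [if_neg (fun h3 => h2 h3.1)]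
        omega
    have h1 := ih (Finset.disjoint_of_subset_left (Finset.erase_subset _ _) hd) hg'
    have he : (T ∪ S₂).erase v = T.erase v ∪ S₂ := by
      rw [Finset.erase_union_distrib, Finset.erase_eq_of_notMem hv2]
    rw [← he] at h1
    have e : k + f w + k₂ = k + k₂ + f w := by omega
    rw [e]
    refine Rem.save (T ∪ S₂) f v w (k + k₂) (Finset.mem_union_left _ hv)
      (Finset.mem_union_left _ hw) hvw hfw (fun x hx hvx hxw => ?_) h1
    rw [Finset.mem_union] at hx
    rcases hx with hx | hx
    · exact hl x hx hvx hxw
    · have h3 := GmA2_pos hv hvx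
      have h4 := hg x hx
      omega

/-- Deletion of a list in the given order without saves: it suffices that every member has value
at least the number of its neighbours which come before.  (Induction on the list from the left,
with `f` generalized: delete the head; the values of its neighbours go down by one.) -/
theorem rem_list {G : SimpleGraph V} (l : List V) (hl : l.Nodup) (f : V → ℕ)
    (h : ∀ (l₁ l₂ : List V) (x : V), l = l₁ ++ x :: l₂ →
      (l₁.toFinset.filter fun y => G.Adj x y).card ≤ f x) : Rem G l.toFinset f 0 := by
  induction l generalizing f with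
  | nil =>
    rw [List.toFinset_nil]
    exact Rem.nil f 0
  | cons v l ih =>
    rw [List.nodup_cons] at hl
    have hv : v ∉ l.toFinset := by
      rw [List.mem_toFinset]
      exact hl.1
    have hm : v ∈ (v :: l).toFinset := by simp
    refine Rem.del _ f v 0 hm (fun u hu hvu => ?_) ?_
    · have hul : u ∈ l := by
        rw [List.mem_toFinset, List.mem_cons] at hu
        rcases hu with rfl | hu
        · exact absurd hvu (G.loopless.irrefl u)
        · exact hu
      obtain ⟨l₁, l₂, hl12⟩ := List.append_of_mem hul
      have h1 := h (v :: l₁) l₂ u (by rw [hl12]; rfl)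
      exact (GmA2_pos (T := (v :: l₁).toFinset) (by simp) hvu).trans h1
    · have he : (v :: l).toFinset.erase v = l.toFinset := by
        rw [List.toFinset_cons, Finset.erase_insert hv]
      rw [he]
      refine ih hl.2 _ ?_
      intro l₁ l₂ x hx
      have h1 := h (v :: l₁) l₂ x (by rw [hx]; rfl)
      have hv1 : v ∉ l₁.toFinset := by
        rw [List.mem_toFinset]
        intro h2
        apply hl.1
        rw [hx]
        exact List.mem_append_left _ h2
      have hc := GmA2_card (G := G) (T := (v :: l₁).toFinset) (u := v) (x := x) (by simp)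
      rw [List.toFinset_cons, Finset.erase_insert hv1] at hc
      rw [List.toFinset_cons] at h1
      by_cases h2 : G.Adj v x
      · rw [if_pos h2] at hc ⊢
        omega
      · rw [if_neg h2] at hc ⊢
        omega

end Pool.Agent.Lib.MP_a33b01_co_G5
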