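import Pool.Agent.Lib.MP_a33b01_co_G5.Defs
import Pool.Agent.Lib.MP_a33b01_co_G5.GmA1
import Pool.Agent.Lib.MP_a33b01_co_G5.GmA2

set_option autoImplicit false

/-!
# MP_a33b01_co, project G5: basic lemmas on the game
-/

namespace Pool.Agent.Lib.MP_a33b01_co_G5

open Classical
open Pool.Agent.Lib.MP_a33b01_co (Sph sk cn supp EvenG Removes Wg)

variable {V : Type}

private theorem GmA3_pairs {G : SimpleGraph V} {S : Finset V} {v : V} (hv : v ∈ S) :
    ((S ×ˢ S).filter fun p => G.Adj p.1 p.2).card =
      ((S.erase v ×ˢ S.erase v).filter fun p => G.Adj p.1 p.2).card +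
        2 * ((S.erase v).filter fun u => G.Adj v u).card := by
  have h1 : ∀ T : Finset V, ((T ×ˢ T).filter fun p => G.Adj p.1 p.2).card =
      ∑ u ∈ T, ∑ w ∈ T, if G.Adj u w then 1 else 0 := by
    intro T
    rw [Finset.card_filter, Finset.sum_product]
  have h2 : ∀ u, (∑ w ∈ S, if G.Adj u w then 1 else 0) =
      (if G.Adj u v then 1 else 0) + ∑ w ∈ S.erase v, if G.Adj u w then 1 else 0 :=
    fun u => (Finset.add_sum_erase S (fun w => if G.Adj u w then 1 else 0) hv).symm
  have h3 : (∑ u ∈ S.erase v, if G.Adj u v then 1 else 0) =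
      ∑ u ∈ S.erase v, if G.Adj v u then 1 else 0 := by
    refine Finset.sum_congr rfl fun u _ => ?_
    rw [G.adj_comm]
  rw [h1, h1, Finset.card_filter, ← Finset.add_sum_erase S _ hv, h2 v,
    if_neg (G.loopless.irrefl v), Finset.sum_congr rfl fun u _ => h2 u,
    Finset.sum_add_distrib, h3]
  omega

private theorem GmA3_sum {T : Finset V} {f : V → ℕ} {p : V → Prop} [DecidablePred p]
    (h : ∀ u ∈ T, p u → 1 ≤ f u) :
    ∑ u ∈ T, f u = ∑ u ∈ T, (if p u then f u - 1 else f u) + (T.filter p).card := by
  rw [Finset.card_filter, ← Finset.sum_add_distrib]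
  refine Finset.sum_congr rfl fun u hu => ?_
  split_ifs with hp
  · have := h u hu hp
    omega
  · rfl

/-- The number of the costly saves and the number of the edges determine the gain.  Induction:
`Del v` gains `f v`, `DelSave (v, w)` gains `f v - f w - 1`; the number of the ordered pairs of
adjacent vertices goes down by `2 deg v`, the sum of the values by `f v + deg v`
(or `f v + deg v - 1`). -/
theorem rem_wg {G : SimpleGraph V} {S : Finset V} {f : V → ℕ} {k : ℕ} (h : Rem G S f k) :
    ∃ X, Wg G S f X ∧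
      2 * ∑ u ∈ S, f u ≤ 2 * X + 2 * k + ((S ×ˢ S).filter fun p => G.Adj p.1 p.2).card := by
  induction h with
  | nil f k => exact ⟨0, ⟨[], Removes.nil f, by simp⟩, by simp⟩
  | del S f v k hv hl h ih =>
    obtain ⟨X, ⟨L, hL, hX⟩, hsum⟩ := ih
    refine ⟨f v + X, ⟨(f v + 1) :: L, Removes.del S f v L hv hl hL, ?_⟩, ?_⟩
    · simp only [List.map_cons, List.sum_cons]
      omega
    · have h1 := GmA3_pairs (G := G) hv
      have h2 := GmA3_sum (T := S.erase v) (f := f) (p := fun u => G.Adj v u)
        fun u hu hvu => hl u (Finset.mem_of_mem_erase hu) hvu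
      have h3 := Finset.add_sum_erase S f hv
      beta_reduce at hsum
      omega
  | save S f v w k hv hw hvw hf hl h ih =>
    obtain ⟨X, ⟨L, hL, hX⟩, hsum⟩ := ih
    refine ⟨(f v - f w - 1) + X, ⟨(f v - f w) :: L, Removes.save S f v w L hv hw hvw hf hl hL,
      ?_⟩, ?_⟩
    · simp only [List.map_cons, List.sum_cons]
      omega
    · have h1 := GmA3_pairs (G := G) hv
      have h2 := GmA3_sum (T := S.erase v) (f := f) (p := fun u => G.Adj v u ∧ u ≠ w)
        fun u hu hvu => hl u (Finset.mem_of_mem_erase hu) hvu.1 hvu.2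
      have h3 := Finset.add_sum_erase S f hv
      have h4 : (S.erase v).filter (fun u => G.Adj v u) =
          insert w ((S.erase v).filter fun u => G.Adj v u ∧ u ≠ w) := by
        ext u
        simp only [Finset.mem_filter, Finset.mem_insert, Finset.mem_erase]
        constructor
        · rintro ⟨hu, hvu⟩
          by_cases huw : u = w
          · exact Or.inl huw
          · exact Or.inr ⟨hu, hvu, huw⟩
        · rintro (rfl | ⟨hu, hvu, _⟩)
          · exact ⟨⟨hvw.ne', hw⟩, hvw⟩
          · exact ⟨hu, hvu⟩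
      have h5 : ((S.erase v).filter (fun u => G.Adj v u)).card =
          ((S.erase v).filter fun u => G.Adj v u ∧ u ≠ w).card + 1 := by
        rw [h4, Finset.card_insert_of_notMem]
        simp
      beta_reduce at hsum
      omega

end Pool.Agent.Lib.MP_a33b01_co_G5
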