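import Pool.Agent.Lib.MP_a33b01_co_G5.StB
import Pool.Agent.Lib.MP_a33b01_co_G5.TpD
import Pool.Agent.Lib.MP_a33b01_co_G5.TpE
import Pool.Agent.Lib.MP_a33b01_co_G5.LcA1

set_option autoImplicit false

/-!
# MP_a33b01_co, project G5: the inside of a short cycle whose vertices have been deleted
-/

namespace Pool.Agent.Lib.MP_a33b01_co_G5

open Classical
open Pool.Agent.Lib.MP_a33b01_co (Sph sk cn supp EvenG Removes Wg)

variable {V : Type} {F K : Finset (Finset V)} {τ : Finset V} {H : SimpleGraph V}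
  {m n : ℕ} {c : ℤ → V}

/-- The general form: the vertices `c 0, …, c (r - 1)` are taken out of the path. -/
private theorem LcA2_gen (hG : Gd F H) (hτ : τ ∈ F) (ih : IH F τ n) (hB : Bd F τ H m c K)
    {r : ℕ} (hr1 : 1 ≤ r) (hr2 : r ≤ 2) (hr6 : m - r ≤ 6) {I : Finset V}
    (hI : ∀ v ∈ I, inn c v) (hIF : I ⊆ supp F) (hmu : 7 * I.card + 6 * m ≤ n)
    (h2 : ∀ v ∈ I, ((cs m c).filter fun p => H.Adj v p).card ≤ 1) :
    ∃ k, Rem H I (cv H m c) k ∧ 4 * k ≤ I.card := by
  have hc := hB.cy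
  have h3 := hc.three
  -- the new path and the new low vertices
  set l : List V := arc c (r : ℤ) (m - r) with hl
  have hlm : ∀ v, v ∈ l ↔ ∃ i : ℤ, (r : ℤ) ≤ i ∧ i < m ∧ c i = v := by
    intro v
    rw [hl, mem_arc]
    have : (r : ℤ) + ((m - r : ℕ) : ℤ) = m := by omega
    rw [this]
  have hnl : ∀ j : ℤ, 0 ≤ j → j < r → c j ∉ l := by
    intro j hj hjr hjl
    obtain ⟨i, hi, him, he⟩ := (hlm _).1 hjl
    obtain ⟨e, he'⟩ := (cy_eq hc).1 he
    have h4 : 0 < e := by
      by_contra h5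
      have : (m : ℤ) * e ≤ 0 := by nlinarith
      omega
    have : (m : ℤ) ≤ m * e := by nlinarith
    omega
  have hcyc : ∀ v, (∃ i, c i = v) → (∃ j : ℤ, 0 ≤ j ∧ j < r ∧ c j = v) ∨ v ∈ l := by
    rintro v ⟨i, rfl⟩
    obtain ⟨j, hj, hjm, he⟩ := cy_mod hc 0 i
    by_cases hjr : j < r
    · exact Or.inl ⟨j, hj, hjr, he⟩
    · exact Or.inr ((hlm _).2 ⟨j, by omega, by omega, he⟩)
  set A' : Finset V := I.filter fun u => ∃ j : ℤ, 0 ≤ j ∧ j < r ∧ H.Adj u (c j) with hA'
  set H' : SimpleGraph V := rs H (I ∪ l.toFinset) with hH'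
  have hH'le : H' ≤ H := rs_le _
  have hnd : l.Nodup := arc_nodup hc _ (by omega)
  have hlen : l.length = m - r := arc_length _ _
  have hcm : ∀ i : ℤ, (r : ℤ) ≤ i → i < m → c i ∈ I ∪ l.toFinset := by
    intro i hi him
    rw [Finset.mem_union, List.mem_toFinset]
    exact Or.inr ((hlm _).2 ⟨i, hi, him, rfl⟩)
  have hch : l.IsChain (OutE F τ H') := by
    refine arc_chain ?_
    intro i hi him
    have hadj : H'.Adj (c i) (c (i + 1)) :=
      ⟨hc.adj i, hcm i hi (by omega), hcm (i + 1) (by omega) (by omega)⟩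
    refine outE_mono hH'le hadj ?_
    exact (bd_outE hG.sph hG.le hτ hB).2 ⟨i, Or.inl ⟨rfl, rfl⟩⟩
  have houtc : ∀ i : ℤ, Out F τ H' (c i) := by
    intro i
    exact out_mono hH'le ((bd_out hG.sph hG.le hτ hB ⟨_, hc.adj i⟩).2 ⟨i, rfl⟩)
  have hIl : ∀ u ∈ I, u ∉ l := by
    intro u hu hul
    obtain ⟨i, -, -, he⟩ := (hlm _).1 hul
    exact hI u hu i he
  have hdisj : Disjoint I l.toFinset := by
    rw [Finset.disjoint_left]
    intro u hu hul
    exact hIl u hu (List.mem_toFinset.1 hul)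
  have hcs : ∀ i : ℤ, c i ∈ cs m c := fun i => (mem_cs hc).2 ⟨i, rfl⟩
  have hone : ∀ v ∈ I, ∀ i j : ℤ, H.Adj v (c i) → H.Adj v (c j) → c i = c j := by
    intro v hv i j hi hj
    refine Finset.card_le_one.1 (h2 v hv) _ ?_ _ ?_
    · exact Finset.mem_filter.2 ⟨hcs i, hi⟩
    · exact Finset.mem_filter.2 ⟨hcs j, hj⟩
  -- the state
  have st : St F τ H' I l.toFinset A' := by
    refine ⟨gd_mono hG hH'le, hτ, ?_, ?_, hdisj, ?_, ?_, ?_, ?_, Finset.filter_subset _ _,
      ?_, ?_, ?_⟩
    · intro x y hxy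
      exact hxy.2.1
    · intro v hv
      rw [Finset.mem_union, List.mem_toFinset] at hv
      rcases hv with hv | hv
      · exact hIF hv
      · obtain ⟨i, -, -, rfl⟩ := (hlm _).1 hv
        exact (Pool.Agent.Lib.MP_a33b01_co.adj_supp (hG.le (hc.adj i))).1
    · exact (List.toFinset_card_le l).trans (by omega)
    · intro p hp
      obtain ⟨i, -, -, rfl⟩ := (hlm _).1 (List.mem_toFinset.1 hp)
      exact houtc i
    · exact cn_list (fun x y => outE_symm) hch
    · intro u hu
      exact ld_list (gd_mono hG hH'le) hnd (hch.imp fun _ _ h => h.1) (by omega) (hIl u hu)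
    · intro a ha
      obtain ⟨haI, j, hj, hjr, haj⟩ := Finset.mem_filter.1 ha
      refine out_nbr (v := c j) hG.sph hτ ?_ (houtc j) (hG.le haj.symm)
      intro y hy
      have h4 := hy.2.1
      rw [Finset.mem_union, List.mem_toFinset] at h4
      rcases h4 with h4 | h4
      · exact hI _ h4 j rfl
      · exact hnl j hj hjr h4
    · intro a ha b hb hab
      obtain ⟨haI, i, hi, hir, hai⟩ := Finset.mem_filter.1 ha
      obtain ⟨hbI, j, hj, hjr, hbj⟩ := Finset.mem_filter.1 hb
      have hab' := hH'le hab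
      have h5 : i = j ∨ (i = 0 ∧ j = 1) ∨ (i = 1 ∧ j = 0) := by omega
      rcases h5 with rfl | ⟨rfl, rfl⟩ | ⟨rfl, rfl⟩
      · exact hG.tri a b (c i) hab' hbj hai
      · have h6 := hc.adj 0
        rw [zero_add] at h6
        rcases hG.quad a (c 0) (c 1) b hai h6 hbj.symm hab'.symm with h7 | h7
        · exact hI a haI 1 h7.symm
        · exact hI b hbI 0 h7
      · have h6 := hc.adj 0
        rw [zero_add] at h6
        rcases hG.quad a (c 1) (c 0) b hai h6.symm hbj.symm hab'.symm with h7 | h7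
        · exact hI a haI 0 h7.symm
        · exact hI b hbI 1 h7
    · intro a ha p hp hap
      obtain ⟨haI, j, hj, hjr, haj⟩ := Finset.mem_filter.1 ha
      have hp' := List.mem_toFinset.1 hp
      obtain ⟨i, -, -, rfl⟩ := (hlm _).1 hp'
      rw [hone a haI i j (hH'le hap) haj] at hp'
      exact hnl j hj hjr hp'
  obtain ⟨k, hk, hk4⟩ := ih H' I l.toFinset A' (by
    unfold mu
    have h4 : l.toFinset.card ≤ m - r := hlen ▸ List.toFinset_card_le l
    omega) st
  refine ⟨k, rem_mono ?_ ?_ hk, hk4⟩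
  · intro u hu
    unfold cv fv
    have h4 : ((cs m c).filter fun p => H.Adj u p).card ≤
        (if u ∈ A' then 1 else 0) + (l.toFinset.filter fun p => H'.Adj u p).card := by
      rcases Nat.eq_zero_or_pos ((cs m c).filter fun p => H.Adj u p).card with h5 | h5
      · rw [h5]
        exact Nat.zero_le _
      · refine (h2 u hu).trans ?_
        obtain ⟨p, hp⟩ := Finset.card_pos.1 h5
        rw [Finset.mem_filter] at hp
        rcases hcyc p ((mem_cs hc).1 hp.1) with ⟨j, hj, hjr, rfl⟩ | hpl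
        · have hA : u ∈ A' := Finset.mem_filter.2 ⟨hu, j, hj, hjr, hp.2⟩
          rw [if_pos hA]
          omega
        · have h6 : 0 < (l.toFinset.filter fun p => H'.Adj u p).card := by
            rw [Finset.card_pos]
            refine ⟨p, Finset.mem_filter.2 ⟨List.mem_toFinset.2 hpl, hp.2, ?_, ?_⟩⟩
            · exact Finset.mem_union_left _ hu
            · exact Finset.mem_union_right _ (List.mem_toFinset.2 hpl)
          omega
    omega
  · intro u hu v hv huv
    exact ⟨huv, Finset.mem_union_left _ hu, Finset.mem_union_left _ hv⟩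

/-- Absorbing one or two vertices of the cycle (no vertex of `I` has two neighbours on the cycle,
and there are no chords).  Let `l = arc c 1 (m - 1)` if `m ≤ 7` and `l = arc c 2 6` if `m = 8`, and
let `A'` be the set of the members of `I` which are adjacent to `c 0` (or to `c 0` or `c 1`).
`(rs H (I ∪ l.toFinset), I, l.toFinset, A')` is a state: outer vertices and edges by `bd_out`,
`bd_outE`, `out_mono`, `outE_mono`, the members of `A'` by `out_nbr` (`c 0`, `c 1` are isolated in
`rs`); `A'` is independent because there are no triangles and 4-cycles, not adjacent to `l` by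
`h2`; `ld_list`.  Its measure is at most `7 |I| + 6 * 6`, and `7 |I| + 6 (m - 1)` for `m ≤ 7`, so
less than `n`.  Its values are `cv H m c` on `I`. -/
theorem lc_absorb (hG : Gd F H) (hτ : τ ∈ F) (ih : IH F τ n) (hB : Bd F τ H m c K)
    (h8 : m ≤ 8) {I : Finset V} (hI : ∀ v ∈ I, inn c v) (hIF : I ⊆ supp F)
    (hmu : 7 * I.card + 6 * m ≤ n)
    (h2 : ∀ v ∈ I, ((cs m c).filter fun p => H.Adj v p).card ≤ 1) :
    ∃ k, Rem H I (cv H m c) k ∧ 4 * k ≤ I.card :=
  LcA2_gen hG hτ ih hB (r := 2) (by norm_num) le_rfl (by omega) hI hIF hmu h2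

end Pool.Agent.Lib.MP_a33b01_co_G5
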