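import Pool.Agent.Lib.MP_a33b01_co_G5.StB

set_option autoImplicit false

/-!
# MP_a33b01_co, project G5: the simplest reductions
-/

namespace Pool.Agent.Lib.MP_a33b01_co_G5

open Classical
open Pool.Agent.Lib.MP_a33b01_co (Sph sk cn supp EvenG Removes Wg)

variable {V : Type} {F : Finset (Finset V)} {τ : Finset V} {H : SimpleGraph V}
  {S P A : Finset V} {n : ℕ}

theorem cl_empty (hS : S = ∅) : Cl H S P A := by
  subst hS
  exact ⟨0, Rem.nil _ _, by simp⟩

/-- `P = ∅`: take `a ∈ A`, or any `a ∈ S` on the outer region (`exists_out`) if `A = ∅`, delete it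
(all its neighbours have value `2`) and apply `ih` to `(rs H S, S.erase a, {a}, A.erase a)`;
`mu = 7 (|S| - 1) + 6`.  `gdel'` with `D = {a}`, `l = [a]`. -/
theorem cl_noP (ih : IH F τ n) (st : St F τ H S ∅ A) (hn : mu S ∅ ≤ n) : Cl H S ∅ A := by
  rcases Finset.eq_empty_or_nonempty S with h0 | hne
  · exact cl_empty h0
  have hex : ∃ a ∈ S, Out F τ H a ∧ ∀ b ∈ A, ¬ H.Adj b a := by
    by_cases hA : ∃ a, a ∈ A
    · obtain ⟨a, ha⟩ := hA
      exact ⟨a, st.AS ha, st.outA a ha, fun b hb => st.ind b hb a ha⟩
    · obtain ⟨v, hv, hv'⟩ := exists_out (H := H) st.gd.sph st.tF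
        (fun x hx => st.sF (Finset.mem_union_left _ hx)) hne (fun x y hxy => by
          simpa using st.sup x y hxy)
      exact ⟨v, hv, hv', fun b hb => absurd ⟨b, hb⟩ hA⟩
  obtain ⟨a, ha, hout, hb⟩ := hex
  have hl1 : ∀ x ∈ [a], x = a := fun x hx => by simpa using hx
  have hcard := Finset.card_erase_add_one ha
  have hnew : ∀ u ∈ newA H (S.erase a) ∅ {a} [a] A, u ∈ A := by
    intro u hu
    rcases (Finset.mem_filter.1 hu).2 with h1 | ⟨d, hd, hd', -⟩
    · exact h1
    · rw [Finset.empty_union, Finset.mem_singleton] at hd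
      subst hd
      exact absurd (List.mem_singleton.2 rfl) hd'
  refine gdel' (S' := S.erase a) (D := {a}) (l := [a]) (k₀ := 0) ih st ?_ ?_ ?_ ?_ ?_ ?_ ?_ ?_ ?_
    ?_ ?_ ?_ ?_ ?_
  · rw [← Finset.insert_eq, Finset.insert_erase ha]
  · rw [Finset.disjoint_left]
    intro x hx hx'
    rw [Finset.mem_singleton] at hx
    exact Finset.notMem_erase a S (hx ▸ hx')
  · have h1 : ([a] : List V).toFinset.card = 1 := by simp
    unfold mu at hn ⊢
    rw [h1]
    rw [Finset.card_empty] at hn
    omega
  · intro x hx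
    exact Or.inr (Finset.mem_singleton.2 (hl1 x hx))
  · simp
  · simp
  · exact List.isChain_singleton _
  · intro x hx
    rw [hl1 x hx]
    exact out_mono (rs_le _) hout
  · intro x hx hx'
    rcases hx with hx | hx
    · exact absurd hx (Finset.notMem_empty _)
    · exact absurd (List.mem_singleton.2 (Finset.mem_singleton.1 hx)) hx'
  · intro x hx y hy
    exact st.ind x (hnew x hx) y (hnew y hy)
  · intro x hx y hy
    rw [hl1 y hy]
    exact hb x (hnew x hx)
  · intro u _
    have h1 : ((∅ ∪ {a} : Finset V).filter fun x => x ∉ [a] ∧ H.Adj u x).card = 0 := by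
      rw [Finset.card_eq_zero, Finset.filter_eq_empty_iff]
      intro x hx hx'
      rw [Finset.empty_union, Finset.mem_singleton] at hx
      exact hx'.1 (List.mem_singleton.2 hx)
    rw [h1]
    split_ifs <;> omega
  · refine rem_free (v := a) (Finset.mem_singleton_self a) ?_ ?_
    · have h1 : (({a} : Finset V).filter fun u => H.Adj a u).card = 0 := by
        rw [Finset.card_eq_zero, Finset.filter_eq_empty_iff]
        intro x hx hx'
        rw [Finset.mem_singleton] at hx
        subst hx
        exact H.loopless.irrefl _ hx'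
      rw [h1]
      exact Nat.zero_le _
    · have h1 : ({a} : Finset V).erase a = ∅ := by simp
      rw [h1]
      exact Rem.nil _ _
  · simp

/-- A vertex whose value is at least its degree can be removed last: `St.sub` with `S.erase v`,
`rem_free`. -/
theorem cl_free (ih : IH F τ n) (st : St F τ H S P A) (hn : mu S P ≤ n) {v : V} (hv : v ∈ S)
    (hd : ((S ∪ P).filter fun u => H.Adj v u).card + (if v ∈ A then 1 else 0) ≤ 2) :
    Cl H S P A := by
  have hcard := Finset.card_erase_add_one hv
  have st' := st.sub (S' := S.erase v) (P' := P) (Finset.erase_subset _ _)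
    (Finset.Subset.refl _) st.con
  obtain ⟨k, hk, hk'⟩ := ih _ _ _ _ (by
    unfold mu at hn ⊢
    omega) st'
  refine ⟨k, rem_free hv ?_ (rem_mono (fun u hu => ?_) (fun x hx y hy hxy => ?_) hk), by omega⟩
  · have h1 : ((S ∪ P).filter fun u => H.Adj v u).card =
        (S.filter fun u => H.Adj v u).card + (P.filter fun u => H.Adj v u).card := by
      rw [Finset.filter_union]
      exact Finset.card_union_of_disjoint (Finset.disjoint_filter_filter st.dj)
    unfold fv
    omega
  · have h1 : (P.filter fun p => (rs H (S.erase v ∪ P)).Adj u p) =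
        P.filter fun p => H.Adj u p := by
      apply Finset.filter_congr
      intro x hx
      exact ⟨fun h => h.1, fun h => ⟨h, Finset.mem_union_left _ hu,
        Finset.mem_union_right _ hx⟩⟩
    unfold fv
    rw [h1]
    have h2 : u ∈ A ∩ S.erase v ↔ u ∈ A := by
      rw [Finset.mem_inter]
      exact ⟨fun h => h.1, fun h => ⟨h, hu⟩⟩
    by_cases hA : u ∈ A
    · rw [if_pos hA, if_pos (h2.2 hA)]
    · rw [if_neg hA, if_neg (fun h => hA (h2.1 h))]
  · exact ⟨hxy, Finset.mem_union_left _ hx, Finset.mem_union_left _ hy⟩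

end Pool.Agent.Lib.MP_a33b01_co_G5
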