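import Pool.Agent.Lib.MP_a33b01_co_G5.StB
import Pool.Agent.Lib.MP_a33b01_co_G5.RdA1

set_option autoImplicit false

/-!
# MP_a33b01_co, project G5: the simplest reductions
-/

namespace Pool.Agent.Lib.MP_a33b01_co_G5

open Classical
open Pool.Agent.Lib.MP_a33b01_co (Sph sk cn supp EvenG Removes Wg)

variable {V : Type} {F : Finset (Finset V)} {τ : Finset V} {H : SimpleGraph V}
  {S P A : Finset V} {n : ℕ}

private theorem RdA2_symm {x y : V} (h : OutE F τ H x y) : OutE F τ H y x := by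
  obtain ⟨h1, t, ht, hx, hy⟩ := h
  exact ⟨h1.symm, t, ht, hy, hx⟩

/-- the part of `P` in one side is connected -/
private theorem RdA2_con (hcon : CN (OutE F τ H) P) {L R : Finset V}
    (hc₁ : ∀ x ∈ L, x ∉ R → ∀ y, H.Adj x y → y ∈ L) (h1 : (L ∩ R).card ≤ 1) :
    CN (OutE F τ H) (P ∩ L) := by
  intro X hX hXne hXP
  have hXL : ∀ x ∈ X, x ∈ P ∧ x ∈ L := fun x hx => Finset.mem_inter.1 (hX hx)
  by_cases hR : ∀ x ∈ X, x ∉ R
  · obtain ⟨a, ha, b, hb, hbX, hab⟩ := hcon X (fun x hx => (hXL x hx).1) hXne (by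
      rintro rfl
      exact hXP (Finset.Subset.antisymm hX Finset.inter_subset_left))
    exact ⟨a, ha, b, Finset.mem_inter.2 ⟨hb, hc₁ a (hXL a ha).2 (hR a ha) b hab.1⟩, hbX, hab⟩
  · push Not at hR
    obtain ⟨x, hx, hxR⟩ := hR
    have huniq : ∀ a ∈ L, a ∈ R → a = x := by
      intro a haL haR
      rw [Finset.card_le_one] at h1
      exact h1 a (Finset.mem_inter.2 ⟨haL, haR⟩) x (Finset.mem_inter.2 ⟨(hXL x hx).2, hxR⟩)
    obtain ⟨a, ha, b, hb, hbX, hab⟩ := hcon ((P ∩ L) \ X)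
      (Finset.sdiff_subset.trans Finset.inter_subset_left) (by
        rw [Finset.sdiff_nonempty]
        exact fun h2 => hXP (Finset.Subset.antisymm hX h2)) (by
        intro h2
        have h3 := (hXL x hx).1
        rw [← h2, Finset.mem_sdiff] at h3
        exact h3.2 hx)
    obtain ⟨ha1, ha2⟩ := Finset.mem_sdiff.1 ha
    have haL := (Finset.mem_inter.1 ha1).2
    have haR : a ∉ R := fun h2 => ha2 (by rw [huniq a haL h2]; exact hx)
    have hbL : b ∈ L := hc₁ a haL haR b hab.1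
    have hbX' : b ∈ X := by
      by_contra h2
      exact hbX (Finset.mem_sdiff.2 ⟨Finset.mem_inter.2 ⟨hb, hbL⟩, h2⟩)
    exact ⟨b, hbX', a, ha1, ha2, RdA2_symm hab⟩

/-- one side can be removed -/
private theorem RdA2_side (ih : IH F τ n) (st : St F τ H S P A) (hn : mu S P ≤ n)
    {L R : Finset V} (hLR : L ∪ R = S ∪ P)
    (hc₁ : ∀ x ∈ L, x ∉ R → ∀ y, H.Adj x y → y ∈ L)
    (hL : L ≠ S ∪ P) (h1 : (L ∩ R).card ≤ 1) (hI : L ∩ R ⊆ P) :
    ∃ k, Rem H (S ∩ L) (fv H P A) k ∧ 4 * k ≤ (S ∩ L).card := by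
  have hu : (S ∩ L) ∪ (P ∩ L) = L := by
    rw [← Finset.union_inter_distrib_right]
    refine Finset.inter_eq_right.2 ?_
    rw [← hLR]
    exact Finset.subset_union_left
  have st' := st.sub (S' := S ∩ L) (P' := P ∩ L) Finset.inter_subset_left
    Finset.inter_subset_left (RdA2_con st.con hc₁ h1)
  have hmu : mu (S ∩ L) (P ∩ L) < mu S P := by
    refine mu_lt st.dj ?_ ?_ ?_ st.six
    · exact Finset.disjoint_of_subset_left Finset.inter_subset_left
        (Finset.disjoint_of_subset_right Finset.inter_subset_left st.dj)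
    · rw [hu, ← hLR]
      exact Finset.subset_union_left
    · rw [hu]
      exact hL
  obtain ⟨k, hk, hk4⟩ := ih _ _ _ _ (lt_of_lt_of_le hmu hn) st'
  refine ⟨k, ?_, hk4⟩
  have hmem : ∀ u, u ∈ S ∩ L → u ∈ (S ∩ L) ∪ (P ∩ L) := fun u hu' =>
    Finset.mem_union_left _ hu'
  refine rem_mono (G' := rs H ((S ∩ L) ∪ (P ∩ L))) (fun u hu' => ?_)
    (fun u hu' v hv huv => ⟨huv, hmem u hu', hmem v hv⟩) hk
  obtain ⟨huS, huL⟩ := Finset.mem_inter.1 hu'
  have huR : u ∉ R := fun h2 =>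
    Finset.disjoint_left.1 st.dj huS (hI (Finset.mem_inter.2 ⟨huL, h2⟩))
  unfold fv
  refine Nat.sub_le_sub_left ?_ 2
  refine Nat.add_le_add ?_ (Finset.card_le_card ?_)
  · by_cases hA : u ∈ A
    · rw [if_pos hA, if_pos (Finset.mem_inter.2 ⟨hA, hu'⟩)]
    · rw [if_neg hA]
      exact Nat.zero_le _
  · intro p hp
    obtain ⟨hpP, hup⟩ := Finset.mem_filter.1 hp
    have hpL : p ∈ P ∩ L := Finset.mem_inter.2 ⟨hpP, hc₁ u huL huR p hup⟩
    exact Finset.mem_filter.2 ⟨hpL, hup, hmem u hu', Finset.mem_union_right _ hpL⟩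

/-- A separation of order at most one whose vertex (if any) is in `P`.
`P ∩ L` is connected: for `∅ ≠ X ⊊ P ∩ L`, if the cut vertex is not in `X` apply `st.con` to `X`
(the vertex of `P \ X` which it gives is in `L` by `hc₁`); if it is in `X` apply it to
`(P ∩ L) \ X` and use the symmetry of `OutE`; if `L ∩ R = ∅` then `P ∩ L` is `∅` or `P` (`st.con`
for `P ∩ L`).  The same for `R`.  `St.sub` for both sides, `mu_lt`, `ih`; there are no edges
between `S ∩ L` and `S ∩ R`; `rem_seq`, `rem_mono`. -/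
theorem cl_sep (ih : IH F τ n) (st : St F τ H S P A) (hn : mu S P ≤ n) {L R : Finset V}
    (hLR : L ∪ R = S ∪ P)
    (hc₁ : ∀ x ∈ L, x ∉ R → ∀ y, H.Adj x y → y ∈ L)
    (hc₂ : ∀ x ∈ R, x ∉ L → ∀ y, H.Adj x y → y ∈ R)
    (hL : L ≠ S ∪ P) (hR : R ≠ S ∪ P) (h1 : (L ∩ R).card ≤ 1) (hI : L ∩ R ⊆ P) :
    Cl H S P A := by
  obtain ⟨k₁, hk₁, hc1⟩ := RdA2_side ih st hn hLR hc₁ hL h1 hI
  obtain ⟨k₂, hk₂, hc2⟩ := RdA2_side ih st hn (by rw [Finset.union_comm]; exact hLR) hc₂ hR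
    (by rw [Finset.inter_comm]; exact h1) (by rw [Finset.inter_comm]; exact hI)
  have hno : ∀ u, u ∈ S → u ∈ L → u ∉ R := fun u huS huL h2 =>
    Finset.disjoint_left.1 st.dj huS (hI (Finset.mem_inter.2 ⟨huL, h2⟩))
  have hd : Disjoint (S ∩ L) (S ∩ R) := by
    rw [Finset.disjoint_left]
    intro u hu hu'
    exact hno u (Finset.mem_inter.1 hu).1 (Finset.mem_inter.1 hu).2 (Finset.mem_inter.1 hu').2
  have hun : (S ∩ L) ∪ (S ∩ R) = S := by
    rw [← Finset.inter_union_distrib_left, hLR]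
    exact Finset.inter_eq_left.2 Finset.subset_union_left
  have hseq := rem_seq hd hk₁ (g := fv H P A) (fun u hu => by
    obtain ⟨huS, huR⟩ := Finset.mem_inter.1 hu
    have huL : u ∉ L := fun h2 => hno u huS h2 huR
    have h0 : ((S ∩ L).filter fun v => H.Adj u v) = ∅ := by
      rw [Finset.filter_eq_empty_iff]
      intro v hv huv
      obtain ⟨hvS, hvL⟩ := Finset.mem_inter.1 hv
      exact hno v hvS hvL (hc₂ u huR huL v huv)
    rw [h0, Finset.card_empty, add_zero]) hk₂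
  rw [hun] at hseq
  refine ⟨k₁ + k₂, hseq, ?_⟩
  have hcard : (S ∩ L).card + (S ∩ R).card = S.card := by
    rw [← Finset.card_union_of_disjoint hd, hun]
  omega

end Pool.Agent.Lib.MP_a33b01_co_G5
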