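import Pool.Agent.Lib.MP_a33b01_co_G5.TpF
import Pool.Agent.Lib.MP_a33b01_co_G5.TpI

set_option autoImplicit false

/-!
# MP_a33b01_co, project G5: the outer cycle of a 2-connected graph
-/

namespace Pool.Agent.Lib.MP_a33b01_co_G5

open Classical
open Pool.Agent.Lib.MP_a33b01_co (Sph sk cn supp EvenG Removes Wg)

variable {V : Type} {F K : Finset (Finset V)} {τ : Finset V} {H : SimpleGraph V} {m : ℕ}
  {c : ℤ → V}

/-- An edge of the first cycle of the theta graph is an edge of `c` or of the path. -/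
private theorem TpJ1_edge {i : ℤ} {d : ℕ} {Q : List V}
    (hl : LCy H (arc c i (d + 1) ++ Q.reverse)) {x y : V}
    (h : CE (per (c 0) (arc c i (d + 1) ++ Q.reverse)) x y) :
    CE c x y ∨ [x, y] <:+: (c i :: Q ++ [c (i + d)]) ∨ [y, x] <:+: (c i :: Q ++ [c (i + d)]) := by
  obtain ⟨P, hP⟩ : ∃ P, P = c i :: Q ++ [c (i + d)] := ⟨_, rfl⟩
  obtain ⟨R, hR⟩ : ∃ R : V → V → Prop, R = fun x y => CE c x y ∨ [x, y] <:+: P ∨ [y, x] <:+: P :=
    ⟨_, rfl⟩
  have hsymm : ∀ x y, R x y → R y x := by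
    rw [hR]
    rintro x y (h1 | h1 | h1)
    · exact Or.inl (ce_symm h1)
    · exact Or.inr (Or.inr h1)
    · exact Or.inr (Or.inl h1)
  have hch : (arc c i (d + 1) ++ Q.reverse ++ [c i]).IsChain R := by
    have e1 : arc c i (d + 1) ++ Q.reverse ++ [c i] =
        arc c i d ++ [c (i + d)] ++ (Q.reverse ++ [c i]) := by
      rw [arc_succ]
      simp
    rw [e1]
    refine List.IsChain.append_overlap ?_ ?_ (List.cons_ne_nil _ _)
    · rw [← arc_succ]
      refine arc_chain fun j _ _ => ?_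
      rw [hR]
      exact Or.inl ⟨j, Or.inl ⟨rfl, rfl⟩⟩
    · have e2 : [c (i + d)] ++ (Q.reverse ++ [c i]) = P.reverse := by
        rw [hP]
        simp
      rw [e2]
      refine chain_reverse hsymm ?_
      refine (List.isChain_isInfix P).imp fun a b hab => ?_
      rw [hR]
      exact Or.inr (Or.inl hab)
  have hpair : ∀ a b, [a, b] <:+: (arc c i (d + 1) ++ Q.reverse ++ [c i]) → R a b := by
    intro a b hab
    obtain ⟨l₁, l₂, h0⟩ := hab
    rw [← h0] at hch
    have h1 := hch.left_of_append.right_of_append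
    exact (List.isChain_cons_cons.1 h1).1
  have hin : ∀ a b, [a, b] <:+: (arc c i (d + 1) ++ Q.reverse) → R a b := fun a b hab =>
    hpair a b (hab.trans (List.prefix_append _ _).isInfix)
  have hlast : ∀ a b, (arc c i (d + 1) ++ Q.reverse).head? = some a →
      (arc c i (d + 1) ++ Q.reverse).getLast? = some b → R b a := by
    intro a b ha hb
    have ha' : a = c i := by
      rw [arc_cons] at ha
      simpa using ha.symm
    obtain ⟨l', hl'⟩ := List.getLast?_eq_some_iff.1 hb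
    refine hpair b a ?_
    rw [hl', ha']
    refine ⟨l', [], ?_⟩
    simp
  have hfin : R x y := by
    rcases (ce_per (c 0) hl).1 h with h1 | h1 | h1 | h1
    · exact hin x y h1
    · exact hsymm _ _ (hin y x h1)
    · exact hsymm _ _ (hlast x y h1.1 h1.2)
    · exact hlast y x h1.1 h1.2
  rw [hR] at hfin
  rw [hP] at hfin
  exact hfin

/-- An ear outside of the cycle gives a cycle with more faces inside.  Let `K₁`, `K₂` be the sides
without `τ` of the two cycles of the theta graph (`theta_lcy`, `cy_per`, `exists_side`);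
`K = symmDiff K₁ K₂` (`theta_ce`, `theta_symm`).  `K ∩ K₁` is `∅` or `K`: otherwise `side_conn`
(for `K` and `K ∩ K₁`) gives an edge which is not on `c` and is in an odd number of faces of
`K ∩ K₁`; it is not in the boundary of `K`, so (`br_cross`) it is in two faces of `K` and one
face of `K₁`, hence on the cycle of `K₁` but not on `c`, hence an edge of the path (`ce_per`),
against `hout`.  If `K ⊆ K₁` then `K ≠ K₁` (the boundaries differ), and if `K` and `K₁` are
disjoint then `K₂ = K ∪ K₁` with `K₁` nonempty. -/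
theorem bigger_side (hF : Sph F) (hle : H ≤ sk F) (hτ : τ ∈ F) (hc : Cy H m c) (hK : K ⊆ F)
    (hτK : τ ∉ K) (hb : BR K (CE c)) {i : ℤ} {d : ℕ} (hd : 0 < d) (hdm : d < m) {Q : List V}
    (h0 : Q = [] → 2 ≤ d ∧ d + 2 ≤ m) (hch : (c i :: Q ++ [c (i + d)]).IsChain H.Adj)
    (hnd : Q.Nodup) (hQ : ∀ x ∈ Q, inn c x)
    (hout : ∀ x y, [x, y] <:+: (c i :: Q ++ [c (i + d)]) → ∀ t ∈ K, ¬ (x ∈ t ∧ y ∈ t)) :
    ∃ m' c' K', Cy H m' c' ∧ K' ⊆ F ∧ τ ∉ K' ∧ BR K' (CE c') ∧ K.card < K'.card := by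
  obtain ⟨hl₁, hl₂⟩ := theta_lcy hc hd hdm h0 hch hnd hQ
  have hc₁ := cy_per (c 0) hl₁
  have hc₂ := cy_per (c 0) hl₂
  obtain ⟨K₁, hK₁, hτ₁, hb₁⟩ := exists_side hF hle hτ hc₁
  obtain ⟨K₂, hK₂, hτ₂, hb₂⟩ := exists_side hF hle hτ hc₂
  have hs : K = symmDiff K₁ K₂ := theta_symm hF hτ (theta_ce hc hd hdm h0 hch hnd hQ) hK hK₁ hK₂
    hτK hτ₁ hτ₂ hb hb₁ hb₂
  have hn₁ := (side_nonempty hF hle hc₁ hK₁ hb₁).1
  have hn₂ := (side_nonempty hF hle hc₂ hK₂ hb₂).1
  have hdich : K ∩ K₁ = ∅ ∨ K ∩ K₁ = K := by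
    by_contra hcon
    push Not at hcon
    obtain ⟨x, y, hxy, ho, hce⟩ := side_conn hF hle hc hK hb Finset.inter_subset_left
      hcon.1 hcon.2
    have hpos : 0 < cn (K ∩ K₁) x y := ho.pos
    unfold cn at hpos
    obtain ⟨t, ht⟩ := Finset.card_pos.1 hpos
    rw [Finset.mem_filter, Finset.mem_inter] at ht
    obtain ⟨⟨htK, htK₁⟩, hxt, hyt⟩ := ht
    have hcn : cn (K ∩ K₁) x y = cn K₁ x y := by
      unfold cn
      congr 1
      ext s
      simp only [Finset.mem_filter, Finset.mem_inter]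
      constructor
      · rintro ⟨⟨-, h2⟩, h3⟩
        exact ⟨h2, h3⟩
      · rintro ⟨h2, h3⟩
        exact ⟨⟨br_cross hF hK hb hxy hce htK hxt hyt (hK₁ h2) h3.1 h3.2, h2⟩, h3⟩
    rw [hcn] at ho
    have hE := (hb₁ x y hxy).1 ho
    rcases TpJ1_edge hl₁ hE with h1 | h1 | h1
    · exact hce h1
    · exact hout x y h1 t htK ⟨hxt, hyt⟩
    · exact hout y x h1 t htK ⟨hyt, hxt⟩
  rcases hdich with h1 | h1
  · refine ⟨_, _, K₂, hc₂, hK₂, hτ₂, hb₂, Finset.card_lt_card ?_⟩
    have e : K₂ = K ∪ K₁ := by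
      have h2 : K₂ = symmDiff K₁ K := by rw [hs, symmDiff_symmDiff_cancel_left]
      rw [h2, symmDiff_comm]
      exact (Finset.disjoint_iff_inter_eq_empty.2 h1).symmDiff_eq_sup
    rw [e, Finset.ssubset_iff_subset_ne]
    refine ⟨Finset.subset_union_left, fun h2 => ?_⟩
    obtain ⟨t, ht⟩ := hn₁
    have h3 : t ∈ K := by
      rw [h2]
      exact Finset.mem_union_right _ ht
    have h4 : t ∈ K ∩ K₁ := Finset.mem_inter.2 ⟨h3, ht⟩
    rw [h1] at h4
    exact absurd h4 (Finset.notMem_empty t)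
  · refine ⟨_, _, K₁, hc₁, hK₁, hτ₁, hb₁, Finset.card_lt_card ?_⟩
    have hsub : K ⊆ K₁ := Finset.inter_eq_left.1 h1
    rw [Finset.ssubset_iff_subset_ne]
    refine ⟨hsub, fun h2 => ?_⟩
    have h3 : K₂ = ∅ := by
      have h4 : K₂ = symmDiff K₁ K := by rw [hs, symmDiff_symmDiff_cancel_left]
      rw [h4, ← h2, symmDiff_self]
      rfl
    rw [h3] at hn₂
    exact absurd hn₂ Finset.not_nonempty_empty

end Pool.Agent.Lib.MP_a33b01_co_G5
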