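import Pool.Agent.Lib.MP_a33b01_co_G5.TpF
import Pool.Agent.Lib.MP_a33b01_co_G5.TpI
import Pool.Agent.Lib.MP_a33b01_co_G5.TpJ1

set_option autoImplicit false

/-!
# MP_a33b01_co, project G5: the outer cycle of a 2-connected graph
-/

namespace Pool.Agent.Lib.MP_a33b01_co_G5

open Classical
open Pool.Agent.Lib.MP_a33b01_co (Sph sk cn supp EvenG Removes Wg)

variable {V : Type} {F K : Finset (Finset V)} {τ : Finset V} {H : SimpleGraph V} {m : ℕ}
  {c : ℤ → V}

private theorem TpJ2_idx (hc : Cy H m c) {a b : V} (ha : ∃ i, c i = a) (hb : ∃ j, c j = b)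
    (hab : a ≠ b) : ∃ (i : ℤ) (d : ℕ), 0 < d ∧ d < m ∧ c i = a ∧ c (i + d) = b := by
  obtain ⟨i, hi⟩ := ha
  obtain ⟨j, hj⟩ := hb
  obtain ⟨j', h1, h2, h3⟩ := cy_mod hc (i + 1) j
  have h4 : j' ≠ i + m := by
    rintro rfl
    exact hab (by rw [← hi, ← hj, ← h3, hc.per])
  refine ⟨i, (j' - i).toNat, by omega, by omega, hi, ?_⟩
  rw [← hj, ← h3]
  congr 1
  omega

private theorem TpJ2_infix {a b x y : V} {Q : List V} (hQ : Q ≠ [])
    (h : [x, y] <:+: (a :: Q ++ [b])) : x ∈ Q ∨ y ∈ Q := by
  obtain ⟨s, t, h⟩ := h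
  cases s with
  | nil =>
    right
    cases Q with
    | nil => exact absurd rfl hQ
    | cons q Q =>
      simp only [List.nil_append, List.cons_append, List.cons.injEq] at h
      rw [h.2.1]
      exact List.mem_cons_self
  | cons s0 s =>
    left
    simp only [List.cons_append, List.append_assoc, List.cons.injEq, List.nil_append] at h
    rcases List.append_eq_append_iff.1 h.2 with ⟨r, h1, h2⟩ | ⟨r, h1, h2⟩
    · cases r with
      | nil =>
        simp at h2
      | cons r0 r =>
        simp only [List.cons_append, List.cons.injEq] at h2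
        rw [h1, h2.1]
        simp
    · have h3 := congrArg List.length h2
      simp only [List.length_cons, List.length_append, List.length_nil] at h3
      omega

/-- the vertices which are not on the cycle: no face of `K` contains them if one face at the
vertex is not in `K` -/
private theorem TpJ2_star (hF : Sph F) (hK : K ⊆ F) (hb : BR K (CE c)) {x : V} (hx : inn c x)
    {s t : Finset V} (hs : s ∈ F) (hsK : s ∉ K) (hxs : x ∈ s) (ht : t ∈ K) : x ∉ t := by
  intro hxt
  have h1 : ∀ y, ¬ CE c x y := by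
    rintro y ⟨i, h | h⟩
    · exact hx i h.1.symm
    · exact hx (i + 1) h.2.symm
  exact hsK (br_star hF hK hb h1 ht hxt hs hxs)

/-- The outer cycle of a 2-connected graph: take a cycle (`ns_deg`, `exists_cy`, `exists_side`)
with as many faces inside as possible.  If an edge `x y` of `H` is in no face of `K`: if both `x`
and `y` are on the cycle, `bigger_side` with `Q = []` (the edge is not on the cycle by `br_one`).
Otherwise let `x` be not on the cycle (`U` = the vertices of the cycle); no face of `K` contains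
`x` (`br_star`).  Let `D` be the component of `x` in `W \ U` (`exists_comp`); no vertex of `D` is
on a face of `K` (the set of these vertices is closed under neighbours in `D`).  If at most one
vertex of `U` has a neighbour in `D` then `D ∪ N(D)` and `W \ D` contradict `NS` (`x ∈ D`, and
`U` has at least three members).  So there are `a ≠ b` in `U` with neighbours in `D`;
`exists_path`, and `bigger_side` with this path `Q` (nonempty, contained in `D`). -/
theorem exists_bd (hF : Sph F) (hle : H ≤ sk F) (hτ : τ ∈ F) {W : Finset V}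
    (hW : ∀ x y, H.Adj x y → x ∈ W) (h3 : 3 ≤ W.card) (hns : NS H W) :
    ∃ m c K, Bd F τ H m c K := by
  have hWr : ∀ x y, H.Adj x y → y ∈ W := fun x y h => hW y x h.symm
  have hne : W.Nonempty := Finset.card_pos.1 (by omega)
  -- a cycle with as many faces inside as possible
  obtain ⟨K, ⟨hKF, m, c, hc, hτK, hb⟩, hmax⟩ : ∃ K, (K ⊆ F ∧ ∃ m c, Cy H m c ∧ τ ∉ K ∧
      BR K (CE c)) ∧ ∀ m' c' K', Cy H m' c' → K' ⊆ F → τ ∉ K' → BR K' (CE c') →
        K'.card ≤ K.card := by
    obtain ⟨m, c, hc⟩ := exists_cy W hW hne (ns_deg hW h3 hns)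
    obtain ⟨K, hK, hτK, hb⟩ := exists_side hF hle hτ hc
    have h1 : (F.powerset.filter fun K => ∃ m c, Cy H m c ∧ τ ∉ K ∧ BR K (CE c)).Nonempty :=
      ⟨K, Finset.mem_filter.2 ⟨Finset.mem_powerset.2 hK, m, c, hc, hτK, hb⟩⟩
    obtain ⟨K, hK, hmax⟩ := Finset.exists_max_image _ Finset.card h1
    rw [Finset.mem_filter, Finset.mem_powerset] at hK
    exact ⟨K, hK, fun m' c' K' h2 h3 h4 h5 => hmax K' (Finset.mem_filter.2
      ⟨Finset.mem_powerset.2 h3, m', c', h2, h4, h5⟩)⟩
  have hbig : ¬ ∃ m' c' K', Cy H m' c' ∧ K' ⊆ F ∧ τ ∉ K' ∧ BR K' (CE c') ∧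
      K.card < K'.card := by
    rintro ⟨m', c', K', h1, h2, h3, h4, h5⟩
    have h6 := hmax m' c' K' h1 h2 h3 h4
    omega
  -- an edge with an end which is not on the cycle
  have key : ∀ x y, H.Adj x y → inn c x → ∃ t ∈ K, x ∈ t ∧ y ∈ t := by
    intro x y hxy hx
    by_contra hcon
    push Not at hcon
    obtain ⟨-, s, hs, hxs, hys⟩ := hle hxy
    have hsK : s ∉ K := fun h => hcon s h hxs hys
    obtain ⟨D, hDW, hxD, hDc, hDD⟩ := exists_comp W (W.filter fun v => ∃ i, c i = v)
      (x := x) (H := H) (hW x y hxy) (fun h => by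
        obtain ⟨i, hi⟩ := (Finset.mem_filter.1 h).2
        exact hx i hi)
    have hDi : ∀ v ∈ D, v ∈ W ∧ inn c v := by
      intro v hv
      have h1 := Finset.mem_sdiff.1 (hDW hv)
      exact ⟨h1.1, fun i hi => h1.2 (Finset.mem_filter.2 ⟨h1.1, i, hi⟩)⟩
    -- no vertex of `D` is on a face of `K`
    have hDK : ∀ v ∈ D, ∀ t ∈ K, v ∉ t := by
      have h1 := hDD (D.filter fun v => ∀ t ∈ K, v ∉ t) (Finset.filter_subset _ _)
        ⟨x, Finset.mem_filter.2 ⟨hxD, fun t ht => TpJ2_star hF hKF hb hx hs hsK hxs ht⟩⟩ (by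
          intro v hv w hw hvw
          refine Finset.mem_filter.2 ⟨hw, fun t ht => ?_⟩
          obtain ⟨-, r, hr, hvr, hwr⟩ := hle hvw
          have hrK : r ∉ K := fun h => (Finset.mem_filter.1 hv).2 r h hvr
          exact TpJ2_star hF hKF hb (hDi w hw).2 hr hrK hwr ht)
      intro v hv
      rw [← h1] at hv
      exact (Finset.mem_filter.1 hv).2
    -- the neighbours of `D` on the cycle
    obtain ⟨N, hN⟩ : ∃ N : Finset V, N = W.filter fun u => (∃ i, c i = u) ∧
      ∃ v ∈ D, H.Adj u v := ⟨_, rfl⟩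
    have hN2 : 1 < N.card := by
      by_contra hN1
      have hdj : ∀ u ∈ N, u ∉ D := by
        intro u hu huD
        rw [hN, Finset.mem_filter] at hu
        obtain ⟨i, hi⟩ := hu.2.1
        exact (hDi u huD).2 i hi
      have hLR : (D ∪ N) ∪ (W \ D) = W := by
        ext v
        simp only [Finset.mem_union, Finset.mem_sdiff]
        constructor
        · rintro ((h | h) | h)
          · exact (hDi v h).1
          · rw [hN, Finset.mem_filter] at h
            exact h.1
          · exact h.1
        · intro h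
          by_cases h2 : v ∈ D
          · exact Or.inl (Or.inl h2)
          · exact Or.inr ⟨h, h2⟩
      have hcard : ((D ∪ N) ∩ (W \ D)).card ≤ 1 := by
        refine le_trans (Finset.card_le_card fun v hv => ?_) (not_lt.1 hN1)
        rw [Finset.mem_inter, Finset.mem_union, Finset.mem_sdiff] at hv
        rcases hv.1 with h | h
        · exact absurd h hv.2.2
        · exact h
      have hL : ∀ v ∈ D ∪ N, v ∉ W \ D → ∀ w, H.Adj v w → w ∈ D ∪ N := by
        intro v hv hvR w hvw
        have hvD : v ∈ D := by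
          by_contra h
          exact hvR (Finset.mem_sdiff.2 ⟨hW v w hvw, h⟩)
        by_cases hw : ∃ i, c i = w
        · refine Finset.mem_union_right _ ?_
          rw [hN, Finset.mem_filter]
          exact ⟨hWr v w hvw, hw, v, hvD, hvw.symm⟩
        · refine Finset.mem_union_left _ (hDc v hvD w (hWr v w hvw) hvw fun h => ?_)
          exact hw (Finset.mem_filter.1 h).2
      have hR : ∀ v ∈ W \ D, v ∉ D ∪ N → ∀ w, H.Adj v w → w ∈ W \ D := by
        intro v hv hvL w hvw
        refine Finset.mem_sdiff.2 ⟨hWr v w hvw, fun hwD => ?_⟩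
        have hvW : v ∈ W := hW v w hvw
        by_cases hvc : ∃ i, c i = v
        · refine hvL (Finset.mem_union_right _ ?_)
          rw [hN, Finset.mem_filter]
          exact ⟨hvW, hvc, w, hwD, hvw⟩
        · refine hvL (Finset.mem_union_left _ (hDc w hwD v hvW hvw.symm fun h => ?_))
          exact hvc (Finset.mem_filter.1 h).2
      rcases hns (D ∪ N) (W \ D) hLR hcard hL hR with h | h
      · -- `c 0`, `c 1` are in `N`
        have h0 : ∀ i, c i ∈ N := by
          intro i
          have h1 : c i ∈ D ∪ N := by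
            rw [h]
            exact hW _ _ (hc.adj i)
          rcases Finset.mem_union.1 h1 with h2 | h2
          · exact absurd rfl ((hDi _ h2).2 i)
          · exact h2
        exact hN1 (Finset.one_lt_card.2 ⟨c 0, h0 0, c (0 + 1), h0 _, (hc.adj 0).ne⟩)
      · have h1 : x ∈ W \ D := by
          rw [h]
          exact hW x y hxy
        exact (Finset.mem_sdiff.1 h1).2 hxD
    obtain ⟨a, ha, b, hb', hab⟩ := Finset.one_lt_card.1 hN2
    rw [hN, Finset.mem_filter] at ha hb'
    obtain ⟨-, hac, x₁, hx₁, hax⟩ := ha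
    obtain ⟨-, hbc, y₁, hy₁, hby⟩ := hb'
    obtain ⟨i, d, hd, hdm, rfl, rfl⟩ := TpJ2_idx hc hac hbc hab
    obtain ⟨Q, hQ, hnd, hQD, hch⟩ := exists_path D hDD hx₁ hy₁ hax hby.symm
    refine hbig (bigger_side hF hle hτ hc hKF hτK hb hd hdm (fun h => absurd h hQ) hch hnd
      (fun v hv => (hDi v (hQD v hv)).2) fun u v huv t ht h => ?_)
    rcases TpJ2_infix hQ huv with h1 | h1
    · exact hDK u (hQD u h1) t ht h.1
    · exact hDK v (hQD v h1) t ht h.2
  refine ⟨m, c, K, hc, hKF, hτK, hb, fun x y hxy => ?_⟩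
  by_cases hx : inn c x
  · exact key x y hxy hx
  by_cases hy : inn c y
  · obtain ⟨t, ht, h1, h2⟩ := key y x hxy.symm hy
    exact ⟨t, ht, h2, h1⟩
  unfold inn at hx hy
  push Not at hx hy
  by_contra hcon
  push Not at hcon
  obtain ⟨i, d, hd, hdm, rfl, rfl⟩ := TpJ2_idx hc hx hy hxy.ne
  have hce : ¬ CE c (c i) (c (i + d)) := by
    intro h
    obtain ⟨⟨t, ht, h1, h2, -⟩, -⟩ := br_one hF hKF hb hxy.ne h (hle hxy)
    exact hcon t ht h1 h2
  have hd1 : d ≠ 1 := by
    rintro rfl
    exact hce ⟨i, Or.inl ⟨rfl, by norm_num⟩⟩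
  have hd2 : d + 1 ≠ m := by
    intro h
    refine hce ((ce_iff hc i _).2 (Or.inr ?_))
    rw [← hc.per (i - 1)]
    congr 1
    omega
  refine hbig (bigger_side hF hle hτ hc hKF hτK hb (i := i) hd hdm (Q := []) (fun _ => by omega) ?_
    List.nodup_nil (by simp) fun u v huv t ht h => ?_)
  · simpa using hxy
  · have h1 : [u, v] = [c i, c (i + d)] := List.IsInfix.eq_of_length huv (by simp)
    simp only [List.cons.injEq, and_true] at h1
    rw [h1.1, h1.2] at h
    exact hcon t ht h.1 h.2

end Pool.Agent.Lib.MP_a33b01_co_G5
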