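import Pool.Agent.Lib.MP_a33b01_co_G5.StB
import Pool.Agent.Lib.MP_a33b01_co_G5.TpG
import Pool.Agent.Lib.MP_a33b01_co_G5.TpJ

set_option autoImplicit false

/-!
# MP_a33b01_co, project G5: a cut vertex outside of the path
-/

namespace Pool.Agent.Lib.MP_a33b01_co_G5

open Classical
open Pool.Agent.Lib.MP_a33b01_co (Sph sk cn supp EvenG Removes Wg)

variable {V : Type} {F : Finset (Finset V)} {τ : Finset V} {H : SimpleGraph V}
  {S P A : Finset V} {n : ℕ}

/-- the data of a separation `L ∩ R = {x}` with `P ⊆ L` and `x ∉ P` -/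
structure Cut (H : SimpleGraph V) (S P L R : Finset V) (x : V) : Prop where
  un : L ∪ R = S ∪ P
  c₁ : ∀ x ∈ L, x ∉ R → ∀ y, H.Adj x y → y ∈ L
  c₂ : ∀ x ∈ R, x ∉ L → ∀ y, H.Adj x y → y ∈ R
  hL : L ≠ S ∪ P
  hR : R ≠ S ∪ P
  int : L ∩ R = {x}
  PL : P ⊆ L
  xP : x ∉ P

private theorem RdB1_min (sup : ∀ x y, H.Adj x y → x ∈ S ∪ P)
    (ns0 : ∀ L R : Finset V, L ∪ R = S ∪ P → L ∩ R = ∅ →
      (∀ x ∈ L, x ∉ R → ∀ y, H.Adj x y → y ∈ L) →
      (∀ x ∈ R, x ∉ L → ∀ y, H.Adj x y → y ∈ R) → L = S ∪ P ∨ R = S ∪ P)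
    {L R : Finset V} {x : V} (h : Cut H S P L R x)
    (hmin : ∀ (L' R' : Finset V) (y : V), Cut H S P L' R' y → R.card ≤ R'.card)
    {L' R' : Finset V} (hun : L' ∪ R' = R) (hint : (L' ∩ R').card ≤ 1)
    (hc1 : ∀ z ∈ L', z ∉ R' → ∀ y, (rs H R).Adj z y → y ∈ L')
    (hc2 : ∀ z ∈ R', z ∉ L' → ∀ y, (rs H R).Adj z y → y ∈ R') (hxL : x ∈ L') :
    L' = R ∨ R' = R := by
  by_contra hcon
  rw [not_or] at hcon
  have hL'R : L' ⊆ R := by
    rw [← hun]
    exact Finset.subset_union_left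
  have hR'R : R' ⊆ R := by
    rw [← hun]
    exact Finset.subset_union_right
  have hx : ∀ z, z ∈ L → z ∈ R → z = x := by
    intro z h1 h2
    have h3 : z ∈ L ∩ R := Finset.mem_inter.2 ⟨h1, h2⟩
    rw [h.int] at h3
    exact Finset.mem_singleton.1 h3
  have hRSP : R ⊆ S ∪ P := by
    rw [← h.un]
    exact Finset.subset_union_right
  have un' : (L ∪ L') ∪ R' = S ∪ P := by
    rw [Finset.union_assoc, hun, h.un]
  have c₁' : ∀ z ∈ L ∪ L', z ∉ R' → ∀ y, H.Adj z y → y ∈ L ∪ L' := by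
    intro z hz hzR y hzy
    have hy : y ∈ L ∪ R := by
      rw [h.un]
      exact sup y z hzy.symm
    by_cases hyL : y ∈ L
    · exact Finset.mem_union_left _ hyL
    · have hyR : y ∈ R := (Finset.mem_union.1 hy).resolve_left hyL
      have hzR2 : z ∈ R := h.c₂ y hyR hyL z hzy.symm
      have hzL' : z ∈ L' := by
        rw [← hun] at hzR2
        exact (Finset.mem_union.1 hzR2).resolve_right hzR
      exact Finset.mem_union_right _ (hc1 z hzL' hzR y ⟨hzy, hzR2, hyR⟩)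
  have c₂' : ∀ z ∈ R', z ∉ L ∪ L' → ∀ y, H.Adj z y → y ∈ R' := by
    intro z hz hzL y hzy
    rw [Finset.mem_union, not_or] at hzL
    have hyR := h.c₂ z (hR'R hz) hzL.1 y hzy
    exact hc2 z hz hzL.2 y ⟨hzy, hR'R hz, hyR⟩
  have hL' : L ∪ L' ≠ S ∪ P := by
    intro he
    apply hcon.1
    refine Finset.Subset.antisymm hL'R fun z hz => ?_
    have h1 : z ∈ L ∪ L' := by
      rw [he]
      exact hRSP hz
    rcases Finset.mem_union.1 h1 with h2 | h2
    · rw [hx z h2 hz]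
      exact hxL
    · exact h2
  have hR' : R' ≠ S ∪ P := by
    intro he
    apply h.hR
    refine Finset.Subset.antisymm hRSP ?_
    rw [← he]
    exact hR'R
  have int' : (L ∪ L') ∩ R' = L' ∩ R' := by
    ext z
    rw [Finset.mem_inter, Finset.mem_inter, Finset.mem_union]
    constructor
    · rintro ⟨h1 | h1, h2⟩
      · refine ⟨?_, h2⟩
        rw [hx z h1 (hR'R h2)]
        exact hxL
      · exact ⟨h1, h2⟩
    · rintro ⟨h1, h2⟩
      exact ⟨Or.inr h1, h2⟩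
  have hne : (L' ∩ R').card ≠ 0 := by
    intro h0
    rw [Finset.card_eq_zero] at h0
    rcases ns0 (L ∪ L') R' un' (int'.trans h0) c₁' c₂' with h1 | h1
    · exact hL' h1
    · exact hR' h1
  obtain ⟨y, hy⟩ := Finset.card_eq_one.1 (show (L' ∩ R').card = 1 by omega)
  have hyR' : y ∈ R' := by
    have h1 : y ∈ L' ∩ R' := by
      rw [hy]
      exact Finset.mem_singleton_self y
    exact (Finset.mem_inter.1 h1).2
  have hyP : y ∉ P := by
    intro h1
    have h2 := hx y (h.PL h1) (hR'R hyR')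
    rw [h2] at h1
    exact h.xP h1
  have hC : Cut H S P (L ∪ L') R' y :=
    ⟨un', c₁', c₂', hL', hR', int'.trans hy, h.PL.trans Finset.subset_union_left, hyP⟩
  exact hcon.2 (Finset.eq_of_subset_of_card_le hR'R (hmin _ _ _ hC))

/-- A cut with `R` as small as possible: then `rs H R` has no separation of order at most one.
Let `L', R'` be a separation of `rs H R` (w.l.o.g. `x ∈ L'`), `L' ≠ R`, `R' ≠ R`.  Then
`L ∪ L', R'` is a separation of `H` (`S ∪ P`) and `(L ∪ L') ∩ R' = L' ∩ R'` (if `x ∉ R'` use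
`L ∩ R' ⊆ L ∩ R = {x}`).  It is not empty by `ns0`, so it is `{y}`, `y ∈ R`, `y ∉ P` (because
`P ∩ R ⊆ {x}`, `x ∉ P`), and `R'` is smaller than `R`. -/
theorem cut_min (sup : ∀ x y, H.Adj x y → x ∈ S ∪ P)
    (ns0 : ∀ L R : Finset V, L ∪ R = S ∪ P → L ∩ R = ∅ →
      (∀ x ∈ L, x ∉ R → ∀ y, H.Adj x y → y ∈ L) →
      (∀ x ∈ R, x ∉ L → ∀ y, H.Adj x y → y ∈ R) → L = S ∪ P ∨ R = S ∪ P)
    {L R : Finset V} {x : V} (h : Cut H S P L R x)
    (hmin : ∀ (L' R' : Finset V) (y : V), Cut H S P L' R' y → R.card ≤ R'.card) :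
    NS (rs H R) R := by
  intro L' R' hun hint hc1 hc2
  have hxR : x ∈ R := by
    have h1 : x ∈ L ∩ R := by
      rw [h.int]
      exact Finset.mem_singleton_self x
    exact (Finset.mem_inter.1 h1).2
  rw [← hun] at hxR
  rcases Finset.mem_union.1 hxR with h1 | h1
  · exact RdB1_min sup ns0 h hmin hun hint hc1 hc2 h1
  · refine (RdB1_min sup ns0 h hmin (L' := R') (R' := L') ?_ ?_ hc2 hc1 h1).symm
    · rw [Finset.union_comm]
      exact hun
    · rw [Finset.inter_comm]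
      exact hint

/-- The cut vertex is on the outer region of `rs H R`: let `Y` be the set of the vertices of `L` on
the outer region of `rs H R`; it contains `P` (`out_mono`).  If `x ∉ Y` then the vertices of `Y`
are isolated in `rs H R`, so `Y` is closed under neighbours (`out_nbr`), and `Y`,
`(S ∪ P) \ Y` contradict `ns0`. -/
theorem cut_out (st : St F τ H S P A) (hP : P.Nonempty)
    (ns0 : ∀ L R : Finset V, L ∪ R = S ∪ P → L ∩ R = ∅ →
      (∀ x ∈ L, x ∉ R → ∀ y, H.Adj x y → y ∈ L) →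
      (∀ x ∈ R, x ∉ L → ∀ y, H.Adj x y → y ∈ R) → L = S ∪ P ∨ R = S ∪ P)
    {L R : Finset V} {x : V} (h : Cut H S P L R x) : Out F τ (rs H R) x := by
  by_contra hcon
  have hx : ∀ z, z ∈ L → z ∈ R → z = x := by
    intro z h1 h2
    have h3 : z ∈ L ∩ R := Finset.mem_inter.2 ⟨h1, h2⟩
    rw [h.int] at h3
    exact Finset.mem_singleton.1 h3
  have hLSP : L ⊆ S ∪ P := by
    rw [← h.un]
    exact Finset.subset_union_left
  have hxL : x ∈ L := by
    have h1 : x ∈ L ∩ R := by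
      rw [h.int]
      exact Finset.mem_singleton_self x
    exact (Finset.mem_inter.1 h1).1
  set Y : Finset V := L.filter fun v => Out F τ (rs H R) v with hY
  have hYm : ∀ v, v ∈ Y ↔ v ∈ L ∧ Out F τ (rs H R) v := fun v => Finset.mem_filter
  have hPY : ∀ p ∈ P, p ∈ Y := fun p hp =>
    (hYm p).2 ⟨h.PL hp, out_mono (rs_le R) (st.outP p hp)⟩
  have hcl : ∀ v ∈ Y, ∀ y, H.Adj v y → y ∈ Y := by
    intro v hv y hvy
    rw [hYm] at hv
    have hvR : v ∉ R := fun h1 => hcon (hx v hv.1 h1 ▸ hv.2)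
    refine (hYm y).2 ⟨h.c₁ v hv.1 hvR y hvy, ?_⟩
    exact out_nbr st.gd.sph st.tF (fun z hz => hvR hz.2.1) hv.2 (st.gd.le hvy)
  have hY1 : Y ∪ ((S ∪ P) \ Y) = S ∪ P :=
    Finset.union_sdiff_of_subset fun v hv => hLSP ((hYm v).1 hv).1
  have hY2 : ∀ v ∈ (S ∪ P) \ Y, v ∉ Y → ∀ y, H.Adj v y → y ∈ (S ∪ P) \ Y := by
    intro v hv _ y hvy
    rw [Finset.mem_sdiff] at hv ⊢
    exact ⟨st.sup y v hvy.symm, fun h2 => hv.2 (hcl y h2 v hvy.symm)⟩
  rcases ns0 Y ((S ∪ P) \ Y) hY1 (Finset.inter_sdiff_self Y (S ∪ P))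
    (fun v hv _ y hvy => hcl v hv y hvy) hY2 with h1 | h1
  · have h2 : x ∈ Y := by
      rw [h1]
      exact hLSP hxL
    exact hcon ((hYm x).1 h2).2
  · obtain ⟨p, hp⟩ := hP
    have h2 : p ∈ (S ∪ P) \ Y := by
      rw [h1]
      exact Finset.mem_union_right _ hp
    exact (Finset.mem_sdiff.1 h2).2 (hPY p hp)

end Pool.Agent.Lib.MP_a33b01_co_G5
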