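import Pool.Agent.Lib.MP_a33b01_co_G5.StB
import Pool.Agent.Lib.MP_a33b01_co_G5.DcA

set_option autoImplicit false

/-!
# MP_a33b01_co, project G5: extension and shortening of the path
-/

namespace Pool.Agent.Lib.MP_a33b01_co_G5

open Classical
open Pool.Agent.Lib.MP_a33b01_co (Sph sk cn supp EvenG Removes Wg)

variable {V : Type} {F K : Finset (Finset V)} {τ : Finset V} {H : SimpleGraph V}
  {S P A : Finset V} {m q k n : ℕ} {c : ℤ → V}

private theorem RdC_outE (h : Ctx F τ H S P A m c K q k n) {W : Finset V} (i : ℤ)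
    (h1 : c i ∈ W) (h2 : c (i + 1) ∈ W) : OutE F τ (rs H W) (c i) (c (i + 1)) := by
  refine outE_mono (rs_le W) ⟨h.bd.cy.adj i, h1, h2⟩ ?_
  rw [bd_outE h.st.gd.sph h.st.gd.le h.st.tF h.bd]
  exact ⟨i, Or.inl ⟨rfl, rfl⟩⟩

private theorem RdC_ext (h : Ctx F τ H S P A m c K q k n) (hn : NoCh H m c) (hq : q = 1)
    (h9 : 9 ≤ m) (e : ℕ) (he1 : 1 ≤ e) (he2 : e ≤ 2) (hA1 : e = 1 → c 2 ∉ A)
    (hA2 : e = 2 → c 2 ∈ A) : Cl H S P A := by
  have hm := h.hm
  have st := h.st
  have hc := h.bd.cy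
  have hPc := h.Pcard
  have hP0 : ∀ p ∈ P, p = c 0 := by
    intro p hp
    obtain ⟨i, h1, h2, h3⟩ := (h.hP p).1 hp
    have h4 : i = 0 := by omega
    rw [← h3, h4]
  have hDm : ∀ x, x ∈ (arc c 1 e).toFinset ↔ ∃ i : ℤ, 1 ≤ i ∧ i < 1 + e ∧ c i = x := by
    intro x
    rw [List.mem_toFinset, mem_arc]
  have hlm : ∀ x, x ∈ arc c 0 (e + 1) ↔ ∃ i : ℤ, 0 ≤ i ∧ i < 0 + (e + 1 : ℕ) ∧ c i = x := by
    intro x
    rw [mem_arc]
  have hDS : (arc c 1 e).toFinset ⊆ S := by
    intro x hx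
    obtain ⟨i, h1, h2, rfl⟩ := (hDm x).1 hx
    exact (h.cS h1 (by omega)).1
  have hPDl : ∀ x, x ∈ P ∨ x ∈ (arc c 1 e).toFinset → x ∈ arc c 0 (e + 1) := by
    intro x hx
    rw [hlm]
    rcases hx with hx | hx
    · exact ⟨0, le_rfl, by omega, (hP0 x hx).symm⟩
    · obtain ⟨i, h1, h2, rfl⟩ := (hDm x).1 hx
      exact ⟨i, by omega, by push_cast; omega, rfl⟩
  have hl : ∀ x ∈ arc c 0 (e + 1), x ∈ P ∨ x ∈ (arc c 1 e).toFinset := by
    intro x hx
    obtain ⟨i, h1, h2, rfl⟩ := (hlm x).1 hx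
    push_cast at h2
    rcases h1.eq_or_lt with h3 | h3
    · left
      rw [← h3]
      exact (h.cP (by omega) le_rfl).1
    · right
      exact (hDm _).2 ⟨i, by omega, by omega, rfl⟩
  have hDc : (arc c 1 e).toFinset.card = e := by
    rw [List.toFinset_card_of_nodup (arc_nodup hc 1 (by omega)), arc_length]
  have hlc : (arc c 0 (e + 1)).toFinset.card ≤ e + 1 :=
    (List.toFinset_card_le _).trans (arc_length _ _).le
  have hSc := Finset.card_sdiff_add_card_eq_card hDS
  -- the members of the new set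
  have hnew : ∀ a ∈ newA H (S \ (arc c 1 e).toFinset) P (arc c 1 e).toFinset
      (arc c 0 (e + 1)) A, a ∈ A ∧ ∃ t : ℤ, 3 ≤ t ∧ t ≤ (k : ℤ) - 1 ∧ c t = a := by
    intro a ha
    rw [newA, Finset.mem_filter] at ha
    obtain ⟨haS, haA | ⟨d, hd, hdl, _⟩⟩ := ha
    · refine ⟨haA, ?_⟩
      obtain ⟨t, h1, h2, h3⟩ := h.Aidx haA
      refine ⟨t, ?_, h2, h3⟩
      by_contra hcon
      have h4 : t = 2 := by omega
      rw [h4] at h3
      have h5 : e = 2 := by
        by_contra h6
        exact hA1 (by omega) (h3 ▸ haA)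
      exact (Finset.mem_sdiff.1 haS).2 ((hDm a).2 ⟨2, by omega, by omega, h3⟩)
    · exact absurd (hPDl d (Finset.mem_union.1 hd)) hdl
  have hlW : ∀ i : ℤ, 0 ≤ i → i ≤ e →
      c i ∈ (S \ (arc c 1 e).toFinset) ∪ (arc c 0 (e + 1)).toFinset := by
    intro i h1 h2
    refine Finset.mem_union_right _ (List.mem_toFinset.2 ((hlm _).2 ⟨i, h1, ?_, rfl⟩))
    push_cast
    omega
  have hch : (arc c 0 (e + 1)).IsChain
      (OutE F τ (rs H ((S \ (arc c 1 e).toFinset) ∪ (arc c 0 (e + 1)).toFinset))) := by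
    refine arc_chain fun i h1 h2 => ?_
    push_cast at h2
    exact RdC_outE h i (hlW i h1 (by omega)) (hlW (i + 1) (by omega) (by omega))
  have hout : ∀ i : ℤ, 0 ≤ i → i ≤ e →
      Out F τ (rs H ((S \ (arc c 1 e).toFinset) ∪ (arc c 0 (e + 1)).toFinset)) (c i) := by
    intro i h1 h2
    rcases h1.eq_or_lt with h3 | h3
    · have h4 := RdC_outE h 0 (hlW 0 le_rfl (by omega)) (hlW (0 + 1) (by omega) (by omega))
      rw [← h3]
      exact (outE_out h4).1
    · have h4 := RdC_outE h (i - 1) (hlW (i - 1) (by omega) (by omega))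
        (hlW (i - 1 + 1) (by omega) (by omega))
      have h5 := (outE_out h4).2
      rwa [sub_add_cancel] at h5
  refine gdel' h.ih st (S' := S \ (arc c 1 e).toFinset) (D := (arc c 1 e).toFinset)
    (l := arc c 0 (e + 1)) (k₀ := 0) ?_ Finset.disjoint_sdiff ?_ hl
    (arc_nodup hc 0 (by omega)) ?_ hch ?_ ?_ ?_ ?_ ?_ ?_ (by simp)
  · exact Finset.union_sdiff_of_subset hDS
  · have := h.hn
    unfold mu at this ⊢
    omega
  · rw [arc_length]
    omega
  · intro x hx
    obtain ⟨i, h1, h2, rfl⟩ := (hlm x).1 hx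
    push_cast at h2
    exact hout i h1 (by omega)
  · intro x hx hxl
    exact absurd (hPDl x hx) hxl
  · intro a ha b hb
    exact st.ind a (hnew a ha).1 b (hnew b hb).1
  · intro a ha x hx hax
    obtain ⟨haA, t, h1, h2, rfl⟩ := hnew a ha
    obtain ⟨i, h3, h4, rfl⟩ := (hlm x).1 hx
    push_cast at h4
    have h5 : i < t := by omega
    rcases noch_idx h hn (i := i) (j := t) (by omega) h5 (by omega) hax.symm with h6 | h6
    · have h7 : i = 2 := by omega
      have h8 : e = 2 := by omega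
      rw [h7] at hax
      exact st.ind _ haA _ (hA2 h8) hax
    · omega
  · intro u _
    have h1 : ((P ∪ (arc c 1 e).toFinset).filter
        fun x => x ∉ arc c 0 (e + 1) ∧ H.Adj u x) = ∅ := by
      rw [Finset.filter_eq_empty_iff]
      intro x hx hx'
      exact hx'.1 (hPDl x (Finset.mem_union.1 hx))
    rw [h1, Finset.card_empty, add_zero]
    split_ifs <;> omega
  · refine rem_list (arc c 1 e) (arc_nodup hc 1 (by omega)) _ ?_
    intro l₁ l₂ x hx
    cases l₁ with
    | nil => simp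
    | cons y l₁ =>
      have hlen := congrArg List.length hx
      rw [arc_length, List.length_append, List.length_cons, List.length_cons] at hlen
      have h1 : l₁ = [] := by
        rw [← List.length_eq_zero_iff]
        omega
      have h2 : e = 2 := by omega
      subst h1 h2
      have h3 : arc c 1 2 = [c 1, c 2] := by
        simp [arc, List.range_succ]
      rw [h3] at hx
      simp only [List.cons_append, List.nil_append, List.cons.injEq] at hx
      obtain ⟨rfl, rfl, -⟩ := hx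
      have h4 : fv H P A (c 2) = 1 := by
        have h5 : (P.filter fun p => H.Adj (c 2) p) = ∅ := by
          rw [Finset.filter_eq_empty_iff]
          intro p hp
          exact st.AP _ (hA2 rfl) p hp
        unfold fv
        rw [if_pos (hA2 rfl), h5]
        rfl
      rw [h4]
      refine (Finset.card_filter_le _ _).trans ?_
      simp

/-- `q = 1`: `P = {c 0}`, `k ≥ 8`.  `gdel'` with `D = {c 1}`, `l = [c 0, c 1]`, or, if `c 2 ∈ A`,
`D = {c 1, c 2}`, `l = [c 0, c 1, c 2]`; `S' = S \ D`, `k₀ = 0`.  All of `P ∪ D` is in `l`, so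
`newA = A ∩ S'`; a member `c t` of it has `t ≥ 3`, so it is not adjacent to `c 0` (`st.AP`), to
`c 1` (`noch_idx`, `c 2 ∉ newA`) or to `c 2 ∈ A`.  Outer edges: `bd_outE`, `outE_mono`.  The
removal: `rem_list` (`fv (c 2) = 1`).  The measure is `7 |S| - 7 |D| + 6 (1 + |D|)`. -/
theorem cl_q1 (h : Ctx F τ H S P A m c K q k n) (hn : NoCh H m c) (hq : q = 1) (h9 : 9 ≤ m) :
    Cl H S P A := by
  by_cases hA : c 2 ∈ A
  · exact RdC_ext h hn hq h9 2 (by omega) le_rfl (by omega) (fun _ => hA)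
  · exact RdC_ext h hn hq h9 1 le_rfl (by omega) (fun _ => hA) (by omega)

/-- `c 2 ∉ A`: `gdel'` with `D = ∅`, `S' = S`, `l = arc c (1 - q) (q - 1)` (the vertex `c 0` is
taken out of the path), `k₀ = 0`.  `newA = A ∪ (N(c 0) ∩ S)`.  A neighbour of `c 0` in `S` is
`c 1` or it is inside the cycle (`noch_idx`, `k ≥ 2`).  Two of them are not adjacent (`gd.tri`);
`a = c t ∈ A` (`Ctx.Aidx`) is not adjacent to `c 1` (`t ≠ 2`, `noch_idx`) nor to a neighbour
inside (`twoP`: `j = 0`).  `hAl`: `st.AP`; a neighbour of `c 0` has no other neighbour in `P`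
(`noch_idx`, `twoPP`).  `h1`: at most one of `u ∈ A`, `H.Adj u (c 0)` holds (`st.AP`).
`hmu`: `mu_lt`.  `Rem.nil`. -/
theorem cl_F1 (h : Ctx F τ H S P A m c K q k n) (hn : NoCh H m c) (hq : 2 ≤ q) (hk : 3 ≤ k)
    (twoP : ∀ z, inn c z → ∀ i j : ℤ, 1 ≤ i → i ≤ k → -(q : ℤ) < j → j ≤ 0 → H.Adj z (c i) →
      H.Adj z (c j) → q = 6 ∧ ((i = 1 ∧ j = -2) ∨ (i = k ∧ j = -3)))
    (twoPP : ∀ z, inn c z → ∀ i j : ℤ, -(q : ℤ) < i → i < j → j ≤ 0 → H.Adj z (c i) →
      ¬ H.Adj z (c j))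
    (hA : c 2 ∉ A) : Cl H S P A := by
  have hm := h.hm
  have st := h.st
  have hc := h.bd.cy
  have hPc := h.Pcard
  have hq6 := h.q6
  have hlm : ∀ x, x ∈ arc c (1 - q) (q - 1) ↔ ∃ i : ℤ, -(q : ℤ) < i ∧ i < 0 ∧ c i = x := by
    intro x
    rw [mem_arc]
    constructor
    · rintro ⟨i, h1, h2, h3⟩
      exact ⟨i, by omega, by omega, h3⟩
    · rintro ⟨i, h1, h2, h3⟩
      exact ⟨i, by omega, by omega, h3⟩
  have hlP : ∀ x ∈ arc c (1 - q) (q - 1), x ∈ P := by
    intro x hx
    obtain ⟨i, h1, h2, rfl⟩ := (hlm x).1 hx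
    exact (h.cP h1 (by omega)).1
  have hP0 : ∀ p ∈ P, p ∉ arc c (1 - q) (q - 1) → p = c 0 := by
    intro p hp hpl
    obtain ⟨i, h1, h2, h3⟩ := (h.hP p).1 hp
    rcases h2.eq_or_lt with h4 | h4
    · rw [← h3, h4]
    · exact absurd ((hlm p).2 ⟨i, h1, h4, h3⟩) hpl
  have hlc : (arc c (1 - q) (q - 1)).toFinset.card ≤ q - 1 :=
    (List.toFinset_card_le _).trans (arc_length _ _).le
  -- the neighbours of `c 0`
  have hnb : ∀ u ∈ S, H.Adj u (c 0) → u = c 1 ∨ inn c u := by
    intro u hu hu0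
    by_cases hin : inn c u
    · exact Or.inr hin
    · left
      have hex : ∃ i, c i = u := by
        by_contra hcon
        exact hin fun i hi => hcon ⟨i, hi⟩
      obtain ⟨s, h1, h2, h3⟩ := h.cidx hex
      have h4 : 1 ≤ s := by
        by_contra hcon
        have h5 := (h.cP h1 (by omega)).2
        rw [h3] at h5
        exact h5 hu
      rw [← h3] at hu0
      rcases noch_idx h hn (i := 0) (j := s) (by omega) (by omega) h2 hu0.symm with h5 | h5
      · rw [← h3, h5, zero_add]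
      · omega
  have hnew : ∀ a ∈ newA H S P ∅ (arc c (1 - q) (q - 1)) A,
      a ∈ A ∨ (a ∈ S ∧ H.Adj a (c 0)) := by
    intro a ha
    rw [newA, Finset.mem_filter] at ha
    obtain ⟨haS, haA | ⟨d, hd, hdl, had⟩⟩ := ha
    · exact Or.inl haA
    · rw [Finset.union_empty] at hd
      rw [hP0 d hd hdl] at had
      exact Or.inr ⟨haS, had⟩
  have hAA : ∀ a ∈ A, ∀ b ∈ S, H.Adj b (c 0) → ¬ H.Adj a b := by
    intro a ha b hb hb0 hab
    obtain ⟨t, h1, h2, rfl⟩ := h.Aidx ha
    have h3 : t ≠ 2 := by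
      intro h4
      rw [h4] at ha
      exact hA ha
    rcases hnb b hb hb0 with rfl | hin
    · rcases noch_idx h hn (i := 1) (j := t) (by omega) (by omega) (by omega) hab.symm with
        h5 | h5
      · omega
      · omega
    · have h5 := twoP b hin t 0 (by omega) (by omega) (by omega) le_rfl hab.symm hb0
      omega
  refine gdel' h.ih st (S' := S) (D := ∅) (l := arc c (1 - q) (q - 1)) (k₀ := 0)
    (Finset.empty_union S) (Finset.disjoint_empty_left S) ?_ (fun x hx => Or.inl (hlP x hx))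
    (arc_nodup hc _ (by omega)) ?_ ?_ ?_ ?_ ?_ ?_ ?_ (Rem.nil _ _) (by simp)
  · have := h.hn
    unfold mu at this ⊢
    omega
  · rw [arc_length]
    omega
  · refine arc_chain fun i h1 h2 => ?_
    refine RdC_outE h i (Finset.mem_union_right _ (List.mem_toFinset.2 ((hlm _).2 ⟨i, ?_, ?_,
      rfl⟩))) (Finset.mem_union_right _ (List.mem_toFinset.2 ((hlm _).2 ⟨i + 1, ?_, ?_, rfl⟩)))
    all_goals omega
  · intro x hx
    exact out_mono (rs_le _) (st.outP x (hlP x hx))
  · intro x hx _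
    rcases hx with hx | hx
    · exact out_mono (rs_le _) (st.outP x hx)
    · simp at hx
  · intro a ha b hb hab
    rcases hnew a ha with h1 | h1
    · rcases hnew b hb with h2 | h2
      · exact st.ind a h1 b h2 hab
      · exact hAA a h1 b h2.1 h2.2 hab
    · rcases hnew b hb with h2 | h2
      · exact hAA b h2 a h1.1 h1.2 hab.symm
      · exact st.gd.tri a b (c 0) hab h2.2 h1.2
  · intro a ha x hx hax
    rcases hnew a ha with h1 | h1
    · exact st.AP a h1 x (hlP x hx) hax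
    · obtain ⟨i, h3, h4, rfl⟩ := (hlm x).1 hx
      rcases hnb a h1.1 h1.2 with rfl | hin
      · rcases noch_idx h hn (i := i) (j := 1) (by omega) (by omega) (by omega) hax.symm with
          h5 | h5
        · omega
        · omega
      · exact twoPP a hin i 0 h3 h4 le_rfl hax h1.2
  · intro u hu
    by_cases huA : u ∈ A
    · have h1 : ((P ∪ ∅).filter fun x => x ∉ arc c (1 - q) (q - 1) ∧ H.Adj u x) = ∅ := by
        rw [Finset.filter_eq_empty_iff, Finset.union_empty]
        intro x hx hx'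
        exact st.AP u huA x hx hx'.2
      rw [h1, if_pos huA, Finset.card_empty]
    · rw [if_neg huA, zero_add]
      refine (Finset.card_le_card (t := {c 0}) ?_).trans (by simp)
      intro x hx
      rw [Finset.mem_filter, Finset.union_empty] at hx
      rw [Finset.mem_singleton]
      exact hP0 x hx.1 hx.2.1

/-- The mirror image of `cl_F1` (`Ctx.mirror`). -/
theorem cl_F1' (h : Ctx F τ H S P A m c K q k n) (hn : NoCh H m c) (hq : 2 ≤ q) (hk : 3 ≤ k)
    (twoP : ∀ z, inn c z → ∀ i j : ℤ, 1 ≤ i → i ≤ k → -(q : ℤ) < j → j ≤ 0 → H.Adj z (c i) →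
      H.Adj z (c j) → q = 6 ∧ ((i = 1 ∧ j = -2) ∨ (i = k ∧ j = -3)))
    (twoPP : ∀ z, inn c z → ∀ i j : ℤ, -(q : ℤ) < i → i < j → j ≤ 0 → H.Adj z (c i) →
      ¬ H.Adj z (c j))
    (hA : c (k - 1) ∉ A) : Cl H S P A := by
  have hm := h.hm
  have hm' : (m : ℤ) = q + k := by
    rw [hm]
    push_cast
    ring
  have hcy := h.bd.cy
  have hrefl' : ∀ t : ℤ, c ((k : ℤ) + 1 - t) = c (1 - q - t) := by
    intro t
    have e : (k : ℤ) + 1 - t = 1 - q - t + m := by
      rw [hm']
      ring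
    rw [e]
    exact hcy.per _
  have hin : ∀ z, inn (fun i => c ((k : ℤ) + 1 - i)) z → inn c z := by
    intro z hz r
    have h1 := hz ((k : ℤ) + 1 - r)
    have e : (k : ℤ) + 1 - ((k : ℤ) + 1 - r) = r := by ring
    beta_reduce at h1
    rwa [e] at h1
  refine cl_F1 h.mirror ?_ hq hk ?_ ?_ ?_
  · intro s t hst
    rcases hn _ _ hst with h1 | h1
    · right
      have e : (k : ℤ) + 1 - t - ((k : ℤ) + 1 - s) - 1 = s - t - 1 := by ring
      rwa [e] at h1
    · left
      have e : (k : ℤ) + 1 - s - ((k : ℤ) + 1 - t) - 1 = t - s - 1 := by ring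
      rwa [e] at h1
  · intro z hz s t hs hsk ht ht0 hzs hzt
    beta_reduce at hzt
    rw [hrefl'] at hzt
    have h1 := twoP z (hin z hz) ((k : ℤ) + 1 - s) (1 - q - t) (by omega) (by omega) (by omega)
      (by omega) hzs hzt
    omega
  · intro z hz s t hs hst ht hzs hzt
    beta_reduce at hzs hzt
    rw [hrefl'] at hzs hzt
    exact twoPP z (hin z hz) (1 - q - t) (1 - q - s) (by omega) (by omega) (by omega) hzt hzs
  · have e : (k : ℤ) + 1 - 2 = k - 1 := by ring
    beta_reduce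
    rwa [e]

end Pool.Agent.Lib.MP_a33b01_co_G5
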