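import Pool.Agent.Lib.MP_a33b01_co_G5.FS
import Pool.Agent.Lib.MP_a33b01_co_G5.FW
import Pool.Agent.Lib.MP_a33b01_co_G5.FX
import Pool.Agent.Lib.MP_a33b01_co_G5.F3
import Pool.Agent.Lib.MP_a33b01_co_G5.RdA
import Pool.Agent.Lib.MP_a33b01_co_G5.RdB
import Pool.Agent.Lib.MP_a33b01_co_G5.RdC
import Pool.Agent.Lib.MP_a33b01_co_G5.DcB
import Pool.Agent.Lib.MP_a33b01_co_G5.TpJ
import Pool.Agent.Lib.MP_a33b01_co_G5.ChD

set_option autoImplicit false

/-!
# MP_a33b01_co, project G5: the induction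
-/

namespace Pool.Agent.Lib.MP_a33b01_co_G5

open Classical
open Pool.Agent.Lib.MP_a33b01_co (Sph sk cn supp EvenG Removes Wg)

variable {V : Type} {F K : Finset (Finset V)} {τ : Finset V} {H : SimpleGraph V}
  {S P A : Finset V} {m q k n : ℕ} {c : ℤ → V}

theorem minimal_int {p : ℤ → Prop} {a b : ℤ} (hab : ∃ s, a ≤ s ∧ s < b ∧ p s) :
    ∃ t, a ≤ t ∧ t < b ∧ p t ∧ ∀ s, a ≤ s → s < t → ¬ p s := by
  obtain ⟨s, h1, h2, h3⟩ := hab
  have hex : ∃ j : ℕ, p (a + j) ∧ a + (j : ℤ) < b := ⟨(s - a).toNat, by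
    rw [Int.toNat_of_nonneg (by omega)]
    refine ⟨?_, by omega⟩
    rw [show a + (s - a) = s by ring]
    exact h3⟩
  refine ⟨a + (Nat.find hex : ℕ), by omega, (Nat.find_spec hex).2, (Nat.find_spec hex).1, ?_⟩
  intro s' hs1 hs2 hs3
  have := Nat.find_min hex (m := (s' - a).toNat) (by omega)
  apply this
  rw [Int.toNat_of_nonneg (by omega)]
  refine ⟨?_, ?_⟩
  · rw [show a + (s' - a) = s' by ring]; exact hs3
  · have := (Nat.find_spec hex).2; omega

theorem fin_cl (h : FC F τ H S P A m c K q k n) : Cl H S P A := by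
  have hk3 := h.k3
  -- the greatest `r`
  have hA : ∀ r : ℤ, 1 ≤ r → 2 * r ≤ k → c (2 * r) ∈ A → 2 * r + 1 ≤ k := by
    intro r h1 h2 h3
    obtain ⟨i, hi1, hi2, hi3⟩ := h.ctx.Aidx h3
    have hq1 := h.ctx.q1
    have := h.ctx.inj (i := i) (j := 2 * r) (by omega) (by omega) (by omega) (by omega) hi3
    omega
  obtain ⟨r, hr1, hrk, hr, hmax⟩ : ∃ r : ℤ, 1 ≤ r ∧ 2 * r ≤ k ∧
      (∀ s : ℤ, 1 ≤ s → s ≤ r → c (2 * s) ∈ A) ∧ (2 * (r + 1) ≤ k → c (2 * (r + 1)) ∉ A) := by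
    by_cases hex : ∃ s : ℤ, 1 ≤ s ∧ s < k + 1 ∧ (2 * (s + 1) ≤ k → c (2 * (s + 1)) ∉ A)
    · obtain ⟨r, h1, h2, h3, h4⟩ := minimal_int hex
      have h4' : ∀ s : ℤ, 1 ≤ s → s < r → 2 * (s + 1) ≤ k ∧ c (2 * (s + 1)) ∈ A := by
        intro s hs1 hs2
        have := h4 s hs1 hs2
        push Not at this
        exact this
      refine ⟨r, h1, ?_, ?_, h3⟩
      · rcases eq_or_lt_of_le h1 with h5 | h5
        · subst h5; omega
        · have := (h4' (r - 1) (by omega) (by omega)).1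
          omega
      · intro s hs1 hs2
        rcases eq_or_lt_of_le hs1 with h5 | h5
        · subst h5; simpa using h.a2
        · have := (h4' (s - 1) (by omega) (by omega)).2
          rwa [show s - 1 + 1 = s by ring] at this
    · push Not at hex
      have := (hex k (by omega) (by omega)).1
      omega
  have hrk' := hA r hr1 hrk (hr r hr1 le_rfl)
  rcases eq_or_lt_of_le hrk' with hW | hN
  · -- case W
    by_cases hex : ∃ s : ℤ, 1 ≤ s ∧ s < r + 1 ∧ ∃ u x, Cf H c (2 * s) u x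
    · obtain ⟨t, h1, h2, ⟨u, x, h3⟩, h4⟩ := minimal_int hex
      rcases eq_or_lt_of_le h1 with h5 | h5
      · subst h5
        rcases eq_or_lt_of_le hr1 with h6 | h6
        · exact cl_F3 h (by simpa using h3) (by omega)
        · exact cl_FX h (by simpa using h3) (by simpa using hr 2 (by norm_num) (by omega))
      · exact cl_FS h (t := t) (by omega) (by omega) (fun s hs hs' => hr s hs (by omega)) h3
          (fun s hs hs' u x hf => h4 s hs hs' ⟨u, x, hf⟩)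
    · push Not at hex
      exact cl_FW h hW hr (fun s hs hs' u x hf => hex s hs (by omega) u x hf)
  · by_cases hex : ∃ s : ℤ, 1 ≤ s ∧ s < r ∧ ∃ u x, Cf H c (2 * s) u x
    · obtain ⟨t, h1, h2, ⟨u, x, h3⟩, h4⟩ := minimal_int hex
      rcases eq_or_lt_of_le h1 with h5 | h5
      · subst h5
        exact cl_FX h (by simpa using h3) (by simpa using hr 2 (by norm_num) (by omega))
      · exact cl_FS h (t := t) (by omega) (by omega) (fun s hs hs' => hr s hs (by omega)) h3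
          (fun s hs hs' u x hf => h4 s hs hs' ⟨u, x, hf⟩)
    · push Not at hex
      exact cl_FN h hr1 hr (by omega) (by
        have := hmax (by omega)
        rwa [show 2 * (r + 1) = 2 * r + 2 by ring] at this)
        (fun s hs hs' u x hf => hex s hs (by omega) u x hf)

theorem ctx_cl (h : Ctx F τ H S P A m c K q k n) (hS : S.Nonempty) : Cl H S P A := by
  rcases noch_or h with h1 | hn
  · exact h1
  by_cases hsh : Short F τ H
  swap
  · unfold Short at hsh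
    push Not at hsh
    obtain ⟨l, z, K', hc, h8, hK, hτ, hb, v, ⟨y, hy⟩, hi, ho⟩ := hsh
    exact cl_sepc h.ih h.st h.hn.le hc h8 hK hτ hb (h.st.sup v y hy) hi ho
  have h9 := m9_of h hS hn hsh
  have hm := h.hm
  have hq1 := h.q1
  have hq6 := h.q6
  have hk : 3 ≤ k := by omega
  by_cases two : ∃ z, inn c z ∧ ∃ i j : ℤ, 1 ≤ i ∧ i < j ∧ j ≤ k ∧ H.Adj z (c i) ∧ H.Adj z (c j)
  · exact cl_dSS h hn two
  replace two : ∀ z, inn c z → ∀ i j : ℤ, 1 ≤ i → i < j → j ≤ k → H.Adj z (c i) →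
      ¬ H.Adj z (c j) := fun z hz i j h1 h2 h3 h4 h5 => two ⟨z, hz, i, j, h1, h2, h3, h4, h5⟩
  by_cases twoP : ∃ z, inn c z ∧ ∃ i j : ℤ, 1 ≤ i ∧ i ≤ k ∧ -(q : ℤ) < j ∧ j ≤ 0 ∧
      H.Adj z (c i) ∧ H.Adj z (c j) ∧ ¬ (q = 6 ∧ ((i = 1 ∧ j = -2) ∨ (i = k ∧ j = -3)))
  · exact cl_dSP h hn hk two twoP
  replace twoP : ∀ z, inn c z → ∀ i j : ℤ, 1 ≤ i → i ≤ k → -(q : ℤ) < j → j ≤ 0 →
      H.Adj z (c i) → H.Adj z (c j) → q = 6 ∧ ((i = 1 ∧ j = -2) ∨ (i = k ∧ j = -3)) := by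
    intro z hz i j h1 h2 h3 h4 h5 h6
    by_contra h7
    exact twoP ⟨z, hz, i, j, h1, h2, h3, h4, h5, h6, h7⟩
  by_cases twoPP : ∃ x, inn c x ∧ ∃ i j : ℤ, -(q : ℤ) < i ∧ i < j ∧ j ≤ 0 ∧ H.Adj x (c i) ∧
      H.Adj x (c j)
  · exact cl_dPP h twoP hk twoPP
  replace twoPP : ∀ z, inn c z → ∀ i j : ℤ, -(q : ℤ) < i → i < j → j ≤ 0 → H.Adj z (c i) →
      ¬ H.Adj z (c j) := fun z hz i j h1 h2 h3 h4 h5 => twoPP ⟨z, hz, i, j, h1, h2, h3, h4, h5⟩
  by_cases hq : q = 1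
  · exact cl_q1 h hn hq h9
  have hq2 : 2 ≤ q := by omega
  by_cases a2 : c 2 ∈ A
  swap
  · exact cl_F1 h hn hq2 hk twoP twoPP a2
  by_cases ak : c (k - 1) ∈ A
  swap
  · exact cl_F1' h hn hq2 hk twoP twoPP ak
  by_cases three : ∃ x y, inn c x ∧ inn c y ∧ H.Adj x y ∧ ∃ i j : ℤ, 1 ≤ i ∧ i + 3 ≤ j ∧
      j ≤ k ∧ H.Adj (c i) x ∧ H.Adj y (c j)
  · obtain ⟨x, y, h1, h2, h3, i, j, h4, h5, h6, h7, h8⟩ := three
    exact cl_tSS h hn two h1 h2 h3 h4 h5 h6 h7 h8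
  by_cases threeL : ∃ x y, inn c x ∧ inn c y ∧ H.Adj x y ∧ ∃ i j : ℤ, 1 ≤ i ∧ i < k ∧
      -(q : ℤ) < j ∧ j ≤ 2 - q ∧ H.Adj (c i) y ∧ H.Adj x (c j)
  · obtain ⟨x, y, h1, h2, h3, i, j, h4, h5, h6, h7, h8, h9⟩ := threeL
    exact cl_tSP h hn hq2 two twoP h1 h2 h3 h4 h5 h6 h7 h8 h9
  by_cases threeR : ∃ x y, inn c x ∧ inn c y ∧ H.Adj x y ∧ ∃ i j : ℤ, 1 < i ∧ i ≤ k ∧
      -1 ≤ j ∧ j ≤ 0 ∧ H.Adj (c i) y ∧ H.Adj x (c j)
  · obtain ⟨x, y, h1, h2, h3, i, j, h4, h5, h6, h7, h8, h9⟩ := threeR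
    exact cl_tSP' h hn hq2 two twoP h1 h2 h3 h4 h5 h6 h7 h8 h9
  refine fin_cl (m := m) (c := c) (K := K) (q := q) (k := k) (n := n) (τ := τ) (F := F)
    ⟨h, hq2, h9, hn, hsh, two, twoP, twoPP, a2, ak, ?_, ?_, ?_⟩
  · intro x y h1 h2 h3 i j h4 h5 h6 h7 h8
    exact three ⟨x, y, h1, h2, h3, i, j, h4, h5, h6, h7, h8⟩
  · intro x y h1 h2 h3 i j h4 h5 h6 h7 h8 h9
    exact threeL ⟨x, y, h1, h2, h3, i, j, h4, h5, h6, h7, h8, h9⟩
  · intro x y h1 h2 h3 i j h4 h5 h6 h7 h8 h9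
    exact threeR ⟨x, y, h1, h2, h3, i, j, h4, h5, h6, h7, h8, h9⟩

theorem step_cl (ih : IH F τ n) (st : St F τ H S P A) (hn : mu S P = n) : Cl H S P A := by
  rcases S.eq_empty_or_nonempty with hS | hS
  · exact cl_empty hS
  rcases P.eq_empty_or_nonempty with hP | hP
  · subst hP
    exact cl_noP ih st hn.le
  by_cases nf : ∃ v ∈ S, ((S ∪ P).filter fun u => H.Adj v u).card +
      (if v ∈ A then 1 else 0) ≤ 2
  · obtain ⟨v, hv, h1⟩ := nf
    exact cl_free ih st hn.le hv h1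
  replace nf : ∀ v ∈ S, 3 ≤ ((S ∪ P).filter fun u => H.Adj v u).card +
      if v ∈ A then 1 else 0 := by
    intro v hv
    by_contra h1
    exact nf ⟨v, hv, by omega⟩
  by_cases hns : NS H (S ∪ P)
  · have h3 : 3 ≤ (S ∪ P).card := by
      obtain ⟨v, hv⟩ := hS
      have h1 := nf v hv
      have h2 : (((S ∪ P).filter fun u => H.Adj v u)).card + 1 ≤ (S ∪ P).card := by
        rw [← Finset.card_insert_of_notMem (a := v) (by
          simp only [Finset.mem_filter, not_and]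
          intro _ hh
          exact H.loopless.irrefl v hh)]
        apply Finset.card_le_card
        intro w hw
        rw [Finset.mem_insert] at hw
        rcases hw with hw | hw
        · subst hw; exact Finset.mem_union_left _ hv
        · exact (Finset.mem_filter.1 hw).1
      split_ifs at h1 <;> omega
    obtain ⟨m, c, K, hB⟩ := exists_bd st.gd.sph st.gd.le st.tF st.sup h3 hns
    obtain ⟨c', q, k, h⟩ := exists_ctx ih st hn hP nf h3 hns hB
    exact ctx_cl h hS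
  -- a separation
  by_cases hsp : ∃ L R : Finset V, L ∪ R = S ∪ P ∧
      (∀ x ∈ L, x ∉ R → ∀ y, H.Adj x y → y ∈ L) ∧
      (∀ x ∈ R, x ∉ L → ∀ y, H.Adj x y → y ∈ R) ∧ L ≠ S ∪ P ∧ R ≠ S ∪ P ∧
      (L ∩ R).card ≤ 1 ∧ L ∩ R ⊆ P
  · obtain ⟨L, R, h1, h2, h3, h4, h5, h6, h7⟩ := hsp
    exact cl_sep ih st hn.le h1 h2 h3 h4 h5 h6 h7
  have ns0 : ∀ L R : Finset V, L ∪ R = S ∪ P → L ∩ R = ∅ →
      (∀ x ∈ L, x ∉ R → ∀ y, H.Adj x y → y ∈ L) →
      (∀ x ∈ R, x ∉ L → ∀ y, H.Adj x y → y ∈ R) → L = S ∪ P ∨ R = S ∪ P := by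
    intro L R h1 h2 h3 h4
    by_contra h5
    push Not at h5
    exact hsp ⟨L, R, h1, h3, h4, h5.1, h5.2, by simp [h2], by simp [h2]⟩
  have hcut : ∃ (L R : Finset V) (x : V), Cut H S P L R x := by
    unfold NS at hns
    push Not at hns
    obtain ⟨L, R, h1, h2, h3, h4, h5, h6⟩ := hns
    have h7 : ∃ x, L ∩ R = {x} := by
      rw [← Finset.card_eq_one]
      rcases Nat.lt_or_ge (L ∩ R).card 1 with h8 | h8
      · exfalso
        have : L ∩ R = ∅ := by rw [← Finset.card_eq_zero]; omega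
        rcases ns0 L R h1 this h3 h4 with h9 | h9
        · exact h5 h9
        · exact h6 h9
      · omega
    obtain ⟨x, hx⟩ := h7
    have hxP : x ∉ P := by
      intro hxP
      exact hsp ⟨L, R, h1, h3, h4, h5, h6, h2, by rw [hx]; simpa using hxP⟩
    have key : P ⊆ L ∨ P ⊆ R := by
      by_cases hPL : (P ∩ L).Nonempty
      · left
        by_contra hn'
        have hne : P ∩ L ≠ P := fun h => hn' (by rw [← h]; exact Finset.inter_subset_right)
        obtain ⟨a, ha, b, hb, hb', hab⟩ := st.con (P ∩ L) Finset.inter_subset_left hPL hne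
        rw [Finset.mem_inter] at ha hb'
        apply hb'
        refine ⟨hb, h3 a ha.2 ?_ b hab.1⟩
        intro haR
        have : a ∈ L ∩ R := Finset.mem_inter.2 ⟨ha.2, haR⟩
        rw [hx, Finset.mem_singleton] at this
        exact hxP (this ▸ ha.1)
      · right
        intro p hp
        have : p ∈ L ∪ R := by rw [h1]; exact Finset.mem_union_right _ hp
        rcases Finset.mem_union.1 this with h8 | h8
        · exact absurd ⟨p, Finset.mem_inter.2 ⟨hp, h8⟩⟩ hPL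
        · exact h8
    rcases key with hk | hk
    · exact ⟨L, R, x, h1, h3, h4, h5, h6, hx, hk, hxP⟩
    · exact ⟨R, L, x, by rw [Finset.union_comm]; exact h1, h4, h3, h6, h5,
        by rw [Finset.inter_comm]; exact hx, hk, hxP⟩
  have hmin : ∃ (j : ℕ) (L R : Finset V) (x : V), Cut H S P L R x ∧ R.card = j := by
    obtain ⟨L, R, x, h⟩ := hcut
    exact ⟨_, L, R, x, h, rfl⟩
  obtain ⟨L, R, x, hC, hj⟩ := Nat.find_spec hmin
  exact cl_cut_min ih st hn.le hP nf ns0 hC (cut_min st.sup ns0 hC (fun L' R' y hC' => by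
    rw [hj]
    exact Nat.find_min' hmin ⟨L', R', y, hC', rfl⟩))

theorem main_IH (F : Finset (Finset V)) (τ : Finset V) (n : ℕ) : IH F τ n := by
  induction n with
  | zero => intro H S P A h _; omega
  | succ n ih =>
    intro H S P A h st
    rcases Nat.lt_or_ge (mu S P) n with h1 | h1
    · exact ih H S P A h1 st
    · exact step_cl ih st (by omega)

end Pool.Agent.Lib.MP_a33b01_co_G5
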