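import Pool.Agent.Lib.MP_a33b01_co_G5.StA
import Pool.Agent.Lib.MP_a33b01_co_G5.GmA

set_option autoImplicit false

/-!
# MP_a33b01_co, project G5: the two combination lemmas
-/

namespace Pool.Agent.Lib.MP_a33b01_co_G5

open Classical
open Pool.Agent.Lib.MP_a33b01_co (Sph sk cn supp EvenG Removes Wg)

variable {V : Type} {F : Finset (Finset V)} {τ : Finset V} {H : SimpleGraph V}
  {S P A : Finset V} {n : ℕ}

/-- Reduction along a small separation `(L, R)`: first the part `L` (with `P ∩ L`), then the part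
`R`, where the vertices of the list `l ⊇ L ∩ R` have been deleted (those outside of `P` and `L`
are low vertices, they have value zero after the deletion of `L`).
Proof.  `S₁ = S ∩ L`, `S₂ = S ∩ (l \ L)`, `S₃ = R \ l` (a subset of `S \ L`); these three sets
are disjoint and their union is `S`.
(1) `St.sub` for `S₁`, `P ∩ L`; `mu_lt` (`L ≠ S ∪ P`); `ih` gives a removal of `S₁` from
`fv (rs H ..) (P ∩ L) (A ∩ S₁)`, which is `fv H P A` on `S₁` (by `hc₁` for the vertices outside
of `R` and by `h4` for the others all neighbours in `P` are in `L`); `rem_mono`.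
(2) `S₂ ⊆ A` is independent: `rem_free` for all its members, cost `0`; a member `x` has value
`1 - #(N(x) ∩ S₁) ≥ 0` (`h.AP`, `hX`, `N(x) ∩ L ⊆ L ∩ R` by `hc₂`).
(3) the state `(HR, S₃, l.toFinset, A ∩ S₃)`: `gd_mono`, `ld_list`, `cn_list`, `hA`; `mu_lt`
(`R ≠ S ∪ P`); `ih` gives a removal of `S₃`; the values are compared by `fv_step` (a vertex of `S₃`
is in `R` and not in `L`, so its neighbours in `P ∪ S₁ ∪ S₂` are in `R`, hence in `l`, and the
edges are in `HR` by `hHR₂`).  `rem_seq` twice. -/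
theorem kstep (ih : IH F τ n) (st : St F τ H S P A) (hn : mu S P ≤ n) {L R : Finset V}
    (hLR : L ∪ R = S ∪ P)
    (hc₁ : ∀ x ∈ L, x ∉ R → ∀ y, H.Adj x y → y ∈ L)
    (hc₂ : ∀ x ∈ R, x ∉ L → ∀ y, H.Adj x y → y ∈ R)
    (hL : L ≠ S ∪ P) (hR : R ≠ S ∪ P) (con : CN (OutE F τ H) (P ∩ L))
    (h4 : ∀ s ∈ L, s ∈ R → s ∉ P → ∀ p ∈ P, H.Adj s p → p ∈ L)
    {HR : SimpleGraph V} (hHR : HR ≤ H)
    (hHR₁ : ∀ x y, HR.Adj x y → x ∈ R)
    (hHR₂ : ∀ x ∈ R, x ∉ L → ∀ y, H.Adj x y → HR.Adj x y)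
    {l : List V} (hlR : ∀ x ∈ l, x ∈ R) (hnd : l.Nodup) (h6 : l.length ≤ 6)
    (hch : l.IsChain (OutE F τ HR)) (hout : ∀ x ∈ l, Out F τ HR x)
    (hlQ : ∀ x ∈ L, x ∈ R → x ∈ l) (hlP : ∀ x ∈ P, x ∈ R → x ∈ l)
    (hlX : ∀ x ∈ l, x ∉ P → x ∉ L → x ∈ A)
    (hA : ∀ a ∈ A, a ∈ R → a ∉ l → ∀ x ∈ l, ¬ H.Adj a x)
    (hX : ∀ x ∈ l, x ∉ P → x ∉ L →
      ((L ∩ R).filter fun y => H.Adj x y).card ≤ 1) : Cl H S P A := by
  have hLW : L ⊆ S ∪ P := by rw [← hLR]; exact Finset.subset_union_left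
  have hRW : R ⊆ S ∪ P := by rw [← hLR]; exact Finset.subset_union_right
  -- the first state
  have st1 := st.sub (S' := S ∩ L) (P' := P ∩ L) Finset.inter_subset_left
    Finset.inter_subset_left con
  have e1 : (S ∩ L) ∪ (P ∩ L) = L := by
    rw [← Finset.union_inter_distrib_right, Finset.inter_eq_right.2 hLW]
  have m1 : mu (S ∩ L) (P ∩ L) < mu S P :=
    mu_lt st.dj st1.dj (by rw [e1]; exact hLW) (by rw [e1]; exact hL) st.six
  obtain ⟨k₁, hr₁, hk₁⟩ := ih _ _ _ _ (lt_of_lt_of_le m1 hn) st1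
  have hv₁ : ∀ u ∈ S ∩ L, fv (rs H ((S ∩ L) ∪ (P ∩ L))) (P ∩ L) (A ∩ (S ∩ L)) u ≤
      fv H P A u := by
    intro u hu
    have hu' := Finset.mem_inter.1 hu
    have := fv_step (H := H) (H' := rs H ((S ∩ L) ∪ (P ∩ L))) (P := P) (A := A) (P' := P ∩ L)
      (A' := A ∩ (S ∩ L)) (S₁ := ∅) (u := u) (Finset.disjoint_empty_right _)
      (fun h => Finset.mem_inter.2 ⟨h, hu⟩) ?_ (st1.load hu)
    · simpa using this
    · intro x hx hux
      have hxP : x ∈ P := by
        rcases hx with hx | hx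
        · exact hx
        · simp at hx
      have hxL : x ∈ L := by
        by_cases huR : u ∈ R
        · exact h4 u hu'.2 huR (Finset.disjoint_left.1 st.dj hu'.1) x hxP hux
        · exact hc₁ u hu'.2 huR x hux
      refine ⟨Finset.mem_inter.2 ⟨hxP, hxL⟩, hux, ?_, ?_⟩
      · rw [e1]; exact hu'.2
      · rw [e1]; exact hxL
  have hr₁' : Rem H (S ∩ L) (fv H P A) k₁ := rem_mono (G' := rs H ((S ∩ L) ∪ (P ∩ L))) hv₁
    (fun u hu v hv h => ⟨h, Finset.mem_union_left _ hu, Finset.mem_union_left _ hv⟩) hr₁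
  -- the third state
  have hlRs : l.toFinset ⊆ R := fun x hx => hlR x (List.mem_toFinset.1 hx)
  have e3 : (R \ l.toFinset) ∪ l.toFinset = R := Finset.sdiff_union_of_subset hlRs
  have st3 : St F τ HR (R \ l.toFinset) l.toFinset (A ∩ (R \ l.toFinset)) := by
    refine ⟨gd_mono st.gd hHR, st.tF, ?_, ?_, Finset.sdiff_disjoint, ?_, ?_, ?_, ?_,
      Finset.inter_subset_right, ?_, ?_, ?_⟩
    · intro x y hxy
      rw [e3]; exact hHR₁ x y hxy
    · rw [e3]; exact hRW.trans st.sF
    · exact (List.toFinset_card_le l).trans h6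
    · intro p hp
      exact hout p (List.mem_toFinset.1 hp)
    · exact cn_list (fun x y => outE_symm) hch
    · intro u hu
      rw [Finset.mem_sdiff, List.mem_toFinset] at hu
      exact ld_list (gd_mono st.gd hHR) hnd (hch.imp fun _ _ h => h.1) h6 hu.2
    · intro a ha
      exact out_mono hHR (st.outA a (Finset.mem_inter.1 ha).1)
    · intro a ha b hb hab
      exact st.ind a (Finset.mem_inter.1 ha).1 b (Finset.mem_inter.1 hb).1 (hHR hab)
    · intro a ha p hp hap
      rw [Finset.mem_inter, Finset.mem_sdiff, List.mem_toFinset] at ha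
      exact hA a ha.1 ha.2.1 ha.2.2 p (List.mem_toFinset.1 hp) (hHR hap)
  have m3 : mu (R \ l.toFinset) l.toFinset < mu S P :=
    mu_lt st.dj st3.dj (by rw [e3]; exact hRW) (by rw [e3]; exact hR) st.six
  obtain ⟨k₃, hr₃, hk₃⟩ := ih _ _ _ _ (lt_of_lt_of_le m3 hn) st3
  have hS₃ : ∀ u ∈ R \ l.toFinset, u ∈ S ∧ u ∈ R ∧ u ∉ L := by
    intro u hu
    rw [Finset.mem_sdiff, List.mem_toFinset] at hu
    refine ⟨?_, hu.1, fun hL' => hu.2 (hlQ u hL' hu.1)⟩
    rcases Finset.mem_union.1 (hRW hu.1) with h | h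
    · exact h
    · exact absurd (hlP u h hu.1) hu.2
  have hr₃' : Rem H (R \ l.toFinset) (fv HR l.toFinset (A ∩ (R \ l.toFinset))) k₃ :=
    rem_mono (fun u _ => le_rfl) (fun u hu v _ h =>
      hHR₂ u (hS₃ u hu).2.1 (hS₃ u hu).2.2 v h) hr₃
  -- the second set
  have hS₂ : ∀ u ∈ (S ∩ l.toFinset) \ L, u ∈ S ∧ u ∈ l ∧ u ∉ L ∧ u ∈ A := by
    intro u hu
    rw [Finset.mem_sdiff, Finset.mem_inter, List.mem_toFinset] at hu
    exact ⟨hu.1.1, hu.1.2, hu.2, hlX u hu.1.2 (Finset.disjoint_left.1 st.dj hu.1.1) hu.2⟩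
  have hr₂ : Rem H ((S ∩ l.toFinset) \ L) (fun _ => 0) 0 := by
    have := rem_list (G := H) (((S ∩ l.toFinset) \ L).toList) (Finset.nodup_toList _)
      (fun _ => 0) (by
        intro l₁ l₂ x hl
        have hx : x ∈ (S ∩ l.toFinset) \ L := by
          rw [← Finset.mem_toList, hl]; simp
        rw [Nat.le_zero, Finset.card_eq_zero, Finset.filter_eq_empty_iff]
        intro y hy hxy
        have hy' : y ∈ (S ∩ l.toFinset) \ L := by
          rw [← Finset.mem_toList, hl]
          exact List.mem_append_left _ (List.mem_toFinset.1 hy)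
        exact st.ind x (hS₂ x hx).2.2.2 y (hS₂ y hy').2.2.2 hxy)
    rwa [Finset.toList_toFinset] at this
  have hd12 : Disjoint (S ∩ L) ((S ∩ l.toFinset) \ L) := by
    rw [Finset.disjoint_left]
    intro u hu hu'
    exact (Finset.mem_sdiff.1 hu').2 (Finset.mem_inter.1 hu).2
  have hr12 := rem_seq hd12 hr₁' (g := fun _ => 0) (k₂ := 0) (by
    intro u hu
    obtain ⟨huS, hul, huL, huA⟩ := hS₂ u hu
    have h1 : fv H P A u = 1 := by
      unfold fv
      have : (P.filter fun p => H.Adj u p) = ∅ := by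
        rw [Finset.filter_eq_empty_iff]
        intro p hp
        exact st.AP u huA p hp
      rw [if_pos huA, this]
      rfl
    have h2 : ((S ∩ L).filter fun v => H.Adj u v).card ≤
        ((L ∩ R).filter fun y => H.Adj u y).card := by
      apply Finset.card_le_card
      intro v hv
      rw [Finset.mem_filter, Finset.mem_inter] at hv
      rw [Finset.mem_filter, Finset.mem_inter]
      exact ⟨⟨hv.1.2, hc₂ u (hlR u hul) huL v hv.2⟩, hv.2⟩
    have h3 := hX u hul (Finset.disjoint_left.1 st.dj huS) huL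
    rw [h1]
    simp only [zero_add]
    exact h2.trans h3) hr₂
  have hd3 : Disjoint ((S ∩ L) ∪ ((S ∩ l.toFinset) \ L)) (R \ l.toFinset) := by
    rw [Finset.disjoint_left]
    intro u hu hu'
    rcases Finset.mem_union.1 hu with h | h
    · exact (hS₃ u hu').2.2 (Finset.mem_inter.1 h).2
    · rw [Finset.mem_sdiff, List.mem_toFinset] at hu'
      exact hu'.2 (hS₂ u h).2.1
  have hr := rem_seq hd3 hr12 (g := fv HR l.toFinset (A ∩ (R \ l.toFinset))) (k₂ := k₃) (by
    intro u hu
    obtain ⟨huS, huR, huL⟩ := hS₃ u hu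
    refine fv_step ?_ (fun h => Finset.mem_inter.2 ⟨h, hu⟩) ?_ (st3.load hu)
    · rw [Finset.disjoint_left]
      intro x hx hx'
      rcases Finset.mem_union.1 hx' with h | h
      · exact Finset.disjoint_left.1 st.dj (Finset.mem_inter.1 h).1 hx
      · exact Finset.disjoint_left.1 st.dj (hS₂ x h).1 hx
    · intro x hx hux
      have hxR : x ∈ R := hc₂ u huR huL x hux
      refine ⟨?_, hHR₂ u huR huL x hux⟩
      rw [List.mem_toFinset]
      rcases hx with hx | hx
      · exact hlP x hx hxR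
      · rcases Finset.mem_union.1 hx with h | h
        · exact hlQ x (Finset.mem_inter.1 h).2 hxR
        · exact (hS₂ x h).2.1) hr₃'
  have hSS : (S ∩ L) ∪ ((S ∩ l.toFinset) \ L) ∪ (R \ l.toFinset) = S := by
    ext u
    constructor
    · intro hu
      rcases Finset.mem_union.1 hu with h | h
      · rcases Finset.mem_union.1 h with h | h
        · exact (Finset.mem_inter.1 h).1
        · exact (hS₂ u h).1
      · exact (hS₃ u h).1
    · intro hu
      by_cases huL : u ∈ L
      · exact Finset.mem_union_left _ (Finset.mem_union_left _ (Finset.mem_inter.2 ⟨hu, huL⟩))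
      · have huR : u ∈ R := by
          have : u ∈ L ∪ R := by rw [hLR]; exact Finset.mem_union_left _ hu
          rcases Finset.mem_union.1 this with h | h
          · exact absurd h huL
          · exact h
        by_cases hul : u ∈ l.toFinset
        · exact Finset.mem_union_left _ (Finset.mem_union_right _ (Finset.mem_sdiff.2
            ⟨Finset.mem_inter.2 ⟨hu, hul⟩, huL⟩))
        · exact Finset.mem_union_right _ (Finset.mem_sdiff.2 ⟨huR, hul⟩)
  rw [hSS] at hr
  refine ⟨_, hr, ?_⟩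
  have hc : (S ∩ L).card + (R \ l.toFinset).card ≤ S.card := by
    rw [← Finset.card_union_of_disjoint]
    · apply Finset.card_le_card
      intro u hu
      rcases Finset.mem_union.1 hu with h | h
      · exact (Finset.mem_inter.1 h).1
      · exact (hS₃ u h).1
    · rw [Finset.disjoint_left]
      intro u hu hu'
      exact (hS₃ u hu').2.2 (Finset.mem_inter.1 hu).2
  omega

end Pool.Agent.Lib.MP_a33b01_co_G5
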