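import Pool.Agent.Lib.MP_a33b01_co_G5.StA
import Pool.Agent.Lib.MP_a33b01_co_G5.GmA
import Pool.Agent.Lib.MP_a33b01_co_G5.StB1

set_option autoImplicit false

/-!
# MP_a33b01_co, project G5: the two combination lemmas
-/

namespace Pool.Agent.Lib.MP_a33b01_co_G5

open Classical
open Pool.Agent.Lib.MP_a33b01_co (Sph sk cn supp EvenG Removes Wg)

variable {V : Type} {F : Finset (Finset V)} {τ : Finset V} {H : SimpleGraph V}
  {S P A : Finset V} {n : ℕ}

/-- Deletion step: `D` has been removed, the new path is the list `l`.  The set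
`S \ (D ∪ S')` (usually empty) is removed at the end.
Proof.  The new state is `(rs H (S' ∪ l.toFinset), S', l.toFinset, newA H S' P D l A)`:
`gd_mono`; `sup`, `sF` clear; the members of `l` are in `P ∪ D`, so they are not in `S'`;
`ld_list`, `cn_list`; a member of `newA` is in `A` (`st.outA`, `out_mono`) or it is a neighbour of
a vertex `d ∉ S' ∪ l` with `hout'` (`out_nbr`).  Apply `ih` and `step`. -/
theorem gdel (ih : IH F τ n) (st : St F τ H S P A) {S' D : Finset V} {l : List V} {k₀ : ℕ}
    (hS' : S' ⊆ S) (hD : D ⊆ S) (hd : Disjoint D S') (hmu : mu S' l.toFinset < n)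
    (hl : ∀ x ∈ l, x ∈ P ∨ x ∈ D) (hnd : l.Nodup) (h6 : l.length ≤ 6)
    (hch : l.IsChain (OutE F τ (rs H (S' ∪ l.toFinset))))
    (hout : ∀ x ∈ l, Out F τ (rs H (S' ∪ l.toFinset)) x)
    (hout' : ∀ x, x ∈ P ∨ x ∈ D → x ∉ l → Out F τ (rs H (S' ∪ l.toFinset)) x)
    (ind : ∀ a ∈ newA H S' P D l A, ∀ b ∈ newA H S' P D l A, ¬ H.Adj a b)
    (hAl : ∀ a ∈ newA H S' P D l A, ∀ x ∈ l, ¬ H.Adj a x)
    (step : ∀ k, Rem H S' (fv (rs H (S' ∪ l.toFinset)) l.toFinset (newA H S' P D l A)) k →
      Rem H S (fv H P A) (k + k₀))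
    (hk : 4 * k₀ + S'.card ≤ S.card) : Cl H S P A := by
  have hS'l : ∀ u ∈ S', u ∉ l := by
    intro u hu hul
    rcases hl u hul with h | h
    · exact Finset.disjoint_left.mp st.dj (hS' hu) h
    · exact Finset.disjoint_left.mp hd h hu
  have hle : rs H (S' ∪ l.toFinset) ≤ H := rs_le _
  have st' : St F τ (rs H (S' ∪ l.toFinset)) S' l.toFinset (newA H S' P D l A) := by
    refine ⟨gd_mono st.gd hle, st.tF, fun x y h => h.2.1, ?_, ?_, ?_, ?_, ?_, ?_,
      Finset.filter_subset _ _, ?_, ?_, ?_⟩
    · intro x hx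
      rcases Finset.mem_union.1 hx with h | h
      · exact st.sF (Finset.mem_union_left _ (hS' h))
      · rcases hl x (List.mem_toFinset.1 h) with h | h
        · exact st.sF (Finset.mem_union_right _ h)
        · exact st.sF (Finset.mem_union_left _ (hD h))
    · rw [Finset.disjoint_left]
      intro u hu hul
      exact hS'l u hu (List.mem_toFinset.1 hul)
    · exact (List.toFinset_card_le l).trans h6
    · intro p hp
      exact hout p (List.mem_toFinset.1 hp)
    · exact cn_list (fun x y => outE_symm) hch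
    · intro u hu
      exact ld_list (gd_mono st.gd hle) hnd (hch.imp fun _ _ h => h.1) h6 (hS'l u hu)
    · intro a ha
      rw [newA, Finset.mem_filter] at ha
      obtain ⟨haS', haA | ⟨d, hd', hdl, had⟩⟩ := ha
      · exact out_mono hle (st.outA a haA)
      · have hd'' := Finset.mem_union.1 hd'
        have hdS' : d ∉ S' := by
          intro hdS'
          rcases hd'' with h | h
          · exact Finset.disjoint_left.mp st.dj (hS' hdS') h
          · exact Finset.disjoint_left.mp hd h hdS'
        refine out_nbr st.gd.sph st.tF (v := d) ?_ (hout' d hd'' hdl) (st.gd.le had.symm)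
        intro y hy
        rcases Finset.mem_union.1 hy.2.1 with h | h
        · exact hdS' h
        · exact hdl (List.mem_toFinset.1 h)
    · intro a ha b hb hab
      exact ind a ha b hb (hle hab)
    · intro a ha p hp hap
      exact hAl a ha p (List.mem_toFinset.1 hp) (hle hap)
  obtain ⟨k, hr, hk'⟩ := ih _ _ _ _ hmu st'
  exact ⟨k + k₀, step k (rem_mono (G' := rs H (S' ∪ l.toFinset)) (fun u _ => le_rfl) (fun u hu v hv h =>
    ⟨h, Finset.mem_union_left _ hu, Finset.mem_union_left _ hv⟩) hr), by omega⟩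

end Pool.Agent.Lib.MP_a33b01_co_G5
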