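import Pool.Agent.Lib.MP_a33b01_co_G5.StA
import Pool.Agent.Lib.MP_a33b01_co_G5.GmA
import Pool.Agent.Lib.MP_a33b01_co_G5.StB1
import Pool.Agent.Lib.MP_a33b01_co_G5.StB2

set_option autoImplicit false

/-!
# MP_a33b01_co, project G5: the two combination lemmas
-/

namespace Pool.Agent.Lib.MP_a33b01_co_G5

open Classical
open Pool.Agent.Lib.MP_a33b01_co (Sph sk cn supp EvenG Removes Wg)

variable {V : Type} {F : Finset (Finset V)} {τ : Finset V} {H : SimpleGraph V}
  {S P A : Finset V} {n : ℕ}

/-- The comparison of values for `gdel`, for a vertex `u` of `S'`: all the neighbours of `u` in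
`P ∪ D` outside of `l`, together with the membership in `A`, make at most one. -/
theorem gdel_val {S' D : Finset V} {l : List V} {u : V} (hdP : Disjoint D P)
    (hl : ∀ x ∈ l, x ∈ P ∨ x ∈ D) (hu : u ∈ S') (hul : u ∉ l)
    (h2 : (l.toFinset.filter fun p => H.Adj u p).card ≤ 1 ∨
      ((l.toFinset.filter fun p => H.Adj u p).card ≤ 2 ∧ u ∉ newA H S' P D l A))
    (h1 : (if u ∈ A then 1 else 0) +
      ((P ∪ D).filter fun x => x ∉ l ∧ H.Adj u x).card ≤ 1) :
    fv (rs H (S' ∪ l.toFinset)) l.toFinset (newA H S' P D l A) u +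
      (D.filter fun x => H.Adj u x).card ≤ fv H P A u := by
  -- the sets of neighbours
  have e1 : (l.toFinset.filter fun p => (rs H (S' ∪ l.toFinset)).Adj u p) =
      l.toFinset.filter fun p => H.Adj u p := by
    apply Finset.filter_congr
    intro x hx
    exact ⟨fun h => h.1, fun h => ⟨h, Finset.mem_union_left _ hu, Finset.mem_union_right _ hx⟩⟩
  have e2 : (P.filter fun p => H.Adj u p).card + (D.filter fun p => H.Adj u p).card =
      (l.toFinset.filter fun p => H.Adj u p).card +
        ((P ∪ D).filter fun x => x ∉ l ∧ H.Adj u x).card := by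
    rw [← Finset.card_union_of_disjoint, ← Finset.card_union_of_disjoint]
    · congr 1
      ext x
      simp only [Finset.mem_union, Finset.mem_filter, List.mem_toFinset]
      constructor
      · rintro (h | h)
        · by_cases hx : x ∈ l
          · exact Or.inl ⟨hx, h.2⟩
          · exact Or.inr ⟨Or.inl h.1, hx, h.2⟩
        · by_cases hx : x ∈ l
          · exact Or.inl ⟨hx, h.2⟩
          · exact Or.inr ⟨Or.inr h.1, hx, h.2⟩
      · rintro (h | h)
        · exact (hl x h.1).imp (fun h' => ⟨h', h.2⟩) fun h' => ⟨h', h.2⟩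
        · exact h.1.imp (fun h' => ⟨h', h.2.2⟩) fun h' => ⟨h', h.2.2⟩
    · rw [Finset.disjoint_left]
      intro x hx hx'
      rw [Finset.mem_filter, List.mem_toFinset] at hx
      rw [Finset.mem_filter] at hx'
      exact hx'.2.1 hx.1
    · rw [Finset.disjoint_left]
      intro x hx hx'
      rw [Finset.mem_filter] at hx hx'
      exact Finset.disjoint_left.mp hdP hx'.1 hx.1
  have e3 : u ∈ newA H S' P D l A ↔
      u ∈ A ∨ 0 < ((P ∪ D).filter fun x => x ∉ l ∧ H.Adj u x).card := by
    rw [newA, Finset.mem_filter, Finset.card_pos]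
    constructor
    · rintro ⟨_, h | ⟨d, hd, hdl, hud⟩⟩
      · exact Or.inl h
      · exact Or.inr ⟨d, Finset.mem_filter.2 ⟨hd, hdl, hud⟩⟩
    · rintro (h | ⟨d, hd⟩)
      · exact ⟨hu, Or.inl h⟩
      · rw [Finset.mem_filter] at hd
        exact ⟨hu, Or.inr ⟨d, hd.1, hd.2.1, hd.2.2⟩⟩
  unfold fv
  rw [e1]
  by_cases hA : u ∈ A
  · rw [if_pos hA] at h1 ⊢
    rw [if_pos (e3.2 (Or.inl hA))]
    have h4 : (l.toFinset.filter fun p => H.Adj u p).card ≤ 1 := by
      rcases h2 with h | h
      · exact h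
      · exact absurd (e3.2 (Or.inl hA)) h.2
    omega
  · rw [if_neg hA] at h1 ⊢
    by_cases hn : u ∈ newA H S' P D l A
    · rw [if_pos hn]
      have h4 : (l.toFinset.filter fun p => H.Adj u p).card ≤ 1 := by
        rcases h2 with h | h
        · exact h
        · exact absurd hn h.2
      rcases e3.1 hn with h | h
      · exact absurd h hA
      · omega
    · rw [if_neg hn]
      have h5 : ¬ 0 < ((P ∪ D).filter fun x => x ∉ l ∧ H.Adj u x).card :=
        fun h => hn (e3.2 (Or.inr h))
      have h4 : (l.toFinset.filter fun p => H.Adj u p).card ≤ 2 := by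
        rcases h2 with h | h
        · omega
        · exact h.1
      omega

/-- The usual case of `gdel`: no vertices are left over and the removal of `D` is a removal from
`fv H P A` (`rem_seq`, `gdel_val`, `ld_list`; a member of `newA` has no neighbour in `l` by
`hAl`). -/
theorem gdel' (ih : IH F τ n) (st : St F τ H S P A) {S' D : Finset V} {l : List V} {k₀ : ℕ}
    (hSD : D ∪ S' = S) (hd : Disjoint D S') (hmu : mu S' l.toFinset < n)
    (hl : ∀ x ∈ l, x ∈ P ∨ x ∈ D) (hnd : l.Nodup) (h6 : l.length ≤ 6)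
    (hch : l.IsChain (OutE F τ (rs H (S' ∪ l.toFinset))))
    (hout : ∀ x ∈ l, Out F τ (rs H (S' ∪ l.toFinset)) x)
    (hout' : ∀ x, x ∈ P ∨ x ∈ D → x ∉ l → Out F τ (rs H (S' ∪ l.toFinset)) x)
    (ind : ∀ a ∈ newA H S' P D l A, ∀ b ∈ newA H S' P D l A, ¬ H.Adj a b)
    (hAl : ∀ a ∈ newA H S' P D l A, ∀ x ∈ l, ¬ H.Adj a x)
    (h1 : ∀ u ∈ S', (if u ∈ A then 1 else 0) +
      ((P ∪ D).filter fun x => x ∉ l ∧ H.Adj u x).card ≤ 1)
    (hrem : Rem H D (fv H P A) k₀) (hk : 4 * k₀ ≤ D.card) : Cl H S P A := by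
  have hS'S : S' ⊆ S := by
    rw [← hSD]
    exact Finset.subset_union_right
  have hDS : D ⊆ S := by
    rw [← hSD]
    exact Finset.subset_union_left
  have hdP : Disjoint D P := Finset.disjoint_of_subset_left hDS st.dj
  have hS'l : ∀ u ∈ S', u ∉ l := by
    intro u hu hul
    rcases hl u hul with h | h
    · exact Finset.disjoint_left.mp st.dj (hS'S hu) h
    · exact Finset.disjoint_left.mp hd h hu
  have hchH : l.IsChain H.Adj := hch.imp fun x y h => h.1.1
  refine gdel ih st hS'S hDS hd hmu hl hnd h6 hch hout hout' ind hAl (k₀ := k₀) ?_ ?_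
  · intro k hrk
    have hr := rem_seq hd hrem (g := fv (rs H (S' ∪ l.toFinset)) l.toFinset
      (newA H S' P D l A)) (k₂ := k) (fun u hu => ?_) hrk
    · rw [hSD, add_comm] at hr
      exact hr
    · refine gdel_val hdP hl hu (hS'l u hu) ?_ (h1 u hu)
      by_cases hn : u ∈ newA H S' P D l A
      · left
        have hle : (l.toFinset.filter fun p => H.Adj u p) = ∅ := by
          rw [Finset.filter_eq_empty_iff]
          intro x hx
          exact hAl u hn x (List.mem_toFinset.mp hx)
        rw [hle]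
        simp
      · exact Or.inr ⟨ld_list st.gd hnd hchH h6 (hS'l u hu), hn⟩
  · rw [← hSD, Finset.card_union_of_disjoint hd]
    omega

end Pool.Agent.Lib.MP_a33b01_co_G5
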