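import Pool.Agent.Lib.MP_a33b01_co_G5.Defs
import Pool.Agent.Lib.MP_a33b01_co.SphB

set_option autoImplicit false

/-!
# MP_a33b01_co, project G5: the boundary of a set of faces
-/

namespace Pool.Agent.Lib.MP_a33b01_co_G5

open Classical
open Pool.Agent.Lib.MP_a33b01_co (Sph sk cn supp EvenG Removes Wg)

variable {V : Type} {F K K' : Finset (Finset V)} {τ t t' : Finset V} {E : V → V → Prop}

private theorem TpB_cn_pos {x y : V} (ht : t ∈ K) (hx : x ∈ t) (hy : y ∈ t) :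
    0 < cn K x y := by
  unfold cn
  exact Finset.card_pos.2 ⟨t, Finset.mem_filter.2 ⟨ht, hx, hy⟩⟩

/-- `cn F x y` is even (`even_cn`). -/
theorem br_compl (hF : Sph F) (hK : K ⊆ F) (hb : BR K E) : BR (F \ K) E := by
  intro x y hxy
  rw [← hb x y hxy]
  have h1 := Pool.Agent.Lib.MP_a33b01_co.cn_sdiff hK x y
  have h2 := Pool.Agent.Lib.MP_a33b01_co.even_cn hF hxy
  rw [Nat.even_iff] at h2
  rw [Nat.odd_iff, Nat.odd_iff]
  omega

/-- The symmetric difference of `K` and `K'` has no boundary, so it is empty or `F`. -/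
theorem br_unique (hF : Sph F) (hτ : τ ∈ F) (hK : K ⊆ F) (hK' : K' ⊆ F) (h : τ ∉ K)
    (h' : τ ∉ K') (hb : BR K E) (hb' : BR K' E) : K = K' := by
  have h1 : ∀ x y, x ≠ y → Even (cn (symmDiff K K') x y) := by
    intro x y hxy
    rw [← Nat.not_odd_iff_even, Pool.Agent.Lib.MP_a33b01_co.cn_symmDiff, hb x y hxy, hb' x y hxy]
    simp
  have h2 : symmDiff K K' ⊆ F := by
    intro s hs
    rw [Finset.mem_symmDiff] at hs
    rcases hs with hs | hs
    · exact hK hs.1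
    · exact hK' hs.1
  rcases hF.conn _ h2 h1 with h3 | h3
  · exact symmDiff_eq_bot.1 h3
  · exfalso
    rw [← h3, Finset.mem_symmDiff] at hτ
    rcases hτ with hs | hs
    · exact h hs.1
    · exact h' hs.1

/-- An edge which is not in the boundary can be crossed: `cn F x y = 2` and `cn K x y` is even
and positive, so it is `2`. -/
theorem br_cross (hF : Sph F) (hK : K ⊆ F) (hb : BR K E) {x y : V} (hxy : x ≠ y)
    (hE : ¬ E x y) (ht : t ∈ K) (hx : x ∈ t) (hy : y ∈ t) (ht' : t' ∈ F) (hx' : x ∈ t')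
    (hy' : y ∈ t') : t' ∈ K := by
  by_contra hn
  have h1 : cn F x y = 2 := hF.two x y ⟨hxy, t', ht', hx', hy'⟩
  have h2 := TpB_cn_pos ht hx hy
  have h3 : 0 < cn (F \ K) x y := TpB_cn_pos (Finset.mem_sdiff.2 ⟨ht', hn⟩) hx' hy'
  have h4 := Pool.Agent.Lib.MP_a33b01_co.cn_sdiff hK x y
  have h5 : ¬ Odd (cn K x y) := fun h => hE ((hb x y hxy).1 h)
  rw [Nat.odd_iff] at h5
  omega

/-- An edge of the boundary is in exactly one face of `K` and in exactly one other face. -/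
theorem br_one (hF : Sph F) (hK : K ⊆ F) (hb : BR K E) {x y : V} (hxy : x ≠ y) (hE : E x y)
    (hs : (sk F).Adj x y) :
    (∃ t ∈ K, x ∈ t ∧ y ∈ t ∧ ∀ t' ∈ K, x ∈ t' → y ∈ t' → t' = t) ∧
      ∃ t ∈ F, t ∉ K ∧ x ∈ t ∧ y ∈ t ∧ ∀ t' ∈ F, t' ∉ K → x ∈ t' → y ∈ t' → t' = t := by
  have h1 : cn F x y = 2 := hF.two x y hs
  have h4 := Pool.Agent.Lib.MP_a33b01_co.cn_sdiff hK x y
  have h5 : Odd (cn K x y) := (hb x y hxy).2 hE
  rw [Nat.odd_iff] at h5
  have h6 : cn K x y = 1 := by omega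
  have h7 : cn (F \ K) x y = 1 := by omega
  unfold cn at h6 h7
  obtain ⟨a, ha⟩ := Finset.card_eq_one.1 h6
  obtain ⟨b, hb'⟩ := Finset.card_eq_one.1 h7
  have ha1 : a ∈ K.filter fun t => x ∈ t ∧ y ∈ t := by
    rw [ha]
    exact Finset.mem_singleton_self a
  have hb1 : b ∈ (F \ K).filter fun t => x ∈ t ∧ y ∈ t := by
    rw [hb']
    exact Finset.mem_singleton_self b
  rw [Finset.mem_filter] at ha1 hb1
  rw [Finset.mem_sdiff] at hb1
  refine ⟨⟨a, ha1.1, ha1.2.1, ha1.2.2, ?_⟩, b, hb1.1.1, hb1.1.2, hb1.2.1, hb1.2.2, ?_⟩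
  · intro t' ht' hx' hy'
    have h8 : t' ∈ K.filter fun t => x ∈ t ∧ y ∈ t := Finset.mem_filter.2 ⟨ht', hx', hy'⟩
    rw [ha] at h8
    exact Finset.mem_singleton.1 h8
  · intro t' ht' hn hx' hy'
    have h8 : t' ∈ (F \ K).filter fun t => x ∈ t ∧ y ∈ t :=
      Finset.mem_filter.2 ⟨Finset.mem_sdiff.2 ⟨ht', hn⟩, hx', hy'⟩
    rw [hb'] at h8
    exact Finset.mem_singleton.1 h8

/-- If `v` is not on the boundary, then all the faces at `v` are in `K` or none of them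
(`link_conn` and `br_cross`). -/
theorem br_star (hF : Sph F) (hK : K ⊆ F) (hb : BR K E) {v : V} (hv : ∀ y, ¬ E v y)
    (ht : t ∈ K) (hvt : v ∈ t) (ht' : t' ∈ F) (hvt' : v ∈ t') : t' ∈ K := by
  have hex : ∀ q ∈ F, v ∈ q → ∃ w ∈ q, w ≠ v := by
    intro q hq hvq
    have hc := hF.card q hq
    have h1 : 1 < q.card := by omega
    obtain ⟨w, hw, hwv⟩ := Finset.exists_mem_ne h1 v
    exact ⟨w, hw, hwv⟩
  obtain ⟨w, hws, hwv⟩ := hex t (hK ht) hvt
  have hlink := Pool.Agent.Lib.MP_a33b01_co.link_conn hF v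
    (W := {x | ∀ q ∈ F, v ∈ q → x ∈ q → q ∈ K}) (w := w)
    (fun q hq hvq hwq => br_cross hF hK hb hwv.symm (hv w) ht hvt hws hq hvq hwq)
    ⟨hwv.symm, t, hK ht, hvt, hws⟩ (by
      intro x hx y hxy q hq hvq hyq
      have hreach : ({v, x, y} : Finset V) ∈ K := hx _ hxy (by simp) (by simp)
      have hvy : v ≠ y := (Pool.Agent.Lib.MP_a33b01_co.face_ne hF hxy).2.2
      exact br_cross hF hK hb hvy (hv y) hreach (by simp) (by simp) hq hvq hyq)
  obtain ⟨u, hur, huv⟩ := hex t' ht' hvt'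
  exact hlink u ⟨huv.symm, t', ht', hvt', hur⟩ t' ht' hvt' hur

/-- Regions of `H` do not cross a boundary which consists of edges of `H`. -/
theorem rc_avoid (hF : Sph F) {H : SimpleGraph V} (hK : K ⊆ F) (hb : BR K E)
    (hE : ∀ x y, E x y → H.Adj x y) (ht : t ∈ F) (h : Rc F H t t') : t ∈ K ↔ t' ∈ K := by
  have hmem : ∀ r, Rc F H t r → r ∈ F := by
    intro r hr
    cases hr with
    | base => exact ht
    | step s s' x y _ hs _ _ _ _ _ _ => exact hs
  induction h with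
  | base => exact Iff.rfl
  | step s s' x y h₁ hs hxy hx hy hx' hy' hn ih =>
    have hn' : ¬ E x y := fun h => hn (hE x y h)
    exact Iff.trans ih ⟨fun h => br_cross hF hK hb hxy hn' h hx hy hs hx' hy',
      fun h => br_cross hF hK hb hxy hn' h hx' hy' (hmem s h₁) hx hy⟩

end Pool.Agent.Lib.MP_a33b01_co_G5
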