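import Pool.Agent.Lib.MP_a33b01_co_G5.TpB

set_option autoImplicit false

/-!
# MP_a33b01_co, project G5: the sides of a cycle
-/

namespace Pool.Agent.Lib.MP_a33b01_co_G5

open Classical
open Pool.Agent.Lib.MP_a33b01_co (Sph sk cn supp EvenG Removes Wg)

variable {V : Type} {F K J : Finset (Finset V)} {τ : Finset V} {H : SimpleGraph V} {m : ℕ}
  {c : ℤ → V}

theorem ce_symm {x y : V} (h : CE c x y) : CE c y x := by
  obtain ⟨i, h | h⟩ := h
  · exact ⟨i, Or.inr h⟩
  · exact ⟨i, Or.inl h⟩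

theorem ce_adj (hc : Cy H m c) {x y : V} (h : CE c x y) : H.Adj x y := by
  obtain ⟨i, ⟨rfl, rfl⟩ | ⟨rfl, rfl⟩⟩ := h
  · exact hc.adj i
  · exact (hc.adj i).symm

theorem cy_mul (hc : Cy H m c) (i a : ℤ) : c (i + a * m) = c i := by
  induction a using Int.induction_on with
  | zero => simp
  | succ n ih =>
    rw [← ih, ← hc.per (i + n * m)]
    congr 1
    ring
  | pred n ih =>
    rw [← ih, ← hc.per (i + (-(n : ℤ) - 1) * m)]
    congr 1
    ring

theorem cy_eq (hc : Cy H m c) {i j : ℤ} : c i = c j ↔ (m : ℤ) ∣ i - j := by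
  constructor
  · exact hc.inj i j
  · rintro ⟨a, ha⟩
    have h1 : i = j + a * m := by
      rw [mul_comm, ← ha]
      ring
    rw [h1, cy_mul hc]

/-- the two neighbours on the cycle -/
theorem ce_iff (hc : Cy H m c) (i : ℤ) (y : V) :
    CE c (c i) y ↔ y = c (i + 1) ∨ y = c (i - 1) := by
  constructor
  · rintro ⟨j, ⟨h1, h2⟩ | ⟨h1, h2⟩⟩
    · left
      rw [h2, cy_eq hc]
      rw [cy_eq hc] at h1
      have h3 : j + 1 - (i + 1) = -(i - j) := by ring
      rw [h3]
      exact (dvd_neg).2 h1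
    · right
      rw [h1, cy_eq hc]
      rw [cy_eq hc] at h2
      have h3 : j - (i - 1) = -(i - (j + 1)) := by ring
      rw [h3]
      exact (dvd_neg).2 h2
  · rintro (h | h)
    · exact ⟨i, Or.inl ⟨rfl, h⟩⟩
    · refine ⟨i - 1, Or.inr ⟨h, ?_⟩⟩
      congr 1
      ring

theorem cy_ne (hc : Cy H m c) (i : ℤ) : c (i - 1) ≠ c (i + 1) ∧ c i ≠ c (i + 1) := by
  have h3 := hc.three
  constructor
  · intro h
    have h1 := hc.inj _ _ h
    have h2 : i - 1 - (i + 1) = -2 := by ring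
    rw [h2, dvd_neg] at h1
    have h4 := Int.le_of_dvd (by norm_num) h1
    omega
  · intro h
    have h1 := hc.inj _ _ h
    have h2 : i - (i + 1) = -1 := by ring
    rw [h2, dvd_neg] at h1
    have h4 := Int.le_of_dvd (by norm_num) h1
    omega

theorem cy_shift (hc : Cy H m c) (a : ℤ) : Cy H m (fun i => c (a + i)) := by
  refine ⟨hc.three, fun i => ?_, fun i j h => ?_, fun i => ?_⟩
  · rw [← hc.per (a + i), add_assoc]
  · have h1 := hc.inj _ _ h
    have h2 : a + i - (a + j) = i - j := by ring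
    rwa [h2] at h1
  · have h1 := hc.adj (a + i)
    rwa [add_assoc] at h1

theorem cy_refl (hc : Cy H m c) (a : ℤ) : Cy H m (fun i => c (a - i)) := by
  refine ⟨hc.three, fun i => ?_, fun i j h => ?_, fun i => ?_⟩
  · rw [← hc.per (a - (i + m))]
    congr 1
    ring
  · have h1 := hc.inj _ _ h
    have h2 : a - i - (a - j) = -(i - j) := by ring
    rwa [h2, dvd_neg] at h1
  · have h1 := (hc.adj (a - (i + 1))).symm
    have h2 : a - (i + 1) + 1 = a - i := by ring
    rwa [h2] at h1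

theorem ce_shift (a : ℤ) {x y : V} : CE (fun i => c (a + i)) x y ↔ CE c x y := by
  constructor
  · rintro ⟨i, h⟩
    refine ⟨a + i, ?_⟩
    rw [add_assoc]
    exact h
  · rintro ⟨i, h⟩
    refine ⟨i - a, ?_⟩
    have h1 : a + (i - a) = i := by ring
    have h2 : a + (i - a + 1) = i + 1 := by ring
    simp only [h1, h2]
    exact h

theorem ce_refl (a : ℤ) {x y : V} : CE (fun i => c (a - i)) x y ↔ CE c x y := by
  constructor
  · rintro ⟨i, h⟩
    refine ⟨a - (i + 1), ?_⟩
    have h1 : a - (i + 1) + 1 = a - i := by ring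
    rw [h1]
    rcases h with h | h
    · exact Or.inr ⟨h.2, h.1⟩
    · exact Or.inl ⟨h.2, h.1⟩
  · rintro ⟨i, h⟩
    refine ⟨a - (i + 1), ?_⟩
    have h1 : a - (a - (i + 1)) = i + 1 := by ring
    have h2 : a - (a - (i + 1) + 1) = i := by ring
    simp only [h1, h2]
    rcases h with h | h
    · exact Or.inr ⟨h.2, h.1⟩
    · exact Or.inl ⟨h.2, h.1⟩

/-- every vertex of a cycle is one of `c 0, …, c (m - 1)` -/
theorem cy_mod (hc : Cy H m c) (a i : ℤ) : ∃ j, a ≤ j ∧ j < a + m ∧ c j = c i := by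
  have h3 := hc.three
  have hm : (0 : ℤ) < m := by omega
  refine ⟨a + (i - a) % m, ?_, ?_, ?_⟩
  · have := Int.emod_nonneg (i - a) (ne_of_gt hm)
    omega
  · have := Int.emod_lt_of_pos (i - a) hm
    omega
  · rw [cy_eq hc]
    refine ⟨-((i - a) / m), ?_⟩
    have h1 := Int.emod_add_mul_ediv (i - a) m
    have h2 : (m : ℤ) * -((i - a) / m) = -(m * ((i - a) / m)) := by ring
    rw [h2]
    omega

end Pool.Agent.Lib.MP_a33b01_co_G5
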