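import Pool.Agent.Lib.MP_a33b01_co_G5.TpB
import Pool.Agent.Lib.MP_a33b01_co_G5.TpC1

set_option autoImplicit false

/-!
# MP_a33b01_co, project G5: the sides of a cycle
-/

namespace Pool.Agent.Lib.MP_a33b01_co_G5

open Classical
open Pool.Agent.Lib.MP_a33b01_co (Sph sk cn supp EvenG Removes Wg)

variable {V : Type} {F K J : Finset (Finset V)} {τ : Finset V} {H : SimpleGraph V} {m : ℕ}
  {c : ℤ → V}

/-- the graph of a cycle -/
private def TpC2_Z (hc : Cy H m c) : SimpleGraph V where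
  Adj x y := CE c x y
  symm := ⟨fun _ _ h => ce_symm h⟩
  loopless := ⟨fun _ h => (ce_adj hc h).ne rfl⟩

private theorem TpC2_even (hc : Cy H m c) : EvenG (TpC2_Z hc) := by
  intro v
  by_cases h : ∃ i, v = c i
  · obtain ⟨i, rfl⟩ := h
    have h1 : (TpC2_Z hc).neighborSet (c i) = {c (i + 1), c (i - 1)} := by
      ext y
      exact ce_iff hc i y
    rw [h1, Set.ncard_pair (cy_ne hc i).1.symm]
    exact even_two
  · have h1 : (TpC2_Z hc).neighborSet v = ∅ := by
      ext y
      simp only [Set.mem_empty_iff_false, iff_false]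
      rintro ⟨i, h2 | h2⟩
      · exact h ⟨i, h2.1⟩
      · exact h ⟨i + 1, h2.2⟩
    rw [h1, Set.ncard_empty]
    exact Even.zero

/-- A cycle is the boundary of a set of faces without `τ`: the graph with the adjacency relation
`CE c` is even (every vertex on the cycle has the two neighbours of `ce_iff`), use `Sph.bd`, and
take the complement (`br_compl`) if necessary. -/
theorem exists_side (hF : Sph F) (hle : H ≤ sk F) (hτ : τ ∈ F) (hc : Cy H m c) :
    ∃ K, K ⊆ F ∧ τ ∉ K ∧ BR K (CE c) := by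
  obtain ⟨K, hK, hb⟩ := hF.bd (TpC2_Z hc) (fun x y h => hle (ce_adj hc h)) (TpC2_even hc)
  have hb' : BR K (CE c) := hb
  by_cases h : τ ∈ K
  · exact ⟨F \ K, Finset.sdiff_subset, fun h1 => (Finset.mem_sdiff.1 h1).2 h, br_compl hF hK hb'⟩
  · exact ⟨K, hK, h, hb'⟩

private theorem TpC2_ne (hc : Cy H m c) (hb : BR K (CE c)) : K.Nonempty := by
  rw [Finset.nonempty_iff_ne_empty]
  rintro rfl
  have h1 : CE c (c 0) (c (0 + 1)) := ⟨0, Or.inl ⟨rfl, rfl⟩⟩
  have h2 := (hb _ _ (hc.adj 0).ne).2 h1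
  have h3 : cn (∅ : Finset (Finset V)) (c 0) (c (0 + 1)) = 0 := by
    unfold cn
    simp
  rw [h3] at h2
  exact absurd h2 (by decide)

/-- both sides of a cycle are nonempty -/
theorem side_nonempty (hF : Sph F) (hle : H ≤ sk F) (hc : Cy H m c) (hK : K ⊆ F)
    (hb : BR K (CE c)) : K.Nonempty ∧ (F \ K).Nonempty :=
  ⟨TpC2_ne hc hb, TpC2_ne hc (br_compl hF hK hb)⟩

end Pool.Agent.Lib.MP_a33b01_co_G5
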