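import Pool.Agent.Lib.MP_a33b01_co_G5.TpB
import Pool.Agent.Lib.MP_a33b01_co_G5.TpC1
import Pool.Agent.Lib.MP_a33b01_co_G5.TpC2

set_option autoImplicit false

/-!
# MP_a33b01_co, project G5: the sides of a cycle
-/

namespace Pool.Agent.Lib.MP_a33b01_co_G5

open Classical
open Pool.Agent.Lib.MP_a33b01_co (Sph sk cn supp EvenG Removes Wg)

variable {V : Type} {F K J : Finset (Finset V)} {τ : Finset V} {H : SimpleGraph V} {m : ℕ}
  {c : ℤ → V}

private theorem TpC3_step (hF : Sph F) (hc : Cy H m c) (hJF : J ⊆ F)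
    (h : ∀ x y, x ≠ y → Odd (cn J x y) → CE c x y) (i : ℤ) :
    Odd (cn J (c i) (c (i + 1))) ↔ Odd (cn J (c i) (c (i - 1))) := by
  have h1 := Pool.Agent.Lib.MP_a33b01_co.even_bd (H := J) (fun t ht => hF.card t (hJF ht)) (c i)
  have hne := cy_ne hc i
  have hne2 : c i ≠ c (i - 1) := by
    have := (cy_ne hc (i - 1)).2
    rw [sub_add_cancel] at this
    exact this.symm
  have h2 : ∀ b, b ≠ c i ∧ Odd (cn J (c i) b) →
      (b = c (i + 1) ∨ b = c (i - 1)) := by
    rintro b ⟨hb, ho⟩
    exact (ce_iff hc i b).1 (h _ _ hb.symm ho)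
  constructor
  · intro ho
    by_contra hn
    have h3 : {b | b ≠ c i ∧ Odd (cn J (c i) b)} = {c (i + 1)} := by
      ext b
      simp only [Set.mem_ofPred_eq, Set.mem_singleton_iff]
      constructor
      · intro hb
        rcases h2 b hb with h4 | h4
        · exact h4
        · rw [h4] at hb
          exact absurd hb.2 hn
      · rintro rfl
        exact ⟨hne.2.symm, ho⟩
    rw [h3, Set.ncard_singleton] at h1
    exact absurd h1 (by decide)
  · intro ho
    by_contra hn
    have h3 : {b | b ≠ c i ∧ Odd (cn J (c i) b)} = {c (i - 1)} := by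
      ext b
      simp only [Set.mem_ofPred_eq, Set.mem_singleton_iff]
      constructor
      · intro hb
        rcases h2 b hb with h4 | h4
        · rw [h4] at hb
          exact absurd hb.2 hn
        · exact h4
      · rintro rfl
        exact ⟨hne2.symm, ho⟩
    rw [h3, Set.ncard_singleton] at h1
    exact absurd h1 (by decide)

private theorem TpC3_all (hF : Sph F) (hc : Cy H m c) (hJF : J ⊆ F)
    (h : ∀ x y, x ≠ y → Odd (cn J x y) → CE c x y) (i : ℤ) :
    Odd (cn J (c i) (c (i + 1))) ↔ Odd (cn J (c 0) (c 1)) := by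
  have hs : ∀ i : ℤ, Odd (cn J (c (i + 1)) (c (i + 1 + 1))) ↔ Odd (cn J (c i) (c (i + 1))) := by
    intro i
    rw [TpC3_step hF hc hJF h (i + 1), add_sub_cancel_right,
      Pool.Agent.Lib.MP_a33b01_co.cn_comm]
  induction i using Int.induction_on with
  | zero => simp
  | succ n ih => exact Iff.trans (hs n) ih
  | pred n ih =>
    have h1 := hs (-(n : ℤ) - 1)
    rw [sub_add_cancel] at h1
    rw [sub_add_cancel]
    exact Iff.trans h1.symm ih

/-- The sides of a cycle are connected.  If every edge in an odd number of faces of `J` is an edge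
of the cycle, these edges form an even set (`even_bd` of `MP_a33b01_co.SphA`), hence (at every
`c i` both or none of the two edges of the cycle) they are none or all the edges of the cycle.  In
the first case `J` is `∅` or `F` by `Sph.conn`, in the second case `K \ J` is `∅` or `F`. -/
theorem side_conn (hF : Sph F) (hle : H ≤ sk F) (hc : Cy H m c) (hK : K ⊆ F)
    (hb : BR K (CE c)) (hJ : J ⊆ K) (hne : J.Nonempty) (hne' : J ≠ K) :
    ∃ x y, x ≠ y ∧ Odd (cn J x y) ∧ ¬ CE c x y := by
  by_contra hcon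
  push Not at hcon
  have hJF : J ⊆ F := hJ.trans hK
  have hall := TpC3_all hF hc hJF hcon
  by_cases h0 : Odd (cn J (c 0) (c 1))
  · have hbJ : BR J (CE c) := by
      intro x y hxy
      constructor
      · exact hcon x y hxy
      · rintro ⟨i, ⟨rfl, rfl⟩ | ⟨rfl, rfl⟩⟩
        · exact (hall i).2 h0
        · rw [Pool.Agent.Lib.MP_a33b01_co.cn_comm]
          exact (hall i).2 h0
    have h1 : ∀ x y, x ≠ y → Even (cn (K \ J) x y) := by
      intro x y hxy
      have h2 := Pool.Agent.Lib.MP_a33b01_co.cn_sdiff hJ x y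
      have h3 : Odd (cn K x y) ↔ Odd (cn J x y) := (hb x y hxy).trans (hbJ x y hxy).symm
      rw [Nat.odd_iff, Nat.odd_iff] at h3
      rw [Nat.even_iff]
      omega
    rcases hF.conn _ (Finset.sdiff_subset.trans hK) h1 with h4 | h4
    · rw [Finset.sdiff_eq_empty_iff_subset] at h4
      exact hne' (Finset.Subset.antisymm hJ h4)
    · obtain ⟨t, ht⟩ := hne
      have h5 := hJF ht
      rw [← h4, Finset.mem_sdiff] at h5
      exact h5.2 ht
  · have h1 : ∀ x y, x ≠ y → Even (cn J x y) := by
      intro x y hxy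
      rw [← Nat.not_odd_iff_even]
      intro ho
      obtain ⟨i, ⟨rfl, rfl⟩ | ⟨rfl, rfl⟩⟩ := hcon x y hxy ho
      · exact h0 ((hall i).1 ho)
      · rw [Pool.Agent.Lib.MP_a33b01_co.cn_comm] at ho
        exact h0 ((hall i).1 ho)
    rcases hF.conn _ hJF h1 with h4 | h4
    · rw [h4] at hne
      exact Finset.not_nonempty_empty hne
    · apply hne'
      rw [h4] at hJ ⊢
      exact Finset.Subset.antisymm hJ hK

end Pool.Agent.Lib.MP_a33b01_co_G5
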